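import Pool.Agent.Work.MP_563a32_gt.W0

/-! Tables of a layered veering triangulation with 6 tetrahedra and 3 cusps. -/

namespace Pool.Agent.Work.MP_563a32_gt.Magic
open Finset

def upL : List ℕ :=
  [2, 6, 5, 8, 0, 11, 4, 9, 1, 10, 3, 7]

def dnL : List ℕ :=
  [4, 8, 0, 10, 6, 2, 1, 11, 3, 7, 9, 5]

def redL : List Bool :=
  [false, false, true, false, true, false]

def edL : List ℕ :=
  [0, 2, 3, 0, 4, 1, 1, 2, 5, 1, 4, 0, 2, 4, 1, 2, 2, 3, 3, 4, 5, 3, 2, 0, 4, 4, 3, 4, 2, 1, 5, 4,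
  3, 5, 2, 1]

def sdL : List ℕ :=
  [0, 0, 1, 1, 0, 0, 0, 0, 0, 1, 1, 0, 0, 0, 0, 1, 0, 0, 0, 0, 1, 1, 1, 1, 0, 1, 1, 1, 1, 1, 0, 1,
  0, 1, 1, 1]

def btL : List ℕ :=
  [4, 3, 5, 1, 0, 2]

def btiL : List ℕ :=
  [4, 3, 5, 1, 0, 2]

def wL : List (List ℕ) :=
  [[1, 0], [1, 0], [1, 0], [1, 0], [1, 6], [1, 0], [1, 0], [1, 0], [1, 3], [1, 3], [1, 3], [1, 3]]

def oL : List (List ℕ) :=
  [[0, 0], [1, 6], [2, 3], [0, 0], [1, 3], [2, 6], [0, 0], [2, 6], [1, 3], [0, 0], [2, 6], [1, 0],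
  [0, 0], [3, 3], [1, 0], [0, 0], [3, 6], [1, 0], [0, 0], [2, 3], [1, 3], [0, 0], [2, 3], [1, 0],
  [0, 0], [3, 6], [1, 0], [0, 0], [3, 3], [1, 0], [0, 0], [1, 3], [2, 0], [0, 0], [1, 0], [2, 3]]

def offL : List (List ℕ) :=
  [[2, 0], [3, 6], [4, 6], [3, 3], [4, 9], [2, 3]]

def cuL : List ℕ :=
  [0, 0, 2, 1, 0, 2, 0, 1, 2, 1, 0, 0, 2, 0, 1, 0, 0, 0, 1, 2, 0, 0, 1, 2]

def rootL : List ℕ :=
  [17, 22, 23]

def potL : List (List ℤ) :=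
  [[2, 0], [-1, -3], [0, 0], [0, -6], [1, 0], [-1, -3], [-2, -3], [2, 0], [-2, -3], [1, 0], [0,
  0], [3, 3], [-1, -3], [1, 0], [-1, -3], [-2, -3], [-3, -3], [0, 0], [1, 3], [1, 3], [-1, -3],
  [2, 3], [0, 0], [0, 0]]

def pot0L : List (List ℤ) :=
  [[0, 0], [-1, 0], [1, 6], [-1, 0], [1, 3], [0, 3]]

def YL : List (List ℤ) :=
  [[0, 1], [0, 1], [0, 1]]

def ZL : List (List ℤ) :=
  [[2, 2], [1, 2], [1, 2]]

def alL : List ℤ :=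
  [0, 0, 0, -1, 0, 1, 0, 0, 0, -1, 0, 0, 0, -1, -1, 0, 0, 1, 0, 0, 0, 0, 0, 0, 0, 0, 0, 0, 0, 0,
  0, 0, -1, 0, 0, 0]

def beL : List ℤ :=
  [0, -1, 0, 0, 0, 0, 0, 0, 0, 0, -1, 0, 0, 0, -1, 0, 0, 0, 0, -1, 0, 0, 0, -1, 0, 0, -1, 0, 0, 0,
  0, 0, 0, 0, 0, 0]

def g1L : List ℕ :=
  [13, 1, 5]

def g2L : List ℕ :=
  [19, 3, 10]

def coL : List (List ℤ) :=
  [[-1, 0, 0, -1], [0, -1, -1, 0], [1, 0, 0, -1]]

def rkL : List ℕ :=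
  [4, 1, 2, 2, 3, 1, 2, 2, 2, 1, 2, 3, 1, 1, 1, 2, 3, 0, 1, 1, 1, 2, 0, 0]

def parL : List ℕ :=
  [2, 24, 25, 12, 8, 31, 0, 7, 6, 16, 18, 15, 33, 22, 35, 4, 11, 0, 29, 27, 28, 34, 0, 0]

def rk0L : List ℕ :=
  [0, 1, 1, 1, 1, 2]

def par0L : List ℕ :=
  [0, 0, 4, 1, 8, 10]

def rfL : List (List ℕ) :=
  [[0, 2, 2, 2, 1, 3], [0, 1, 2, 1, 1, 3], [0, 1, 2, 1, 1, 1], [0, 2, 2, 2, 1, 1]]

def pfL : List (List ℕ) :=
  [[0, 0, 4, 0, 0, 2], [0, 4, 5, 4, 0, 0]]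

def prtL : List (List ℕ) :=
  [[6, 6], [3, 6], [3, 6]]

def fc (n : ℕ) : Fin 6 × Bool := (Fin.ofNat 6 (n / 2), n % 2 == 1)
def ix (F : Fin 6 × Bool) : ℕ := 2 * F.1 + F.2.toNat
def dt (n : ℕ) : (Fin 6 × Bool) × Fin 3 := (fc (n / 3), Fin.ofNat 3 n)

def tab : Tab (Fin 6) (Fin 3) 2 where
  up := ⟨fun F => fc (upL.getD (ix F) 0), fun F => fc (dnL.getD (ix F) 0), by decide +kernel,
    by decide +kernel⟩
  red u := redL.getD u false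
  ed F l := Fin.ofNat 6 (edL.getD (3 * ix F + l) 0)
  sd F l := sdL.getD (3 * ix F + l) 0 == 1
  bt := ⟨fun u => Fin.ofNat 6 (btL.getD u 0), fun u => Fin.ofNat 6 (btiL.getD u 0),
    by decide +kernel, by decide +kernel⟩
  wv F i := (wL.getD (ix F) []).getD i 0
  ov F l i := (oL.getD (3 * ix F + l) []).getD i 0
  offv u i := (offL.getD u []).getD i 0
  cusp u a := Fin.ofNat 3 (cuL.getD (4 * u + a) 0)
  root c := (Fin.ofNat 6 (rootL.getD c 0 / 4), Fin.ofNat 4 (rootL.getD c 0))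
  potv u a i := (potL.getD (4 * u + a) []).getD i 0
  pot0v u i := (pot0L.getD u []).getD i 0
  m := 3
  u0 := 0
  i0 := 0
  Y c i := (YL.getD c []).getD i 0
  Z c i := (ZL.getD c []).getD i 0
  al F l := alL.getD (3 * ix F + l) 0
  be F l := beL.getD (3 * ix F + l) 0
  g1 c := dt (g1L.getD c 0)
  g2 c := dt (g2L.getD c 0)
  co c j := (coL.getD c []).getD j 0
  rk p := rkL.getD (4 * p.1 + p.2) 0
  par p := dt (parL.getD (4 * p.1 + p.2) 0)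
  rk0 u := rk0L.getD u 0
  par0 u := fc (par0L.getD u 0)
  rf j u := (rfL.getD j []).getD u 0
  pf j u := Fin.ofNat 6 ((pfL.getD j []).getD u 0)

theorem ok : tab.Ok := by
  constructor <;> decide +kernel

def prt (c : Fin 3) (i : Fin 2) : ℕ := (prtL.getD c []).getD i 0

theorem htot : ∀ i, ∑ F, tab.wv F i = ![12, 18] i := by decide +kernel

theorem hprt : ∀ c i, ∑ F ∈ univ.filter (fun F : Fin 6 × Bool => tab.cusp F.1 (topV F.2 2) = c),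
    tab.wv F i = prt c i := by decide +kernel

theorem hst : ∀ u, ∃ j₀, (∀ i, ![1, 0] i ≤ tab.fev u j₀ i) ∧
    ∀ j, j ≠ j₀ → ∀ i, ![1, 0] i ≤ tab.fev u j i := by decide +kernel

end Pool.Agent.Work.MP_563a32_gt.Magic
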