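import Pool.Agent.Work.MP_563a32_gt.W1
import Pool.Agent.Work.MP_563a32_gt.W2

/-! The upper bound: choice of the fibred classes. -/

namespace Pool.Agent.Work.MP_563a32_gt
open Finset

/-- Some element of the spectrum is at most `9 log (2 + T / s) / T`. -/
def Good (g n s T : ℕ) : Prop :=
  ∃ l ∈ Spectrum g n, l ≤ 9 * (Real.log (2 + (T : ℝ) / s) / T)

theorem magic {g n : ℕ} (hg : 2 ≤ g) (hn : n ≤ 3) : Good g n (g - 1) (g - 1) := by
  obtain ⟨k, rfl⟩ : ∃ k, g = k + 1 := ⟨g - 1, by omega⟩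
  have l2 : ∀ v : Fin 2 → ℕ, lin v ![k, 1] = v 0 * k + v 1 * 1 := fun _ => Fin.sum_univ_two _
  have hl : lin ![1, 0] ![k, 1] = k := by rw [l2]; show 1 * k + 0 * 1 = k; omega
  obtain ⟨l, h1, h2⟩ := Magic.ok.realise ![12, 18] ![1, 0] ![1, 0] Magic.prt Magic.htot Magic.hprt
    Magic.hst ![k, 1] (by show 1 ≤ k; omega) (fun _ => 1)
    (by
      intro c
      have : linZ (Magic.tab.Y c) ![k, 1] = 1 := by
        refine (Fin.sum_univ_two _).trans ?_
        fin_cases c <;> exact (by omega : 0 * (k : ℤ) + 1 * (1 : ℕ) = 1)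
      rw [this]; exact Int.gcd_one_left _)
    ⟨0, rfl⟩ (univ.filter fun c : Fin 3 => (c : ℕ) < n) (g := k + 1) (n := n)
    (by
      intro c _
      rw [l2]
      fin_cases c
      · show 3 * (3 * 1) ≤ 6 * k + 6 * 1; omega
      · show 3 * (3 * 1) ≤ 3 * k + 6 * 1; omega
      · show 3 * (3 * 1) ≤ 3 * k + 6 * 1; omega)
    (by
      rw [l2, Fin.sum_univ_three]
      show 12 * k + 18 * 1 + 3 * 4 = 3 * (4 * (k + 1) + 2 * (1 + 1 + 1)); omega)
    (by interval_cases n <;> decide) (by rw [hl]; omega) le_rfl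
  refine ⟨l, h1, h2.trans (le_of_eq ?_)⟩
  rw [hl]
  show ((3 : ℕ) : ℝ) * _ = _
  simp only [Nat.add_sub_cancel]
  push_cast; ring

theorem c40 {a b c d s T m0 m1 m4 m5 g n : ℕ} (p1 p3 : Bool) (q : Bool) (hs : 1 ≤ s) (ha : s ≤ a)
    (hc : s ≤ c) (hT : s ≤ T) (hb : T ≤ b) (hd : T ≤ d) (h0 : Int.gcd ((b : ℤ) - d) c = m0)
    (h1 : Int.gcd ((b : ℤ) - d) a = m1) (h4 : Int.gcd ((c : ℤ) - a) b = m4)
    (h5 : Int.gcd ((c : ℤ) - a) d = m5) (hone : m0 = 1) (k0 : q = false → 3 * m0 ≤ c)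
    (k1 : p1 = false → 3 * m1 ≤ a) (k5 : q = false → 3 * m5 ≤ d)
    (hg : a + b + c + d + 2 = 2 * g + (m0 + m1 + m4 + m5))
    (hn : n = m4 + (if q then m0 + m5 else 0) + (if p1 then m1 else 0) + if p3 then a + b else 0) :
    Good g n s T := by
  obtain ⟨t, rfl⟩ := Nat.exists_eq_add_of_le hT
  obtain ⟨r1, rfl⟩ := Nat.exists_eq_add_of_le ha
  obtain ⟨r2, rfl⟩ := Nat.exists_eq_add_of_le hb
  obtain ⟨r3, rfl⟩ := Nat.exists_eq_add_of_le hc
  obtain ⟨r4, rfl⟩ := Nat.exists_eq_add_of_le hd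
  have l6 : ∀ v : Fin 6 → ℕ, lin v ![s, t, r1, r2, r3, r4] =
      v 0 * s + v 1 * t + v 2 * r1 + v 3 * r2 + v 4 * r3 + v 5 * r4 := fun _ => Fin.sum_univ_six _
  have z6 : ∀ v : Fin 6 → ℤ, linZ v ![s, t, r1, r2, r3, r4] =
      v 0 * s + v 1 * t + v 2 * r1 + v 3 * r2 + v 4 * r3 + v 5 * r4 := fun _ => Fin.sum_univ_six _
  have hσ : lin ![1, 0, 0, 0, 0, 0] ![s, t, r1, r2, r3, r4] = s := by
    rw [l6]; show 1 * s + 0 * t + 0 * r1 + 0 * r2 + 0 * r3 + 0 * r4 = s; omega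
  have hτ : lin ![1, 1, 0, 0, 0, 0] ![s, t, r1, r2, r3, r4] = s + t := by
    rw [l6]; show 1 * s + 1 * t + 0 * r1 + 0 * r2 + 0 * r3 + 0 * r4 = s + t; omega
  obtain ⟨l, e1, e2⟩ := C40.ok.realise ![48, 24, 12, 12, 12, 12] ![1, 0, 0, 0, 0, 0]
    ![1, 1, 0, 0, 0, 0] C40.prt C40.htot C40.hprt C40.hst ![s, t, r1, r2, r3, r4] hs
    ![m0, m1, s + r3 + (s + t + r4), s + r1 + (s + t + r2), m4, m5]
    (by
      intro c
      rw [z6, z6]
      fin_cases c
      · show Int.gcd (0 * (s : ℤ) + 0 * t + 0 * r1 + 1 * r2 + 0 * r3 + -1 * r4)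
          (1 * (s : ℤ) + 0 * t + 0 * r1 + 0 * r2 + 1 * r3 + 0 * r4) = m0
        rw [← h0]; congr 1 <;> omega
      · show Int.gcd (0 * (s : ℤ) + 0 * t + 0 * r1 + 1 * r2 + 0 * r3 + -1 * r4)
          (1 * (s : ℤ) + 0 * t + 1 * r1 + 0 * r2 + 0 * r3 + 0 * r4) = m1
        rw [← h1]; congr 1 <;> omega
      · show Int.gcd (0 * (s : ℤ) + 0 * t + 0 * r1 + 0 * r2 + 0 * r3 + 0 * r4)
          (2 * (s : ℤ) + 1 * t + 0 * r1 + 0 * r2 + 1 * r3 + 1 * r4) = s + r3 + (s + t + r4)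
        simp only [zero_mul, add_zero, Int.gcd_zero_left]; omega
      · show Int.gcd (0 * (s : ℤ) + 0 * t + 0 * r1 + 0 * r2 + 0 * r3 + 0 * r4)
          (2 * (s : ℤ) + 1 * t + 1 * r1 + 1 * r2 + 0 * r3 + 0 * r4) = s + r1 + (s + t + r2)
        simp only [zero_mul, add_zero, Int.gcd_zero_left]; omega
      · show Int.gcd (0 * (s : ℤ) + 0 * t + -1 * r1 + 0 * r2 + 1 * r3 + 0 * r4)
          (1 * (s : ℤ) + 1 * t + 0 * r1 + 1 * r2 + 0 * r3 + 0 * r4) = m4
        rw [← h4]; congr 1 <;> omega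
      · show Int.gcd (0 * (s : ℤ) + 0 * t + -1 * r1 + 0 * r2 + 1 * r3 + 0 * r4)
          (1 * (s : ℤ) + 1 * t + 0 * r1 + 0 * r2 + 0 * r3 + 1 * r4) = m5
        rw [← h5]; congr 1 <;> omega)
    ⟨0, hone⟩ (univ.filter fun c => ![q, p1, false, p3, true, q] c = true) (g := g) (n := n)
    (by
      intro c hc
      rw [l6]
      rw [mem_filter_univ, ← Ne, ← Bool.eq_false_iff] at hc
      fin_cases c
      · have := k0 hc
        show 3 * (3 * m0) ≤ 3 * s + 0 * t + 0 * r1 + 0 * r2 + 3 * r3 + 0 * r4; omega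
      · have := k1 hc
        show 3 * (3 * m1) ≤ 3 * s + 0 * t + 3 * r1 + 0 * r2 + 0 * r3 + 0 * r4; omega
      · show 3 * (3 * (s + r3 + (s + t + r4))) ≤ 18 * s + 9 * t + 0 * r1 + 0 * r2 + 9 * r3 + 9 * r4
        omega
      · show 3 * (3 * (s + r1 + (s + t + r2))) ≤ 18 * s + 9 * t + 9 * r1 + 9 * r2 + 0 * r3 + 0 * r4
        omega
      · cases hc
      · have := k5 hc
        show 3 * (3 * m5) ≤ 3 * s + 3 * t + 0 * r1 + 0 * r2 + 0 * r3 + 3 * r4; omega)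
    (by
      rw [l6, Fin.sum_univ_six]
      show 48 * s + 24 * t + 12 * r1 + 12 * r2 + 12 * r3 + 12 * r4 + 3 * 4 = 3 * (4 * g + 2 *
        (m0 + m1 + (s + r3 + (s + t + r4)) + (s + r1 + (s + t + r2)) + m4 + m5))
      omega)
    (by
      rw [hn, sum_filter, Fin.sum_univ_six]
      show _ = (if q = true then m0 else 0) + (if p1 = true then m1 else 0) + 0 +
        (if p3 = true then s + r1 + (s + t + r2) else 0) + m4 + if q = true then m5 else 0
      cases q <;> simp only [↓reduceIte, Bool.false_eq_true] <;> omega)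
    (by rw [hσ]; exact hs) (by rw [hσ, hτ]; omega)
  refine ⟨l, e1, e2.trans (le_of_eq ?_)⟩
  rw [hσ, hτ]
  show ((3 : ℕ) : ℝ) * _ = _
  push_cast; ring

theorem gcd_odd_two {z : ℤ} (h : z % 2 = 1) : Int.gcd z (2 : ℕ) = 1 := by
  rw [← Int.isCoprime_iff_gcd_eq_one]
  exact ⟨1, -(z / 2), by push_cast; omega⟩

theorem exists_good {g n : ℕ} (hg : 2 ≤ g) : ∃ s T, Good g n s T ∧ 1 ≤ s ∧ g + n ≤ 25 * T ∧
    (s = T ∨ s = g ∧ T ≤ n) := by
  by_cases h3 : n ≤ 3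
  · exact ⟨g - 1, g - 1, magic hg h3, by omega, by omega, .inl rfl⟩
  by_cases h4 : 4 * n ≤ g
  · obtain ⟨β, hβ1, hβ2⟩ : ∃ β, g < 4 * (n * β) ∧ 2 * (n * β) ≤ g := by
      have e := Nat.div_add_mod g (4 * n)
      have e' := Nat.mod_lt g (show 0 < 4 * n by omega)
      refine ⟨g / (4 * n) + 1, ?_, ?_⟩ <;> rw [mul_add, mul_one] <;> rw [mul_assoc] at e <;> omega
    obtain ⟨a, ha⟩ : ∃ a, g = a + n * β := ⟨g - n * β, by omega⟩
    refine ⟨n * β, n * β, c40 (a := a) (b := n * β) (c := a + n) (d := n * β + 1) (m0 := 1)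
      (m1 := 1) (m4 := n) (m5 := 1) false false false (by omega) (by omega) (by omega) le_rfl le_rfl
      (by omega) (by simp) (by simp) (by simp) (by simp) rfl (by omega) (by omega) (by omega)
      (by omega) (by simp), by omega, by omega, .inl rfl⟩
  by_cases h5 : n % 2 = 1 ∨ 3 ≤ g
  · obtain ⟨t, ht⟩ : ∃ t, n / 2 = t + 1 := ⟨n / 2 - 1, by omega⟩
    refine ⟨min g t, t, c40 (a := g) (b := t + 1) (c := g) (d := t) (m0 := 1)
      (m1 := 1) (m4 := t + 1) (m5 := t) (decide (n % 2 = 1)) false true (by omega) (by omega)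
      (by omega) (by omega) (by omega) le_rfl (by simp) (by simp) (by simp; omega) (by simp) rfl
      (by simp) (by simp; omega) (by simp) (by omega) ?_, by omega, by omega, by omega⟩
    by_cases h : n % 2 = 1 <;> simp [h] <;> omega
  obtain rfl : g = 2 := by omega
  by_cases h6 : n ≤ 6
  · refine ⟨1, 1, c40 (a := 1) (b := 1) (c := 2) (d := 2) (m0 := 1) (m1 := 1) (m4 := 1) (m5 := 1)
      true (decide (n = 6)) true le_rfl le_rfl (by omega) le_rfl le_rfl (by omega) (by decide)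
      (by decide) (by decide) (by decide) rfl (by simp) (by simp) (by simp) rfl ?_, le_rfl,
      by omega, .inl rfl⟩
    by_cases h : n = 6 <;> simp [h]; omega
  · obtain ⟨b, hb⟩ : ∃ b, b = 2 * ((n - 6) / 6) + 1 := ⟨_, rfl⟩
    obtain ⟨d, hd⟩ : ∃ d, n = 4 + 2 * b + d := ⟨n - 4 - 2 * b, by omega⟩
    refine ⟨min 2 (min b d), min b d, c40 (a := 2) (b := b) (c := 2) (d := d) (m0 := 1) (m1 := 1)
      (m4 := b) (m5 := d) true true true (by omega) (by omega) (by omega) (by omega) (by omega)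
      (by omega) (gcd_odd_two (by omega)) (gcd_odd_two (by omega)) (by simp) (by simp) rfl
      (by simp) (by simp) (by simp) (by omega) (by simp; omega), by omega, by omega, by omega⟩

theorem upper {g n : ℕ} (hg : 2 ≤ g) :
    ∃ l ∈ Spectrum g n, l ≤ 450 * (Real.log (2 + (n : ℝ) / g) / (g + n)) := by
  obtain ⟨s, T, ⟨l, h1, h2⟩, hs, hT, h⟩ := exists_good (n := n) hg
  refine ⟨l, h1, h2.trans ?_⟩
  have g0 : (0 : ℝ) < g := by exact_mod_cast (by omega : 0 < g)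
  have T0 : (0 : ℝ) < T := by exact_mod_cast (by omega : 0 < T)
  have hT' : (g : ℝ) + n ≤ 25 * T := by exact_mod_cast hT
  have q0 : (0 : ℝ) ≤ (n : ℝ) / g := by positivity
  have l0 : 0 ≤ Real.log (2 + (n : ℝ) / g) := Real.log_nonneg (by linarith)
  have key : Real.log (2 + (T : ℝ) / s) ≤ 2 * Real.log (2 + (n : ℝ) / g) := by
    rcases h with rfl | ⟨rfl, h⟩
    · rw [div_self T0.ne', two_mul, ← Real.log_mul (by positivity) (by positivity)]
      exact Real.log_le_log (by norm_num) (by nlinarith)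
    · have : (T : ℝ) / s ≤ n / s := by gcongr
      have := Real.log_le_log (by positivity) (add_le_add_right this 2)
      linarith
  calc 9 * (Real.log (2 + (T : ℝ) / s) / T) ≤ 9 * (2 * Real.log (2 + (n : ℝ) / g) / T) := by
        gcongr
    _ = 450 * (Real.log (2 + (n : ℝ) / g) / (25 * T)) := by field_simp; ring
    _ ≤ _ := by gcongr

end Pool.Agent.Work.MP_563a32_gt
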