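import Mathlib

/-! Pseudo-Anosov homeomorphisms of closed surfaces with marked points. -/

namespace Pool.Agent.Work.MP_563a32_gt
open Filter Topology

/-- The linear map of the plane that divides the real part by `lam` and multiplies the imaginary
part by `lam`. -/
noncomputable def diag (lam : ℝ) (w : ℂ) : ℂ := ⟨w.re / lam, lam * w.im⟩

/-- A pseudo-Anosov homeomorphism `f` of the closed surface `S` with punctures `punct`, given with
the flat structure of its two invariant measured foliations. Off the finite set `sing` there are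
charts whose transitions are `w ↦ ± w + c` (the foliations are the horizontal and the vertical
lines, with measures `|d Im w|` and `|d Re w|`). Each `x` in `sing` is a `prongs x`-pronged
singularity: it has a chart `ψ` with `(w - c) ^ 2 = ψ ^ prongs x`; it has at least three prongs
unless it is a puncture. In flat charts `f` is `± diag lam + c` with `lam > 1`. -/
structure PA (S : Type) [TopologicalSpace S] where
  sing : Finset S
  punct : Finset S
  punct_sub : punct ⊆ sing
  ι : Type
  chart : ι → OpenPartialHomeomorph S ℂ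
  cover : ∀ y, y ∉ sing → ∃ i, y ∈ (chart i).source
  reg : ∀ i, ∀ y ∈ (chart i).source, y ∉ sing
  trans : ∀ i j, ∀ y ∈ (chart i).source, y ∈ (chart j).source →
    ∃ ε c : ℂ, (ε = 1 ∨ ε = -1) ∧ ∀ᶠ z in 𝓝 y, chart j z = ε * chart i z + c
  prongs : S → ℕ
  cone : S → OpenPartialHomeomorph S ℂ
  cone_mem : ∀ x ∈ sing, x ∈ (cone x).source
  cone_zero : ∀ x ∈ sing, cone x x = 0
  prongs_pos : ∀ x ∈ sing, 1 ≤ prongs x
  prongs_three : ∀ x ∈ sing, x ∉ punct → 3 ≤ prongs x
  cone_eq : ∀ x ∈ sing, ∀ i, ∀ y ∈ (cone x).source, y ∈ (chart i).source →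
    ∃ c : ℂ, ∀ᶠ z in 𝓝 y, (chart i z - c) ^ 2 = cone x z ^ prongs x
  f : S ≃ₜ S
  lam : ℝ
  one_lt : 1 < lam
  f_sing : ∀ y, f y ∈ sing ↔ y ∈ sing
  f_punct : ∀ y, f y ∈ punct ↔ y ∈ punct
  affine : ∀ i j, ∀ y ∈ (chart i).source, f y ∈ (chart j).source →
    ∃ ε c : ℂ, (ε = 1 ∨ ε = -1) ∧ ∀ᶠ z in 𝓝 y, chart j (f z) = ε * diag lam (chart i z) + c

/-- The genus of `S` is `g`: the Euler-Poincare formula `∑ (p - 2) = 4 g - 4`. -/
def PA.HasGenus {S : Type} [TopologicalSpace S] (P : PA S) (g : ℕ) : Prop :=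
  ∑ x ∈ P.sing, ((P.prongs x : ℤ) - 2) = 4 * (g : ℤ) - 4

/-- The logarithms of the dilatations of pseudo-Anosov maps on the surface of genus `g` with `n`
punctures. -/
def Spectrum (g n : ℕ) : Set ℝ :=
  {l | ∃ (S : Type) (_ : TopologicalSpace S) (_ : CompactSpace S) (_ : T2Space S)
    (_ : ConnectedSpace S) (P : PA S), P.HasGenus g ∧ P.punct.card = n ∧ l = Real.log P.lam}

end Pool.Agent.Work.MP_563a32_gt
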