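import Pool.Agent.Work.MP_563a32_gt.DMain
import Mathlib
import Pool.Agent.Work.MP_563a32_gt.Defs

-- merged part: Pool.Agent.Work.MP_563a32_gt.AMain
section
-- merged part: Pool.Agent.Work.MP_563a32_gt.A1
section
/-! Basic properties of local isometries.

Plan. Near `w`, `j z = (chart i).symm (ε z + c)`. `germ`: use `trans` at the common value and the
continuity of both maps. `unique`: the set of `w ∈ U` where the germs agree is relatively open and
closed; at a limit point the values agree (Hausdorff), so `germ` applies, and the sign `-1` is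
excluded by `locinj`. `glue`: take `j₁ z` if `infDist z A ≤ infDist z B` and `j₂ z` otherwise
(treat empty `A` or `B` first). `pull`: if `j w` lies in the chart `i`, choose a chart `i'` at
`f.symm (j w)` with `cover` and invert the relation `affine i' i`. -/

namespace Pool.Agent.Work.MP_563a32_gt
open Filter Topology Complex

theorem diag_diag {l : ℝ} (hl : l ≠ 0) (z : ℂ) : diag l (diag l⁻¹ z) = z := by
  apply Complex.ext
  · simp only [diag]
    field_simp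
  · simp only [diag]
    field_simp

theorem diag_diag' {l : ℝ} (hl : l ≠ 0) (z : ℂ) : diag l⁻¹ (diag l z) = z := by
  have h := diag_diag (inv_ne_zero hl) z
  rwa [inv_inv] at h

theorem continuous_diag (l : ℝ) : Continuous (diag l) := by
  have h : diag l = fun w : ℂ => ((w.re / l : ℝ) : ℂ) + ((l * w.im : ℝ) : ℂ) * I := by
    funext w
    apply Complex.ext <;> simp [diag]
  rw [h]
  fun_prop

theorem sq_unique {c c' w : ℂ} (h : ∀ᶠ z in 𝓝 w, (z - c) ^ 2 = (z - c') ^ 2) : c = c' := by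
  have h0 := h.self_of_nhds
  obtain ⟨z, hz, hne⟩ := ((h.filter_mono nhdsWithin_le_nhds).and
    (self_mem_nhdsWithin (a := w) (s := {w}ᶜ))).exists
  have h1 : (c - c') * (z - w) = 0 := by linear_combination (h0 - hz) / 2
  exact sub_eq_zero.1 ((mul_eq_zero.1 h1).resolve_right (sub_ne_zero.2 hne))

namespace PA
variable {S : Type} [TopologicalSpace S] {P : PA S}

theorem A1_aff (l : ℝ) {ε : ℂ} (hε : ε = 1 ∨ ε = -1) (z c : ℂ) :
    diag l (ε * z + c) = ε * diag l z + diag l c := by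
  rcases hε with rfl | rfl <;> apply Complex.ext <;> simp [diag] <;> ring

theorem A1_mul {ε δ : ℂ} (hε : ε = 1 ∨ ε = -1) (hδ : δ = 1 ∨ δ = -1) :
    ε * δ = 1 ∨ ε * δ = -1 := by
  rcases hε with rfl | rfl <;> rcases hδ with rfl | rfl <;> simp

theorem A1_sq {ε : ℂ} (hε : ε = 1 ∨ ε = -1) : ε * ε = 1 := by
  rcases hε with rfl | rfl <;> simp

theorem Imm.A1_form {j : ℂ → S} {w : ℂ} (h : P.Imm j w) : ∃ (i : P.ι) (ε c : ℂ), ε ≠ 0 ∧
    ε * w + c ∈ (P.chart i).target ∧ j =ᶠ[𝓝 w] fun z => (P.chart i).symm (ε * z + c) := by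
  obtain ⟨i, ε, c, hε, h⟩ := h
  refine ⟨i, ε, c, by rcases hε with rfl | rfl <;> simp, ?_, h.mono fun z hz => ?_⟩
  · rw [← h.self_of_nhds.2]
    exact (P.chart i).map_source h.self_of_nhds.1
  · beta_reduce
    rw [← hz.2, (P.chart i).left_inv hz.1]

theorem Imm.eventually {j : ℂ → S} {w : ℂ} (h : P.Imm j w) : ∀ᶠ z in 𝓝 w, P.Imm j z := by
  obtain ⟨i, ε, c, hε, h⟩ := h
  exact h.eventually_nhds.mono fun z hz => ⟨i, ε, c, hε, hz⟩

theorem isOpen_imm (j : ℂ → S) : IsOpen {w | P.Imm j w} := by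
  exact isOpen_iff_mem_nhds.2 fun w hw => Imm.eventually hw

theorem Imm.congr {j j' : ℂ → S} {w : ℂ} (h : P.Imm j w) (e : j' =ᶠ[𝓝 w] j) : P.Imm j' w := by
  obtain ⟨i, ε, c, hε, h⟩ := h
  exact ⟨i, ε, c, hε, (h.and e).mono fun z hz => by rw [hz.2]; exact hz.1⟩

theorem Imm.continuousAt {j : ℂ → S} {w : ℂ} (h : P.Imm j w) : ContinuousAt j w := by
  obtain ⟨i, ε, c, -, ht, e⟩ := h.A1_form
  refine ContinuousAt.congr ?_ e.symm
  exact ContinuousAt.comp (f := fun z => ε * z + c) ((P.chart i).continuousAt_symm ht)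
    (by fun_prop)

theorem Imm.not_sing {j : ℂ → S} {w : ℂ} (h : P.Imm j w) : j w ∉ P.sing := by
  obtain ⟨i, ε, c, -, h⟩ := h
  exact P.reg i _ h.self_of_nhds.1

theorem Imm.locinj {j : ℂ → S} {w : ℂ} (h : P.Imm j w) : ∃ U ∈ 𝓝 w, Set.InjOn j U := by
  obtain ⟨i, ε, c, hε, h⟩ := h
  refine ⟨_, h, fun z hz z' hz' e => ?_⟩
  have h1 : ε * z + c = ε * z' + c := by rw [← hz.2, ← hz'.2, e]
  have h2 := A1_sq hε
  linear_combination ε * h1 - (z - z') * h2

theorem Imm.map_nhds {j : ℂ → S} {w : ℂ} (h : P.Imm j w) : map j (𝓝 w) = 𝓝 (j w) := by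
  obtain ⟨i, ε, c, hε, ht, e⟩ := h.A1_form
  have h1 : map (fun z => ε * z + c) (𝓝 w) = 𝓝 (ε * w + c) :=
    ((Homeomorph.mulLeft₀ ε hε).trans (Homeomorph.addRight c)).map_nhds_eq w
  rw [map_congr e, e.self_of_nhds, ← (P.chart i).symm.map_nhds_eq ht, ← h1, map_map]
  rfl

theorem Imm.comp {j : ℂ → S} {w ε c : ℂ} (hε : ε = 1 ∨ ε = -1) (h : P.Imm j (ε * w + c)) :
    P.Imm (fun z => j (ε * z + c)) w := by
  obtain ⟨i, δ, d, hδ, h⟩ := h
  have h1 : Tendsto (fun z => ε * z + c) (𝓝 w) (𝓝 (ε * w + c)) :=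
    (show Continuous fun z : ℂ => ε * z + c by fun_prop).tendsto w
  refine ⟨i, δ * ε, δ * c + d, A1_mul hδ hε, (h1.eventually h).mono fun z hz => ⟨hz.1, ?_⟩⟩
  rw [hz.2]
  ring

theorem exists_imm {y : S} (hy : y ∉ P.sing) : ∃ j : ℂ → S, j 0 = y ∧ P.Imm j 0 := by
  obtain ⟨i, hi⟩ := P.cover y hy
  refine ⟨fun z => (P.chart i).symm (z + P.chart i y), ?_, i, 1, P.chart i y, Or.inl rfl, ?_⟩
  · beta_reduce
    rw [zero_add, (P.chart i).left_inv hi]
  · have h1 : ∀ᶠ z in 𝓝 (0 : ℂ), z + P.chart i y ∈ (P.chart i).target := by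
      refine (show Continuous fun z : ℂ => z + P.chart i y by fun_prop).continuousAt.eventually
        ((P.chart i).open_target.mem_nhds ?_)
      change 0 + P.chart i y ∈ (P.chart i).target
      rw [zero_add]
      exact (P.chart i).map_source hi
    refine h1.mono fun z hz => ⟨(P.chart i).map_target hz, ?_⟩
    rw [(P.chart i).right_inv hz, one_mul]

theorem Imm.germ {j j' : ℂ → S} {w w' : ℂ} (h : P.Imm j w) (h' : P.Imm j' w')
    (e : j w = j' w') :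
    ∃ ε : ℂ, (ε = 1 ∨ ε = -1) ∧ ∀ᶠ z in 𝓝 (0 : ℂ), j (w + z) = j' (w' + ε * z) := by
  have hc := h.continuousAt
  obtain ⟨i, ε, c, hε, h⟩ := h
  obtain ⟨i', ε', c', hε', h'⟩ := h'
  have hs : j w ∈ (P.chart i').source := e ▸ h'.self_of_nhds.1
  obtain ⟨δ, d, hδ, ht⟩ := P.trans i i' (j w) h.self_of_nhds.1 hs
  have h0 : ε' * w' + c' = δ * (ε * w + c) + d := by
    rw [← h'.self_of_nhds.2, ← e, ht.self_of_nhds, h.self_of_nhds.2]
  refine ⟨ε' * (δ * ε), A1_mul hε' (A1_mul hδ hε), ?_⟩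
  have t1 : Tendsto (fun z => w + z) (𝓝 (0 : ℂ)) (𝓝 w) :=
    (show Continuous fun z : ℂ => w + z by fun_prop).tendsto' _ _ (add_zero w)
  have t2 : Tendsto (fun z => w' + ε' * (δ * ε) * z) (𝓝 (0 : ℂ)) (𝓝 w') :=
    (show Continuous fun z : ℂ => w' + ε' * (δ * ε) * z by fun_prop).tendsto' _ _ (by simp)
  filter_upwards [t1.eventually h, t2.eventually h', t1.eventually (hc.eventually ht),
    t1.eventually (hc.eventually ((P.chart i').open_source.mem_nhds hs))] with z h1 h2 h3 h4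
  refine (P.chart i').injOn h4 h2.1 ?_
  rw [h3, h1.2, h2.2]
  linear_combination -h0 - δ * ε * z * A1_sq hε'

theorem ImmOn.unique [T2Space S] {j j' : ℂ → S} {U : Set ℂ} (hU : IsPreconnected U)
    (h : P.ImmOn j U) (h' : P.ImmOn j' U) {w₀ : ℂ} (h0 : w₀ ∈ U) (e : j =ᶠ[𝓝 w₀] j') :
    ∀ w ∈ U, j =ᶠ[𝓝 w] j' := by
  refine hU.subset_of_closure_inter_subset (u := {w | j =ᶠ[𝓝 w] j'})
    isOpen_setOfPred_eventually_nhds ⟨w₀, h0, e⟩ ?_
  rintro w ⟨hw, hwU⟩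
  have hf : ∃ᶠ z in 𝓝 w, j =ᶠ[𝓝 z] j' := mem_closure_iff_frequently.1 hw
  have h1 : j w = j' w := tendsto_nhds_unique_of_frequently_eq (h w hwU).continuousAt
    (h' w hwU).continuousAt (hf.mono fun z hz => hz.self_of_nhds)
  obtain ⟨ε, hε, hg⟩ := (h w hwU).germ (h' w hwU) h1
  have t1 : Tendsto (fun z => z - w) (𝓝 w) (𝓝 (0 : ℂ)) :=
    (show Continuous fun z : ℂ => z - w by fun_prop).tendsto' _ _ (sub_self w)
  have h2 : ∀ᶠ z in 𝓝 w, j z = j' (w + ε * (z - w)) :=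
    (t1.eventually hg).mono fun z hz => by rwa [add_sub_cancel] at hz
  rcases hε with rfl | rfl
  · exact h2.mono fun z hz => by rwa [one_mul, add_sub_cancel] at hz
  · exfalso
    obtain ⟨V, hV, hinj⟩ := (h' w hwU).locinj
    have t2 : Tendsto (fun z => w + -1 * (z - w)) (𝓝 w) (𝓝 w) :=
      (show Continuous fun z : ℂ => w + -1 * (z - w) by fun_prop).tendsto' _ _ (by simp)
    obtain ⟨z₀, h3, h4⟩ := (hf.and_eventually
      (h2.and ((show ∀ᶠ z in 𝓝 w, z ∈ V from hV).and (t2.eventually hV))).eventually_nhds).exists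
    have h5 : ∃ᶠ z in 𝓝 z₀, z ∈ ({w}ᶜ : Set ℂ) :=
      mem_closure_iff_frequently.1 (dense_compl_singleton w z₀)
    obtain ⟨z, h6, h7, h8, h9, h10⟩ := (h5.and_eventually (h3.and h4)).exists
    have h11 := hinj h9 h10 (h7.symm.trans h8)
    exact h6 (by rw [Set.mem_singleton_iff]; linear_combination h11 / 2)

theorem glue (j₁ j₂ : ℂ → S) {A B : Set ℂ} (hA : closure A ∩ B ⊆ A) (hB : A ∩ closure B ⊆ B)
    (e : ∀ w ∈ A ∩ B, j₁ =ᶠ[𝓝 w] j₂) :
    ∃ j : ℂ → S, (∀ w ∈ A, j =ᶠ[𝓝 w] j₁) ∧ ∀ w ∈ B, j =ᶠ[𝓝 w] j₂ := by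
  classical
  rcases A.eq_empty_or_nonempty with rfl | hAne
  · exact ⟨j₂, fun w hw => hw.elim, fun w _ => EventuallyEq.rfl⟩
  rcases B.eq_empty_or_nonempty with rfl | hBne
  · exact ⟨j₁, fun w _ => EventuallyEq.rfl, fun w hw => hw.elim⟩
  refine ⟨fun z => if Metric.infDist z A ≤ Metric.infDist z B then j₁ z else j₂ z,
    fun w hw => ?_, fun w hw => ?_⟩
  · by_cases hc : w ∈ closure B
    · refine (e w ⟨hw, hB ⟨hw, hc⟩⟩).mono fun z hz => ?_
      beta_reduce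
      rw [← hz, ite_self]
    · have h1 : Metric.infDist w A < Metric.infDist w B := by
        rw [Metric.infDist_zero_of_mem hw]
        exact (Metric.infDist_pos_iff_notMem_closure hBne).1 hc
      exact ((Metric.continuous_infDist_pt A).continuousAt.eventually_lt
        (Metric.continuous_infDist_pt B).continuousAt h1).mono fun z hz => if_pos hz.le
  · by_cases hc : w ∈ closure A
    · refine (e w ⟨hA ⟨hc, hw⟩, hw⟩).mono fun z hz => ?_
      beta_reduce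
      rw [← hz, ite_self]
    · have h1 : Metric.infDist w B < Metric.infDist w A := by
        rw [Metric.infDist_zero_of_mem hw]
        exact (Metric.infDist_pos_iff_notMem_closure hAne).1 hc
      exact ((Metric.continuous_infDist_pt B).continuousAt.eventually_lt
        (Metric.continuous_infDist_pt A).continuousAt h1).mono fun z hz => if_neg (not_le.2 hz)

theorem Imm.push {j : ℂ → S} {w : ℂ} (h : P.Imm j w) : P.Imm (P.push j) (diag P.lam w) := by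
  have hl : P.lam ≠ 0 := (zero_lt_one.trans P.one_lt).ne'
  have hc := h.continuousAt
  obtain ⟨i', hi'⟩ := P.cover (P.f (j w)) fun e => h.not_sing ((P.f_sing _).1 e)
  obtain ⟨i, ε, c, hε, h⟩ := h
  obtain ⟨δ, d, hδ, ht⟩ := P.affine i i' (j w) h.self_of_nhds.1 hi'
  have t1 : Tendsto (diag P.lam⁻¹) (𝓝 (diag P.lam w)) (𝓝 w) :=
    (continuous_diag _).tendsto' _ _ (diag_diag' hl w)
  have h2 : ∀ᶠ y in 𝓝 (j w), P.f y ∈ (P.chart i').source :=
    P.f.continuous.continuousAt.eventually ((P.chart i').open_source.mem_nhds hi')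
  refine ⟨i', δ * ε, δ * diag P.lam c + d, A1_mul hδ hε, ?_⟩
  filter_upwards [t1.eventually h, t1.eventually (hc.eventually ht),
    t1.eventually (hc.eventually h2)] with z h3 h4 h5
  refine ⟨h5, h4.trans ?_⟩
  rw [h3.2, A1_aff _ hε, diag_diag hl]
  ring

theorem Imm.pull {j : ℂ → S} {w : ℂ} (h : P.Imm j (diag P.lam w)) : P.Imm (P.pull j) w := by
  have hl : P.lam ≠ 0 := (zero_lt_one.trans P.one_lt).ne'
  have t1 : Tendsto (diag P.lam) (𝓝 w) (𝓝 (diag P.lam w)) := (continuous_diag _).tendsto w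
  have hc : Tendsto (P.pull j) (𝓝 w) (𝓝 (P.pull j w)) :=
    (P.f.symm.continuous.tendsto _).comp (h.continuousAt.tendsto.comp t1)
  have hf : ∀ z, P.f (P.pull j z) = j (diag P.lam z) := fun z => P.f.apply_symm_apply _
  obtain ⟨i', hi'⟩ := P.cover (P.pull j w) fun e => h.not_sing (hf w ▸ (P.f_sing _).2 e)
  obtain ⟨i, ε, c, hε, h⟩ := h
  obtain ⟨δ, d, hδ, ht⟩ := P.affine i' i (P.pull j w) hi' (hf w ▸ h.self_of_nhds.1)
  refine ⟨i', δ * ε, diag P.lam⁻¹ (δ * (c - d)), A1_mul hδ hε, ?_⟩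
  filter_upwards [t1.eventually h, hc.eventually ht,
    hc.eventually ((P.chart i').open_source.mem_nhds hi')] with z h3 h4 h5
  refine ⟨h5, ?_⟩
  rw [hf, h3.2] at h4
  have h6 : diag P.lam (P.chart i' (P.pull j z)) = δ * ε * diag P.lam z + δ * (c - d) := by
    linear_combination -δ * h4 - diag P.lam (P.chart i' (P.pull j z)) * A1_sq hδ
  rw [← diag_diag' hl (P.chart i' (P.pull j z)), h6, A1_aff _ (A1_mul hδ hε), diag_diag' hl]

end PA
end Pool.Agent.Work.MP_563a32_gt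
end

-- merged part: Pool.Agent.Work.MP_563a32_gt.A2
section
/-! Cone neighbourhoods.

Plan. `goodR`: for each singular `x` take disjoint open neighbourhoods (`Set.Finite.t2_separation`),
pull them back by `(cone x).symm` to a neighbourhood of `0`, and note that
`‖ζ‖ ^ p ≤ r ^ 2` forces `‖ζ‖ ≤ δ` when `r ≤ 1` and `r ≤ δ ^ p`; the property holds for all small
`r`, so finitely many conditions can be met. `κ_pow`: the argument `ζ` of `(cone x).symm` has
`ζ ^ p = w ^ 2`. `κ_imm`: at `y = κ w` choose a chart, `cone_eq` gives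
`(chart (κ z) - c) ^ 2 = z ^ 2` near `w ≠ 0`, and continuity fixes the sign. `cone_lemma`: locally
from `cone_eq`; the constant is locally constant by `sq_unique`. `trap`: let `t*` be the supremum
of the `t` such that `j` maps the segment up to `t` into the open set of points
`(cone x).symm ζ`, `‖ζ‖ ^ p < rad ^ 2`; before `t*` the cone lemma confines the image to a compact
subset of it. `κ_surj`: `ζ` and `exp (2 / p * log w)` have the same `p`-th power, so their ratio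
is a root of unity (`Complex.mem_rootsOfUnity`, or `IsPrimitiveRoot.eq_pow_of_pow_eq_one`).
`κ_cover`: for `y` near `x`, `ζ = cone x y ≠ 0`; take `w` with `w ^ 2 = ζ ^ p`, `0 ≤ Re w`. -/

namespace Pool.Agent.Work.MP_563a32_gt
open Filter Topology Complex

namespace PA
variable {S : Type} [TopologicalSpace S] [T2Space S] {P : PA S}

/-- The cone coordinate of the slit disc. -/
noncomputable def A2_z (p m : ℕ) (w : ℂ) : ℂ :=
  exp (-(2 * Real.pi * I * m / p)) * exp (2 / p * log w)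

theorem A2_root (p m : ℕ) :
    exp (-(2 * Real.pi * I * m / p)) = (exp (2 * Real.pi * I / p) ^ m)⁻¹ := by
  rw [exp_neg, ← exp_nat_mul]
  congr 2
  ring

theorem A2_eta {p : ℕ} (hp : p ≠ 0) {w : ℂ} (h0 : w ≠ 0) : exp (2 / p * log w) ^ p = w ^ 2 := by
  have h1 : (p : ℂ) ≠ 0 := Nat.cast_ne_zero.2 hp
  have h2 : (p : ℂ) * (2 / p * log w) = (2 : ℕ) * log w := by
    push_cast
    field_simp
  rw [← exp_nat_mul, h2, exp_nat_mul, exp_log h0]

theorem A2_pow {p : ℕ} (hp : p ≠ 0) (m : ℕ) {w : ℂ} (h0 : w ≠ 0) : A2_z p m w ^ p = w ^ 2 := by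
  rw [A2_z, mul_pow, A2_eta hp h0, A2_root, inv_pow, ← pow_mul, mul_comm m, pow_mul,
    (isPrimitiveRoot_exp p hp).pow_eq_one, one_pow, inv_one, one_mul]

theorem A2_ne (p m : ℕ) (w : ℂ) : A2_z p m w ≠ 0 := mul_ne_zero (exp_ne_zero _) (exp_ne_zero _)

theorem A2_norm {p : ℕ} (hp : p ≠ 0) (m : ℕ) {w : ℂ} (h0 : w ≠ 0) {r : ℝ} (h : ‖w‖ ≤ r) :
    ‖A2_z p m w‖ ^ p ≤ r ^ 2 := by
  rw [← norm_pow, A2_pow hp m h0, norm_pow]
  exact pow_le_pow_left₀ (norm_nonneg _) h 2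

theorem A2_rot {p : ℕ} (m : Fin p) : (finRotate p m : ℕ) = (m + 1) % p := by
  obtain ⟨n, rfl⟩ := Nat.exists_eq_succ_of_ne_zero m.pos.ne'
  rw [finRotate_apply, Fin.val_add, Fin.val_one', Nat.add_mod_mod]

theorem A2_sign {g h : ℂ → ℂ} {w : ℂ} (hg : ContinuousAt g w) (hh : ContinuousAt h w)
    (h0 : h w ≠ 0) (e : ∀ᶠ z in 𝓝 w, g z ^ 2 = h z ^ 2) :
    ∃ ε : ℂ, (ε = 1 ∨ ε = -1) ∧ ∀ᶠ z in 𝓝 w, g z = ε * h z := by
  rcases sq_eq_sq_iff_eq_or_eq_neg.1 e.self_of_nhds with h1 | h1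
  · refine ⟨1, Or.inl rfl, ?_⟩
    have h2 : ∀ᶠ z in 𝓝 w, g z + h z ≠ 0 := (hg.add hh).eventually_ne (by
      rw [Pi.add_apply, h1, ← two_mul]
      exact mul_ne_zero two_ne_zero h0)
    filter_upwards [e, h2] with z h3 h4
    rcases sq_eq_sq_iff_eq_or_eq_neg.1 h3 with h5 | h5
    · rw [h5, one_mul]
    · exact absurd (by rw [h5, neg_add_cancel]) h4
  · refine ⟨-1, Or.inr rfl, ?_⟩
    have h2 : ∀ᶠ z in 𝓝 w, h z - g z ≠ 0 := (hh.sub hg).eventually_ne (by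
      rw [Pi.sub_apply, h1, sub_neg_eq_add, ← two_mul]
      exact mul_ne_zero two_ne_zero h0)
    filter_upwards [e, h2] with z h3 h4
    rcases sq_eq_sq_iff_eq_or_eq_neg.1 h3 with h5 | h5
    · exact absurd (by rw [h5, sub_self]) h4
    · rw [h5, neg_one_mul]

omit [T2Space S] in
theorem A2_symm_zero {x : S} (hx : x ∈ P.sing) : (P.cone x).symm 0 = x := by
  rw [← P.cone_zero x hx, (P.cone x).left_inv (P.cone_mem x hx)]

omit [T2Space S] in
theorem A2_zero_mem {x : S} (hx : x ∈ P.sing) : (0 : ℂ) ∈ (P.cone x).target :=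
  P.cone_zero x hx ▸ (P.cone x).map_source (P.cone_mem x hx)

omit [T2Space S] in
theorem A2_local {x : S} (hx : x ∈ P.sing) {j : ℂ → S} {w : ℂ} (h : P.Imm j w)
    (hs : j w ∈ (P.cone x).source) :
    ∃ c : ℂ, ∀ᶠ z in 𝓝 w, P.cone x (j z) ^ P.prongs x = (z - c) ^ 2 := by
  have hc := h.continuousAt
  obtain ⟨i, ε, d, hε, h⟩ := h
  obtain ⟨c, e⟩ := P.cone_eq x hx i (j w) hs h.self_of_nhds.1
  refine ⟨ε * (c - d), ?_⟩
  filter_upwards [h, hc.eventually e] with z h1 h2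
  rw [← h2, h1.2]
  rcases hε with rfl | rfl <;> ring

theorem goodR (P : PA S) : P.GoodR P.rad := by
  have key : ∃ r, P.GoodR r := by
    obtain ⟨U, hU, hd⟩ := P.sing.finite_toSet.t2_separation
    have h1 : ∀ x ∈ P.sing, ∀ᶠ r : ℝ in 𝓝[>] 0, ∀ ζ : ℂ, ‖ζ‖ ^ P.prongs x ≤ r ^ 2 →
        ζ ∈ (P.cone x).target ∧ (P.cone x).symm ζ ∈ U x := by
      intro x hx
      have h2 : ∀ᶠ ζ in 𝓝 (0 : ℂ), ζ ∈ (P.cone x).target ∧ (P.cone x).symm ζ ∈ U x := by
        refine Filter.Eventually.and ((P.cone x).open_target.mem_nhds (A2_zero_mem hx)) ?_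
        refine ((P.cone x).continuousAt_symm (A2_zero_mem hx)).eventually ((hU x).2.mem_nhds ?_)
        rw [A2_symm_zero hx]
        exact (hU x).1
      obtain ⟨δ, hδ, h3⟩ := Metric.eventually_nhds_iff.1 h2
      have h4 : ∀ᶠ r : ℝ in 𝓝 0, r ^ 2 < δ ^ P.prongs x :=
        (continuous_pow 2).continuousAt.eventually_lt continuousAt_const (by
          simpa using pow_pos hδ _)
      refine (h4.filter_mono nhdsWithin_le_nhds).mono fun r hr ζ hζ => h3 ?_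
      rw [dist_zero_right]
      exact lt_of_pow_lt_pow_left₀ _ hδ.le (hζ.trans_lt hr)
    obtain ⟨r, h2, hr⟩ := (((eventually_all_finset P.sing).2 h1).and self_mem_nhdsWithin).exists
    have h3 : ∀ x ∈ P.sing, ∀ x' ∈ P.sing, ∀ y, y ∈ U x → y ∈ U x' → x = x' := by
      intro x hx x' hx' y hy hy'
      by_contra hne
      exact Set.disjoint_left.1 (hd hx hx' hne) hy hy'
    refine ⟨r, hr, fun x hx ζ hζ => ⟨(h2 x hx ζ hζ).1, fun h0 hs => h0 ?_⟩,
      fun x hx x' hx' ζ ζ' hζ hζ' e => h3 x hx x' hx' _ (h2 x hx ζ hζ).2 (e ▸ (h2 x' hx' ζ' hζ').2)⟩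
    have h4 := h3 x hx _ hs _ (h2 x hx ζ hζ).2 (hU _).1
    rw [← (P.cone x).right_inv (h2 x hx ζ hζ).1, ← h4, P.cone_zero x hx]
  rw [rad, dif_pos key]
  exact key.choose_spec

theorem A2_mem (q : P.Pr) {w : ℂ} (h0 : w ≠ 0) (h : ‖w‖ ≤ P.rad) :
    A2_z (P.prongs q.1) q.2 w ∈ (P.cone q.1).target ∧ P.κ q w ∉ P.sing :=
  have h1 := P.goodR.2.1 q.1 q.1.2 _ (A2_norm q.2.pos.ne' q.2 h0 h)
  ⟨h1.1, h1.2 (A2_ne _ _ _)⟩

theorem κ_pow (q : P.Pr) {w : ℂ} (h0 : w ≠ 0) (h : ‖w‖ ≤ P.rad) :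
    P.κ q w ∈ (P.cone q.1).source ∧ P.cone q.1 (P.κ q w) ^ P.prongs q.1 = w ^ 2 := by
  have h1 := (A2_mem q h0 h).1
  refine ⟨(P.cone q.1).map_target h1, ?_⟩
  change P.cone q.1 ((P.cone q.1).symm (A2_z (P.prongs q.1) q.2 w)) ^ _ = _
  rw [(P.cone q.1).right_inv h1, A2_pow q.2.pos.ne' _ h0]

theorem κ_imm (q : P.Pr) {w : ℂ} (h0 : w ∈ slitPlane) (h : ‖w‖ < P.rad) : P.Imm (P.κ q) w := by
  have hne := slitPlane_ne_zero h0
  obtain ⟨h1, h2⟩ := A2_mem q hne h.le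
  obtain ⟨i, hi⟩ := P.cover _ h2
  obtain ⟨c, e⟩ := P.cone_eq q.1 q.1.2 i _ (κ_pow q hne h.le).1 hi
  have hz : ContinuousAt (A2_z (P.prongs q.1) q.2) w :=
    continuousAt_const.mul (continuousAt_const.mul (continuousAt_clog h0)).cexp
  have hc : ContinuousAt (P.κ q) w :=
    ContinuousAt.comp (f := A2_z (P.prongs q.1) q.2) ((P.cone q.1).continuousAt_symm h1) hz
  have h3 : ∀ᶠ z in 𝓝 w, (P.chart i (P.κ q z) - c) ^ 2 = z ^ 2 := by
    filter_upwards [hc.eventually e, isOpen_ne.mem_nhds hne,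
      continuous_norm.continuousAt.eventually_lt continuousAt_const h] with z h4 h5 h6
    rw [h4, (κ_pow q h5 h6.le).2]
  obtain ⟨ε, hε, h4⟩ := A2_sign (g := fun z => P.chart i (P.κ q z) - c) (h := fun z => z)
    ((ContinuousAt.comp (f := P.κ q) ((P.chart i).continuousAt hi) hc).sub continuousAt_const)
    continuousAt_id hne h3
  refine ⟨i, ε, c, hε, ?_⟩
  filter_upwards [h4, hc.eventually ((P.chart i).open_source.mem_nhds hi)] with z h5 h6
  exact ⟨h6, by rw [← h5, sub_add_cancel]⟩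

theorem κ_sq {q q' : P.Pr} {w w' : ℂ} (h0 : w ≠ 0) (h : ‖w‖ ≤ P.rad) (h0' : w' ≠ 0)
    (h' : ‖w'‖ ≤ P.rad) (e : P.κ q w = P.κ q' w') : q.1 = q'.1 ∧ w ^ 2 = w' ^ 2 := by
  have h1 : q.1 = q'.1 := Subtype.ext (P.goodR.2.2 q.1 q.1.2 q'.1 q'.1.2 _ _
    (A2_norm q.2.pos.ne' q.2 h0 h) (A2_norm q'.2.pos.ne' q'.2 h0' h') e)
  refine ⟨h1, ?_⟩
  rw [← (κ_pow q h0 h).2, ← (κ_pow q' h0' h').2, e, h1]

theorem κ_inj {q q' : P.Pr} {w : ℂ} (h0 : w ≠ 0) (h : ‖w‖ ≤ P.rad) (e : P.κ q w = P.κ q' w) :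
    q = q' := by
  have h1 := (κ_sq h0 h h0 h e).1
  have h2 := (A2_mem q h0 h).1
  have h3 := (A2_mem q' h0 h).1
  obtain ⟨x, m⟩ := q
  obtain ⟨x', m'⟩ := q'
  obtain rfl : x = x' := h1
  have h4 : A2_z (P.prongs x) m w = A2_z (P.prongs x) m' w := (P.cone x).symm.injOn h2 h3 e
  have h5 := mul_right_cancel₀ (exp_ne_zero _) h4
  rw [A2_root, A2_root, inv_inj] at h5
  rw [Fin.ext ((isPrimitiveRoot_exp _ m.pos.ne').pow_inj m.2 m'.2 h5)]

omit [T2Space S] in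
theorem κ_rot (q : P.Pr) {z : ℂ} (hz : 0 < z.im) : P.κ (P.rot q) z = P.κ q (-z) := by
  obtain ⟨x, m⟩ := q
  change (P.cone x).symm (A2_z (P.prongs x) (finRotate _ m : Fin _) z) =
    (P.cone x).symm (A2_z (P.prongs x) m (-z))
  congr 1
  have h1 : log (-z) = log z - Real.pi * I := by
    rw [log, log, arg_neg_eq_arg_sub_pi_of_im_pos hz, norm_neg]
    push_cast
    ring
  have h2 : 2 / (P.prongs x : ℂ) * (log z - Real.pi * I) =
      -(2 * Real.pi * I / P.prongs x) + 2 / P.prongs x * log z := by ring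
  rw [A2_z, A2_z, A2_root, A2_root, A2_rot, h1, h2, exp_add, exp_neg,
    ← pow_eq_pow_mod _ (isPrimitiveRoot_exp _ m.pos.ne').pow_eq_one, pow_succ, mul_inv, mul_assoc]

omit [T2Space S] in
theorem κ_tendsto (q : P.Pr) : Tendsto (P.κ q) (𝓝[≠] 0) (𝓝 (q.1 : S)) := by
  have h1 : Tendsto (A2_z (P.prongs q.1) q.2) (𝓝[≠] 0) (𝓝 0) := by
    refine Metric.tendsto_nhds.2 fun δ hδ => ?_
    have h2 : ∀ᶠ w : ℂ in 𝓝 0, ‖w‖ ^ 2 < δ ^ P.prongs q.1 :=
      (continuous_norm.pow 2).continuousAt.eventually_lt continuousAt_const (by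
        simpa using pow_pos hδ _)
    filter_upwards [h2.filter_mono nhdsWithin_le_nhds, self_mem_nhdsWithin] with w h3 h4
    rw [dist_zero_right]
    exact lt_of_pow_lt_pow_left₀ _ hδ.le ((A2_norm q.2.pos.ne' q.2 h4 le_rfl).trans_lt h3)
  have h2 := ((P.cone q.1).continuousAt_symm (A2_zero_mem q.1.2)).tendsto.comp h1
  rwa [A2_symm_zero q.1.2] at h2

omit [T2Space S] in
theorem κ_surj (x : P.sing) {ζ w : ℂ} (h0 : w ≠ 0) (h : ζ ^ P.prongs x = w ^ 2) :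
    ∃ m : Fin (P.prongs x), P.κ ⟨x, m⟩ w = (P.cone x).symm ζ := by
  have hp : P.prongs x ≠ 0 := Nat.one_le_iff_ne_zero.1 (P.prongs_pos x x.2)
  have : NeZero (P.prongs x) := ⟨hp⟩
  have hζ : ζ ≠ 0 := by
    rintro rfl
    rw [zero_pow hp] at h
    exact pow_ne_zero 2 h0 h.symm
  have h1 : (exp (2 / P.prongs x * log w) / ζ) ^ P.prongs x = 1 := by
    rw [div_pow, A2_eta hp h0, h, div_self (pow_ne_zero 2 h0)]
  obtain ⟨m, hm, e⟩ := (isPrimitiveRoot_exp _ hp).eq_pow_of_pow_eq_one h1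
  refine ⟨⟨m, hm⟩, ?_⟩
  change (P.cone x).symm (A2_z (P.prongs x) m w) = _
  rw [A2_z, A2_root, e, inv_div, div_mul_cancel₀ _ (exp_ne_zero _)]

theorem κ_cover (x : P.sing) {δ : ℝ} (hδ : 0 < δ) : ∀ᶠ y : S in 𝓝 (x : S), y = (x : S) ∨
    ∃ (m : Fin (P.prongs x)) (w : ℂ), w ∈ slitPlane ∧ ‖w‖ < δ ∧ y = P.κ ⟨x, m⟩ w := by
  have hp : P.prongs x ≠ 0 := Nat.one_le_iff_ne_zero.1 (P.prongs_pos x x.2)
  have h1 : ∀ᶠ y : S in 𝓝 (x : S), ‖P.cone x y‖ ^ P.prongs x < δ ^ 2 :=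
    (((P.cone x).continuousAt (P.cone_mem x x.2)).norm.pow _).eventually_lt continuousAt_const (by
      rw [Pi.pow_apply, P.cone_zero x x.2, norm_zero, zero_pow hp]
      exact pow_pos hδ 2)
  filter_upwards [h1, (P.cone x).open_source.mem_nhds (P.cone_mem x x.2)] with y h2 h3
  refine or_iff_not_imp_left.2 fun hne => ?_
  have h4 : P.cone x y ≠ 0 := fun e =>
    hne ((P.cone x).injOn h3 (P.cone_mem x x.2) (e.trans (P.cone_zero x x.2).symm))
  obtain ⟨w, hw, h5⟩ : ∃ w ∈ slitPlane, P.cone x y ^ P.prongs x = w ^ 2 := by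
    obtain ⟨w, hw⟩ := IsAlgClosed.exists_pow_nat_eq (P.cone x y ^ P.prongs x) two_pos
    have h6 : w ≠ 0 := by
      rintro rfl
      exact pow_ne_zero _ h4 (hw.symm.trans (zero_pow two_ne_zero))
    rcases mem_slitPlane_or_neg_mem_slitPlane h6 with h7 | h7
    · exact ⟨w, h7, hw.symm⟩
    · exact ⟨-w, h7, by rw [neg_sq, hw]⟩
  obtain ⟨m, hm⟩ := κ_surj x (slitPlane_ne_zero hw) h5
  refine ⟨m, w, hw, ?_, by rw [hm, (P.cone x).left_inv h3]⟩
  rw [← norm_pow, h5, norm_pow] at h2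
  exact lt_of_pow_lt_pow_left₀ _ hδ.le h2

omit [T2Space S] in
theorem cone_lemma {x : S} (hx : x ∈ P.sing) {j : ℂ → S} {U : Set ℂ} (hU : IsPreconnected U)
    (h : P.ImmOn j U) (hs : ∀ w ∈ U, j w ∈ (P.cone x).source) :
    ∃ c : ℂ, ∀ w ∈ U, ∀ᶠ z in 𝓝 w, P.cone x (j z) ^ P.prongs x = (z - c) ^ 2 := by
  rcases U.eq_empty_or_nonempty with rfl | ⟨w₀, h0⟩
  · exact ⟨0, fun w hw => hw.elim⟩
  obtain ⟨c, hc⟩ := A2_local hx (h w₀ h0) (hs w₀ h0)
  refine ⟨c, hU.subset_of_closure_inter_subset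
    (u := {w | ∀ᶠ z in 𝓝 w, P.cone x (j z) ^ P.prongs x = (z - c) ^ 2})
    isOpen_setOfPred_eventually_nhds ⟨w₀, h0, hc⟩ ?_⟩
  rintro w ⟨hw, hwU⟩
  obtain ⟨c', hc'⟩ := A2_local hx (h w hwU) (hs w hwU)
  obtain ⟨z, h1, h2⟩ := ((mem_closure_iff_frequently.1 hw).and_eventually
    hc'.eventually_nhds).exists
  rw [sq_unique ((Filter.Eventually.and h1 h2).mono fun v hv => hv.1.symm.trans hv.2)]
  exact hc'

theorem trap {x : S} (hx : x ∈ P.sing) {j : ℂ → S} {w u : ℂ} (hu : ‖u‖ = 1) {T ρ : ℝ}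
    (hT : 0 < T) (hρ : 0 < ρ) (hr : ρ + T ≤ P.rad)
    (h : ∀ t : ℝ, 0 ≤ t → t < T → P.Imm j (w + t * u))
    (hs : j w ∈ (P.cone x).source) (hn : ‖P.cone x (j w)‖ ^ P.prongs x < ρ ^ 2) :
    ∃ c : ℂ, ‖w - c‖ < ρ ∧ ∀ t : ℝ, 0 ≤ t → t < T → j (w + t * u) ∈ (P.cone x).source ∧
      ∀ᶠ z in 𝓝 (w + t * u), P.cone x (j z) ^ P.prongs x = (z - c) ^ 2 := by
  have hp : P.prongs x ≠ 0 := Nat.one_le_iff_ne_zero.1 (P.prongs_pos x hx)
  have hw : P.Imm j w := by simpa using h 0 le_rfl hT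
  obtain ⟨c, hc⟩ := A2_local hx hw hs
  have hcρ : ‖w - c‖ < ρ := by
    rw [← norm_pow, hc.self_of_nhds, norm_pow] at hn
    exact lt_of_pow_lt_pow_left₀ _ hρ.le hn
  have hsub : {ζ : ℂ | ‖ζ‖ ^ P.prongs x ≤ P.rad ^ 2} ⊆ (P.cone x).target :=
    fun ζ hζ => (P.goodR.2.1 x hx ζ hζ).1
  have hK : IsCompact {ζ : ℂ | ‖ζ‖ ^ P.prongs x ≤ P.rad ^ 2} := by
    refine Metric.isCompact_of_isClosed_isBounded
      (isClosed_le (continuous_norm.pow _) continuous_const)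
      (isBounded_iff_forall_norm_le.2 ⟨max 1 (P.rad ^ 2), fun ζ hζ => ?_⟩)
    rcases le_total ‖ζ‖ 1 with h1 | h1
    · exact h1.trans (le_max_left _ _)
    · exact ((le_self_pow₀ h1 hp).trans hζ).trans (le_max_right _ _)
  have hK' := (hK.image_of_continuousOn ((P.cone x).continuousOn_symm.mono hsub)).isClosed
  have hU : IsPreconnected ((fun t : ℝ => w + t * u) '' Set.Ico 0 T) :=
    isPreconnected_Ico.image _ (Continuous.continuousOn (by fun_prop))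
  have key := hU.subset_of_closure_inter_subset
    (u := {v | ∀ᶠ z in 𝓝 v, j z ∈ (P.cone x).source ∧ P.cone x (j z) ^ P.prongs x = (z - c) ^ 2})
    isOpen_setOfPred_eventually_nhds
    ⟨w, ⟨0, ⟨le_rfl, hT⟩, by simp⟩, Filter.Eventually.and
      (hw.continuousAt.eventually ((P.cone x).open_source.mem_nhds hs)) hc⟩ (by
      rintro _ ⟨hv, t, ht, rfl⟩
      have hi := h t ht.1 ht.2
      have hf := mem_closure_iff_frequently.1 hv
      have h1 : ‖w + t * u - c‖ < P.rad := by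
        calc ‖w + t * u - c‖ = ‖w - c + t * u‖ := by congr 1; ring
          _ ≤ ‖w - c‖ + ‖(t : ℂ) * u‖ := norm_add_le _ _
          _ = ‖w - c‖ + t := by rw [norm_mul, hu, mul_one, norm_real, Real.norm_of_nonneg ht.1]
          _ < P.rad := by linarith [ht.2]
      have h2 : ∀ᶠ z in 𝓝 (w + t * u), ‖z - c‖ < P.rad :=
        (show Continuous fun z : ℂ => ‖z - c‖ by fun_prop).continuousAt.eventually_lt
          continuousAt_const h1
      have h3 : j (w + t * u) ∈ (P.cone x).symm '' {ζ : ℂ | ‖ζ‖ ^ P.prongs x ≤ P.rad ^ 2} := by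
        refine hK'.mem_of_frequently_of_tendsto ((hf.and_eventually h2).mono fun z hz => ?_)
          hi.continuousAt
        obtain ⟨h4, h5⟩ := Filter.Eventually.self_of_nhds hz.1
        refine ⟨P.cone x (j z), ?_, (P.cone x).left_inv h4⟩
        change ‖P.cone x (j z)‖ ^ P.prongs x ≤ P.rad ^ 2
        rw [← norm_pow, h5, norm_pow]
        exact pow_le_pow_left₀ (norm_nonneg _) hz.2.le 2
      have h4 : j (w + t * u) ∈ (P.cone x).source := by
        obtain ⟨ζ, h5, h6⟩ := h3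
        exact h6 ▸ (P.cone x).map_target (hsub h5)
      obtain ⟨c', hc'⟩ := A2_local hx hi h4
      obtain ⟨z, h5, h6⟩ := (hf.and_eventually hc'.eventually_nhds).exists
      rw [sq_unique ((Filter.Eventually.and h5 h6).mono fun v hv => hv.1.2.symm.trans hv.2)]
      exact Filter.Eventually.and
        (hi.continuousAt.eventually ((P.cone x).open_source.mem_nhds h4)) hc')
  refine ⟨c, hcρ, fun t h0 ht => ?_⟩
  have h1 := key ⟨t, ⟨h0, ht⟩, rfl⟩
  exact ⟨(Filter.Eventually.self_of_nhds h1).1, Filter.Eventually.mono h1 fun z hz => hz.2⟩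

omit [T2Space S] in
theorem rot_fst (q : P.Pr) : (P.rot q).1 = q.1 := rfl

omit [T2Space S] in
theorem rot_trans (q q' : P.Pr) (h : q.1 = q'.1) : ∃ k : ℕ, (P.rot ^ k) q = q' := by
  obtain ⟨x, m⟩ := q
  obtain ⟨x', m'⟩ := q'
  obtain rfl : x = x' := h
  have key : ∀ k : ℕ, ∃ a : Fin (P.prongs x), (P.rot ^ k) ⟨x, m⟩ = ⟨x, a⟩ ∧
      (a : ℕ) = (m + k) % P.prongs x := by
    intro k
    induction k with
    | zero => exact ⟨m, rfl, (Nat.mod_eq_of_lt m.2).symm⟩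
    | succ k ih =>
      obtain ⟨a, h1, h2⟩ := ih
      refine ⟨finRotate _ a, ?_, ?_⟩
      · rw [pow_succ', Equiv.Perm.mul_apply, h1]
        rfl
      · rw [A2_rot, h2, Nat.mod_add_mod, add_assoc]
  obtain ⟨a, h1, h2⟩ := key (m' + (P.prongs x - m))
  refine ⟨_, h1.trans ?_⟩
  have h3 : (m : ℕ) + (m' + (P.prongs x - m)) = m' + P.prongs x := by have := m.2; omega
  rw [h3, Nat.add_mod_right, Nat.mod_eq_of_lt m'.2] at h2
  rw [Fin.ext h2]

end PA
end Pool.Agent.Work.MP_563a32_gt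
end

-- merged part: Pool.Agent.Work.MP_563a32_gt.A3
section
/-! How a developed segment ends, and the image of a prong.

Plan for `ending`, with `u = - ε v`. By compactness `j (w + t u)` has a cluster point `y` as
`t → T` from below. If `y` is regular take `j₀` with `j₀ 0 = y`, a local isometry on a ball of
radius `ρ`; by `map_nhds` there is `t₀` with `T - t₀ < ρ / 4` and `j (w + t₀ u) = j₀ ζ`,
`‖ζ‖ < ρ / 4`; `germ` and `unique` identify `j` with `z ↦ j₀ (ζ + ε' (z - w - t₀ u))` along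
`[t₀, T)`; `glue` along `[0, t₀]` and `[t₀, T]`. If `y = x` is singular choose `t₀` with
`T - t₀ < rad / 2` and `‖cone x (j (w + t₀ u))‖ ^ p < (rad / 2) ^ 2`; `trap` gives `c`, and
clustering at `x` forces `c = w + T u`; `κ_surj` gives the prong, `germ` a sign `ε''`, and
comparing `cone ^ p` on both sides (`κ_pow`, `sq_unique`) gives `ε'' = ε`.
Plan for `exists_isIm`: apply `ending` to `push (κ q)` from a small `w = T > 0` with `v = 1`,
`ε = 1`; the first alternative contradicts `κ_tendsto` and `not_sing`; extend the agreement over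
the slit disc of radius `rad / lam`, which is star-convex at the point, by `unique`; compare the
limits at `0`. `IsIm q q''` and `IsIm q' q''` give `q = q'` by `κ_inj`, so a choice function is
injective, hence a permutation. -/

namespace Pool.Agent.Work.MP_563a32_gt
open Filter Topology Complex

namespace PA
variable {S : Type} [TopologicalSpace S] [T2Space S] [CompactSpace S] {P : PA S}

theorem A3_shift {α : Type} {j k : ℂ → α} {a : ℂ} (h : ∀ᶠ z in 𝓝 (0 : ℂ), j (a + z) = k z) :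
    j =ᶠ[𝓝 a] fun z => k (z - a) := by
  have t1 : Tendsto (fun z => z - a) (𝓝 a) (𝓝 (0 : ℂ)) :=
    (show Continuous fun z : ℂ => z - a by fun_prop).tendsto' _ _ (sub_self a)
  exact (t1.eventually h).mono fun z hz => by rwa [add_sub_cancel] at hz

theorem A3_near {T ρ : ℝ} (hT : 0 < T) (hρ : 0 < ρ) :
    ∀ᶠ t in 𝓝[<] T, 0 ≤ t ∧ t < T ∧ T - t < ρ := by
  filter_upwards [Ioo_mem_nhdsLT (show max 0 (T - ρ) < T from max_lt hT (by linarith))] with t ht
  have h1 := max_lt_iff.1 ht.1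
  exact ⟨h1.1.le, ht.2, by linarith [h1.2]⟩

omit [CompactSpace S] in
theorem A3_reg {j : ℂ → S} {w u : ℂ} (hu : ‖u‖ = 1) {T : ℝ} (hT : 0 < T)
    (h : ∀ t : ℝ, 0 ≤ t → t < T → P.Imm j (w + t * u)) {y : S} (hy : y ∉ P.sing)
    (hc : MapClusterPt y (𝓝[<] T) fun t : ℝ => j (w + t * u)) :
    ∃ j' : ℂ → S, (∀ t : ℝ, 0 ≤ t → t < T → j' =ᶠ[𝓝 (w + t * u)] j) ∧ P.Imm j' (w + T * u) := by
  obtain ⟨j₀, h0, hi⟩ := exists_imm hy
  obtain ⟨ρ, hρ, hb⟩ := Metric.eventually_nhds_iff.1 hi.eventually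
  have hV : j₀ '' Metric.ball 0 (ρ / 2) ∈ 𝓝 y := by
    rw [← h0, ← hi.map_nhds]
    exact image_mem_map (Metric.ball_mem_nhds _ (half_pos hρ))
  obtain ⟨t₀, ⟨ζ, hζ, e⟩, ht0, htT, htρ⟩ := ((mapClusterPt_iff_frequently.1 hc _ hV).and_eventually
    (A3_near hT (half_pos hρ))).exists
  rw [mem_ball_zero_iff] at hζ
  obtain ⟨ε, hε, hg⟩ := (h t₀ ht0 htT).germ (hb (by rw [dist_zero_right]; linarith)) e.symm
  have hε1 : ‖ε‖ = 1 := by rcases hε with rfl | rfl <;> simp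
  have h1 : ∀ t : ℝ, t₀ ≤ t → t ≤ T →
      P.Imm (fun z => j₀ (ε * z + (ζ - ε * (w + t₀ * u)))) (w + t * u) := by
    intro t h2 h3
    refine Imm.comp hε (hb ?_)
    rw [dist_zero_right]
    calc ‖ε * (w + t * u) + (ζ - ε * (w + t₀ * u))‖ = ‖ζ + ε * ((t - t₀ : ℝ) * u)‖ := by
          congr 1
          push_cast
          ring
      _ ≤ ‖ζ‖ + ‖ε * ((t - t₀ : ℝ) * u)‖ := norm_add_le _ _
      _ = ‖ζ‖ + (t - t₀) := by
          rw [norm_mul, norm_mul, hε1, hu, one_mul, mul_one, norm_real,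
            Real.norm_of_nonneg (sub_nonneg.2 h2)]
      _ < ρ := by linarith
  have hcont : Continuous fun t : ℝ => w + t * u := by fun_prop
  have h2 : ∀ t : ℝ, t₀ ≤ t → t < T →
      j =ᶠ[𝓝 (w + t * u)] fun z => j₀ (ε * z + (ζ - ε * (w + t₀ * u))) := by
    intro t h3 h4
    refine ImmOn.unique (P := P) (isPreconnected_Ico.image _ hcont.continuousOn) ?_ ?_
      ⟨t₀, ⟨le_rfl, htT⟩, rfl⟩ ?_ _ ⟨t, ⟨h3, h4⟩, rfl⟩
    · rintro _ ⟨s, hs, rfl⟩
      exact h s (ht0.trans hs.1) hs.2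
    · rintro _ ⟨s, hs, rfl⟩
      exact h1 s hs.1 hs.2.le
    · refine (A3_shift hg).mono fun z hz => hz.trans ?_
      beta_reduce
      congr 1
      ring
  have hu0 : u ≠ 0 := norm_ne_zero_iff.1 (by rw [hu]; exact one_ne_zero)
  obtain ⟨j', hA, hB⟩ := glue j (fun z => j₀ (ε * z + (ζ - ε * (w + t₀ * u))))
    (A := (fun t : ℝ => w + t * u) '' Set.Icc 0 t₀) (B := (fun t : ℝ => w + t * u) '' Set.Icc t₀ T)
    (fun z hz => (isCompact_Icc.image hcont).isClosed.closure_subset hz.1)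
    (fun z hz => (isCompact_Icc.image hcont).isClosed.closure_subset hz.2) (by
      rintro _ ⟨⟨a, ha, rfl⟩, b, hb, e⟩
      have h3 : b = a := ofReal_injective (mul_right_cancel₀ hu0 (add_left_cancel e))
      exact h2 a (h3 ▸ hb.1) (ha.2.trans_lt htT))
  refine ⟨j', fun t h3 h4 => ?_, (h1 T htT.le le_rfl).congr (hB _ ⟨T, ⟨htT.le, le_rfl⟩, rfl⟩)⟩
  rcases le_total t t₀ with h5 | h5
  · exact hA _ ⟨t, ⟨h3, h5⟩, rfl⟩
  · exact (hB _ ⟨t, ⟨h5, h4.le⟩, rfl⟩).trans (h2 t h5 h4).symm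

theorem ending {j : ℂ → S} {w v ε : ℂ} (hv : v ∈ slitPlane) (hv1 : ‖v‖ = 1)
    (hε : ε = 1 ∨ ε = -1) {T : ℝ} (hT : 0 < T)
    (h : ∀ t : ℝ, 0 ≤ t → t < T → P.Imm j (w + t * (-ε * v))) :
    (∃ j' : ℂ → S, (∀ t : ℝ, 0 ≤ t → t < T → j' =ᶠ[𝓝 (w + t * (-ε * v))] j) ∧
      P.Imm j' (w + T * (-ε * v))) ∨
    ∃ (q : P.Pr) (t₀ : ℝ), 0 ≤ t₀ ∧ t₀ < T ∧ T - t₀ < P.rad ∧
      ∀ᶠ z in 𝓝 (0 : ℂ), j (w + t₀ * (-ε * v) + z) = P.κ q ((T - t₀ : ℝ) * v + ε * z) := by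
  have hu : ‖-ε * v‖ = 1 := by rcases hε with rfl | rfl <;> simpa using hv1
  obtain ⟨y, hy⟩ := exists_clusterPt_of_compactSpace
    (map (fun t : ℝ => j (w + t * (-ε * v))) (𝓝[<] T))
  have hc : MapClusterPt y (𝓝[<] T) fun t : ℝ => j (w + t * (-ε * v)) := hy
  by_cases hx : y ∈ P.sing
  swap
  · exact Or.inl (A3_reg hu hT h hx hc)
  right
  have hp : P.prongs y ≠ 0 := Nat.one_le_iff_ne_zero.1 (P.prongs_pos y hx)
  have hr := half_pos P.goodR.1
  have hcc := (P.cone y).continuousAt (P.cone_mem y hx)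
  have hV : {z | z ∈ (P.cone y).source ∧ ‖P.cone y z‖ ^ P.prongs y < (P.rad / 2) ^ 2} ∈ 𝓝 y :=
    Filter.Eventually.and ((P.cone y).open_source.mem_nhds (P.cone_mem y hx))
      ((hcc.norm.pow _).eventually_lt continuousAt_const (by
        rw [Pi.pow_apply, P.cone_zero y hx, norm_zero, zero_pow hp]
        exact pow_pos hr 2))
  obtain ⟨t₀, ⟨hs, hn⟩, ht0, htT, htρ⟩ := ((mapClusterPt_iff_frequently.1 hc _ hV).and_eventually
    (A3_near hT hr)).exists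
  have hγ : ∀ t : ℝ, w + t₀ * (-ε * v) + t * (-ε * v) = w + (t₀ + t : ℝ) * (-ε * v) := fun t => by
    push_cast
    ring
  obtain ⟨c, -, hcc'⟩ := trap hx hu (sub_pos.2 htT) hr (by linarith)
    (fun t h1 h2 => by rw [hγ]; exact h _ (add_nonneg ht0 h1) (by linarith)) hs hn
  have hcT : c = w + T * (-ε * v) := by
    have h1 : MapClusterPt (P.cone y y ^ P.prongs y) (𝓝[<] T)
        ((fun z => P.cone y z ^ P.prongs y) ∘ fun t : ℝ => j (w + t * (-ε * v))) :=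
      hc.continuousAt_comp (hcc.pow _)
    have h2 : Tendsto ((fun z => P.cone y z ^ P.prongs y) ∘ fun t : ℝ => j (w + t * (-ε * v)))
        (𝓝[<] T) (𝓝 ((w + T * (-ε * v) - c) ^ 2)) := by
      refine Tendsto.congr' ?_ (((show Continuous fun t : ℝ => (w + t * (-ε * v) - c) ^ 2 by
        fun_prop).tendsto T).mono_left nhdsWithin_le_nhds)
      filter_upwards [Ioo_mem_nhdsLT htT] with t ht
      have h3 := (hcc' (t - t₀) (sub_pos.2 ht.1).le (by linarith [ht.2])).2.self_of_nhds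
      rw [hγ, add_sub_cancel] at h3
      exact h3.symm
    have h3 := eq_of_nhds_neBot (ClusterPt.mono h1 h2)
    rw [P.cone_zero y hx, zero_pow hp] at h3
    exact (sub_eq_zero.1 (pow_eq_zero_iff two_ne_zero |>.1 h3.symm)).symm
  have hε2 : ε * ε = 1 := by rcases hε with rfl | rfl <;> simp
  have h0 := (hcc' 0 le_rfl (sub_pos.2 htT)).2
  rw [ofReal_zero, zero_mul, add_zero, hcT] at h0
  have hw' : ((T - t₀ : ℝ) : ℂ) * v ∈ slitPlane := by
    rcases hv with h1 | h1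
    · left
      rw [re_ofReal_mul]
      exact mul_pos (sub_pos.2 htT) h1
    · right
      rw [im_ofReal_mul]
      exact mul_ne_zero (sub_pos.2 htT).ne' h1
  have hn' : ‖((T - t₀ : ℝ) : ℂ) * v‖ < P.rad := by
    rw [norm_mul, hv1, mul_one, norm_real, Real.norm_of_nonneg (sub_pos.2 htT).le]
    linarith
  have hne := slitPlane_ne_zero hw'
  obtain ⟨m, hm⟩ := κ_surj (P := P) ⟨y, hx⟩ (ζ := P.cone y (j (w + t₀ * (-ε * v)))) hne (by
    refine h0.self_of_nhds.trans ?_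
    push_cast
    linear_combination ((T : ℂ) - t₀) ^ 2 * v ^ 2 * hε2)
  rw [(P.cone y).left_inv hs] at hm
  obtain ⟨ε', hε', hg⟩ := (h t₀ ht0 htT).germ (κ_imm ⟨⟨y, hx⟩, m⟩ hw' hn') hm.symm
  have hε2' : ε' * ε' = 1 := by rcases hε' with rfl | rfl <;> simp
  have t1 : Tendsto (fun z => w + t₀ * (-ε * v) + z) (𝓝 (0 : ℂ)) (𝓝 (w + t₀ * (-ε * v))) :=
    (show Continuous fun z : ℂ => w + t₀ * (-ε * v) + z by fun_prop).tendsto' _ _ (add_zero _)
  have t2 : Tendsto (fun z => ((T - t₀ : ℝ) : ℂ) * v + ε' * z) (𝓝 (0 : ℂ))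
      (𝓝 (((T - t₀ : ℝ) : ℂ) * v)) :=
    (show Continuous fun z : ℂ => ((T - t₀ : ℝ) : ℂ) * v + ε' * z by fun_prop).tendsto' _ _
      (by simp)
  have h1 : -ε * (((T - t₀ : ℝ) : ℂ) * v) = -ε' * (((T - t₀ : ℝ) : ℂ) * v) := by
    refine sq_unique (w := 0) ?_
    filter_upwards [hg, t1.eventually h0, t2.eventually (isOpen_ne.mem_nhds hne),
      t2.eventually (continuous_norm.continuousAt.eventually_lt continuousAt_const hn')]
      with z h2 h3 h4 h5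
    have h6 := (κ_pow (P := P) ⟨⟨y, hx⟩, m⟩ h4 h5.le).2
    rw [← h2] at h6
    have h7 := h3.symm.trans h6
    push_cast at h7 ⊢
    linear_combination h7 + (z ^ 2 - ((T : ℂ) - t₀) ^ 2 * v ^ 2) * hε2'
  have h2 : ε = ε' := neg_injective (mul_right_cancel₀ hne h1)
  exact ⟨⟨⟨y, hx⟩, m⟩, t₀, ht0, htT, by linarith, h2 ▸ hg⟩

omit [T2Space S] [CompactSpace S] in
theorem A3_diag {z : ℂ} (hz : z ∈ slitPlane) (h : ‖z‖ < P.rad / P.lam) :
    diag P.lam⁻¹ z ∈ slitPlane ∧ ‖diag P.lam⁻¹ z‖ < P.rad := by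
  have hl := zero_lt_one.trans P.one_lt
  have hre : (diag P.lam⁻¹ z).re = P.lam * z.re := by
    rw [diag, div_inv_eq_mul, mul_comm]
  have him : (diag P.lam⁻¹ z).im = P.lam⁻¹ * z.im := rfl
  constructor
  · rcases hz with h1 | h1
    · left
      rw [hre]
      exact mul_pos hl h1
    · right
      rw [him]
      exact mul_ne_zero (inv_ne_zero hl.ne') h1
  · rw [lt_div_iff₀ hl] at h
    refine lt_of_le_of_lt (abs_le_of_sq_le_sq' ?_ (by positivity)).2 h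
    have h1 : P.lam⁻¹ ≤ P.lam := (inv_le_one_of_one_le₀ P.one_lt.le).trans P.one_lt.le
    have h2 : P.lam⁻¹ ^ 2 ≤ P.lam ^ 2 := pow_le_pow_left₀ (inv_pos.2 hl).le h1 2
    rw [mul_pow, Complex.sq_norm, Complex.sq_norm, normSq_apply, normSq_apply, hre, him]
    nlinarith [mul_le_mul_of_nonneg_right h2 (mul_self_nonneg z.im)]

omit [T2Space S] [CompactSpace S] in
theorem A3_lim (q : P.Pr) : Tendsto (P.push (P.κ q)) (𝓝[≠] 0) (𝓝 (P.f q.1)) := by
  have hl := (zero_lt_one.trans P.one_lt).ne'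
  have h0 : ∀ l : ℝ, diag l 0 = 0 := fun l => by
    apply Complex.ext <;> simp [diag]
  have h1 : Tendsto (diag P.lam⁻¹) (𝓝[≠] 0) (𝓝[≠] 0) := by
    refine tendsto_nhdsWithin_iff.2 ⟨((continuous_diag _).tendsto' _ _ (h0 _)).mono_left
      nhdsWithin_le_nhds, eventually_mem_nhdsWithin.mono fun z hz e => hz ?_⟩
    rw [Set.mem_singleton_iff] at e ⊢
    rw [← diag_diag hl z, e, h0]
  exact (P.f.continuous.tendsto _).comp ((κ_tendsto q).comp h1)

theorem exists_isIm (q : P.Pr) : ∃ q', P.IsIm q q' := by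
  have hl := zero_lt_one.trans P.one_lt
  have hr := div_pos P.goodR.1 hl
  have hle : P.rad / P.lam ≤ P.rad := div_le_self P.goodR.1.le P.one_lt.le
  have hI : ∀ z ∈ slitPlane, ‖z‖ < P.rad / P.lam → P.Imm (P.push (P.κ q)) z := fun z hz h => by
    have h1 := (κ_imm q (A3_diag hz h).1 (A3_diag hz h).2).push
    rwa [diag_diag hl.ne'] at h1
  have hR : ∀ s : ℝ, 0 < s → s < P.rad / P.lam →
      (s : ℂ) ∈ slitPlane ∧ ‖(s : ℂ)‖ < P.rad / P.lam := fun s h1 h2 =>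
    ⟨ofReal_mem_slitPlane.2 h1, by rwa [norm_real, Real.norm_of_nonneg h1.le]⟩
  have hγ : ∀ T t : ℝ, (T : ℂ) + t * (-1 * 1) = (T - t : ℝ) := fun T t => by
    push_cast
    ring
  have t0 : Tendsto (fun s : ℝ => (s : ℂ)) (𝓝[>] 0) (𝓝[≠] 0) :=
    tendsto_nhdsWithin_iff.2 ⟨(continuous_ofReal.tendsto' _ _ ofReal_zero).mono_left
      nhdsWithin_le_nhds, eventually_mem_nhdsWithin.mono fun s hs e => ne_of_gt hs
        (ofReal_eq_zero.1 e)⟩
  obtain ⟨T, hT, hTr⟩ := exists_between hr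
  rcases ending (j := P.push (P.κ q)) (w := T) one_mem_slitPlane norm_one (Or.inl rfl) hT
    (fun t h1 h2 => by
      rw [hγ]
      exact hI _ (hR _ (by linarith) (by linarith)).1 (hR _ (by linarith) (by linarith)).2) with
    ⟨j', h1, h2⟩ | ⟨q', t₀, h1, h2, -, h3⟩
  · exfalso
    rw [hγ, sub_self, ofReal_zero] at h2
    have h3 : j' 0 = P.f q.1 := by
      refine tendsto_nhds_unique ((h2.continuousAt.tendsto.mono_left nhdsWithin_le_nhds).comp t0)
        (((A3_lim q).comp t0).congr' ?_)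
      filter_upwards [Ioo_mem_nhdsGT hT] with s hs
      have h4 := (h1 (T - s) (by linarith [hs.2]) (by linarith [hs.1])).self_of_nhds
      rw [hγ, sub_sub_cancel] at h4
      exact h4.symm
    exact h2.not_sing (h3 ▸ (P.f_sing _).2 q.1.2)
  · rw [hγ] at h3
    have ha := hR (T - t₀) (by linarith) (by linarith)
    have hD : IsPreconnected (slitPlane ∩ Metric.ball (0 : ℂ) (P.rad / P.lam)) :=
      (((starConvex_ofReal_slitPlane (sub_pos.2 h2)).inter ((convex_ball _ _).starConvex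
        (mem_ball_zero_iff.2 ha.2))).isPathConnected
        ⟨ha.1, mem_ball_zero_iff.2 ha.2⟩).isConnected.isPreconnected
    have key := ImmOn.unique (P := P) hD (fun z hz => hI z hz.1 (mem_ball_zero_iff.1 hz.2))
      (fun z hz => κ_imm q' hz.1 ((mem_ball_zero_iff.1 hz.2).trans_le hle))
      ⟨ha.1, mem_ball_zero_iff.2 ha.2⟩ ((A3_shift h3).mono fun z hz => hz.trans (by
        beta_reduce
        congr 1
        ring))
    refine ⟨q', Subtype.ext ?_, fun z hz h => key z ⟨hz, mem_ball_zero_iff.2 h⟩⟩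
    refine tendsto_nhds_unique ((κ_tendsto q').comp t0) (((A3_lim q).comp t0).congr' ?_)
    filter_upwards [Ioo_mem_nhdsGT hr] with s hs
    exact (key s ⟨(hR s hs.1 hs.2).1, mem_ball_zero_iff.2 (hR s hs.1 hs.2).2⟩).self_of_nhds

theorem isIm_σ (q : P.Pr) : P.IsIm q (P.σ q) := by
  have key : ∃ σ : Equiv.Perm P.Pr, ∀ q, P.IsIm q (σ q) := by
    choose g hg using exists_isIm (P := P)
    have hinj : Function.Injective g := by
      intro q q' e
      obtain ⟨T, hT, hTr⟩ := exists_between (div_pos P.goodR.1 (zero_lt_one.trans P.one_lt))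
      have h1 : (T : ℂ) ∈ slitPlane := ofReal_mem_slitPlane.2 hT
      have h2 : ‖(T : ℂ)‖ < P.rad / P.lam := by rwa [norm_real, Real.norm_of_nonneg hT.le]
      have h3 := ((hg q).2 _ h1 h2).self_of_nhds
      rw [e, ← ((hg q').2 _ h1 h2).self_of_nhds] at h3
      exact κ_inj (slitPlane_ne_zero (A3_diag h1 h2).1) (A3_diag h1 h2).2.le (P.f.injective h3)
    exact ⟨Equiv.ofBijective g (Finite.injective_iff_bijective.1 hinj), hg⟩
  rw [σ, dif_pos key]
  exact key.choose_spec q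

end PA
end Pool.Agent.Work.MP_563a32_gt
end

-- merged part: Pool.Agent.Work.MP_563a32_gt.A4
section
/-! The developing maps.

Plan. For `z` in the slit plane `path z` is preconnected, contains `z` and the points
`τ * dir z` for small `τ > 0`; so `G_eq` follows from `unique`. `wit_loc`: for `Im z ≠ 0` the same
witness works near `z`, as `path z'` lies in the union of the vertical part of `path z` and of a
thickening of the compact horizontal part (`IsCompact.exists_thickening_subset_open`, `isOpen_imm`).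
For real `z = s > 0` fix `ρ < min s rad`; the witness agrees with `κ q` along `(0, ρ]`; `glue` `κ q`
on `{z ≠ 0, ‖z‖ ≤ ρ, 0 ≤ Re z}` with the witness on `[ρ, s]`. `extend_imm`: put `w = s + t I`.
If `s + v` lies between `0` and `s` use `convex`. Otherwise glue `G q` on `path w` with `j` on the
segment from `w` to `w + v`; the two sets meet in a segment containing `w`, where the germs agree by
`unique`; the union contains `path (w + v)`. `rot_dom`: `path (-z) = - path z` and `κ_rot`. -/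

namespace Pool.Agent.Work.MP_563a32_gt
open Filter Topology Complex

namespace PA
variable {S : Type} [TopologicalSpace S] [T2Space S] {P : PA S}

theorem A4_mem0 {z w : ℂ} (hz : z.im = 0) :
    w ∈ path z ↔ w.im = 0 ∧ 0 < w.re ∧ w.re ≤ z.re := by
  rw [path, if_pos hz]
  constructor
  · rintro ⟨s, h1, h2, rfl⟩
    exact ⟨ofReal_im s, h1, h2⟩
  · rintro ⟨h1, h2, h3⟩
    exact ⟨w.re, h2, h3, Complex.ext rfl h1⟩

theorem A4_seg {z w : ℂ} :
    w ∈ segment ℝ (z.im * I) z ↔ w.im = z.im ∧ w.re ∈ Set.uIcc 0 z.re := by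
  rw [← segment_eq_uIcc]
  constructor
  · rintro ⟨a, b, ha, hb, hab, rfl⟩
    refine ⟨?_, a, b, ha, hb, hab, by simp⟩
    simp only [real_smul, add_im, mul_im, ofReal_re, ofReal_im, mul_re, I_re, I_im]
    linear_combination z.im * hab
  · rintro ⟨h1, a, b, ha, hb, hab, h2⟩
    refine ⟨a, b, ha, hb, hab, Complex.ext (by simpa using h2) ?_⟩
    simp only [real_smul, add_im, mul_im, ofReal_re, ofReal_im, mul_re, I_re, I_im, h1]
    linear_combination z.im * hab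

theorem A4_mem {z w : ℂ} (hz : z.im ≠ 0) : w ∈ path z ↔
    (w.re = 0 ∧ ∃ τ : ℝ, 0 < τ ∧ τ ≤ 1 ∧ w.im = τ * z.im) ∨
      (w.im = z.im ∧ w.re ∈ Set.uIcc 0 z.re) := by
  rw [path, if_neg hz, Set.mem_union, A4_seg]
  refine or_congr_left ⟨?_, ?_⟩
  · rintro ⟨τ, h1, h2, rfl⟩
    exact ⟨by simp, τ, h1, h2, by simp⟩
  · rintro ⟨h0, τ, h1, h2, h3⟩
    exact ⟨τ, h1, h2, Complex.ext (by simpa using h0) (by simpa using h3)⟩

theorem A4_conn (z : ℂ) : IsPreconnected (path z) := by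
  unfold path
  split_ifs with hz
  · have h : {w : ℂ | ∃ s : ℝ, 0 < s ∧ s ≤ z.re ∧ w = s} = (fun s : ℝ => (s : ℂ)) '' Set.Ioc 0 z.re :=
      Set.ext fun w => ⟨fun ⟨s, h1, h2, h3⟩ => ⟨s, ⟨h1, h2⟩, h3.symm⟩,
        fun ⟨s, h1, h3⟩ => ⟨s, h1.1, h1.2, h3.symm⟩⟩
    rw [h]
    exact isPreconnected_Ioc.image _ continuous_ofReal.continuousOn
  · have h : {w : ℂ | ∃ τ : ℝ, 0 < τ ∧ τ ≤ 1 ∧ w = τ * z.im * I} =
        (fun τ : ℝ => (τ : ℂ) * z.im * I) '' Set.Ioc 0 1 :=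
      Set.ext fun w => ⟨fun ⟨s, h1, h2, h3⟩ => ⟨s, ⟨h1, h2⟩, h3.symm⟩,
        fun ⟨s, h1, h3⟩ => ⟨s, h1.1, h1.2, h3.symm⟩⟩
    rw [h]
    exact IsPreconnected.union (z.im * I) ⟨1, ⟨one_pos, le_rfl⟩, by simp⟩ (left_mem_segment _ _ _)
      (isPreconnected_Ioc.image _ (Continuous.continuousOn (by fun_prop)))
      (convex_segment _ _).isPreconnected

theorem A4_re {z : ℂ} (hz : z ∈ slitPlane) (h : z.im = 0) : 0 < z.re :=
  (mem_slitPlane_iff.1 hz).resolve_right fun e => e h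

theorem A4_self {z : ℂ} (hz : z ∈ slitPlane) : z ∈ path z := by
  by_cases h : z.im = 0
  · exact (A4_mem0 h).2 ⟨h, A4_re hz h, le_rfl⟩
  · exact (A4_mem h).2 (Or.inr ⟨rfl, Set.right_mem_uIcc⟩)

theorem A4_small {z : ℂ} (hz : z ∈ slitPlane) : ∀ᶠ τ : ℝ in 𝓝[>] 0, τ * dir z ∈ path z := by
  rcases lt_trichotomy z.im 0 with h | h | h
  · filter_upwards [Ioo_mem_nhdsGT (neg_pos.2 h)] with τ hτ
    rw [dir, if_neg h.not_gt, if_pos h]
    refine (A4_mem h.ne).2 (Or.inl ⟨by simp, τ / -z.im, div_pos hτ.1 (neg_pos.2 h),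
      (div_le_one (neg_pos.2 h)).2 hτ.2.le, ?_⟩)
    rw [div_neg, neg_mul, div_mul_cancel₀ _ h.ne]
    simp
  · filter_upwards [Ioo_mem_nhdsGT (A4_re hz h)] with τ hτ
    rw [dir, if_neg h.not_gt, if_neg h.not_lt, mul_one]
    exact (A4_mem0 h).2 ⟨ofReal_im τ, hτ.1, hτ.2.le⟩
  · filter_upwards [Ioo_mem_nhdsGT h] with τ hτ
    rw [dir, if_pos h]
    refine (A4_mem h.ne').2 (Or.inl ⟨by simp, τ / z.im, div_pos hτ.1 h,
      (div_le_one h).2 hτ.2.le, ?_⟩)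
    rw [div_mul_cancel₀ _ h.ne']
    simp

theorem A4_dir {z w : ℂ} {τ : ℝ} (hτ : 0 < τ) (h : w.im = τ * z.im) : dir w = dir z := by
  have h1 : 0 < w.im ↔ 0 < z.im := by rw [h, mul_pos_iff_of_pos_left hτ]
  have h2 : w.im < 0 ↔ z.im < 0 := by
    rw [h, ← neg_pos, ← mul_neg, mul_pos_iff_of_pos_left hτ, neg_pos]
  simp only [dir, h1, h2]

theorem A4_sub {z w : ℂ} (hw : w ∈ path z) :
    w ∈ slitPlane ∧ dir w = dir z ∧ path w ⊆ path z ∧ |w.re| ≤ |z.re| ∧ |w.im| ≤ |z.im| := by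
  by_cases h : z.im = 0
  · obtain ⟨h1, h2, h3⟩ := (A4_mem0 h).1 hw
    refine ⟨Or.inl h2, A4_dir one_pos (by rw [h1, h, mul_zero]), fun v hv => ?_,
      by rw [abs_of_pos h2]; exact h3.trans (le_abs_self _), by rw [h1, h]⟩
    obtain ⟨h4, h5, h6⟩ := (A4_mem0 h1).1 hv
    exact (A4_mem0 h).2 ⟨h4, h5, h6.trans h3⟩
  · rcases (A4_mem h).1 hw with ⟨h1, τ, h2, h3, h4⟩ | ⟨h1, h2⟩
    · have h5 : w.im ≠ 0 := h4 ▸ mul_ne_zero h2.ne' h
      refine ⟨Or.inr h5, A4_dir h2 h4, fun v hv => (A4_mem h).2 (Or.inl ?_),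
        by rw [h1, abs_zero]; exact abs_nonneg _, ?_⟩
      · rcases (A4_mem h5).1 hv with ⟨h6, τ', h7, h8, h9⟩ | ⟨h6, h7⟩
        · exact ⟨h6, τ' * τ, mul_pos h7 h2, mul_le_one₀ h8 h2.le h3, by rw [h9, h4, mul_assoc]⟩
        · rw [h1, Set.uIcc_self] at h7
          exact ⟨h7, τ, h2, h3, h6.trans h4⟩
      · rw [h4, abs_mul, abs_of_pos h2]
        exact mul_le_of_le_one_left (abs_nonneg _) h3
    · have h5 : w.im ≠ 0 := h1 ▸ h
      refine ⟨Or.inr h5, A4_dir one_pos (by rw [h1, one_mul]), fun v hv => (A4_mem h).2 ?_,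
        by simpa using Set.abs_sub_left_of_mem_uIcc h2, by rw [h1]⟩
      rcases (A4_mem h5).1 hv with ⟨h6, τ', h7, h8, h9⟩ | ⟨h6, h7⟩
      · exact Or.inl ⟨h6, τ', h7, h8, h1 ▸ h9⟩
      · exact Or.inr ⟨h6.trans h1, Set.uIcc_subset_uIcc_left h2 h7⟩

theorem A4_neg {z w : ℂ} (hz : z.im ≠ 0) (hw : w ∈ path z) : -w ∈ path (-z) := by
  refine (A4_mem (by rwa [neg_im, neg_ne_zero])).2 ?_
  rcases (A4_mem hz).1 hw with ⟨h1, τ, h2, h3, h4⟩ | ⟨h1, h2⟩
  · exact Or.inl ⟨by rw [neg_re, h1, neg_zero], τ, h2, h3, by rw [neg_im, neg_im, h4, mul_neg]⟩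
  · refine Or.inr ⟨by rw [neg_im, neg_im, h1], ?_⟩
    rw [neg_re, neg_re, Set.mem_uIcc] at *
    rcases h2 with h2 | h2
    · exact Or.inr ⟨by linarith [h2.2], by linarith [h2.1]⟩
    · exact Or.inl ⟨by linarith [h2.2], by linarith [h2.1]⟩

theorem A4_uniq {q : P.Pr} {z : ℂ} (hz : z ∈ slitPlane) {j j' : ℂ → S} (h : P.Wit q z j)
    (h' : P.Wit q z j') : ∀ w ∈ path z, j =ᶠ[𝓝 w] j' := by
  obtain ⟨τ, h1, h2, h3⟩ := (h.1.and (h'.1.and (A4_small hz))).exists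
  exact ImmOn.unique (A4_conn z) h.2 h'.2 h3 (h1.trans h2.symm)

theorem G_eq {q : P.Pr} {z : ℂ} (hz : z ∈ slitPlane) {j : ℂ → S} (h : P.Wit q z j) :
    P.G q z = j z := by
  have h1 : ∃ j, P.Wit q z j := ⟨j, h⟩
  rw [G, dif_pos h1]
  exact (A4_uniq hz h1.choose_spec h z (A4_self hz)).self_of_nhds

omit [T2Space S] in
theorem A4_loc1 {q : P.Pr} {z : ℂ} (hz : z.im ≠ 0) {j : ℂ → S} (h : P.Wit q z j) :
    ∀ᶠ z' in 𝓝 z, P.Wit q z' j := by
  have h1 : ∀ᶠ z' in 𝓝 z, ∀ s ∈ Set.Icc (0 : ℝ) 1, P.Imm j ((s * z'.re : ℝ) + z'.im * I) := by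
    refine isCompact_Icc.eventually_forall_of_forall_eventually fun s hs => ?_
    refine ((show Continuous fun x : ℂ × ℝ => ((x.2 * x.1.re : ℝ) : ℂ) + x.1.im * I by
      fun_prop).tendsto (z, s)).eventually (Imm.eventually (h.2 _ ((A4_mem hz).2 (Or.inr
        ⟨by simp, ?_⟩))))
    rw [← segment_eq_uIcc]
    exact ⟨1 - s, s, sub_nonneg.2 hs.2, hs.1, sub_add_cancel _ _, by simp⟩
  have h2 : ∀ᶠ z' in 𝓝 z, ∀ s ∈ Set.Icc (1 / 2 : ℝ) 1, P.Imm j ((s * z'.im : ℝ) * I) := by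
    refine isCompact_Icc.eventually_forall_of_forall_eventually fun s hs => ?_
    exact ((show Continuous fun x : ℂ × ℝ => ((x.2 * x.1.im : ℝ) : ℂ) * I by
      fun_prop).tendsto (z, s)).eventually (Imm.eventually (h.2 _ ((A4_mem hz).2 (Or.inl
        ⟨by simp, s, by linarith [hs.1], hs.2, by simp⟩))))
  have h3 : ∀ᶠ z' in 𝓝 z, z'.im / z.im ∈ Set.Ioo (0 : ℝ) 2 :=
    ((show Continuous fun x : ℂ => x.im / z.im by fun_prop).tendsto z).eventually
      (Ioo_mem_nhds (by rw [div_self hz]; exact one_pos) (by rw [div_self hz]; exact one_lt_two))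
  filter_upwards [h1, h2, h3] with z' h4 h5 h6
  have h7 : z'.im = z'.im / z.im * z.im := (div_mul_cancel₀ _ hz).symm
  have h8 : z'.im ≠ 0 := h7 ▸ mul_ne_zero h6.1.ne' hz
  refine ⟨by rw [A4_dir h6.1 h7]; exact h.1, fun w hw => ?_⟩
  rcases (A4_mem h8).1 hw with ⟨h9, τ, h10, h11, h12⟩ | ⟨h9, h10⟩
  · rcases le_total τ (1 / 2) with h13 | h13
    · refine h.2 w ((A4_mem hz).2 (Or.inl ⟨h9, τ * (z'.im / z.im), mul_pos h10 h6.1,
        by nlinarith [h6.1, h6.2], ?_⟩))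
      rw [mul_assoc, ← h7, h12]
    · have h14 : w = (τ * z'.im : ℝ) * I := Complex.ext (by simpa using h9) (by simpa using h12)
      exact h14 ▸ h5 τ ⟨h13, h11⟩
  · rw [← segment_eq_uIcc] at h10
    obtain ⟨a, b, ha, hb, hab, h11⟩ := h10
    have h14 : w = (b * z'.re : ℝ) + z'.im * I :=
      Complex.ext (by simpa using h11.symm) (by simpa using h9)
    exact h14 ▸ h4 b ⟨hb, by linarith⟩

theorem A4_loc0 {q : P.Pr} {z : ℂ} (hz : z.im = 0) (hs : 0 < z.re) {j : ℂ → S}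
    (h : P.Wit q z j) : ∃ j' : ℂ → S, ∀ᶠ z' in 𝓝 z, P.Wit q z' j' := by
  obtain ⟨ρ, hρ, h0⟩ := exists_between (lt_min hs P.goodR.1)
  obtain ⟨hρs, hρr⟩ := lt_min_iff.1 h0
  have hκ : ∀ w : ℂ, w ≠ 0 → ‖w‖ ≤ ρ → 0 ≤ w.re → P.Imm (P.κ q) w := fun w h1 h2 h3 => by
    refine κ_imm q ?_ (h2.trans_lt hρr)
    by_contra h4
    rw [mem_slitPlane_iff, not_or, not_not] at h4
    exact h1 (Complex.ext (le_antisymm (not_lt.1 h4.1) h3) h4.2)
  have hag : P.κ q =ᶠ[𝓝 (ρ : ℂ)] j := by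
    have h1 : (ρ : ℂ) ∈ path z := (A4_mem0 hz).2 ⟨ofReal_im ρ, hρ, hρs.le⟩
    obtain ⟨h2, h3, h4, -⟩ := A4_sub h1
    refine A4_uniq h2 ⟨Eventually.of_forall fun _ => EventuallyEq.rfl, fun w hw => ?_⟩
      ⟨h3 ▸ h.1, fun w hw => h.2 w (h4 hw)⟩ _ (A4_self h2)
    obtain ⟨h5, h6, h7⟩ := (A4_mem0 (ofReal_im ρ)).1 hw
    refine hκ w (fun e => by simp [e] at h6) ((norm_le_abs_re_add_abs_im w).trans ?_) h6.le
    rwa [h5, abs_zero, add_zero, abs_of_pos h6]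
  have hB : IsCompact ((fun s : ℝ => (s : ℂ)) '' Set.Icc ρ z.re) :=
    isCompact_Icc.image continuous_ofReal
  obtain ⟨j', hA', hB'⟩ := glue (P.κ q) j (A := {w : ℂ | w ≠ 0 ∧ ‖w‖ ≤ ρ ∧ 0 ≤ w.re})
    (B := (fun s : ℝ => (s : ℂ)) '' Set.Icc ρ z.re) (by
      rintro _ ⟨h1, s, h2, rfl⟩
      refine ⟨ofReal_ne_zero.2 (hρ.trans_le h2.1).ne', ?_⟩
      exact closure_minimal (t := {w : ℂ | ‖w‖ ≤ ρ ∧ 0 ≤ w.re}) (fun w hw => hw.2)
        ((isClosed_le continuous_norm continuous_const).inter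
          (isClosed_le continuous_const continuous_re)) h1)
    (fun w hw => hB.isClosed.closure_subset hw.2) (by
      rintro _ ⟨⟨-, h1, -⟩, s, h2, rfl⟩
      rw [norm_real, Real.norm_of_nonneg (hρ.le.trans h2.1)] at h1
      rwa [le_antisymm h1 h2.1])
  have hA : ∀ w : ℂ, w ≠ 0 → ‖w‖ ≤ ρ → 0 ≤ w.re → P.Imm j' w := fun w h1 h2 h3 =>
    (hκ w h1 h2 h3).congr (hA' w ⟨h1, h2, h3⟩)
  obtain ⟨δ, hδ, hth⟩ := ((isCompact_Icc (a := ρ / 2) (b := z.re)).image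
    continuous_ofReal).exists_thickening_subset_open (isOpen_imm (P := P) j') (by
      rintro _ ⟨s, h1, rfl⟩
      have h2 : 0 < s := (half_pos hρ).trans_le h1.1
      rcases le_total s ρ with h3 | h3
      · exact hA s (ofReal_ne_zero.2 h2.ne') (by rwa [norm_real, Real.norm_of_nonneg h2.le]) h2.le
      · exact (h.2 _ ((A4_mem0 hz).2 ⟨ofReal_im s, h2, h1.2⟩)).congr (hB' _ ⟨s, ⟨h3, h1.2⟩, rfl⟩))
  have hδ' : 0 < min (δ / 2) (ρ / 2) := lt_min (half_pos hδ) (half_pos hρ)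
  refine ⟨j', ?_⟩
  filter_upwards [(continuous_re.tendsto z).eventually (lt_mem_nhds hs),
    (continuous_re.tendsto z).eventually (gt_mem_nhds (lt_add_of_pos_right _ (half_pos hδ))),
    (continuous_im.abs.tendsto z).eventually (gt_mem_nhds (by rwa [hz, abs_zero]))]
    with z' h1 h2 h3
  obtain ⟨h4, h5⟩ := lt_min_iff.1 h3
  constructor
  · filter_upwards [Ioo_mem_nhdsGT hρ] with τ hτ
    have h6 : ‖dir z'‖ = 1 ∧ 0 ≤ (dir z').re := by
      unfold dir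
      split_ifs <;> simp
    refine hA' _ ⟨mul_ne_zero (ofReal_ne_zero.2 hτ.1.ne') fun e => by simp [e] at h6, ?_, ?_⟩
    · rw [norm_mul, h6.1, mul_one, norm_real, Real.norm_of_nonneg hτ.1.le]
      exact hτ.2.le
    · rw [re_ofReal_mul]
      exact mul_nonneg hτ.1.le h6.2
  · intro w hw
    obtain ⟨h6, -, -, h7, h8⟩ := A4_sub hw
    have h9 : 0 ≤ w.re := by
      by_cases h10 : z'.im = 0
      · exact ((A4_mem0 h10).1 hw).2.1.le
      · rcases (A4_mem h10).1 hw with h11 | h11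
        · exact h11.1.ge
        · rw [Set.uIcc_of_le h1.le] at h11
          exact h11.2.1
    rw [abs_of_nonneg h9, abs_of_pos h1] at h7
    rcases le_total w.re (ρ / 2) with h10 | h10
    · refine hA w (slitPlane_ne_zero h6) ((norm_le_abs_re_add_abs_im w).trans ?_) h9
      rw [abs_of_nonneg h9]
      linarith
    · refine hth (Metric.mem_thickening_iff.2 ⟨(min w.re z.re : ℝ),
        ⟨_, ⟨le_min h10 (by linarith), min_le_right _ _⟩, rfl⟩, ?_⟩)
      rw [dist_eq_norm]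
      refine (norm_le_abs_re_add_abs_im _).trans_lt ?_
      rw [sub_re, sub_im, ofReal_re, ofReal_im, sub_zero,
        abs_of_nonneg (sub_nonneg.2 (min_le_left _ _))]
      have h11 : w.re - δ / 2 < min w.re z.re := lt_min (by linarith) (by linarith)
      linarith

theorem wit_loc {q : P.Pr} {z : ℂ} (hz : z ∈ P.Dom q) :
    ∃ j : ℂ → S, ∀ᶠ z' in 𝓝 z, P.Wit q z' j := by
  obtain ⟨h1, j, h⟩ := hz
  by_cases hi : z.im = 0
  · exact A4_loc0 hi (A4_re h1 hi) h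
  · exact ⟨j, A4_loc1 hi h⟩

theorem isOpen_dom (q : P.Pr) : IsOpen (P.Dom q) := by
  refine isOpen_iff_mem_nhds.2 fun z hz => ?_
  obtain ⟨j, h⟩ := wit_loc hz
  filter_upwards [h, isOpen_slitPlane.mem_nhds hz.1] with z' h1 h2
  exact ⟨h2, j, h1⟩

theorem A4_G {q : P.Pr} {z : ℂ} (hz : z ∈ P.Dom q) :
    ∃ j : ℂ → S, P.Wit q z j ∧ P.G q =ᶠ[𝓝 z] j := by
  obtain ⟨j, h⟩ := wit_loc hz
  refine ⟨j, h.self_of_nhds, ?_⟩
  filter_upwards [h, isOpen_slitPlane.mem_nhds hz.1] with z' h1 h2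
  exact G_eq h2 h1

theorem G_imm {q : P.Pr} {z : ℂ} (hz : z ∈ P.Dom q) : P.Imm (P.G q) z := by
  obtain ⟨j, h, e⟩ := A4_G hz
  exact (h.2 z (A4_self hz.1)).congr e

theorem mem_slit (q : P.Pr) {z : ℂ} (hz : z ∈ slitPlane) (h : ‖z‖ < P.rad) :
    z ∈ P.Dom q ∧ P.G q z = P.κ q z := by
  have h1 : P.Wit q z (P.κ q) := by
    refine ⟨Eventually.of_forall fun _ => EventuallyEq.rfl, fun w hw => ?_⟩
    obtain ⟨h2, -, -, h3, h4⟩ := A4_sub hw
    refine κ_imm q h2 (lt_of_le_of_lt (abs_le_of_sq_le_sq' ?_ (norm_nonneg z)).2 h)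
    rw [Complex.sq_norm, Complex.sq_norm, normSq_apply, normSq_apply]
    exact add_le_add (abs_le_iff_mul_self_le.1 h3) (abs_le_iff_mul_self_le.1 h4)
  exact ⟨⟨hz, _, h1⟩, G_eq hz h1⟩

omit [T2Space S] in
theorem path_sub {q : P.Pr} {z : ℂ} (hz : z ∈ P.Dom q) : path z ⊆ P.Dom q := by
  obtain ⟨-, j, h⟩ := hz
  intro w hw
  obtain ⟨h1, h2, h3, -⟩ := A4_sub hw
  exact ⟨h1, j, h2 ▸ h.1, fun v hv => h.2 v (h3 hv)⟩

omit [T2Space S] in
theorem convex (q : P.Pr) (s t : ℝ) (ht : t ≠ 0) (h : (s : ℂ) + t * I ∈ P.Dom q) :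
    ∀ s' ∈ Set.uIcc 0 s, ((s' : ℝ) : ℂ) + t * I ∈ P.Dom q := by
  intro s' hs'
  exact path_sub h ((A4_mem (by simpa using ht)).2 (Or.inr ⟨by simp, by simpa using hs'⟩))

theorem extend_imm {q : P.Pr} {w : ℂ} (hw : w ∈ P.Dom q) (hi : w.im ≠ 0) {j : ℂ → S}
    (e : j =ᶠ[𝓝 w] P.G q) (v : ℝ) (h : ∀ s ∈ Set.uIcc 0 v, P.Imm j (w + (s : ℝ))) :
    w + v ∈ P.Dom q ∧ P.G q (w + v) = j (w + v) := by
  obtain ⟨j₀, h0, e0⟩ := A4_G hw
  have hc : Continuous fun s : ℝ => w + s := by fun_prop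
  have hB : IsCompact ((fun s : ℝ => w + s) '' Set.uIcc 0 v) := isCompact_uIcc.image hc
  have hre : ∀ z ∈ path w, z.re ∈ Set.uIcc 0 w.re := fun z hz => by
    rcases (A4_mem hi).1 hz with h1 | h1
    · rw [h1.1]
      exact Set.left_mem_uIcc
    · exact h1.2
  obtain ⟨j', hA', hB'⟩ := glue j₀ j (A := path w) (B := (fun s : ℝ => w + s) '' Set.uIcc 0 v) (by
      rintro _ ⟨h1, s, h2, rfl⟩
      exact (A4_mem hi).2 (Or.inr ⟨by simp, closure_minimal (t := {z : ℂ | z.re ∈ Set.uIcc 0 w.re})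
        hre (isCompact_uIcc.isClosed.preimage continuous_re) h1⟩))
    (fun z hz => hB.isClosed.closure_subset hz.2) (by
      rintro _ ⟨h1, s, h2, rfl⟩
      refine ImmOn.unique (P := P) (U := (fun s : ℝ => w + s) '' Set.uIcc 0 s)
        (isPreconnected_uIcc.image _ hc.continuousOn) ?_ ?_
        (w₀ := w) ⟨0, Set.left_mem_uIcc, by simp⟩ (e.trans e0).symm _ ⟨s, Set.right_mem_uIcc, rfl⟩
      · rintro _ ⟨r, h3, rfl⟩
        refine h0.2 _ ((A4_mem hi).2 (Or.inr ⟨by simp, ?_⟩))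
        refine Set.uIcc_subset_uIcc Set.right_mem_uIcc (hre _ h1) ?_
        simp only [add_re, ofReal_re, Set.mem_uIcc] at h3 ⊢
        rcases h3 with h3 | h3
        · exact Or.inl ⟨by linarith [h3.1], by linarith [h3.2]⟩
        · exact Or.inr ⟨by linarith [h3.1], by linarith [h3.2]⟩
      · rintro _ ⟨r, h3, rfl⟩
        exact h r (Set.uIcc_subset_uIcc_left h2 h3))
  have hi' : (w + v).im = w.im := by simp
  have hs : w + v ∈ slitPlane := Or.inr (hi' ▸ hi)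
  have hW : P.Wit q (w + v) j' := by
    constructor
    · rw [A4_dir one_pos (hi'.trans (one_mul _).symm)]
      filter_upwards [h0.1, A4_small hw.1] with τ h1 h2
      exact (hA' _ h2).trans h1
    · intro z hz
      have h1 : ∀ z ∈ path w, P.Imm j' z := fun z hz => (h0.2 z hz).congr (hA' z hz)
      rcases (A4_mem (hi' ▸ hi)).1 hz with h2 | h2
      · exact h1 z ((A4_mem hi).2 (Or.inl (hi' ▸ h2)))
      · rcases Set.uIcc_subset_uIcc_union_uIcc (b := w.re) h2.2 with h3 | h3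
        · exact h1 z ((A4_mem hi).2 (Or.inr ⟨h2.1.trans hi', h3⟩))
        · have h4 : z.re - w.re ∈ Set.uIcc 0 v := by
            simp only [add_re, ofReal_re, Set.mem_uIcc] at h3 ⊢
            rcases h3 with h3 | h3
            · exact Or.inl ⟨by linarith [h3.1], by linarith [h3.2]⟩
            · exact Or.inr ⟨by linarith [h3.1], by linarith [h3.2]⟩
          have h5 : z = w + (z.re - w.re : ℝ) :=
            Complex.ext (by simp) (by simpa using h2.1)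
          rw [h5]
          exact (h _ h4).congr (hB' _ ⟨_, h4, rfl⟩)
  exact ⟨⟨hs, j', hW⟩, (G_eq hs hW).trans (hB' _ ⟨v, Set.right_mem_uIcc, rfl⟩).self_of_nhds⟩

omit [T2Space S] in
theorem A4_immneg {z : ℂ} (hz : z.im ≠ 0) {j : ℂ → S} (h : P.ImmOn j (path z)) :
    P.ImmOn (fun w => j (-w)) (path (-z)) := by
  intro w hw
  have h1 := A4_neg (by rwa [neg_im, neg_ne_zero]) hw
  rw [neg_neg] at h1
  have h2 := Imm.comp (j := j) (w := w) (c := 0) (Or.inr rfl) (by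
    rw [add_zero, neg_one_mul]
    exact h _ h1)
  simpa only [add_zero, neg_one_mul] using h2

omit [T2Space S] in
theorem A4_rot (q : P.Pr) {z : ℂ} (hz : 0 < z.im) {j : ℂ → S} (h : P.Wit q (-z) j) :
    P.Wit (P.rot q) z fun w => j (-w) := by
  have h0 : (-z).im < 0 := by rwa [neg_im, neg_lt_zero]
  refine ⟨?_, by simpa only [neg_neg] using A4_immneg h0.ne h.2⟩
  have h1 := h.1
  rw [dir, if_neg h0.not_gt, if_pos h0] at h1
  rw [dir, if_pos hz]
  filter_upwards [h1, self_mem_nhdsWithin] with τ h2 h3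
  have h4 : ∀ᶠ w in 𝓝 ((τ : ℂ) * I), 0 < w.im :=
    (continuous_im.tendsto _).eventually (lt_mem_nhds (by simpa using h3))
  filter_upwards [(continuous_neg.tendsto' ((τ : ℂ) * I) _ (mul_neg _ _).symm).eventually h2, h4]
    with w h5 h6
  rw [h5, κ_rot q h6]

omit [T2Space S] in
theorem A4_rot' (q : P.Pr) {z : ℂ} (hz : 0 < z.im) {j : ℂ → S} (h : P.Wit (P.rot q) z j) :
    P.Wit q (-z) fun w => j (-w) := by
  have h0 : (-z).im < 0 := by rwa [neg_im, neg_lt_zero]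
  refine ⟨?_, A4_immneg hz.ne' h.2⟩
  have h1 := h.1
  rw [dir, if_pos hz] at h1
  rw [dir, if_neg h0.not_gt, if_pos h0]
  filter_upwards [h1, self_mem_nhdsWithin] with τ h2 h3
  have h4 : ∀ᶠ w in 𝓝 ((τ : ℂ) * -I), w.im < 0 :=
    (continuous_im.tendsto _).eventually (gt_mem_nhds (by simpa using h3))
  filter_upwards [(continuous_neg.tendsto' ((τ : ℂ) * -I) _ (by
    rw [mul_neg, neg_neg])).eventually h2, h4] with w h5 h6
  rw [h5, κ_rot q (by rwa [neg_im, neg_pos]), neg_neg]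

omit [T2Space S] in
theorem rot_dom (q : P.Pr) (z : ℂ) (hz : 0 < z.im) : z ∈ P.Dom (P.rot q) ↔ -z ∈ P.Dom q := by
  constructor
  · rintro ⟨-, j, h⟩
    exact ⟨Or.inr (by rw [neg_im]; exact neg_ne_zero.2 hz.ne'), _, A4_rot' q hz h⟩
  · rintro ⟨-, j, h⟩
    exact ⟨Or.inr hz.ne', _, A4_rot q hz h⟩

theorem rot_G (q : P.Pr) (z : ℂ) (hz : 0 < z.im) (h : z ∈ P.Dom (P.rot q)) :
    P.G (P.rot q) z = P.G q (-z) := by
  obtain ⟨h1, j, h⟩ := h
  rw [G_eq h1 h, G_eq (Or.inr (by rw [neg_im]; exact neg_ne_zero.2 hz.ne')) (A4_rot' q hz h),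
    neg_neg]

end PA
end Pool.Agent.Work.MP_563a32_gt
end

-- merged part: Pool.Agent.Work.MP_563a32_gt.A5
section
/-! Equivariance, infinite and injective prongs, and the horizontal dichotomy.

Plan. `path (diag lam z) = diag lam '' path z` and `dir (diag lam z) = dir z`; `push` and `pull`
carry witnesses to witnesses (`isIm_σ`). `mem_im`, `mem_re`: iterate `F_dom` until the point is in
the slit disc. `inj_re`, `inj_im`: iterate `F_G` until both points are in slit discs, then `κ_sq`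
and `κ_inj`. `rot_σ`: evaluate both at a small point `t I` (`F_G`, `rot_G`, `inj_im`).
`dich`: let `a` be the infimum of the `s ≥ 0` outside the domain;
apply `ending` to `G q`; the first alternative contradicts `extend_imm`. -/

namespace Pool.Agent.Work.MP_563a32_gt
open Filter Topology Complex

theorem A5_re (l s : ℝ) : diag l s = (s / l : ℝ) := by
  apply Complex.ext <;> simp [diag]

theorem A5_im (l t : ℝ) : diag l (t * I) = (l * t : ℝ) * I := by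
  apply Complex.ext <;> simp [diag]

theorem A5_slit {l : ℝ} (hl : 0 < l) (z : ℂ) : diag l z ∈ slitPlane ↔ z ∈ slitPlane := by
  simp [mem_slitPlane_iff, diag, hl.ne', div_pos_iff_of_pos_right hl]

theorem A5_dir {l : ℝ} (hl : 0 < l) (z : ℂ) : dir (diag l z) = dir z := by
  simp only [dir, diag, mul_pos_iff_of_pos_left hl, mul_neg_iff, hl, hl.not_gt, true_and, false_and,
    or_false]

theorem A5_path {l : ℝ} (hl : 0 < l) {z w : ℂ} (h : w ∈ path z) : diag l w ∈ path (diag l z) := by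
  have e : (diag l z).im = l * z.im := rfl
  unfold path at h ⊢
  rw [e]
  by_cases h0 : z.im = 0
  · rw [if_pos h0] at h
    rw [if_pos (by rw [h0, mul_zero])]
    obtain ⟨s, h1, h2, rfl⟩ := h
    exact ⟨s / l, div_pos h1 hl, div_le_div_of_nonneg_right h2 hl.le, A5_re l s⟩
  · rw [if_neg h0] at h
    rw [if_neg (mul_ne_zero hl.ne' h0)]
    rcases h with ⟨τ, h1, h2, rfl⟩ | ⟨a, b, h1, h2, h3, rfl⟩
    · refine Or.inl ⟨τ, h1, h2, ?_⟩
      rw [← ofReal_mul, A5_im]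
      push_cast
      ring
    · refine Or.inr ⟨a, b, h1, h2, h3, ?_⟩
      apply Complex.ext <;> simp [diag] <;> ring

theorem A5_ray {l : ℝ} (hl : 0 < l) (z : ℂ) {p : ℂ → Prop}
    (h : ∀ᶠ τ : ℝ in 𝓝[>] 0, p (τ * dir z)) : ∀ᶠ τ : ℝ in 𝓝[>] 0, p (diag l (τ * dir z)) := by
  obtain ⟨c, hc, e⟩ : ∃ c : ℝ, 0 < c ∧ ∀ τ : ℝ, diag l (τ * dir z) = (c * τ : ℝ) * dir z := by
    unfold dir
    split_ifs
    · exact ⟨l, hl, A5_im l⟩
    · exact ⟨l, hl, fun τ => by apply Complex.ext <;> simp [diag]⟩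
    · exact ⟨l⁻¹, inv_pos.2 hl, fun τ => by rw [mul_one, mul_one, A5_re, div_eq_inv_mul]⟩
  have t1 : Tendsto (fun τ : ℝ => c * τ) (𝓝[>] 0) (𝓝[>] 0) :=
    tendsto_nhdsWithin_iff.2 ⟨((continuous_const_mul c).tendsto' _ _ (mul_zero c)).mono_left
      nhdsWithin_le_nhds, eventually_mem_nhdsWithin.mono fun τ hτ => mul_pos hc hτ⟩
  exact (t1.eventually h).mono fun τ hτ => by rwa [e]

theorem A5_small {r : ℝ} (hr : 0 < r) (z : ℂ) :
    ∀ᶠ τ : ℝ in 𝓝[>] 0, τ * dir z ∈ slitPlane ∧ ‖τ * dir z‖ < r := by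
  filter_upwards [Ioo_mem_nhdsGT hr] with τ hτ
  unfold dir
  split_ifs <;> simp [mem_slitPlane_iff, hτ.1, hτ.1.ne', abs_of_pos hτ.1, hτ.2]

namespace PA
variable {S : Type} [TopologicalSpace S] [T2Space S] [CompactSpace S] {P : PA S}

theorem A5_isIm (q : P.Pr) (z : ℂ) :
    ∀ᶠ τ : ℝ in 𝓝[>] 0, P.push (P.κ q) =ᶠ[𝓝 (τ * dir z)] P.κ (P.σ q) :=
  (A5_small (div_pos P.goodR.1 (zero_lt_one.trans P.one_lt)) z).mono fun _ h =>
    (isIm_σ q).2 _ h.1 h.2

theorem A5_push {q : P.Pr} {z : ℂ} {j : ℂ → S} (h : P.Wit q z j) :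
    P.Wit (P.σ q) (diag P.lam z) (P.push j) := by
  have hl := zero_lt_one.trans P.one_lt
  refine ⟨?_, fun w hw => ?_⟩
  · rw [A5_dir hl]
    filter_upwards [A5_isIm q z, A5_ray (inv_pos.2 hl) z (p := fun w => j =ᶠ[𝓝 w] P.κ q) h.1]
      with τ h1 h2
    refine EventuallyEq.trans ?_ h1
    exact (((continuous_diag _).tendsto _).eventually h2).mono fun w hw => congrArg P.f hw
  · have h1 := A5_path (inv_pos.2 hl) hw
    rw [diag_diag' hl.ne'] at h1
    have h2 := (h.2 _ h1).push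
    rwa [diag_diag hl.ne'] at h2

theorem A5_pull {q : P.Pr} {z : ℂ} {j : ℂ → S} (h : P.Wit (P.σ q) (diag P.lam z) j) :
    P.Wit q z (P.pull j) := by
  have hl := zero_lt_one.trans P.one_lt
  refine ⟨?_, fun w hw => (h.2 _ (A5_path hl hw)).pull⟩
  have h1 := h.1
  rw [A5_dir hl] at h1
  filter_upwards [A5_ray hl z (p := fun w => j =ᶠ[𝓝 w] P.push (P.κ q))
    ((h1.and (A5_isIm q z)).mono fun τ h => h.1.trans h.2.symm)] with τ h2
  refine (((continuous_diag _).tendsto _).eventually h2).mono fun w hw => ?_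
  rw [pull, hw, push, Homeomorph.symm_apply_apply, diag_diag' hl.ne']

omit [CompactSpace S] in
theorem A5_pow (s : ℝ) : ∃ n : ℕ, s < P.rad * P.lam ^ n := by
  obtain ⟨n, hn⟩ := pow_unbounded_of_one_lt (s / P.rad) P.one_lt
  exact ⟨n, (div_lt_iff₀' P.goodR.1).1 hn⟩

omit [T2Space S] [CompactSpace S] in
theorem A5_step {s : ℝ} {n : ℕ} (h : s < P.rad * P.lam ^ (n + 1)) :
    s / P.lam < P.rad * P.lam ^ n := by
  rwa [div_lt_iff₀ (zero_lt_one.trans P.one_lt), mul_assoc, ← pow_succ]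

omit [T2Space S] [CompactSpace S] in
theorem A5_im' (t : ℝ) : (t : ℂ) * I = diag P.lam ((t / P.lam : ℝ) * I) := by
  rw [A5_im, mul_div_cancel₀ _ (zero_lt_one.trans P.one_lt).ne']

theorem F_dom (q : P.Pr) (z : ℂ) : diag P.lam z ∈ P.Dom (P.σ q) ↔ z ∈ P.Dom q := by
  have hl := zero_lt_one.trans P.one_lt
  exact ⟨fun ⟨h, _, hj⟩ => ⟨(A5_slit hl z).1 h, _, A5_pull hj⟩,
    fun ⟨h, _, hj⟩ => ⟨(A5_slit hl z).2 h, _, A5_push hj⟩⟩

theorem F_G (q : P.Pr) {z : ℂ} (hz : z ∈ P.Dom q) :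
    P.f (P.G q z) = P.G (P.σ q) (diag P.lam z) := by
  have hl := zero_lt_one.trans P.one_lt
  obtain ⟨h, j, hj⟩ := hz
  rw [G_eq h hj, G_eq ((A5_slit hl z).2 h) (A5_push hj), push, diag_diag' hl.ne']

theorem mem_im (q : P.Pr) (t : ℝ) (ht : t ≠ 0) : (t : ℂ) * I ∈ P.Dom q := by
  have hl := zero_lt_one.trans P.one_lt
  obtain ⟨n, hn⟩ := A5_pow (P := P) |t|
  induction n generalizing q t with
  | zero => exact (mem_slit q (by simp [mem_slitPlane_iff, ht]) (by simpa using hn)).1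
  | succ n ih =>
    obtain ⟨q, rfl⟩ := P.σ.surjective q
    rw [A5_im' (P := P), F_dom]
    exact ih q _ (div_ne_zero ht hl.ne') (by rw [abs_div, abs_of_pos hl]; exact A5_step hn)

theorem mem_re (q : P.Pr) (s : ℝ) (hs : 0 < s) : (s : ℂ) ∈ P.Dom q := by
  have hl := zero_lt_one.trans P.one_lt
  obtain ⟨n, hn⟩ := A5_pow (P := P) s
  induction n generalizing q s with
  | zero => exact (mem_slit q (ofReal_mem_slitPlane.2 hs) (by simpa [abs_of_pos hs] using hn)).1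
  | succ n ih =>
    rw [← F_dom, A5_re]
    exact ih _ _ (div_pos hs hl) (A5_step hn)

theorem inj_re (q q' : P.Pr) (s s' : ℝ) (hs : 0 < s) (hs' : 0 < s')
    (e : P.G q s = P.G q' s') : q = q' ∧ s = s' := by
  have hl := zero_lt_one.trans P.one_lt
  obtain ⟨n, hn⟩ := A5_pow (P := P) (max s s')
  rw [max_lt_iff] at hn
  induction n generalizing q q' s s' with
  | zero =>
    have h1 : ‖(s : ℂ)‖ < P.rad := by simpa [abs_of_pos hs] using hn.1
    have h2 : ‖(s' : ℂ)‖ < P.rad := by simpa [abs_of_pos hs'] using hn.2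
    rw [(mem_slit q (ofReal_mem_slitPlane.2 hs) h1).2,
      (mem_slit q' (ofReal_mem_slitPlane.2 hs') h2).2] at e
    have h3 := (κ_sq (ofReal_ne_zero.2 hs.ne') h1.le (ofReal_ne_zero.2 hs'.ne') h2.le e).2
    obtain rfl : s = s' := (pow_left_inj₀ hs.le hs'.le two_ne_zero).1 (by exact_mod_cast h3)
    exact ⟨κ_inj (ofReal_ne_zero.2 hs.ne') h1.le e, rfl⟩
  | succ n ih =>
    have h := congrArg P.f e
    rw [F_G q (mem_re q s hs), F_G q' (mem_re q' s' hs'), A5_re, A5_re] at h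
    obtain ⟨h1, h2⟩ := ih _ _ _ _ (div_pos hs hl) (div_pos hs' hl) h ⟨A5_step hn.1, A5_step hn.2⟩
    exact ⟨P.σ.injective h1, (div_left_inj' hl.ne').1 h2⟩

theorem inj_im (q q' : P.Pr) (t t' : ℝ) (ht : 0 < t) (ht' : 0 < t')
    (e : P.G q (t * I) = P.G q' (t' * I)) : q = q' ∧ t = t' := by
  have hl := zero_lt_one.trans P.one_lt
  obtain ⟨n, hn⟩ := A5_pow (P := P) (max t t')
  rw [max_lt_iff] at hn
  induction n generalizing q q' t t' with
  | zero =>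
    have h1 : ‖(t : ℂ) * I‖ < P.rad := by simpa [abs_of_pos ht] using hn.1
    have h2 : ‖(t' : ℂ) * I‖ < P.rad := by simpa [abs_of_pos ht'] using hn.2
    have h4 : (t : ℂ) * I ∈ slitPlane := by simp [mem_slitPlane_iff, ht.ne']
    have h5 : (t' : ℂ) * I ∈ slitPlane := by simp [mem_slitPlane_iff, ht'.ne']
    rw [(mem_slit q h4 h1).2, (mem_slit q' h5 h2).2] at e
    have h3 := (κ_sq (slitPlane_ne_zero h4) h1.le (slitPlane_ne_zero h5) h2.le e).2
    rw [mul_pow, mul_pow, mul_left_inj' (pow_ne_zero 2 I_ne_zero)] at h3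
    obtain rfl : t = t' := (pow_left_inj₀ ht.le ht'.le two_ne_zero).1 (by exact_mod_cast h3)
    exact ⟨κ_inj (slitPlane_ne_zero h4) h1.le e, rfl⟩
  | succ n ih =>
    obtain ⟨q, rfl⟩ := P.σ.surjective q
    obtain ⟨q', rfl⟩ := P.σ.surjective q'
    rw [A5_im' (P := P) t, A5_im' (P := P) t', ← F_G q (mem_im q _ (div_pos ht hl).ne'),
      ← F_G q' (mem_im q' _ (div_pos ht' hl).ne')] at e
    obtain ⟨h1, h2⟩ := ih _ _ _ _ (div_pos ht hl) (div_pos ht' hl) (P.f.injective e)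
      ⟨A5_step hn.1, A5_step hn.2⟩
    exact ⟨congrArg _ h1, (div_left_inj' hl.ne').1 h2⟩

theorem rot_σ (q : P.Pr) : P.rot (P.σ q) = P.σ (P.rot q) := by
  have hl := zero_lt_one.trans P.one_lt
  have h1 := F_G (P.rot q) (mem_im _ 1 one_ne_zero)
  have h2 := F_G q (mem_im q (-1) (by norm_num))
  rw [rot_G q _ (by simp) (mem_im _ 1 one_ne_zero), ← neg_mul, ← ofReal_neg, h2, A5_im, A5_im,
    mul_one, mul_neg_one, ofReal_neg, neg_mul,
    ← rot_G _ _ (by simpa using hl) (mem_im _ _ hl.ne')] at h1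
  exact (inj_im _ _ _ _ hl hl h1).1

theorem dich (q : P.Pr) (t : ℝ) (ht : t ≠ 0) : (∀ s : ℝ, 0 ≤ s → (s : ℂ) + t * I ∈ P.Dom q) ∨
    ∃ (a : ℝ) (q' : P.Pr), 0 < a ∧ ∀ s : ℝ, 0 ≤ s → s < a →
      P.dev.Same (-1) q (s + t * I) q' ((a - s : ℝ) : ℂ) := by
  refine or_iff_not_imp_left.2 fun h => ?_
  have hc : Continuous fun s : ℝ => (s : ℂ) + t * I := by fun_prop
  have hB : IsClosed {s : ℝ | 0 ≤ s ∧ (s : ℂ) + t * I ∉ P.Dom q} :=
    isClosed_Ici.inter ((isOpen_dom q).preimage hc).isClosed_compl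
  have hb : BddBelow {s : ℝ | 0 ≤ s ∧ (s : ℂ) + t * I ∉ P.Dom q} := ⟨0, fun _ h => h.1⟩
  have h1 := hB.csInf_mem (by push Not at h; exact h) hb
  have h2 (s : ℝ) (hs : 0 ≤ s) (hs' : s < sInf {s : ℝ | 0 ≤ s ∧ (s : ℂ) + t * I ∉ P.Dom q}) :
      (s : ℂ) + t * I ∈ P.Dom q := by
    by_contra h3
    exact hs'.not_ge (csInf_le hb ⟨hs, h3⟩)
  generalize sInf {s : ℝ | 0 ≤ s ∧ (s : ℂ) + t * I ∉ P.Dom q} = a at h1 h2
  have ha : 0 < a := h1.1.lt_of_ne fun h3 => h1.2 (by simpa [← h3] using mem_im q t ht)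
  have e (s : ℝ) : (t : ℂ) * I + s * (- -1 * 1) = s + t * I := by ring
  rcases ending (P := P) (j := P.G q) (w := t * I) one_mem_slitPlane norm_one (Or.inr rfl) ha
    (fun s h3 h4 => by rw [e]; exact G_imm (h2 s h3 h4)) with ⟨j, h3, h4⟩ | ⟨q', t₀, h3, h4, h5, h6⟩
  · simp only [e] at h3 h4
    refine absurd ?_ h1.2
    rw [add_comm]
    refine (extend_imm (mem_im q t ht) (by simpa using ht) (by simpa using h3 0 le_rfl ha) a
      fun s hs => ?_).1
    rw [Set.uIcc_of_le ha.le] at hs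
    rw [add_comm]
    rcases hs.2.eq_or_lt with rfl | h5
    · exact h4
    · exact (G_imm (h2 s hs.1 h5)).congr (h3 s hs.1 h5)
  · rw [e] at h6
    have e' (s : ℝ) : -1 * ((s : ℂ) + t * I) + (a + t * I) = (a - s : ℝ) := by
      push_cast
      ring
    have h7 : ∀ᶠ z in 𝓝 ((a - t₀ : ℝ) : ℂ), P.G q' z = P.κ q' z := by
      filter_upwards [isOpen_slitPlane.mem_nhds (ofReal_mem_slitPlane.2 (sub_pos.2 h4)),
        continuous_norm.continuousAt.eventually_lt continuousAt_const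
          (show ‖((a - t₀ : ℝ) : ℂ)‖ < P.rad by
            rwa [norm_real, Real.norm_of_nonneg (sub_pos.2 h4).le])] with z h7 h8
      exact (mem_slit q' h7 h8).2
    have key := ImmOn.unique (P := P) (j := P.G q) (j' := fun z => P.G q' (-1 * z + (a + t * I)))
      (isPreconnected_Ico.image _ hc.continuousOn : IsPreconnected (_ '' Set.Ico 0 a))
      (by rintro _ ⟨s, hs, rfl⟩; exact G_imm (h2 s hs.1 hs.2))
      (by
        rintro _ ⟨s, hs, rfl⟩
        refine Imm.comp (Or.inr rfl) ?_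
        rw [e']
        exact G_imm (mem_re q' _ (sub_pos.2 hs.2)))
      ⟨t₀, ⟨h3, h4⟩, rfl⟩ (by
        have t1 : Tendsto (fun z : ℂ => -1 * z + (a + t * I)) (𝓝 (t₀ + t * I))
            (𝓝 ((a - t₀ : ℝ) : ℂ)) := (by fun_prop : Continuous _).tendsto' _ _ (e' t₀)
        filter_upwards [A3_shift h6, t1.eventually h7] with z h8 h9
        rw [h8, h9]
        congr 1
        push_cast
        ring)
    refine ⟨a, q', ha, fun s hs hs' => ⟨h2 s hs hs', mem_re q' _ (sub_pos.2 hs'), ?_⟩⟩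
    have t1 : Tendsto (fun z : ℂ => (s : ℂ) + t * I + z) (𝓝 0) (𝓝 (s + t * I)) :=
      (by fun_prop : Continuous _).tendsto' _ _ (add_zero _)
    refine (t1.eventually (key _ ⟨s, ⟨hs, hs'⟩, rfl⟩)).mono fun z hz => hz.trans ?_
    change P.G q' _ = P.G q' _
    congr 1
    push_cast
    ring

end PA
end Pool.Agent.Work.MP_563a32_gt
end

-- merged part: Pool.Agent.Work.MP_563a32_gt.A6
section
/-! Locally isometric discs and rectangles are bounded.

Plan. Write `Disc y ρ` when some `j` has `j 0 = y` and is a local isometry on the ball of radius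
`ρ`. (a) If `j₀` is a local isometry on the ball of radius `2 δ` and `‖ζ‖, ‖ζ'‖ < δ` then
`Disc (j₀ ζ) ρ` with `ρ > 2 δ` gives `Disc (j₀ ζ') (ρ - 2 δ)` (`germ`, `unique` along the segment,
`comp`). (b) If `y` is in the cone chart of `x` with `‖cone x y‖ ^ p < (rad / 3) ^ 2` then
`Disc y ρ` fails for `ρ ≥ rad` (`cone_lemma` at the centre gives `c` with `‖c‖ < rad / 3`,
`c ≠ 0`; `trap` along the direction of `c` gives `cone x (j c) = 0`, so `j c = x`). A singular `y`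
has no disc. So the set of `y` with discs of every radius is open and closed and misses the
singular set, so it is empty. By (a) and (b) every point has a neighbourhood on which the radii are
bounded; use compactness. `area_bound`: given sides `a, b` with `a b` large, choose an integer `k`
with `2 D < a / lam ^ k ≤ 2 D lam`; `k`-fold `push` or `pull` gives a rectangle with sides
`a / lam ^ k` and `lam ^ k b > 2 D`, which contains a disc of radius `D`. -/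

namespace Pool.Agent.Work.MP_563a32_gt
open Filter Topology Complex

namespace PA
variable {S : Type} [TopologicalSpace S] [T2Space S] [CompactSpace S] [ConnectedSpace S]
  {P : PA S}

/-- A locally isometric disc of radius `ρ` with centre `y`. -/
def A6_Disc (P : PA S) (y : S) (ρ : ℝ) : Prop :=
  ∃ (j : ℂ → S) (w : ℂ), j w = y ∧ P.ImmOn j (Metric.ball w ρ)

omit [T2Space S] [CompactSpace S] [ConnectedSpace S] in
theorem A6_mono {y : S} {ρ ρ' : ℝ} (h : P.A6_Disc y ρ) (e : ρ' ≤ ρ) : P.A6_Disc y ρ' := by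
  obtain ⟨j, w, h1, h2⟩ := h
  exact ⟨j, w, h1, fun z hz => h2 z (Metric.ball_subset_ball e hz)⟩

omit [CompactSpace S] [ConnectedSpace S] in
theorem A6_reg {y₀ : S} (hy : y₀ ∉ P.sing) : ∃ U ∈ 𝓝 y₀, ∃ δ : ℝ, ∀ y ∈ U, ∀ y' ∈ U, ∀ ρ : ℝ,
    0 < ρ → P.A6_Disc y (ρ + δ) → P.A6_Disc y' ρ := by
  obtain ⟨j₀, rfl, h0⟩ := exists_imm hy
  obtain ⟨δ, hδ, hb⟩ := Metric.eventually_nhds_iff_ball.1 h0.eventually
  refine ⟨j₀ '' Metric.ball 0 δ, h0.map_nhds ▸ image_mem_map (Metric.ball_mem_nhds _ hδ), 2 * δ, ?_⟩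
  rintro _ ⟨ζ, hζ, rfl⟩ _ ⟨ζ', hζ', rfl⟩ ρ hρ ⟨j, w, h1, h2⟩
  obtain ⟨ε, hε, he⟩ := (hb ζ hζ).germ (h2 w (Metric.mem_ball_self (by positivity))) h1.symm
  have hn : ‖ε‖ = 1 := by rcases hε with rfl | rfl <;> simp
  have hd : ∀ z ∈ Metric.ball (0 : ℂ) δ, dist (ε * z + (w - ε * ζ)) w < 2 * δ := fun z hz => by
    rw [dist_eq_norm, show ε * z + (w - ε * ζ) - w = ε * (z - ζ) by ring, norm_mul, hn, one_mul]
    rw [mem_ball_zero_iff] at hz hζ
    linarith [norm_sub_le z ζ]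
  have e : j₀ =ᶠ[𝓝 ζ] fun z => j (ε * z + (w - ε * ζ)) := by
    have ht : Tendsto (fun z : ℂ => z - ζ) (𝓝 ζ) (𝓝 0) := tendsto_sub_nhds_zero_iff.2 tendsto_id
    filter_upwards [ht.eventually he] with z hz
    rw [add_sub_cancel] at hz
    rw [hz]
    congr 1
    ring
  have e' := ImmOn.unique (convex_ball (0 : ℂ) δ).isPreconnected hb
    (fun z hz => Imm.comp hε (h2 _ ((hd z hz).trans (by linarith)))) hζ e ζ' hζ'
  refine ⟨j, _, e'.eq_of_nhds.symm, fun z hz => h2 z ?_⟩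
  rw [Metric.mem_ball] at hz ⊢
  linarith [dist_triangle z (ε * ζ' + (w - ε * ζ)) w, hd ζ' hζ']

omit [CompactSpace S] [ConnectedSpace S] in
theorem A6_sing {x : S} (hx : x ∈ P.sing) : ∀ᶠ y in 𝓝 x, ¬ P.A6_Disc y P.rad := by
  have hr := (goodR P).1
  have hp : P.prongs x ≠ 0 := Nat.one_le_iff_ne_zero.1 (P.prongs_pos x hx)
  have h1 : ∀ᶠ y in 𝓝 x, ‖P.cone x y‖ ^ P.prongs x < (P.rad / 2) ^ 2 := by
    refine (((P.cone x).continuousAt (P.cone_mem x hx)).norm.pow _).eventually (gt_mem_nhds ?_)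
    change ‖P.cone x x‖ ^ P.prongs x < _
    rw [P.cone_zero x hx, norm_zero, zero_pow hp]
    positivity
  filter_upwards [h1, (P.cone x).open_source.mem_nhds (P.cone_mem x hx)] with y h2 h3
  rintro ⟨j, w, rfl, h⟩
  have k : ∀ c, P.Imm j c → j c ∈ (P.cone x).source →
      ¬ ∀ᶠ z in 𝓝 c, P.cone x (j z) ^ P.prongs x = (z - c) ^ 2 := fun c a1 a2 a3 => by
    have a4 := a3.self_of_nhds
    rw [sub_self, zero_pow two_ne_zero, pow_eq_zero_iff hp, ← P.cone_zero x hx] at a4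
    exact a1.not_sing ((P.cone x).injOn a2 (P.cone_mem x hx) a4 ▸ hx)
  have hw := h w (Metric.mem_ball_self hr)
  obtain ⟨c, hc⟩ := A2_local hx hw h3
  have hne : c - w ≠ 0 := sub_ne_zero.2 fun e => k w hw h3 (e ▸ hc)
  have hn : (‖c - w‖ : ℂ) ≠ 0 := ofReal_ne_zero.2 (norm_ne_zero_iff.2 hne)
  have hu : ‖(c - w) / ‖c - w‖‖ = 1 := by
    rw [norm_div, norm_real, norm_norm, div_self (norm_ne_zero_iff.2 hne)]
  have hi : ∀ t : ℝ, 0 ≤ t → t < P.rad / 2 → P.Imm j (w + t * ((c - w) / ‖c - w‖)) :=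
    fun t t0 t1 => h _ (by
      rw [mem_ball_iff_norm, add_sub_cancel_left, norm_mul, hu, norm_real, Real.norm_of_nonneg t0]
      linarith)
  obtain ⟨c', c1, c2⟩ := trap hx hu (half_pos hr) (half_pos hr) (add_halves _).le hi h3 h2
  have c3 := (c2 0 le_rfl (half_pos hr)).2
  rw [ofReal_zero, zero_mul, add_zero] at c3
  obtain rfl : c = c' := sq_unique (w := w) (by
    filter_upwards [hc, c3] with z e1 e2
    rw [← e1, e2])
  rw [norm_sub_rev] at c1
  have c4 := c2 _ (norm_nonneg _) c1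
  have c5 := hi _ (norm_nonneg _) c1
  rw [mul_div_cancel₀ _ hn, add_sub_cancel] at c4 c5
  exact k c c5 c4.1 c4.2

omit [CompactSpace S] [ConnectedSpace S] in
theorem A6_loc (y₀ : S) : ∃ U ∈ 𝓝 y₀, ∃ δ : ℝ, ∀ y ∈ U, ∀ y' ∈ U, ∀ ρ : ℝ,
    0 < ρ → P.A6_Disc y (ρ + δ) → P.A6_Disc y' ρ := by
  by_cases hy : y₀ ∈ P.sing
  · exact ⟨_, A6_sing hy, P.rad, fun y h _ _ ρ hρ hd => absurd (A6_mono hd (by linarith)) h⟩
  · exact A6_reg hy

theorem disc_bound (hne : P.sing.Nonempty) :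
    ∃ D : ℝ, 0 < D ∧ ∀ (j : ℂ → S) (w : ℂ), ¬ P.ImmOn j (Metric.ball w D) := by
  have h1 : IsLocallyConstant fun y => ∀ ρ : ℝ, 0 < ρ → P.A6_Disc y ρ := by
    refine (IsLocallyConstant.iff_eventually_eq _).2 fun y₀ => ?_
    obtain ⟨U, hU, δ, h⟩ := A6_loc (P := P) y₀
    have k : ∀ y ∈ U, ∀ y' ∈ U, (∀ ρ : ℝ, 0 < ρ → P.A6_Disc y ρ) →
        ∀ ρ : ℝ, 0 < ρ → P.A6_Disc y' ρ := fun y hy y' hy' H ρ hρ =>
      h y hy y' hy' ρ hρ (A6_mono (H (ρ + |δ|) (by positivity)) (by linarith [le_abs_self δ]))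
    filter_upwards [hU] with y hy
    exact propext ⟨k y hy y₀ (mem_of_mem_nhds hU), k y₀ (mem_of_mem_nhds hU) y hy⟩
  have h2 : ∀ y, ∃ ρ : ℝ, 0 < ρ ∧ ¬ P.A6_Disc y ρ := fun y => by
    by_contra hn
    push Not at hn
    obtain ⟨x, hx⟩ := hne
    obtain ⟨j, w, rfl, h⟩ := (h1.apply_eq_of_preconnectedSpace y x).mp hn 1 one_pos
    exact (h w (Metric.mem_ball_self one_pos)).not_sing hx
  have h3 : ∃ D : ℝ, 0 < D ∧ ∀ y ∈ (Set.univ : Set S), ¬ P.A6_Disc y D := by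
    refine isCompact_univ.induction_on (p := fun s => ∃ D : ℝ, 0 < D ∧ ∀ y ∈ s, ¬ P.A6_Disc y D)
      ⟨1, one_pos, fun _ h => h.elim⟩ ?_ ?_ ?_
    · rintro s t hst ⟨D, a, b⟩
      exact ⟨D, a, fun y hy => b y (hst hy)⟩
    · rintro s t ⟨D, a, b⟩ ⟨D', -, b'⟩
      exact ⟨max D D', lt_max_of_lt_left a, fun y hy h => hy.elim
        (fun hy => b y hy (A6_mono h (le_max_left _ _)))
        fun hy => b' y hy (A6_mono h (le_max_right _ _))⟩
    · intro y₀ _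
      obtain ⟨U, hU, δ, h⟩ := A6_loc (P := P) y₀
      obtain ⟨ρ, a, b⟩ := h2 y₀
      exact ⟨U, mem_nhdsWithin_of_mem_nhds hU, ρ + |δ|, by positivity, fun y hy hd =>
        b (h y hy y₀ (mem_of_mem_nhds hU) ρ a (A6_mono hd (by linarith [le_abs_self δ])))⟩
  obtain ⟨D, a, b⟩ := h3
  exact ⟨D, a, fun j w h => b _ trivial ⟨j, w, rfl, h⟩⟩

/-- A locally isometric rectangle. -/
def A6_Rect (P : PA S) (a b : ℝ) : Prop := ∃ (j : ℂ → S) (w : ℂ),
  ∀ s ∈ Set.Icc 0 a, ∀ t ∈ Set.Icc 0 b, P.Imm j (w + (s : ℝ) + (t : ℝ) * I)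

omit [T2Space S] [CompactSpace S] [ConnectedSpace S] in
theorem A6_push {a b : ℝ} (h : P.A6_Rect a b) : P.A6_Rect (a / P.lam) (b * P.lam) := by
  obtain ⟨j, w, h⟩ := h
  have hl : 0 < P.lam := one_pos.trans P.one_lt
  refine ⟨P.push j, diag P.lam w, fun s hs t ht => ?_⟩
  have k := (h (s * P.lam) ⟨mul_nonneg hs.1 hl.le, (le_div_iff₀ hl).1 hs.2⟩ (t / P.lam)
    ⟨div_nonneg ht.1 hl.le, (div_le_iff₀ hl).2 ht.2⟩).push
  convert k using 1
  apply Complex.ext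
  · simp only [diag, add_re, ofReal_re, mul_re, I_re, I_im, ofReal_im]
    field_simp
    ring
  · simp only [diag, add_im, ofReal_re, mul_im, I_re, I_im, ofReal_im]
    field_simp
    ring

omit [T2Space S] [CompactSpace S] [ConnectedSpace S] in
theorem A6_pull {a b : ℝ} (h : P.A6_Rect a b) : P.A6_Rect (a * P.lam) (b / P.lam) := by
  obtain ⟨j, w, h⟩ := h
  have hl : 0 < P.lam := one_pos.trans P.one_lt
  refine ⟨P.pull j, diag P.lam⁻¹ w, fun s hs t ht => Imm.pull ?_⟩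
  have k := h (s / P.lam) ⟨div_nonneg hs.1 hl.le, (div_le_iff₀ hl).2 hs.2⟩ (t * P.lam)
    ⟨mul_nonneg ht.1 hl.le, (le_div_iff₀ hl).1 ht.2⟩
  convert k using 1
  apply Complex.ext
  · simp only [diag, add_re, ofReal_re, mul_re, I_re, I_im, ofReal_im]
    field_simp
    ring
  · simp only [diag, add_im, ofReal_re, mul_im, I_re, I_im, ofReal_im]
    field_simp
    ring

omit [T2Space S] [CompactSpace S] [ConnectedSpace S] in
theorem A6_zpow {a b : ℝ} (h : P.A6_Rect a b) (k : ℤ) :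
    P.A6_Rect (a / P.lam ^ k) (b * P.lam ^ k) := by
  have hl : P.lam ≠ 0 := (one_pos.trans P.one_lt).ne'
  induction k using Int.induction_on with
  | zero => simpa using h
  | succ k ih =>
    rw [zpow_add_one₀ hl, ← div_div, ← mul_assoc]
    exact A6_push ih
  | pred k ih =>
    rw [zpow_sub_one₀ hl, ← div_div, div_inv_eq_mul, ← mul_assoc, ← div_eq_mul_inv]
    exact A6_pull ih

theorem area_bound (hne : P.sing.Nonempty) : ∃ A₀ : ℝ, ∀ (j : ℂ → S) (w : ℂ) (a b : ℝ),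
    0 < a → 0 < b → (∀ s ∈ Set.Icc 0 a, ∀ t ∈ Set.Icc 0 b, P.Imm j (w + (s : ℝ) + (t : ℝ) * I)) →
    a * b ≤ A₀ := by
  obtain ⟨D, hD, hb⟩ := disc_bound hne
  refine ⟨2 * D * (2 * D * P.lam), fun j w a b a0 b0 h => not_lt.1 fun hab => ?_⟩
  have hl : 0 < P.lam := one_pos.trans P.one_lt
  obtain ⟨k, k1, k2⟩ := exists_mem_Ico_zpow (div_pos a0 (mul_pos two_pos hD)) P.one_lt
  obtain ⟨j', w', h'⟩ := A6_zpow ⟨j, w, h⟩ k
  have hk : 0 < P.lam ^ k := zpow_pos hl k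
  rw [zpow_add_one₀ hl.ne', div_lt_iff₀ (by positivity)] at k2
  rw [le_div_iff₀ (by positivity)] at k1
  have e1 : 2 * D ≤ a / P.lam ^ k := by
    rw [le_div_iff₀ hk]
    linarith
  have e2 : 2 * D ≤ b * P.lam ^ k := by
    refine le_of_mul_le_mul_right ?_ (show 0 < 2 * D * P.lam by positivity)
    nlinarith [mul_lt_mul_of_pos_right k2 b0]
  refine hb j' (w' + D + D * I) fun z hz => ?_
  rw [mem_ball_iff_norm] at hz
  have r1 := abs_le.1 ((abs_re_le_norm _).trans hz.le)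
  have r2 := abs_le.1 ((abs_im_le_norm _).trans hz.le)
  simp only [sub_re, add_re, ofReal_re, mul_re, I_re, I_im, ofReal_im, sub_im, add_im,
    mul_im] at r1 r2
  convert h' (z.re - w'.re) ⟨by linarith [r1.1], by linarith [r1.2]⟩ (z.im - w'.im)
    ⟨by linarith [r2.1], by linarith [r2.2]⟩ using 1
  apply Complex.ext <;> simp

end PA
end Pool.Agent.Work.MP_563a32_gt
end

-- merged part: Pool.Agent.Work.MP_563a32_gt.A7
section
/-! Developing along two-step paths.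

Plan. For `z = w + s u + t v` (real coordinates `s`, `t`, which depend continuously on `z` in both
cases) let `L z` be the union of the segments from `w` to `w + s u` and from there to `z`. Let `Ω`
be the set of `z` for which some `j'` has the germ of `j` at `w` and is a local isometry on `L z`,
and `J z = j' z` for a chosen `j'`. By `unique` any witness gives the same value. A witness for `z`
is one for all `z'` near `z` (`L z'` lies in a thickening of the compact set `L z`), so `Ω` is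
open, `J` is a local isometry on `Ω` and equals every witness near `z`. A witness for `z` is one
for all points of `L z`. For the last clause `glue` the witness of `w + s u` on its segment with
`j'` on the second segment. -/

namespace Pool.Agent.Work.MP_563a32_gt
open Filter Topology Complex

theorem A7_mem {x s : ℝ} : s ∈ Set.uIcc 0 x ↔ ∃ τ ∈ Set.Icc (0 : ℝ) 1, τ * x = s := by
  rw [← segment_eq_uIcc, segment_eq_image]
  simp

theorem A7_coord {u v : ℂ} (huv : (u = 1 ∧ v = I) ∨ (u = I ∧ v = 1)) (w : ℂ) :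
    ∃ a b : ℂ → ℝ, Continuous a ∧ Continuous b ∧ (∀ z, w + a z * u + b z * v = z) ∧
      ∀ s t : ℝ, a (w + s * u + t * v) = s ∧ b (w + s * u + t * v) = t := by
  rcases huv with ⟨rfl, rfl⟩ | ⟨rfl, rfl⟩
  · refine ⟨fun z => (z - w).re, fun z => (z - w).im, by fun_prop, by fun_prop, fun z => ?_,
      fun s t => by simp⟩
    apply Complex.ext <;> simp
  · refine ⟨fun z => (z - w).im, fun z => (z - w).re, by fun_prop, by fun_prop, fun z => ?_,
      fun s t => by simp⟩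
    apply Complex.ext <;> simp

theorem A7_tube {U : Set ℂ} (hU : IsOpen U) {c : ℂ → ℂ} {a : ℂ → ℝ} (hc : Continuous c)
    (ha : Continuous a) (u z : ℂ) (h : ∀ s ∈ Set.uIcc 0 (a z), c z + (s : ℝ) * u ∈ U) :
    ∀ᶠ z' in 𝓝 z, ∀ s ∈ Set.uIcc 0 (a z'), c z' + (s : ℝ) * u ∈ U := by
  have h1 : ∀ᶠ z' in 𝓝 z, ∀ τ ∈ Set.Icc (0 : ℝ) 1, c z' + (τ * a z' : ℝ) * u ∈ U :=
    isCompact_Icc.eventually_forall_of_forall_eventually fun τ hτ =>
      (show Continuous fun q : ℂ × ℝ => c q.1 + (q.2 * a q.1 : ℝ) * u by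
        fun_prop).continuousAt.eventually (hU.mem_nhds (h _ (A7_mem.2 ⟨τ, hτ, rfl⟩)))
  refine h1.mono fun z' hz s hs => ?_
  obtain ⟨τ, hτ, rfl⟩ := A7_mem.1 hs
  exact hz τ hτ

namespace PA
variable {S : Type} [TopologicalSpace S] [T2Space S] {P : PA S}

theorem develop {u v : ℂ} (huv : (u = 1 ∧ v = I) ∨ (u = I ∧ v = 1)) {j : ℂ → S} {w : ℂ}
    (h : P.Imm j w) : ∃ (J : ℂ → S) (Ω : Set ℂ), IsOpen Ω ∧ P.ImmOn J Ω ∧ J =ᶠ[𝓝 w] j ∧
      (∀ (s : ℝ) (j' : ℂ → S), j' =ᶠ[𝓝 w] j →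
        (∀ s' ∈ Set.uIcc 0 s, P.Imm j' (w + (s' : ℝ) * u)) →
        w + s * u ∈ Ω ∧ J =ᶠ[𝓝 (w + s * u)] j') ∧
      (∀ s : ℝ, w + s * u ∈ Ω → ∀ s' ∈ Set.uIcc 0 s, w + (s' : ℝ) * u ∈ Ω) ∧
      ∀ (s t : ℝ) (j' : ℂ → S), w + s * u ∈ Ω → j' =ᶠ[𝓝 (w + s * u)] J →
        (∀ t' ∈ Set.uIcc 0 t, P.Imm j' (w + s * u + (t' : ℝ) * v)) → w + s * u + t * v ∈ Ω := by
  classical
  obtain ⟨a, b, ha, hb, hab, hst⟩ := A7_coord huv w
  have h1 : ∀ s : ℝ, a (w + s * u) = s ∧ b (w + s * u) = 0 := fun s => by simpa using hst s 0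
  have hseg : ∀ (c e : ℂ), Continuous fun s : ℝ => c + s * e := fun c e => by fun_prop
  obtain ⟨W, hW⟩ : ∃ W : ℂ → (ℂ → S) → Prop, ∀ z j', W z j' ↔ j' =ᶠ[𝓝 w] j ∧
      (∀ s ∈ Set.uIcc 0 (a z), P.Imm j' (w + (s : ℝ) * u)) ∧
      ∀ t ∈ Set.uIcc 0 (b z), P.Imm j' (w + a z * u + (t : ℝ) * v) := ⟨_, fun _ _ => Iff.rfl⟩
  have hop : ∀ z j', W z j' → ∀ᶠ z' in 𝓝 z, W z' j' := fun z j' hz => by
    obtain ⟨h2, h3, h4⟩ := (hW z j').1 hz
    filter_upwards [A7_tube (isOpen_imm j') (c := fun _ => w) continuous_const ha u z h3,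
      A7_tube (isOpen_imm j') (c := fun z => w + a z * u) (by fun_prop) hb v z h4] with z' h5 h6
    exact (hW z' j').2 ⟨h2, h5, h6⟩
  have huq : ∀ z j₁ j₂, W z j₁ → W z j₂ → j₁ =ᶠ[𝓝 z] j₂ := fun z j₁ j₂ e₁ e₂ => by
    obtain ⟨h2, h3, h4⟩ := (hW z _).1 e₁
    obtain ⟨h5, h6, h7⟩ := (hW z _).1 e₂
    have h8 := ImmOn.unique (isPreconnected_uIcc.image _ (hseg w u).continuousOn)
      (Set.forall_mem_image.2 h3) (Set.forall_mem_image.2 h6) (w₀ := w)
      ⟨0, Set.left_mem_uIcc, by simp⟩ (h2.trans h5.symm) _ ⟨_, Set.right_mem_uIcc, rfl⟩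
    exact ImmOn.unique (isPreconnected_uIcc.image _ (hseg (w + a z * u) v).continuousOn)
      (Set.forall_mem_image.2 h4) (Set.forall_mem_image.2 h7) ⟨0, Set.left_mem_uIcc, by simp⟩ h8
      _ ⟨_, Set.right_mem_uIcc, hab z⟩
  obtain ⟨J, hJ⟩ : ∃ J : ℂ → S, ∀ z j', W z j' → J =ᶠ[𝓝 z] j' :=
    ⟨fun z => if e : ∃ j', W z j' then e.choose z else j z, fun z j' hz =>
      (hop z j' hz).mono fun z' hz' => by
        have e : ∃ j', W z' j' := ⟨j', hz'⟩
        beta_reduce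
        rw [dif_pos e]
        exact (huq z' _ _ e.choose_spec hz').self_of_nhds⟩
  have h2 : ∀ (s : ℝ) j', W (w + s * u) j' ↔
      j' =ᶠ[𝓝 w] j ∧ ∀ s' ∈ Set.uIcc 0 s, P.Imm j' (w + (s' : ℝ) * u) := fun s j' => by
    rw [hW, (h1 s).1, (h1 s).2]
    refine and_congr_right fun _ => and_iff_left_of_imp fun e t ht => ?_
    rw [Set.uIcc_self, Set.mem_singleton_iff] at ht
    simpa [ht] using e s Set.right_mem_uIcc
  refine ⟨J, {z | ∃ j', W z j'}, isOpen_iff_mem_nhds.2 fun z ⟨j', hz⟩ =>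
    (hop z j' hz).mono fun z' hz' => ⟨j', hz'⟩, fun z ⟨j', hz⟩ => Imm.congr ?_ (hJ z j' hz), ?_,
    fun s j' e e' => ⟨⟨j', (h2 s j').2 ⟨e, e'⟩⟩, hJ _ _ ((h2 s j').2 ⟨e, e'⟩)⟩,
    fun s ⟨j', e⟩ s' hs' => ⟨j', (h2 s' j').2 ⟨((h2 s j').1 e).1, fun r hr =>
      ((h2 s j').1 e).2 r (Set.uIcc_subset_uIcc_left hs' hr)⟩⟩, fun s t j' ⟨j₀, e⟩ e₁ e₂ => ?_⟩
  · simpa only [hab] using ((hW z j').1 hz).2.2 _ Set.right_mem_uIcc
  · have h3 := hJ _ j ((h2 0 j).2 ⟨EventuallyEq.rfl, fun s hs => by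
      rw [Set.uIcc_self, Set.mem_singleton_iff] at hs
      simpa [hs] using h⟩)
    simpa using h3
  · have hA := (isCompact_uIcc (a := 0) (b := s)).image (hseg w u)
    have hB := (isCompact_uIcc (a := 0) (b := t)).image (hseg (w + s * u) v)
    obtain ⟨g, h3, h4⟩ := glue j₀ j' (Set.inter_subset_left.trans hA.isClosed.closure_subset)
      (Set.inter_subset_right.trans hB.isClosed.closure_subset) (by
        rintro _ ⟨⟨s', -, rfl⟩, t', -, e₃⟩
        have h5 : s = s' := by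
          have h6 := congrArg a e₃
          beta_reduce at h6
          rwa [(hst s t').1, (h1 s').1] at h6
        subst h5
        exact (hJ _ _ e).symm.trans e₁.symm)
    obtain ⟨h5, h6⟩ := (h2 s j₀).1 e
    refine ⟨g, (hW _ g).2 ⟨(h3 w ⟨0, Set.left_mem_uIcc, by simp⟩).trans h5, ?_, ?_⟩⟩
    · rw [(hst s t).1]
      exact fun r hr => (h6 r hr).congr (h3 _ ⟨r, hr, rfl⟩)
    · rw [(hst s t).1, (hst s t).2]
      exact fun r hr => (e₂ r hr).congr (h4 _ ⟨r, hr, rfl⟩)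

end PA
end Pool.Agent.Work.MP_563a32_gt
end

-- merged part: Pool.Agent.Work.MP_563a32_gt.A8
section
/-! Long segments meet short prongs, and connectedness.

Plan for `hit`: take `L` with `L ℓ > A₀` and `J`, `Ω` from `develop`; the segment lies in `Ω`. By
`area_bound` the rectangle `[0, L] × [0, ℓ]` is not inside `Ω`; its complement in `Ω` is compact;
take a point `(s, h)` of it with least `h`; `h > 0`. Apply `ending` to `J` from `w + s u` with
direction `v` and sign `-1`; the first alternative puts the point into `Ω`; in the second,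
`mem_slit` and `unique` along the prong (`mem_im`, `mem_re`, `G_imm`) give
`J (w + s u) = G q (h v)`. `ray_dich`: `develop` with `u = 1`; if some `ε L` is outside `Ω` take
the least such `a` and apply `ending` with `v = 1` and sign `- ε`. `exists_rep`: both rays from
`y` cannot end at singular points (`inj_re`, `locinj`); along the long one use `hit`, `germ` and
`extend_imm`. `conn`: define `val y` as `u x` at a singular point and through `exists_rep`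
elsewhere; it is locally constant at regular points (`map_nhds`, `isOpen_dom`) and at singular
points (`κ_cover` with `δ ≤ min ℓ rad`, `mem_slit`; points of height zero are limits of points of
nonzero height). -/

namespace Pool.Agent.Work.MP_563a32_gt
open Filter Topology Complex

namespace PA
variable {S : Type} [TopologicalSpace S] [T2Space S] [CompactSpace S] [ConnectedSpace S]
  {P : PA S}

omit [ConnectedSpace S] in
theorem A8_end {j : ℂ → S} {w v ε : ℂ} (hv : v = 1 ∨ v = I) (hε : ε = 1 ∨ ε = -1) {T : ℝ}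
    (hT : 0 < T) (h : ∀ t : ℝ, 0 ≤ t → t < T → P.Imm j (w + t * (-ε * v))) :
    (∃ j' : ℂ → S, (∀ t : ℝ, 0 ≤ t → t < T → j' =ᶠ[𝓝 (w + t * (-ε * v))] j) ∧
      P.Imm j' (w + T * (-ε * v))) ∨
    ∃ q : P.Pr, ∀ᶠ z in 𝓝 (0 : ℂ), j (w + z) = P.G q (T * v + ε * z) := by
  have hv0 : v ∈ slitPlane := by rcases hv with rfl | rfl <;> simp [mem_slitPlane_iff]
  have hv1 : ‖v‖ = 1 := by rcases hv with rfl | rfl <;> simp
  refine (ending hv0 hv1 hε hT h).imp_right ?_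
  rintro ⟨q, t₀, h0, h1, h2, h3⟩
  refine ⟨q, ?_⟩
  have hd : ∀ t : ℝ, 0 < t → (t : ℂ) * v ∈ P.Dom q := by
    intro t ht
    rcases hv with rfl | rfl
    · rw [mul_one]
      exact mem_re q t ht
    · exact mem_im q t ht.ne'
  have he : ∀ (t : ℝ) (z : ℂ),
      ε * (w + t * (-ε * v) + z) + (T * v - ε * w) = (T - t : ℝ) * v + ε * z := by
    intro t z
    push_cast
    linear_combination (-(t : ℂ) * v) * A1_sq hε
  have hU : IsPreconnected ((fun t : ℝ => w + t * (-ε * v)) '' Set.Ico 0 T) :=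
    isPreconnected_Ico.image _ (by fun_prop)
  have h4 : j =ᶠ[𝓝 (w + t₀ * (-ε * v))] fun z => P.G q (ε * z + (T * v - ε * w)) := by
    have hs : ((T - t₀ : ℝ) : ℂ) * v ∈ slitPlane ∩ Metric.ball 0 P.rad := by
      refine ⟨(hd _ (sub_pos.2 h1)).1, ?_⟩
      rwa [mem_ball_zero_iff, norm_mul, hv1, mul_one, norm_real, Real.norm_of_nonneg
        (sub_pos.2 h1).le]
    have h5 : ∀ᶠ z in 𝓝 (0 : ℂ), ((T - t₀ : ℝ) : ℂ) * v + ε * z ∈
        slitPlane ∩ Metric.ball 0 P.rad :=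
      ((show Continuous fun z : ℂ => ((T - t₀ : ℝ) : ℂ) * v + ε * z by fun_prop).tendsto' 0 _
        (by simp)).eventually ((isOpen_slitPlane.inter Metric.isOpen_ball).mem_nhds hs)
    have h6 : ∀ᶠ z in 𝓝 (0 : ℂ), j (w + t₀ * (-ε * v) + z) =
        P.G q (ε * (w + t₀ * (-ε * v) + z) + (T * v - ε * w)) := by
      filter_upwards [h3, h5] with z h7 h8
      rw [h7, he, (mem_slit q h8.1 (mem_ball_zero_iff.1 h8.2)).2]
    simpa using A3_shift h6
  have h5 := ImmOn.unique hU (by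
      rintro _ ⟨t, ht, rfl⟩
      exact h t ht.1 ht.2) (by
      rintro _ ⟨t, ht, rfl⟩
      refine Imm.comp hε (G_imm (q := q) ?_)
      have := he t 0
      rw [add_zero, mul_zero, add_zero] at this
      rw [this]
      exact hd _ (sub_pos.2 ht.2)) ⟨t₀, ⟨h0, h1⟩, rfl⟩ h4 w ⟨0, ⟨le_rfl, hT⟩, by simp⟩
  have t1 : Tendsto (fun z : ℂ => w + z) (𝓝 0) (𝓝 w) :=
    (show Continuous fun z : ℂ => w + z by fun_prop).tendsto' _ _ (add_zero w)
  filter_upwards [t1.eventually h5] with z hz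
  rw [hz]
  congr 1
  ring

theorem hit (hne : P.sing.Nonempty) {u v : ℂ} (huv : (u = 1 ∧ v = I) ∨ (u = I ∧ v = 1))
    {ℓ : ℝ} (hℓ : 0 < ℓ) : ∃ L : ℝ, 0 < L ∧ ∀ (j : ℂ → S) (w : ℂ),
      (∀ s ∈ Set.Icc 0 L, P.Imm j (w + (s : ℝ) * u)) →
      ∃ s ∈ Set.Icc 0 L, ∃ q', ∃ t ∈ Set.Ioc 0 ℓ, j (w + (s : ℝ) * u) = P.G q' ((t : ℝ) * v) := by
  obtain ⟨A₀, hA⟩ := area_bound hne
  have hL : 0 < (|A₀| + 1) / ℓ := by positivity
  have hL' : A₀ < (|A₀| + 1) / ℓ * ℓ := by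
    rw [div_mul_cancel₀ _ hℓ.ne']
    linarith [le_abs_self A₀]
  refine ⟨_, hL, fun j w h => ?_⟩
  generalize (|A₀| + 1) / ℓ = L at hL hL' h
  obtain ⟨J, Ω, hΩ, hJ, -, h1, -, h2⟩ :=
    develop huv (j := j) (w := w) (by simpa using h 0 ⟨le_rfl, hL.le⟩)
  have h3 : ∀ s ∈ Set.Icc 0 L, w + (s : ℝ) * u ∈ Ω ∧ J =ᶠ[𝓝 (w + (s : ℝ) * u)] j := fun s hs =>
    h1 s j EventuallyEq.rfl fun s' hs' => h s' (by
      rw [Set.uIcc_of_le hs.1] at hs'
      exact ⟨hs'.1, hs'.2.trans hs.2⟩)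
  have hK : IsCompact ((Set.Icc 0 L ×ˢ Set.Icc 0 ℓ) ∩
      (fun p : ℝ × ℝ => w + p.1 * u + p.2 * v) ⁻¹' Ωᶜ) :=
    (isCompact_Icc.prod isCompact_Icc).inter_right (hΩ.isClosed_compl.preimage (by fun_prop))
  have hn : ((Set.Icc 0 L ×ˢ Set.Icc 0 ℓ) ∩
      (fun p : ℝ × ℝ => w + p.1 * u + p.2 * v) ⁻¹' Ωᶜ).Nonempty := by
    by_contra hn
    have h4 : ∀ s ∈ Set.Icc 0 L, ∀ t ∈ Set.Icc 0 ℓ,
        P.Imm J (w + (s : ℝ) * u + (t : ℝ) * v) := fun s hs t ht =>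
      hJ _ (by_contra fun h5 => hn ⟨(s, t), ⟨hs, ht⟩, h5⟩)
    rcases huv with ⟨rfl, rfl⟩ | ⟨rfl, rfl⟩
    · exact (hA J w L ℓ hL hℓ fun s hs t ht => by simpa using h4 s hs t ht).not_gt hL'
    · refine (hA J w ℓ L hℓ hL fun s hs t ht => ?_).not_gt (by linarith)
      have := h4 t ht s hs
      rwa [mul_one, add_right_comm] at this
  obtain ⟨⟨s, T⟩, ⟨⟨hs, hT⟩, h4⟩, h5⟩ := hK.exists_isMinOn hn continuous_snd.continuousOn
  have hT0 : 0 < T := lt_of_le_of_ne hT.1 fun h0 => h4 (by simpa [← h0] using (h3 s hs).1)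
  have h6 : ∀ t : ℝ, 0 ≤ t → t < T → P.Imm J (w + s * u + t * (-(-1) * v)) := by
    intro t h7 h8
    rw [neg_neg, one_mul]
    exact hJ _ (by_contra fun h9 =>
      (h5 (a := (s, t)) ⟨⟨hs, h7, h8.le.trans hT.2⟩, h9⟩).not_gt h8)
  rcases A8_end (huv.symm.imp And.right And.right) (Or.inr rfl) hT0 h6 with ⟨j', h7, h8⟩ | ⟨q, h7⟩
  · refine absurd (h2 s T j' (h3 s hs).1 (by simpa using h7 0 le_rfl hT0) fun t ht => ?_) h4
    rw [Set.uIcc_of_le hT.1] at ht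
    rcases ht.2.lt_or_eq with h9 | rfl
    · simpa using (h6 t ht.1 h9).congr (h7 t ht.1 h9)
    · simpa using h8
  · refine ⟨s, hs, q, T, ⟨hT0, hT.2⟩, ?_⟩
    rw [← (h3 s hs).2.eq_of_nhds]
    simpa using h7.self_of_nhds

omit [ConnectedSpace S] in
theorem ray_dich {j : ℂ → S} {w ε : ℂ} (hε : ε = 1 ∨ ε = -1) (h : P.Imm j w) :
    (∃ j' : ℂ → S, j' =ᶠ[𝓝 w] j ∧ ∀ s : ℝ, 0 ≤ s → P.Imm j' (w + ε * s)) ∨
    ∃ (a : ℝ) (q : P.Pr), 0 < a ∧ ∀ᶠ z in 𝓝 (0 : ℂ), j (w + z) = P.G q (a - ε * z) := by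
  obtain ⟨J, Ω, hΩ, hJ, h0, h1, -, -⟩ := develop (Or.inl ⟨rfl, rfl⟩) h
  by_cases hn : ∀ s : ℝ, 0 ≤ s → w + ε * s ∈ Ω
  · exact Or.inl ⟨J, h0, fun s hs => hJ _ (hn s hs)⟩
  right
  have hK : IsClosed (Set.Ici 0 ∩ (fun s : ℝ => w + ε * s) ⁻¹' Ωᶜ) :=
    isClosed_Ici.inter (hΩ.isClosed_compl.preimage (by fun_prop))
  have hb : BddBelow (Set.Ici 0 ∩ (fun s : ℝ => w + ε * s) ⁻¹' Ωᶜ) := ⟨0, fun _ hs => hs.1⟩
  have h2 := hK.csInf_mem (by
    by_contra h2
    exact hn fun s hs => by_contra fun h3 => h2 ⟨s, hs, h3⟩) hb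
  have h3 := fun s hs => csInf_le hb (a := s) hs
  generalize sInf (Set.Ici 0 ∩ (fun s : ℝ => w + ε * s) ⁻¹' Ωᶜ) = a at h2 h3
  have ha : 0 < a := lt_of_le_of_ne h2.1 fun h4 => h2.2 (by
    simpa [← h4] using (h1 0 j EventuallyEq.rfl (by simpa using h)).1)
  have e : ∀ t : ℝ, w + t * (-(-ε) * 1) = w + ε * t := fun t => by ring
  have h4 : ∀ t : ℝ, 0 ≤ t → t < a → P.Imm J (w + t * (-(-ε) * 1)) := by
    intro t h5 h6
    rw [e]
    exact hJ _ (by_contra fun h7 => (h3 t ⟨h5, h7⟩).not_gt h6)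
  rcases A8_end (Or.inl rfl) (ε := -ε) (by rcases hε with rfl | rfl <;> simp) ha h4 with
    ⟨j', h5, h6⟩ | ⟨q, h5⟩
  · have h7 : ∀ t : ℝ, 0 ≤ t → t ≤ a → P.Imm j' (w + ε * t) := by
      intro t h8 h9
      rw [← e]
      rcases h9.lt_or_eq with h9 | rfl
      · exact (h4 t h8 h9).congr (h5 t h8 h9)
      · exact h6
    have h8 : j' =ᶠ[𝓝 w] j := EventuallyEq.trans (by simpa using h5 0 le_rfl ha) h0
    refine absurd ?_ h2.2
    rcases hε with rfl | rfl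
    · simpa using (h1 a j' h8 fun t ht => by
        rw [Set.uIcc_of_le ha.le] at ht
        simpa using h7 t ht.1 ht.2).1
    · simpa using (h1 (-a) j' h8 fun t ht => by
        rw [Set.uIcc_of_ge (neg_nonpos.2 ha.le)] at ht
        simpa using h7 (-t) (by linarith [ht.2]) (by linarith [ht.1])).1
  · have t1 : Tendsto (fun z : ℂ => w + z) (𝓝 0) (𝓝 w) :=
      (show Continuous fun z : ℂ => w + z by fun_prop).tendsto' _ _ (add_zero w)
    refine ⟨a, q, ha, ?_⟩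
    filter_upwards [h5, t1.eventually h0] with z h6 h7
    rw [← h7, h6]
    congr 1
    ring

omit [ConnectedSpace S] in
theorem A8_long {y : S} (hy : y ∉ P.sing) :
    ∃ k : ℂ → S, k 0 = y ∧ ∀ s : ℝ, 0 ≤ s → P.Imm k s := by
  obtain ⟨j, rfl, hj⟩ := exists_imm hy
  have key : ∀ ε : ℂ, (ε = 1 ∨ ε = -1) → (∃ j' : ℂ → S, j' =ᶠ[𝓝 0] j ∧
      ∀ s : ℝ, 0 ≤ s → P.Imm j' (0 + ε * s)) →
      ∃ k : ℂ → S, k 0 = j 0 ∧ ∀ s : ℝ, 0 ≤ s → P.Imm k s := by
    rintro ε hε ⟨j', h1, h2⟩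
    refine ⟨fun z => j' (ε * z + 0), by simpa using h1.eq_of_nhds, fun s hs => ?_⟩
    exact Imm.comp hε (by simpa using h2 s hs)
  rcases ray_dich (Or.inl rfl) hj with h | ⟨a, q, ha, h⟩
  · exact key _ (Or.inl rfl) h
  rcases ray_dich (Or.inr rfl) hj with h' | ⟨a', q', ha', h'⟩
  · exact key _ (Or.inr rfl) h'
  exfalso
  obtain ⟨rfl, rfl⟩ := inj_re q q' a a' ha ha'
    (by simpa using h.self_of_nhds.symm.trans h'.self_of_nhds)
  obtain ⟨U, hU, hi⟩ := (G_imm (mem_re q a ha)).locinj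
  have t1 : ∀ ε : ℂ, ∀ᶠ z in 𝓝 (0 : ℂ), a - ε * z ∈ U := fun ε =>
    ((show Continuous fun z : ℂ => a - ε * z by fun_prop).tendsto' _ _ (by simp)).eventually hU
  have h2 : ∀ᶠ z in 𝓝[≠] (0 : ℂ), False := by
    filter_upwards [nhdsWithin_le_nhds h, nhdsWithin_le_nhds h', nhdsWithin_le_nhds (t1 1),
      nhdsWithin_le_nhds (t1 (-1)), self_mem_nhdsWithin] with z h3 h4 h5 h6 h7
    have := hi h5 h6 (h3.symm.trans h4)
    exact h7 (by rw [Set.mem_singleton_iff]; linear_combination (-1 / 2 : ℂ) * this)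
  exact h2.exists.elim fun _ h => h

theorem exists_rep (hne : P.sing.Nonempty) {ℓ : ℝ} (hℓ : 0 < ℓ) {y : S} (hy : y ∉ P.sing) :
    ∃ (q : P.Pr) (s t : ℝ), 0 < t ∧ t < ℓ ∧ (s : ℂ) + t * I ∈ P.Dom q ∧
      P.G q (s + t * I) = y := by
  obtain ⟨k, rfl, hk⟩ := A8_long hy
  obtain ⟨L, -, hL⟩ := hit hne (Or.inl ⟨rfl, rfl⟩) (half_pos hℓ)
  obtain ⟨s, hs, q, t, ht, h⟩ := hL k 0 fun s hs => by simpa using hk s hs.1
  have hd := mem_im q t ht.1.ne'
  obtain ⟨δ, hδ, h1⟩ := (hk s hs.1).germ (G_imm hd) (by simpa using h)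
  obtain ⟨d, rfl, hd1⟩ : ∃ d : ℝ, δ = d ∧ (d = 1 ∨ d = -1) := by
    rcases hδ with rfl | rfl
    · exact ⟨1, by simp, Or.inl rfl⟩
    · exact ⟨-1, by simp, Or.inr rfl⟩
  have h2 : (fun z => k (d * z + (s - d * (t * I)))) =ᶠ[𝓝 (t * I)] P.G q := by
    have t1 : Tendsto (fun z : ℂ => d * (z - t * I)) (𝓝 (t * I)) (𝓝 0) :=
      (show Continuous fun z : ℂ => d * (z - t * I) by fun_prop).tendsto' _ _ (by simp)
    filter_upwards [t1.eventually h1] with z hz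
    rw [← mul_assoc, A1_sq hδ, one_mul, add_sub_cancel] at hz
    rw [← hz]
    congr 1
    ring
  obtain ⟨h3, h4⟩ := extend_imm hd (by simpa using ht.1.ne') h2 (-(d * s)) fun s' hs' => by
    refine Imm.comp hδ ?_
    have e : (d : ℂ) * (t * I + s') + (s - d * (t * I)) = (s + d * s' : ℝ) := by
      push_cast
      ring
    rw [e]
    refine hk _ ?_
    rcases hd1 with rfl | rfl
    · rw [Set.uIcc_of_ge (by linarith [hs.1])] at hs'
      linarith [hs'.1]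
    · rw [Set.uIcc_of_le (by linarith [hs.1])] at hs'
      linarith [hs'.2]
  rw [add_comm] at h3 h4
  refine ⟨q, -(d * s), t, ht.1, by linarith [ht.2], h3, h4.trans ?_⟩
  congr 1
  push_cast
  linear_combination (-(s : ℂ)) * A1_sq hδ

theorem conn (hne : P.sing.Nonempty) {ℓ : ℝ} (hℓ : 0 < ℓ) (u : P.sing → ℂ)
    (h : ∀ (q q' : P.Pr) (s t s' t' : ℝ), t ≠ 0 → |t| < ℓ → t' ≠ 0 → |t'| < ℓ →
      (s : ℂ) + t * I ∈ P.Dom q → (s' : ℂ) + t' * I ∈ P.Dom q' →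
      P.G q (s + t * I) = P.G q' (s' + t' * I) → u q.1 = u q'.1) : ∀ x y, u x = u y := by
  classical
  choose q s t h0 h1 h2 h3 using fun y : {y // y ∉ P.sing} => exists_rep hne hℓ y.2
  obtain ⟨val, v1, v2⟩ : ∃ val : S → ℂ, (∀ x : P.sing, val x = u x) ∧
      ∀ y : {y // y ∉ P.sing}, val y = u (q y).1 :=
    ⟨fun y => if hy : y ∈ P.sing then u ⟨y, hy⟩ else u (q ⟨y, hy⟩).1,
      fun x => dif_pos x.2, fun y => dif_neg y.2⟩
  have v3 : ∀ (p : P.Pr) (z : ℂ), z ∈ P.Dom p → z.im ≠ 0 → |z.im| < ℓ →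
      val (P.G p z) = u p.1 := by
    intro p z h4 h5 h6
    refine (v2 ⟨_, (G_imm h4).not_sing⟩).trans (h _ _ _ _ z.re z.im (h0 _).ne' ?_ h5 h6 (h2 _)
      (by rwa [re_add_im]) (by rw [re_add_im, h3]))
    rw [abs_of_pos (h0 _)]
    exact h1 _
  have v4 : ∀ (p : P.Pr) (z : ℂ), z ∈ P.Dom p → |z.im| < ℓ →
      ∀ᶠ z' in 𝓝 z, z'.im ≠ 0 → val (P.G p z') = u p.1 := by
    intro p z h4 h6
    filter_upwards [(isOpen_dom p).mem_nhds h4,
      (isOpen_lt (f := fun z : ℂ => |z.im|) (by fun_prop) continuous_const).mem_nhds h6] with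
      z' h7 h8 h9
    exact v3 p z' h7 h9 h8
  have v5 : ∀ y, y ∉ P.sing → ∀ᶠ y' in 𝓝 y, val y' = val y := by
    intro y hy
    have e : ((s ⟨y, hy⟩ : ℂ) + t ⟨y, hy⟩ * I).im = t ⟨y, hy⟩ := by simp
    have h4 := (G_imm (h2 ⟨y, hy⟩)).map_nhds
    rw [h3] at h4
    rw [v2 ⟨y, hy⟩, ← h4, eventually_map]
    filter_upwards [v4 _ _ (h2 ⟨y, hy⟩) (by rw [e, abs_of_pos (h0 _)]; exact h1 _),
      (isOpen_ne_fun continuous_im continuous_const).mem_nhds
        (show ((s ⟨y, hy⟩ : ℂ) + t ⟨y, hy⟩ * I).im ≠ 0 from e.symm ▸ (h0 _).ne')] with z h5 h6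
    exact h5 h6
  have v6 : ∀ (p : P.Pr) (z : ℂ), z ∈ P.Dom p → |z.im| < ℓ → val (P.G p z) = u p.1 := by
    intro p z h4 h6
    by_cases h5 : z.im = 0
    swap
    · exact v3 p z h4 h5 h6
    have t1 : Tendsto (fun τ : ℝ => z + τ * I) (𝓝[≠] 0) (𝓝 z) :=
      ((show Continuous fun τ : ℝ => z + τ * I by fun_prop).tendsto' _ _ (by simp)).mono_left
        nhdsWithin_le_nhds
    obtain ⟨τ, ⟨h7, h8⟩, h9⟩ := ((t1.eventually ((v4 p z h4 h6).and
      ((G_imm h4).continuousAt.eventually (v5 _ (G_imm h4).not_sing)))).and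
        self_mem_nhdsWithin).exists
    exact h8.symm.trans (h7 (by simpa [h5] using h9))
  have v7 : IsLocallyConstant val := by
    refine (IsLocallyConstant.iff_eventually_eq val).2 fun y => ?_
    by_cases hy : y ∈ P.sing
    swap
    · exact v5 y hy
    filter_upwards [κ_cover ⟨y, hy⟩ (lt_min hℓ (goodR P).1)] with y' h4
    rcases h4 with rfl | ⟨m, w, h4, h5, rfl⟩
    · rfl
    · rw [lt_min_iff] at h5
      obtain ⟨h6, h7⟩ := mem_slit ⟨⟨y, hy⟩, m⟩ h4 h5.2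
      rw [← h7, v6 _ w h6 ((abs_im_le_norm w).trans_lt h5.1)]
      exact (v1 ⟨y, hy⟩).symm
  intro x y
  rw [← v1, ← v1]
  exact v7.apply_eq_of_preconnectedSpace _ _

end PA
end Pool.Agent.Work.MP_563a32_gt
end

-- merged part: Pool.Agent.Work.MP_563a32_gt.C7
section
/-! The analytic form of the lower bound.

Plan. Put `x = log lam > 0`, `t = n / g`. If `32 g x ≥ 1` use `log (2 + t) ≤ 1 + t`. Otherwise
`exp (32 g x) - 1 ≤ 64 g x`, so with `y = (g + n) x` one has `1 + t ≤ 64 y exp (36 y)`; this forces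
`y > 1 / 200`, and `log (2 + t) ≤ log 128 + 37 y ≤ 5 + 37 y ≤ 1037 y`. -/

namespace Pool.Agent.Work.MP_563a32_gt

theorem analytic (g n : ℕ) (hg : 1 ≤ g) (lam : ℝ) (hl : 1 < lam)
    (h : 1 ≤ (lam ^ (32 * g) - 1) * lam ^ (36 * (g + n))) :
    1 / 1100 * (Real.log (2 + n / g) / (g + n)) ≤ Real.log lam := by
  have hx : 0 < Real.log lam := Real.log_pos hl
  have e : ∀ m : ℕ, lam ^ m = Real.exp (m * Real.log lam) := fun m => by
    rw [Real.exp_nat_mul, Real.exp_log (by linarith)]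
  rw [e, e] at h
  push_cast at h
  generalize Real.log lam = x at hx h ⊢
  have hG : (1 : ℝ) ≤ g := by exact_mod_cast hg
  have hn : (0 : ℝ) ≤ n := Nat.cast_nonneg n
  obtain ⟨t, ht⟩ : ∃ t : ℝ, t = n / g := ⟨_, rfl⟩
  have ht0 : 0 ≤ t := ht ▸ div_nonneg hn (by linarith)
  have hgt : (g : ℝ) + n = (1 + t) * g := by
    rw [ht]
    field_simp
  have hy : 0 < ((g : ℝ) + n) * x := mul_pos (by linarith) hx
  have key : Real.log (2 + t) ≤ 164 * ((g + n) * x) := by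
    by_cases h1 : 1 ≤ 32 * g * x
    · have h2 := Real.log_le_sub_one_of_pos (show 0 < 2 + t by linarith)
      have h3 := mul_le_mul_of_nonneg_left h1 (show 0 ≤ 1 + t by linarith)
      have h4 : (1 + t) * (32 * g * x) = 32 * ((g + n) * x) := by
        rw [hgt]
        ring
      linarith
    · have h0 : 0 ≤ 32 * g * x := by positivity
      have h2 := Real.abs_exp_sub_one_le (x := 32 * g * x) (by rw [abs_of_nonneg h0]; linarith)
      rw [abs_of_nonneg h0] at h2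
      have h3 := h.trans (mul_le_mul_of_nonneg_right ((le_abs_self _).trans h2)
        (Real.exp_pos (36 * (g + n) * x)).le)
      have h4 := mul_le_mul_of_nonneg_left h3 (show 0 ≤ 2 * (1 + t) by linarith)
      have h5 : 2 * (1 + t) * (2 * (32 * g * x) * Real.exp (36 * (g + n) * x)) =
          128 * ((g + n) * x) * Real.exp (36 * (g + n) * x) := by
        generalize Real.exp (36 * (g + n) * x) = w
        rw [hgt]
        ring
      have h6 := mul_le_mul_of_nonneg_right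
        (show 128 * ((g + n) * x) ≤ Real.exp (128 * ((g + n) * x)) by
          linarith [Real.add_one_le_exp (128 * ((g + n) * x))])
        (Real.exp_pos (36 * (g + n) * x)).le
      rw [← Real.exp_add] at h6
      rw [Real.log_le_iff_le_exp (by linarith),
        show 164 * ((g + n) * x) = 128 * ((g + n) * x) + 36 * (g + n) * x by ring]
      linarith
  rw [← ht, ← mul_div_assoc, div_le_iff₀ (by linarith)]
  linarith

end Pool.Agent.Work.MP_563a32_gt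
end

-- merged part: Pool.Agent.Work.MP_563a32_gt.AMain
section
/-! The lower bound. -/

namespace Pool.Agent.Work.MP_563a32_gt
open Filter Topology Complex

namespace PA
variable {S : Type} [TopologicalSpace S] [T2Space S] [CompactSpace S] [ConnectedSpace S]
  {P : PA S}

omit [CompactSpace S] [ConnectedSpace S] in
theorem G_tendsto (q : P.Pr) {v : ℂ} (hv : v ∈ slitPlane) (hv1 : ‖v‖ = 1) :
    Tendsto (fun s : ℝ => P.G q (s * v)) (𝓝[>] 0) (𝓝 (q.1 : S)) := by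
  have h1 : Tendsto (fun s : ℝ => (s : ℂ) * v) (𝓝[>] 0) (𝓝[≠] 0) := by
    apply tendsto_nhdsWithin_of_tendsto_nhds_of_eventually_within
    · have : Continuous fun s : ℝ => (s : ℂ) * v := by fun_prop
      simpa using (this.tendsto 0).mono_left nhdsWithin_le_nhds
    · filter_upwards [self_mem_nhdsWithin] with s hs
      exact mul_ne_zero (by exact_mod_cast (ne_of_gt hs)) (slitPlane_ne_zero hv)
  refine ((κ_tendsto q).comp h1).congr' ?_
  filter_upwards [Ioo_mem_nhdsGT (goodR P).1] with s hs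
  refine ((mem_slit q ?_ ?_).2).symm
  · rcases hv with h | h
    · left; simpa using mul_pos hs.1 h
    · right; simpa using ⟨ne_of_gt hs.1, h⟩
  · simpa [hv1, abs_of_pos hs.1] using hs.2

theorem dev_ax (hne : P.sing.Nonempty) : P.dev.Ax where
  ne_Pr := by
    obtain ⟨x, hx⟩ := hne
    exact ⟨⟨⟨x, hx⟩, ⟨0, P.prongs_pos x hx⟩⟩⟩
  rot_σ := rot_σ
  base_rot := fun _ => rfl
  base_σ := fun q => (isIm_σ q).1
  rot_trans := rot_trans
  r_pos := (goodR P).1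
  one_lt := P.one_lt
  isOpen := isOpen_dom
  mem_slit := fun q _ hz h => (mem_slit q hz h).1
  mem_im := mem_im
  mem_re := mem_re
  cont := fun _ _ hz => (G_imm hz).continuousAt.continuousWithinAt
  ne_pt := fun q z hz x e => (G_imm hz).not_sing (by
    have : P.G q z = x := e
    rw [this]; exact x.2)
  lim_re := fun q => by simpa [dev] using G_tendsto q (v := 1) (by simp) (by simp)
  lim_im := fun q => G_tendsto q (v := I) (by simp [slitPlane]) (by simp)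
  germ := fun q w q' w' hw hw' e => by
    obtain ⟨ε, hε, h⟩ := (G_imm hw).germ (G_imm hw') e
    rcases hε with rfl | rfl
    · exact Or.inl ⟨hw, hw', h⟩
    · exact Or.inr ⟨hw, hw', h⟩
  locinj := fun _ _ hw => (G_imm hw).locinj
  extend := fun ε q w q' w' v hε hi h hd => by
    refine (extend_imm (j := fun z => P.G q' (ε * z + (w' - ε * w))) h.1 hi ?_ v ?_).1
    · have ht : Tendsto (fun z : ℂ => z - w) (𝓝 w) (𝓝 0) := by
        have : Continuous fun z : ℂ => z - w := by fun_prop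
        simpa using this.tendsto w
      filter_upwards [ht.eventually h.2.2] with z hz
      have e1 : w + (z - w) = z := by ring
      have e2 : w' + ε * (z - w) = ε * z + (w' - ε * w) := by ring
      rw [e1, e2] at hz
      exact hz.symm
    · intro s hs
      apply Imm.comp hε
      have e : ε * (w + s) + (w' - ε * w) = w' + ε * s := by ring
      rw [e]; exact G_imm (hd s hs)
  convex := convex
  dich := dich
  rot_dom := rot_dom
  rot_G := rot_G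
  F_inj := P.f.injective
  F_dom := F_dom
  F_G := fun q _ hz => F_G q hz
  inj_re := inj_re
  inj_im := inj_im
  cross := fun q q' s t hs hs' ht ht' e => by
    have h1 : (s : ℂ) ∈ slitPlane := by left; simpa using hs
    have h2 : (t : ℂ) * I ∈ slitPlane := by right; simpa using ne_of_gt ht
    have n1 : ‖(s : ℂ)‖ < P.rad := by simpa [abs_of_pos hs, dev] using hs'
    have n2 : ‖(t : ℂ) * I‖ < P.rad := by simpa [abs_of_pos ht, dev] using ht'
    have e' : P.G q s = P.G q' (t * I) := e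
    rw [(mem_slit q h1 n1).2, (mem_slit q' h2 n2).2] at e'
    have := (κ_sq (slitPlane_ne_zero h1) n1.le (slitPlane_ne_zero h2) n2.le e').2
    have h3 := congrArg Complex.re this
    simp [pow_two] at h3
    nlinarith
  hit_h := fun ℓ hℓ => by
    obtain ⟨L, hL, h⟩ := hit (P := P) hne (Or.inl ⟨rfl, rfl⟩) hℓ
    refine ⟨L, hL, fun q w hd => ?_⟩
    have := h (P.G q) w (fun s hs => by rw [mul_one]; exact G_imm (hd s hs))
    simp only [mul_one] at this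
    exact this
  hit_v := fun ℓ hℓ => by
    obtain ⟨L, hL, h⟩ := hit (P := P) hne (Or.inr ⟨rfl, rfl⟩) hℓ
    refine ⟨L, hL, fun q w hd => ?_⟩
    have := h (P.G q) w (fun s hs => G_imm (hd s hs))
    simp only [mul_one] at this
    exact this
  conn := fun _ hℓ u h => conn hne hℓ u h

omit [T2Space S] [CompactSpace S] [ConnectedSpace S] in
theorem card_Pr : Fintype.card P.Pr = ∑ x ∈ P.sing, P.prongs x := by
  simp [Fintype.card_sigma, Finset.sum_attach P.sing P.prongs]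

omit [T2Space S] [CompactSpace S] [ConnectedSpace S] in
theorem card_le {g : ℕ} (hg : P.HasGenus g) :
    ∑ x ∈ P.sing, P.prongs x + 4 = 4 * g + 2 * P.sing.card ∧
      ∑ x ∈ P.sing, P.prongs x ≤ 12 * (g + P.punct.card) := by
  classical
  unfold HasGenus at hg
  have h1 : ((∑ x ∈ P.sing, P.prongs x : ℕ) : ℤ) - 2 * P.sing.card = 4 * g - 4 := by
    rw [← hg, Finset.sum_sub_distrib]; simp [mul_comm]
  have h2 : ∑ x ∈ P.sing, (1 - 2 * (if x ∈ P.punct then 1 else 0) : ℤ) ≤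
      ∑ x ∈ P.sing, ((P.prongs x : ℤ) - 2) := by
    apply Finset.sum_le_sum
    intro x hx
    split_ifs with h
    · have := P.prongs_pos x hx; omega
    · have := P.prongs_three x hx h; omega
  have h3 : ∑ x ∈ P.sing, (if x ∈ P.punct then 1 else 0 : ℤ) = P.punct.card := by
    rw [Finset.sum_ite_mem, Finset.inter_eq_right.mpr P.punct_sub]; simp
  rw [Finset.sum_sub_distrib, ← Finset.mul_sum, h3, hg] at h2
  simp only [Finset.sum_const, nsmul_eq_mul, mul_one] at h2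
  constructor <;> omega

end PA

theorem lower (g n : ℕ) (hg : 2 ≤ g) {l : ℝ} (hl : l ∈ Spectrum g n) :
    1 / 1100 * (Real.log (2 + n / g) / (g + n)) ≤ l := by
  classical
  obtain ⟨S, _, _, _, _, P, hgen, rfl, rfl⟩ := hl
  obtain ⟨h1, h2⟩ := PA.card_le hgen
  have hne : P.sing.Nonempty := by
    by_contra h
    rw [Finset.not_nonempty_iff_eq_empty] at h
    rw [h] at h1; simp at h1; omega
  have hb := (PA.dev_ax hne).bound g hg (by rw [PA.card_Pr]; simpa using h1)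
  apply analytic g _ (by omega) _ P.one_lt
  refine hb.trans ?_
  have hl := P.one_lt
  have : (0 : ℝ) ≤ P.lam ^ (32 * g) - 1 := sub_nonneg.mpr (one_le_pow₀ hl.le)
  show (P.lam ^ (32 * g) - 1) * P.lam ^ (3 * Fintype.card P.Pr) ≤ _
  apply mul_le_mul_of_nonneg_left _ this
  apply pow_le_pow_right₀ hl.le
  rw [PA.card_Pr]; omega

end Pool.Agent.Work.MP_563a32_gt
end

-- merged part: Pool.Agent.Work.MP_563a32_gt.U0
section
/-! Flat structures with cone points, without a map. -/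

namespace Pool.Agent.Work.MP_563a32_gt
open Filter Topology

structure Flat (S : Type) [TopologicalSpace S] where
  sing : Finset S
  ι : Type
  chart : ι → OpenPartialHomeomorph S ℂ
  cover : ∀ y, y ∉ sing → ∃ i, y ∈ (chart i).source
  reg : ∀ i, ∀ y ∈ (chart i).source, y ∉ sing
  trans : ∀ i j, ∀ y ∈ (chart i).source, y ∈ (chart j).source →
    ∃ ε c : ℂ, (ε = 1 ∨ ε = -1) ∧ ∀ᶠ z in 𝓝 y, chart j z = ε * chart i z + c
  prongs : S → ℕ
  cone : S → OpenPartialHomeomorph S ℂ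
  cone_mem : ∀ x ∈ sing, x ∈ (cone x).source
  cone_zero : ∀ x ∈ sing, cone x x = 0
  prongs_pos : ∀ x ∈ sing, 1 ≤ prongs x
  cone_eq : ∀ x ∈ sing, ∀ i, ∀ y ∈ (cone x).source, y ∈ (chart i).source →
    ∃ c : ℂ, ∀ᶠ z in 𝓝 y, (chart i z - c) ^ 2 = cone x z ^ prongs x

namespace Flat
variable {S : Type} [TopologicalSpace S] (Φ : Flat S)

def Affine (f : S → S) (lam : ℝ) : Prop :=
  ∀ i j, ∀ y ∈ (Φ.chart i).source, f y ∈ (Φ.chart j).source →
    ∃ ε c : ℂ, (ε = 1 ∨ ε = -1) ∧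
      ∀ᶠ z in 𝓝 y, Φ.chart j (f z) = ε * diag lam (Φ.chart i z) + c

def toPA (punct : Finset S) (hsub : punct ⊆ Φ.sing)
    (h3 : ∀ x ∈ Φ.sing, x ∉ punct → 3 ≤ Φ.prongs x) (f : S ≃ₜ S) (lam : ℝ) (hl : 1 < lam)
    (hs : ∀ y, f y ∈ Φ.sing ↔ y ∈ Φ.sing) (hp : ∀ y, f y ∈ punct ↔ y ∈ punct)
    (ha : Φ.Affine f lam) : PA S :=
  { Φ with
    punct := punct, punct_sub := hsub, prongs_three := h3, f := f, lam := lam, one_lt := hl,
    f_sing := hs, f_punct := hp, affine := ha }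

end Flat
end Pool.Agent.Work.MP_563a32_gt
end

-- merged part: Pool.Agent.Work.MP_563a32_gt.U1
section
/-! Affine maps keep the number of prongs; passing to a component and to a power.

Plan. `prongs_map`: use `Φ.toPA Φ.sing ...` and `PA.isIm_σ`: the permutation `σ` of the prongs maps
the fibre over `x` injectively into the fibre over `f x`, so `prongs x ≤ prongs (f x)`; the sums
over the singular set agree as `f` permutes it. `Affine.comp`: choose a chart at the intermediate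
point with `cover`; `diag a (ε diag b z + c) = ε diag (a b) z + diag a c`. `mem_spectrum`: the
surface is the subtype `C` (compact as `C` is closed, connected by `hconn`); restrict all charts
with `OpenPartialHomeomorph.subtypeRestr` (the open set `⟨C, hC.isOpen⟩`), take
`Φ.sing.subtype (· ∈ C)` and `punct.subtype (· ∈ C)`, the homeomorphism induced by the `m`-th
power of `f` (`Homeomorph.subtype`), and dilatation `lam ^ m`. -/

namespace Pool.Agent.Work.MP_563a32_gt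
open Filter Topology

namespace Flat
variable {S : Type} [TopologicalSpace S] {Φ : Flat S}

theorem prongs_map [T2Space S] [CompactSpace S] (f : S ≃ₜ S) {lam : ℝ} (hl : 1 < lam)
    (hs : ∀ y, f y ∈ Φ.sing ↔ y ∈ Φ.sing) (ha : Φ.Affine f lam) {x : S} (hx : x ∈ Φ.sing) :
    Φ.prongs (f x) = Φ.prongs x := by
  let P := Φ.toPA Φ.sing subset_rfl (fun _ h h' => absurd h h') f lam hl hs hs ha
  let e : {q : P.Pr // q.1 = ⟨x, hx⟩} ≃ {q : P.Pr // q.1 = P.fX ⟨x, hx⟩} :=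
    P.σ.subtypeEquiv fun q => by rw [(PA.isIm_σ q).1, P.fX.apply_eq_iff_eq]
  exact Fin.equiv_iff_eq.1 ⟨(Equiv.sigmaSubtype (β := fun x : P.sing => Fin (P.prongs x))
    (P.fX ⟨x, hx⟩)).symm.trans (e.symm.trans (Equiv.sigmaSubtype _))⟩

theorem Affine.comp {f g : S → S} {a b : ℝ} (hf : Φ.Affine f a) (hg : Φ.Affine g b)
    (hc : Continuous g) (hs : ∀ y, y ∉ Φ.sing → g y ∉ Φ.sing) : Φ.Affine (f ∘ g) (a * b) := by
  intro i j y hi hj
  obtain ⟨k, hk⟩ := Φ.cover (g y) (hs y (Φ.reg i y hi))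
  obtain ⟨ε, c, h1, h2⟩ := hg i k y hi hk
  obtain ⟨δ, c', h3, h4⟩ := hf k j (g y) hk hj
  have e : ∀ z, diag a (diag b z) = diag (a * b) z := fun z => by
    simp only [diag, div_div, mul_assoc, mul_comm b a]
  refine ⟨δ * ε, δ * diag a c + c', PA.A1_mul h3 h1, ?_⟩
  filter_upwards [h2, hc.continuousAt.eventually h4] with z h5 h6
  rw [Function.comp_apply, h6, h5, PA.A1_aff a h1, e]
  ring

theorem U1_pow (f : S ≃ₜ S) {lam : ℝ} (hs : ∀ y, f y ∈ Φ.sing ↔ y ∈ Φ.sing) (ha : Φ.Affine f lam)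
    (punct : Finset S) (hp : ∀ y, f y ∈ punct ↔ y ∈ punct) (m : ℕ) :
    ∃ F : S ≃ₜ S, (∀ y, F y = f^[m + 1] y) ∧ Φ.Affine F (lam ^ (m + 1)) ∧
      (∀ y, F y ∈ Φ.sing ↔ y ∈ Φ.sing) ∧ ∀ y, F y ∈ punct ↔ y ∈ punct := by
  induction m with
  | zero => exact ⟨f, fun _ => rfl, by rwa [zero_add, pow_one], hs, hp⟩
  | succ m ih =>
    obtain ⟨F, h1, h2, h3, h4⟩ := ih
    refine ⟨f.trans F, fun y => h1 (f y), ?_, fun y => (h3 _).trans (hs y),
      fun y => (h4 _).trans (hp y)⟩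
    rw [pow_succ]
    exact h2.comp ha f.continuous fun y hy => mt (hs y).1 hy

open Classical in
/-- The restriction to an open set. -/
noncomputable def U1_restr (Φ : Flat S) {U : TopologicalSpace.Opens S} (hU : Nonempty U) :
    Flat U where
  sing := Φ.sing.subtype (· ∈ U)
  ι := Φ.ι
  chart i := (Φ.chart i).subtypeRestr hU
  cover y hy := by
    simpa only [OpenPartialHomeomorph.subtypeRestr_source, Set.mem_preimage] using
      Φ.cover y (mt Finset.mem_subtype.2 hy)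
  reg i y hy := by
    rw [OpenPartialHomeomorph.subtypeRestr_source] at hy
    exact mt Finset.mem_subtype.1 (Φ.reg i y hy)
  trans i j y hi hj := by
    rw [OpenPartialHomeomorph.subtypeRestr_source] at hi hj
    obtain ⟨ε, c, h1, h2⟩ := Φ.trans i j y hi hj
    exact ⟨ε, c, h1, continuous_subtype_val.continuousAt.eventually h2⟩
  prongs x := Φ.prongs x
  cone x := (Φ.cone x).subtypeRestr hU
  cone_mem x hx := by
    rw [OpenPartialHomeomorph.subtypeRestr_source]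
    exact Φ.cone_mem x (Finset.mem_subtype.1 hx)
  cone_zero x hx := Φ.cone_zero x (Finset.mem_subtype.1 hx)
  prongs_pos x hx := Φ.prongs_pos x (Finset.mem_subtype.1 hx)
  cone_eq x hx i y h1 h2 := by
    rw [OpenPartialHomeomorph.subtypeRestr_source] at h1 h2
    obtain ⟨c, h⟩ := Φ.cone_eq x (Finset.mem_subtype.1 hx) i y h1 h2
    exact ⟨c, continuous_subtype_val.continuousAt.eventually h⟩

theorem U1_aff {U : TopologicalSpace.Opens S} (hU : Nonempty U) {F : S → S} {lam : ℝ}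
    (ha : Φ.Affine F lam) {G : U → U} (hG : ∀ y, (G y : S) = F y) :
    (Φ.U1_restr hU).Affine G lam := by
  intro i j y hi hj
  change y ∈ ((Φ.chart i).subtypeRestr hU).source at hi
  change G y ∈ ((Φ.chart j).subtypeRestr hU).source at hj
  rw [OpenPartialHomeomorph.subtypeRestr_source, Set.mem_preimage] at hi hj
  rw [hG] at hj
  obtain ⟨ε, c, h1, h2⟩ := ha i j y hi hj
  refine ⟨ε, c, h1, (continuous_subtype_val.continuousAt.eventually h2).mono fun z hz => ?_⟩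
  rw [← hG] at hz
  exact hz

open Classical in
theorem mem_spectrum [T2Space S] [CompactSpace S] (f : S ≃ₜ S) {lam : ℝ} (hl : 1 < lam)
    (hs : ∀ y, f y ∈ Φ.sing ↔ y ∈ Φ.sing) (ha : Φ.Affine f lam) {m : ℕ} (hm : 1 ≤ m)
    {C : Set S} (hC : IsClopen C) (hconn : IsConnected C) (hinv : ∀ y, f^[m] y ∈ C ↔ y ∈ C)
    (punct : Finset S) (hsub : punct ⊆ Φ.sing) (hp : ∀ y, f y ∈ punct ↔ y ∈ punct)
    (h3 : ∀ x ∈ Φ.sing, x ∉ punct → 3 ≤ Φ.prongs x) {g n : ℕ}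
    (hg : ∑ x ∈ Φ.sing.filter (· ∈ C), ((Φ.prongs x : ℤ) - 2) = 4 * (g : ℤ) - 4)
    (hn : (punct.filter (· ∈ C)).card = n) : (m : ℝ) * Real.log lam ∈ Spectrum g n := by
  obtain ⟨m, rfl⟩ := Nat.exists_eq_add_of_le' hm
  obtain ⟨F, h1, h2, h4, h5⟩ := U1_pow f hs ha punct hp m
  let U : TopologicalSpace.Opens S := ⟨C, hC.isOpen⟩
  have hU : Nonempty U := hconn.nonempty.to_subtype
  let G : U ≃ₜ U := F.subtype fun y => by
    rw [h1]
    exact (hinv y).symm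
  refine ⟨U, inferInstance, isCompact_iff_compactSpace.1 hC.isClosed.isCompact, inferInstance,
    isConnected_iff_connectedSpace.1 hconn,
    (Φ.U1_restr hU).toPA (punct.subtype (· ∈ U))
      (fun x hx => Finset.mem_subtype.2 (hsub (Finset.mem_subtype.1 hx)))
      (fun x hx hx' => h3 x (Finset.mem_subtype.1 hx) (mt Finset.mem_subtype.2 hx'))
      G (lam ^ (m + 1)) (one_lt_pow₀ hl m.succ_ne_zero)
      (fun y => Finset.mem_subtype.trans ((h4 y).trans Finset.mem_subtype.symm))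
      (fun y => Finset.mem_subtype.trans ((h5 y).trans Finset.mem_subtype.symm))
      (U1_aff hU h2 fun _ => rfl), ?_, ?_, (Real.log_pow _ _).symm⟩
  · rw [PA.HasGenus, ← hg]
    exact Finset.sum_subtype_eq_sum_filter fun x => (Φ.prongs x : ℤ) - 2
  · rw [← hn]
    exact Finset.card_subtype _ _

end Flat
end Pool.Agent.Work.MP_563a32_gt
end
end

-- merged part: Pool.Agent.Work.MP_563a32_gt.T1
section
-- merged part: Pool.Agent.Work.MP_563a32_gt.T0
section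
/-! Surfaces glued from plane triangles by translations and half turns. -/

namespace Pool.Agent.Work.MP_563a32_gt
open Filter Topology

def cross (a b : ℂ) : ℝ := a.re * b.im - a.im * b.re

/-- Twice the signed area. -/
def area (p : Fin 3 → ℂ) : ℝ := cross (p 1 - p 0) (p 2 - p 0)

/-- The closed triangle with vertices `p 0, p 1, p 2` in positive order. -/
def triS (p : Fin 3 → ℂ) : Set ℂ := {z | ∀ k, 0 ≤ cross (p (k + 1) - p k) (z - p k)}

theorem vertex_mem {p : Fin 3 → ℂ} (h : 0 < area p) (k : Fin 3) : p k ∈ triS p := by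
  intro l
  simp only [area, cross, Complex.sub_re, Complex.sub_im] at h ⊢
  fin_cases k <;> fin_cases l <;> simp <;> nlinarith

/-- A dart `(t, k)` is the side of the triangle `t` from `pos t k` to `pos t (k + 1)`; it is glued
to the dart `opp (t, k)` with the opposite direction. -/
structure FlatTri (T : Type) where
  pos : T → Fin 3 → ℂ
  opp : T × Fin 3 → T × Fin 3
  sg : T × Fin 3 → ℂ
  opp_opp : ∀ d, opp (opp d) = d
  opp_ne : ∀ d, (opp d).1 ≠ d.1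
  sg_pm : ∀ d, sg d = 1 ∨ sg d = -1
  area_pos : ∀ t, 0 < area (pos t)
  glue : ∀ d, pos (opp d).1 (opp d).2 - pos (opp d).1 ((opp d).2 + 1) =
    sg d * (pos d.1 (d.2 + 1) - pos d.1 d.2)
  nohor : ∀ t k, (pos t (k + 1) - pos t k).im ≠ 0

namespace FlatTri
variable {T : Type} (Δ : FlatTri T)

def tri (t : T) : Set ℂ := triS (Δ.pos t)

/-- Start and end of a dart. -/
def st (d : T × Fin 3) : ℂ := Δ.pos d.1 d.2
def en (d : T × Fin 3) : ℂ := Δ.pos d.1 (d.2 + 1)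

def edge (d : T × Fin 3) : Set ℂ := segment ℝ (Δ.st d) (Δ.en d)

/-- The gluing map of a dart. -/
def γ (d : T × Fin 3) (z : ℂ) : ℂ := Δ.sg d * (z - Δ.st d) + Δ.en (Δ.opp d)

def X : Type := Σ t : T, Δ.tri t

noncomputable instance : TopologicalSpace Δ.X :=
  inferInstanceAs (TopologicalSpace (Σ t : T, Δ.tri t))

def rel (p q : Δ.X) : Prop :=
  ∃ k, (p.2 : ℂ) ∈ Δ.edge (p.1, k) ∧ q.1 = (Δ.opp (p.1, k)).1 ∧ (q.2 : ℂ) = Δ.γ (p.1, k) p.2

def Surf : Type := Quot Δ.rel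

noncomputable instance : TopologicalSpace Δ.Surf :=
  inferInstanceAs (TopologicalSpace (Quot Δ.rel))

open Classical in
/-- The point `z` of the triangle `t`. -/
noncomputable def pt (t : T) (z : ℂ) : Δ.Surf :=
  if h : z ∈ Δ.tri t then Quot.mk _ ⟨t, ⟨z, h⟩⟩
  else Quot.mk _ ⟨t, ⟨Δ.pos t 0, vertex_mem (Δ.area_pos t) 0⟩⟩

noncomputable def vtx (d : T × Fin 3) : Δ.Surf := Δ.pt d.1 (Δ.st d)

/-- The next corner around the start of a dart. -/
def rotV : Equiv.Perm (T × Fin 3) where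
  toFun d := Δ.opp (d.1, d.2 + 2)
  invFun d := ((Δ.opp d).1, (Δ.opp d).2 + 1)
  left_inv d := by
    obtain ⟨t, k⟩ := d
    simp only [Δ.opp_opp]
    congr 1
    fin_cases k <;> rfl
  right_inv d := by
    have : ∀ k : Fin 3, k + 1 + 2 = k := by decide
    simp only [this, Prod.mk.eta, Δ.opp_opp]

/-- The corner at the start of `d` contains a horizontal direction. -/
def Mid (d : T × Fin 3) : Prop :=
  (Δ.pos d.1 (d.2 + 1) - Δ.pos d.1 d.2).im * (Δ.pos d.1 (d.2 + 2) - Δ.pos d.1 d.2).im < 0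

/-- On every triangle `F` is given by one of finitely many maps `± diag lam + c`. -/
def Pieces (F : Δ.Surf → Δ.Surf) (lam : ℝ) : Prop :=
  ∃ K : Set (ℂ × ℂ), K.Finite ∧ (∀ e ∈ K, e.1 = 1 ∨ e.1 = -1) ∧ ∀ t, ∀ z ∈ Δ.tri t,
    ∃ t', ∃ e ∈ K, e.1 * diag lam z + e.2 ∈ Δ.tri t' ∧
      F (Δ.pt t z) = Δ.pt t' (e.1 * diag lam z + e.2)

/-- `φ` is the chart on the union of the two open triangles along `d` and the open side. -/
def IsChart (d : T × Fin 3) (φ : OpenPartialHomeomorph Δ.Surf ℂ) : Prop :=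
  (∀ y ∈ φ.source, ∀ d', y ≠ Δ.vtx d') ∧
  (∀ z ∈ Δ.tri d.1, (∀ k, k ≠ d.2 → z ∉ Δ.edge (d.1, k)) → Δ.pt d.1 z ∈ φ.source) ∧
  ∀ t, ∀ z ∈ Δ.tri t, Δ.pt t z ∈ φ.source →
    (t = d.1 ∧ φ (Δ.pt t z) = z) ∨ (t = (Δ.opp d).1 ∧ φ (Δ.pt t z) = Δ.γ (Δ.opp d) z)

/-- An arrangement of the triangles in plane cells. -/
structure Cut (Δ : FlatTri T) (C : Type) where
  cell : T → C
  μ : ℝ
  ε : T → ℂ
  c : T → ℂ
  Inner : T × Fin 3 → Prop
  μ_pos : 0 < μ
  ε_pm : ∀ t, ε t = 1 ∨ ε t = -1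

variable {Δ} {C : Type}

noncomputable def Cut.A (K : Δ.Cut C) (t : T) (z : ℂ) : ℂ := K.ε t * diag K.μ z + K.c t

structure Cut.Ok (K : Δ.Cut C) : Prop where
  inner : ∀ d, K.Inner d → K.cell (Δ.opp d).1 = K.cell d.1 ∧
    K.A (Δ.opp d).1 (Δ.en (Δ.opp d)) = K.A d.1 (Δ.st d) ∧
    K.A (Δ.opp d).1 (Δ.st (Δ.opp d)) = K.A d.1 (Δ.en d)
  overlap : ∀ t t', t ≠ t' → K.cell t = K.cell t' → ∀ z ∈ Δ.tri t, ∀ z' ∈ Δ.tri t',
    K.A t z = K.A t' z' → ∃ k, K.Inner (t, k) ∧ (Δ.opp (t, k)).1 = t' ∧ z ∈ Δ.edge (t, k)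

/-- The cells of `K` are covered by those of `K'`, with matching outer sides. -/
structure Cut.To (K K' : Δ.Cut C) : Prop where
  cover : ∀ t, ∀ z ∈ Δ.tri t, ∃ t', K'.cell t' = K.cell t ∧ ∃ z' ∈ Δ.tri t', K'.A t' z' = K.A t z
  outer : ∀ d, ¬ K.Inner d → ∃ d', K'.cell d'.1 = K.cell d.1 ∧
    K'.A d'.1 (Δ.st d') = K.A d.1 (Δ.st d) ∧ K'.A d'.1 (Δ.en d') = K.A d.1 (Δ.en d) ∧
    K'.cell (Δ.opp d').1 = K.cell (Δ.opp d).1 ∧
    K'.A (Δ.opp d').1 (Δ.st (Δ.opp d')) = K.A (Δ.opp d).1 (Δ.st (Δ.opp d)) ∧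
    K'.A (Δ.opp d').1 (Δ.en (Δ.opp d')) = K.A (Δ.opp d).1 (Δ.en (Δ.opp d))

end FlatTri
end Pool.Agent.Work.MP_563a32_gt
end

-- merged part: Pool.Agent.Work.MP_563a32_gt.V0
section
/-! Layered veering triangulations with face weights. A tetrahedron is a convex quadrilateral with
corners `L, B, R, U = 0, 1, 2, 3`. Its top faces `(u, false) = (B, U, L)` and
`(u, true) = (U, B, R)` contain the top diagonal as side `0`; its bottom faces are
`(u, false) = (L, R, U)` and `(u, true) = (R, L, B)`. The top face `F` is glued to the bottom face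
`up F`, `w F` levels higher, with the sides shifted by `sh F`. -/

namespace Pool.Agent.Work.MP_563a32_gt
open Finset

def topV (s : Bool) : Fin 3 → Fin 4 := if s then ![3, 1, 2] else ![1, 3, 0]
def botV (s : Bool) : Fin 3 → Fin 4 := if s then ![2, 0, 1] else ![0, 2, 3]

structure Veer (U Cu : Type) where
  up : Equiv.Perm (U × Bool)
  red : U → Bool
  ed : U × Bool → Fin 3 → U
  sd : U × Bool → Fin 3 → Bool
  bt : Equiv.Perm U
  w : U × Bool → ℕ
  o : U × Bool → Fin 3 → ℕ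
  off : U → ℕ
  cusp : U → Fin 4 → Cu
  root : Cu → U × Fin 4
  pot : U → Fin 4 → ℤ
  mc : Cu → ℕ
  m : ℕ
  pot0 : U → ℤ
  u0 : U

namespace Veer
variable {U Cu : Type} (V : Veer U Cu)

def sh (F : U × Bool) : Fin 3 := if V.red F.1 then 2 else 1

/-- The colour of the tetrahedra below `u`. -/
def cb (u : U) : Bool := V.red (V.up⁻¹ (u, false)).1

/-- The next face along an edge. -/
def nx (F : U × Bool) (k : Fin 3) : (U × Bool) × Fin 3 :=
  if k + V.sh F = 1 then (((V.up F).1, !(V.up F).2), 2) else (V.up F, 1)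

/-- Flow graph for the heights: targets and exponents. -/
def ft (u : U) : Fin 3 → U :=
  ![V.bt⁻¹ u, V.ed (u, false) (if V.cb u then 2 else 1), V.ed (u, true) (if V.cb u then 2 else 1)]
def fe (u : U) : Fin 3 → ℕ :=
  ![V.off (V.bt⁻¹ u), V.o (u, false) (if V.cb u then 2 else 1),
    V.o (u, true) (if V.cb u then 2 else 1)]

/-- Flow graph for the widths. -/
def rt (u : U) : Fin 3 → U :=
  ![V.bt u, V.bt (V.ed (u, false) (if V.red u then 2 else 1)),
    V.bt (V.ed (u, true) (if V.red u then 2 else 1))]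

/-- The corners joined through the face `F` at the start of its side `k`. -/
def lo (_V : Veer U Cu) (F : U × Bool) (k : Fin 3) : U × Fin 4 := (F.1, topV F.2 k)
def hi (F : U × Bool) (k : Fin 3) : U × Fin 4 := ((V.up F).1, botV (V.up F).2 (k + V.sh F))

def disc (F : U × Bool) (k : Fin 3) : ℤ :=
  V.pot (V.lo F k).1 (V.lo F k).2 - V.pot (V.hi F k).1 (V.hi F k).2 - V.w F

def Lnk (p p' : U × Fin 4) : Prop := ∃ F k, p = V.lo F k ∧ p' = V.hi F k ∧ V.disc F k = 0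

def Lnk0 (u u' : U) : Prop := ∃ s, (V.up (u, s)).1 = u' ∧ V.pot0 u = V.pot0 u' + V.w (u, s)

/-- The number of vertices over a cusp. -/
def per (c : Cu) : ℕ := V.m * V.mc c

structure Ax : Prop where
  w_pos : ∀ F, 1 ≤ V.w F
  col_up : ∀ F, V.red F.1 = V.cb (V.up F).1
  ed_zero : ∀ F, V.ed F 0 = F.1
  sd_zero : ∀ F, V.sd F 0 = F.2
  o_zero : ∀ F, V.o F 0 = 0
  col_one : ∀ F, V.red (V.ed F 1) = true
  col_two : ∀ F, V.red (V.ed F 2) = false
  last : ∀ F k, k + V.sh F = 0 →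
    V.bt (V.ed F k) = (V.up F).1 ∧ V.o F k + V.w F = V.off (V.ed F k)
  step : ∀ F k, k + V.sh F ≠ 0 → V.ed (V.nx F k).1 (V.nx F k).2 = V.ed F k ∧
    V.sd (V.nx F k).1 (V.nx F k).2 = V.sd F k ∧ V.o (V.nx F k).1 (V.nx F k).2 = V.o F k + V.w F
  o_le : ∀ F k, V.o F k + V.w F ≤ V.off (V.ed F k)
  ft_irr : ∀ u u', Relation.ReflTransGen (fun a b => ∃ j, V.ft a j = b) u u'
  rt_irr : ∀ u u', Relation.ReflTransGen (fun a b => ∃ j, V.rt a j = b) u u'
  m_pos : 1 ≤ V.m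
  mc_pos : ∀ c, 1 ≤ V.mc c
  mc_one : ∃ c, V.mc c = 1
  cusp_root : ∀ c, V.cusp (V.root c).1 (V.root c).2 = c
  cusp_lnk : ∀ F k, V.cusp (V.lo F k).1 (V.lo F k).2 = V.cusp (V.hi F k).1 (V.hi F k).2
  disc_dvd : ∀ F k, (V.per (V.cusp (V.lo F k).1 (V.lo F k).2) : ℤ) ∣ V.disc F k
  tree : ∀ p : U × Fin 4, Relation.EqvGen V.Lnk p (V.root (V.cusp p.1 p.2))
  gen : ∀ c, (V.per c : ℤ) ∈ AddSubgroup.closure
    {z | ∃ F k, V.cusp (V.lo F k).1 (V.lo F k).2 = c ∧ z = V.disc F k}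
  pot0_dvd : ∀ F, (V.m : ℤ) ∣ V.pot0 F.1 - V.pot0 (V.up F).1 - V.w F
  tree0 : ∀ u, Relation.EqvGen V.Lnk0 u V.u0

/-- The total number of prongs over a cusp. -/
def prt [Fintype U] [DecidableEq Cu] (c : Cu) : ℕ :=
  ∑ F ∈ univ.filter (fun F : U × Bool => V.cusp F.1 (topV F.2 2) = c), V.w F

/-- Heights and widths of the top diagonals, and the dilatation. -/
structure Geo (V : Veer U Cu) where
  x : ℝ
  H : U → ℝ
  W : U → ℝ

variable {V}

noncomputable def Geo.hh (G : V.Geo) (F : U × Bool) (k : Fin 3) : ℝ :=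
  G.H (V.ed F k) / G.x ^ V.o F k

noncomputable def Geo.ww (G : V.Geo) (F : U × Bool) (k : Fin 3) : ℝ :=
  G.W (V.ed F k) * G.x ^ V.o F k

structure Geo.Ok (G : V.Geo) : Prop where
  one_lt : 1 < G.x
  H_pos : ∀ u, 0 < G.H u
  W_pos : ∀ u, 0 < G.W u
  eqH : ∀ F, G.H F.1 = G.hh F 1 + G.hh F 2
  eqW : ∀ F, if V.red F.1 then G.ww F 1 = G.W F.1 + G.ww F 2 else G.ww F 2 = G.W F.1 + G.ww F 1

/-- The top diagonal of `u`, from `B` to `U`. -/
noncomputable def Geo.dg (G : V.Geo) (u : U) : ℂ := ⟨if V.red u then G.W u else -G.W u, G.H u⟩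

/-- The corners `L, B, R, U` of the quadrilateral of `u` at level `0`. -/
noncomputable def Geo.Q (G : V.Geo) (u : U) : Fin 4 → ℂ :=
  ![G.dg u - ⟨G.ww (u, false) 1, G.hh (u, false) 1⟩, 0, ⟨G.ww (u, true) 1, G.hh (u, true) 1⟩,
    G.dg u]

/-- The triangles of the section: the face `F` at level `- 1 - n`, `n < w F`. -/
abbrev Tr (V : Veer U Cu) : Type := Σ F : U × Bool, Fin (V.w F)

noncomputable def Geo.pos (G : V.Geo) (t : V.Tr) (k : Fin 3) : ℂ :=
  diag (G.x ^ ((t.2 : ℕ) + 1))⁻¹ (G.Q t.1.1 (topV t.1.2 k))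

/-- The sign of the gluing of `F` to `up F`. -/
def eps (V : Veer U Cu) (F : U × Bool) : ℂ :=
  if (F.2 == (V.up F).2) == V.red F.1 then -1 else 1

/-- `d'` is the other dart on the edge of `d`. -/
def IsOpp (V : Veer U Cu) (d d' : V.Tr × Fin 3) : Prop :=
  V.ed d'.1.1 d'.2 = V.ed d.1.1 d.2 ∧ V.sd d'.1.1 d'.2 = !V.sd d.1.1 d.2 ∧
    V.o d'.1.1 d'.2 + d'.1.2 = V.o d.1.1 d.2 + d.1.2

/-- `Δ` is the flat triangulation of the section. -/
def Geo.IsSec (G : V.Geo) (Δ : FlatTri V.Tr) : Prop :=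
  Δ.pos = G.pos ∧ ∀ d, V.IsOpp d (Δ.opp d)

/-- The placement of the oldest copy of `F` as a bottom face of the quadrilateral above. -/
noncomputable def Geo.bot (G : V.Geo) (F : U × Bool) (z : ℂ) : ℂ :=
  V.eps F * (z - diag (G.x ^ V.w F)⁻¹ (G.Q F.1 (topV F.2 0))) + G.Q (V.hi F 0).1 (V.hi F 0).2

/-- `f` moves every triangle one level up. -/
structure Geo.IsMap (G : V.Geo) (Δ : FlatTri V.Tr) (f : Δ.Surf → Δ.Surf) : Prop where
  shift : ∀ (F : U × Bool) (n n' : Fin (V.w F)), (n : ℕ) = n' + 1 → ∀ z ∈ Δ.tri ⟨F, n⟩,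
    diag G.x z ∈ Δ.tri ⟨F, n'⟩ ∧ f (Δ.pt ⟨F, n⟩ z) = Δ.pt ⟨F, n'⟩ (diag G.x z)
  flip : ∀ (F F' : U × Bool) (n : Fin (V.w F)) (n' : Fin (V.w F')), (n : ℕ) = 0 →
    (n' : ℕ) + 1 = V.w F' → (V.up F').1 = F.1 → ∀ z ∈ Δ.tri ⟨F, n⟩, ∀ z' ∈ Δ.tri ⟨F', n'⟩,
    diag G.x z = G.bot F' z' → f (Δ.pt ⟨F, n⟩ z) = Δ.pt ⟨F', n'⟩ z'
  cover : ∀ (F : U × Bool) (n : Fin (V.w F)), (n : ℕ) = 0 → ∀ z ∈ Δ.tri ⟨F, n⟩,
    ∃ (F' : U × Bool) (n' : Fin (V.w F')), (n' : ℕ) + 1 = V.w F' ∧ (V.up F').1 = F.1 ∧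
      ∃ z' ∈ Δ.tri ⟨F', n'⟩, diag G.x z = G.bot F' z'

/-- Two corners have the same label. -/
def SameLab (V : Veer U Cu) (d d' : V.Tr × Fin 3) : Prop :=
  V.cusp d.1.1.1 (topV d.1.1.2 d.2) = V.cusp d'.1.1.1 (topV d'.1.1.2 d'.2) ∧
    (V.per (V.cusp d.1.1.1 (topV d.1.1.2 d.2)) : ℤ) ∣
      (V.pot d.1.1.1 (topV d.1.1.2 d.2) - (d.1.2 : ℕ)) -
        (V.pot d'.1.1.1 (topV d'.1.1.2 d'.2) - (d'.1.2 : ℕ))

end Veer
end Pool.Agent.Work.MP_563a32_gt
end

-- merged part: Pool.Agent.Work.MP_563a32_gt.V1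
section
/-! A Perron-Frobenius statement for a weighted graph of out-degree three, and a bound for the
eigenvalue.

Plan for `cw`. Write `A x k u = ∑ j, k (tg u j) / x ^ e u j`. The set of `(x, k)` in
`[1, 3] × stdSimplex` with `A x k ≤ k` is compact and contains `x = 3` with constant `k`; take the
least `x`. If `A x k ≤ k`, `k ≥ 0`, `k ≠ 0` then `k > 0` (a zero spreads along edges, `hirr`). So
`x > 1` (at a minimum of `k`, `A 1 k ≥ 3 min k`). If the slack `k - A x k` is not zero replace `k`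
by `k + A x k`: the slack becomes `s + A x s`, its support grows backwards along edges, so after
finitely many steps it is positive everywhere (induct on the number of zeros), and then a slightly
smaller `x` is feasible. Plan for `eig_le`: at a maximum of `k`, `1 ≤ x ^ (- s) + 2 x ^ (- T)`. Put
`y = log x`, `ρ = T / s ≥ 1`, `L = log (2 + ρ) > 1`. If `y > 3 L / T` then `s y > 1 / ρ`, so
`1 - exp (- s y) ≥ 1 / (2 ρ)`, while `2 exp (- T y) < 2 / (2 + ρ) ^ 3 < 1 / (2 ρ)`. -/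

namespace Pool.Agent.Work.MP_563a32_gt
open Finset

section

variable {U : Type} (tg : U → Fin 3 → U) (e : U → Fin 3 → ℕ)

/-- the transfer operator -/
def V1_A (y : ℝ) (k : U → ℝ) (u : U) : ℝ := ∑ j, k (tg u j) * y ^ e u j

variable {tg e}

theorem V1_nonneg {y : ℝ} (hy : 0 ≤ y) {k : U → ℝ} (hk : ∀ u, 0 ≤ k u) (u : U) :
    0 ≤ V1_A tg e y k u :=
  sum_nonneg fun j _ => mul_nonneg (hk _) (pow_nonneg hy _)

theorem V1_zero {y : ℝ} (hy : 0 < y) {k : U → ℝ} (hk : ∀ u, 0 ≤ k u) {u : U}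
    (h : V1_A tg e y k u ≤ 0) (j : Fin 3) : k (tg u j) = 0 := by
  have h0 : V1_A tg e y k u = 0 := le_antisymm h (V1_nonneg hy.le hk u)
  have := (sum_eq_zero_iff_of_nonneg fun j _ => mul_nonneg (hk _) (pow_nonneg hy.le _)).1 h0 j
    (mem_univ j)
  exact (mul_eq_zero.1 this).resolve_right (pow_pos hy _).ne'

theorem V1_spread (hirr : ∀ u u', Relation.ReflTransGen (fun a b => ∃ j, tg a j = b) u u')
    {k : U → ℝ} (h : ∀ u, k u = 0 → ∀ j, k (tg u j) = 0) {u : U} (hu : k u = 0) (u' : U) :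
    k u' = 0 := by
  induction hirr u u' with
  | refl => exact hu
  | tail _ h2 ih =>
    obtain ⟨j, rfl⟩ := h2
    exact h _ ih j

theorem V1_slack (y : ℝ) (k : U → ℝ) (u : U) :
    k u + V1_A tg e y k u - V1_A tg e y (fun w => k w + V1_A tg e y k w) u =
      k u - V1_A tg e y k u + V1_A tg e y (fun w => k w - V1_A tg e y k w) u := by
  have h1 : V1_A tg e y (fun w => k w + V1_A tg e y k w) u =
      V1_A tg e y k u + V1_A tg e y (V1_A tg e y k) u := by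
    simp only [V1_A, add_mul, sum_add_distrib]
  have h2 : V1_A tg e y (fun w => k w - V1_A tg e y k w) u =
      V1_A tg e y k u - V1_A tg e y (V1_A tg e y k) u := by
    simp only [V1_A, sub_mul, sum_sub_distrib]
  rw [h1, h2]
  ring

theorem V1_strict [Fintype U]
    (hirr : ∀ u u', Relation.ReflTransGen (fun a b => ∃ j, tg a j = b) u u') {y : ℝ} (hy : 0 < y)
    {k : U → ℝ} (hk : ∀ u, 0 ≤ k u) (h : ∀ u, V1_A tg e y k u ≤ k u)
    (h' : ∃ u, V1_A tg e y k u < k u) :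
    ∃ k' : U → ℝ, (∀ u, 0 ≤ k' u) ∧ ∀ u, V1_A tg e y k' u < k' u := by
  classical
  obtain ⟨Z, hZ, hmax⟩ := exists_max_image (univ.filter fun Z : Finset U => ∃ k : U → ℝ,
    (∀ u, 0 ≤ k u) ∧ (∀ u, V1_A tg e y k u ≤ k u) ∧ (∃ u, V1_A tg e y k u < k u) ∧
      ∀ u, u ∈ Z ↔ V1_A tg e y k u < k u) card
    ⟨univ.filter fun u => V1_A tg e y k u < k u, mem_filter.2 ⟨mem_univ _, k, hk, h, h', by simp⟩⟩
  obtain ⟨c, c1, c2, ⟨u₀, c3⟩, c4⟩ := (mem_filter.1 hZ).2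
  have s0 : ∀ u, 0 ≤ c u - V1_A tg e y c u := fun u => sub_nonneg.2 (c2 u)
  have s1 := V1_nonneg (tg := tg) (e := e) hy.le s0
  have hsub : Z ⊆ univ.filter fun u =>
      V1_A tg e y (fun w => c w + V1_A tg e y c w) u < c u + V1_A tg e y c u := by
    intro u hu
    have := (c4 u).1 hu
    refine mem_filter.2 ⟨mem_univ _, ?_⟩
    linarith [V1_slack (tg := tg) (e := e) y c u, s1 u]
  have hle := hmax _ (mem_filter.2 ⟨mem_univ (univ.filter fun u =>
      V1_A tg e y (fun w => c w + V1_A tg e y c w) u < c u + V1_A tg e y c u),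
    fun w => c w + V1_A tg e y c w, fun u => add_nonneg (c1 u) (V1_nonneg hy.le c1 u),
    fun u => by linarith [V1_slack (tg := tg) (e := e) y c u, s1 u, s0 u],
    ⟨u₀, (mem_filter.1 (hsub ((c4 u₀).2 c3))).2⟩, by simp⟩)
  have heq := eq_of_subset_of_card_le hsub hle
  refine ⟨c, c1, fun u => ?_⟩
  by_contra hu
  have h0 : c u - V1_A tg e y c u = 0 := le_antisymm (by linarith [not_lt.1 hu]) (s0 u)
  have := V1_spread hirr (k := fun w => c w - V1_A tg e y c w) (fun w hw => ?_) h0 u₀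
  · linarith
  · refine V1_zero (e := e) hy s0 ?_
    by_contra h1
    have h2 : w ∈ Z := by
      rw [heq]
      refine mem_filter.2 ⟨mem_univ _, ?_⟩
      linarith [V1_slack (tg := tg) (e := e) y c w, not_le.1 h1]
    have := (c4 w).1 h2
    linarith

theorem V1_max [Fintype U] [Nonempty U] (he : ∀ u j, 1 ≤ e u j) :
    ∃ (y : ℝ) (k : U → ℝ), 0 < y ∧ y ≤ 1 ∧ (∀ u, 0 ≤ k u) ∧ (∃ u, k u ≠ 0) ∧
      (∀ u, V1_A tg e y k u ≤ k u) ∧ ∀ (y' : ℝ) (k' : U → ℝ), 0 ≤ y' → y' ≤ 1 → (∀ u, 0 < k' u) →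
        (∀ u, V1_A tg e y' k' u ≤ k' u) → y' ≤ y := by
  let F : Set (ℝ × (U → ℝ)) :=
    (Set.Icc 0 1 ×ˢ stdSimplex ℝ U) ∩ ⋂ u, {p | V1_A tg e p.1 p.2 u ≤ p.2 u}
  have hc : IsCompact F := by
    refine (isCompact_Icc.prod (isCompact_stdSimplex ℝ U)).inter_right
      (isClosed_iInter fun u => isClosed_le ?_ (by fun_prop))
    unfold V1_A
    fun_prop
  have key : ∀ (y' : ℝ) (k' : U → ℝ), 0 ≤ y' → y' ≤ 1 → (∀ u, 0 < k' u) →
      (∀ u, V1_A tg e y' k' u ≤ k' u) → (y', fun u => k' u / ∑ w, k' w) ∈ F := by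
    intro y' k' h1 h2 h3 h4
    have hs : 0 < ∑ w, k' w := sum_pos (fun w _ => h3 w) univ_nonempty
    refine ⟨⟨⟨h1, h2⟩, fun u => div_nonneg (h3 u).le hs.le, ?_⟩, Set.mem_iInter.2 fun u => ?_⟩
    · rw [← sum_div, div_self hs.ne']
    · have : V1_A tg e y' (fun u => k' u / ∑ w, k' w) u = V1_A tg e y' k' u / ∑ w, k' w := by
        simp only [V1_A, sum_div, div_mul_eq_mul_div]
      show V1_A tg e y' (fun u => k' u / ∑ w, k' w) u ≤ k' u / ∑ w, k' w
      rw [this]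
      exact div_le_div_of_nonneg_right (h4 u) hs.le
  have h3 := key (1 / 3) (fun _ => 1) (by norm_num) (by norm_num) (fun _ => one_pos) fun u => by
    have : ∀ j, (1 : ℝ) * (1 / 3) ^ e u j ≤ 1 / 3 := fun j => by
      rw [one_mul]
      exact pow_le_of_le_one (by norm_num) (by norm_num) (Nat.one_le_iff_ne_zero.1 (he u j))
    have h1 := this 0
    have h2 := this 1
    have h3 := this 2
    rw [V1_A, Fin.sum_univ_three]
    linarith
  obtain ⟨p, hp, hmax⟩ := hc.exists_isMaxOn ⟨_, h3⟩ continuous_fst.continuousOn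
  refine ⟨p.1, p.2, lt_of_lt_of_le (by norm_num) (hmax h3), hp.1.1.2, hp.1.2.1, ?_,
    fun u => Set.mem_iInter.1 hp.2 u, fun y' k' h1 h2 h4 h5 => hmax (key y' k' h1 h2 h4 h5)⟩
  by_contra h0
  push Not at h0
  have := hp.1.2.2
  simp [h0] at this

end

theorem V1_num {a b ρ : ℝ} (hρ : 1 ≤ ρ) (hb : b = ρ * a) (ha : 0 < a)
    (h : 1 ≤ Real.exp (-a) + 2 * Real.exp (-b)) : b ≤ 3 * Real.log (2 + ρ) := by
  by_contra h0
  have h1 := not_le.1 h0
  have hL : 1 < Real.log (2 + ρ) := by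
    rw [Real.lt_log_iff_exp_lt (by linarith)]
    linarith [Real.exp_one_lt_d9]
  have h2 : Real.exp (-b) < ((2 + ρ) ^ 3)⁻¹ := by
    have e : (2 + ρ) ^ 3 = Real.exp (3 * Real.log (2 + ρ)) := by
      rw [show (3 : ℝ) * Real.log (2 + ρ) = (3 : ℕ) * Real.log (2 + ρ) by norm_num,
        Real.exp_nat_mul, Real.exp_log (by linarith)]
    rw [e, ← Real.exp_neg]
    exact Real.exp_lt_exp.2 (by linarith)
  have h3 : Real.exp (-a) ≤ (a + 1)⁻¹ := by
    rw [Real.exp_neg]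
    exact inv_anti₀ (by linarith) (Real.add_one_le_exp a)
  have h4 : (a + 1)⁻¹ ≤ ρ / (ρ + 1) := by
    rw [inv_eq_one_div, div_le_div_iff₀ (by linarith) (by linarith)]
    linarith
  have h5 : 2 * ((2 + ρ) ^ 3)⁻¹ ≤ 1 / (ρ + 1) := by
    rw [← div_eq_mul_inv, div_le_div_iff₀ (by positivity) (by linarith)]
    nlinarith [sq_nonneg ρ, pow_nonneg (show 0 ≤ ρ by linarith) 3]
  have h6 : ρ / (ρ + 1) + 1 / (ρ + 1) = 1 := by
    rw [← add_div, div_self (by linarith)]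
  linarith

theorem cw {U : Type} [Fintype U] [Nonempty U] (tg : U → Fin 3 → U) (e : U → Fin 3 → ℕ)
    (he : ∀ u j, 1 ≤ e u j)
    (hirr : ∀ u u', Relation.ReflTransGen (fun a b => ∃ j, tg a j = b) u u') :
    ∃ (x : ℝ) (k : U → ℝ), 1 < x ∧ (∀ u, 0 < k u) ∧ ∀ u, k u = ∑ j, k (tg u j) / x ^ e u j := by
  obtain ⟨y, k, h0, h1, h2, ⟨u₀, h3⟩, h4, h5⟩ := V1_max (tg := tg) he
  have hk : ∀ u, 0 < k u := fun u => (h2 u).lt_of_ne fun h =>
    h3 (V1_spread hirr (fun w hw => V1_zero (e := e) h0 h2 (hw ▸ h4 w)) h.symm u₀)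
  have hy : y < 1 := by
    refine h1.lt_of_ne fun h => ?_
    obtain ⟨u, hu⟩ := Finite.exists_min k
    have := h4 u
    rw [V1_A, Fin.sum_univ_three, h] at this
    simp only [one_pow, mul_one] at this
    linarith [hu (tg u 0), hu (tg u 1), hu (tg u 2), hk u]
  refine ⟨y⁻¹, k, (one_lt_inv₀ h0).2 hy, hk, fun u => ?_⟩
  simp only [div_eq_mul_inv, inv_pow, inv_inv]
  refine ((h4 u).eq_of_not_lt fun hu => ?_).symm
  obtain ⟨c, c1, c2⟩ := V1_strict hirr h0 h2 h4 ⟨u, hu⟩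
  have e1 : ∀ᶠ z in nhds y, ∀ w, V1_A tg e z c w < c w := by
    refine Filter.eventually_all.2 fun w => ?_
    have : Continuous fun z => V1_A tg e z c w := by
      unfold V1_A
      fun_prop
    exact this.continuousAt.eventually_lt continuousAt_const (c2 w)
  obtain ⟨z, ⟨z1, z2⟩, z3⟩ := (((e1.and (eventually_lt_nhds hy)).filter_mono
    (nhdsWithin_le_nhds (s := Set.Ioi y))).and self_mem_nhdsWithin).exists
  have z4 : y < z := z3
  have := h5 z c (by linarith) z2.le (fun w => (V1_nonneg h0.le c1 w).trans_lt (c2 w))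
    fun w => (z1 w).le
  linarith

theorem eig_le {U : Type} [Fintype U] [Nonempty U] (tg : U → Fin 3 → U) (e : U → Fin 3 → ℕ)
    {x : ℝ} {k : U → ℝ} (hx : 1 < x) (hk : ∀ u, 0 < k u)
    (h : ∀ u, k u = ∑ j, k (tg u j) / x ^ e u j) {s T : ℕ} (hs : 1 ≤ s) (hT : s ≤ T)
    (hsT : ∀ u, ∃ j₀, s ≤ e u j₀ ∧ ∀ j, j ≠ j₀ → T ≤ e u j) :
    Real.log x ≤ 3 * (Real.log (2 + T / s) / T) := by
  obtain ⟨u, hu⟩ := Finite.exists_max k
  obtain ⟨j₀, h1, h2⟩ := hsT u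
  have hx0 : 0 < x := by linarith
  have b1 : ∀ j n, n ≤ e u j → k (tg u j) / x ^ e u j ≤ k u / x ^ n := fun j n hn =>
    div_le_div₀ (hk u).le (hu _) (pow_pos hx0 _) (pow_le_pow_right₀ hx.le hn)
  have b2 : ∑ j ∈ univ.erase j₀, k (tg u j) / x ^ e u j ≤ 2 * (k u / x ^ T) := by
    have := sum_le_card_nsmul (univ.erase j₀) (fun j => k (tg u j) / x ^ e u j) (k u / x ^ T)
      fun j hj => b1 j T (h2 j (ne_of_mem_erase hj))
    rw [card_erase_of_mem (mem_univ _), card_univ, Fintype.card_fin, nsmul_eq_mul] at this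
    simpa using this
  have b3 : k u ≤ k u / x ^ s + 2 * (k u / x ^ T) := by
    have := h u
    rw [← add_sum_erase _ _ (mem_univ j₀)] at this
    linarith [b1 j₀ s h1]
  have e : ∀ n : ℕ, Real.exp (-(n * Real.log x)) = (x ^ n)⁻¹ := fun n => by
    rw [Real.exp_neg, Real.exp_nat_mul, Real.exp_log hx0]
  have hs0 : (0 : ℝ) < s := by exact_mod_cast hs
  have hT0 : (s : ℝ) ≤ T := by exact_mod_cast hT
  have := V1_num (a := s * Real.log x) (b := T * Real.log x) (ρ := T / s)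
    ((one_le_div hs0).2 hT0) (by field_simp) (mul_pos hs0 (Real.log_pos hx)) (by
      rw [e, e]
      refine le_of_mul_le_mul_left ?_ (hk u)
      rw [div_eq_mul_inv, div_eq_mul_inv] at b3
      linarith)
  rw [← mul_div_assoc, le_div_iff₀ (by linarith)]
  linarith

end Pool.Agent.Work.MP_563a32_gt
end

-- merged part: Pool.Agent.Work.MP_563a32_gt.T1
section
/-! Plane triangles and convex quadrilaterals.

Plan. The barycentric coordinate `bar p k z` is `cross (p (k + 2) - p (k + 1)) (z - p (k + 1))`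
divided by the area; everything reduces to polynomial identities in real and imaginary parts. For
`quad`, write `z` in barycentric coordinates of `B, U, L`; the two numbers `cross (R - L) (z - L)`
and `cross (L - R) (z - R)` are opposite, so one is nonnegative, and the other two inequalities of
the corresponding triangle hold on the three vertices, so on the triangle. -/

namespace Pool.Agent.Work.MP_563a32_gt

noncomputable def bar (p : Fin 3 → ℂ) (k : Fin 3) (z : ℂ) : ℝ :=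
  cross (p (k + 2) - p (k + 1)) (z - p (k + 1)) / area p

theorem T1_all {q : Fin 3 → Prop} : (∀ k, q k) ↔ q 0 ∧ q 1 ∧ q 2 := Fin.forall_fin_succ.trans
  (and_congr_right fun _ => Fin.forall_fin_two)

theorem T1_bar0 (p : Fin 3 → ℂ) (z : ℂ) : bar p 0 z = cross (p 2 - p 1) (z - p 1) / area p := rfl

theorem T1_bar1 (p : Fin 3 → ℂ) (z : ℂ) : bar p 1 z = cross (p 0 - p 2) (z - p 2) / area p := rfl

theorem T1_bar2 (p : Fin 3 → ℂ) (z : ℂ) : bar p 2 z = cross (p 1 - p 0) (z - p 0) / area p := rfl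

theorem T1_mem (p : Fin 3 → ℂ) (z : ℂ) : z ∈ triS p ↔ 0 ≤ cross (p 1 - p 0) (z - p 0) ∧
    0 ≤ cross (p 2 - p 1) (z - p 1) ∧ 0 ≤ cross (p 0 - p 2) (z - p 2) := T1_all

theorem T1_mem3 (a b c z : ℂ) : z ∈ triS ![a, b, c] ↔ 0 ≤ cross (b - a) (z - a) ∧
    0 ≤ cross (c - b) (z - b) ∧ 0 ≤ cross (a - c) (z - c) := T1_all

theorem T1_area3 (a b c : ℂ) : area ![a, b, c] = cross (b - a) (c - a) := rfl

theorem continuous_bar (p : Fin 3 → ℂ) (k : Fin 3) : Continuous (bar p k) := by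
  unfold bar cross
  fun_prop

theorem sum_bar {p : Fin 3 → ℂ} (h : 0 < area p) (z : ℂ) : ∑ k, bar p k z = 1 := by
  rw [Fin.sum_univ_three, T1_bar0, T1_bar1, T1_bar2, ← add_div, ← add_div, div_eq_one_iff_eq h.ne']
  simp only [area, cross, Complex.sub_re, Complex.sub_im]
  ring

theorem eq_sum_bar {p : Fin 3 → ℂ} (h : 0 < area p) (z : ℂ) : z = ∑ k, bar p k z • p k := by
  rw [Fin.sum_univ_three, T1_bar0, T1_bar1, T1_bar2]
  have h' := h.ne'
  apply Complex.ext <;>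
    simp only [Complex.add_re, Complex.add_im, Complex.smul_re, Complex.smul_im, smul_eq_mul] <;>
    field_simp <;> simp only [area, cross, Complex.sub_re, Complex.sub_im] <;> ring

theorem bar_sum {p : Fin 3 → ℂ} (h : 0 < area p) {b : Fin 3 → ℝ} (hb : ∑ k, b k = 1)
    (k : Fin 3) : bar p k (∑ l, b l • p l) = b k := by
  rw [Fin.sum_univ_three] at hb ⊢
  have e : b 0 = 1 - b 1 - b 2 := by linarith
  revert k
  rw [T1_all, T1_bar0, T1_bar1, T1_bar2, div_eq_iff h.ne', div_eq_iff h.ne', div_eq_iff h.ne', e]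
  simp only [area, cross, Complex.sub_re, Complex.sub_im, Complex.add_re, Complex.add_im,
    Complex.smul_re, Complex.smul_im, smul_eq_mul]
  refine ⟨?_, ?_, ?_⟩ <;> ring

theorem mem_triS {p : Fin 3 → ℂ} (h : 0 < area p) (z : ℂ) :
    z ∈ triS p ↔ ∀ k, 0 ≤ bar p k z := by
  rw [T1_mem, T1_all, T1_bar0, T1_bar1, T1_bar2, le_div_iff₀ h, le_div_iff₀ h, le_div_iff₀ h,
    zero_mul]
  tauto

theorem convex_triS (p : Fin 3 → ℂ) : Convex ℝ (triS p) := by
  intro x hx y hy a b ha hb hab k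
  have e : cross (p (k + 1) - p k) (a • x + b • y - p k) =
      a * cross (p (k + 1) - p k) (x - p k) + b * cross (p (k + 1) - p k) (y - p k) := by
    obtain rfl : b = 1 - a := by linarith
    simp only [cross, Complex.sub_re, Complex.sub_im, Complex.add_re, Complex.add_im,
      Complex.smul_re, Complex.smul_im, smul_eq_mul]
    ring
  rw [e]
  exact add_nonneg (mul_nonneg ha (hx k)) (mul_nonneg hb (hy k))

theorem isCompact_triS {p : Fin 3 → ℂ} (h : 0 < area p) : IsCompact (triS p) := by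
  have e : triS p = (fun b : Fin 3 → ℝ => ∑ k, b k • p k) '' stdSimplex ℝ (Fin 3) := by
    ext z
    rw [mem_triS h]
    constructor
    · exact fun hz => ⟨fun k => bar p k z, ⟨hz, sum_bar h z⟩, (eq_sum_bar h z).symm⟩
    · rintro ⟨b, hb, rfl⟩ k
      rw [bar_sum h hb.2]
      exact hb.1 k
  rw [e]
  exact (isCompact_stdSimplex ℝ (Fin 3)).image (by fun_prop)

theorem T1_sum {M : Type} [AddCommMonoid M] (f : Fin 3 → M) (k : Fin 3) :
    ∑ l, f l = f k + f (k + 1) + f (k + 2) := by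
  rw [← Equiv.sum_comp (Equiv.addLeft k), Fin.sum_univ_three]
  simp

theorem mem_side {p : Fin 3 → ℂ} (h : 0 < area p) (k : Fin 3) (z : ℂ) :
    z ∈ segment ℝ (p k) (p (k + 1)) ↔ z ∈ triS p ∧ bar p (k + 2) z = 0 := by
  constructor
  · intro hz
    refine ⟨(convex_triS p).segment_subset (vertex_mem h k) (vertex_mem h (k + 1)) hz, ?_⟩
    obtain ⟨a, b, -, -, hab, rfl⟩ := hz
    obtain rfl : b = 1 - a := by linarith
    have e1 : ∀ k : Fin 3, k + 2 + 2 = k + 1 := by decide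
    have e2 : ∀ k : Fin 3, k + 2 + 1 = k := by decide
    rw [bar, e1, e2, div_eq_zero_iff]
    left
    simp only [cross, Complex.sub_re, Complex.sub_im, Complex.add_re, Complex.add_im,
      Complex.smul_re, Complex.smul_im, smul_eq_mul]
    ring
  · rintro ⟨h1, h2⟩
    have h3 := sum_bar h z
    have h4 := eq_sum_bar h z
    rw [T1_sum _ k, h2] at h3 h4
    rw [zero_smul, add_zero] at h4
    exact ⟨_, _, (mem_triS h z).1 h1 k, (mem_triS h z).1 h1 (k + 1), by linarith, h4.symm⟩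

theorem area_shift (p : Fin 3 → ℂ) (s : Fin 3) : area (fun k => p (k + s)) = area p := by
  revert s
  rw [T1_all]
  refine ⟨rfl, ?_, ?_⟩
  · change cross (p 2 - p 1) (p 0 - p 1) = _
    simp only [area, cross, Complex.sub_re, Complex.sub_im]
    ring
  · change cross (p 0 - p 2) (p 1 - p 2) = _
    simp only [area, cross, Complex.sub_re, Complex.sub_im]
    ring

theorem triS_shift (p : Fin 3 → ℂ) (s : Fin 3) : triS (fun k => p (k + s)) = triS p := by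
  ext z
  refine ⟨fun h k => ?_, fun h k => ?_⟩
  · have := h (k - s)
    dsimp only at this
    rwa [add_right_comm, sub_add_cancel] at this
  · have := h (k + s)
    rwa [add_right_comm] at this

theorem T1_cross {ε c : ℂ} {μ : ℝ} (hε : ε = 1 ∨ ε = -1) (hμ : 0 < μ) (a b a' b' : ℂ) :
    cross (ε * diag μ a + c - (ε * diag μ b + c)) (ε * diag μ a' + c - (ε * diag μ b' + c)) =
      cross (a - b) (a' - b') := by
  have := hμ.ne'
  rcases hε with rfl | rfl <;> simp [cross, diag] <;> field_simp <;> ring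

theorem area_aff {ε c : ℂ} {μ : ℝ} (hε : ε = 1 ∨ ε = -1) (hμ : 0 < μ) (p : Fin 3 → ℂ) :
    area (fun k => ε * diag μ (p k) + c) = area p := by
  exact T1_cross hε hμ _ _ _ _

theorem mem_triS_aff {ε c : ℂ} {μ : ℝ} (hε : ε = 1 ∨ ε = -1) (hμ : 0 < μ) (p : Fin 3 → ℂ)
    (z : ℂ) : ε * diag μ z + c ∈ triS (fun k => ε * diag μ (p k) + c) ↔ z ∈ triS p := by
  exact forall_congr' fun k => by rw [T1_cross hε hμ]

theorem aff_surj {ε : ℂ} (c : ℂ) {μ : ℝ} (hε : ε = 1 ∨ ε = -1) (hμ : 0 < μ) :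
    Function.Bijective fun z => ε * diag μ z + c := by
  have := hμ.ne'
  refine Function.bijective_iff_has_inverse.2 ⟨fun w => diag μ⁻¹ (ε * (w - c)), fun z => ?_,
    fun z => ?_⟩ <;> rcases hε with rfl | rfl <;> apply Complex.ext <;> simp [diag, this]

theorem aff_lineMap (ε c : ℂ) (μ θ : ℝ) (a b : ℂ) :
    ε * diag μ (a + θ • (b - a)) + c =
      (ε * diag μ a + c) + θ • ((ε * diag μ b + c) - (ε * diag μ a + c)) := by
  have : diag μ (a + θ • (b - a)) = diag μ a + θ • (diag μ b - diag μ a) := by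
    apply Complex.ext <;> simp [diag] <;> ring
  rw [this, Complex.real_smul, Complex.real_smul]
  ring

theorem diag_one (z : ℂ) : diag 1 z = z := by
  apply Complex.ext <;> simp [diag]

theorem diag_mul (a b : ℝ) (z : ℂ) : diag a (diag b z) = diag (a * b) z := by
  apply Complex.ext <;> simp [diag] <;> ring

theorem diag_sub (a : ℝ) (z w : ℂ) : diag a (z - w) = diag a z - diag a w := by
  apply Complex.ext <;> simp [diag] <;> ring

/-- Two triangles on the two sides of a common side meet in that side. -/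
theorem overlap {B U L R z : ℂ} (h : 0 < area ![B, U, L]) (hz : z ∈ triS ![B, U, L])
    (hz' : z ∈ triS ![U, B, R]) : z ∈ segment ℝ B U := by
  refine (mem_side h 0 z).2 ⟨hz, ?_⟩
  have h1 := ((T1_mem3 _ _ _ _).1 hz).1
  have h2 := ((T1_mem3 _ _ _ _).1 hz').1
  change cross (U - B) (z - B) / _ = 0
  rw [div_eq_zero_iff]
  left
  simp only [cross, Complex.sub_re, Complex.sub_im] at h1 h2 ⊢
  linarith

/-- In a convex quadrilateral a triangle on one diagonal is covered by the two on the other. -/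
theorem quad {B U L R z : ℂ} (h₁ : 0 < area ![B, U, L]) (h₂ : 0 < area ![U, B, R])
    (h₃ : 0 < area ![L, R, U]) (h₄ : 0 < area ![R, L, B]) (hz : z ∈ triS ![B, U, L]) :
    z ∈ triS ![L, R, U] ∨ z ∈ triS ![R, L, B] := by
  obtain ⟨a1, a2, a3⟩ := (T1_mem3 _ _ _ _).1 hz
  rw [T1_area3] at h₁ h₂ h₃ h₄
  have k1 : 0 ≤ cross (U - R) (z - R) := by
    refine nonneg_of_mul_nonneg_right (a := cross (U - B) (L - B)) ?_ h₁
    refine (add_nonneg (mul_nonneg a2 h₂.le) (mul_nonneg a1 h₃.le)).trans_eq ?_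
    simp only [cross, Complex.sub_re, Complex.sub_im]
    ring
  have k2 : 0 ≤ cross (R - B) (z - B) := by
    refine nonneg_of_mul_nonneg_right (a := cross (U - B) (L - B)) ?_ h₁
    refine (add_nonneg (mul_nonneg a3 h₂.le) (mul_nonneg a1 h₄.le)).trans_eq ?_
    simp only [cross, Complex.sub_re, Complex.sub_im]
    ring
  rw [T1_mem3, T1_mem3]
  rcases le_total 0 (cross (R - L) (z - L)) with h | h
  · exact Or.inl ⟨h, k1, a2⟩
  · refine Or.inr ⟨?_, a3, k2⟩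
    simp only [cross, Complex.sub_re, Complex.sub_im] at h ⊢
    linarith

end Pool.Agent.Work.MP_563a32_gt
end
end

-- merged part: Pool.Agent.Work.MP_563a32_gt.T2
section
/-! The glued surface: universal property, Hausdorff property and the gluing relation.

Plan. `lift`: `Quot.lift` and `continuous_sigma`. For `sep` use continuous functions obtained from
`lift`, with `b k = bar (pos t) k z`: for a triangle `t₀` and `k`, the function `b 0 b 1 b 2 b k` on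
`t₀` and `0` elsewhere; for a dart `d = (t₀, k)` with `opp d = (t₁, l)`, the function
`b k ^ 2 * b (k + 1)` on `t₀`, `b (l + 1) ^ 2 * b l` on `t₁` and `0` elsewhere; for a corner `d₀`,
the sum of the `b k` over the `k` with `rotV.SameCycle d₀ (t, k)`. They agree along every side
(`γ d` exchanges the two nonzero coordinates; `rotV ((opp d).1, (opp d).2 + 1) = d`). If all these
functions agree at two points then the points are related as in `pt_eq`: they are interior (some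
function of the first kind is positive), or on an open side, or vertices. Related points are equal
in the quotient, so the functions separate points and the surface is Hausdorff. -/

namespace Pool.Agent.Work.MP_563a32_gt
namespace FlatTri
open Filter Topology

variable {T : Type} (Δ : FlatTri T)

theorem γ_st (d : T × Fin 3) : Δ.γ d (Δ.st d) = Δ.en (Δ.opp d) := by
  rw [γ, sub_self, mul_zero, zero_add]

theorem γ_en (d : T × Fin 3) : Δ.γ d (Δ.en d) = Δ.st (Δ.opp d) := by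
  have := Δ.glue d
  unfold γ st en
  linear_combination -this

theorem γ_line (d : T × Fin 3) (θ : ℝ) : Δ.γ d (Δ.st d + θ • (Δ.en d - Δ.st d)) =
    Δ.en (Δ.opp d) + θ • (Δ.st (Δ.opp d) - Δ.en (Δ.opp d)) := by
  have := Δ.glue d
  unfold γ st en
  simp only [Complex.real_smul]
  linear_combination (-θ : ℂ) * this

theorem T2_sq (d : T × Fin 3) : Δ.sg d * Δ.sg d = 1 := by
  rcases Δ.sg_pm d with h | h <;> rw [h] <;> ring

theorem sg_opp (d : T × Fin 3) : Δ.sg (Δ.opp d) = Δ.sg d := by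
  have h1 := Δ.glue d
  have h2 := Δ.glue (Δ.opp d)
  have h3 : Δ.pos d.1 (d.2 + 1) - Δ.pos d.1 d.2 ≠ 0 := fun e => Δ.nohor d.1 d.2 (by rw [e]; rfl)
  rw [Δ.opp_opp] at h2
  refine mul_right_cancel₀ h3 ?_
  linear_combination Δ.sg d * h2 - Δ.sg d * Δ.sg (Δ.opp d) * h1 -
    Δ.sg (Δ.opp d) * (Δ.pos d.1 (d.2 + 1) - Δ.pos d.1 d.2) * Δ.T2_sq d

theorem γ_γ (d : T × Fin 3) (z : ℂ) : Δ.γ (Δ.opp d) (Δ.γ d z) = z := by
  have := Δ.glue d
  unfold γ
  rw [sg_opp, Δ.opp_opp]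
  unfold st en
  linear_combination (z - Δ.pos d.1 (d.2 + 1)) * Δ.T2_sq d - Δ.sg d * this

theorem edge_sub (d : T × Fin 3) : Δ.edge d ⊆ Δ.tri d.1 := by
  exact fun z h => ((mem_side (Δ.area_pos _) _ z).1 h).1

theorem γ_mem {d : T × Fin 3} {z : ℂ} (h : z ∈ Δ.edge d) : Δ.γ d z ∈ Δ.edge (Δ.opp d) := by
  rw [edge, segment_eq_image'] at h
  obtain ⟨θ, h, rfl⟩ := h
  rw [edge, segment_symm, segment_eq_image', γ_line]
  exact ⟨θ, h, rfl⟩

theorem T2_pt {t : T} {z : ℂ} (h : z ∈ Δ.tri t) : Δ.pt t z = Quot.mk Δ.rel ⟨t, ⟨z, h⟩⟩ :=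
  dif_pos h

theorem pt_glue {d : T × Fin 3} {z : ℂ} (h : z ∈ Δ.edge d) :
    Δ.pt d.1 z = Δ.pt (Δ.opp d).1 (Δ.γ d z) := by
  rw [Δ.T2_pt (Δ.edge_sub d h), Δ.T2_pt (Δ.edge_sub _ (Δ.γ_mem h))]
  exact Quot.sound ⟨d.2, h, rfl, rfl⟩

theorem continuousOn_pt (t : T) : ContinuousOn (Δ.pt t) (Δ.tri t) := by
  rw [continuousOn_iff_continuous_domRestrict]
  exact (continuous_quot_mk.comp (continuous_sigmaMk (σ := fun t => Δ.tri t) (i := t))).congr
    fun z => (Δ.T2_pt z.2).symm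

theorem pt_surj (y : Δ.Surf) : ∃ t, ∃ z ∈ Δ.tri t, y = Δ.pt t z := by
  obtain ⟨t, z, h⟩ := y
  exact ⟨t, z, h, (Δ.T2_pt h).symm⟩

theorem lift {Y : Type} [TopologicalSpace Y] (g : T → ℂ → Y)
    (hc : ∀ t, ContinuousOn (g t) (Δ.tri t))
    (hg : ∀ d, ∀ z ∈ Δ.edge d, g d.1 z = g (Δ.opp d).1 (Δ.γ d z)) :
    ∃ G : Δ.Surf → Y, Continuous G ∧ ∀ t, ∀ z ∈ Δ.tri t, G (Δ.pt t z) = g t z := by
  refine ⟨Quot.lift (fun p : Δ.X => g p.1 p.2) ?_, continuous_quot_lift _ (continuous_sigma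
    fun t => continuousOn_iff_continuous_domRestrict.1 (hc t)), fun t z h => by rw [Δ.T2_pt h]⟩
  rintro p ⟨t', z', h'⟩ ⟨k, h1, h2, h3⟩
  exact (hg _ _ h1).trans (congrArg₂ g h2 h3).symm

theorem isOpen_iff (W : Set Δ.Surf) :
    IsOpen W ↔ ∀ t, ∃ O : Set ℂ, IsOpen O ∧ ∀ z ∈ Δ.tri t, (Δ.pt t z ∈ W ↔ z ∈ O) := by
  refine (isQuotientMap_quot_mk.isOpen_preimage.symm.trans isOpen_sigma_iff).trans
    (forall_congr' fun t => isOpen_induced_iff.trans (exists_congr fun O => and_congr_right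
      fun _ => Set.ext_iff.trans (Subtype.forall.trans (forall₂_congr fun z h => ?_))))
  rw [Δ.T2_pt h]
  exact Iff.comm

theorem T2_add : ∀ k : Fin 3, k + 1 + 1 = k + 2 ∧ k + 2 + 1 = k := by decide

theorem vtx_rotV (d : T × Fin 3) : Δ.vtx (Δ.rotV d) = Δ.vtx d := by
  have h := Δ.pt_glue (d := (d.1, d.2 + 2)) (right_mem_segment ℝ _ _)
  rw [γ_en] at h
  exact h.symm.trans (congrArg (fun k => Δ.pt d.1 (Δ.pos d.1 k)) (T2_add d.2).2)

theorem T2_bar {p : Fin 3 → ℂ} (h : 0 < area p) (k : Fin 3) (θ : ℝ) :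
    bar p k (p k + θ • (p (k + 1) - p k)) = 1 - θ ∧
      bar p (k + 1) (p k + θ • (p (k + 1) - p k)) = θ ∧
      bar p (k + 2) (p k + θ • (p (k + 1) - p k)) = 0 := by
  simp only [bar, div_eq_iff h.ne']
  fin_cases k <;> simp [area, cross] <;> refine ⟨?_, ?_, ?_⟩ <;> ring

theorem T2_sum (g : Fin 3 → ℝ) (k : Fin 3) :
    ∑ j, g j = g k + g (k + 1) + g (k + 2) ∧ ∏ j, g j = g k * g (k + 1) * g (k + 2) := by
  fin_cases k <;> simp [Fin.sum_univ_three, Fin.prod_univ_three] <;> constructor <;> ring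

/-- the separating functions -/
noncomputable def T2_f (u v w : T × Fin 3 → ℝ) (t : T) (z : ℂ) : ℝ :=
  ∑ j, (u (t, j) * bar (Δ.pos t) j z + bar (Δ.pos t) j z * bar (Δ.pos t) (j + 1) z *
    (v (t, j) * bar (Δ.pos t) j z + v (Δ.opp (t, j)) * bar (Δ.pos t) (j + 1) z) +
    (∏ i, bar (Δ.pos t) i z) * (w (t, j) * bar (Δ.pos t) j z))

theorem T2_edge (u v w : T × Fin 3 → ℝ) (d : T × Fin 3) (θ : ℝ) :
    Δ.T2_f u v w d.1 (Δ.st d + θ • (Δ.en d - Δ.st d)) = u d * (1 - θ) + u (d.1, d.2 + 1) * θ +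
      (1 - θ) * θ * (v d * (1 - θ) + v (Δ.opp d) * θ) := by
  obtain ⟨h1, h2, h3⟩ := T2_bar (Δ.area_pos d.1) d.2 θ
  rw [T2_f, (T2_sum _ d.2).1, (T2_sum _ d.2).2, (T2_add _).1, (T2_add _).2, st, en, h1, h2, h3]
  ring

theorem T2_lift {t t' : T} {z z' : ℂ} (h : z ∈ Δ.tri t) (h' : z' ∈ Δ.tri t')
    (H : ∀ G : Δ.Surf → ℝ, Continuous G → G (Δ.pt t z) = G (Δ.pt t' z'))
    (u v w : T × Fin 3 → ℝ) (hu : ∀ d, u (Δ.rotV d) = u d) :
    Δ.T2_f u v w t z = Δ.T2_f u v w t' z' := by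
  obtain ⟨G, hG, e⟩ := Δ.lift (Δ.T2_f u v w) (fun t => Continuous.continuousOn (by
    have := continuous_bar (Δ.pos t)
    unfold T2_f
    fun_prop)) fun d z h => by
      rw [edge, segment_eq_image'] at h
      obtain ⟨θ, -, rfl⟩ := h
      have h1 : ∀ d : T × Fin 3, u (d.1, d.2 + 1) = u (Δ.opp d) := fun d => by
        rw [← hu, ← Δ.rotV.apply_symm_apply (Δ.opp d)]
        exact congrArg (fun x => u (Δ.rotV x)) (by simp only [rotV, Equiv.coe_fn_symm_mk, Δ.opp_opp])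
      rw [γ_line, show ∀ a b : ℂ, a + θ • (b - a) = b + (1 - θ) • (a - b) from fun a b => by module,
        T2_edge, T2_edge, h1, h1, Δ.opp_opp]
      ring
  rw [← e t z h, ← e t' z' h', H G hG]

theorem T2_vtx {d d' : T × Fin 3}
    (H : ∀ G : Δ.Surf → ℝ, Continuous G → G (Δ.vtx d) = G (Δ.vtx d')) : Δ.rotV.SameCycle d d' := by
  classical
  have h1 := fun u d => Δ.T2_edge u 0 0 d 0
  simp only [zero_smul, add_zero, sub_zero, mul_one, mul_zero, zero_mul] at h1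
  have h2 := Δ.T2_lift (vertex_mem (Δ.area_pos _) _) (vertex_mem (Δ.area_pos _) _) H
    (fun e => if Δ.rotV.SameCycle d e then 1 else 0) 0 0 fun e =>
      if_congr Equiv.Perm.sameCycle_apply_right rfl rfl
  replace h2 := (h1 _ d).symm.trans (h2.trans (h1 _ d'))
  rw [if_pos (Equiv.Perm.SameCycle.refl _ _)] at h2
  exact not_not.1 fun h => one_ne_zero (h2.trans (if_neg h))

theorem T2_side {t : T} {z : ℂ} (h : z ∈ Δ.tri t) (h0 : ∏ i, bar (Δ.pos t) i z = 0) :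
    ∃ k, ∃ θ ∈ Set.Icc (0 : ℝ) 1, Δ.st (t, k) + θ • (Δ.en (t, k) - Δ.st (t, k)) = z := by
  obtain ⟨i, -, hi⟩ := Finset.prod_eq_zero_iff.1 h0
  have h1 : ∀ i : Fin 3, i + 1 + 2 = i := by decide
  have := (mem_side (Δ.area_pos t) (i + 1) z).2 ⟨h, by rw [h1, hi]⟩
  rw [segment_eq_image'] at this
  exact ⟨i + 1, this⟩

theorem T2_end (d : T × Fin 3) {θ : ℝ} (h : (1 - θ) * θ = 0) :
    ∃ k, Δ.st d + θ • (Δ.en d - Δ.st d) = Δ.pos d.1 k := by
  rcases mul_eq_zero.1 h with h | rfl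
  · exact ⟨d.2 + 1, by rw [← sub_eq_zero.1 h, one_smul, add_sub_cancel, en]⟩
  · exact ⟨d.2, by rw [zero_smul, add_zero, st]⟩

theorem T2_sep {t t' : T} {z z' : ℂ} (h : z ∈ Δ.tri t) (h' : z' ∈ Δ.tri t')
    (H : ∀ G : Δ.Surf → ℝ, Continuous G → G (Δ.pt t z) = G (Δ.pt t' z')) : (t = t' ∧ z = z') ∨
      (∃ k, z ∈ Δ.edge (t, k) ∧ t' = (Δ.opp (t, k)).1 ∧ z' = Δ.γ (t, k) z) ∨
      ∃ k k', z = Δ.pos t k ∧ z' = Δ.pos t' k' ∧ Δ.rotV.SameCycle (t, k) (t', k') := by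
  classical
  have K := fun v w => Δ.T2_lift h h' H 0 v w fun _ => rfl
  have h1 : ∏ i, bar (Δ.pos t) i z = ∏ i, bar (Δ.pos t') i z' := by
    simpa [T2_f, ← Finset.mul_sum, sum_bar (Δ.area_pos _)] using K 0 1
  by_cases h0 : ∏ i, bar (Δ.pos t) i z = 0
  swap
  · have h2 : ∀ w : T × Fin 3 → ℝ, ∑ j, w (t, j) * bar (Δ.pos t) j z =
        ∑ j, w (t', j) * bar (Δ.pos t') j z' := fun w => mul_left_cancel₀ h0 (by
      simpa [T2_f, ← Finset.mul_sum, ← h1, -mul_eq_mul_left_iff] using K 0 w)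
    obtain rfl : t = t' := not_not.1 fun e => by
      simpa [sum_bar (Δ.area_pos _), Ne.symm e] using h2 fun d => if d.1 = t then 1 else 0
    refine Or.inl ⟨rfl, ?_⟩
    rw [eq_sum_bar (Δ.area_pos t) z, eq_sum_bar (Δ.area_pos t) z']
    refine Finset.sum_congr rfl fun j _ => congrArg (· • _) ?_
    simpa using h2 fun d => if d.2 = j then 1 else 0
  obtain ⟨k, θ, hθ, rfl⟩ := Δ.T2_side h h0
  obtain ⟨k', θ', -, rfl⟩ := Δ.T2_side h' (h1 ▸ h0)
  have h2 := fun v => (Δ.T2_edge 0 v 0 (t, k) θ).symm.trans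
    ((K v 0).trans (Δ.T2_edge 0 v 0 (t', k') θ'))
  simp only [Pi.zero_apply, zero_mul, zero_add] at h2
  have h3 : (1 - θ) * θ = (1 - θ') * θ' := by simpa using h2 1
  by_cases h4 : (1 - θ) * θ = 0
  · obtain ⟨j, e⟩ := Δ.T2_end (t, k) h4
    obtain ⟨j', e'⟩ := Δ.T2_end (t', k') (h3 ▸ h4)
    rw [e, e'] at H
    exact Or.inr (Or.inr ⟨j, j', e, e', Δ.T2_vtx (d := (t, j)) (d' := (t', j')) H⟩)
  have h5 := mul_left_cancel₀ h4 ((h2 fun d => if d = (t, k) then 1 else 0).trans (by rw [← h3]))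
  have h6 : Δ.opp (t, k) ≠ (t, k) := fun e => Δ.opp_ne _ (congrArg Prod.fst e)
  rw [if_pos rfl, if_neg h6] at h5
  by_cases h7 : (t', k') = (t, k)
  · cases h7
    rw [if_pos rfl, if_neg h6] at h5
    exact Or.inl ⟨rfl, by rw [show θ = θ' by linarith]⟩
  rw [if_neg h7] at h5
  by_cases h8 : Δ.opp (t', k') = (t, k)
  · rw [if_pos h8] at h5
    refine Or.inr (Or.inl ⟨k, ?_, by rw [← h8, Δ.opp_opp], ?_⟩)
    · rw [edge, segment_eq_image']
      exact ⟨θ, hθ, rfl⟩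
    · rw [γ_line, ← h8, Δ.opp_opp, show θ' = 1 - θ by linarith]
      module
  · rw [if_neg h8] at h5
    exact absurd (by rw [show θ = 1 by linarith]; ring) h4

variable [Fintype T] [DecidableEq T]

theorem compactSpace : CompactSpace Δ.Surf := by
  refine ⟨(isCompact_iUnion fun t => (isCompact_triS (Δ.area_pos t)).image_of_continuousOn
    (Δ.continuousOn_pt t)).of_isClosed_subset isClosed_univ fun y _ => ?_⟩
  obtain ⟨t, z, h, rfl⟩ := Δ.pt_surj y
  exact Set.mem_iUnion.2 ⟨t, z, h, rfl⟩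

theorem T2_cyc {d d' : T × Fin 3} (h : Δ.rotV.SameCycle d d') : Δ.vtx d = Δ.vtx d' := by
  obtain ⟨i, -, rfl⟩ := h.exists_pow_eq'
  exact (congrFun (Function.iterate_invariant (funext Δ.vtx_rotV) i) d).symm

theorem T2_rel {t t' : T} {z z' : ℂ} (H : (t = t' ∧ z = z') ∨
      (∃ k, z ∈ Δ.edge (t, k) ∧ t' = (Δ.opp (t, k)).1 ∧ z' = Δ.γ (t, k) z) ∨
      ∃ k k', z = Δ.pos t k ∧ z' = Δ.pos t' k' ∧ Δ.rotV.SameCycle (t, k) (t', k')) :
    Δ.pt t z = Δ.pt t' z' := by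
  rcases H with ⟨rfl, rfl⟩ | ⟨k, h, rfl, rfl⟩ | ⟨k, k', rfl, rfl, h⟩
  exacts [rfl, Δ.pt_glue h, Δ.T2_cyc h]

theorem t2Space : T2Space Δ.Surf := by
  refine ⟨fun x y e => ?_⟩
  obtain ⟨t, z, h, rfl⟩ := Δ.pt_surj x
  obtain ⟨t', z', h', rfl⟩ := Δ.pt_surj y
  obtain ⟨G, hG⟩ := not_forall.1 fun H => e (Δ.T2_rel (Δ.T2_sep h h' H))
  obtain ⟨h1, h2⟩ := Classical.not_imp.1 hG
  exact separated_by_continuous h1 h2

theorem pt_eq {t t' : T} {z z' : ℂ} (h : z ∈ Δ.tri t) (h' : z' ∈ Δ.tri t') :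
    Δ.pt t z = Δ.pt t' z' ↔ (t = t' ∧ z = z') ∨
      (∃ k, z ∈ Δ.edge (t, k) ∧ t' = (Δ.opp (t, k)).1 ∧ z' = Δ.γ (t, k) z) ∨
      ∃ k k', z = Δ.pos t k ∧ z' = Δ.pos t' k' ∧ Δ.rotV.SameCycle (t, k) (t', k') := by
  exact ⟨fun e => Δ.T2_sep h h' fun G _ => congrArg G e, Δ.T2_rel⟩

theorem vtx_eq (d d' : T × Fin 3) : Δ.vtx d = Δ.vtx d' ↔ Δ.rotV.SameCycle d d' := by
  exact ⟨fun e => Δ.T2_vtx fun G _ => congrArg G e, Δ.T2_cyc⟩

theorem pt_eq_vtx {t : T} {z : ℂ} (h : z ∈ Δ.tri t) (d : T × Fin 3) (e : Δ.pt t z = Δ.vtx d) :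
    ∃ k, z = Δ.pos t k := by
  obtain ⟨s, j⟩ := d
  rcases (Δ.pt_eq (vertex_mem (Δ.area_pos s) j) h).1 e.symm with
    ⟨rfl, rfl⟩ | ⟨k, h1, rfl, rfl⟩ | ⟨_, k, -, h1, -⟩
  · exact ⟨j, rfl⟩
  · have h2 : ∀ j k : Fin 3, j = k ∨ j = k + 1 ∨ j = k + 2 := by decide
    rcases h2 j k with rfl | rfl | rfl
    · exact ⟨_, Δ.γ_st _⟩
    · exact ⟨_, Δ.γ_en _⟩
    · have h3 := (T2_bar (Δ.area_pos s) (k + 2) 0).1
      rw [zero_smul, add_zero, ((mem_side (Δ.area_pos s) k _).1 h1).2] at h3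
      norm_num at h3
  · exact ⟨k, h1⟩

end FlatTri
end Pool.Agent.Work.MP_563a32_gt
end

-- merged part: Pool.Agent.Work.MP_563a32_gt.T3
section
/-! The chart along a side.

Plan. Let `d = (t, k)`, `opp d = (t', l)`, `b i z = bar (pos t) i z`,
`b' i z = bar (pos t') i (γ d z)`. Then `b' (l + 2)` is a negative multiple of `b (k + 2)` (use
`glue`), and on the line `b (k + 2) = 0` one has `b' l = b (k + 1)`, `b' (l + 1) = b k`. Let `O` be
the set of `z` with (`0 ≤ b (k + 2)`, `0 < b k`, `0 < b (k + 1)`) or (`b (k + 2) ≤ 0`, `0 < b' l`,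
`0 < b' (l + 1)`); it is open (at points of the line all four strict inequalities hold). Put
`j z = pt t z` if `0 ≤ b (k + 2) z` and `pt t' (γ d z)` otherwise. It is continuous on `O`
(`ContinuousOn.if` or a union of two relatively closed sets, `pt_glue`), injective on `O`
(`pt_eq`, `opp_ne`), and maps open subsets of `O` to open sets (`isOpen_iff`, `pt_eq`). Build the
chart from `Set.InjOn.toPartialEquiv` with `OpenPartialHomeomorph.ofContinuousOpenRestrict` and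
take its inverse. -/

namespace Pool.Agent.Work.MP_563a32_gt

theorem T3_rot {M : Type} [AddCommMonoid M] (f : Fin 3 → M) (k : Fin 3) :
    ∑ l, f l = f k + f (k + 1) + f (k + 2) := by
  fin_cases k <;> simp [Fin.sum_univ_three] <;> abel

theorem T3_line {p : Fin 3 → ℂ} (h : 0 < area p) (k : Fin 3) (θ : ℝ) :
    bar p k (p (k + 1) + θ • (p k - p (k + 1))) = θ := by
  rw [bar, div_eq_iff h.ne']
  fin_cases k <;> simp [area, cross] <;> ring

theorem T3_vertex (p : Fin 3 → ℂ) {i j : Fin 3} (h : i ≠ j) : bar p i (p j) = 0 := by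
  have : j = i + 1 ∨ j = i + 2 := by revert i j; decide
  rcases this with rfl | rfl
  · simp [bar, cross]
  · simp [bar, cross, mul_comm]

namespace FlatTri
open Filter Topology

variable {T : Type} [Fintype T] [DecidableEq T] (Δ : FlatTri T)

/-- The height over the side. -/
noncomputable def T3h (d : T × Fin 3) (z : ℂ) : ℝ := bar (Δ.pos d.1) (d.2 + 2) z

/-- The weight of the start. -/
noncomputable def T3a (d : T × Fin 3) (z : ℂ) : ℝ := bar (Δ.pos d.1) d.2 z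

/-- The weight of the end. -/
noncomputable def T3e (d : T × Fin 3) (z : ℂ) : ℝ := bar (Δ.pos d.1) (d.2 + 1) z

/-- The open triangle together with the open side. -/
def T3H (d : T × Fin 3) : Set ℂ := {z | 0 ≤ Δ.T3h d z ∧ 0 < Δ.T3a d z ∧ 0 < Δ.T3e d z}

/-- The domain of the chart. -/
def T3O (d : T × Fin 3) : Set ℂ := Δ.T3H d ∪ Δ.γ d ⁻¹' Δ.T3H (Δ.opp d)

open Classical in
/-- The inverse of the chart. -/
noncomputable def T3j (d : T × Fin 3) (z : ℂ) : Δ.Surf :=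
  if 0 ≤ Δ.T3h d z then Δ.pt d.1 z else Δ.pt (Δ.opp d).1 (Δ.γ d z)

section

omit [Fintype T] [DecidableEq T]

variable {Δ} {d : T × Fin 3} {z : ℂ}

theorem T3_h (d : T × Fin 3) (z : ℂ) : area (Δ.pos (Δ.opp d).1) * Δ.T3h (Δ.opp d) (Δ.γ d z) =
    -(area (Δ.pos d.1) * Δ.T3h d z) := by
  have e1 : ∀ k : Fin 3, k + 2 + 2 = k + 1 := by decide
  have e2 : ∀ k : Fin 3, k + 2 + 1 = k := by decide
  have hg := Δ.glue d
  rw [T3h, T3h, bar, bar, mul_div_cancel₀ _ (Δ.area_pos _).ne', mul_div_cancel₀ _ (Δ.area_pos _).ne',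
    e1, e1, e2, e2, γ, st, en, ← neg_sub (Δ.pos (Δ.opp d).1 (Δ.opp d).2), add_sub_assoc,
    ← neg_sub (Δ.pos (Δ.opp d).1 (Δ.opp d).2), hg]
  rcases Δ.sg_pm d with h | h <;> rw [h] <;> simp [cross] <;> ring

theorem T3_h_le : 0 ≤ Δ.T3h (Δ.opp d) (Δ.γ d z) ↔ Δ.T3h d z ≤ 0 := by
  rw [← mul_nonneg_iff_of_pos_left (Δ.area_pos (Δ.opp d).1), T3_h, neg_nonneg]
  exact ⟨fun h => nonpos_of_mul_nonpos_right h (Δ.area_pos _) , fun h =>
    mul_nonpos_of_nonneg_of_nonpos (Δ.area_pos _).le h⟩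

theorem T3_swap (h : Δ.T3h d z = 0) :
    Δ.T3a (Δ.opp d) (Δ.γ d z) = Δ.T3e d z ∧ Δ.T3e (Δ.opp d) (Δ.γ d z) = Δ.T3a d z := by
  have s1 := sum_bar (Δ.area_pos d.1) z
  have s2 := eq_sum_bar (Δ.area_pos d.1) z
  have s3 := sum_bar (Δ.area_pos (Δ.opp d).1) (Δ.γ d z)
  rw [T3_rot _ d.2] at s1 s2
  rw [T3_rot _ (Δ.opp d).2] at s3
  have h' : Δ.T3h (Δ.opp d) (Δ.γ d z) = 0 := by
    have := T3_h (Δ := Δ) d z
    rw [h, mul_zero, neg_zero] at this
    exact (mul_eq_zero.1 this).resolve_left (Δ.area_pos _).ne'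
  change Δ.T3a d z + Δ.T3e d z + Δ.T3h d z = 1 at s1
  change Δ.T3a _ _ + Δ.T3e _ _ + Δ.T3h _ _ = 1 at s3
  change z = Δ.T3a d z • Δ.st d + Δ.T3e d z • Δ.en d + Δ.T3h d z • _ at s2
  have e : z = Δ.st d + Δ.T3e d z • (Δ.en d - Δ.st d) := by
    rw [h, zero_smul, add_zero, show Δ.T3a d z = 1 - Δ.T3e d z by linarith] at s2
    conv_lhs => rw [s2]
    module
  have e2 : Δ.T3a (Δ.opp d) (Δ.γ d z) = Δ.T3e d z := by
    conv_lhs => rw [e, γ_line]
    exact T3_line (Δ.area_pos _) _ _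
  exact ⟨e2, by linarith⟩

theorem T3_tri (h : z ∈ Δ.T3H d) : z ∈ Δ.tri d.1 := by
  refine (mem_triS (Δ.area_pos _) z).2 fun k => ?_
  have : ∀ k l : Fin 3, k = l ∨ k = l + 1 ∨ k = l + 2 := by decide
  rcases this k d.2 with rfl | rfl | rfl
  exacts [h.2.1.le, h.2.2.le, h.1]

theorem T3_nonneg (h : z ∈ Δ.tri d.1) : 0 ≤ Δ.T3h d z := (mem_triS (Δ.area_pos _) z).1 h _

theorem T3_ne (h : z ∈ Δ.T3H d) (k : Fin 3) : z ≠ Δ.pos d.1 k := by
  rintro rfl
  by_cases hk : d.2 = k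
  · have : ∀ l : Fin 3, l + 1 ≠ l := by decide
    exact h.2.2.ne' (T3_vertex _ (hk ▸ this _))
  · exact h.2.1.ne' (T3_vertex _ hk)

theorem T3_L1 (h : z ∈ Δ.T3O d) (h0 : 0 ≤ Δ.T3h d z) : z ∈ Δ.T3H d := by
  rcases h with h | h
  · exact h
  · obtain ⟨h1, h2⟩ := T3_swap (le_antisymm (T3_h_le.1 h.1) h0)
    exact ⟨h0, h2 ▸ h.2.2, h1 ▸ h.2.1⟩

theorem T3_L2 (h : z ∈ Δ.T3O d) (h0 : Δ.T3h d z ≤ 0) : Δ.γ d z ∈ Δ.T3H (Δ.opp d) := by
  rcases h with h | h
  · obtain ⟨h1, h2⟩ := T3_swap (le_antisymm h0 h.1)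
    exact ⟨T3_h_le.2 h0, h1 ▸ h.2.2, h2 ▸ h.2.1⟩
  · exact h

theorem T3_glue (h : z ∈ Δ.T3O d) (h0 : Δ.T3h d z = 0) :
    Δ.pt d.1 z = Δ.pt (Δ.opp d).1 (Δ.γ d z) :=
  Δ.pt_glue ((mem_side (Δ.area_pos _) _ z).2 ⟨T3_tri (T3_L1 h h0.ge), h0⟩)

theorem T3_j1 (h0 : 0 ≤ Δ.T3h d z) : Δ.T3j d z = Δ.pt d.1 z := if_pos h0

theorem T3_j2 (h : z ∈ Δ.T3O d) (h0 : Δ.T3h d z ≤ 0) :
    Δ.T3j d z = Δ.pt (Δ.opp d).1 (Δ.γ d z) := by
  unfold T3j
  split_ifs with h1
  · exact T3_glue h (le_antisymm h0 h1)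
  · rfl

theorem T3_cγ (d : T × Fin 3) : Continuous (Δ.γ d) := by
  unfold γ
  fun_prop

theorem T3_open (d : T × Fin 3) : IsOpen (Δ.T3O d) := by
  have c1 : ∀ d, Continuous (Δ.T3h d) := fun d => continuous_bar _ _
  have c2 : ∀ d, Continuous (Δ.T3a d) := fun d => continuous_bar _ _
  have c3 : ∀ d, Continuous (Δ.T3e d) := fun d => continuous_bar _ _
  have c4 := T3_cγ (Δ := Δ) d
  rw [isOpen_iff_eventually]
  intro z hz
  have ev : ∀ {f : ℂ → ℝ}, Continuous f → 0 < f z → ∀ᶠ w in 𝓝 z, 0 < f w := fun hf h =>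
    hf.continuousAt.eventually (lt_mem_nhds h)
  rcases lt_trichotomy (Δ.T3h d z) 0 with h | h | h
  · have h1 := T3_L2 hz h.le
    filter_upwards [ev (c1 d).neg (neg_pos.2 h), ev ((c2 _).comp c4) h1.2.1,
      ev ((c3 _).comp c4) h1.2.2] with w a1 a2 a3
    exact Or.inr ⟨T3_h_le.2 (neg_pos.1 a1).le, a2, a3⟩
  · have h1 := T3_L1 hz h.ge
    have h2 := T3_L2 hz h.le
    filter_upwards [ev (c2 d) h1.2.1, ev (c3 d) h1.2.2, ev ((c2 _).comp c4) h2.2.1,
      ev ((c3 _).comp c4) h2.2.2] with w a1 a2 a3 a4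
    rcases le_total 0 (Δ.T3h d w) with h3 | h3
    · exact Or.inl ⟨h3, a1, a2⟩
    · exact Or.inr ⟨T3_h_le.2 h3, a3, a4⟩
  · have h1 := T3_L1 hz h.le
    filter_upwards [ev (c1 d) h, ev (c2 d) h1.2.1, ev (c3 d) h1.2.2] with w a1 a2 a3
    exact Or.inl ⟨a1.le, a2, a3⟩

theorem T3_cont (d : T × Fin 3) : ContinuousOn (Δ.T3j d) (Δ.T3O d) := by
  have c1 : Continuous (Δ.T3h d) := continuous_bar _ _
  refine ContinuousOn.if (fun z hz => T3_glue hz.1
    (frontier_le_subset_eq continuous_const c1 hz.2).symm) ?_ ?_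
  · refine (Δ.continuousOn_pt d.1).mono fun z hz => T3_tri (T3_L1 hz.1 ?_)
    exact (isClosed_le continuous_const c1).closure_subset hz.2
  · refine (Δ.continuousOn_pt (Δ.opp d).1).comp (T3_cγ d).continuousOn fun z hz =>
      T3_tri (T3_L2 hz.1 ?_)
    exact closure_minimal (fun w hw => (not_le.1 hw).le) (isClosed_le c1 continuous_const) hz.2

end

variable {Δ} in
theorem T3_pt {d : T × Fin 3} {z z' : ℂ} {t' : T} (h : z ∈ Δ.T3H d) (h' : z' ∈ Δ.tri t')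
    (e : Δ.pt d.1 z = Δ.pt t' z') :
    (t' = d.1 ∧ z' = z) ∨ (t' = (Δ.opp d).1 ∧ z' = Δ.γ d z) := by
  rcases (Δ.pt_eq (T3_tri h) h').1 e with ⟨h1, h2⟩ | ⟨k, h1, h2, h3⟩ | ⟨k, -, h1, -⟩
  · exact Or.inl ⟨h1.symm, h2.symm⟩
  · have h4 := ((mem_side (Δ.area_pos d.1) k z).1 h1).2
    have : ∀ k l : Fin 3, k + 2 = l ∨ k + 2 = l + 1 ∨ k = l := by decide
    rcases this k d.2 with h5 | h5 | h5
    · rw [h5] at h4
      exact absurd h4 h.2.1.ne'
    · rw [h5] at h4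
      exact absurd h4 h.2.2.ne'
    · subst h5
      exact Or.inr ⟨h2, h3⟩
  · exact absurd h1 (T3_ne h k)

variable {Δ} in
theorem T3_J {d : T × Fin 3} {w z : ℂ} {t : T} (h : w ∈ Δ.T3O d) (h' : z ∈ Δ.tri t) :
    Δ.T3j d w = Δ.pt t z ↔ (t = d.1 ∧ z = w) ∨ (t = (Δ.opp d).1 ∧ z = Δ.γ d w) := by
  constructor
  · intro e
    rcases le_total 0 (Δ.T3h d w) with h0 | h0
    · rw [T3_j1 h0] at e
      exact T3_pt (T3_L1 h h0) h' e
    · rw [T3_j2 h h0] at e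
      have := T3_pt (T3_L2 h h0) h' e
      rw [Δ.opp_opp, Δ.γ_γ] at this
      exact this.symm
  · rintro (⟨rfl, rfl⟩ | ⟨rfl, rfl⟩)
    · exact T3_j1 (T3_nonneg h')
    · exact T3_j2 h (T3_h_le.1 (T3_nonneg h'))

theorem T3_inj (d : T × Fin 3) : Set.InjOn (Δ.T3j d) (Δ.T3O d) := by
  intro w hw z hz e
  rcases le_total 0 (Δ.T3h d z) with h0 | h0
  · rw [T3_j1 h0, T3_J hw (T3_tri (T3_L1 hz h0))] at e
    rcases e with e | e
    · exact e.2.symm
    · exact absurd e.1.symm (Δ.opp_ne d)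
  · rw [T3_j2 hz h0, T3_J hw (T3_tri (T3_L2 hz h0))] at e
    rcases e with e | e
    · exact absurd e.1 (Δ.opp_ne d)
    · rw [← Δ.γ_γ d w, ← e.2, Δ.γ_γ]

theorem T3_image (d : T × Fin 3) {U : Set ℂ} (hU : IsOpen U) (hO : U ⊆ Δ.T3O d) :
    IsOpen (Δ.T3j d '' U) := by
  rw [Δ.isOpen_iff]
  intro t
  by_cases h1 : t = d.1
  · refine ⟨U, hU, fun z hz => ⟨fun ⟨w, hw, e⟩ => ?_, fun h => ⟨z, h, ?_⟩⟩⟩
    · rcases (T3_J (hO hw) hz).1 e with e | e
      · exact e.2 ▸ hw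
      · exact absurd (e.1.symm.trans h1) (Δ.opp_ne d)
    · exact (T3_J (hO h) hz).2 (Or.inl ⟨h1, rfl⟩)
  by_cases h2 : t = (Δ.opp d).1
  · refine ⟨Δ.γ (Δ.opp d) ⁻¹' U, hU.preimage (T3_cγ _), fun z hz =>
      ⟨fun ⟨w, hw, e⟩ => ?_, fun h => ⟨_, h, ?_⟩⟩⟩
    · rcases (T3_J (hO hw) hz).1 e with e | e
      · exact absurd e.1 h1
      · rw [Set.mem_preimage, e.2, Δ.γ_γ]
        exact hw
    · refine (T3_J (hO h) hz).2 (Or.inr ⟨h2, ?_⟩)
      have := Δ.γ_γ (Δ.opp d) z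
      rw [Δ.opp_opp] at this
      exact this.symm
  · refine ⟨∅, isOpen_empty, fun z hz => ⟨fun ⟨w, hw, e⟩ => ?_, fun h => h.elim⟩⟩
    rcases (T3_J (hO hw) hz).1 e with e | e
    · exact h1 e.1
    · exact h2 e.1

theorem exists_chart (d : T × Fin 3) : ∃ φ, Δ.IsChart d φ := by
  have ho : IsOpenMap ((Δ.T3O d).domRestrict (Δ.T3j d)) := by
    intro V hV
    have := Δ.T3_image d ((T3_open d).isOpenMap_subtype_val V hV) (Subtype.coe_image_subset _ V)
    rwa [Set.image_image] at this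
  let ψ := OpenPartialHomeomorph.ofContinuousOpenRestrict (Δ.T3_inj d).toPartialEquiv (T3_cont d) ho
    (T3_open d)
  have hs : ψ.symm.source = Δ.T3j d '' Δ.T3O d := rfl
  have hl : ∀ w ∈ Δ.T3O d, ψ.symm (Δ.T3j d w) = w := fun w hw => ψ.left_inv hw
  refine ⟨ψ.symm, ?_, fun z hz hk => ?_, fun t z hz hm => ?_⟩
  · rintro _ ⟨w, hw, rfl⟩ d' e
    have hv : Δ.st d' ∈ Δ.tri d'.1 := vertex_mem (Δ.area_pos _) _
    rcases (T3_J hw hv).1 e with ⟨e1, e2⟩ | ⟨e1, e2⟩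
    · rw [e2, e1] at hv
      exact T3_ne (T3_L1 hw (T3_nonneg hv)) d'.2 (by rw [← e2, ← e1, st])
    · rw [e2, e1] at hv
      exact T3_ne (T3_L2 hw (T3_h_le.1 (T3_nonneg hv))) d'.2 (by rw [← e2, ← e1, st])
  · have h0 := (mem_triS (Δ.area_pos _) z).1 hz
    have e1 : ∀ k : Fin 3, k + 1 ≠ k ∧ k + 2 ≠ k ∧ k + 1 + 2 = k ∧ k + 2 + 2 = k + 1 := by decide
    obtain ⟨a1, a2, a3, a4⟩ := e1 d.2
    refine ⟨z, Or.inl ⟨h0 _, (h0 _).lt_of_ne fun h => hk _ a1 ?_, (h0 _).lt_of_ne fun h => hk _ a2 ?_⟩,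
      T3_j1 (h0 _)⟩
    · exact (mem_side (Δ.area_pos _) _ z).2 ⟨hz, by rw [a3]; exact h.symm⟩
    · exact (mem_side (Δ.area_pos _) _ z).2 ⟨hz, by rw [a4]; exact h.symm⟩
  · obtain ⟨w, hw, e⟩ := hm
    rw [← e, hl w hw]
    rcases (T3_J hw hz).1 e with ⟨e1, e2⟩ | ⟨e1, e2⟩
    · exact Or.inl ⟨e1, e2.symm⟩
    · exact Or.inr ⟨e1, by rw [e2, Δ.γ_γ]⟩

end FlatTri
end Pool.Agent.Work.MP_563a32_gt
end

-- merged part: Pool.Agent.Work.MP_563a32_gt.T7
section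
-- merged part: Pool.Agent.Work.MP_563a32_gt.T8
section
/-! Cut and paste: two arrangements of the triangles in the same cells give a homeomorphism.

Plan. `cell_map`: for a cell `c` and `w` put `P c w = pt t z` for a chosen `t` in the cell and
`z ∈ tri t` with `A t z = w`. The choice does not matter: for `t ≠ t'` use `overlap`, `inner`,
`aff_lineMap`, `γ_line`, injectivity of `A t'` and `pt_glue`. On the closed set `A t '' tri t` it is
`pt t` composed with the continuous inverse of `A t`, and a cell is a finite union of such sets.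
`exists_map`: `lift` the maps `z ↦ P' (cell t) (A t z)`; along an inner dart both sides have the
same cell and the same point; along an outer dart use `outer`, `aff_lineMap`, `γ_line` and
`pt_glue` for `d'`. `cut_paste`: the two maps are inverse by `cover`. -/

namespace Pool.Agent.Work.MP_563a32_gt
namespace FlatTri
open Filter Topology

variable {T C : Type} [Fintype T] {Δ : FlatTri T}

omit [Fintype T] in
theorem T8_bij (K : Δ.Cut C) (t : T) : Function.Bijective (K.A t) :=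
  aff_surj (K.c t) (K.ε_pm t) K.μ_pos

omit [Fintype T] in
theorem T8_line (K : Δ.Cut C) (t : T) (a b : ℂ) (θ : ℝ) :
    K.A t (a + θ • (b - a)) = K.A t a + θ • (K.A t b - K.A t a) :=
  aff_lineMap _ _ _ _ _ _

omit [Fintype T] in
theorem T8_edge {d : T × Fin 3} {z : ℂ} : z ∈ Δ.edge d ↔
    ∃ θ ∈ Set.Icc (0 : ℝ) 1, Δ.st d + θ • (Δ.en d - Δ.st d) = z := by
  rw [edge, segment_eq_image']
  rfl

omit [Fintype T] in
theorem T8_inner {K : Δ.Cut C} (h : K.Ok) {d : T × Fin 3} (hd : K.Inner d) {z : ℂ}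
    (hz : z ∈ Δ.edge d) : K.A (Δ.opp d).1 (Δ.γ d z) = K.A d.1 z := by
  obtain ⟨θ, -, rfl⟩ := T8_edge.1 hz
  rw [γ_line, T8_line, T8_line, (h.inner d hd).2.1, (h.inner d hd).2.2]

omit [Fintype T] in
theorem T8_well {K : Δ.Cut C} (h : K.Ok) {t t' : T} (hc : K.cell t = K.cell t') {z z' : ℂ}
    (hz : z ∈ Δ.tri t) (hz' : z' ∈ Δ.tri t') (e : K.A t z = K.A t' z') :
    Δ.pt t z = Δ.pt t' z' := by
  by_cases ht : t = t'
  · subst ht
    rw [(T8_bij K t).1 e]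
  · obtain ⟨k, h1, rfl, h3⟩ := h.overlap t t' ht hc z hz z' hz' e
    rw [Δ.pt_glue h3, (T8_bij K _).1 ((T8_inner h h1 h3).trans e)]

omit [Fintype T] in
theorem T8_cont (K : Δ.Cut C) (t : T) : Continuous (K.A t) :=
  (continuous_const.mul (continuous_diag _)).add continuous_const

omit [Fintype T] in
theorem T8_inv (K : Δ.Cut C) (t : T) : ∃ B : ℂ → ℂ, Continuous B ∧ ∀ z, B (K.A t z) = z := by
  refine ⟨fun w => diag K.μ⁻¹ (K.ε t * (w - K.c t)), (continuous_diag _).comp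
    (continuous_const.mul (continuous_id.sub continuous_const)), fun z => ?_⟩
  have h1 : K.ε t * (K.A t z - K.c t) = diag K.μ z := by
    rw [Cut.A, add_sub_cancel_right, ← mul_assoc, PA.A1_sq (K.ε_pm t), one_mul]
  change diag K.μ⁻¹ (K.ε t * (K.A t z - K.c t)) = z
  rw [h1, diag_diag' K.μ_pos.ne']

theorem Cut.cell_map [Nonempty T] (K : Δ.Cut C) (h : K.Ok) : ∃ P : C → ℂ → Δ.Surf,
    (∀ t, ∀ z ∈ Δ.tri t, P (K.cell t) (K.A t z) = Δ.pt t z) ∧
    ∀ c, ContinuousOn (P c) {w | ∃ t, K.cell t = c ∧ ∃ z ∈ Δ.tri t, K.A t z = w} := by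
  have h1 : ∀ (c : C) (w : ℂ), ∃ y : Δ.Surf, ∀ t, ∀ z ∈ Δ.tri t, K.cell t = c → K.A t z = w →
      y = Δ.pt t z := fun c w => by
    by_cases hw : ∃ t, K.cell t = c ∧ ∃ z ∈ Δ.tri t, K.A t z = w
    · obtain ⟨t, ht, z, hz, e⟩ := hw
      exact ⟨Δ.pt t z, fun t' z' hz' ht' e' => T8_well h (ht.trans ht'.symm) hz hz'
        (e.trans e'.symm)⟩
    · exact ⟨Δ.pt (Classical.arbitrary T) 0, fun t z hz ht e => (hw ⟨t, ht, z, hz, e⟩).elim⟩
  choose P hP using h1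
  refine ⟨P, fun t z hz => hP _ _ t z hz rfl rfl, fun c => ?_⟩
  have e : {w | ∃ t, K.cell t = c ∧ ∃ z ∈ Δ.tri t, K.A t z = w} =
      ⋃ t : {t // K.cell t = c}, K.A t.1 '' Δ.tri t.1 := by
    ext w
    simp only [Set.mem_ofPred_eq, Set.mem_iUnion, Set.mem_image, Subtype.exists, exists_prop]
  rw [e]
  refine (locallyFinite_of_finite _).continuousOn_iUnion (fun t =>
    ((isCompact_triS (Δ.area_pos t.1)).image (T8_cont K t.1)).isClosed) fun t => ?_
  obtain ⟨B, hB, hB'⟩ := T8_inv K t.1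
  refine ((Δ.continuousOn_pt t.1).comp hB.continuousOn ?_).congr ?_
  · rintro _ ⟨z, hz, rfl⟩
    rwa [hB']
  · rintro _ ⟨z, hz, rfl⟩
    rw [Function.comp_apply, hB']
    exact hP _ _ t.1 z hz t.2 rfl

theorem Cut.exists_map {K K' : Δ.Cut C} (h : K.Ok) (h' : K'.Ok) (hT : K.To K') :
    ∃ F : Δ.Surf → Δ.Surf, Continuous F ∧ ∀ t t', ∀ z ∈ Δ.tri t, ∀ z' ∈ Δ.tri t',
      K.cell t = K'.cell t' → K.A t z = K'.A t' z' → F (Δ.pt t z) = Δ.pt t' z' := by
  rcases isEmpty_or_nonempty T with hE | hE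
  · exact ⟨id, continuous_id, fun t => hE.elim t⟩
  obtain ⟨P, hP, hc⟩ := K'.cell_map h'
  obtain ⟨F, hF, hF'⟩ := Δ.lift (fun t z => P (K.cell t) (K.A t z))
    (fun t => (hc (K.cell t)).comp (T8_cont K t).continuousOn (hT.cover t)) fun d z hz => by
      by_cases hd : K.Inner d
      · rw [(h.inner d hd).1, T8_inner h hd hz]
      · obtain ⟨d', c1, s1, e1, c2, s2, e2⟩ := hT.outer d hd
        obtain ⟨θ, hθ, rfl⟩ := T8_edge.1 hz
        have hz' : Δ.st d' + θ • (Δ.en d' - Δ.st d') ∈ Δ.edge d' := T8_edge.2 ⟨θ, hθ, rfl⟩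
        rw [γ_line, T8_line, T8_line, ← c1, ← c2, ← s1, ← e1, ← s2, ← e2, ← T8_line, ← T8_line,
          ← γ_line, hP _ _ (Δ.edge_sub _ hz'), hP _ _ (Δ.edge_sub _ (Δ.γ_mem hz')), Δ.pt_glue hz']
  refine ⟨F, hF, fun t t' z hz z' hz' c e => ?_⟩
  rw [hF' t z hz, c, e, hP t' z' hz']

theorem Cut.cut_paste {K K' : Δ.Cut C} (h : K.Ok) (h' : K'.Ok) (hT : K.To K') (hT' : K'.To K) :
    ∃ F : Δ.Surf ≃ₜ Δ.Surf, ∀ t t', ∀ z ∈ Δ.tri t, ∀ z' ∈ Δ.tri t',
      K.cell t = K'.cell t' → K.A t z = K'.A t' z' → F (Δ.pt t z) = Δ.pt t' z' := by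
  obtain ⟨F, hF, hF'⟩ := Cut.exists_map h h' hT
  obtain ⟨G, hG, hG'⟩ := Cut.exists_map h' h hT'
  refine ⟨⟨⟨F, G, fun y => ?_, fun y => ?_⟩, hF, hG⟩, hF'⟩
  · obtain ⟨t, z, hz, rfl⟩ := Δ.pt_surj y
    obtain ⟨t', c, z', hz', e⟩ := hT.cover t z hz
    rw [hF' t t' z hz z' hz' c.symm e.symm, hG' t' t z' hz' z hz c e]
  · obtain ⟨t, z, hz, rfl⟩ := Δ.pt_surj y
    obtain ⟨t', c, z', hz', e⟩ := hT'.cover t z hz
    rw [hG' t t' z hz z' hz' c.symm e.symm, hF' t' t z' hz' z hz c e]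

end FlatTri
end Pool.Agent.Work.MP_563a32_gt
end

-- merged part: Pool.Agent.Work.MP_563a32_gt.T4
section
/-! A continuous map that is everywhere one of finitely many affine maps is locally one of them.

Plan. `one_of`: a ball minus a finite set is preconnected and dense in the ball
(`IsOpen.isPathConnected_diff_countable`-type results, or transport
`Set.Countable.isPathConnected_compl_of_one_lt_rank` through a homeomorphism of the plane with the
ball); on it the relatively closed sets `B k` are disjoint and cover, so one of them contains it,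
and by density the ball. `affine_of`: take a ball around `φ y` inside the target of `φ` whose
image under `φ.symm` is mapped into the source of `φ'`; for `w` in it write `φ.symm w = pt t z`,
so `z = w` or `z = γ d w`; `Pieces` and `IsChart` for `φ'` show that
`φ' (F (φ.symm w)) = ε diag lam w + c` for `(ε, c)` in a finite set; two different such maps
agree in at most one point. `cone_of`: the same with the sets `{w | (w - c) ^ 2 = ψ (φ.symm w) ^ p}`,
`c` among the finitely many points `pos t k` and `γ (opp d) (pos t k)`. -/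

namespace Pool.Agent.Work.MP_563a32_gt
open Filter Topology

theorem one_of {κ : Type} [Finite κ] {w : ℂ} {ρ : ℝ} (hρ : 0 < ρ) (B : κ → Set ℂ)
    (hcl : ∀ k, ∀ z ∈ Metric.ball w ρ, z ∈ closure (B k ∩ Metric.ball w ρ) → z ∈ B k)
    (hcov : ∀ z ∈ Metric.ball w ρ, ∃ k, z ∈ B k)
    (hfin : ∀ k l, k ≠ l → (B k ∩ B l).Finite) : ∃ k, Metric.ball w ρ ⊆ B k := by
  let e := OpenPartialHomeomorph.univBall w ρ
  have hs : ∀ x, x ∈ e.source := fun x => by simp [e]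
  have ht : e.target = Metric.ball w ρ := OpenPartialHomeomorph.univBall_target w hρ
  have hm : ∀ x, e x ∈ Metric.ball w ρ := fun x => ht ▸ e.map_source (hs x)
  have hc : Continuous e := OpenPartialHomeomorph.continuous_univBall w ρ
  have hA : ∀ k, IsClosed (e ⁻¹' B k) := fun k => isClosed_of_closure_subset fun x hx =>
    hcl k _ (hm x) (map_mem_closure hc hx fun y hy => ⟨hy, hm y⟩)
  have hS : (e ⁻¹' ⋃ k, ⋃ l, ⋃ _ : k ≠ l, B k ∩ B l).Countable :=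
    (Set.Finite.preimage (fun x _ y _ => e.injOn (hs x) (hs y)) (Set.finite_iUnion fun k =>
      Set.finite_iUnion fun l => Set.finite_iUnion fun h => hfin k l h)).countable
  have hd := hS.dense_compl ℝ
  have hp := (hS.isConnected_compl_of_one_lt_rank (by simp)).isPreconnected
  obtain ⟨x0, hx0⟩ := hd.nonempty
  obtain ⟨k, hk⟩ := hcov _ (hm x0)
  have hdis : ∀ x ∈ (e ⁻¹' ⋃ k, ⋃ l, ⋃ _ : k ≠ l, B k ∩ B l)ᶜ, x ∈ e ⁻¹' B k →
      x ∉ ⋃ l, ⋃ _ : k ≠ l, e ⁻¹' B l := fun x hx h1 h2 => by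
    simp only [Set.mem_iUnion] at h2
    obtain ⟨l, hl, h2⟩ := h2
    exact hx (Set.mem_iUnion.2 ⟨k, Set.mem_iUnion.2 ⟨l, Set.mem_iUnion.2 ⟨hl, h1, h2⟩⟩⟩)
  have key := (isPreconnected_iff_subset_of_disjoint_closed.1 hp (e ⁻¹' B k)
    (⋃ l, ⋃ _ : k ≠ l, e ⁻¹' B l) (hA k)
    (isClosed_iUnion_of_finite fun l => isClosed_iUnion_of_finite fun _ => hA l)
    (fun x _ => by
      obtain ⟨l, hl⟩ := hcov _ (hm x)
      by_cases h : k = l
      · exact Or.inl (h ▸ hl)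
      · exact Or.inr (Set.mem_iUnion.2 ⟨l, Set.mem_iUnion.2 ⟨h, hl⟩⟩))
    (Set.eq_empty_of_forall_notMem fun x hx => hdis x hx.1 hx.2.1 hx.2.2)).resolve_right
      fun h => hdis x0 hx0 hk (h hx0)
  refine ⟨k, fun z hz => ?_⟩
  have := (hA k).closure_subset ((hd.mono key) (e.symm z))
  rwa [Set.mem_preimage, e.right_inv (ht ▸ hz)] at this

theorem T4_loc {α : Type} {K : Set α} (hK : K.Finite) {w : ℂ} {G : ℂ → ℂ} (f : α → ℂ → ℂ)
    (hf : ∀ k, Continuous (f k)) (hG : ∀ᶠ z in 𝓝 w, ContinuousAt G z ∧ ∃ k ∈ K, G z = f k z)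
    (hfin : ∀ k l, k ≠ l → {z | f k z = f l z}.Subsingleton) :
    ∃ k ∈ K, ∀ᶠ z in 𝓝 w, G z = f k z := by
  obtain ⟨ρ, hρ, h⟩ := Metric.eventually_nhds_iff_ball.1 hG
  have := hK.to_subtype
  obtain ⟨k, hk⟩ := one_of hρ (fun k : K => {z | G z = f k z})
    (fun k z hz hc => by
      have := ((h z hz).1.sub (hf k).continuousAt).continuousWithinAt.mem_closure hc
        (t := {0}) fun y hy => sub_eq_zero.2 hy.1
      rw [closure_singleton] at this
      exact sub_eq_zero.1 this)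
    (fun z hz => let ⟨k, hk, e⟩ := (h z hz).2; ⟨⟨k, hk⟩, e⟩)
    fun k l hkl => (hfin k l fun e => hkl (Subtype.ext e)).finite.subset
      fun z hz => hz.1.symm.trans hz.2
  exact ⟨k, k.2, Filter.mem_of_superset (Metric.ball_mem_nhds w hρ) hk⟩

namespace FlatTri
variable {T : Type} [Fintype T] (Δ : FlatTri T)

omit [Fintype T] in
theorem T4_chart {d : T × Fin 3} {φ : OpenPartialHomeomorph Δ.Surf ℂ} (h : Δ.IsChart d φ) :
    ∃ K : Set (ℂ × ℂ), K.Finite ∧ (∀ e ∈ K, e.1 = 1 ∨ e.1 = -1) ∧ ∀ t, ∀ z ∈ Δ.tri t,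
      Δ.pt t z ∈ φ.source → ∃ e ∈ K, φ (Δ.pt t z) = e.1 * z + e.2 := by
  refine ⟨{(1, 0), (Δ.sg (Δ.opp d), Δ.γ (Δ.opp d) 0)}, Set.toFinite _, ?_, fun t z hz hs => ?_⟩
  · rintro e (rfl | rfl)
    · exact Or.inl rfl
    · exact Δ.sg_pm _
  · rcases h.2.2 t z hz hs with ⟨-, e⟩ | ⟨-, e⟩
    · exact ⟨_, Or.inl rfl, by rw [e]; ring⟩
    · exact ⟨_, Or.inr rfl, by rw [e]; unfold γ; ring⟩

omit [Fintype T] in
theorem T4_near {φ φ' : OpenPartialHomeomorph Δ.Surf ℂ} {F : Δ.Surf → Δ.Surf} (hF : Continuous F)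
    {y : Δ.Surf} (hy : y ∈ φ.source) (hy' : F y ∈ φ'.source) : ∀ᶠ w in 𝓝 (φ y),
      ContinuousAt (fun w => φ' (F (φ.symm w))) w ∧ ∃ t, ∃ z ∈ Δ.tri t, φ.symm w = Δ.pt t z ∧
        Δ.pt t z ∈ φ.source ∧ φ (Δ.pt t z) = w ∧ F (Δ.pt t z) ∈ φ'.source := by
  have h1 : ∀ᶠ w in 𝓝 (φ y), F (φ.symm w) ∈ φ'.source :=
    (hF.continuousAt.comp (φ.continuousAt_symm (φ.map_source hy))).eventually_mem
      (φ'.open_source.mem_nhds (by rwa [Function.comp, φ.left_inv hy]))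
  filter_upwards [h1, φ.open_target.mem_nhds (φ.map_source hy)] with w h2 h3
  obtain ⟨t, z, hz, e⟩ := Δ.pt_surj (φ.symm w)
  exact ⟨(φ'.continuousAt h2).comp_of_eq (hF.continuousAt.comp (φ.continuousAt_symm h3)) rfl,
    t, z, hz, e, e ▸ φ.map_target h3, e ▸ φ.right_inv h3, e ▸ h2⟩

theorem affine_of {d d' : T × Fin 3} {φ φ' : OpenPartialHomeomorph Δ.Surf ℂ}
    (h : Δ.IsChart d φ) (h' : Δ.IsChart d' φ') {F : Δ.Surf → Δ.Surf} (hF : Continuous F)
    {lam : ℝ} (hl : 0 < lam) (hP : Δ.Pieces F lam) {y : Δ.Surf} (hy : y ∈ φ.source)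
    (hy' : F y ∈ φ'.source) : ∃ ε c : ℂ, (ε = 1 ∨ ε = -1) ∧
      ∀ᶠ z in 𝓝 y, φ' (F z) = ε * diag lam (φ z) + c := by
  obtain ⟨K, hK, hK1, hP⟩ := hP
  obtain ⟨L, hL, hL1, h⟩ := Δ.T4_chart h
  obtain ⟨L', hL', hL1', h'⟩ := Δ.T4_chart h'
  obtain ⟨⟨ε, c⟩, ⟨⟨a, b, a'⟩, ⟨ha, hb, ha'⟩, e⟩, hw⟩ := T4_loc
    ((hL.prod (hK.prod hL')).image fun q => (q.2.2.1 * q.2.1.1 * q.1.1,
      q.2.2.1 * (q.2.1.1 * diag lam (-(q.1.1 * q.1.2)) + q.2.1.2) + q.2.2.2))
    (w := φ y) (G := fun w => φ' (F (φ.symm w))) (fun q w => q.1 * diag lam w + q.2)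
    (fun q => (continuous_const.mul (continuous_diag lam)).add continuous_const)
    ((Δ.T4_near hF hy hy').mono fun w ⟨h1, t, z, hz, e1, e2, e3, e4⟩ => ⟨h1, by
      obtain ⟨a, ha, e5⟩ := h t z hz e2
      obtain ⟨t', b, hb, hz', e6⟩ := hP t z hz
      obtain ⟨a', ha', e7⟩ := h' t' _ hz' (e6 ▸ e4)
      refine ⟨_, ⟨(a, b, a'), ⟨ha, hb, ha'⟩, rfl⟩, ?_⟩
      have e8 : z = a.1 * w + -(a.1 * a.2) := by
        rw [← e3, e5]
        linear_combination (-z) * PA.A1_sq (hL1 a ha)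
      dsimp only
      rw [e1, e6, e7, e8, PA.A1_aff lam (hL1 a ha)]
      ring⟩)
    fun q q' hq z hz z' hz' => by
      simp only [Set.mem_ofPred_eq] at hz hz'
      have h1 : (q.1 - q'.1) * (diag lam z - diag lam z') = 0 := by
        linear_combination hz - hz'
      rcases mul_eq_zero.1 h1 with h2 | h2
      · exact (hq (Prod.ext (sub_eq_zero.1 h2)
          (by linear_combination hz - diag lam z * h2))).elim
      · rw [← diag_diag' hl.ne' z, sub_eq_zero.1 h2, diag_diag' hl.ne']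
  refine ⟨ε, c, ?_, ?_⟩
  · rw [← (Prod.mk.inj e).1]
    exact PA.A1_mul (PA.A1_mul (hL1' _ ha') (hK1 _ hb)) (hL1 _ ha)
  · filter_upwards [(φ.continuousAt hy).eventually hw, φ.eventually_left_inverse hy] with z h1 h2
    rwa [h2] at h1

theorem cone_of {d : T × Fin 3} {φ ψ : OpenPartialHomeomorph Δ.Surf ℂ} (h : Δ.IsChart d φ)
    {p : ℕ} (hψ : ∀ t, ∀ z ∈ Δ.tri t, Δ.pt t z ∈ ψ.source →
      ∃ k, ψ (Δ.pt t z) ^ p = (z - Δ.pos t k) ^ 2)
    {y : Δ.Surf} (hy : y ∈ ψ.source) (hy' : y ∈ φ.source) :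
    ∃ c : ℂ, ∀ᶠ z in 𝓝 y, (φ z - c) ^ 2 = ψ z ^ p := by
  obtain ⟨L, hL, hL1, h⟩ := Δ.T4_chart h
  obtain ⟨c, -, hw⟩ := T4_loc
    ((hL.prod (Set.finite_univ (α := T × Fin 3))).image fun q => q.1.1 * Δ.st q.2 + q.1.2)
    (w := φ y) (G := fun w => ψ (φ.symm w) ^ p) (fun c w => (w - c) ^ 2) (fun c => by fun_prop)
    ((Δ.T4_near continuous_id hy' hy).mono fun w ⟨h1, t, z, hz, e1, e2, e3, e4⟩ => ⟨h1.pow p, by
      obtain ⟨a, ha, e5⟩ := h t z hz e2
      obtain ⟨k, e6⟩ := hψ t z hz e4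
      refine ⟨_, ⟨(a, t, k), ⟨ha, trivial⟩, rfl⟩, ?_⟩
      dsimp only [st]
      rw [e1, e6, ← e3, e5]
      linear_combination (-(z - Δ.pos t k) ^ 2) * PA.A1_sq (hL1 a ha)⟩)
    fun c c' hc z hz z' hz' => by
      simp only [Set.mem_ofPred_eq] at hz hz'
      have h1 : (c - c') * (z - z') = 0 := by
        linear_combination (-1 / 2) * hz + (1 / 2) * hz'
      exact sub_eq_zero.1 ((mul_eq_zero.1 h1).resolve_left (sub_ne_zero.2 hc))
  refine ⟨c, ?_⟩
  filter_upwards [(φ.continuousAt hy').eventually hw, φ.eventually_left_inverse hy'] with z h1 h2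
  rw [h2] at h1
  exact h1.symm

end FlatTri
end Pool.Agent.Work.MP_563a32_gt
end

-- merged part: Pool.Agent.Work.MP_563a32_gt.T5
section
/-! The angles around a vertex add up to `π` times the number of corners that contain a horizontal
direction.

Plan. With `a = pos t (k + 1) - pos t k` and `b = pos t (k + 2) - pos t k` one has
`cross a b = area > 0`, so `Im (b / a) > 0` and `ang ∈ (0, π)`, `b / ‖b‖ = a / ‖a‖ * exp (ang I)`.
By `glue` for the dart `(t, k + 2)` the vector of `rotV (t, k)` is `± b`. This gives `Θ_dir` by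
induction. As no side is horizontal, `Θ j / π` is never an integer and the sign of `sin (Θ j)` is
`(-1) ^ ⌊Θ j / π⌋`; since `0 < ang < π` the floor grows by `0` or `1`, by `1` exactly when
`Im a * Im b < 0` (`Im a * Im b` has the sign of `sin (Θ j) * sin (Θ (j + 1))`). At the period `L`
the vector is again that of `d`, so `Θ L - Θ 0` is an integer multiple of `π`, which is the growth
of the floor. -/

namespace Pool.Agent.Work.MP_563a32_gt
namespace FlatTri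
open Filter Topology Complex

variable {T : Type} (Δ : FlatTri T)

/-- The angle of the corner at the start of `d`. -/
noncomputable def ang (d : T × Fin 3) : ℝ :=
  arg ((Δ.pos d.1 (d.2 + 2) - Δ.st d) / (Δ.en d - Δ.st d))

/-- The total angle up to the `j`-th corner after `d`. -/
noncomputable def Θ (d : T × Fin 3) (j : ℕ) : ℝ :=
  arg (Δ.en d - Δ.st d) + ∑ i ∈ Finset.range j, Δ.ang (Δ.rotV^[i] d)

theorem T5_arg {z : ℂ} (h : 0 < z.im) : 0 < arg z ∧ arg z < Real.pi :=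
  ⟨(arg_nonneg_iff.2 h.le).lt_of_ne fun e => h.ne' (arg_eq_zero_iff.1 e.symm).2,
    arg_lt_pi_iff.2 (Or.inr h.ne')⟩

theorem T5_ne (d : T × Fin 3) : Δ.en d - Δ.st d ≠ 0 := fun h => Δ.nohor d.1 d.2 (congrArg im h)

theorem T5_im (d : T × Fin 3) : 0 < ((Δ.pos d.1 (d.2 + 2) - Δ.st d) / (Δ.en d - Δ.st d)).im := by
  have h1 := Δ.area_pos d.1
  rw [← area_shift _ d.2, area, zero_add, add_comm 1, add_comm 2, cross] at h1
  rw [div_im, ← sub_div]
  refine div_pos ?_ (normSq_pos.2 (Δ.T5_ne d))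
  rw [en, st]
  linarith

theorem T5_rot (d : T × Fin 3) : Δ.en (Δ.rotV d) - Δ.st (Δ.rotV d) =
    Δ.sg (d.1, d.2 + 2) * (Δ.pos d.1 (d.2 + 2) - Δ.st d) := by
  have h1 : ∀ k : Fin 3, k + 2 + 1 = k := by decide
  have h2 := Δ.glue (d.1, d.2 + 2)
  rw [h1] at h2
  change Δ.pos (Δ.opp _).1 ((Δ.opp _).2 + 1) - Δ.pos (Δ.opp _).1 (Δ.opp _).2 = _ * (_ - Δ.pos _ _)
  linear_combination -h2

/-- The direction of a line that is not horizontal. -/
noncomputable def T5_w (v : ℂ) : ℝ := if 0 < v.im then arg v else arg (-v)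

theorem T5_div {u v : ℂ} (hu : 0 < u.im) (hv : 0 < v.im) : arg (v / u) = arg v - arg u := by
  have h1 := T5_arg hu
  have h2 := T5_arg hv
  rw [← arg_coe_angle_toReal_eq_arg, arg_div_coe_angle (fun h => hv.ne' (congrArg im h))
    (fun h => hu.ne' (congrArg im h)), ← Real.Angle.coe_sub, Real.Angle.toReal_coe_eq_self_iff]
  constructor <;> linarith

theorem T5_div' {u v : ℂ} (hu : 0 < u.im) (hv : 0 < v.im) (h : 0 < (-(v / u)).im) :
    arg (-(v / u)) = arg v - arg u + Real.pi := by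
  rw [arg_neg_eq_arg_add_pi_of_im_neg (neg_pos.1 h), T5_div hu hv]

theorem T5_step {a b : ℂ} (ha : a.im ≠ 0) (hb : b.im ≠ 0) (h : 0 < (b / a).im) :
    arg (b / a) = T5_w b - T5_w a + if a.im * b.im < 0 then Real.pi else 0 := by
  rcases ha.lt_or_gt with ha | ha <;> rcases hb.lt_or_gt with hb | hb
  · rw [T5_w, T5_w, if_neg ha.not_gt, if_neg hb.not_gt, if_neg (mul_pos_of_neg_of_neg ha hb).not_gt,
      add_zero, ← T5_div (neg_pos.2 ha) (neg_pos.2 hb), neg_div_neg_eq]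
  · have := T5_div' (u := -a) (neg_pos.2 ha) hb (by rwa [div_neg, neg_neg])
    rw [T5_w, T5_w, if_neg ha.not_gt, if_pos hb, if_pos (mul_neg_of_neg_of_pos ha hb), ← this,
      div_neg, neg_neg]
  · have := T5_div' (v := -b) ha (neg_pos.2 hb) (by rwa [neg_div, neg_neg])
    rw [T5_w, T5_w, if_pos ha, if_neg hb.not_gt, if_pos (mul_neg_of_pos_of_neg ha hb), ← this,
      neg_div, neg_neg]
  · rw [T5_w, T5_w, if_pos ha, if_pos hb, if_neg (mul_pos ha hb).not_gt, add_zero, T5_div ha hb]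

theorem T5_w_pm {ε v : ℂ} (hε : ε = 1 ∨ ε = -1) (hv : v.im ≠ 0) : T5_w (ε * v) = T5_w v := by
  rcases hε with rfl | rfl
  · rw [one_mul]
  · rw [neg_one_mul, T5_w, T5_w, neg_neg, neg_im]
    rcases hv.lt_or_gt with h | h
    · rw [if_pos (neg_pos.2 h), if_neg h.not_gt]
    · rw [if_neg (neg_neg_of_pos h).not_gt, if_pos h]

open Classical in
theorem T5_ang (d : T × Fin 3) : Δ.ang d = T5_w (Δ.en (Δ.rotV d) - Δ.st (Δ.rotV d)) -
    T5_w (Δ.en d - Δ.st d) + if Δ.Mid d then Real.pi else 0 := by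
  have h1 : ∀ k : Fin 3, k + 2 + 1 = k := by decide
  have h2 : (Δ.pos d.1 (d.2 + 2) - Δ.st d).im ≠ 0 := by
    have := Δ.nohor d.1 (d.2 + 2)
    rwa [h1, ← neg_sub, neg_im, neg_ne_zero] at this
  rw [T5_rot, T5_w_pm (Δ.sg_pm _) h2, ang,
    T5_step (a := Δ.en d - Δ.st d) (Δ.nohor d.1 d.2) h2 (Δ.T5_im d)]
  congr

theorem ang_mem (d : T × Fin 3) : 0 < Δ.ang d ∧ Δ.ang d < Real.pi := by
  exact T5_arg (Δ.T5_im d)

theorem Θ_dir (d : T × Fin 3) (j : ℕ) : ∃ ε : ℂ, (ε = 1 ∨ ε = -1) ∧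
    Δ.en (Δ.rotV^[j] d) - Δ.st (Δ.rotV^[j] d) =
      ε * ‖Δ.en (Δ.rotV^[j] d) - Δ.st (Δ.rotV^[j] d)‖ * exp (Δ.Θ d j * I) := by
  induction j with
  | zero => exact ⟨1, Or.inl rfl, by simp [Θ]⟩
  | succ j ih =>
    obtain ⟨ε, hε, h⟩ := ih
    have e : Δ.Θ d (j + 1) = Δ.Θ d j + Δ.ang (Δ.rotV^[j] d) := by
      rw [Θ, Θ, Finset.sum_range_succ, add_assoc]
    rw [Function.iterate_succ_apply', T5_rot, e, ang]
    generalize Δ.rotV^[j] d = c at h
    have h0 := Δ.T5_ne c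
    have hs := Δ.sg_pm (c.1, c.2 + 2)
    generalize Δ.sg (c.1, c.2 + 2) = s at hs
    generalize Δ.en c - Δ.st c = a at h h0
    generalize Δ.pos c.1 (c.2 + 2) - Δ.st c = b
    have h1 := norm_mul_exp_arg_mul_I (b / a)
    have h2 : (‖a‖ : ℂ) ≠ 0 := by simpa using h0
    have h3 : ‖s * b‖ = ‖b‖ := by rcases hs with rfl | rfl <;> simp
    refine ⟨s * ε, by rcases hs with rfl | rfl <;> rcases hε with rfl | rfl <;> simp, ?_⟩
    rw [norm_div, ofReal_div, div_mul_eq_mul_div, div_eq_div_iff h2 h0] at h1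
    rw [h3, ofReal_add, add_mul, exp_add]
    refine mul_right_cancel₀ h2 ?_
    linear_combination -s * h1 + s * ‖b‖ * exp (arg (b / a) * I) * h

open Classical in
theorem Θ_period (d : T × Fin 3) {L : ℕ} (hL : Δ.rotV^[L] d = d) :
    Δ.Θ d L = Δ.Θ d 0 +
      (((Finset.range L).filter fun j => Δ.Mid (Δ.rotV^[j] d)).card : ℝ) * Real.pi := by
  have h := Finset.sum_range_sub
    (fun j => T5_w (Δ.en (Δ.rotV^[j] d) - Δ.st (Δ.rotV^[j] d))) L
  simp only [hL, Function.iterate_succ_apply', Function.iterate_zero_apply, sub_self] at h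
  rw [Θ, Θ, Finset.sum_range_zero, add_zero]
  simp only [T5_ang, Finset.sum_add_distrib, h, zero_add, ← Finset.sum_filter, Finset.sum_const,
    nsmul_eq_mul]

end FlatTri
end Pool.Agent.Work.MP_563a32_gt
end

-- merged part: Pool.Agent.Work.MP_563a32_gt.T6a
section
/-! Polar coordinates in the corner of a triangle. -/

namespace Pool.Agent.Work.MP_563a32_gt
open Filter Topology Complex

theorem T6_cross_mul (a q w : ℂ) : cross (a * q) (a * w) = normSq a * cross q w := by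
  simp only [cross, mul_re, mul_im, normSq_apply]
  ring

theorem T6_cross_polar (r s α β : ℝ) :
    cross (r * exp (α * I)) (s * exp (β * I)) = r * s * Real.sin (β - α) := by
  simp only [cross, re_ofReal_mul, im_ofReal_mul, exp_ofReal_mul_I_re, exp_ofReal_mul_I_im,
    Real.sin_sub]
  ring

theorem T6_fin (k l : Fin 3) : l = k ∨ l = k + 1 ∨ l = k + 2 := by
  revert k l
  decide

theorem T6_fin21 (k : Fin 3) : k + 2 + 1 = k := by
  revert k
  decide

theorem T6_fin12 (k : Fin 3) : k + 1 + 2 = k := by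
  revert k
  decide

theorem T6_fin11 (k : Fin 3) : k + 1 + 1 = k + 2 := by
  revert k
  decide

theorem T6_fin22 (k : Fin 3) : k + 2 + 2 = k + 1 := by
  revert k
  decide

theorem T6_sum {M : Type} [AddCommMonoid M] (f : Fin 3 → M) (k : Fin 3) :
    ∑ l, f l = f k + f (k + 1) + f (k + 2) := by
  rw [Fin.sum_univ_three]
  fin_cases k
  · rfl
  · change _ = f 1 + f 2 + f 0
    abel
  · change _ = f 2 + f 0 + f 1
    abel

theorem T6_sector {f : ℕ → ℝ} {φ : ℝ} (h0 : f 0 ≤ φ) {L : ℕ} (hL : φ < f L) :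
    ∃ j < L, f j ≤ φ ∧ φ < f (j + 1) := by
  induction L with
  | zero => exact absurd (h0.trans_lt hL) (lt_irrefl _)
  | succ L ih =>
    by_cases h : φ < f L
    · obtain ⟨j, hj, h'⟩ := ih h
      exact ⟨j, Nat.lt_succ_of_lt hj, h'⟩
    · exact ⟨L, Nat.lt_succ_self L, not_lt.1 h, hL⟩

namespace FlatTri

variable {T : Type} (Δ : FlatTri T)

theorem T6_a_ne (d : T × Fin 3) : Δ.en d - Δ.st d ≠ 0 := fun h =>
  Δ.nohor d.1 d.2 (by
    change (Δ.en d - Δ.st d).im = 0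
    rw [h, zero_im])

theorem T6_b_ne (d : T × Fin 3) : Δ.pos d.1 (d.2 + 2) - Δ.st d ≠ 0 := fun h => by
  have := (Δ.ang_mem d).1
  rw [ang, h, zero_div, arg_zero] at this
  exact lt_irrefl _ this

/-- The point of the corner `d` at distance `r` and angle `a`. -/
noncomputable def T6ray (d : T × Fin 3) (r a : ℝ) : ℂ :=
  Δ.st d + (Δ.en d - Δ.st d) * ((r / ‖Δ.en d - Δ.st d‖ : ℝ) * exp (a * I))

theorem T6_ray_sub (d : T × Fin 3) (r a : ℝ) : Δ.T6ray d r a - Δ.st d =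
    (Δ.en d - Δ.st d) * ((r / ‖Δ.en d - Δ.st d‖ : ℝ) * exp (a * I)) := by
  rw [T6ray, add_sub_cancel_left]

theorem T6_ray_zero (d : T × Fin 3) (a : ℝ) : Δ.T6ray d 0 a = Δ.st d := by
  simp [T6ray]

theorem T6_ray_norm (d : T × Fin 3) {r : ℝ} (hr : 0 ≤ r) (a : ℝ) :
    ‖Δ.T6ray d r a - Δ.st d‖ = r := by
  have h : 0 < ‖Δ.en d - Δ.st d‖ := norm_pos_iff.2 (Δ.T6_a_ne d)
  rw [T6_ray_sub, norm_mul, norm_mul, norm_exp_ofReal_mul_I, norm_real, Real.norm_eq_abs,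
    abs_of_nonneg (div_nonneg hr h.le)]
  field_simp

theorem T6_ray_arg (d : T × Fin 3) {r : ℝ} (hr : 0 < r) {a : ℝ} (h0 : 0 ≤ a)
    (h1 : a ≤ Δ.ang d) : arg ((Δ.T6ray d r a - Δ.st d) / (Δ.en d - Δ.st d)) = a := by
  have h : 0 < ‖Δ.en d - Δ.st d‖ := norm_pos_iff.2 (Δ.T6_a_ne d)
  rw [T6_ray_sub, mul_div_cancel_left₀ _ (Δ.T6_a_ne d), exp_mul_I]
  exact arg_mul_cos_add_sin_mul_I (div_pos hr h)
    ⟨by linarith [Real.pi_pos], h1.trans (Δ.ang_mem d).2.le⟩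

theorem T6_eq_ray (d : T × Fin 3) (z : ℂ) :
    z = Δ.T6ray d ‖z - Δ.st d‖ (arg ((z - Δ.st d) / (Δ.en d - Δ.st d))) := by
  rw [T6ray, ← norm_div, norm_mul_exp_arg_mul_I, mul_div_cancel₀ _ (Δ.T6_a_ne d), add_sub_cancel]

theorem T6_b_eq (d : T × Fin 3) : Δ.pos d.1 (d.2 + 2) - Δ.st d = (Δ.en d - Δ.st d) *
    ((‖Δ.pos d.1 (d.2 + 2) - Δ.st d‖ / ‖Δ.en d - Δ.st d‖ : ℝ) * exp (Δ.ang d * I)) := by
  rw [ang, ← norm_div, norm_mul_exp_arg_mul_I, mul_div_cancel₀ _ (Δ.T6_a_ne d)]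

theorem T6_cross_a (d : T × Fin 3) (r a : ℝ) :
    cross (Δ.pos d.1 (d.2 + 1) - Δ.pos d.1 d.2) (Δ.T6ray d r a - Δ.pos d.1 d.2) =
      normSq (Δ.en d - Δ.st d) * (r / ‖Δ.en d - Δ.st d‖) * Real.sin a := by
  change cross (Δ.en d - Δ.st d) (Δ.T6ray d r a - Δ.st d) = _
  have := T6_cross_mul (Δ.en d - Δ.st d) ((1 : ℝ) * exp ((0 : ℝ) * I))
    ((r / ‖Δ.en d - Δ.st d‖ : ℝ) * exp (a * I))
  rw [T6_cross_polar, sub_zero, one_mul] at this
  rw [T6_ray_sub, mul_assoc, ← this]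
  simp

theorem T6_cross_b (d : T × Fin 3) (r a : ℝ) :
    cross (Δ.pos d.1 (d.2 + 2 + 1) - Δ.pos d.1 (d.2 + 2)) (Δ.T6ray d r a - Δ.pos d.1 (d.2 + 2)) =
      normSq (Δ.en d - Δ.st d) * (r / ‖Δ.en d - Δ.st d‖ *
        (‖Δ.pos d.1 (d.2 + 2) - Δ.st d‖ / ‖Δ.en d - Δ.st d‖)) * Real.sin (Δ.ang d - a) := by
  have h : cross (Δ.pos d.1 (d.2 + 2 + 1) - Δ.pos d.1 (d.2 + 2))
      (Δ.T6ray d r a - Δ.pos d.1 (d.2 + 2)) =
      cross (Δ.T6ray d r a - Δ.st d) (Δ.pos d.1 (d.2 + 2) - Δ.st d) := by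
    rw [T6_fin21]
    simp only [cross, st, sub_re, sub_im]
    ring
  rw [h, T6_ray_sub]
  conv_lhs => rw [Δ.T6_b_eq d]
  rw [T6_cross_mul, T6_cross_polar]
  ring

theorem T6_arg_mem (d : T × Fin 3) {z : ℂ} (hz : z ∈ Δ.tri d.1) :
    0 ≤ arg ((z - Δ.st d) / (Δ.en d - Δ.st d)) ∧
      arg ((z - Δ.st d) / (Δ.en d - Δ.st d)) ≤ Δ.ang d := by
  by_cases h0 : z - Δ.st d = 0
  · rw [h0, zero_div, arg_zero]
    exact ⟨le_rfl, (Δ.ang_mem d).1.le⟩
  have hr : 0 < ‖z - Δ.st d‖ := norm_pos_iff.2 h0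
  have ha : 0 < ‖Δ.en d - Δ.st d‖ := norm_pos_iff.2 (Δ.T6_a_ne d)
  have hb : 0 < ‖Δ.pos d.1 (d.2 + 2) - Δ.st d‖ := norm_pos_iff.2 (Δ.T6_b_ne d)
  have hn : 0 < normSq (Δ.en d - Δ.st d) := normSq_pos.2 (Δ.T6_a_ne d)
  have h1 := hz d.2
  have h2 := hz (d.2 + 2)
  generalize hα : arg ((z - Δ.st d) / (Δ.en d - Δ.st d)) = α
  have hα1 : -Real.pi < α := hα ▸ neg_pi_lt_arg _
  have hα2 : α ≤ Real.pi := hα ▸ arg_le_pi _
  rw [Δ.T6_eq_ray d z, hα, T6_cross_a] at h1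
  rw [Δ.T6_eq_ray d z, hα, T6_cross_b] at h2
  have h3 : 0 ≤ Real.sin α := nonneg_of_mul_nonneg_right h1 (by positivity)
  have h4 : 0 ≤ Real.sin (Δ.ang d - α) := nonneg_of_mul_nonneg_right h2 (by positivity)
  obtain ⟨h5, h6⟩ := Δ.ang_mem d
  constructor
  · by_contra h
    exact absurd h3 (not_le.2 (Real.sin_neg_of_neg_of_neg_pi_lt (not_le.1 h) hα1))
  · by_contra h
    exact absurd h4 (not_le.2 (Real.sin_neg_of_neg_of_neg_pi_lt (by linarith [not_le.1 h])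
      (by linarith)))

/-- The balls of radius `ρ` around the vertices are small. -/
def T6small (ρ : ℝ) : Prop := ∀ d z, ‖z - Δ.st d‖ ≤ ρ → 1 / 2 < bar (Δ.pos d.1) d.2 z

theorem T6_exists_small [Finite T] : ∃ ρ, 0 < ρ ∧ Δ.T6small ρ := by
  have h : ∀ d : T × Fin 3, ∀ᶠ ρ in 𝓝[>] (0 : ℝ), ∀ z, ‖z - Δ.st d‖ ≤ ρ →
      1 / 2 < bar (Δ.pos d.1) d.2 z := by
    intro d
    have h1 : bar (Δ.pos d.1) d.2 (Δ.st d) = 1 := by
      have := bar_sum (Δ.area_pos d.1) (b := Pi.single d.2 1) (by simp) d.2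
      simpa [Pi.single_apply, st] using this
    have h2 : {z | 1 / 2 < bar (Δ.pos d.1) d.2 z} ∈ 𝓝 (Δ.st d) :=
      (isOpen_lt continuous_const (continuous_bar _ _)).mem_nhds (by
        change 1 / 2 < bar (Δ.pos d.1) d.2 (Δ.st d)
        rw [h1]
        norm_num)
    refine ((eventually_closedBall_subset h2).filter_mono nhdsWithin_le_nhds).mono ?_
    intro ρ hρ z hz
    exact hρ (mem_closedBall_iff_norm.2 hz)
  obtain ⟨ρ, h1, h2⟩ := ((eventually_all.2 h).and self_mem_nhdsWithin).exists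
  exact ⟨ρ, h2, h1⟩

variable {Δ}

theorem T6_ray_mem {ρ : ℝ} (hρ : Δ.T6small ρ) (d : T × Fin 3) {r a : ℝ} (h0 : 0 ≤ r)
    (h1 : r ≤ ρ) (h2 : 0 ≤ a) (h3 : a ≤ Δ.ang d) : Δ.T6ray d r a ∈ Δ.tri d.1 := by
  intro l
  obtain ⟨h5, h6⟩ := Δ.ang_mem d
  have hn : 0 ≤ normSq (Δ.en d - Δ.st d) := normSq_nonneg _
  rcases T6_fin d.2 l with rfl | rfl | rfl
  · rw [T6_cross_a]
    have := Real.sin_nonneg_of_nonneg_of_le_pi h2 (by linarith)
    positivity
  · have := hρ d (Δ.T6ray d r a) (by rwa [Δ.T6_ray_norm d h0])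
    rw [bar, lt_div_iff₀ (Δ.area_pos _)] at this
    rw [T6_fin11]
    linarith [Δ.area_pos d.1]
  · rw [T6_cross_b]
    have := Real.sin_nonneg_of_nonneg_of_le_pi (x := Δ.ang d - a) (by linarith) (by linarith)
    positivity

theorem T6_far {ρ : ℝ} (hρ : Δ.T6small ρ) {t : T} {z : ℂ} (hz : z ∈ Δ.tri t) {k l : Fin 3}
    (hkl : l ≠ k) (h : ‖z - Δ.st (t, k)‖ ≤ ρ) : ρ ≤ ‖z - Δ.st (t, l)‖ := by
  by_contra h'
  have h1 := hρ (t, k) z h
  have h2 := hρ (t, l) z (not_le.1 h').le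
  have h3 := (mem_triS (Δ.area_pos t) z).1 hz
  have h4 := sum_bar (Δ.area_pos t) z
  rw [T6_sum _ k] at h4
  dsimp only at h1 h2
  rcases T6_fin k l with rfl | rfl | rfl
  · exact hkl rfl
  · linarith [h3 (k + 2)]
  · linarith [h3 (k + 1)]

theorem T6_far_edge {ρ : ℝ} (hρ : Δ.T6small ρ) {d : T × Fin 3} {z : ℂ} (hz : z ∈ Δ.edge d) :
    ρ ≤ ‖z - Δ.st (d.1, d.2 + 2)‖ := by
  by_contra h'
  have h1 := hρ (d.1, d.2 + 2) z (not_le.1 h').le
  have h2 := ((mem_side (Δ.area_pos d.1) d.2 z).1 hz).2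
  dsimp only at h1
  rw [h2] at h1
  norm_num at h1

variable (Δ)

theorem T6_ray_ang (d : T × Fin 3) (r : ℝ) : Δ.T6ray d r (Δ.ang d) = Δ.st d +
    (r / ‖Δ.pos d.1 (d.2 + 2) - Δ.st d‖ : ℝ) * (Δ.pos d.1 (d.2 + 2) - Δ.st d) := by
  have ha : (‖Δ.en d - Δ.st d‖ : ℂ) ≠ 0 := ofReal_ne_zero.2 (norm_ne_zero_iff.2 (Δ.T6_a_ne d))
  have hb : (‖Δ.pos d.1 (d.2 + 2) - Δ.st d‖ : ℂ) ≠ 0 :=
    ofReal_ne_zero.2 (norm_ne_zero_iff.2 (Δ.T6_b_ne d))
  have h := Δ.T6_b_eq d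
  generalize hB : ‖Δ.pos d.1 (d.2 + 2) - Δ.st d‖ = B at h hb
  rw [T6ray, h]
  push_cast
  field_simp

theorem T6_edge_eq {d : T × Fin 3} {z : ℂ} (hz : z ∈ Δ.edge (d.1, d.2 + 2)) :
    z = Δ.T6ray d ‖z - Δ.st d‖ (Δ.ang d) := by
  obtain ⟨s, s', hs, -, hss, rfl⟩ := hz
  have hb : ‖Δ.pos d.1 (d.2 + 2) - Δ.st d‖ ≠ 0 := norm_ne_zero_iff.2 (Δ.T6_b_ne d)
  have h : s • Δ.st (d.1, d.2 + 2) + s' • Δ.en (d.1, d.2 + 2) - Δ.st d
      = (s : ℂ) * (Δ.pos d.1 (d.2 + 2) - Δ.st d) := by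
    have : s' = 1 - s := by linarith
    simp only [st, en, T6_fin21, this, real_smul]
    push_cast
    ring
  rw [T6_ray_ang, h, norm_mul, norm_real, Real.norm_eq_abs, abs_of_nonneg hs,
    mul_div_cancel_right₀ _ hb, ← h, add_sub_cancel]

theorem T6_ray_edge (d : T × Fin 3) (r : ℝ) (h : Δ.T6ray d r (Δ.ang d) ∈ Δ.tri d.1) :
    Δ.T6ray d r (Δ.ang d) ∈ Δ.edge (d.1, d.2 + 2) := by
  refine (mem_side (Δ.area_pos d.1) (d.2 + 2) _).2 ⟨h, ?_⟩
  have := Δ.T6_cross_b d r (Δ.ang d)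
  rw [sub_self, Real.sin_zero, mul_zero] at this
  rw [T6_fin22, bar, T6_fin11, T6_fin12]
  rw [T6_fin21] at this
  rw [this, zero_div]

theorem T6_γ_ray (d : T × Fin 3) (r : ℝ) :
    Δ.γ (d.1, d.2 + 2) (Δ.T6ray d r (Δ.ang d)) = Δ.T6ray (Δ.rotV d) r 0 := by
  have h := Δ.glue (d.1, d.2 + 2)
  dsimp only at h
  rw [T6_fin21] at h
  have h1 : Δ.en (Δ.rotV d) - Δ.st (Δ.rotV d) =
      Δ.sg (d.1, d.2 + 2) * (Δ.pos d.1 (d.2 + 2) - Δ.st d) := by
    change Δ.pos (Δ.opp (d.1, d.2 + 2)).1 ((Δ.opp (d.1, d.2 + 2)).2 + 1) -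
      Δ.pos (Δ.opp (d.1, d.2 + 2)).1 (Δ.opp (d.1, d.2 + 2)).2 = _
    rw [st]
    linear_combination -h
  have h2 : ‖Δ.en (Δ.rotV d) - Δ.st (Δ.rotV d)‖ = ‖Δ.pos d.1 (d.2 + 2) - Δ.st d‖ := by
    rw [h1, norm_mul]
    rcases Δ.sg_pm (d.1, d.2 + 2) with h3 | h3 <;> simp [h3]
  have h3 : Δ.en (Δ.opp (d.1, d.2 + 2)) = Δ.st (Δ.rotV d) +
      Δ.sg (d.1, d.2 + 2) * (Δ.pos d.1 (d.2 + 2) - Δ.st d) := by
    rw [← h1, add_sub_cancel]
    rfl
  rw [T6_ray_ang, T6ray, h2, h1, γ, h3]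
  simp only [st, ofReal_zero, zero_mul, exp_zero]
  ring

end FlatTri
end Pool.Agent.Work.MP_563a32_gt
end

-- merged part: Pool.Agent.Work.MP_563a32_gt.T6b
section
/-! A function on the surface given in polar coordinates in the corners. -/

namespace Pool.Agent.Work.MP_563a32_gt
namespace FlatTri
open Filter Topology Complex

variable {T : Type} (Δ : FlatTri T)

/-- The contribution of the corner `d`. -/
noncomputable def T6F (u : T × Fin 3 → ℂ) (c ρ : ℝ) (κ : ℝ → ℝ) (d : T × Fin 3) (z : ℂ) : ℝ × ℂ :=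
  (‖u d‖ * max 0 (ρ - ‖z - Δ.st d‖),
    κ ‖z - Δ.st d‖ * (u d * exp ((c * arg ((z - Δ.st d) / (Δ.en d - Δ.st d)) : ℝ) * I)))

variable {u : T × Fin 3 → ℂ} {c ρ : ℝ} {κ : ℝ → ℝ}

theorem T6F_far (hκ : ∀ r, ρ ≤ r → κ r = 0) {d : T × Fin 3} {z : ℂ} (h : ρ ≤ ‖z - Δ.st d‖) :
    Δ.T6F u c ρ κ d z = 0 := by
  rw [T6F, hκ _ h, max_eq_left (by linarith)]
  simp

theorem T6F_ray (hκ : κ 0 = 0) (d : T × Fin 3) {r a : ℝ} (h0 : 0 ≤ r) (h2 : 0 ≤ a)
    (h3 : a ≤ Δ.ang d) : Δ.T6F u c ρ κ d (Δ.T6ray d r a) =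
      (‖u d‖ * max 0 (ρ - r), κ r * (u d * exp ((c * a : ℝ) * I))) := by
  rw [T6F, Δ.T6_ray_norm d h0]
  rcases h0.eq_or_lt with rfl | h0
  · simp [hκ]
  · rw [Δ.T6_ray_arg d h0 h2 h3]

theorem T6F_cont (hc : Continuous κ) (hκ : κ 0 = 0) (d : T × Fin 3) :
    ContinuousOn (Δ.T6F u c ρ κ d) (Δ.tri d.1) := by
  have h1 : Continuous fun z : ℂ => κ ‖z - Δ.st d‖ := by fun_prop
  refine ContinuousOn.prodMk (Continuous.continuousOn (by fun_prop)) fun z hz => ?_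
  refine ContinuousAt.continuousWithinAt ?_
  by_cases h0 : z = Δ.st d
  · have h2 : Tendsto (fun z : ℂ => |κ ‖z - Δ.st d‖| * ‖u d‖) (𝓝 z) (𝓝 0) := by
      have : Continuous fun z : ℂ => |κ ‖z - Δ.st d‖| * ‖u d‖ := by fun_prop
      refine this.tendsto' z 0 ?_
      rw [h0, sub_self, norm_zero, hκ, abs_zero, zero_mul]
    have h3 : Tendsto (fun z : ℂ => (κ ‖z - Δ.st d‖ : ℂ) *
        (u d * exp ((c * arg ((z - Δ.st d) / (Δ.en d - Δ.st d)) : ℝ) * I))) (𝓝 z) (𝓝 0) := by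
      refine squeeze_zero_norm (fun w => le_of_eq ?_) h2
      rw [norm_mul, norm_mul, norm_exp_ofReal_mul_I, norm_real, Real.norm_eq_abs, mul_one]
    rw [ContinuousAt]
    convert h3 using 2
    rw [h0, sub_self, norm_zero, hκ]
    simp
  · have h2 : (z - Δ.st d) / (Δ.en d - Δ.st d) ∈ slitPlane :=
      mem_slitPlane_iff_arg.2 ⟨((Δ.T6_arg_mem d hz).2.trans_lt (Δ.ang_mem d).2).ne,
        div_ne_zero (sub_ne_zero.2 h0) (Δ.T6_a_ne d)⟩
    have h3 : ContinuousAt (fun z : ℂ => arg ((z - Δ.st d) / (Δ.en d - Δ.st d))) z :=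
      ContinuousAt.comp (f := fun z : ℂ => (z - Δ.st d) / (Δ.en d - Δ.st d))
        (continuousAt_arg h2) (by fun_prop)
    have h4 : ContinuousAt
        (fun z : ℂ => ((c * arg ((z - Δ.st d) / (Δ.en d - Δ.st d)) : ℝ) : ℂ) * I) z :=
      (continuous_ofReal.continuousAt.comp (continuousAt_const.mul h3)).mul continuousAt_const
    exact (continuous_ofReal.continuousAt.comp h1.continuousAt).mul
      (continuousAt_const.mul (continuous_exp.continuousAt.comp h4))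

theorem T6F_glue (hκ : κ 0 = 0)
    (hu : ∀ d, u (Δ.rotV d) = u d * exp ((c * Δ.ang d : ℝ) * I)) (d : T × Fin 3) {z : ℂ}
    (hz : z ∈ Δ.edge (d.1, d.2 + 2)) :
    Δ.T6F u c ρ κ d z = Δ.T6F u c ρ κ (Δ.rotV d) (Δ.γ (d.1, d.2 + 2) z) := by
  have h := Δ.T6_edge_eq hz
  generalize hr : ‖z - Δ.st d‖ = r at h
  have h0 : 0 ≤ r := hr ▸ norm_nonneg _
  rw [h, T6_γ_ray, Δ.T6F_ray hκ d h0 (Δ.ang_mem d).1.le le_rfl,
    Δ.T6F_ray hκ _ h0 le_rfl (Δ.ang_mem _).1.le, hu, norm_mul, norm_exp_ofReal_mul_I]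
  simp

theorem T6_lift (hρ : Δ.T6small ρ) (hc : Continuous κ) (hκ : κ 0 = 0)
    (hκ' : ∀ r, ρ ≤ r → κ r = 0)
    (hu : ∀ d, u (Δ.rotV d) = u d * exp ((c * Δ.ang d : ℝ) * I)) :
    ∃ G : Δ.Surf → ℝ × ℂ, Continuous G ∧
      (∀ d r a, 0 ≤ r → r ≤ ρ → 0 ≤ a → a ≤ Δ.ang d → G (Δ.pt d.1 (Δ.T6ray d r a)) =
        (‖u d‖ * (ρ - r), κ r * (u d * exp ((c * a : ℝ) * I)))) ∧
      ∀ t, ∀ z ∈ Δ.tri t, (∀ k, ρ ≤ ‖z - Δ.st (t, k)‖) → G (Δ.pt t z) = 0 := by
  obtain ⟨G, hG, hG'⟩ := Δ.lift (fun t z => ∑ k, Δ.T6F u c ρ κ (t, k) z)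
    (fun t => continuousOn_finsetSum _ fun k _ => Δ.T6F_cont hc hκ (t, k)) (by
      intro d z hz
      have hz' := Δ.γ_mem hz
      rw [T6_sum _ d.2, T6_sum _ (Δ.opp d).2, Δ.T6F_far hκ' (T6_far_edge hρ hz),
        Δ.T6F_far hκ' (T6_far_edge hρ hz'), add_zero, add_zero, add_comm]
      have h1 := Δ.T6F_glue (ρ := ρ) hκ hu (d.1, d.2 + 1) (z := z) (by
        dsimp only
        rw [T6_fin12]
        exact hz)
      have h2 := Δ.T6F_glue (ρ := ρ) hκ hu ((Δ.opp d).1, (Δ.opp d).2 + 1) (z := Δ.γ d z) (by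
        dsimp only
        rw [T6_fin12]
        exact hz')
      have e1 : Δ.rotV (d.1, d.2 + 1) = Δ.opp d := by
        change Δ.opp (d.1, d.2 + 1 + 2) = _
        rw [T6_fin12]
      have e2 : Δ.rotV ((Δ.opp d).1, (Δ.opp d).2 + 1) = d := by
        change Δ.opp ((Δ.opp d).1, (Δ.opp d).2 + 1 + 2) = _
        rw [T6_fin12]
        exact Δ.opp_opp d
      dsimp only at h1 h2
      rw [T6_fin12] at h1 h2
      rw [e1] at h1
      rw [e2, Prod.mk.eta, γ_γ] at h2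
      rw [h1, h2])
  refine ⟨G, hG, fun d r a h0 h1 h2 h3 => ?_, fun t z hz h => ?_⟩
  · have hz := T6_ray_mem hρ d h0 h1 h2 h3
    have hn : ‖Δ.T6ray d r a - Δ.st (d.1, d.2)‖ ≤ ρ := by
      rw [Prod.mk.eta, Δ.T6_ray_norm d h0]
      exact h1
    have n1 : ∀ k : Fin 3, k + 1 ≠ k := by decide
    have n2 : ∀ k : Fin 3, k + 2 ≠ k := by decide
    rw [hG' _ _ hz, T6_sum _ d.2, Δ.T6F_far hκ' (T6_far hρ hz (n1 _) hn),
      Δ.T6F_far hκ' (T6_far hρ hz (n2 _) hn), add_zero, add_zero, Prod.mk.eta,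
      Δ.T6F_ray hκ d h0 h2 h3, max_eq_right (by linarith)]
  · rw [hG' _ _ hz]
    exact Finset.sum_eq_zero fun k _ => Δ.T6F_far hκ' (h k)

theorem T6_vtx_iter (d : T × Fin 3) (j : ℕ) : Δ.vtx (Δ.rotV^[j] d) = Δ.vtx d := by
  induction j with
  | zero => rfl
  | succ j ih => rw [Function.iterate_succ_apply', vtx_rotV, ih]

theorem T6_Θ_succ (d : T × Fin 3) (j : ℕ) :
    Δ.Θ d (j + 1) = Δ.Θ d j + Δ.ang (Δ.rotV^[j] d) := by
  rw [Θ, Θ, Finset.sum_range_succ, add_assoc]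

theorem T6_Θ_mono (d : T × Fin 3) : StrictMono (Δ.Θ d) :=
  strictMono_nat_of_lt_succ fun j => by
    rw [T6_Θ_succ]
    linarith [(Δ.ang_mem (Δ.rotV^[j] d)).1]

theorem T6_Θ_add (d : T × Fin 3) {L : ℕ} (hL : Δ.rotV^[L] d = d) (j : ℕ) :
    Δ.Θ d (j + L) = Δ.Θ d j + (Δ.Θ d L - Δ.Θ d 0) := by
  induction j with
  | zero => rw [zero_add, add_sub_cancel]
  | succ j ih =>
    rw [Nat.add_right_comm, T6_Θ_succ, T6_Θ_succ, ih, Function.iterate_add_apply, hL]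
    ring

theorem T6_exists_u [Finite T] (d₀ : T × Fin 3) {c : ℝ}
    (hc : c * (Δ.Θ d₀ (Function.minimalPeriod Δ.rotV d₀) - Δ.Θ d₀ 0) = 2 * Real.pi) :
    ∃ u : T × Fin 3 → ℂ, (∀ j, u (Δ.rotV^[j] d₀) = exp ((c * Δ.Θ d₀ j : ℝ) * I)) ∧
      (∀ d, u d ≠ 0 → ∃ j < Function.minimalPeriod Δ.rotV d₀, Δ.rotV^[j] d₀ = d) ∧
      ∀ d, u (Δ.rotV d) = u d * exp ((c * Δ.ang d : ℝ) * I) := by
  classical
  set L := Function.minimalPeriod Δ.rotV d₀ with hLdef
  have hL : 0 < L :=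
    Function.minimalPeriod_pos_of_mem_periodicPts (Δ.rotV.injective.mem_periodicPts d₀)
  have hper : Δ.rotV^[L] d₀ = d₀ := Function.iterate_minimalPeriod
  let E : ℕ → ℂ := fun j => exp ((c * Δ.Θ d₀ j : ℝ) * I)
  have hE : Function.Periodic E L := fun j => by
    simp only [E]
    rw [Δ.T6_Θ_add d₀ hper, mul_add, hc]
    push_cast
    rw [add_mul, exp_add, exp_two_pi_mul_I, mul_one]
  have hE' : ∀ i j, Δ.rotV^[i] d₀ = Δ.rotV^[j] d₀ → E i = E j := fun i j h => by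
    rw [← hE.map_mod_nat i, ← hE.map_mod_nat j]
    congr 1
    rw [← Function.iterate_eq_iterate_iff_of_lt_minimalPeriod (f := Δ.rotV) (x := d₀)
      (Nat.mod_lt _ hL) (Nat.mod_lt _ hL), Function.iterate_mod_minimalPeriod_eq,
      Function.iterate_mod_minimalPeriod_eq]
    exact h
  let u : T × Fin 3 → ℂ := fun d => if h : ∃ j, Δ.rotV^[j] d₀ = d then E h.choose else 0
  have hu : ∀ j, u (Δ.rotV^[j] d₀) = E j := fun j => by
    have h : ∃ i, Δ.rotV^[i] d₀ = Δ.rotV^[j] d₀ := ⟨j, rfl⟩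
    simp only [u]
    rw [dif_pos h]
    exact hE' _ _ h.choose_spec
  refine ⟨u, hu, fun d hd => ?_, fun d => ?_⟩
  · by_cases h : ∃ j, Δ.rotV^[j] d₀ = d
    · obtain ⟨j, rfl⟩ := h
      exact ⟨j % L, Nat.mod_lt _ hL, Function.iterate_mod_minimalPeriod_eq⟩
    · exact absurd (dif_neg h) hd
  · by_cases h : ∃ j, Δ.rotV^[j] d₀ = d
    · obtain ⟨j, rfl⟩ := h
      rw [← Function.iterate_succ_apply' Δ.rotV j d₀, hu, hu]
      simp only [E]
      rw [T6_Θ_succ, ← exp_add]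
      push_cast
      ring_nf
    · have h' : ¬ ∃ j, Δ.rotV^[j] d₀ = Δ.rotV d := by
        rintro ⟨j, hj⟩
        refine h ⟨j + (L - 1), Δ.rotV.injective ?_⟩
        rw [← Function.iterate_succ_apply' Δ.rotV, ← hj, Nat.succ_eq_add_one, add_assoc,
          Nat.sub_add_cancel hL, Function.iterate_add_apply, hper]
      simp only [u]
      rw [dif_neg h, dif_neg h', zero_mul]

end FlatTri
end Pool.Agent.Work.MP_563a32_gt
end

-- merged part: Pool.Agent.Work.MP_563a32_gt.T6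
section
/-! The cone chart at a vertex.

Plan. Let `L` be the minimal period of `d₀` under `rotV`, `d j = rotV^[j] d₀ = (t j, k j)`
(distinct for `j < L`, and these are all `d` with `vtx d = vtx d₀` by `vtx_eq`), and `p` the count
of `Θ_period`, positive as `Θ` increases. Fix `ρ > 0` such that in every triangle the closed
`ρ`-balls around the vertices are disjoint and the one around `pos t k` misses the side
`(t, k + 1)`. For `z` in `tri (t j)` with `‖z - st (d j)‖ ≤ ρ` put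
`g j z = ‖z - st‖ ^ (2 / p) * exp (2 / p * (Θ d₀ j + arg ((z - st) / (en - st))) * I)`; on the
corner the argument lies in `[0, ang]`, so `g j` is continuous there (at the vertex by the norm),
`g j z ^ p = (z - st) ^ 2` by `Θ_dir`, and `g j` and `g (j + 1)` agree along the common side (for
`j + 1 = L` use `Θ_period`). Multiply by a continuous cut-off of `‖z - st‖` that is `1` up to
`ρ / 2` and `0` from `ρ` on, sum over the corners of a triangle in the orbit, and `lift`: this is a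
continuous `ψ` on the surface. On the compact set `N` of points within `ρ / 2` of a corner of the
orbit `ψ` is injective (norm, then angle modulo `2 π`, `pt_glue`) with image the closed disc of
radius `(ρ / 2) ^ (2 / p)`; the set `N°` (distance `< ρ / 2`) is open (`isOpen_iff`) and is mapped
onto the open disc; a continuous injection of the compact `N` is an embedding, so `ψ` on `N°` is an
open map. Use `OpenPartialHomeomorph.ofContinuousOpenRestrict`. -/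

namespace Pool.Agent.Work.MP_563a32_gt
namespace FlatTri
open Filter Topology Complex

theorem T6_chart {S : Type} [TopologicalSpace S] [CompactSpace S] [Nonempty S] {ψ : S → ℂ}
    (hψ : Continuous ψ) {N W : Set S} (hN : IsClosed N) (hW : IsOpen W) (hWN : W ⊆ N)
    (hi : Set.InjOn ψ N) (ho : IsOpen (ψ '' W)) :
    ∃ e : OpenPartialHomeomorph S ℂ, e.source = W ∧ ⇑e = ψ := by
  refine ⟨OpenPartialHomeomorph.ofContinuousOpenRestrict
    (Set.InjOn.toPartialEquiv ψ W (hi.mono hWN)) hψ.continuousOn ?_ hW, rfl, rfl⟩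
  intro U hU
  obtain ⟨V, hV, rfl⟩ := isOpen_induced_iff.1 hU
  have h : (Set.InjOn.toPartialEquiv ψ W (hi.mono hWN)).source.domRestrict
      (Set.InjOn.toPartialEquiv ψ W (hi.mono hWN)) '' (Subtype.val ⁻¹' V) =
      ψ '' W \ ψ '' (N \ V) := by
    ext w
    constructor
    · rintro ⟨⟨y, hy⟩, hyV, rfl⟩
      refine ⟨⟨y, hy, rfl⟩, ?_⟩
      rintro ⟨y', hy', e⟩
      have : y' = y := hi hy'.1 (hWN hy) e
      exact hy'.2 (this ▸ hyV)
    · rintro ⟨⟨y, hy, rfl⟩, h⟩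
      refine ⟨⟨y, hy⟩, ?_, rfl⟩
      by_contra hyV
      exact h ⟨y, ⟨hWN hy, hyV⟩, rfl⟩
  rw [h]
  exact ho.sdiff ((hN.sdiff hV).isCompact.image hψ).isClosed

variable {T : Type} [Fintype T] [DecidableEq T] (Δ : FlatTri T)

open Classical in
theorem T6_card (d₀ : T × Fin 3) :
    ((Finset.range (Function.minimalPeriod Δ.rotV d₀)).filter
      fun j => Δ.Mid (Δ.rotV^[j] d₀)).card =
      (Finset.univ.filter fun d => Δ.Mid d ∧ Δ.vtx d = Δ.vtx d₀).card := by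
  have hL : 0 < Function.minimalPeriod Δ.rotV d₀ :=
    Function.minimalPeriod_pos_of_mem_periodicPts (Δ.rotV.injective.mem_periodicPts d₀)
  refine Finset.card_bij (fun j _ => Δ.rotV^[j] d₀) (fun j hj => ?_) (fun i hi j hj h => ?_)
    (fun d hd => ?_)
  · exact Finset.mem_filter.2 ⟨Finset.mem_univ _, (Finset.mem_filter.1 hj).2, Δ.T6_vtx_iter d₀ j⟩
  · exact (Function.iterate_eq_iterate_iff_of_lt_minimalPeriod
      (Finset.mem_range.1 (Finset.mem_filter.1 hi).1)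
      (Finset.mem_range.1 (Finset.mem_filter.1 hj).1)).1 h
  · obtain ⟨-, h1, h2⟩ := Finset.mem_filter.1 hd
    obtain ⟨i, -, hi⟩ := ((Δ.vtx_eq _ _).1 h2.symm).exists_pow_eq'
    have h3 : Δ.rotV^[i % Function.minimalPeriod Δ.rotV d₀] d₀ = d := by
      rw [Function.iterate_mod_minimalPeriod_eq, ← hi, Equiv.Perm.coe_pow]
    exact ⟨_, Finset.mem_filter.2 ⟨Finset.mem_range.2 (Nat.mod_lt _ hL), h3.symm ▸ h1⟩, h3⟩

omit [Fintype T] [DecidableEq T] in
theorem T6_sq (d₀ : T × Fin 3) (j : ℕ) (r a : ℝ) :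
    (Δ.T6ray (Δ.rotV^[j] d₀) r a - Δ.st (Δ.rotV^[j] d₀)) ^ 2 =
      (r : ℂ) ^ 2 * exp ((Δ.Θ d₀ j + a) * I) ^ 2 := by
  obtain ⟨ε, hε, h⟩ := Δ.Θ_dir d₀ j
  have ha : (‖Δ.en (Δ.rotV^[j] d₀) - Δ.st (Δ.rotV^[j] d₀)‖ : ℂ) ≠ 0 :=
    ofReal_ne_zero.2 (norm_ne_zero_iff.2 (Δ.T6_a_ne _))
  have h2 : ε ^ 2 = 1 := by rcases hε with rfl | rfl <;> norm_num
  rw [T6_ray_sub]
  generalize ‖Δ.en (Δ.rotV^[j] d₀) - Δ.st (Δ.rotV^[j] d₀)‖ = A at h ha
  rw [h, add_mul, exp_add]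
  push_cast
  field_simp
  rw [h2, one_mul]

open Classical in
theorem exists_cone (d₀ : T × Fin 3) : ∃ (p : ℕ) (ψ : OpenPartialHomeomorph Δ.Surf ℂ),
    1 ≤ p ∧ p = (Finset.univ.filter fun d => Δ.Mid d ∧ Δ.vtx d = Δ.vtx d₀).card ∧
    Δ.vtx d₀ ∈ ψ.source ∧ ψ (Δ.vtx d₀) = 0 ∧
    ∀ t, ∀ z ∈ Δ.tri t, Δ.pt t z ∈ ψ.source → ∃ k, ψ (Δ.pt t z) ^ p = (z - Δ.pos t k) ^ 2 := by
  have := Δ.compactSpace
  have : Nonempty Δ.Surf := ⟨Δ.vtx d₀⟩
  have hcard := Δ.T6_card d₀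
  have hper := Δ.Θ_period d₀ (Function.iterate_minimalPeriod (f := Δ.rotV) (x := d₀))
  have hex := fun c => Δ.T6_exists_u d₀ (c := c)
  have hL : 0 < Function.minimalPeriod Δ.rotV d₀ :=
    Function.minimalPeriod_pos_of_mem_periodicPts (Δ.rotV.injective.mem_periodicPts d₀)
  generalize Function.minimalPeriod Δ.rotV d₀ = L at hcard hper hex hL
  generalize ((Finset.range L).filter fun j => Δ.Mid (Δ.rotV^[j] d₀)).card = p at hcard hper
  have hmono := Δ.T6_Θ_mono d₀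
  have hp : (0 : ℝ) < p := by
    have := hmono hL
    rw [hper] at this
    exact (mul_pos_iff_of_pos_right Real.pi_pos).1 (by linarith)
  have hp' : p ≠ 0 := by exact_mod_cast hp.ne'
  set c : ℝ := 2 / p with hcdef
  have hc0 : 0 < c := by positivity
  have hcp : c * p = 2 := by rw [hcdef]; field_simp
  have hcL : c * (Δ.Θ d₀ L - Δ.Θ d₀ 0) = 2 * Real.pi := by
    rw [hper, add_sub_cancel_left, ← mul_assoc, hcp]
  obtain ⟨u, hu, hu0, hur⟩ := hex c hcL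
  obtain ⟨ρ, hρ0, hρ⟩ := Δ.T6_exists_small
  obtain ⟨G, hG, hG1, hG0⟩ := Δ.T6_lift (u := u) (c := c) (ρ := ρ)
    (κ := fun r => max 0 (min r (ρ - r)) ^ c) hρ
    ((continuous_const.max (continuous_id.min (continuous_const.sub continuous_id))).rpow_const
      fun _ => Or.inr hc0.le)
    (by rw [sub_zero, min_eq_left hρ0.le, max_self, Real.zero_rpow hc0.ne'])
    (fun r hr => by
      rw [max_eq_left ((min_le_right _ _).trans (by linarith)), Real.zero_rpow hc0.ne']) hur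
  have hG2 : ∀ j r a, 0 ≤ r → r ≤ ρ / 2 → 0 ≤ a → a ≤ Δ.ang (Δ.rotV^[j] d₀) →
      G (Δ.pt (Δ.rotV^[j] d₀).1 (Δ.T6ray (Δ.rotV^[j] d₀) r a)) =
        (ρ - r, ((r ^ c : ℝ) : ℂ) * exp ((c * (Δ.Θ d₀ j + a) : ℝ) * I)) := by
    intro j r a h0 h1 h2 h3
    rw [hG1 _ r a h0 (by linarith) h2 h3, hu, norm_exp_ofReal_mul_I, one_mul,
      min_eq_left (by linarith), max_eq_right h0, ← exp_add]
    push_cast
    ring_nf
  have hR0 : ∀ t, ∀ z ∈ Δ.tri t, ρ / 2 ≤ (G (Δ.pt t z)).1 → ∃ j < L, ∃ r a, 0 ≤ r ∧ r ≤ ρ / 2 ∧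
      0 ≤ a ∧ a ≤ Δ.ang (Δ.rotV^[j] d₀) ∧ t = (Δ.rotV^[j] d₀).1 ∧
      z = Δ.T6ray (Δ.rotV^[j] d₀) r a := by
    intro t z hz h
    by_cases h1 : ∀ k, ρ ≤ ‖z - Δ.st (t, k)‖
    · rw [hG0 t z hz h1, Prod.fst_zero] at h
      linarith
    push Not at h1
    obtain ⟨k, hk⟩ := h1
    obtain ⟨h2, h3⟩ := Δ.T6_arg_mem (t, k) hz
    have h4 := Δ.T6_eq_ray (t, k) z
    have h5 : 0 ≤ ‖z - Δ.st (t, k)‖ := norm_nonneg _
    generalize arg ((z - Δ.st (t, k)) / (Δ.en (t, k) - Δ.st (t, k))) = a at h2 h3 h4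
    generalize ‖z - Δ.st (t, k)‖ = r at hk h4 h5
    have h6 := hG1 (t, k) r a h5 hk.le h2 h3
    rw [← h4] at h6
    rw [h6] at h
    dsimp only at h
    have h7 : u (t, k) ≠ 0 := fun e => by
      rw [e, norm_zero, zero_mul] at h
      linarith
    obtain ⟨j, hj, e⟩ := hu0 _ h7
    rw [← e, hu, norm_exp_ofReal_mul_I, one_mul] at h
    refine ⟨j, hj, r, a, h5, by linarith, h2, e.symm ▸ h3, by rw [e], e.symm ▸ h4⟩
  have hR1 : ∀ y, ρ / 2 ≤ (G y).1 → ∃ j < L, ∃ r a, 0 ≤ r ∧ r ≤ ρ / 2 ∧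
      0 ≤ a ∧ a < Δ.ang (Δ.rotV^[j] d₀) ∧
      y = Δ.pt (Δ.rotV^[j] d₀).1 (Δ.T6ray (Δ.rotV^[j] d₀) r a) := by
    intro y h
    obtain ⟨t, z, hz, rfl⟩ := Δ.pt_surj y
    obtain ⟨j, hj, r, a, h0, h1, h2, h3, rfl, rfl⟩ := hR0 t z hz h
    rcases h3.lt_or_eq with h3 | rfl
    · exact ⟨j, hj, r, a, h0, h1, h2, h3, rfl⟩
    · have h4 : u (Δ.rotV (Δ.rotV^[j] d₀)) ≠ 0 := by
        rw [hur, hu]
        exact mul_ne_zero (exp_ne_zero _) (exp_ne_zero _)
      obtain ⟨j', hj', e⟩ := hu0 _ h4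
      refine ⟨j', hj', r, 0, h0, h1, le_rfl, (Δ.ang_mem _).1, ?_⟩
      have h5 := Δ.pt_glue (Δ.T6_ray_edge _ r hz)
      rw [T6_γ_ray] at h5
      rw [e]
      exact h5
  have hang : ∀ j < L, ∀ a, 0 ≤ a → a < Δ.ang (Δ.rotV^[j] d₀) →
      Δ.Θ d₀ 0 ≤ Δ.Θ d₀ j + a ∧ Δ.Θ d₀ j + a < Δ.Θ d₀ L := by
    intro j hj a h0 h1
    have h2 := hmono.monotone (Nat.zero_le j)
    have h3 := hmono.monotone (Nat.succ_le_of_lt hj)
    rw [Nat.succ_eq_add_one, T6_Θ_succ] at h3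
    constructor <;> linarith
  have hinj : Set.InjOn (fun y => (G y).2) {y | ρ / 2 ≤ (G y).1} := by
    intro y hy y' hy' e
    obtain ⟨j, hj, r, a, h0, h1, h2, h3, rfl⟩ := hR1 y hy
    obtain ⟨j', hj', r', a', h0', h1', h2', h3', rfl⟩ := hR1 y' hy'
    dsimp only at e
    rw [hG2 j r a h0 h1 h2 h3.le, hG2 j' r' a' h0' h1' h2' h3'.le] at e
    dsimp only at e
    have e1 := congrArg norm e
    rw [norm_mul, norm_mul, norm_exp_ofReal_mul_I, norm_exp_ofReal_mul_I, norm_real, norm_real,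
      mul_one, mul_one, Real.norm_of_nonneg (Real.rpow_nonneg h0 c),
      Real.norm_of_nonneg (Real.rpow_nonneg h0' c)] at e1
    obtain rfl : r = r' := Real.rpow_left_injOn hc0.ne' h0 h0' e1
    rcases h0.eq_or_lt with rfl | hr
    · rw [T6_ray_zero, T6_ray_zero]
      exact (Δ.T6_vtx_iter d₀ j).trans (Δ.T6_vtx_iter d₀ j').symm
    have e2 := mul_left_cancel₀ (ofReal_ne_zero.2 (Real.rpow_pos_of_pos hr c).ne') e
    obtain ⟨n, hn⟩ := exp_eq_exp_iff_exists_int.1 e2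
    have e3 : c * (Δ.Θ d₀ j + a) = c * (Δ.Θ d₀ j' + a') + n * (2 * Real.pi) := by
      have := congrArg im hn
      simpa using this
    obtain ⟨b1, b2⟩ := hang j hj a h2 h3
    obtain ⟨b1', b2'⟩ := hang j' hj' a' h2' h3'
    have hn0 : n = 0 := by
      have n1 : (n : ℝ) * (2 * Real.pi) < 1 * (2 * Real.pi) := by nlinarith
      have n2 : (-1 : ℝ) * (2 * Real.pi) < n * (2 * Real.pi) := by nlinarith
      have n3 : n < 1 := by exact_mod_cast lt_of_mul_lt_mul_right n1 Real.two_pi_pos.le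
      have n4 : -1 < n := by exact_mod_cast lt_of_mul_lt_mul_right n2 Real.two_pi_pos.le
      omega
    rw [hn0, Int.cast_zero, zero_mul, add_zero] at e3
    have e4 := mul_left_cancel₀ hc0.ne' e3
    have key : ∀ i i' b b', 0 ≤ b' → b < Δ.ang (Δ.rotV^[i] d₀) → Δ.Θ d₀ i + b = Δ.Θ d₀ i' + b' →
        i' ≤ i := by
      intro i i' b b' hb' hb h
      by_contra hlt
      have h3 := hmono.monotone (Nat.succ_le_of_lt (not_le.1 hlt))
      rw [Nat.succ_eq_add_one, T6_Θ_succ] at h3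
      linarith
    obtain rfl : j = j' := le_antisymm (key j' j a' a h2 h3' e4.symm) (key j j' a a' h2' h3 e4)
    obtain rfl : a = a' := add_left_cancel e4
    rfl
  have himg : (fun y => (G y).2) '' {y | ρ / 2 < (G y).1} = Metric.ball 0 ((ρ / 2) ^ c) := by
    ext w
    rw [mem_ball_zero_iff]
    constructor
    · rintro ⟨y, hy, rfl⟩
      obtain ⟨j, hj, r, a, h0, h1, h2, h3, rfl⟩ := hR1 y (le_of_lt hy)
      rw [Set.mem_ofPred_eq, hG2 j r a h0 h1 h2 h3.le] at hy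
      dsimp only at hy ⊢
      rw [hG2 j r a h0 h1 h2 h3.le]
      dsimp only
      rw [norm_mul, norm_exp_ofReal_mul_I, norm_real, mul_one,
        Real.norm_of_nonneg (Real.rpow_nonneg h0 c)]
      exact Real.rpow_lt_rpow h0 (by linarith) hc0
    · intro hw
      have h0 : 0 ≤ ‖w‖ ^ c⁻¹ := Real.rpow_nonneg (norm_nonneg w) _
      have h1 : (‖w‖ ^ c⁻¹) ^ c = ‖w‖ := Real.rpow_inv_rpow (norm_nonneg w) hc0.ne'
      have h2 : ‖w‖ ^ c⁻¹ < ρ / 2 := by
        rw [← Real.rpow_lt_rpow_iff h0 (by linarith) hc0, h1]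
        exact hw
      obtain ⟨b1, b2⟩ := toIcoMod_mem_Ico Real.two_pi_pos (c * Δ.Θ d₀ 0) (arg w)
      have b3 := toIcoMod_add_toIcoDiv_zsmul Real.two_pi_pos (c * Δ.Θ d₀ 0) (arg w)
      generalize toIcoMod Real.two_pi_pos (c * Δ.Θ d₀ 0) (arg w) = β at b1 b2 b3
      generalize toIcoDiv Real.two_pi_pos (c * Δ.Θ d₀ 0) (arg w) = n at b3
      obtain ⟨j, hj, b4, b5⟩ := T6_sector (f := Δ.Θ d₀) (φ := β / c) (L := L)
        (by rw [le_div_iff₀ hc0]; linarith) (by rw [div_lt_iff₀ hc0]; linarith)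
      rw [T6_Θ_succ] at b5
      have h3 := hG2 j (‖w‖ ^ c⁻¹) (β / c - Δ.Θ d₀ j) h0 h2.le (by linarith) (by linarith)
      generalize Δ.pt (Δ.rotV^[j] d₀).1
        (Δ.T6ray (Δ.rotV^[j] d₀) (‖w‖ ^ c⁻¹) (β / c - Δ.Θ d₀ j)) = y at h3
      refine ⟨y, ?_, ?_⟩
      · rw [Set.mem_ofPred_eq, h3]
        dsimp only
        linarith
      · dsimp only
        rw [h3]
        dsimp only
        rw [h1, add_sub_cancel, mul_div_cancel₀ _ hc0.ne']
        conv_rhs => rw [← norm_mul_exp_arg_mul_I w, ← b3]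
        congr 1
        refine (exp_eq_exp_iff_exists_int.2 ⟨n, ?_⟩).symm
        rw [zsmul_eq_mul]
        push_cast
        ring
  obtain ⟨ψ, hs, hψ⟩ := T6_chart (ψ := fun y => (G y).2) hG.snd
    (isClosed_le continuous_const hG.fst) (isOpen_lt continuous_const hG.fst)
    (fun y (hy : ρ / 2 < (G y).1) => (hy.le : ρ / 2 ≤ (G y).1)) hinj (himg ▸ Metric.isOpen_ball)
  have hv := hG2 0 0 0 le_rfl (by linarith) le_rfl (Δ.ang_mem _).1.le
  rw [T6_ray_zero, Function.iterate_zero_apply] at hv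
  change G (Δ.vtx d₀) = _ at hv
  refine ⟨p, ψ, Nat.one_le_iff_ne_zero.2 hp', hcard, ?_, ?_, fun t z hz h => ?_⟩
  · rw [hs, Set.mem_ofPred_eq, hv]
    dsimp only
    linarith
  · rw [hψ]
    dsimp only
    rw [hv, Real.zero_rpow hc0.ne']
    simp
  · rw [hs] at h
    obtain ⟨j, hj, r, a, h0, h1, h2, h3, rfl, rfl⟩ := hR0 t z hz (le_of_lt h)
    refine ⟨(Δ.rotV^[j] d₀).2, ?_⟩
    rw [hψ]
    dsimp only
    rw [hG2 j r a h0 h1 h2 h3]
    refine Eq.trans ?_ (Δ.T6_sq d₀ j r a).symm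
    dsimp only
    rw [mul_pow, ← ofReal_pow, ← Real.rpow_mul_natCast h0, hcp, ← exp_nat_mul, ← exp_nat_mul,
      Real.rpow_two, ofReal_pow]
    congr 2
    have : (c : ℂ) * p = 2 := by exact_mod_cast hcp
    push_cast
    linear_combination ((Δ.Θ d₀ j : ℂ) + a) * I * this

end FlatTri
end Pool.Agent.Work.MP_563a32_gt
end

-- merged part: Pool.Agent.Work.MP_563a32_gt.T7
section
/-! The flat structure of the glued surface.

Plan. Charts indexed by darts from `exists_chart`; a point of a triangle that is not a vertex lies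
on at most one side (`mem_side`, `eq_sum_bar`), which gives `cover`. `trans` is `affine_of` for the
identity with `lam = 1`. For a vertex `x` choose a dart `d₀` with `vtx d₀ = x` and use
`exists_cone`, `cone_of`; elsewhere take any chart and `0` prongs. -/

namespace Pool.Agent.Work.MP_563a32_gt
namespace FlatTri
open Filter Topology

variable {T : Type} [Fintype T] [DecidableEq T] (Δ : FlatTri T)

omit [Fintype T] [DecidableEq T] in
theorem T7_vertex {p : Fin 3 → ℂ} (h : 0 < area p) {z : ℂ} {i j : Fin 3} (hij : i ≠ j)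
    (hi : bar p i z = 0) (hj : bar p j z = 0) : ∃ m, z = p m := by
  have h1 := sum_bar h z
  have h2 := eq_sum_bar h z
  have h3 : j = i + 1 ∨ j = i + 2 :=
    (by decide : ∀ i j : Fin 3, i ≠ j → j = i + 1 ∨ j = i + 2) i j hij
  rw [T1_sum _ i, hi] at h1 h2
  rcases h3 with rfl | rfl
  · rw [hj] at h1 h2
    have e : bar p (i + 2) z = 1 := by linarith
    rw [e] at h2
    exact ⟨i + 2, by simpa using h2⟩
  · rw [hj] at h1 h2
    have e : bar p (i + 1) z = 1 := by linarith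
    rw [e] at h2
    exact ⟨i + 1, by simpa using h2⟩

omit [Fintype T] [DecidableEq T] in
theorem T7_side {t : T} {z : ℂ} (hv : ∀ k, z ≠ Δ.pos t k) :
    ∃ k, ∀ k', k' ≠ k → z ∉ Δ.edge (t, k') := by
  by_contra hc
  push Not at hc
  obtain ⟨k₁, -, h₁⟩ := hc 0
  obtain ⟨k₂, hne, h₂⟩ := hc k₁
  have a₁ := ((mem_side (Δ.area_pos t) k₁ z).1 h₁).2
  have a₂ := ((mem_side (Δ.area_pos t) k₂ z).1 h₂).2
  obtain ⟨m, hm⟩ := T7_vertex (Δ.area_pos t) (fun e => hne (add_right_cancel e)) a₂ a₁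
  exact hv m hm

omit [Fintype T] [DecidableEq T] in
theorem T7_id : Δ.Pieces id 1 := by
  refine ⟨{(1, 0)}, Set.finite_singleton _, fun e he => ?_, fun t z hz => ⟨t, (1, 0), rfl, ?_, ?_⟩⟩
  · rw [Set.mem_singleton_iff.1 he]
    exact Or.inl rfl
  · simpa [diag_one] using hz
  · simp [diag_one]

open Classical in
theorem exists_flat [Nonempty T] : ∃ Φ : Flat Δ.Surf, (∀ y, y ∈ Φ.sing ↔ ∃ d, y = Δ.vtx d) ∧
    (∀ d₀, Φ.prongs (Δ.vtx d₀) =
      (Finset.univ.filter fun d => Δ.Mid d ∧ Δ.vtx d = Δ.vtx d₀).card) ∧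
    ∀ (F : Δ.Surf → Δ.Surf) (lam : ℝ), Continuous F → 0 < lam → Δ.Pieces F lam →
      Φ.Affine F lam := by
  choose φ hφ using Δ.exists_chart
  have hc : ∀ x : Δ.Surf, ∃ ψ : OpenPartialHomeomorph Δ.Surf ℂ, (∃ d, x = Δ.vtx d) →
      1 ≤ (Finset.univ.filter fun d => Δ.Mid d ∧ Δ.vtx d = x).card ∧ x ∈ ψ.source ∧ ψ x = 0 ∧
      ∀ t, ∀ z ∈ Δ.tri t, Δ.pt t z ∈ ψ.source → ∃ k,
        ψ (Δ.pt t z) ^ (Finset.univ.filter fun d => Δ.Mid d ∧ Δ.vtx d = x).card =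
          (z - Δ.pos t k) ^ 2 := by
    intro x
    by_cases hx : ∃ d, x = Δ.vtx d
    · obtain ⟨d, rfl⟩ := hx
      obtain ⟨p, ψ, h1, rfl, h3, h4, h5⟩ := Δ.exists_cone d
      exact ⟨ψ, fun _ => ⟨h1, h3, h4, h5⟩⟩
    · exact ⟨φ (Classical.arbitrary T, 0), fun h => absurd h hx⟩
  choose ψ hψ using hc
  have hs : ∀ y, y ∈ Finset.univ.image Δ.vtx ↔ ∃ d, y = Δ.vtx d := by
    intro y
    simp only [Finset.mem_image, Finset.mem_univ, true_and, eq_comm]
  refine ⟨{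
    sing := Finset.univ.image Δ.vtx
    ι := T × Fin 3
    chart := φ
    cover := fun y hy => ?_
    reg := fun d y hy hm => ?_
    trans := fun d d' y hy hy' => ?_
    prongs := fun x => (Finset.univ.filter fun d => Δ.Mid d ∧ Δ.vtx d = x).card
    cone := ψ
    cone_mem := fun x hx => (hψ x ((hs x).1 hx)).2.1
    cone_zero := fun x hx => (hψ x ((hs x).1 hx)).2.2.1
    prongs_pos := fun x hx => (hψ x ((hs x).1 hx)).1
    cone_eq := fun x hx d y hy hy' => Δ.cone_of (hφ d) (hψ x ((hs x).1 hx)).2.2.2 hy hy' },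
    hs, fun _ => rfl, fun F lam hF hl hP d d' y hy hy' =>
      Δ.affine_of (hφ d) (hφ d') hF hl hP hy hy'⟩
  · obtain ⟨t, z, hz, rfl⟩ := Δ.pt_surj y
    obtain ⟨k, hk⟩ := Δ.T7_side (t := t) (z := z) fun k e =>
      hy ((hs _).2 ⟨(t, k), by rw [e]; rfl⟩)
    exact ⟨(t, k), (hφ (t, k)).2.1 z hz hk⟩
  · obtain ⟨d', e⟩ := (hs y).1 hm
    exact (hφ d).1 y hy d' e
  · obtain ⟨ε, c, h1, h2⟩ :=
      Δ.affine_of (hφ d) (hφ d') continuous_id one_pos Δ.T7_id hy hy'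
    exact ⟨ε, c, h1, by simpa only [id, diag_one] using h2⟩

end FlatTri
end Pool.Agent.Work.MP_563a32_gt
end
end
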