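import Mathlib
import Pool.Agent.Work.MP_563a32_gt.Defs

-- merged part: Pool.Agent.Work.MP_563a32_gt.B0
section
/-! Self-similar linear involutions: the horizontal return map to a union of vertical prongs.
A point `(q, t)` stands for the point at height `t` above (or below) the start of the horizontal
prong `q`, looking to the right. -/

namespace Pool.Agent.Work.MP_563a32_gt
open Filter Topology Finset

structure LinData (Pr X : Type) where
  rot : Equiv.Perm Pr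
  σ : Equiv.Perm Pr
  fX : Equiv.Perm X
  base : Pr → X
  lam : ℝ
  len : Pr → ℝ
  tip : Pr → Pr × ℝ
  T : Pr × ℝ → Pr × ℝ
  w : Pr × ℝ → ℝ
  L : Pr × ℝ → Option Pr

namespace LinData
variable {Pr X : Type} (D : LinData Pr X)

def B (b : Pr × ℝ) : Prop := -D.len (D.rot b.1) < b.2 ∧ b.2 < D.len b.1

def Good (b : Pr × ℝ) : Prop := D.B b ∧ b.2 ≠ 0 ∧ ∀ q, b ≠ D.tip q

noncomputable def N (b : Pr × ℝ) : Pr × ℝ :=
  if 0 < b.2 then (D.rot⁻¹ b.1, -b.2) else (D.rot b.1, -b.2)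

noncomputable def φ (b : Pr × ℝ) : Pr × ℝ := (D.σ⁻¹ b.1, b.2 / D.lam)

noncomputable def Ret (b : Pr × ℝ) : Pr × ℝ := D.N (D.T b)

def InPhi (b : Pr × ℝ) : Prop := ∃ b', D.B b' ∧ b = D.φ b'

def Reach (b : Pr × ℝ) : Prop := ∃ m, (∀ j < m, D.Good (D.Ret^[j] b)) ∧ D.InPhi (D.Ret^[m] b)

/-- `m` is the return number of `b`. -/
def Renorm (b : Pr × ℝ) (m : ℕ) : Prop :=
  1 ≤ m ∧ (∀ j < m, D.Good (D.Ret^[j] (D.φ b))) ∧
    (∀ j, 0 < j → j < m → ¬ D.InPhi (D.Ret^[j] (D.φ b))) ∧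
    D.T (D.Ret^[m - 1] (D.φ b)) = D.φ (D.T b) ∧
    ∑ j ∈ range m, D.w (D.Ret^[j] (D.φ b)) = D.lam * D.w b

structure Ax : Prop where
  ne_Pr : Nonempty Pr
  rot_σ : ∀ q, D.rot (D.σ q) = D.σ (D.rot q)
  base_rot : ∀ q, D.base (D.rot q) = D.base q
  base_σ : ∀ q, D.base (D.σ q) = D.fX (D.base q)
  rot_trans : ∀ q q', D.base q = D.base q' → ∃ k : ℕ, (D.rot ^ k) q = q'
  one_lt : 1 < D.lam
  len_pos : ∀ q, 0 < D.len q
  len_σ : ∀ q, D.len q ≤ D.lam * D.len (D.σ⁻¹ q)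
  tip_B : ∀ q, D.B (D.tip q)
  tip_ne : ∀ q, (D.tip q).2 ≠ 0
  tip_inj : Function.Injective D.tip
  T_good : ∀ b, D.Good b → D.Good (D.T b)
  T_T : ∀ b, D.Good b → D.T (D.T b) = b
  T_ne : ∀ b, D.Good b → D.T b ≠ b
  w_pos : ∀ b, D.Good b → 0 < D.w b
  w_T : ∀ b, D.Good b → D.w (D.T b) = D.w b
  T_loc : ∀ q t, D.Good (q, t) → ∀ᶠ s in 𝓝 t,
    D.T (q, s) = ((D.T (q, t)).1, (D.T (q, t)).2 + t - s) ∧ D.w (q, s) = D.w (q, t)
  renorm : ∀ b, D.Good b → ∃ m, D.Renorm b m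
  renorm_tip : ∀ q, ∃ m, (∀ j < m, D.Good (D.Ret^[j] (D.φ (D.tip q)))) ∧
    (∀ j, 0 < j → j ≤ m → ¬ D.InPhi (D.Ret^[j] (D.φ (D.tip q)))) ∧
    ¬ D.Good (D.Ret^[m] (D.φ (D.tip q)))
  L_zero : ∀ q, D.L (q, 0) = some q
  L_tip : ∀ q, D.L (D.tip q) ≠ none
  L_end : ∀ q, D.L (q, D.len q) ≠ none
  L_N : ∀ b : Pr × ℝ, b.2 ≠ 0 → D.L (D.N b) = D.L b
  L_φ : ∀ b, D.L (D.φ b) = (D.L b).map (fun q => D.σ⁻¹ q)
  L_bdry : ∀ q q' (α β c : ℝ), α < β →
    (∀ t ∈ Set.Ioo α β, D.Good (q, t) ∧ D.T (q, t) = (q', c - t)) →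
    D.L (q, β) = D.L (q', c - β)
  reach : ∀ b, D.B b → b.2 ≠ 0 → D.Reach b ∨ D.Reach (D.N b)
  conn : ∀ u : X → ℂ, (∀ b, D.Good b → u (D.base (D.T b).1) = u (D.base b.1)) →
    ∀ x y, u x = u y

variable [Fintype Pr] [DecidableEq Pr]

open Classical in
/-- The cut points of the vertical segment through the start of the prong `q`. -/
noncomputable def cuts (q : Pr) : Finset ℝ :=
  {-D.len (D.rot q), 0, D.len q} ∪
    (univ.filter fun p => (D.tip p).1 = q).image fun p => (D.tip p).2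

/-- The intervals between consecutive cut points, named by their lower ends. -/
def I : Type := {b : Pr × ℝ // b.2 ∈ D.cuts b.1 ∧ b.2 < D.len b.1}

variable {D}

def I.pr (i : D.I) : Pr := i.1.1
def I.lo (i : D.I) : ℝ := i.1.2
noncomputable def I.hi (i : D.I) : ℝ := sInf {β | β ∈ D.cuts i.pr ∧ i.lo < β}
noncomputable def I.mid (i : D.I) : Pr × ℝ := (i.pr, (i.lo + i.hi) / 2)
def I.Mem (i : D.I) (b : Pr × ℝ) : Prop := b.1 = i.pr ∧ i.lo < b.2 ∧ b.2 < i.hi

instance : Finite D.I := by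
  classical
  have : {b : Pr × ℝ | b.2 ∈ D.cuts b.1 ∧ b.2 < D.len b.1}.Finite := by
    refine (Finset.finite_toSet (univ.biUnion fun q : Pr => (D.cuts q).image fun t => (q, t))).subset ?_
    rintro ⟨q, t⟩ ⟨h, -⟩
    simp only [coe_biUnion, coe_univ, Set.mem_univ, coe_image, Set.iUnion_true, Set.mem_iUnion,
      Set.mem_image, mem_coe]
    exact ⟨q, t, h, rfl⟩
  exact this.to_subtype

noncomputable instance : Fintype D.I := Fintype.ofFinite _
noncomputable instance : DecidableEq D.I := Classical.decEq _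

/-- The interval that starts at height zero. -/
def Ax.first (A : D.Ax) (q : Pr) : D.I :=
  ⟨(q, 0), by simp [cuts], A.len_pos q⟩

open Classical in
/-- The interval that contains `b`. -/
noncomputable def Ax.intv (A : D.Ax) (b : Pr × ℝ) : D.I :=
  if h : ∃ i : D.I, i.Mem b then h.choose else A.first b.1

noncomputable def Ax.TI (A : D.Ax) (i : D.I) : D.I := A.intv (D.T i.mid)

open Classical in
noncomputable def I.m (i : D.I) : ℕ := if h : ∃ m, D.Renorm i.mid m then h.choose else 0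

/-- The interval met at step `k` by the preimage of the rectangle over `i`. -/
noncomputable def Ax.J (A : D.Ax) (i : D.I) (k : ℕ) : D.I := A.intv (D.Ret^[k] (D.φ i.mid))

/-- The offset at step `k`. -/
noncomputable def I.e (i : D.I) (k : ℕ) : ℝ := (D.Ret^[k] (D.φ i.mid)).2 - i.mid.2 / D.lam

noncomputable def Ax.M (A : D.Ax) : Matrix D.I D.I ℕ :=
  fun j i => ((range i.m).filter fun k => A.J i k = j).card

noncomputable def I.top (i : D.I) : Pr := (D.L (i.pr, i.hi)).getD i.pr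

end LinData
end Pool.Agent.Work.MP_563a32_gt
end

-- merged part: Pool.Agent.Work.MP_563a32_gt.B0b
section
/-! Elementary facts on `N` and `φ`, with the hypotheses spelled out. -/

namespace Pool.Agent.Work.MP_563a32_gt
namespace LinData

variable {Pr X : Type} {D : LinData Pr X}

theorem N_snd (b : Pr × ℝ) : (D.N b).2 = -b.2 := by
  unfold N; split_ifs <;> rfl

theorem N_N (b : Pr × ℝ) (hb : b.2 ≠ 0) : D.N (D.N b) = b := by
  obtain ⟨q, t⟩ := b
  rcases lt_or_gt_of_ne hb with h | h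
  · have h' : ¬ (0 : ℝ) < t := not_lt.mpr h.le
    have h'' : (0 : ℝ) < -t := neg_pos.mpr h
    simp only [N, h', if_false, h'', if_true]; simp
  · have h' : (0 : ℝ) < t := h
    have h'' : ¬ (0 : ℝ) < -t := by linarith
    simp only [N, h', if_true, h'', if_false]; simp

theorem N_B' (hl : ∀ q, 0 < D.len q) (b : Pr × ℝ) (hb : b.2 ≠ 0) (h : D.B b) :
    D.B (D.N b) := by
  obtain ⟨q, t⟩ := b
  obtain ⟨h1, h2⟩ := h
  simp only at h1 h2 hb
  by_cases ht : (0 : ℝ) < t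
  · simp only [N, ht, if_true, B]
    have := hl (D.rot⁻¹ q)
    constructor
    · simp; linarith
    · linarith
  · have ht' : t < 0 := lt_of_le_of_ne (not_lt.mp ht) hb
    simp only [N, ht, if_false, B]
    have := hl (D.rot (D.rot q))
    constructor <;> linarith

theorem rot_σ_inv (hr : ∀ q, D.rot (D.σ q) = D.σ (D.rot q)) (q : Pr) :
    D.rot (D.σ⁻¹ q) = D.σ⁻¹ (D.rot q) := by
  apply D.σ.injective
  rw [← hr]; simp

theorem rot_inv_σ_inv (hr : ∀ q, D.rot (D.σ q) = D.σ (D.rot q)) (q : Pr) :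
    D.rot⁻¹ (D.σ⁻¹ q) = D.σ⁻¹ (D.rot⁻¹ q) := by
  apply D.rot.injective
  rw [rot_σ_inv hr]; simp

theorem N_φ' (hr : ∀ q, D.rot (D.σ q) = D.σ (D.rot q)) (hl : 1 < D.lam) (b : Pr × ℝ) :
    D.N (D.φ b) = D.φ (D.N b) := by
  obtain ⟨q, t⟩ := b
  have hl0 : 0 < D.lam := by linarith
  by_cases ht : (0 : ℝ) < t
  · have : 0 < t / D.lam := div_pos ht hl0
    simp only [N, φ, ht, this, if_true, rot_inv_σ_inv hr, neg_div]
  · have : ¬ 0 < t / D.lam := fun h => ht (by rwa [div_pos_iff_of_pos_right hl0] at h)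
    simp only [N, φ, ht, this, if_false, rot_σ_inv hr, neg_div]

theorem base_N' (hb : ∀ q, D.base (D.rot q) = D.base q) (b : Pr × ℝ) :
    D.base (D.N b).1 = D.base b.1 := by
  unfold N; split_ifs
  · simpa using (hb (D.rot⁻¹ b.1)).symm
  · exact hb _

theorem φ_B' (hr : ∀ q, D.rot (D.σ q) = D.σ (D.rot q)) (hl : 1 < D.lam)
    (hs : ∀ q, D.len q ≤ D.lam * D.len (D.σ⁻¹ q)) (b : Pr × ℝ) (h : D.B b) : D.B (D.φ b) := by
  obtain ⟨q, t⟩ := b
  obtain ⟨h1, h2⟩ := h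
  simp only at h1 h2
  have hl0 : 0 < D.lam := by linarith
  simp only [B, φ, rot_σ_inv hr]
  constructor
  · rw [lt_div_iff₀ hl0]; have := hs (D.rot q); linarith only [h1, this]
  · rw [div_lt_iff₀ hl0]; have := hs q; linarith only [h2, this]

theorem Ax.N_B (A : D.Ax) (b : Pr × ℝ) (hb : b.2 ≠ 0) (h : D.B b) : D.B (D.N b) :=
  N_B' A.len_pos b hb h

theorem Ax.N_φ (A : D.Ax) (b : Pr × ℝ) : D.N (D.φ b) = D.φ (D.N b) :=
  N_φ' A.rot_σ A.one_lt b

theorem Ax.base_N (A : D.Ax) (b : Pr × ℝ) : D.base (D.N b).1 = D.base b.1 :=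
  base_N' A.base_rot b

theorem Ax.φ_B (A : D.Ax) (b : Pr × ℝ) (h : D.B b) : D.B (D.φ b) :=
  φ_B' A.rot_σ A.one_lt A.len_σ b h

end LinData
end Pool.Agent.Work.MP_563a32_gt
end

-- merged part: Pool.Agent.Work.MP_563a32_gt.D0
section
/-! Developing maps. For each horizontal prong `q`, `G q` develops the flat structure from the
start of `q`: along the positive real axis (the prong), along the two imaginary half axes (the two
neighbouring vertical prongs) and horizontally from these. -/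

namespace Pool.Agent.Work.MP_563a32_gt
open Filter Topology Complex

structure DevData (S Pr X : Type) where
  pt : X → S
  base : Pr → X
  rot : Equiv.Perm Pr
  σ : Equiv.Perm Pr
  fX : Equiv.Perm X
  G : Pr → ℂ → S
  Dom : Pr → Set ℂ
  r : ℝ
  lam : ℝ
  F : S → S

namespace DevData
variable {S Pr X : Type} (E : DevData S Pr X)

/-- The germ of `G q` at `w` is the germ of `G q'` at `w'`, turned by `ε`. -/
def Same (ε : ℂ) (q : Pr) (w : ℂ) (q' : Pr) (w' : ℂ) : Prop :=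
  w ∈ E.Dom q ∧ w' ∈ E.Dom q' ∧ ∀ᶠ z in 𝓝 (0 : ℂ), E.G q (w + z) = E.G q' (w' + ε * z)

structure Ax [TopologicalSpace S] : Prop where
  ne_Pr : Nonempty Pr
  rot_σ : ∀ q, E.rot (E.σ q) = E.σ (E.rot q)
  base_rot : ∀ q, E.base (E.rot q) = E.base q
  base_σ : ∀ q, E.base (E.σ q) = E.fX (E.base q)
  rot_trans : ∀ q q', E.base q = E.base q' → ∃ k : ℕ, (E.rot ^ k) q = q'
  r_pos : 0 < E.r
  one_lt : 1 < E.lam
  isOpen : ∀ q, IsOpen (E.Dom q)
  mem_slit : ∀ q, ∀ z ∈ slitPlane, ‖z‖ < E.r → z ∈ E.Dom q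
  mem_im : ∀ q (t : ℝ), t ≠ 0 → (t : ℂ) * I ∈ E.Dom q
  mem_re : ∀ q (s : ℝ), 0 < s → (s : ℂ) ∈ E.Dom q
  cont : ∀ q, ContinuousOn (E.G q) (E.Dom q)
  ne_pt : ∀ q, ∀ z ∈ E.Dom q, ∀ x, E.G q z ≠ E.pt x
  lim_re : ∀ q, Tendsto (fun s : ℝ => E.G q s) (𝓝[>] 0) (𝓝 (E.pt (E.base q)))
  lim_im : ∀ q, Tendsto (fun t : ℝ => E.G q (t * I)) (𝓝[>] 0) (𝓝 (E.pt (E.base q)))
  germ : ∀ q w q' w', w ∈ E.Dom q → w' ∈ E.Dom q' → E.G q w = E.G q' w' →
    E.Same 1 q w q' w' ∨ E.Same (-1) q w q' w'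
  locinj : ∀ q, ∀ w ∈ E.Dom q, ∃ U ∈ 𝓝 w, Set.InjOn (E.G q) U
  extend : ∀ ε q w q' w' (v : ℝ), (ε = 1 ∨ ε = -1) → w.im ≠ 0 → E.Same ε q w q' w' →
    (∀ s ∈ Set.uIcc 0 v, w' + ε * (s : ℝ) ∈ E.Dom q') → w + v ∈ E.Dom q
  convex : ∀ q (s t : ℝ), t ≠ 0 → (s : ℂ) + t * I ∈ E.Dom q →
    ∀ s' ∈ Set.uIcc 0 s, ((s' : ℝ) : ℂ) + t * I ∈ E.Dom q
  dich : ∀ q (t : ℝ), t ≠ 0 → (∀ s : ℝ, 0 ≤ s → (s : ℂ) + t * I ∈ E.Dom q) ∨
    ∃ (a : ℝ) (q' : Pr), 0 < a ∧ ∀ s : ℝ, 0 ≤ s → s < a →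
      E.Same (-1) q (s + t * I) q' ((a - s : ℝ) : ℂ)
  rot_dom : ∀ q (z : ℂ), 0 < z.im → (z ∈ E.Dom (E.rot q) ↔ -z ∈ E.Dom q)
  rot_G : ∀ q (z : ℂ), 0 < z.im → z ∈ E.Dom (E.rot q) → E.G (E.rot q) z = E.G q (-z)
  F_inj : Function.Injective E.F
  F_dom : ∀ q z, diag E.lam z ∈ E.Dom (E.σ q) ↔ z ∈ E.Dom q
  F_G : ∀ q, ∀ z ∈ E.Dom q, E.F (E.G q z) = E.G (E.σ q) (diag E.lam z)
  inj_re : ∀ q q' (s s' : ℝ), 0 < s → 0 < s' → E.G q s = E.G q' s' → q = q' ∧ s = s'
  inj_im : ∀ q q' (t t' : ℝ), 0 < t → 0 < t' → E.G q (t * I) = E.G q' (t' * I) →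
    q = q' ∧ t = t'
  cross : ∀ q q' (s t : ℝ), 0 < s → s < E.r → 0 < t → t < E.r → E.G q s ≠ E.G q' (t * I)
  hit_h : ∀ ℓ : ℝ, 0 < ℓ → ∃ L : ℝ, 0 < L ∧ ∀ q (w : ℂ),
    (∀ s ∈ Set.Icc 0 L, w + (s : ℝ) ∈ E.Dom q) →
    ∃ s ∈ Set.Icc 0 L, ∃ q', ∃ t ∈ Set.Ioc 0 ℓ, E.G q (w + (s : ℝ)) = E.G q' ((t : ℝ) * I)
  hit_v : ∀ ℓ : ℝ, 0 < ℓ → ∃ L : ℝ, 0 < L ∧ ∀ q (w : ℂ),
    (∀ s ∈ Set.Icc 0 L, w + (s : ℝ) * I ∈ E.Dom q) →
    ∃ s ∈ Set.Icc 0 L, ∃ q', ∃ t ∈ Set.Ioc 0 ℓ, E.G q (w + (s : ℝ) * I) = E.G q' (t : ℝ)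
  conn : ∀ ℓ : ℝ, 0 < ℓ → ∀ u : X → ℂ,
    (∀ q q' (s t s' t' : ℝ), t ≠ 0 → |t| < ℓ → t' ≠ 0 → |t'| < ℓ → (s : ℂ) + t * I ∈ E.Dom q →
      (s' : ℂ) + t' * I ∈ E.Dom q' → E.G q (s + t * I) = E.G q' (s' + t' * I) →
      u (E.base q) = u (E.base q')) → ∀ x y, u x = u y

/-- The short vertical prongs. -/
def V0 : Set S := {y | ∃ (q : Pr) (t : ℝ), 0 < t ∧ t ≤ E.r / 2 ∧ y = E.G q (t * I)}

/-- The length of the horizontal prong `q` up to its first point on a short vertical prong. -/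
noncomputable def aH (q : Pr) : ℝ := sInf {s : ℝ | 0 < s ∧ E.G q s ∈ E.V0}

def Hs : Set S := {y | ∃ (q : Pr) (s : ℝ), 0 < s ∧ s ≤ E.aH q ∧ y = E.G q s}

/-- The length of the vertical prong `q`, extended to its first point on `Hs`. -/
noncomputable def len (q : Pr) : ℝ := sInf {t : ℝ | E.r / 2 < t ∧ E.G q (t * I) ∈ E.Hs}

def Vc : Set S := {y | ∃ (q : Pr) (t : ℝ), 0 < t ∧ t ≤ E.len q ∧ y = E.G q (t * I)}

def Vo : Set S := {y | ∃ (q : Pr) (t : ℝ), 0 < t ∧ t < E.len q ∧ y = E.G q (t * I)}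

open Classical in
/-- The point of a vertical segment that looks back along the germ of `G q` at `w`. -/
noncomputable def back (q : Pr) (w : ℂ) : Pr × ℝ :=
  if h : ∃ b : Pr × ℝ, (-E.len (E.rot b.1) < b.2 ∧ b.2 < E.len b.1) ∧ b.2 ≠ 0 ∧
    E.Same (-1) b.1 (b.2 * I) q w then h.choose else (q, 0)

noncomputable def wd (b : Pr × ℝ) : ℝ :=
  sInf {s : ℝ | 0 < s ∧ (s : ℂ) + b.2 * I ∈ E.Dom b.1 ∧ E.G b.1 (s + b.2 * I) ∈ E.Vc}

open Classical in
noncomputable def lab (b : Pr × ℝ) : Option Pr :=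
  if b.2 = 0 then some b.1 else
    if h : ∃ (q : Pr) (s : ℝ), 0 < s ∧ E.G q s = E.G b.1 (b.2 * I) then some h.choose else none

/-- The linear involution of the Markov partition. -/
noncomputable def lin : LinData Pr X where
  rot := E.rot
  σ := E.σ
  fX := E.fX
  base := E.base
  lam := E.lam
  len := E.len
  tip := fun q => E.back q (E.aH q)
  T := fun b => E.back b.1 (E.wd b + b.2 * I)
  w := E.wd
  L := E.lab

end DevData
end Pool.Agent.Work.MP_563a32_gt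
end

-- merged part: Pool.Agent.Work.MP_563a32_gt.A0
section
/-! Local isometries from the plane, prongs and developing maps of a pseudo-Anosov map. -/

namespace Pool.Agent.Work.MP_563a32_gt
open Filter Topology Complex

namespace PA
variable {S : Type} [TopologicalSpace S] (P : PA S)

/-- Near `w`, the map `j` is inverse to a flat chart up to `z ↦ ± z + c`. -/
def Imm (j : ℂ → S) (w : ℂ) : Prop :=
  ∃ (i : P.ι) (ε c : ℂ), (ε = 1 ∨ ε = -1) ∧
    ∀ᶠ z in 𝓝 w, j z ∈ (P.chart i).source ∧ P.chart i (j z) = ε * z + c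

def ImmOn (j : ℂ → S) (U : Set ℂ) : Prop := ∀ w ∈ U, P.Imm j w

/-- The image of a local isometry under `f`. -/
noncomputable def push (j : ℂ → S) : ℂ → S := fun z => P.f (j (diag P.lam⁻¹ z))

/-- The preimage of a local isometry under `f`. -/
noncomputable def pull (j : ℂ → S) : ℂ → S := fun z => P.f.symm (j (diag P.lam z))

/-- The cone neighbourhoods of radius `r` are embedded, disjoint and otherwise regular. -/
def GoodR (r : ℝ) : Prop :=
  0 < r ∧ (∀ x ∈ P.sing, ∀ ζ : ℂ, ‖ζ‖ ^ P.prongs x ≤ r ^ 2 →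
    ζ ∈ (P.cone x).target ∧ (ζ ≠ 0 → (P.cone x).symm ζ ∉ P.sing)) ∧
  ∀ x ∈ P.sing, ∀ x' ∈ P.sing, ∀ ζ ζ' : ℂ, ‖ζ‖ ^ P.prongs x ≤ r ^ 2 →
    ‖ζ'‖ ^ P.prongs x' ≤ r ^ 2 → (P.cone x).symm ζ = (P.cone x').symm ζ' → x = x'

open Classical in
noncomputable def rad : ℝ := if h : ∃ r, P.GoodR r then h.choose else 1

/-- Horizontal prongs. -/
abbrev Pr : Type := Σ x : P.sing, Fin (P.prongs x)

/-- The slit disc at the start of a horizontal prong. -/
noncomputable def κ (q : P.Pr) (w : ℂ) : S :=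
  (P.cone q.1).symm (exp (-(2 * Real.pi * I * (q.2 : ℕ) / P.prongs q.1)) *
    exp (2 / P.prongs q.1 * log w))

def rot : Equiv.Perm P.Pr := Equiv.sigmaCongrRight fun x => finRotate (P.prongs x)

def fX : Equiv.Perm P.sing :=
  Equiv.Perm.subtypePerm (P.f.toEquiv : Equiv.Perm S) fun y => P.f_sing y

/-- `q'` is the image of the prong `q`. -/
def IsIm (q q' : P.Pr) : Prop :=
  q'.1 = P.fX q.1 ∧ ∀ z ∈ slitPlane, ‖z‖ < P.rad / P.lam → P.push (P.κ q) =ᶠ[𝓝 z] P.κ q'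

open Classical in
noncomputable def σ : Equiv.Perm P.Pr :=
  if h : ∃ σ : Equiv.Perm P.Pr, ∀ q, P.IsIm q (σ q) then h.choose else 1

end PA

noncomputable def dir (z : ℂ) : ℂ := if 0 < z.im then I else if z.im < 0 then -I else 1

/-- The path from `0` to `z`, first vertical and then horizontal. -/
def path (z : ℂ) : Set ℂ :=
  if z.im = 0 then {w | ∃ s : ℝ, 0 < s ∧ s ≤ z.re ∧ w = s} else
    {w | ∃ τ : ℝ, 0 < τ ∧ τ ≤ 1 ∧ w = τ * z.im * I} ∪ segment ℝ (z.im * I) z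

namespace PA
variable {S : Type} [TopologicalSpace S] (P : PA S)

def Wit (q : P.Pr) (z : ℂ) (j : ℂ → S) : Prop :=
  (∀ᶠ τ : ℝ in 𝓝[>] 0, j =ᶠ[𝓝 (τ * dir z)] P.κ q) ∧ P.ImmOn j (path z)

def Dom (q : P.Pr) : Set ℂ := {z | z ∈ slitPlane ∧ ∃ j, P.Wit q z j}

open Classical in
noncomputable def G (q : P.Pr) (z : ℂ) : S :=
  if h : ∃ j, P.Wit q z j then h.choose z else P.κ q z

noncomputable def dev : DevData S P.Pr P.sing where
  pt := fun x => x
  base := fun q => q.1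
  rot := P.rot
  σ := P.σ
  fX := P.fX
  G := P.G
  Dom := P.Dom
  r := P.rad
  lam := P.lam
  F := P.f

end PA
end Pool.Agent.Work.MP_563a32_gt
end

-- merged part: Pool.Agent.Work.MP_563a32_gt.D1
section
/-! The calculus of germs.

Plan. `Same.prop`: the set of `a ∈ A` with the property is relatively open, and closed: at a limit
point `a` the two values agree (continuity, Hausdorff), so `germ` gives `Same ε'`; if `ε' = - ε`
then near a point `a'` close to `a` one gets `G q' (w' + ε (a' + z)) = G q' (w' + ε (2 a - a' - z))`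
for all small `z`, against `locinj`. `no_sing`: let `s → 0`, use `cont`, `lim_re`, `ne_pt`.
`frame_unique`: reduce to positive heights with `same_rot`, use `inj_im` and `not_same_neg`.
`local_im`: the set `K` made of `pt (base q')` and of the `G q' (t I)`, `0 < t ≤ ℓ`,
`|t - t₀| ≥ δ`, is compact (image of a compact set under the map extended at `0` by `lim_im`), so
closed; if `G q w` is not on the prong take all of it; otherwise `G q w = G q' (t₀ I)`, it is not in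
`K` by `inj_im` and `ne_pt`, and for `|t - t₀| < δ` use `germ` and `locinj`. Same for `local_re`. -/

namespace Pool.Agent.Work.MP_563a32_gt
namespace DevData
open Filter Topology Complex

variable {S Pr X : Type} [TopologicalSpace S] [T2Space S] {E : DevData S Pr X}

theorem D1_tend (c ε : ℂ) : Tendsto (fun z : ℂ => c + ε * z) (𝓝 0) (𝓝 c) := by
  have : Continuous fun z : ℂ => c + ε * z := by fun_prop
  simpa using this.tendsto 0

theorem D1_tend_mul (ε : ℂ) : Tendsto (fun z : ℂ => ε * z) (𝓝 0) (𝓝 0) := by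
  simpa using D1_tend 0 ε

theorem D1_tend_add (c : ℂ) : Tendsto (fun z : ℂ => c + z) (𝓝 0) (𝓝 c) := by
  simpa using D1_tend c 1

theorem D1_not_ev (a b : ℂ) : ¬ ∀ᶠ y in 𝓝 b, y = a := fun h => by
  obtain rfl := h.self_of_nhds
  obtain ⟨y, h1, h2⟩ :=
    ((h.filter_mono (nhdsWithin_le_nhds (s := {b}ᶜ))).and self_mem_nhdsWithin).exists
  exact h2 h1

theorem D1_ev_iff (P : ℂ → Prop) (a : ℂ) : (∀ᶠ z in 𝓝 (0 : ℂ), P (a + z)) ↔ ∀ᶠ y in 𝓝 a, P y := by
  refine ⟨fun h => ?_, fun h => (D1_tend_add a).eventually h⟩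
  have h1 : Continuous fun y : ℂ => y - a := by fun_prop
  have h2 : Tendsto (fun y : ℂ => y - a) (𝓝 a) (𝓝 0) := by simpa using h1.tendsto a
  simpa using h2.eventually h

theorem D1_ne {Y : Type} {l : Filter Y} {f g : Y → S} {a b : S} (hf : Tendsto f l (𝓝 a))
    (hg : Tendsto g l (𝓝 b)) (h : a ≠ b) : ∀ᶠ y in l, f y ≠ g y :=
  (hf.prodMk_nhds hg).eventually (isClosed_diagonal.isOpen_compl.mem_nhds h)

theorem D1_diag_add (l : ℝ) (a b : ℂ) : diag l (a + b) = diag l a + diag l b := by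
  apply Complex.ext <;> simp [diag] <;> ring

theorem D1_diag_mul (l : ℝ) {ε : ℂ} (hε : ε = 1 ∨ ε = -1) (a : ℂ) :
    diag l (ε * a) = ε * diag l a := by
  rcases hε with rfl | rfl <;> apply Complex.ext <;> simp [diag] <;> ring

theorem D1_diag_inv {l : ℝ} (hl : l ≠ 0) (a : ℂ) : diag l (diag l⁻¹ a) = a := by
  apply Complex.ext
  · simp [diag, hl]
  · simp [diag, hl]

theorem D1_diag_tend (l : ℝ) : Tendsto (diag l) (𝓝 0) (𝓝 0) := by
  have e : diag l = fun w : ℂ => ((w.re / l : ℝ) : ℂ) + ((l * w.im : ℝ) : ℂ) * I := by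
    funext w
    apply Complex.ext <;> simp only [diag, add_re, add_im, mul_re, mul_im, ofReal_re, ofReal_im,
      I_re, I_im] <;> ring
  have : Continuous (diag l) := by rw [e]; fun_prop
  have h0 : diag l 0 = 0 := by apply Complex.ext <;> simp [diag]
  simpa [h0] using this.tendsto 0

omit [TopologicalSpace S] [T2Space S] in
theorem Same.eq {ε q w q' w'} (h : E.Same ε q w q' w') : E.G q w = E.G q' w' := by
  simpa using h.2.2.self_of_nhds

omit [TopologicalSpace S] [T2Space S] in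
theorem Same.refl {q w} (h : w ∈ E.Dom q) : E.Same 1 q w q w := by
  exact ⟨h, h, Eventually.of_forall fun z => by rw [one_mul]⟩

omit [TopologicalSpace S] [T2Space S] in
theorem Same.symm {ε q w q' w'} (hε : ε = 1 ∨ ε = -1) (h : E.Same ε q w q' w') :
    E.Same ε q' w' q w := by
  refine ⟨h.2.1, h.1, ((D1_tend_mul ε).eventually h.2.2).mono fun z hz => ?_⟩
  have : ε * (ε * z) = z := by rcases hε with rfl | rfl <;> ring
  rw [hz, this]

omit [TopologicalSpace S] [T2Space S] in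
theorem Same.trans {ε ε' q w q' w' q'' w''} (h : E.Same ε q w q' w')
    (h' : E.Same ε' q' w' q'' w'') : E.Same (ε * ε') q w q'' w'' := by
  refine ⟨h.1, h'.2.1, (h.2.2.and ((D1_tend_mul ε).eventually h'.2.2)).mono fun z hz => ?_⟩
  rw [hz.1, hz.2, mul_comm ε ε', mul_assoc]

omit [T2Space S] in
theorem Ax.not_same_neg (A : E.Ax) (q : Pr) (w : ℂ) : ¬ E.Same (-1) q w q w := by
  intro h
  obtain ⟨U, hU, hi⟩ := A.locinj q w h.1
  refine D1_not_ev 0 0 ?_
  filter_upwards [h.2.2, (D1_tend_add w).eventually hU, (D1_tend w (-1)).eventually hU]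
    with z h1 h2 h3
  have := hi h2 h3 h1
  linear_combination this / 2

omit [TopologicalSpace S] [T2Space S] in
theorem D1_same_iff (η ε : ℂ) (q q' : Pr) (w w' a : ℂ) :
    E.Same η q (w + a) q' (w' + ε * a) ↔ w + a ∈ E.Dom q ∧ w' + ε * a ∈ E.Dom q' ∧
      ∀ᶠ y in 𝓝 a, E.G q (w + y) = E.G q' (w' + ε * a + η * (y - a)) := by
  rw [← D1_ev_iff]
  simp only [Same, add_assoc, add_sub_cancel_left]

theorem Ax.prop (A : E.Ax) {ε q w q' w'} (hε : ε = 1 ∨ ε = -1) (h : E.Same ε q w q' w')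
    {U : Set ℂ} (hU : IsPreconnected U) (h0 : (0 : ℂ) ∈ U) (hd : ∀ a ∈ U, w + a ∈ E.Dom q)
    (hd' : ∀ a ∈ U, w' + ε * a ∈ E.Dom q') :
    ∀ a ∈ U, E.Same ε q (w + a) q' (w' + ε * a) := by
  have e : ∀ a y : ℂ, w' + ε * a + ε * (y - a) = w' + ε * y := fun a y => by ring
  have c1 : Continuous fun y : ℂ => w + y := by fun_prop
  have c2 : Continuous fun y : ℂ => w' + ε * y := by fun_prop
  have hO : IsOpen {a | E.Same ε q (w + a) q' (w' + ε * a)} := by
    simp only [D1_same_iff, e]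
    exact ((A.isOpen q).preimage c1).inter (((A.isOpen q').preimage c2).inter
      isOpen_setOfPred_eventually_nhds)
  have h00 : E.Same ε q (w + 0) q' (w' + ε * 0) := by simpa using h
  refine hU.subset_of_closure_inter_subset hO ⟨0, h0, h00⟩ ?_
  rintro a ⟨ha, haU⟩
  rw [mem_closure_iff_frequently] at ha
  have t1 : Tendsto (fun y => E.G q (w + y)) (𝓝 a) (𝓝 (E.G q (w + a))) :=
    ((A.cont q).continuousAt ((A.isOpen q).mem_nhds (hd a haU))).tendsto.comp (c1.tendsto a)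
  have t2 : Tendsto (fun y => E.G q' (w' + ε * y)) (𝓝 a) (𝓝 (E.G q' (w' + ε * a))) :=
    ((A.cont q').continuousAt ((A.isOpen q').mem_nhds (hd' a haU))).tendsto.comp (c2.tendsto a)
  have hv := tendsto_nhds_unique_of_frequently_eq t1 t2 (ha.mono fun y hy => Same.eq hy)
  have hc : E.Same ε q (w + a) q' (w' + ε * a) ∨ E.Same (-ε) q (w + a) q' (w' + ε * a) := by
    have := A.germ _ _ _ _ (hd a haU) (hd' a haU) hv
    rcases hε with rfl | rfl
    · exact this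
    · rw [neg_neg]; exact this.symm
  refine hc.resolve_right fun hn => ?_
  obtain ⟨V, hV, hi⟩ := A.locinj q' _ (hd' a haU)
  have c3 : Continuous fun y : ℂ => w' + ε * a + -ε * (y - a) := by fun_prop
  have t3 : Tendsto (fun y : ℂ => w' + ε * a + -ε * (y - a)) (𝓝 a) (𝓝 (w' + ε * a)) := by
    simpa using c3.tendsto a
  have h1 := (((D1_same_iff _ _ _ _ _ _ _).1 hn).2.2.and
    (((c2.tendsto a).eventually hV).and (t3.eventually hV))).eventually_nhds
  obtain ⟨b, hb1, hb2⟩ := (ha.and_eventually h1).exists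
  refine D1_not_ev a b ?_
  filter_upwards [((D1_same_iff _ _ _ _ _ _ _).1 hb1).2.2, hb2] with y h2 h3
  rw [e, h3.1] at h2
  have := hi h3.2.2 h3.2.1 h2
  rcases hε with rfl | rfl
  · linear_combination -this / 2
  · linear_combination this / 2

/-- Horizontal propagation from a point of nonzero height. -/
theorem Ax.prop_h (A : E.Ax) {ε q w q' w'} (hε : ε = 1 ∨ ε = -1) (hw : w.im ≠ 0)
    (h : E.Same ε q w q' w') (v : ℝ) (hd' : ∀ s ∈ Set.uIcc 0 v, w' + ε * (s : ℝ) ∈ E.Dom q') :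
    ∀ s ∈ Set.uIcc 0 v, E.Same ε q (w + (s : ℝ)) q' (w' + ε * (s : ℝ)) := by
  intro s hs
  refine A.prop hε h (U := (fun s : ℝ => (s : ℂ)) '' Set.uIcc 0 v)
    (isPreconnected_uIcc.image _ continuous_ofReal.continuousOn)
    ⟨0, Set.left_mem_uIcc, rfl⟩ ?_ ?_ _ ⟨s, hs, rfl⟩
  · rintro _ ⟨t, ht, rfl⟩
    exact A.extend ε q w q' w' t hε hw h fun u hu =>
      hd' u (Set.uIcc_subset_uIcc_left ht hu)
  · rintro _ ⟨t, ht, rfl⟩
    exact hd' t ht

omit [T2Space S] in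
theorem Ax.same_rot (A : E.Ax) (q : Pr) {z : ℂ} (hz : 0 < z.im) (h : z ∈ E.Dom (E.rot q)) :
    E.Same (-1) (E.rot q) z q (-z) := by
  refine ⟨h, (A.rot_dom q z hz).1 h, ?_⟩
  have h1 : {y : ℂ | 0 < y.im} ∈ 𝓝 z :=
    (isOpen_lt continuous_const continuous_im).mem_nhds hz
  filter_upwards [(D1_tend_add z).eventually h1,
    (D1_tend_add z).eventually ((A.isOpen _).mem_nhds h)] with y h2 h3
  rw [A.rot_G q _ h2 h3]
  congr 1
  ring

omit [T2Space S] in
theorem Ax.same_N (A : E.Ax) (b : Pr × ℝ) (hb : b.2 ≠ 0) :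
    E.Same (-1) (E.lin.N b).1 ((E.lin.N b).2 * I) b.1 (b.2 * I) := by
  obtain ⟨q, t⟩ := b
  by_cases ht : 0 < t
  · have := A.same_rot (E.rot⁻¹ q) (z := t * I) (by simpa using ht) (A.mem_im _ t hb)
    simp only [LinData.N, ht, if_true, lin]
    simpa using this.symm (Or.inr rfl)
  · have ht' : t < 0 := lt_of_le_of_ne (not_lt.1 ht) hb
    have := A.same_rot q (z := ((-t : ℝ) : ℂ) * I) (by simpa using ht')
      (A.mem_im _ (-t) (neg_ne_zero.2 hb))
    simp only [LinData.N, ht, if_false, lin]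
    simpa using this

omit [T2Space S] in
theorem Ax.same_F (A : E.Ax) {ε q w q' w'} (hε : ε = 1 ∨ ε = -1) :
    E.Same ε (E.σ q) (diag E.lam w) (E.σ q') (diag E.lam w') ↔ E.Same ε q w q' w' := by
  have hl : E.lam ≠ 0 := (zero_lt_one.trans A.one_lt).ne'
  have key : w ∈ E.Dom q → w' ∈ E.Dom q' → ∀ᶠ z in 𝓝 (0 : ℂ),
      (E.G (E.σ q) (diag E.lam w + diag E.lam z) =
        E.G (E.σ q') (diag E.lam w' + ε * diag E.lam z) ↔
        E.G q (w + z) = E.G q' (w' + ε * z)) := fun h1 h2 => by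
    filter_upwards [(D1_tend_add w).eventually ((A.isOpen _).mem_nhds h1),
      (D1_tend w' ε).eventually ((A.isOpen _).mem_nhds h2)] with z h3 h4
    rw [← D1_diag_mul _ hε, ← D1_diag_add, ← D1_diag_add, ← A.F_G _ _ h3, ← A.F_G _ _ h4,
      A.F_inj.eq_iff]
  constructor
  · rintro ⟨h1, h2, h3⟩
    rw [A.F_dom] at h1 h2
    refine ⟨h1, h2, ?_⟩
    filter_upwards [key h1 h2, (D1_diag_tend E.lam).eventually h3] with z h4 h5
    exact h4.1 h5
  · rintro ⟨h1, h2, h3⟩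
    refine ⟨(A.F_dom _ _).2 h1, (A.F_dom _ _).2 h2, ?_⟩
    filter_upwards [(D1_diag_tend E.lam⁻¹).eventually ((key h1 h2).and h3)] with z h4
    have := h4.1.2 h4.2
    rwa [D1_diag_inv hl] at this

theorem Ax.no_sing (A : E.Ax) {q q' : Pr} {w ε : ℂ} (hw : w ∈ E.Dom q) {δ : ℝ} (hδ : 0 < δ)
    (h : ∀ s : ℝ, 0 < s → s < δ → E.G q (w + ε * s) = E.G q' s) : False := by
  have c : Continuous fun s : ℝ => w + ε * s := by fun_prop
  have t0 : Tendsto (fun s : ℝ => w + ε * s) (𝓝[>] 0) (𝓝 w) := by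
    simpa using (c.tendsto 0).mono_left (nhdsWithin_le_nhds (s := Set.Ioi 0))
  have t1 := ((A.cont q).continuousAt ((A.isOpen q).mem_nhds hw)).tendsto.comp t0
  refine A.ne_pt q w hw _ (tendsto_nhds_unique_of_eventuallyEq t1 (A.lim_re q') ?_)
  filter_upwards [Ioo_mem_nhdsGT hδ] with s hs
  exact h s hs.1 hs.2

omit [T2Space S] in
theorem Ax.frame_unique (A : E.Ax) {b b' : Pr × ℝ} (hb : b.2 ≠ 0) (hb' : b'.2 ≠ 0)
    (h : E.Same 1 b.1 (b.2 * I) b'.1 (b'.2 * I)) : b = b' := by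
  have pos : ∀ {ε : ℂ} {c c' : Pr × ℝ}, 0 < c.2 → 0 < c'.2 →
      E.Same ε c.1 (c.2 * I) c'.1 (c'.2 * I) → c = c' := fun h1 h2 h3 => by
    obtain ⟨e1, e2⟩ := A.inj_im _ _ _ _ h1 h2 h3.eq
    exact Prod.ext e1 e2
  have neg : ∀ {c : Pr × ℝ}, c.2 < 0 → 0 < (E.lin.N c).2 := fun h => by
    rw [LinData.N_snd]; linarith
  have s1 := A.same_N b hb
  have s2 := (A.same_N b' hb').symm (Or.inr rfl)
  rcases hb.lt_or_gt with h1 | h1 <;> rcases hb'.lt_or_gt with h2 | h2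
  · have := pos (neg h1) (neg h2) ((s1.trans h).trans s2)
    rw [← LinData.N_N (D := E.lin) b hb, this, LinData.N_N b' hb']
  · have h3 := s1.trans h
    have := pos (neg h1) h2 h3
    rw [this, mul_one] at h3
    exact (A.not_same_neg _ _ h3).elim
  · have h3 := h.trans s2
    have := pos h1 (neg h2) h3
    rw [← this, one_mul] at h3
    exact (A.not_same_neg _ _ h3).elim
  · exact pos h1 h2 h

theorem D1_local (A : E.Ax) {q : Pr} {w : ℂ} (hw : w ∈ E.Dom q) (q' : Pr) (ℓ : ℝ) (c : ℂ)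
    (hm : ∀ t : ℝ, 0 < t → (t : ℂ) * c ∈ E.Dom q')
    (hl : Tendsto (fun t : ℝ => E.G q' (t * c)) (𝓝[>] 0) (𝓝 (E.pt (E.base q')))) :
    ∀ᶠ z in 𝓝 w, ∀ t : ℝ, 0 < t → t ≤ ℓ → E.G q z = E.G q' (t * c) →
      (∃ s : ℝ, z = w + s * c) ∧ ∃ t₀ : ℝ, 0 < t₀ ∧ t₀ ≤ ℓ ∧ E.G q w = E.G q' (t₀ * c) := by
  have key := (isCompact_Icc (a := (0 : ℝ)) (b := ℓ)).eventually_forall_of_forall_eventually
    (x₀ := w) (P := fun z t => 0 < t → E.G q z = E.G q' (t * c) →
      (∃ s : ℝ, z = w + s * c) ∧ ∃ t₀ : ℝ, 0 < t₀ ∧ t₀ ≤ ℓ ∧ E.G q w = E.G q' (t₀ * c)) ?_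
  · exact key.mono fun z hz t h1 h2 => hz t ⟨h1.le, h2⟩ h1
  have cw := ((A.cont q).continuousAt ((A.isOpen q).mem_nhds hw)).tendsto
  rintro u ⟨hu0, huℓ⟩
  rcases hu0.eq_or_lt with rfl | hu
  · have h1 := D1_ne (l := 𝓝 w ×ˢ 𝓝[>] (0 : ℝ)) (cw.comp tendsto_fst) (hl.comp tendsto_snd)
      (A.ne_pt q w hw _)
    rw [eventually_prod_iff] at h1
    obtain ⟨pa, ha, pb, hb, h1⟩ := h1
    rw [eventually_nhdsWithin_iff] at hb
    rw [nhds_prod_eq]
    filter_upwards [ha.prod_mk hb] with z hz h2 h3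
    exact (h1 hz.1 (hz.2 h2) h3).elim
  · have c1 : Continuous fun z : ℂ × ℝ => (z.2 : ℂ) * c := by fun_prop
    have t1 : Tendsto (fun z : ℂ × ℝ => (z.2 : ℂ) * c) (𝓝 (w, u)) (𝓝 (u * c)) := c1.tendsto _
    have t0 : Tendsto (fun z : ℂ × ℝ => z.1) (𝓝 (w, u)) (𝓝 w) := continuous_fst.tendsto _
    by_cases he : E.G q w = E.G q' (u * c)
    · obtain ⟨ε, hε, hs⟩ : ∃ ε : ℂ, (ε = 1 ∨ ε = -1) ∧ E.Same ε q w q' (u * c) := by
        rcases A.germ _ _ _ _ hw (hm u hu) he with h | h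
        · exact ⟨1, Or.inl rfl, h⟩
        · exact ⟨-1, Or.inr rfl, h⟩
      obtain ⟨V, hV, hi⟩ := A.locinj q' _ (hm u hu)
      have c2 : Continuous fun z : ℂ × ℝ => z.1 - w := by fun_prop
      have t2 : Tendsto (fun z : ℂ × ℝ => z.1 - w) (𝓝 (w, u)) (𝓝 0) := by
        simpa using c2.tendsto (w, u)
      filter_upwards [t2.eventually (hs.2.2.and ((D1_tend (u * c) ε).eventually hV)),
        t1.eventually hV] with z h1 h2 _ h4
      refine ⟨?_, u, hu, huℓ, he⟩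
      have h5 := h1.1
      rw [add_sub_cancel, h4] at h5
      have := hi h2 h1.2 h5
      rcases hε with rfl | rfl
      · exact ⟨z.2 - u, by push_cast; linear_combination -this⟩
      · exact ⟨u - z.2, by push_cast; linear_combination this⟩
    · have cu := ((A.cont q').continuousAt ((A.isOpen q').mem_nhds (hm u hu))).tendsto
      filter_upwards [D1_ne (cw.comp t0) (cu.comp t1) he] with z h1 _ h2
      exact (h1 h2).elim

theorem Ax.local_im (A : E.Ax) {q : Pr} {w : ℂ} (hw : w ∈ E.Dom q) (q' : Pr) (ℓ : ℝ) :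
    ∀ᶠ z in 𝓝 w, ∀ t : ℝ, 0 < t → t ≤ ℓ → E.G q z = E.G q' (t * I) →
      z.re = w.re ∧ ∃ t₀ : ℝ, 0 < t₀ ∧ t₀ ≤ ℓ ∧ E.G q w = E.G q' (t₀ * I) := by
  filter_upwards [D1_local A hw q' ℓ I (fun t ht => A.mem_im q' t ht.ne') (A.lim_im q')]
    with z hz t h1 h2 h3
  obtain ⟨⟨s, rfl⟩, h4⟩ := hz t h1 h2 h3
  exact ⟨by simp, h4⟩

theorem Ax.local_re (A : E.Ax) {q : Pr} {w : ℂ} (hw : w ∈ E.Dom q) (q' : Pr) (ℓ : ℝ) :
    ∀ᶠ z in 𝓝 w, ∀ s : ℝ, 0 < s → s ≤ ℓ → E.G q z = E.G q' s →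
      z.im = w.im ∧ ∃ s₀ : ℝ, 0 < s₀ ∧ s₀ ≤ ℓ ∧ E.G q w = E.G q' s₀ := by
  filter_upwards [D1_local A hw q' ℓ 1 (fun t ht => by simpa using A.mem_re q' t ht)
    (by simpa using A.lim_re q')] with z hz t h1 h2 h3
  obtain ⟨⟨s, rfl⟩, h4⟩ := hz t h1 h2 (by simpa using h3)
  exact ⟨by simp, by simpa using h4⟩

end DevData
end Pool.Agent.Work.MP_563a32_gt
end

-- merged part: Pool.Agent.Work.MP_563a32_gt.D2
section
/-! The prongs of the Markov partition.

Plan. `aH_spec`: the set is nonempty (`hit_h` along the real axis), bounded below by `r`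
(`cross`), and by `local_im` (finitely many prongs) its infimum belongs to it. `len_spec`:
nonempty by `hit_v` with `ℓ = r` from the point `r I`; by `local_re` the set has no accumulation
point at its infimum `t₀ ≥ r / 2`, so `t₀` belongs to it. `aH_σ`, `len_σ`: apply `F_G`, `F_inj`
and `diag lam s = s / lam`, `diag lam (t I) = lam t I`. `back_spec`: use `germ`, and `same_rot`
for the other sign. `no_tip`: `prop` along the segment; if `a - s ≥ aH q` the segment reaches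
the singular point (`no_sing`), otherwise its end contradicts `Hs_Vo`. -/

namespace Pool.Agent.Work.MP_563a32_gt
namespace DevData
open Filter Topology Complex

variable {S Pr X : Type} [TopologicalSpace S] [T2Space S] [Fintype Pr] {E : DevData S Pr X}

theorem D2_inf {T : Set ℝ} (hne : T.Nonempty) (hb : BddBelow T)
    (h : ∀ᶠ s in 𝓝 (sInf T), s ∈ T → s = sInf T) : sInf T ∈ T := by
  obtain ⟨s, h1, h2⟩ :=
    ((mem_closure_iff_frequently.1 (csInf_mem_closure hne hb)).and_eventually h).exists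
  exact h2 h1 ▸ h1

omit [T2Space S] [Fintype Pr] in
theorem D2_F_re (A : E.Ax) (q : Pr) {s : ℝ} (hs : 0 < s) :
    E.F (E.G q s) = E.G (E.σ q) (s / E.lam : ℝ) := by
  rw [A.F_G q _ (A.mem_re q s hs)]
  exact congrArg _ (Complex.ext rfl (mul_zero _))

omit [T2Space S] [Fintype Pr] in
theorem D2_F_im (A : E.Ax) (q : Pr) {t : ℝ} (ht : 0 < t) :
    E.F (E.G q (t * I)) = E.G (E.σ q) ((E.lam * t : ℝ) * I) := by
  rw [A.F_G q _ (A.mem_im q t ht.ne')]
  exact congrArg _ (Complex.ext (by simp [diag]) (by simp [diag]))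

theorem Ax.aH_spec (A : E.Ax) (q : Pr) : E.r ≤ E.aH q ∧ E.G q (E.aH q) ∈ E.V0 ∧
    ∀ s : ℝ, 0 < s → s < E.aH q → E.G q s ∉ E.V0 := by
  have hr := A.r_pos
  have h1 : {s : ℝ | 0 < s ∧ E.G q s ∈ E.V0}.Nonempty := by
    obtain ⟨L, -, hL⟩ := A.hit_h (E.r / 2) (half_pos hr)
    obtain ⟨s, hs, q', t, ht, e⟩ := hL q 1 fun s hs => by
      exact_mod_cast A.mem_re q (1 + s) (by linarith [hs.1])
    exact ⟨1 + s, by linarith [hs.1], q', t, ht.1, ht.2, by exact_mod_cast e⟩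
  have h2 : E.r ∈ lowerBounds {s : ℝ | 0 < s ∧ E.G q s ∈ E.V0} := by
    rintro s ⟨hs, q', t, t1, t2, e⟩
    exact not_lt.1 fun h => A.cross q q' s t hs h t1 (by linarith) e
  have h3 : E.r ≤ E.aH q := le_csInf h1 h2
  refine ⟨h3, (D2_inf h1 ⟨_, h2⟩ ?_).2, fun s s1 s2 s3 => notMem_of_lt_csInf s2 ⟨_, h2⟩ ⟨s1, s3⟩⟩
  have h4 := (continuous_ofReal.tendsto _).eventually (eventually_all.2 fun q' =>
    A.local_im (A.mem_re q (E.aH q) (hr.trans_le h3)) q' (E.r / 2))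
  filter_upwards [h4] with s hs
  rintro ⟨-, q', t, t1, t2, e⟩
  exact (hs q' t t1 t2 e).1

theorem Ax.aH_σ (A : E.Ax) (q : Pr) : E.aH q ≤ E.lam * E.aH (E.σ q) := by
  obtain ⟨h1, ⟨q', t, t1, t2, e⟩, -⟩ := A.aH_spec (E.σ q)
  have hl : 0 < E.lam := zero_lt_one.trans A.one_lt
  have h2 : 0 < E.lam * E.aH (E.σ q) := mul_pos hl (A.r_pos.trans_le h1)
  refine not_lt.1 fun h => (A.aH_spec q).2.2 _ h2 h ⟨E.σ⁻¹ q', t / E.lam, div_pos t1 hl,
    (div_le_self t1.le A.one_lt.le).trans t2, A.F_inj ?_⟩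
  rw [D2_F_re A q h2, D2_F_im A _ (div_pos t1 hl), mul_div_cancel_left₀ _ hl.ne',
    mul_div_cancel₀ _ hl.ne', e, show E.σ (E.σ⁻¹ q') = q' from E.σ.apply_symm_apply q']

theorem Ax.len_spec (A : E.Ax) (q : Pr) : E.r / 2 < E.len q ∧ E.G q (E.len q * I) ∈ E.Hs ∧
    ∀ t : ℝ, E.r / 2 < t → t < E.len q → E.G q (t * I) ∉ E.Hs := by
  have hr := A.r_pos
  have h1 : {t : ℝ | E.r / 2 < t ∧ E.G q (t * I) ∈ E.Hs}.Nonempty := by
    have e0 : ∀ s : ℝ, (E.r : ℂ) * I + s * I = (E.r + s : ℝ) * I := fun s => by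
      push_cast
      ring
    obtain ⟨L, -, hL⟩ := A.hit_v E.r hr
    obtain ⟨s, hs, q', t, ht, e⟩ := hL q (E.r * I) fun s hs => by
      rw [e0]
      exact A.mem_im q _ (by linarith [hs.1])
    rw [e0] at e
    exact ⟨E.r + s, by linarith only [hr, hs, hs.1], q', t, ht.1, ht.2.trans (A.aH_spec q').1, e⟩
  have h2 : E.r / 2 ∈ lowerBounds {t : ℝ | E.r / 2 < t ∧ E.G q (t * I) ∈ E.Hs} :=
    fun s hs => hs.1.le
  have h3 : E.r / 2 ≤ E.len q := le_csInf h1 h2
  refine and_assoc.1 ⟨D2_inf h1 ⟨_, h2⟩ ?_,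
    fun s s1 s2 s3 => notMem_of_lt_csInf s2 ⟨_, h2⟩ ⟨s1, s3⟩⟩
  have h4 := ((continuous_ofReal.mul continuous_const).tendsto _).eventually
    (eventually_all.2 fun q' => A.local_re (A.mem_im q (E.len q) (by linarith)) q' (E.aH q'))
  filter_upwards [h4] with s hs
  rintro ⟨-, q', t, t1, t2, e⟩
  change s = E.len q
  simpa using (hs q' t t1 t2 e).1

theorem Ax.len_σ (A : E.Ax) (q : Pr) : E.len q ≤ E.lam * E.len (E.σ⁻¹ q) := by
  obtain ⟨h1, ⟨q', s, s1, s2, e⟩, -⟩ := A.len_spec (E.σ⁻¹ q)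
  have hl : 0 < E.lam := zero_lt_one.trans A.one_lt
  have h0 : 0 < E.len (E.σ⁻¹ q) := (half_pos A.r_pos).trans h1
  refine not_lt.1 fun h => (A.len_spec q).2.2 _
    (h1.trans_le (le_mul_of_one_le_left h0.le A.one_lt.le)) h
    ⟨E.σ q', s / E.lam, div_pos s1 hl, (div_le_iff₀' hl).2 (s2.trans (A.aH_σ q')), ?_⟩
  rw [← D2_F_re A q' s1, ← e, D2_F_im A _ h0,
    show E.σ (E.σ⁻¹ q) = q from E.σ.apply_symm_apply q]

theorem Ax.V0_sub (A : E.Ax) : E.V0 ⊆ E.Vo := by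
  rintro _ ⟨q, t, t1, t2, rfl⟩
  exact ⟨q, t, t1, t2.trans_lt (A.len_spec q).1, rfl⟩

theorem Ax.Hs_Vo (A : E.Ax) {q : Pr} {s : ℝ} (h0 : 0 < s) (h1 : s ≤ E.aH q)
    (h : E.G q s ∈ E.Vo) : s = E.aH q := by
  obtain ⟨q', t, t1, t2, e⟩ := h
  rcases le_or_gt t (E.r / 2) with k | k
  · exact le_antisymm h1 (not_lt.1 fun k' => (A.aH_spec q).2.2 s h0 k' ⟨q', t, t1, k, e⟩)
  · exact absurd ⟨q, s, h0, h1, e.symm⟩ ((A.len_spec q').2.2 t k t2)

theorem Ax.mem_Vo (A : E.Ax) {b : Pr × ℝ} (hB : E.lin.B b) (hb : b.2 ≠ 0) :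
    E.G b.1 (b.2 * I) ∈ E.Vo := by
  rcases hb.lt_or_gt with k | k
  · refine ⟨E.rot b.1, -b.2, neg_pos.2 k, neg_lt.1 hB.1, ?_⟩
    rw [A.rot_G b.1 _ (by simpa using k) (A.mem_im _ _ (neg_ne_zero.2 hb))]
    simp
  · exact ⟨b.1, b.2, k, hB.2, rfl⟩

theorem Ax.back_spec (A : E.Ax) {q : Pr} {w : ℂ} (hw : w ∈ E.Dom q) (h : E.G q w ∈ E.Vo) :
    E.lin.B (E.back q w) ∧ (E.back q w).2 ≠ 0 ∧
      E.Same (-1) (E.back q w).1 ((E.back q w).2 * I) q w := by
  have h1 : ∃ b : Pr × ℝ, (-E.len (E.rot b.1) < b.2 ∧ b.2 < E.len b.1) ∧ b.2 ≠ 0 ∧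
      E.Same (-1) b.1 (b.2 * I) q w := by
    obtain ⟨q', t, t1, t2, e⟩ := h
    have hl : ∀ p, 0 < E.lin.len p := fun p => (half_pos A.r_pos).trans (A.len_spec p).1
    have hB : E.lin.B (q', t) := ⟨(neg_lt_zero.2 (hl _)).trans t1, t2⟩
    rcases A.germ q' _ q w (A.mem_im q' t t1.ne') hw e.symm with k | k
    · refine ⟨E.lin.N (q', t), LinData.N_B' hl _ t1.ne' hB, ?_, ?_⟩
      · rw [LinData.N_snd]
        exact neg_ne_zero.2 t1.ne'
      · simpa using (A.same_N (q', t) t1.ne').trans k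
    · exact ⟨(q', t), hB, t1.ne', k⟩
  rw [back, dif_pos h1]
  exact h1.choose_spec

theorem Ax.back_eq (A : E.Ax) {q : Pr} {w : ℂ} {b : Pr × ℝ} (hB : E.lin.B b) (hb : b.2 ≠ 0)
    (h : E.Same (-1) b.1 (b.2 * I) q w) : E.back q w = b := by
  have h1 : ∃ b : Pr × ℝ, (-E.len (E.rot b.1) < b.2 ∧ b.2 < E.len b.1) ∧ b.2 ≠ 0 ∧
      E.Same (-1) b.1 (b.2 * I) q w := ⟨b, hB, hb, h⟩
  rw [back, dif_pos h1]
  refine A.frame_unique h1.choose_spec.2.1 hb ?_
  simpa using h1.choose_spec.2.2.trans (h.symm (Or.inr rfl))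

theorem Ax.tip_spec (A : E.Ax) (q : Pr) : E.lin.B (E.lin.tip q) ∧ (E.lin.tip q).2 ≠ 0 ∧
    E.Same (-1) (E.lin.tip q).1 ((E.lin.tip q).2 * I) q (E.aH q) := by
  exact A.back_spec (A.mem_re q _ (A.r_pos.trans_le (A.aH_spec q).1))
    (A.V0_sub (A.aH_spec q).2.1)

theorem Ax.tip_inj (A : E.Ax) : Function.Injective E.lin.tip := by
  intro q q' e
  have h1 := (A.tip_spec q).2.2.eq
  rw [e, (A.tip_spec q').2.2.eq] at h1
  exact (A.inj_re _ _ _ _ (A.r_pos.trans_le (A.aH_spec q').1) (A.r_pos.trans_le (A.aH_spec q).1)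
    h1).1.symm

/-- A horizontal segment that ends on an open vertical prong does not enter a horizontal prong at
its tip. -/
theorem Ax.no_tip (A : E.Ax) {p : Pr} {w : ℂ} {a : ℝ} (ha : 0 < a)
    (hdom : ∀ s ∈ Set.Icc 0 a, w + (s : ℝ) ∈ E.Dom p) (hend : E.G p (w + a) ∈ E.Vo) (q : Pr) :
    ¬ E.Same (-1) p w q (E.aH q) := by
  intro h
  have h0 : 0 < E.aH q := A.r_pos.trans_le (A.aH_spec q).1
  have e0 : ∀ s : ℝ, (E.aH q : ℂ) + -1 * s = (E.aH q - s : ℝ) := fun s => by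
    push_cast
    ring
  have key : ∀ J : Set ℝ, IsPreconnected J → 0 ∈ J → J ⊆ Set.Icc 0 a → (∀ s ∈ J, s < E.aH q) →
      ∀ s ∈ J, E.G p (w + s) = E.G q (E.aH q - s : ℝ) := by
    intro J h1 h2 h3 h4 s hs
    rw [← e0]
    refine (A.prop (Or.inr rfl) h (h1.image _ continuous_ofReal.continuousOn) ⟨0, h2, rfl⟩
      ?_ ?_ _ ⟨s, hs, rfl⟩).eq
    · rintro _ ⟨t, ht, rfl⟩
      exact hdom t (h3 ht)
    · rintro _ ⟨t, ht, rfl⟩
      rw [e0]
      exact A.mem_re q _ (sub_pos.2 (h4 t ht))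
  rcases lt_or_ge a (E.aH q) with k | k
  · rw [key _ isPreconnected_Icc ⟨le_rfl, ha.le⟩ le_rfl (fun s hs => hs.2.trans_lt k) a
      ⟨ha.le, le_rfl⟩] at hend
    linarith [A.Hs_Vo (sub_pos.2 k) (by linarith) hend]
  · refine A.no_sing (q' := q) (ε := -1) (hdom _ ⟨h0.le, k⟩) h0 fun s s1 s2 => ?_
    have := key _ isPreconnected_Ico ⟨le_rfl, h0⟩ (fun s hs => ⟨hs.1, hs.2.le.trans k⟩)
      (fun s hs => hs.2) (E.aH q - s) ⟨by linarith, by linarith⟩
    rwa [sub_sub_cancel, ← e0, ← add_assoc] at this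

/-- The hitting set of the closed vertical prongs, near a point. -/
theorem Ax.local_Vc (A : E.Ax) {q : Pr} {w : ℂ} (hw : w ∈ E.Dom q) :
    ∀ᶠ z in 𝓝 w, E.G q z ∈ E.Vc → z.re = w.re ∧ E.G q w ∈ E.Vc := by
  filter_upwards [eventually_all.2 fun q' => A.local_im hw q' (E.len q')] with z hz
  rintro ⟨q', t, t1, t2, e⟩
  obtain ⟨h1, t₀, h2⟩ := hz q' t t1 t2 e
  exact ⟨h1, q', t₀, h2⟩

end DevData
end Pool.Agent.Work.MP_563a32_gt
end

-- merged part: Pool.Agent.Work.MP_563a32_gt.D3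
section
/-! The return map.

Plan. `wd_spec`, for `b = (q, t)`: the hitting set is nonempty. By `dich` either the whole ray is
in the domain (`hit_h` from `1 + t I` with `ℓ = r / 2`), or it runs backwards along a prong `q'`
from `a`; then `a ≥ aH q'` (`Hs_Vo`, `mem_Vo`), `a ≠ aH q'` (else `b = tip q'` by `back_eq`), and
`s = a - aH q'` is a hit. By `convex` and `local_Vc` the infimum is positive and attained. The hit
point is not the end `G q₁ (len q₁ I) = G q₂ s₂` of a vertical prong: `s₂ < aH q₂` by `inj_im`;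
follow the segment backwards with `prop`; for the sign `1` it reaches the singular point
(`no_sing`) or starts in the open horizontal prong (`Hs_Vo`); for the sign `-1` it passes the tip
of `q₂` earlier, or starts at the tip, or starts in the open prong. `T_good`: if
`T b = tip q₂` argue as for the sign `1`. `T_T`, `w_T`: `prop_h` from `T b` along the reversed
segment, then `wd_eq` and `back_eq`. `T_ne`: propagate to the midpoint, `not_same_neg`. `T_loc`:
the statement of `local_Vc` at every point of the compact segment and the tube lemma show that for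
`s` near `t` the segment at height `s` is in the domain and has no hit in `(0, wd b)`; at `wd b`
use the germ given by `T_spec`. -/

namespace Pool.Agent.Work.MP_563a32_gt
namespace DevData
open Filter Topology Complex

variable {S Pr X : Type} [TopologicalSpace S] [T2Space S] [Fintype Pr] {E : DevData S Pr X}

omit [Fintype Pr] in
/-- Propagation along a real interval. -/
theorem Ax.D3_prop (A : E.Ax) {ε q w q' w'} (hε : ε = 1 ∨ ε = -1) (h : E.Same ε q w q' w')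
    {J : Set ℝ} (hJ : IsPreconnected J) (h0 : (0 : ℝ) ∈ J) (hd : ∀ u ∈ J, w + (u : ℝ) ∈ E.Dom q)
    (hd' : ∀ u ∈ J, w' + ε * (u : ℝ) ∈ E.Dom q') :
    ∀ u ∈ J, E.Same ε q (w + (u : ℝ)) q' (w' + ε * (u : ℝ)) := by
  intro u hu
  refine A.prop hε h (U := (fun u : ℝ => (u : ℂ)) '' J)
    (hJ.image _ continuous_ofReal.continuousOn) ⟨0, h0, rfl⟩ ?_ ?_ _ ⟨u, hu, rfl⟩
  · rintro _ ⟨a, ha, rfl⟩
    exact hd a ha
  · rintro _ ⟨a, ha, rfl⟩
    exact hd' a ha

omit [T2Space S] [Fintype Pr] [TopologicalSpace S] in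
theorem D3_Vo_sub : E.Vo ⊆ E.Vc := by
  rintro _ ⟨q, t, h0, h1, rfl⟩
  exact ⟨q, t, h0, h1.le, rfl⟩

omit [T2Space S] [Fintype Pr] [TopologicalSpace S] in
theorem D3_congr {ε q w q' w' z z'} (h : E.Same ε q w q' w') (h1 : z = w) (h2 : z' = w') :
    E.Same ε q z q' z' := h1 ▸ h2 ▸ h

/-- A segment that starts on an open vertical prong does not run forwards along a horizontal
prong. -/
theorem Ax.D3_back (A : E.Ax) {q q₂ : Pr} {t m s₂ : ℝ} (hm : 0 < m)
    (hd : ∀ s ∈ Set.Icc 0 m, ((s : ℝ) : ℂ) + t * I ∈ E.Dom q) (hV : E.G q (t * I) ∈ E.Vo)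
    (h0 : 0 < s₂) (h1 : s₂ ≤ E.aH q₂) : ¬ E.Same 1 q (m + t * I) q₂ s₂ := by
  intro h
  have key : ∀ u ∈ Set.Ioc (-s₂) 0 ∩ Set.Ici (-m),
      E.G q (((m + u : ℝ) : ℂ) + t * I) = E.G q₂ ((s₂ + u : ℝ) : ℂ) := by
    intro u hu
    have h2 := A.D3_prop (Or.inl rfl) h (J := Set.Ioc (-s₂) 0 ∩ Set.Ici (-m))
      (Set.ordConnected_Ioc.inter Set.ordConnected_Ici).isPreconnected
      ⟨⟨by linarith, le_rfl⟩, by simpa using hm.le⟩
      (fun v hv => by
        have h3 := hd (m + v) ⟨by have := Set.mem_Ici.1 hv.2; linarith, by linarith [hv.1.2]⟩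
        convert h3 using 1
        push_cast
        ring)
      (fun v hv => by
        have h3 := A.mem_re q₂ (s₂ + v) (by linarith [hv.1.1])
        convert h3 using 1
        push_cast
        ring) u hu
    refine (D3_congr h2 ?_ ?_).eq
    · push_cast
      ring
    · push_cast
      ring
  rcases le_or_gt s₂ m with h2 | h2
  · refine A.no_sing (q' := q₂) (ε := 1) (hd (m - s₂) ⟨by linarith, by linarith⟩) h0
      fun s hs hs' => ?_
    have h3 := key (s - s₂) ⟨⟨by linarith, by linarith⟩, by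
      rw [Set.mem_Ici]
      linarith⟩
    convert h3 using 2
    · push_cast
      ring
    · push_cast
      ring
  · have h3 := key (-m) ⟨⟨by linarith, by linarith⟩, Set.mem_Ici.2 le_rfl⟩
    rw [add_neg_cancel, ofReal_zero, zero_add] at h3
    have h4 := A.Hs_Vo (q := q₂) (s := s₂ + -m) (by linarith) (by linarith) (h3 ▸ hV)
    linarith

theorem Ax.D3_hit (A : E.Ax) {b : Pr × ℝ} (h : E.lin.Good b) :
    {s : ℝ | 0 < s ∧ (s : ℂ) + b.2 * I ∈ E.Dom b.1 ∧ E.G b.1 (s + b.2 * I) ∈ E.Vc}.Nonempty := by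
  rcases A.dich b.1 b.2 h.2.1 with h1 | ⟨a, q', ha, h1⟩
  · obtain ⟨L, -, hL⟩ := A.hit_h (E.r / 2) (half_pos A.r_pos)
    have e : ∀ s : ℝ, (1 : ℂ) + b.2 * I + s = ((1 + s : ℝ) : ℂ) + b.2 * I := by
      intro s
      push_cast
      ring
    obtain ⟨s, hs, q', t', ht', he⟩ := hL b.1 (1 + b.2 * I) fun s hs => by
      rw [e]
      exact h1 _ (by linarith [hs.1])
    rw [e] at he
    exact ⟨1 + s, by linarith [hs.1], h1 _ (by linarith [hs.1]), q', t', ht'.1,
      ht'.2.trans (A.len_spec q').1.le, he⟩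
  · have h2 : E.Same (-1) b.1 (b.2 * I) q' a := D3_congr (h1 0 le_rfl ha) (by simp) (by simp)
    have hH := A.aH_spec q'
    have h3 : E.aH q' < a := by
      by_contra h4
      have h5 := A.Hs_Vo ha (not_lt.1 h4) (h2.eq ▸ A.mem_Vo h.1 h.2.1)
      rw [h5] at h2
      exact h.2.2 q' (A.back_eq h.1 h.2.1 h2).symm
    have h6 := h1 (a - E.aH q') (by linarith) (by linarith [A.r_pos, hH.1])
    rw [sub_sub_cancel] at h6
    exact ⟨a - E.aH q', by linarith, h6.1, h6.eq ▸ D3_Vo_sub (A.V0_sub hH.2.1)⟩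

theorem Ax.D3_least (A : E.Ax) {b : Pr × ℝ} (h : E.lin.Good b) : 0 < E.wd b ∧
    (∀ s ∈ Set.Icc 0 (E.wd b), ((s : ℝ) : ℂ) + b.2 * I ∈ E.Dom b.1) ∧
    E.G b.1 (E.wd b + b.2 * I) ∈ E.Vc ∧
    ∀ s : ℝ, 0 < s → s < E.wd b → E.G b.1 (s + b.2 * I) ∉ E.Vc := by
  have hne := A.D3_hit h
  have hbd : BddBelow {s : ℝ | 0 < s ∧ (s : ℂ) + b.2 * I ∈ E.Dom b.1 ∧
      E.G b.1 (s + b.2 * I) ∈ E.Vc} := ⟨0, fun s hs => hs.1.le⟩
  have h0 : 0 ≤ E.wd b := le_csInf hne fun s hs => hs.1.le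
  have hd : ∀ s ∈ Set.Icc 0 (E.wd b), ((s : ℝ) : ℂ) + b.2 * I ∈ E.Dom b.1 := by
    intro s hs
    obtain ⟨x, hx⟩ := hne
    have h1 : E.wd b ≤ x := csInf_le hbd hx
    refine A.convex b.1 x b.2 h.2.1 hx.2.1 s ?_
    rw [Set.uIcc_of_le hx.1.le]
    exact ⟨hs.1, hs.2.trans h1⟩
  have hc : Tendsto (fun s : ℝ => (s : ℂ) + b.2 * I) (𝓝 (E.wd b)) (𝓝 (E.wd b + b.2 * I)) :=
    (continuous_ofReal.add continuous_const).tendsto _
  have h1 := hc.eventually (A.local_Vc (hd _ ⟨h0, le_rfl⟩))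
  obtain ⟨x, hx, hx'⟩ := ((mem_closure_iff_frequently.1 (csInf_mem_closure hne hbd)).and_eventually
    h1).exists
  have h2 := hx' hx.2.2
  have h3 : x = E.wd b := by simpa using h2.1
  refine ⟨h3 ▸ hx.1, hd, h2.2, fun s hs hs' hV => ?_⟩
  have h4 : E.wd b ≤ s := csInf_le hbd ⟨hs, hd s ⟨hs.le, hs'.le⟩, hV⟩
  linarith

theorem Ax.wd_spec (A : E.Ax) {b : Pr × ℝ} (h : E.lin.Good b) : 0 < E.wd b ∧
    (∀ s ∈ Set.Icc 0 (E.wd b), ((s : ℝ) : ℂ) + b.2 * I ∈ E.Dom b.1) ∧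
    E.G b.1 (E.wd b + b.2 * I) ∈ E.Vo ∧
    ∀ s : ℝ, 0 < s → s < E.wd b → E.G b.1 (s + b.2 * I) ∉ E.Vc := by
  obtain ⟨h0, hd, ⟨q₁, t₁, h1, h2, h3⟩, hno⟩ := A.D3_least h
  refine ⟨h0, hd, ?_, hno⟩
  rcases h2.lt_or_eq with h4 | h4
  · exact ⟨q₁, t₁, h1, h4, h3⟩
  obtain ⟨q₂, s₂, h5, h6, h7⟩ := (A.len_spec q₁).2.1
  rw [h4, h7] at h3
  rcases h6.eq_or_lt with h8 | h8
  · rw [h3, h8]
    exact A.V0_sub (A.aH_spec q₂).2.1
  exfalso
  have hV := A.mem_Vo h.1 h.2.1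
  rcases A.germ _ _ _ _ (hd _ ⟨h0.le, le_rfl⟩) (A.mem_re q₂ s₂ h5) h3 with h9 | h9
  · exact A.D3_back h0 hd hV h5 h6 h9
  have key : ∀ u ∈ Set.Icc (-E.wd b) 0,
      E.Same (-1) b.1 (((E.wd b + u : ℝ) : ℂ) + b.2 * I) q₂ ((s₂ - u : ℝ) : ℂ) := by
    intro u hu
    have h10 := A.D3_prop (Or.inr rfl) h9 (J := Set.Icc (-E.wd b) 0) isPreconnected_Icc
      ⟨by linarith, le_rfl⟩
      (fun v hv => by
        have h3 := hd (E.wd b + v) ⟨by linarith [hv.1], by linarith [hv.2]⟩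
        convert h3 using 1
        push_cast
        ring)
      (fun v hv => by
        have h3 := A.mem_re q₂ (s₂ - v) (by linarith [hv.2])
        convert h3 using 1
        push_cast
        ring) u hu
    refine D3_congr h10 ?_ ?_
    · push_cast
      ring
    · push_cast
      ring
  have k0 := key (-E.wd b) ⟨le_rfl, by linarith⟩
  rw [add_neg_cancel, ofReal_zero, zero_add, sub_neg_eq_add] at k0
  rcases lt_trichotomy (E.aH q₂) (s₂ + E.wd b) with h10 | h10 | h10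
  · have k1 := key (s₂ - E.aH q₂) ⟨by linarith, by linarith⟩
    rw [sub_sub_cancel] at k1
    exact hno _ (by linarith) (by linarith)
      (k1.eq ▸ D3_Vo_sub (A.V0_sub (A.aH_spec q₂).2.1))
  · rw [← h10] at k0
    exact h.2.2 q₂ (A.back_eq h.1 h.2.1 k0).symm
  · have k1 := A.Hs_Vo (q := q₂) (s := s₂ + E.wd b) (by linarith) h10.le (k0.eq ▸ hV)
    linarith

omit [T2Space S] [Fintype Pr] [TopologicalSpace S] in
theorem wd_eq {b : Pr × ℝ} {a : ℝ} (ha : 0 < a) (hd : (a : ℂ) + b.2 * I ∈ E.Dom b.1)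
    (hend : E.G b.1 (a + b.2 * I) ∈ E.Vc)
    (hno : ∀ s : ℝ, 0 < s → s < a → E.G b.1 (s + b.2 * I) ∉ E.Vc) : E.wd b = a := by
  refine IsLeast.csInf_eq ⟨⟨ha, hd, hend⟩, fun s hs => ?_⟩
  exact not_lt.1 fun h => hno s hs.1 h hs.2.2

theorem Ax.T_spec (A : E.Ax) {b : Pr × ℝ} (h : E.lin.Good b) :
    E.lin.B (E.lin.T b) ∧ (E.lin.T b).2 ≠ 0 ∧
      E.Same (-1) (E.lin.T b).1 ((E.lin.T b).2 * I) b.1 (E.wd b + b.2 * I) := by
  obtain ⟨h0, hd, hV, -⟩ := A.wd_spec h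
  exact A.back_spec (hd _ ⟨h0.le, le_rfl⟩) hV

theorem Ax.T_good (A : E.Ax) {b : Pr × ℝ} (h : E.lin.Good b) : E.lin.Good (E.lin.T b) := by
  obtain ⟨h0, hd, -, -⟩ := A.wd_spec h
  obtain ⟨h1, h2, h3⟩ := A.T_spec h
  refine ⟨h1, h2, fun q₂ he => ?_⟩
  have h4 := (A.tip_spec q₂).2.2
  rw [← he] at h4
  have h5 := (h3.symm (Or.inr rfl)).trans h4
  rw [neg_mul_neg, one_mul] at h5
  exact A.D3_back h0 hd (A.mem_Vo h.1 h.2.1) (A.r_pos.trans_le (A.aH_spec q₂).1) le_rfl h5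

/-- The reversed segment. -/
theorem Ax.D3_rev (A : E.Ax) {b : Pr × ℝ} (h : E.lin.Good b) : ∀ s ∈ Set.Icc 0 (E.wd b),
    E.Same (-1) (E.lin.T b).1 (((s : ℝ) : ℂ) + (E.lin.T b).2 * I) b.1
      (((E.wd b - s : ℝ) : ℂ) + b.2 * I) := by
  obtain ⟨h0, hd, -, -⟩ := A.wd_spec h
  obtain ⟨-, h2, h3⟩ := A.T_spec h
  intro s hs
  have h4 := A.prop_h (Or.inr rfl) (by simpa using h2) h3 (E.wd b) (fun u hu => by
    rw [Set.uIcc_of_le h0.le] at hu
    have h5 := hd (E.wd b - u) ⟨by linarith [hu.2], by linarith [hu.1]⟩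
    convert h5 using 1
    push_cast
    ring) s (by rwa [Set.uIcc_of_le h0.le])
  refine D3_congr h4 (add_comm _ _) ?_
  push_cast
  ring

theorem Ax.w_T (A : E.Ax) {b : Pr × ℝ} (h : E.lin.Good b) : E.wd (E.lin.T b) = E.wd b := by
  obtain ⟨h0, -, -, hno⟩ := A.wd_spec h
  have h1 := A.D3_rev h _ ⟨h0.le, le_rfl⟩
  rw [sub_self, ofReal_zero, zero_add] at h1
  refine wd_eq h0 h1.1 (h1.eq ▸ D3_Vo_sub (A.mem_Vo h.1 h.2.1)) fun s hs hs' => ?_
  rw [(A.D3_rev h s ⟨hs.le, hs'.le⟩).eq]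
  exact hno _ (by linarith) (by linarith)

theorem Ax.T_T (A : E.Ax) {b : Pr × ℝ} (h : E.lin.Good b) : E.lin.T (E.lin.T b) = b := by
  have h0 := (A.wd_spec h).1
  have h1 := A.D3_rev h _ ⟨h0.le, le_rfl⟩
  rw [sub_self, ofReal_zero, zero_add, ← A.w_T h] at h1
  exact A.back_eq h.1 h.2.1 (h1.symm (Or.inr rfl))

theorem Ax.T_ne (A : E.Ax) {b : Pr × ℝ} (h : E.lin.Good b) : E.lin.T b ≠ b := by
  intro he
  have h0 := (A.wd_spec h).1
  have h1 := A.D3_rev h (E.wd b / 2) ⟨by linarith only [h0], by linarith⟩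
  rw [he, sub_half] at h1
  exact A.not_same_neg _ _ h1

omit [T2Space S] [Fintype Pr] in
theorem Ax.D3_near (A : E.Ax) {ε q w q' w'} (h : E.Same ε q w q' w') :
    ∀ᶠ z in 𝓝 (0 : ℂ), E.Same ε q (w + z) q' (w' + ε * z) := by
  have c1 : Tendsto (fun z : ℂ => w + z) (𝓝 0) (𝓝 w) :=
    (continuous_const.add continuous_id).tendsto' _ _ (by simp)
  have c2 : Tendsto (fun z : ℂ => w' + ε * z) (𝓝 0) (𝓝 w') :=
    (continuous_const.add (continuous_const.mul continuous_id)).tendsto' _ _ (by simp)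
  filter_upwards [c1.eventually ((A.isOpen q).mem_nhds h.1),
    c2.eventually ((A.isOpen q').mem_nhds h.2.1), h.2.2.eventually_nhds] with z h1 h2 h3
  refine ⟨h1, h2, ?_⟩
  have c3 : Tendsto (fun y : ℂ => z + y) (𝓝 0) (𝓝 z) :=
    (continuous_const.add continuous_id).tendsto' _ _ (by simp)
  filter_upwards [c3.eventually h3] with y hy
  rw [add_assoc, add_assoc, ← mul_add]
  exact hy

theorem Ax.T_loc (A : E.Ax) (q : Pr) (t : ℝ) (h : E.lin.Good (q, t)) : ∀ᶠ s in 𝓝 t,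
    E.lin.T (q, s) = ((E.lin.T (q, t)).1, (E.lin.T (q, t)).2 + t - s) ∧
      E.wd (q, s) = E.wd (q, t) := by
  obtain ⟨h0, hd, -, hno⟩ := A.wd_spec h
  obtain ⟨h1, h2, h3⟩ := A.T_spec h
  set m := E.wd (q, t) with hm
  set b' := E.lin.T (q, t) with hb'
  have c1 : Tendsto (fun s : ℝ => ((t - s : ℝ) : ℂ) * I) (𝓝 t) (𝓝 0) :=
    ((continuous_ofReal.comp (continuous_const.sub continuous_id)).mul continuous_const).tendsto'
      _ _ (by simp)
  have c2 : Tendsto (fun s : ℝ => b'.2 + t - s) (𝓝 t) (𝓝 b'.2) :=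
    (continuous_const.sub continuous_id).tendsto' _ _ (by simp)
  have e1 : ∀ᶠ s in 𝓝 t, ∀ x ∈ Set.Icc 0 m, E.G q (((x : ℝ) : ℂ) + (s : ℝ) * I) ∈ E.Vc →
      x = 0 ∨ x = m := by
    refine isCompact_Icc.eventually_forall_of_forall_eventually fun x hx => ?_
    have c3 : Tendsto (fun z : ℝ × ℝ => (z.2 : ℂ) + z.1 * I) (𝓝 (t, x)) (𝓝 (x + t * I)) :=
      ((continuous_ofReal.comp continuous_snd).add
        ((continuous_ofReal.comp continuous_fst).mul continuous_const)).tendsto (t, x)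
    filter_upwards [c3.eventually (A.local_Vc (hd x hx))] with z hz hV
    obtain ⟨k1, k2⟩ := hz hV
    have k3 : z.2 = x := by simpa using k1
    rw [k3]
    by_contra k4
    push Not at k4
    exact hno x (lt_of_le_of_ne hx.1 k4.1.symm) (lt_of_le_of_ne hx.2 k4.2) k2
  filter_upwards [c1.eventually (A.D3_near h3), c2.eventually (lt_mem_nhds h1.1),
    c2.eventually (gt_mem_nhds h1.2), c2.eventually_ne h2, e1] with s k1 k2 k3 k4 k5
  have k6 : E.Same (-1) b'.1 (((b'.2 + t - s : ℝ) : ℂ) * I) q (m + s * I) := by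
    refine D3_congr k1 ?_ ?_
    · push_cast
      ring
    · push_cast
      ring
  have k7 : E.lin.B (b'.1, b'.2 + t - s) := ⟨k2, k3⟩
  have k8 : E.wd (q, s) = m := by
    refine wd_eq (b := (q, s)) h0 k6.2.1 (k6.eq ▸ D3_Vo_sub (A.mem_Vo k7 k4)) fun x hx hx' hV => ?_
    rcases k5 x ⟨hx.le, hx'.le⟩ hV with k9 | k9
    · exact hx.ne' k9
    · exact hx'.ne k9
  refine ⟨?_, k8⟩
  show E.back q (E.wd (q, s) + s * I) = _
  rw [k8]
  exact A.back_eq k7 k4 k6

end DevData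
end Pool.Agent.Work.MP_563a32_gt
end

-- merged part: Pool.Agent.Work.MP_563a32_gt.D5
section
/-! Labels of horizontal sides.

Plan. `lab_eq` uses `inj_re`. `L_bdry`: the width `W` is constant on `(α, β)` (`T_loc`), and for
`t ∈ (α, β)`, `s ∈ [0, W]` one has `Same (-1) q (s + t I) q' (W - s + (c - t) I)`. `side`: if
`β ≠ 0` then `s + β I` is in the domain for `0 ≤ s < W`: otherwise `dich` gives a prong `q₁` and
`a < W` (if `a ≥ W` there is nothing to prove); propagate the germ from `s₀ + β I`, `s₀` just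
below `a`, down to height `t` just below `β` and then to the right up to `a` (inside the slit disc
of `q₁`, `mem_slit`): the point `a + t I` is `G q₁ ((β - t) I)`, a hit before `W`. The same holds
for `q'` at the lower end `c - β` (use the symmetric statement `side'`). For `β = 0` the side is
on the positive real axis. Propagate vertically to get
`Same (-1) q (s + β I) q' (W - s + (c - β) I)` for `0 < s < W`. Then four cases: both ends zero is
impossible (`no_sing`); if one is zero its prong labels the other end (`prop_h`); if none is,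
`prop_h` joins the two ends by a segment, and a point of a prong `G q₂ s₂` at one end is carried to
the other end (`germ`, `prop`, `no_sing` keeps the parameter positive). -/

namespace Pool.Agent.Work.MP_563a32_gt
namespace DevData
open Filter Topology Complex

variable {S Pr X : Type} [TopologicalSpace S] [T2Space S] [Fintype Pr] {E : DevData S Pr X}

omit [T2Space S] [Fintype Pr] in
theorem Ax.lab_eq (A : E.Ax) {b : Pr × ℝ} (hb : b.2 ≠ 0) (q : Pr) :
    E.lab b = some q ↔ ∃ s : ℝ, 0 < s ∧ E.G q s = E.G b.1 (b.2 * I) := by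
  rw [lab, if_neg hb]
  split_ifs with h
  · refine ⟨fun e => Option.some.inj e ▸ h.choose_spec, fun ⟨s, hs, e⟩ => ?_⟩
    obtain ⟨s', hs', e'⟩ := h.choose_spec
    rw [(A.inj_re _ _ _ _ hs' hs (e'.trans e.symm)).1]
  · exact iff_of_false nofun fun h' => h ⟨q, h'⟩

theorem Ax.L_tip (A : E.Ax) (q : Pr) : E.lab (E.lin.tip q) ≠ none := by
  obtain ⟨-, h1, h2⟩ := A.tip_spec q
  rw [(A.lab_eq h1 q).2 ⟨_, A.r_pos.trans_le (A.aH_spec q).1, h2.eq.symm⟩]
  nofun

theorem Ax.L_end (A : E.Ax) (q : Pr) : E.lab (q, E.len q) ≠ none := by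
  obtain ⟨h1, ⟨p, s, hs, -, e⟩, -⟩ := A.len_spec q
  rw [(A.lab_eq (b := (q, E.len q)) ((half_pos A.r_pos).trans h1).ne' p).2 ⟨s, hs, e.symm⟩]
  nofun

omit [T2Space S] [Fintype Pr] in
theorem Ax.L_N (A : E.Ax) (b : Pr × ℝ) (hb : b.2 ≠ 0) : E.lab (E.lin.N b) = E.lab b := by
  refine Option.ext fun q => ?_
  rw [A.lab_eq hb, A.lab_eq (by rwa [LinData.N_snd, neg_ne_zero]), (A.same_N b hb).eq]

omit [T2Space S] [Fintype Pr] in
theorem Ax.L_φ (A : E.Ax) (b : Pr × ℝ) :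
    E.lab (E.lin.φ b) = (E.lab b).map (fun q => E.σ⁻¹ q) := by
  have h0 : 0 < E.lam := zero_lt_one.trans A.one_lt
  by_cases hb : b.2 = 0
  · simp [lab, LinData.φ, lin, hb]
  have hb' : b.2 / E.lam ≠ 0 := div_ne_zero hb h0.ne'
  have h1 : ∀ q (s : ℝ), 0 < s → (E.G q s = E.G (E.σ⁻¹ b.1) ((b.2 / E.lam : ℝ) * I) ↔
      E.G (E.σ q) (s / E.lam : ℝ) = E.G b.1 (b.2 * I)) := fun q s hs => by
    rw [← A.F_inj.eq_iff, A.F_G _ _ (A.mem_re q s hs), A.F_G _ _ (A.mem_im _ _ hb'),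
      show E.σ (E.σ⁻¹ b.1) = b.1 from E.σ.apply_symm_apply _,
      show diag E.lam s = (s / E.lam : ℝ) from Complex.ext rfl (by
        simp only [diag, ofReal_im, mul_zero]), show diag E.lam ((b.2 / E.lam : ℝ) * I) = b.2 * I from
        Complex.ext (by simp only [diag, re_ofReal_mul, I_re, mul_zero, zero_div]) (by
          simp only [diag, im_ofReal_mul, I_im, mul_one, mul_div_cancel₀ _ h0.ne'])]
  refine Option.ext fun q => (A.lab_eq (b := E.lin.φ b) hb' q).trans (Iff.trans ?_ (by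
    simp [Equiv.symm_apply_eq] : E.lab b = some (E.σ q) ↔ _))
  rw [A.lab_eq hb]
  refine ⟨fun ⟨s, hs, e⟩ => ⟨_, div_pos hs h0, (h1 q s hs).1 e⟩,
    fun ⟨s, hs, e⟩ => ⟨_, mul_pos hs h0, (h1 q _ (mul_pos hs h0)).2 ?_⟩⟩
  rwa [mul_div_cancel_right₀ _ h0.ne']

omit [TopologicalSpace S] [T2Space S] [Fintype Pr] in
theorem Same.D5_congr {ε ε' q w z q' w' z'} (h : E.Same ε q w q' w') (h0 : ε' = ε) (h1 : z = w)
    (h2 : z' = w') : E.Same ε' q z q' z' := h0 ▸ h1 ▸ h2 ▸ h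

omit [Fintype Pr] in
theorem Ax.D5_seg (A : E.Ax) {q w q' w'} (h : E.Same (-1) q w q' w') (u : ℂ)
    (hd : ∀ τ : ℝ, 0 < τ → τ ≤ 1 → w + τ * u ∈ E.Dom q ∧ w' - τ * u ∈ E.Dom q') :
    E.Same (-1) q (w + u) q' (w' - u) := by
  have h1 : ∀ τ ∈ Set.Icc (0 : ℝ) 1, w + τ * u ∈ E.Dom q ∧ w' - τ * u ∈ E.Dom q' := fun τ hτ => by
    rcases hτ.1.eq_or_lt with rfl | h0
    · simpa using ⟨h.1, h.2.1⟩
    · exact hd τ h0 hτ.2
  refine (A.prop (Or.inr rfl) h (U := (fun τ : ℝ => τ * u) '' Set.Icc 0 1)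
    (isPreconnected_Icc.image _ (by fun_prop)) ⟨0, by simp, by simp⟩ ?_ ?_ u
    ⟨1, by simp, by simp⟩).D5_congr rfl rfl (by ring) <;> rintro _ ⟨τ, hτ, rfl⟩
  · exact (h1 τ hτ).1
  · simpa [sub_eq_add_neg] using (h1 τ hτ).2

theorem Ax.D5_side (A : E.Ax) {q : Pr} {β η W : ℝ} (hβ : β ≠ 0) (hη : η ≠ 0) (hr : |η| < E.r / 2)
    (h : ∀ τ : ℝ, 0 < τ → τ ≤ 1 → E.lin.Good (q, β - τ * η) ∧ E.wd (q, β - τ * η) = W) {s : ℝ}
    (h0 : 0 ≤ s) (h1 : s < W) : (s : ℂ) + β * I ∈ E.Dom q := by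
  obtain h2 | ⟨a, p, ha, h2⟩ := A.dich q β hβ
  · exact h2 s h0
  by_cases h3 : s < a
  · exact (h2 s h0 h3).1
  obtain ⟨δ, h4, h5, h6⟩ : ∃ δ, 0 < δ ∧ δ ≤ a ∧ δ ≤ E.r / 2 :=
    ⟨_, lt_min ha (half_pos A.r_pos), min_le_left _ _, min_le_right _ _⟩
  have h7 := A.D5_seg (h2 (a - δ) (by linarith only [h5]) (by linarith)) (δ - η * I) fun τ t0 t1 => by
    obtain ⟨k1, k2⟩ := h τ t0 t1
    have k3 := mul_le_of_le_one_left h4.le t1
    constructor
    · convert (A.wd_spec k1).2.1 (a - δ + τ * δ) ⟨by linarith only [h5, h4, t0, mul_pos_of_neg_of_neg (Mathlib.Tactic.Linarith.sub_neg_of_lt h4) (Mathlib.Tactic.Linarith.sub_neg_of_lt t0)], by linarith only [h1, h3, k2, k3]⟩ using 1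
      push_cast
      ring
    · rw [show ((a - (a - δ) : ℝ) : ℂ) - τ * (δ - η * I) = (δ - τ * δ : ℝ) + (τ * η : ℝ) * I by
        push_cast; ring]
      refine A.mem_slit _ _ (Or.inr (by simp [hη, t0.ne'])) ((norm_add_le _ _).trans_lt ?_)
      rw [norm_mul, norm_I, norm_real, norm_real, Real.norm_of_nonneg (by linarith),
        Real.norm_eq_abs, abs_mul, abs_of_pos t0]
      linarith only [hr, h6, t1, h4, t0, mul_le_of_le_one_left (abs_nonneg η) t1, mul_pos_of_neg_of_neg (Mathlib.Tactic.Linarith.sub_neg_of_lt h4) (Mathlib.Tactic.Linarith.sub_neg_of_lt t0)]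
  obtain ⟨k1, k2⟩ := h 1 one_pos le_rfl
  obtain ⟨p', t, t0, t1, e⟩ := A.mem_Vo (b := (p, η)) ⟨(neg_lt_neg (A.len_spec _).1).trans
    (abs_lt.1 hr).1, (abs_lt.1 hr).2.trans (A.len_spec _).1⟩ hη
  refine ((A.wd_spec k1).2.2.2 a ha (by linarith only [h1, h3, k2]) ⟨p', t, t0, t1.le, Eq.trans ?_ e⟩).elim
  exact (h7.D5_congr rfl (by push_cast; ring) (by push_cast; ring)).eq

/-- The upper side of a rectangle is regular. -/
theorem Ax.side (A : E.Ax) {q : Pr} {α β W : ℝ} (hαβ : α < β) (hβ : β ≠ 0)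
    (h : ∀ t ∈ Set.Ioo α β, E.lin.Good (q, t) ∧ E.wd (q, t) = W) {s : ℝ} (h0 : 0 ≤ s)
    (h1 : s < W) : (s : ℂ) + β * I ∈ E.Dom q := by
  obtain ⟨η, k0, k1, k2⟩ : ∃ η, 0 < η ∧ η < β - α ∧ η < E.r / 2 := by
    simpa only [lt_min_iff] using exists_between (lt_min (sub_pos.2 hαβ) (half_pos A.r_pos))
  refine A.D5_side hβ k0.ne' (by rwa [abs_of_pos k0]) (fun τ t0 t1 => h _ ⟨?_, ?_⟩) h0 h1 <;>
    linarith only [k1, k0, t1, t0, mul_nonneg_of_nonpos_of_nonpos (le_of_lt (Mathlib.Tactic.Linarith.sub_neg_of_lt k0)) (Mathlib.Tactic.Linarith.sub_nonpos_of_le t1), mul_pos_of_neg_of_neg (Mathlib.Tactic.Linarith.sub_neg_of_lt k0) (Mathlib.Tactic.Linarith.sub_neg_of_lt t0)]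

/-- The lower side of a rectangle is regular. -/
theorem Ax.side' (A : E.Ax) {q : Pr} {α β W : ℝ} (hαβ : α < β) (hα : α ≠ 0)
    (h : ∀ t ∈ Set.Ioo α β, E.lin.Good (q, t) ∧ E.wd (q, t) = W) {s : ℝ} (h0 : 0 ≤ s)
    (h1 : s < W) : (s : ℂ) + α * I ∈ E.Dom q := by
  obtain ⟨η, k0, k1, k2⟩ : ∃ η, 0 < η ∧ η < β - α ∧ η < E.r / 2 := by
    simpa only [lt_min_iff] using exists_between (lt_min (sub_pos.2 hαβ) (half_pos A.r_pos))
  refine A.D5_side hα (neg_ne_zero.2 k0.ne') (by rwa [abs_neg, abs_of_pos k0])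
    (fun τ t0 t1 => h _ ⟨?_, ?_⟩) h0 h1 <;> linarith only [k0, t0, k1, t1, mul_pos_of_neg_of_neg (Mathlib.Tactic.Linarith.sub_neg_of_lt k0) (Mathlib.Tactic.Linarith.sub_neg_of_lt t0), mul_nonneg_of_nonpos_of_nonpos (le_of_lt (Mathlib.Tactic.Linarith.sub_neg_of_lt k0)) (Mathlib.Tactic.Linarith.sub_nonpos_of_le t1)]

omit [Fintype Pr] in
/-- A horizontal segment that runs along the prong `p` is labelled by `p`. -/
theorem Ax.D5_far (A : E.Ax) {q p : Pr} {γ W ε b : ℝ} (hW : 0 < W) (hε : ε = 1 ∨ ε = -1)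
    (h : ∀ x : ℝ, 0 < x → x < W → 0 < b + ε * x ∧ E.Same ε q (x + γ * I) p (b + ε * x : ℝ)) :
    E.lab (q, γ) = some p := by
  obtain ⟨h1, h2⟩ := h (W / 2) (half_pos hW) (half_lt_self hW)
  by_cases hγ : γ = 0
  · rw [lab, if_pos hγ, (A.inj_re q p _ _ (half_pos hW) h1 (by simpa [hγ] using h2.eq)).1]
  have hb : 0 < b := by
    rcases hε with rfl | rfl
    · refine lt_of_le_of_ne (le_of_forall_pos_le_add fun x hx => ?_) ?_
      · linarith only [h, hx, hW, (h _ (lt_min hx (half_pos hW)) ((min_le_right _ _).trans_lt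
          (half_lt_self hW))).1, min_le_left x (W / 2)]
      · rintro rfl
        exact A.no_sing (ε := 1) (A.mem_im q γ hγ) hW fun s s0 s1 =>
          ((h s s0 s1).2.D5_congr rfl (by ring) (by push_cast; ring)).eq
    · linarith
  refine (A.lab_eq hγ p).2 ⟨b, hb, Eq.symm ((A.prop_h (by exact_mod_cast hε) (by simpa using hγ) h2
    (-(W / 2)) (fun s hs => ?_) _ Set.right_mem_uIcc).D5_congr rfl
    (by push_cast; ring) (by push_cast; ring)).eq⟩
  rw [Set.uIcc_of_ge (by linarith only [hW])] at hs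
  convert A.mem_re p (b + ε * (W / 2) + ε * s)
    (by rcases hε with rfl | rfl <;> linarith only [hb, hs, h1, hs.1, hs.2]) using 1
  push_cast
  ring

omit [Fintype Pr] in
theorem Ax.D5_end (A : E.Ax) {q q' p : Pr} {β γ W : ℝ} (hW : 0 < W)
    (h : ∀ s : ℝ, 0 < s → s < W → E.Same (-1) q (s + β * I) q' ((W - s : ℝ) + γ * I))
    (hp : E.lab (q, β) = some p) : E.lab (q', γ) = some p := by
  suffices ∃ ε b : ℝ, (ε = 1 ∨ ε = -1) ∧ ∀ s : ℝ, 0 < s → s < W →
      0 < b + ε * s ∧ E.Same ε q (s + β * I) p (b + ε * s : ℝ) by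
    obtain ⟨ε, b, hε, k⟩ := this
    refine A.D5_far (ε := -ε) (b := b + ε * W) hW (by rcases hε with rfl | rfl <;> simp)
      fun x x0 x1 => ?_
    obtain ⟨k1, k2⟩ := k (W - x) (by linarith) (by linarith)
    exact ⟨by linarith, (((h (W - x) (by linarith) (by linarith)).symm (Or.inr rfl)).trans
      k2).D5_congr (by simp) (by push_cast; ring) (by push_cast; ring)⟩
  by_cases hβ : β = 0
  · rw [lab, if_pos hβ] at hp
    obtain rfl : q = p := Option.some.inj hp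
    exact ⟨1, 0, Or.inl rfl, fun s s0 s1 => ⟨by linarith,
      (Same.refl (A.mem_re q s s0)).D5_congr rfl (by simp [hβ]) (by simp)⟩⟩
  obtain ⟨b, hb, e⟩ := (A.lab_eq hβ p).1 hp
  obtain ⟨ε, hε, k⟩ : ∃ ε : ℝ, (ε = 1 ∨ ε = -1) ∧ E.Same ε q (β * I) p b :=
    (A.germ _ _ _ _ (A.mem_im q β hβ) (A.mem_re p b hb) e.symm).elim
      (fun k => ⟨1, Or.inl rfl, k⟩) fun k => ⟨-1, Or.inr rfl, k.D5_congr (by simp) rfl rfl⟩
  have k1 : ∀ s : ℝ, 0 < s → 0 < b + ε * s → E.Same ε q (s + β * I) p (b + ε * s : ℝ) := by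
    refine fun s s0 s1 => (A.prop_h (by exact_mod_cast hε) (by simpa using hβ) k s (fun x hx => ?_)
      _ Set.right_mem_uIcc).D5_congr rfl (add_comm _ _) (by push_cast; ring)
    rw [Set.uIcc_of_le s0.le] at hx
    exact_mod_cast A.mem_re p (b + ε * x) (by rcases hε with rfl | rfl <;> linarith only [hb, hx, s1, hx.1, hx.2])
  refine ⟨ε, b, hε, fun s s0 s1 => (and_iff_left_of_imp (k1 s s0)).2 ?_⟩
  rcases hε with rfl | rfl
  · linarith
  by_contra k2
  exact A.no_sing (ε := -1) (h b hb (by linarith)).1 hb fun x x0 x1 =>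
    ((k1 (b - x) (by linarith) (by linarith)).D5_congr rfl (by push_cast; ring)
      (by push_cast; ring)).eq

theorem Ax.L_bdry (A : E.Ax) (q q' : Pr) (α β c : ℝ) (hαβ : α < β)
    (h : ∀ t ∈ Set.Ioo α β, E.lin.Good (q, t) ∧ E.lin.T (q, t) = (q', c - t)) :
    E.lab (q, β) = E.lab (q', c - β) := by
  obtain ⟨t₀, ht₀⟩ := Set.nonempty_Ioo.2 hαβ
  obtain ⟨W, hW⟩ : ∃ W, ∀ t ∈ Set.Ioo α β, E.wd (q, t) = W :=
    ⟨_, fun t ht => isPreconnected_Ioo.induction₂ (fun t t' => E.wd (q, t) = E.wd (q, t'))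
      (fun t ht => nhdsWithin_le_nhds ((A.T_loc q t (h t ht).1).mono fun _ k => k.2.symm))
      (fun _ _ _ _ _ _ => Eq.trans) (fun _ _ _ _ => Eq.symm) ht ht₀⟩
  have h0 : 0 < W := hW t₀ ht₀ ▸ (A.wd_spec (h t₀ ht₀).1).1
  have h1 : ∀ t ∈ Set.Ioo α β, E.lin.Good (q, t) ∧ E.wd (q, t) = W := fun t ht => ⟨(h t ht).1, hW t ht⟩
  have h2 : ∀ t ∈ Set.Ioo (c - β) (c - α), E.lin.Good (q', t) ∧ E.wd (q', t) = W := fun t ht => by
    have k : c - t ∈ Set.Ioo α β := ⟨by linarith [ht.2], by linarith [ht.1]⟩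
    have k1 := (h _ k).2
    rw [sub_sub_cancel] at k1
    exact k1 ▸ ⟨A.T_good (h _ k).1, (A.w_T (h _ k).1).trans (hW _ k)⟩
  have key : ∀ s : ℝ, 0 < s → s < W →
      E.Same (-1) q (s + β * I) q' ((W - s : ℝ) + (c - β : ℝ) * I) := fun s s0 s1 => by
    obtain ⟨-, k1, k2⟩ := A.T_spec (h t₀ ht₀).1
    rw [(h t₀ ht₀).2, hW t₀ ht₀] at k2
    rw [(h t₀ ht₀).2] at k1
    have k3 := (A.prop_h (Or.inr rfl) (by simpa using k1) k2 (W - s) (fun x hx => by
      rw [Set.uIcc_of_le (by linarith)] at hx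
      convert (A.wd_spec (h t₀ ht₀).1).2.1 (W - x) ⟨by linarith [hx.2], by
        linarith [hx.1, hW t₀ ht₀]⟩ using 1
      push_cast
      ring) _ Set.right_mem_uIcc).symm (Or.inr rfl)
    refine (A.D5_seg k3 ((β - t₀ : ℝ) * I) fun τ t0 t1 => ?_).D5_congr rfl (by push_cast; ring)
      (by push_cast; ring)
    obtain ⟨t, ht, k4, k5⟩ : ∃ t : ℝ, t = t₀ + τ * (β - t₀) ∧ α < t ∧ t ≤ β :=
      ⟨_, rfl, by linarith only [ht₀, t0, ht₀.1, ht₀.2, mul_pos_of_neg_of_neg (Mathlib.Tactic.Linarith.sub_neg_of_lt t0) (Mathlib.Tactic.Linarith.sub_neg_of_lt ht₀.right)], by nlinarith [ht₀.2]⟩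
    suffices k : (s : ℂ) + t * I ∈ E.Dom q ∧ ((W - s : ℝ) : ℂ) + (c - t : ℝ) * I ∈ E.Dom q' by
      convert k using 2 <;> rw [ht] <;> push_cast <;> ring
    rcases k5.eq_or_lt with rfl | k5
    · constructor
      · by_cases k6 : t = 0
        · simpa [k6] using A.mem_re q s s0
        · exact A.side hαβ k6 h1 s0.le s1
      · by_cases k6 : c - t = 0
        · simpa only [k6, ofReal_zero, zero_mul, add_zero] using A.mem_re q' _ (sub_pos.2 s1)
        · exact A.side' (by linarith) k6 h2 (by linarith) (by linarith)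
    · obtain ⟨k6, k7⟩ := h2 (c - t) ⟨by linarith, by linarith⟩
      exact ⟨(A.wd_spec (h t ⟨k4, k5⟩).1).2.1 s ⟨s0.le, (hW t ⟨k4, k5⟩).ge.trans' s1.le⟩,
        (A.wd_spec k6).2.1 _ ⟨by linarith, by linarith⟩⟩
  exact Option.ext fun p => ⟨A.D5_end h0 key, A.D5_end h0 fun s s0 s1 =>
    ((key (W - s) (by linarith) (by linarith)).symm (Or.inr rfl)).D5_congr rfl (by simp) rfl⟩

end DevData
end Pool.Agent.Work.MP_563a32_gt
end

-- merged part: Pool.Agent.Work.MP_563a32_gt.D4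
section
/-! Walking along a horizontal segment, and renormalisation.

Plan. `walk`: the set of `s ∈ (0, a]` with `G (s + t I) ∈ Vc` is finite (`local_Vc`,
compactness); induct on its cardinality, for all `b` and `a`. `b` is good by `no_tip` and
`tip_spec`; `wd b ≤ a`; `Ret b = N (T b)` has `Same 1` with the point `wd b + t I` (`same_N`,
`T_spec`); if `wd b < a`, `prop_h` carries the rest of the segment over to `Ret b`, which has
fewer hits. `renorm`: apply `walk` to `φ b` with `a = lam * wd b` (`F_dom`, `F_G`, `F_inj`,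
`len_σ`); if `Ret^[j] (φ b) = φ b''` then `same_F` gives a hit of the segment of `b` at time
`s_j / lam ∈ (0, wd b)`; the last point is identified by `frame_unique`. `renorm_tip`: `φ (tip q)`
looks back along `σ⁻¹ q` at `lam * aH q ≥ aH (σ⁻¹ q)`; in case of equality it is a tip (`m = 0`),
otherwise walk for the difference; the last point is `tip (σ⁻¹ q)`, and a point in the image of `φ`
would contradict `Hs_Vo` for `q`. -/

namespace Pool.Agent.Work.MP_563a32_gt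
namespace DevData
open Filter Topology Complex Finset

variable {S Pr X : Type} [TopologicalSpace S] [T2Space S] [Fintype Pr] {E : DevData S Pr X}

omit [TopologicalSpace S] [T2Space S] [Fintype Pr] in
theorem D4_sub : E.Vo ⊆ E.Vc := fun _ ⟨q, t, h1, h2, h3⟩ => ⟨q, t, h1, h2.le, h3⟩

theorem D4_inv {Pr : Type} (σ : Equiv.Perm Pr) (q : Pr) : σ (σ⁻¹ q) = q := σ.apply_symm_apply q

theorem D4_diag {lam : ℝ} (h : lam ≠ 0) (s t : ℝ) :
    diag lam (s + (t / lam : ℝ) * I) = (s / lam : ℝ) + t * I := by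
  apply Complex.ext
  · simp only [diag, add_re, ofReal_re, mul_re, I_re, ofReal_im, I_im, mul_zero, zero_mul,
      sub_zero, add_zero]
  · simp only [diag, add_im, ofReal_im, mul_im, ofReal_re, I_im, I_re, mul_one, mul_zero,
      add_zero, zero_add]
    field_simp

theorem D4_diag0 {lam : ℝ} (h : lam ≠ 0) (t : ℝ) : diag lam ((t / lam : ℝ) * I) = t * I := by
  simpa using D4_diag h 0 t

theorem D4_diag1 {lam : ℝ} (h : lam ≠ 0) (s : ℝ) : diag lam s = (s / lam : ℝ) := by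
  simpa using D4_diag h s 0

omit [T2Space S] [Fintype Pr] in
theorem Ax.D4_lam (A : E.Ax) : 0 < E.lam := zero_lt_one.trans A.one_lt

omit [T2Space S] [Fintype Pr] in
theorem Ax.D4_same (A : E.Ax) {ε q w q' w'} (hε : ε = 1 ∨ ε = -1) :
    E.Same ε (E.σ⁻¹ q) w (E.σ⁻¹ q') w' ↔ E.Same ε q (diag E.lam w) q' (diag E.lam w') := by
  rw [← A.same_F hε, D4_inv, D4_inv]

theorem Ax.D4_Vo (A : E.Ax) {q : Pr} {z : ℂ} (hz : z ∈ E.Dom (E.σ⁻¹ q))
    (h : E.G q (diag E.lam z) ∈ E.Vo) : E.G (E.σ⁻¹ q) z ∈ E.Vo := by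
  obtain ⟨q', t, h1, h2, h3⟩ := h
  have hl := A.D4_lam
  have h4 := div_pos h1 hl
  refine ⟨E.σ⁻¹ q', t / E.lam, h4, ?_, A.F_inj ?_⟩
  · rw [div_lt_iff₀ hl]
    linarith [A.len_σ q']
  · rw [A.F_G _ _ hz, A.F_G _ _ (A.mem_im _ _ h4.ne'), D4_inv,
      D4_inv, D4_diag0 hl.ne', h3]

theorem Ax.D4_ret (A : E.Ax) {b : Pr × ℝ} (h : E.lin.Good b) :
    E.lin.B (E.lin.Ret b) ∧ (E.lin.Ret b).2 ≠ 0 ∧
      E.Same 1 (E.lin.Ret b).1 ((E.lin.Ret b).2 * I) b.1 (E.wd b + b.2 * I) := by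
  obtain ⟨h1, h2, h3⟩ := A.T_spec h
  refine ⟨LinData.N_B' (fun q => (half_pos A.r_pos).trans (A.len_spec q).1) _ h2 h1, ?_, ?_⟩
  · rw [LinData.Ret, LinData.N_snd]
    exact neg_ne_zero.2 h2
  · have h4 := (A.same_N _ h2).trans h3
    rw [neg_one_mul, neg_neg] at h4
    exact h4

theorem Ax.D4_iter (A : E.Ax) {b : Pr × ℝ} {m j : ℕ} (h : ∀ j < m, E.lin.Good (E.lin.Ret^[j] b))
    (h0 : 0 < j) (h1 : j ≤ m) : E.lin.B (E.lin.Ret^[j] b) ∧ (E.lin.Ret^[j] b).2 ≠ 0 := by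
  obtain ⟨i, rfl⟩ := Nat.exists_eq_succ_of_ne_zero h0.ne'
  rw [Function.iterate_succ_apply']
  exact ⟨(A.D4_ret (h i h1)).1, (A.D4_ret (h i h1)).2.1⟩

theorem Ax.D4_lt (A : E.Ax) {b : Pr × ℝ} {m i j : ℕ} (h : ∀ j < m, E.lin.Good (E.lin.Ret^[j] b))
    (h0 : i < j) (h1 : j ≤ m) :
    ∑ k ∈ range i, E.wd (E.lin.Ret^[k] b) < ∑ k ∈ range j, E.wd (E.lin.Ret^[k] b) := by
  induction j, h0 using Nat.le_induction with
  | base =>
    rw [sum_range_succ]
    linarith [(A.wd_spec (h i h1)).1]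
  | succ j _ ih =>
    rw [sum_range_succ]
    linarith [(A.wd_spec (h j h1)).1, ih (Nat.le_of_succ_le h1)]

theorem Ax.D4_le (A : E.Ax) {b : Pr × ℝ} {m i j : ℕ} (h : ∀ j < m, E.lin.Good (E.lin.Ret^[j] b))
    (h0 : i ≤ j) (h1 : j ≤ m) :
    ∑ k ∈ range i, E.wd (E.lin.Ret^[k] b) ≤ ∑ k ∈ range j, E.wd (E.lin.Ret^[k] b) := by
  rcases h0.eq_or_lt with rfl | h0
  · exact le_rfl
  · exact (A.D4_lt h h0 h1).le

/-- The hits of a horizontal segment. -/
def D4_hit (E : DevData S Pr X) (b : Pr × ℝ) (a : ℝ) : Set ℝ :=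
  {s | s ∈ Set.Ioc 0 a ∧ E.G b.1 (s + b.2 * I) ∈ E.Vc}

theorem Ax.D4_fin (A : E.Ax) {b : Pr × ℝ} {a : ℝ}
    (hd : ∀ s ∈ Set.Icc 0 a, ((s : ℝ) : ℂ) + b.2 * I ∈ E.Dom b.1) : (E.D4_hit b a).Finite := by
  have h : (Set.Icc 0 a ∩ {s : ℝ | E.G b.1 (s + b.2 * I) ∈ E.Vc}).Finite := by
    refine isCompact_Icc.induction_on
      (p := fun U => (U ∩ {s : ℝ | E.G b.1 (s + b.2 * I) ∈ E.Vc}).Finite) (by simp)
      (fun U U' hU h => h.subset (Set.inter_subset_inter_left _ hU))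
      (fun U U' h h' => by rw [Set.union_inter_distrib_right]; exact h.union h') fun s hs => ?_
    have hc : Continuous fun u : ℝ => (u : ℂ) + b.2 * I := by fun_prop
    refine ⟨_, mem_nhdsWithin_of_mem_nhds (hc.continuousAt.eventually (A.local_Vc (hd s hs))),
      (Set.finite_singleton s).subset fun u hu => ?_⟩
    simpa using (hu.1 hu.2).1
  exact h.subset fun s hs => ⟨Set.Ioc_subset_Icc_self hs.1, hs.2⟩

theorem Ax.D4_walk (A : E.Ax) (n : ℕ) : ∀ {b : Pr × ℝ} (_ : E.lin.B b) (_ : b.2 ≠ 0) {a : ℝ}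
    (_ : 0 < a) (_ : (a : ℂ) + b.2 * I ∈ E.Dom b.1) (_ : E.G b.1 (a + b.2 * I) ∈ E.Vo)
    (_ : (E.D4_hit b a).ncard < n),
    ∃ m, 1 ≤ m ∧ (∀ j < m, E.lin.Good (E.lin.Ret^[j] b)) ∧
      (∀ j ≤ m, E.Same 1 (E.lin.Ret^[j] b).1 ((E.lin.Ret^[j] b).2 * I) b.1
        (((∑ k ∈ range j, E.wd (E.lin.Ret^[k] b) : ℝ) : ℂ) + b.2 * I)) ∧
      ∑ k ∈ range m, E.wd (E.lin.Ret^[k] b) = a := by
  induction n with
  | zero => exact fun _ _ _ _ _ _ h => absurd h (Nat.not_lt_zero _)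
  | succ n ih =>
    intro b hB hb a ha hdom hend hn
    have hd : ∀ s ∈ Set.Icc 0 a, ((s : ℝ) : ℂ) + b.2 * I ∈ E.Dom b.1 := fun s hs =>
      A.convex _ _ _ hb hdom s (by rwa [Set.uIcc_of_le ha.le])
    have hg : E.lin.Good b := by
      refine ⟨hB, hb, fun q hq => A.no_tip (p := b.1) (w := b.2 * I) ha
        (fun s hs => by rw [add_comm]; exact hd s hs) (by rw [add_comm]; exact hend) q ?_⟩
      rw [hq]
      exact (A.tip_spec q).2.2
    obtain ⟨w1, -, w3, w4⟩ := A.wd_spec hg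
    have hle : E.wd b ≤ a := not_lt.1 fun h => w4 a ha h (D4_sub hend)
    obtain ⟨r1, r2, r3⟩ := A.D4_ret hg
    have h0 : E.Same 1 b.1 (b.2 * I) b.1 (((0 : ℝ) : ℂ) + b.2 * I) := by
      rw [ofReal_zero, zero_add]
      exact Same.refl (A.mem_im _ _ hb)
    rcases hle.eq_or_lt with he | hlt
    · refine ⟨1, le_rfl, fun j hj => ?_, fun j hj => ?_, by simpa using he⟩
      · obtain rfl : j = 0 := by omega
        exact hg
      · obtain rfl | rfl : j = 0 ∨ j = 1 := by omega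
        · exact h0
        · simpa using r3
    have ha' : 0 < a - E.wd b := sub_pos.2 hlt
    have hP : ∀ s ∈ Set.Icc 0 (a - E.wd b), E.Same 1 (E.lin.Ret b).1 (s + (E.lin.Ret b).2 * I)
        b.1 ((s + E.wd b : ℝ) + b.2 * I) := by
      have e : ∀ s : ℝ, (E.wd b : ℂ) + b.2 * I + 1 * s = (s + E.wd b : ℝ) + b.2 * I := fun s => by
        push_cast
        ring
      have h1 := A.prop_h (Or.inl rfl) (by simpa using r2) r3 (a - E.wd b) fun s hs => by
        rw [Set.uIcc_of_le ha'.le] at hs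
        rw [e]
        exact hd _ ⟨by linarith only [w1, hs, hs.1], by linarith [hs.2]⟩
      intro s hs
      have h2 := h1 s (by rwa [Set.uIcc_of_le ha'.le])
      rwa [e, add_comm] at h2
    have hl := hP _ ⟨ha'.le, le_rfl⟩
    rw [sub_add_cancel] at hl
    have hc : (E.D4_hit (E.lin.Ret b) (a - E.wd b)).ncard < (E.D4_hit b a).ncard := by
      rw [← Set.ncard_image_of_injective _ (add_left_injective (E.wd b))]
      refine Set.ncard_lt_ncard ⟨?_, fun h => ?_⟩ (A.D4_fin hd)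
      · rintro _ ⟨s, ⟨h1, h2⟩, rfl⟩
        refine ⟨⟨by linarith [h1.1], by linarith [h1.2]⟩, ?_⟩
        rw [← (hP s (Set.Ioc_subset_Icc_self h1)).eq]
        exact h2
      · obtain ⟨s, h1, h2⟩ := h (⟨⟨w1, hle⟩, D4_sub w3⟩ : E.wd b ∈ E.D4_hit b a)
        have h3 : s + E.wd b = E.wd b := h2
        linarith [h1.1.1]
    obtain ⟨m, -, m2, m3, m4⟩ := ih r1 r2 ha' hl.1 (by rw [hl.eq]; exact hend) (by omega)
    refine ⟨m + 1, by omega, fun j hj => ?_, fun j hj => ?_, ?_⟩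
    · cases j with
      | zero => exact hg
      | succ j => exact m2 j (by omega)
    · cases j with
      | zero => exact h0
      | succ j =>
        have h1 := (m3 j (by omega)).trans (hP _ ⟨A.D4_le m2 (Nat.zero_le j) (by omega),
          (A.D4_le m2 (by omega) le_rfl).trans m4.le⟩)
        rw [one_mul] at h1
        rw [sum_range_succ']
        exact h1
    · rw [sum_range_succ']
      exact eq_sub_iff_add_eq.1 m4

theorem Ax.D4_phi (A : E.Ax) {b : Pr × ℝ} (hB : E.lin.B b) (hb : b.2 ≠ 0) :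
    E.lin.B (E.lin.φ b) ∧ (E.lin.φ b).2 ≠ 0 :=
  ⟨LinData.φ_B' (D := E.lin) A.rot_σ A.one_lt A.len_σ b hB, div_ne_zero hb A.D4_lam.ne'⟩

omit [T2Space S] [Fintype Pr] in
theorem Ax.D4_look (A : E.Ax) {ε q w} {b : Pr × ℝ} (hε : ε = 1 ∨ ε = -1) :
    E.Same ε (E.lin.φ b).1 ((E.lin.φ b).2 * I) (E.σ⁻¹ q) w ↔
      E.Same ε b.1 (b.2 * I) q (diag E.lam w) := by
  rw [← D4_diag0 A.D4_lam.ne' b.2]
  exact A.D4_same hε

theorem Ax.D4_in (A : E.Ax) {ε q w} {c : Pr × ℝ} (hε : ε = 1 ∨ ε = -1) (hc : c.2 ≠ 0)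
    (h : E.lin.InPhi c) (h1 : E.Same ε c.1 (c.2 * I) (E.σ⁻¹ q) w) :
    E.G q (diag E.lam w) ∈ E.Vo := by
  obtain ⟨b, hB, rfl⟩ := h
  rw [← ((A.D4_look hε).1 h1).eq]
  exact A.mem_Vo hB fun h0 => hc (div_eq_zero_iff.2 (Or.inl h0))

theorem Ax.walk (A : E.Ax) {b : Pr × ℝ} (hB : E.lin.B b) (hb : b.2 ≠ 0) {a : ℝ} (ha : 0 < a)
    (hdom : (a : ℂ) + b.2 * I ∈ E.Dom b.1) (hend : E.G b.1 (a + b.2 * I) ∈ E.Vo) :
    ∃ m, 1 ≤ m ∧ (∀ j < m, E.lin.Good (E.lin.Ret^[j] b)) ∧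
      (∀ j ≤ m, E.Same 1 (E.lin.Ret^[j] b).1 ((E.lin.Ret^[j] b).2 * I) b.1
        (((∑ k ∈ range j, E.wd (E.lin.Ret^[k] b) : ℝ) : ℂ) + b.2 * I)) ∧
      ∑ k ∈ range m, E.wd (E.lin.Ret^[k] b) = a :=
  A.D4_walk _ hB hb ha hdom hend (Nat.lt_succ_self _)

theorem Ax.renorm (A : E.Ax) {b : Pr × ℝ} (h : E.lin.Good b) : ∃ m, E.lin.Renorm b m := by
  have hl := A.D4_lam
  obtain ⟨w1, w2, w3, w4⟩ := A.wd_spec h
  obtain ⟨p1, p2⟩ := A.D4_phi h.1 h.2.1
  have e : diag E.lam ((E.lam * E.wd b : ℝ) + (b.2 / E.lam : ℝ) * I) = E.wd b + b.2 * I := by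
    rw [D4_diag hl.ne', mul_div_cancel_left₀ _ hl.ne']
  have hdom : ((E.lam * E.wd b : ℝ) : ℂ) + (b.2 / E.lam : ℝ) * I ∈ E.Dom (E.σ⁻¹ b.1) := by
    rw [← A.F_dom, e, D4_inv]
    exact w2 _ ⟨w1.le, le_rfl⟩
  have hend := A.D4_Vo hdom (by rw [e]; exact w3)
  obtain ⟨m, m1, m2, m3, m4⟩ := A.walk p1 p2 (mul_pos hl w1) hdom hend
  refine ⟨m, m1, m2, fun j h0 hj hin => ?_, ?_, m4⟩
  · have h1 := A.D4_in (q := b.1) (Or.inl rfl) (m2 j hj).2.1 hin (m3 j hj.le)
    have h2 := A.D4_lt m2 h0 hj.le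
    have h3 := A.D4_lt m2 hj le_rfl
    rw [sum_range_zero] at h2
    rw [m4] at h3
    refine w4 _ (div_pos h2 hl) (by rw [div_lt_iff₀ hl]; linarith only [h3]) (D4_sub ?_)
    rw [← D4_diag hl.ne']
    exact h1
  · obtain ⟨i, rfl⟩ := Nat.exists_eq_add_of_le' m1
    have h1 := m3 _ le_rfl
    rw [m4, Function.iterate_succ_apply'] at h1
    obtain ⟨-, t2, -⟩ := A.T_spec (m2 i (Nat.lt_succ_self i))
    obtain ⟨u1, u2, u3⟩ := A.T_spec h
    have h2 := ((A.same_N _ t2).symm (Or.inr rfl)).trans h1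
    rw [← e, ← A.D4_look (Or.inr rfl)] at u3
    rw [mul_one] at h2
    have h3 := h2.trans (u3.symm (Or.inr rfl))
    rw [neg_one_mul, neg_neg] at h3
    exact A.frame_unique t2 (A.D4_phi u1 u2).2 h3

theorem Ax.renorm_tip (A : E.Ax) (q : Pr) :
    ∃ m, (∀ j < m, E.lin.Good (E.lin.Ret^[j] (E.lin.φ (E.lin.tip q)))) ∧
      (∀ j, 0 < j → j ≤ m → ¬ E.lin.InPhi (E.lin.Ret^[j] (E.lin.φ (E.lin.tip q)))) ∧
      ¬ E.lin.Good (E.lin.Ret^[m] (E.lin.φ (E.lin.tip q))) := by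
  have hl := A.D4_lam
  obtain ⟨t1, t2, t3⟩ := A.tip_spec q
  obtain ⟨p1, p2⟩ := A.D4_phi t1 t2
  have hs : E.Same (-1) (E.lin.φ (E.lin.tip q)).1 ((E.lin.φ (E.lin.tip q)).2 * I) (E.σ⁻¹ q)
      (E.lam * E.aH q : ℝ) := by
    rw [A.D4_look (Or.inr rfl), D4_diag1 hl.ne', mul_div_cancel_left₀ _ hl.ne']
    exact t3
  have hle := A.aH_σ (E.σ⁻¹ q)
  rw [D4_inv] at hle
  obtain ⟨a1, a2, -⟩ := A.aH_spec (E.σ⁻¹ q)
  have a0 := A.r_pos.trans_le a1
  generalize E.lin.φ (E.lin.tip q) = c at p1 p2 hs ⊢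
  rcases hle.eq_or_lt with he | hlt
  · refine ⟨0, fun j hj => absurd hj (Nat.not_lt_zero j), fun j h0 hj => by omega, fun h => ?_⟩
    rw [← he] at hs
    exact h.2.2 (E.σ⁻¹ q) (A.back_eq p1 p2 hs).symm
  have ha := sub_pos.2 hlt
  have hP : ∀ s ∈ Set.Icc 0 (E.lam * E.aH q - E.aH (E.σ⁻¹ q)),
      E.Same (-1) c.1 (s + c.2 * I) (E.σ⁻¹ q) (E.lam * E.aH q - s : ℝ) := by
    have e : ∀ s : ℝ, ((E.lam * E.aH q : ℝ) : ℂ) + -1 * s = (E.lam * E.aH q - s : ℝ) := fun s => by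
      push_cast
      ring
    have h1 := A.prop_h (Or.inr rfl) (by simpa using p2) hs (E.lam * E.aH q - E.aH (E.σ⁻¹ q))
      fun s hs => by
        rw [Set.uIcc_of_le ha.le] at hs
        rw [e]
        exact A.mem_re _ _ (by linarith only [a0, hs, hs.2])
    intro s hs
    have h2 := h1 s (by rwa [Set.uIcc_of_le ha.le])
    rwa [e, add_comm] at h2
  have h1 := hP _ ⟨ha.le, le_rfl⟩
  rw [sub_sub_cancel] at h1
  obtain ⟨m, m1, m2, m3, m4⟩ := A.walk p1 p2 ha h1.1 (by rw [h1.eq]; exact A.V0_sub a2)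
  refine ⟨m, m2, fun j h0 hj hin => ?_, fun h => ?_⟩
  · have h2 := A.D4_lt m2 h0 hj
    have h3 := (A.D4_le m2 hj le_rfl).trans m4.le
    rw [sum_range_zero] at h2
    have h4 := (m3 j hj).trans (hP _ ⟨h2.le, h3⟩)
    rw [one_mul] at h4
    have h5 := A.D4_in (Or.inr rfl) (A.D4_iter m2 h0 hj).2 hin h4
    rw [D4_diag1 hl.ne'] at h5
    have h6 := A.Hs_Vo (div_pos (by linarith only [a0, h3]) hl) (by rw [div_le_iff₀ hl]; linarith only [h2]) h5
    rw [div_eq_iff hl.ne'] at h6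
    linarith only [h2, h6]
  · have h2 := m3 m le_rfl
    rw [m4] at h2
    have h3 := h2.trans h1
    rw [one_mul] at h3
    exact h.2.2 (E.σ⁻¹ q) (A.back_eq h.1 h.2.1 h3).symm

end DevData
end Pool.Agent.Work.MP_563a32_gt
end

-- merged part: Pool.Agent.Work.MP_563a32_gt.D6
section
/-! Every point reaches the image of `φ`, and the rectangles connect all singular points.

Plan. `reach`: apply `dich` to `b` and to `N b`. If both rays end at a singular point then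
`inj_re`, `same_N` and `not_same_neg` give a contradiction. If the ray from `b` is infinite,
`hit_h` from `1 + t I` with `ℓ = r / (2 lam)` gives a hit `G q' (t' I)` at a time `a > 0`; `walk`
ends at a point with `Same 1` to it, which is `(q', t')` or `N (q', t')` (`germ`, `frame_unique`),
both in the image of `φ`. `conn`: use the field `conn` with `ℓ = r / 2`. With `germ` and `prop_h`
(and `convex`), `a = s - ε s'` has `G q (a + t I) = G q' (t' I)`. If `a < 0` pass to `N (q, t)`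
(`rot_dom`, `rot_G`); if `a = 0` use `germ`, `frame_unique`, `same_N`; if `a > 0` use `walk`, along
which `u ∘ base` is constant. -/

namespace Pool.Agent.Work.MP_563a32_gt
namespace DevData
open Filter Topology Complex

variable {S Pr X : Type} [TopologicalSpace S] [T2Space S] [Fintype Pr] {E : DevData S Pr X}

omit [Fintype Pr] [T2Space S] in
theorem Ax.D6_eq (A : E.Ax) {b b' : Pr × ℝ} (hb : b.2 ≠ 0) (hb' : b'.2 ≠ 0)
    (h : E.G b.1 (b.2 * I) = E.G b'.1 (b'.2 * I)) : b = b' ∨ b = E.lin.N b' := by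
  rcases A.germ _ _ _ _ (A.mem_im _ _ hb) (A.mem_im _ _ hb') h with h1 | h1
  · exact Or.inl (A.frame_unique hb hb' h1)
  · right
    have h2 := h1.trans ((A.same_N b' hb').symm (Or.inr rfl))
    rw [neg_mul_neg, one_mul] at h2
    exact A.frame_unique hb (by rw [LinData.N_snd]; exact neg_ne_zero.2 hb') h2

theorem Ax.D6_len (A : E.Ax) (q : Pr) : 0 < E.lin.len q :=
  (half_pos A.r_pos).trans (A.len_spec q).1

theorem Ax.D6_B (A : E.Ax) (q : Pr) {t : ℝ} (ht : |t| ≤ E.r / 2) : E.lin.B (q, t) := by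
  have h1 := (A.len_spec q).1
  have h2 := (A.len_spec (E.rot q)).1
  obtain ⟨h3, h4⟩ := abs_le.1 ht
  constructor
  · show -E.len (E.rot q) < t
    linarith only [h2, h3]
  · show t < E.len q
    linarith only [h1, h4]

theorem Ax.D6_end (A : E.Ax) {b b' : Pr × ℝ} (hB : E.lin.B b) (hb : b.2 ≠ 0) (hB' : E.lin.B b')
    (hb' : b'.2 ≠ 0) {a : ℝ} (ha : 0 < a) (hdom : (a : ℂ) + b.2 * I ∈ E.Dom b.1)
    (h : E.G b.1 (a + b.2 * I) = E.G b'.1 (b'.2 * I)) :
    ∃ m, (∀ j < m, E.lin.Good (E.lin.Ret^[j] b)) ∧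
      (E.lin.Ret^[m] b = b' ∨ E.lin.Ret^[m] b = E.lin.N b') := by
  obtain ⟨m, h1, h2, h3, h4⟩ := A.walk hB hb ha hdom (h ▸ A.mem_Vo hB' hb')
  refine ⟨m, h2, A.D6_eq ?_ hb' ?_⟩
  · obtain ⟨k, rfl⟩ : ∃ k, m = k + 1 := ⟨m - 1, by omega⟩
    rw [Function.iterate_succ_apply', LinData.Ret, LinData.N_snd]
    exact neg_ne_zero.2 (A.T_spec (h2 k (Nat.lt_succ_self k))).2.1
  · have := (h3 m le_rfl).eq
    rw [h4] at this
    exact this.trans h

theorem Ax.D6_ray (A : E.Ax) {b : Pr × ℝ} (hB : E.lin.B b) (hb : b.2 ≠ 0)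
    (h : ∀ s : ℝ, 0 ≤ s → (s : ℂ) + b.2 * I ∈ E.Dom b.1) : E.lin.Reach b := by
  have hl : 0 < E.lam := zero_lt_one.trans A.one_lt
  have hr := half_pos A.r_pos
  have e : ∀ s : ℝ, (1 : ℂ) + b.2 * I + s = ((1 + s : ℝ) : ℂ) + b.2 * I := fun s => by
    push_cast; ring
  obtain ⟨L, -, hL⟩ := A.hit_h (E.r / 2 / E.lam) (div_pos hr hl)
  obtain ⟨s, hs, q', t, ht, h1⟩ := hL b.1 (1 + b.2 * I) fun s hs => by
    rw [e]; exact h _ (by linarith only [hs, hs.1])
  rw [e] at h1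
  have h2 : E.lam * t ≤ E.r / 2 := by
    have := (le_div_iff₀ hl).1 ht.2
    linarith only [this]
  have h3 : t ≤ E.lam * t := le_mul_of_one_le_left ht.1.le A.one_lt.le
  have hB1 : E.lin.B (q', t) := A.D6_B q' (by rw [abs_of_pos ht.1]; linarith only [h2, h3])
  have hp : 0 < E.lam * t := mul_pos hl ht.1
  have hB2 : E.lin.B (E.σ q', E.lam * t) := A.D6_B _ (by rw [abs_of_pos hp]; exact h2)
  have hφ : (q', t) = E.lin.φ (E.σ q', E.lam * t) := by
    show (q', t) = (E.σ⁻¹ (E.σ q'), E.lam * t / E.lam)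
    rw [mul_div_cancel_left₀ _ hl.ne']
    simp
  obtain ⟨m, h4, h5⟩ := A.D6_end hB hb hB1 ht.1.ne' (a := 1 + s) (by linarith only [hs, hs.1])
    (h _ (by linarith only [hs, hs.1])) h1
  refine ⟨m, h4, ?_⟩
  rcases h5 with h5 | h5
  · exact ⟨_, hB2, h5.trans hφ⟩
  · refine ⟨_, LinData.N_B' A.D6_len _ hp.ne' hB2, ?_⟩
    rw [h5, hφ]
    exact LinData.N_φ' A.rot_σ A.one_lt _

theorem Ax.reach (A : E.Ax) {b : Pr × ℝ} (hB : E.lin.B b) (hb : b.2 ≠ 0) :
    E.lin.Reach b ∨ E.lin.Reach (E.lin.N b) := by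
  have hb' : (E.lin.N b).2 ≠ 0 := by rw [LinData.N_snd]; exact neg_ne_zero.2 hb
  rcases A.dich b.1 b.2 hb with h | ⟨a, q, ha, h⟩
  · exact Or.inl (A.D6_ray hB hb h)
  rcases A.dich (E.lin.N b).1 (E.lin.N b).2 hb' with h' | ⟨a', q', ha', h'⟩
  · exact Or.inr (A.D6_ray (LinData.N_B' A.D6_len b hb hB) hb' h')
  exfalso
  have h1 := h 0 le_rfl ha
  have h2 := h' 0 le_rfl ha'
  simp only [ofReal_zero, zero_add, sub_zero] at h1 h2
  have h3 := A.same_N b hb
  obtain ⟨rfl, rfl⟩ := A.inj_re q q' a a' ha ha' (h1.eq.symm.trans (h3.eq.symm.trans h2.eq))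
  have h4 := (h3.trans h1).trans (h2.symm (Or.inr rfl))
  rw [neg_mul_neg, one_mul, one_mul] at h4
  exact A.not_same_neg _ _ h4

theorem Ax.D6_pos (A : E.Ax) (u : X → ℂ)
    (h : ∀ b, E.lin.Good b → u (E.base (E.lin.T b).1) = u (E.base b.1))
    {b b' : Pr × ℝ} (hB : E.lin.B b) (hb : b.2 ≠ 0) (hB' : E.lin.B b')
    (hb' : b'.2 ≠ 0) {a : ℝ} (ha : 0 ≤ a) (hdom : (a : ℂ) + b.2 * I ∈ E.Dom b.1)
    (he : E.G b.1 (a + b.2 * I) = E.G b'.1 (b'.2 * I)) : u (E.base b.1) = u (E.base b'.1) := by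
  have hN : ∀ c : Pr × ℝ, E.base (E.lin.N c).1 = E.base c.1 := LinData.base_N' (D := E.lin) A.base_rot
  rcases ha.eq_or_lt with rfl | ha
  · rw [ofReal_zero, zero_add] at he
    rcases A.D6_eq hb hb' he with h1 | h1
    · rw [h1]
    · rw [h1, hN]
  obtain ⟨m, h1, h2⟩ := A.D6_end hB hb hB' hb' ha hdom he
  have h3 : ∀ j ≤ m, u (E.base (E.lin.Ret^[j] b).1) = u (E.base b.1) := by
    intro j hj
    induction j with
    | zero => rfl
    | succ j ih =>
      rw [Function.iterate_succ_apply', LinData.Ret, hN, h _ (h1 j hj), ih (Nat.le_of_succ_le hj)]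
  rw [← h3 m le_rfl]
  rcases h2 with h2 | h2
  · rw [h2]
  · rw [h2, hN]

omit [Fintype Pr] [T2Space S] in
theorem Ax.D6_flip (A : E.Ax) {b : Pr × ℝ} (hb : b.2 ≠ 0) {a : ℝ}
    (hdom : (a : ℂ) + b.2 * I ∈ E.Dom b.1) :
    ((-a : ℝ) : ℂ) + (E.lin.N b).2 * I ∈ E.Dom (E.lin.N b).1 ∧
      E.G (E.lin.N b).1 (((-a : ℝ) : ℂ) + (E.lin.N b).2 * I) = E.G b.1 (a + b.2 * I) := by
  obtain ⟨q, t⟩ := b
  have e : ((-a : ℝ) : ℂ) + ((-t : ℝ) : ℂ) * I = -((a : ℂ) + t * I) := by push_cast; ring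
  by_cases ht : 0 < t
  · have h1 : E.lin.N (q, t) = (E.rot⁻¹ q, -t) := if_pos ht
    have h2 : E.rot (E.rot⁻¹ q) = q := by simp
    have h3 : 0 < ((a : ℂ) + t * I).im := by simpa using ht
    rw [h1]
    simp only [e]
    have h4 := A.rot_dom (E.rot⁻¹ q) _ h3
    have h5 := A.rot_G (E.rot⁻¹ q) _ h3
    rw [h2] at h4 h5
    exact ⟨h4.1 hdom, (h5 hdom).symm⟩
  · have h1 : E.lin.N (q, t) = (E.rot q, -t) := if_neg ht
    have h3 : 0 < (-((a : ℂ) + t * I)).im := by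
      simpa using lt_of_le_of_ne (not_lt.1 ht) hb
    rw [h1]
    simp only [e]
    have h4 := (A.rot_dom q _ h3).2 (by rwa [neg_neg])
    exact ⟨h4, by rw [A.rot_G q _ h3 h4, neg_neg]⟩

theorem Ax.conn' (A : E.Ax) (u : X → ℂ)
    (h : ∀ b, E.lin.Good b → u (E.base (E.lin.T b).1) = u (E.base b.1)) : ∀ x y, u x = u y := by
  refine A.conn (E.r / 2) (half_pos A.r_pos) u fun q q' s t s' t' ht htr ht' htr' hd hd' he => ?_
  have hB := A.D6_B q htr.le
  have hB' := A.D6_B q' htr'.le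
  have him : ((s : ℂ) + t * I).im ≠ 0 := by simpa using ht
  obtain ⟨a, h1, h2⟩ : ∃ a : ℝ, (a : ℂ) + t * I ∈ E.Dom q ∧
      E.G q (a + t * I) = E.G q' (t' * I) := by
    rcases A.germ _ _ _ _ hd hd' he with h1 | h1
    · have h2 := A.prop_h (Or.inl rfl) him h1 (-s') (fun x hx => by
        have := A.convex q' s' t' ht' hd' (s' + x) (by
          rcases Set.mem_uIcc.1 hx with h | h <;>
            exact Set.mem_uIcc.2 (by first | (left; constructor <;> linarith [h.1, h.2]) |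
              (right; constructor <;> linarith only [h, h.1, h.2])))
        convert this using 1
        push_cast; ring) (-s') Set.right_mem_uIcc
      have e1 : (s : ℂ) + t * I + ((-s' : ℝ) : ℂ) = ((s - s' : ℝ) : ℂ) + t * I := by
        push_cast; ring
      have e2 : (s' : ℂ) + t' * I + 1 * ((-s' : ℝ) : ℂ) = t' * I := by push_cast; ring
      rw [e1, e2] at h2
      exact ⟨_, h2.1, h2.eq⟩
    · have h2 := A.prop_h (Or.inr rfl) him h1 s' (fun x hx => by
        have := A.convex q' s' t' ht' hd' (s' - x) (by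
          rcases Set.mem_uIcc.1 hx with h | h <;>
            exact Set.mem_uIcc.2 (by first | (left; constructor <;> linarith [h.1, h.2]) |
              (right; constructor <;> linarith only [h, h.1, h.2])))
        convert this using 1
        push_cast; ring) s' Set.right_mem_uIcc
      have e1 : (s : ℂ) + t * I + (s' : ℂ) = ((s + s' : ℝ) : ℂ) + t * I := by
        push_cast; ring
      have e2 : (s' : ℂ) + t' * I + -1 * (s' : ℂ) = t' * I := by ring
      rw [e1, e2] at h2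
      exact ⟨_, h2.1, h2.eq⟩
  rcases le_total 0 a with ha | ha
  · exact A.D6_pos u h (b := (q, t)) (b' := (q', t')) hB ht hB' ht' ha h1 h2
  · obtain ⟨h3, h4⟩ := A.D6_flip (b := (q, t)) ht h1
    have h5 := A.D6_pos u h (b' := (q', t')) (LinData.N_B' A.D6_len _ ht hB)
      (by rw [LinData.N_snd]; exact neg_ne_zero.2 ht) hB' ht' (neg_nonneg.2 ha) h3 (h4.trans h2)
    rwa [show E.base (E.lin.N (q, t)).1 = E.base q from LinData.base_N' (D := E.lin) A.base_rot _] at h5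

end DevData
end Pool.Agent.Work.MP_563a32_gt
end

-- merged part: Pool.Agent.Work.MP_563a32_gt.B1
section
/-! The intervals and the involution induced on them.

Plan. All cut points of `q` lie in `[-len (rot q), len q]` (`tip_B`), so the finite set defining
`hi` is nonempty and contains its infimum. `card_I`: the map from three copies of `Pr` given by
`q ↦ (q, -len (rot q))`, `q ↦ (q, 0)`, `q ↦ tip q` is a bijection onto `I`. `T_on`: on the
interval `Ioo lo hi` the maps `t ↦ (T (q, t)).1`, `t ↦ (T (q, t)).2 + t` and `t ↦ w (q, t)` are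
locally constant (`T_loc`), so constant. The image interval consists of good points, so it
contains no cut point and lies in `TI i`; the same applied to `TI i` with `T_T` gives the reverse
inclusion, so the ends match. -/

namespace Pool.Agent.Work.MP_563a32_gt
namespace LinData
open Finset

variable {Pr X : Type} [Fintype Pr] [DecidableEq Pr] {D : LinData Pr X}

omit [Fintype Pr] [DecidableEq Pr] in
/-- `Ret` is injective on good points. -/
theorem Ax.Ret_inj (A : D.Ax) {b b' : Pr × ℝ} (h : D.Good b) (h' : D.Good b')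
    (e : D.Ret b = D.Ret b') : b = b' := by
  have h1 := congrArg D.N e
  rw [Ret, Ret, N_N _ (A.T_good b h).2.1, N_N _ (A.T_good b' h').2.1] at h1
  rw [← A.T_T b h, h1, A.T_T b' h']

omit [Fintype Pr] [DecidableEq Pr] in
/-- Points of small height lie in the image of `φ`. -/
theorem Ax.inPhi_small (A : D.Ax) (q : Pr) : ∀ᶠ t in nhds (0 : ℝ), D.InPhi (q, t) := by
  have hl : D.lam ≠ 0 := (zero_lt_one.trans A.one_lt).ne'
  have hc : ContinuousAt (fun t : ℝ => t * D.lam) 0 := by fun_prop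
  have h1 : Set.Ioo (-D.len (D.rot (D.σ q))) (D.len (D.σ q)) ∈ nhds ((0 : ℝ) * D.lam) := by
    rw [zero_mul]
    exact Ioo_mem_nhds (neg_lt_zero.2 (A.len_pos _)) (A.len_pos _)
  filter_upwards [hc h1] with t ht
  exact ⟨(D.σ q, t * D.lam), ht, by simp [φ, hl]⟩

theorem B1_cuts {q : Pr} {β : ℝ} : β ∈ D.cuts q ↔
    β = -D.len (D.rot q) ∨ β = 0 ∨ β = D.len q ∨ ∃ p, D.tip p = (q, β) := by
  simp only [cuts, mem_union, mem_insert, mem_singleton, mem_image, mem_filter, mem_univ, true_and,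
    Prod.ext_iff, or_assoc]

theorem Ax.B1_bd (A : D.Ax) {q : Pr} {β : ℝ} (h : β ∈ D.cuts q) :
    -D.len (D.rot q) ≤ β ∧ β ≤ D.len q := by
  have h1 := A.len_pos q
  have h2 := A.len_pos (D.rot q)
  rcases B1_cuts.1 h with rfl | rfl | rfl | ⟨p, hp⟩
  · exact ⟨le_rfl, by linarith⟩
  · exact ⟨by linarith, h1.le⟩
  · exact ⟨by linarith, le_rfl⟩
  · have h3 := A.tip_B p
    rw [hp] at h3
    exact ⟨h3.1.le, h3.2.le⟩

theorem B1_not {b : Pr × ℝ} (h : D.Good b) : b.2 ∉ D.cuts b.1 := fun h1 => by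
  rcases B1_cuts.1 h1 with h2 | h2 | h2 | ⟨p, hp⟩
  · exact h.1.1.ne' h2
  · exact h.2.1 h2
  · exact h.1.2.ne h2
  · exact h.2.2 p hp.symm

theorem B1_fin (i : D.I) : {β | β ∈ D.cuts i.pr ∧ i.lo < β}.Finite :=
  (D.cuts i.pr).finite_toSet.subset fun _ h => h.1

theorem B1_hi (i : D.I) : i.hi ∈ D.cuts i.pr ∧ i.lo < i.hi :=
  Set.Nonempty.csInf_mem (s := {β | β ∈ D.cuts i.pr ∧ i.lo < β})
    ⟨D.len i.pr, B1_cuts.2 (Or.inr (Or.inr (Or.inl rfl))), i.2.2⟩ (B1_fin i)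

theorem Ax.lo_lt_hi (A : D.Ax) (i : D.I) : i.lo < i.hi := by
  exact (B1_hi i).2

theorem Ax.hi_mem (A : D.Ax) (i : D.I) : i.hi ∈ D.cuts i.pr := by
  exact (B1_hi i).1

theorem Ax.hi_le (A : D.Ax) (i : D.I) {β : ℝ} (h : β ∈ D.cuts i.pr) (h' : i.lo < β) :
    i.hi ≤ β := by
  exact csInf_le (B1_fin i).bddBelow ⟨h, h'⟩

theorem Ax.mem_good (A : D.Ax) {i : D.I} {b : Pr × ℝ} (h : i.Mem b) : D.Good b := by
  obtain ⟨q, t⟩ := b
  obtain ⟨rfl, h1, h2⟩ := h
  have h3 : t ∉ D.cuts i.pr := fun h3 => (A.hi_le i h3 h1).not_gt h2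
  exact ⟨⟨(A.B1_bd i.2.1).1.trans_lt h1, h2.trans_le (A.B1_bd (A.hi_mem i)).2⟩,
    fun h4 => h3 (B1_cuts.2 (Or.inr (Or.inl h4))),
    fun p h4 => h3 (B1_cuts.2 (Or.inr (Or.inr (Or.inr ⟨p, h4.symm⟩))))⟩

theorem Ax.mem_mid (A : D.Ax) (i : D.I) : i.Mem i.mid := by
  have := A.lo_lt_hi i
  exact ⟨rfl, by simp only [I.mid]; linarith only [this], by simp only [I.mid]; linarith⟩

theorem Ax.mem_intv (A : D.Ax) {b : Pr × ℝ} (h : D.Good b) : (A.intv b).Mem b := by
  have : ∃ i : D.I, i.Mem b := by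
    obtain ⟨α, hα, hm⟩ := exists_max_image ((D.cuts b.1).filter (· < b.2)) id
      ⟨_, mem_filter.2 ⟨B1_cuts.2 (Or.inl rfl), h.1.1⟩⟩
    obtain ⟨h1, h2⟩ := mem_filter.1 hα
    let i : D.I := ⟨(b.1, α), h1, h2.trans h.1.2⟩
    refine ⟨i, rfl, h2, lt_of_le_of_ne (not_lt.1 fun h3 => ?_) fun h3 => ?_⟩
    · exact (hm _ (mem_filter.2 ⟨A.hi_mem i, h3⟩)).not_gt (A.lo_lt_hi i)
    · exact B1_not h (h3 ▸ A.hi_mem i)
  rw [Ax.intv, dif_pos this]
  exact this.choose_spec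

theorem Ax.intv_eq (A : D.Ax) {i : D.I} {b : Pr × ℝ} (h : i.Mem b) : A.intv b = i := by
  have h' := A.mem_intv (A.mem_good h)
  generalize A.intv b = j at h'
  have e : j.pr = i.pr := h'.1.symm.trans h.1
  have key : ∀ i j : D.I, i.Mem b → j.Mem b → i.pr = j.pr → j.lo ≤ i.lo := fun i j hi hj e =>
    not_lt.1 fun h1 => (A.hi_le i (e ▸ j.2.1) h1).not_gt (hj.2.1.trans hi.2.2)
  exact Subtype.ext (Prod.ext e (le_antisymm (key i j h h' e.symm) (key j i h' h e)))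

/-- An open interval of good points lies in one interval. -/
theorem Ax.sub_intv (A : D.Ax) {q : Pr} {α β t : ℝ} (h : ∀ s ∈ Set.Ioo α β, D.Good (q, s))
    (ht : t ∈ Set.Ioo α β) : (A.intv (q, t)).lo ≤ α ∧ β ≤ (A.intv (q, t)).hi := by
  obtain ⟨h1, h2, h3⟩ := A.mem_intv (h t ht)
  generalize A.intv (q, t) = i at h1 h2 h3
  obtain rfl : q = i.pr := h1
  exact ⟨not_lt.1 fun h4 => B1_not (h _ ⟨h4, h2.trans ht.2⟩) i.2.1,
    not_lt.1 fun h4 => B1_not (h _ ⟨ht.1.trans h3, h4⟩) (A.hi_mem i)⟩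

theorem Ax.card_I (A : D.Ax) : Fintype.card D.I = 3 * Fintype.card Pr := by
  have neg : ∀ q, -D.len (D.rot q) < 0 := fun q => neg_lt_zero.2 (A.len_pos _)
  let f : Pr ⊕ Pr ⊕ Pr → D.I := Sum.elim
    (fun q => ⟨(q, -D.len (D.rot q)), B1_cuts.2 (Or.inl rfl), (neg q).trans (A.len_pos q)⟩)
    (Sum.elim A.first fun q =>
      ⟨D.tip q, B1_cuts.2 (Or.inr (Or.inr (Or.inr ⟨q, rfl⟩))), (A.tip_B q).2⟩)
  have tl : ∀ q p, (q, -D.len (D.rot q)) ≠ D.tip p := fun q p e => by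
    have := (A.tip_B p).1
    rw [← e] at this
    exact lt_irrefl _ this
  have t0 : ∀ q p, (q, (0 : ℝ)) ≠ D.tip p := fun q p e => A.tip_ne p (by rw [← e])
  have hf : Function.Bijective f := by
    constructor
    · rintro (q | q | q) (p | p | p) e <;> have e' := congrArg Subtype.val e
      · rw [(Prod.mk.inj e').1]
      · exact absurd (Prod.mk.inj e').2 (neg q).ne
      · exact absurd e' (tl q p)
      · exact absurd (Prod.mk.inj e').2 (neg p).ne'
      · rw [(Prod.mk.inj e').1]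
      · exact absurd e' (t0 q p)
      · exact absurd e'.symm (tl p q)
      · exact absurd e'.symm (t0 p q)
      · rw [A.tip_inj e']
    · rintro ⟨⟨q, β⟩, h1, h2⟩
      rcases B1_cuts.1 h1 with h3 | h3 | h3 | ⟨p, hp⟩
      · exact ⟨Sum.inl q, Subtype.ext (Prod.ext rfl h3.symm)⟩
      · exact ⟨Sum.inr (Sum.inl q), Subtype.ext (Prod.ext rfl h3.symm)⟩
      · exact absurd h3 h2.ne
      · exact ⟨Sum.inr (Sum.inr p), Subtype.ext hp⟩
  rw [← Fintype.card_of_bijective hf, Fintype.card_sum, Fintype.card_sum]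
  ring

theorem Ax.B1_const (A : D.Ax) (i : D.I) : ∃ (q : Pr) (c : ℝ),
    ∀ t ∈ Set.Ioo i.lo i.hi, D.T (i.pr, t) = (q, c - t) ∧ D.w (i.pr, t) = D.w i.mid := by
  let g : ℝ → Pr × ℝ × ℝ := fun t => ((D.T (i.pr, t)).1, (D.T (i.pr, t)).2 + t, D.w (i.pr, t))
  have key : ∀ t ∈ Set.Ioo i.lo i.hi, g t = g i.mid.2 := fun t ht =>
    isPreconnected_Ioo.induction₂' (fun x y => g x = g y) (fun x hx => by
      refine nhdsWithin_le_nhds ?_
      filter_upwards [A.T_loc i.pr x (A.mem_good ⟨rfl, hx⟩)] with y hy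
      have : g x = g y := by simp only [g, hy.1, hy.2, sub_add_cancel]
      exact ⟨this, this.symm⟩) (fun _ _ _ _ _ _ => Eq.trans) ht (A.mem_mid i).2
  refine ⟨(g i.mid.2).1, (g i.mid.2).2.1, fun t ht => ?_⟩
  have h := key t ht
  refine ⟨?_, congrArg (fun x => x.2.2) h⟩
  rw [← h]
  simp only [g, add_sub_cancel_right]

theorem Ax.T_on (A : D.Ax) (i : D.I) : ∃ c : ℝ,
    (∀ t ∈ Set.Ioo i.lo i.hi,
      D.T (i.pr, t) = ((A.TI i).pr, c - t) ∧ D.w (i.pr, t) = D.w i.mid) ∧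
    (A.TI i).lo = c - i.hi ∧ (A.TI i).hi = c - i.lo := by
  obtain ⟨q, c, h⟩ := A.B1_const i
  have hm := A.mem_mid i
  have h1 : D.T i.mid = (q, c - i.mid.2) := (h _ hm.2).1
  have h2 : (A.TI i).Mem (q, c - i.mid.2) := h1 ▸ A.mem_intv (A.T_good _ (A.mem_good hm))
  have h3 := A.sub_intv (q := q) (α := c - i.hi) (β := c - i.lo) (t := c - i.mid.2)
    (fun s hs => by
      have h3 : c - s ∈ Set.Ioo i.lo i.hi := ⟨by linarith [hs.2], by linarith [hs.1]⟩
      have h4 := A.T_good _ (A.mem_good (i := i) (b := (i.pr, c - s)) ⟨rfl, h3⟩)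
      rwa [(h _ h3).1, sub_sub_cancel] at h4)
    ⟨by linarith [hm.2.2], by linarith [hm.2.1]⟩
  rw [A.intv_eq h2] at h3
  obtain rfl : q = (A.TI i).pr := h2.1
  obtain ⟨q', c', h'⟩ := A.B1_const (A.TI i)
  have h4 := (h' (c - i.mid.2) h2.2).1
  rw [show D.T ((A.TI i).pr, c - i.mid.2) = i.mid by rw [← h1, A.T_T _ (A.mem_good hm)]] at h4
  obtain rfl : i.pr = q' := congrArg Prod.fst h4
  obtain rfl : c = c' := by
    have := congrArg Prod.snd h4
    simp only at this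
    linarith
  have h5 := A.sub_intv (q := i.pr) (α := c - (A.TI i).hi) (β := c - (A.TI i).lo) (t := i.mid.2)
    (fun s hs => by
      have h5 : c - s ∈ Set.Ioo (A.TI i).lo (A.TI i).hi :=
        ⟨by linarith [hs.2], by linarith [hs.1]⟩
      have h6 := A.T_good _ (A.mem_good (i := A.TI i) (b := ((A.TI i).pr, c - s)) ⟨rfl, h5⟩)
      rwa [(h' _ h5).1, sub_sub_cancel] at h6)
    ⟨by linarith [h2.2.2], by linarith [h2.2.1]⟩
  rw [A.intv_eq (b := (i.pr, i.mid.2)) hm] at h5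
  exact ⟨c, h, by linarith [h3.1, h5.2], by linarith [h3.2, h5.1]⟩

theorem Ax.intv_T (A : D.Ax) {b : Pr × ℝ} (h : D.Good b) :
    A.intv (D.T b) = A.TI (A.intv b) := by
  obtain ⟨h1, h2⟩ := A.mem_intv h
  obtain ⟨c, h3, h4, h5⟩ := A.T_on (A.intv b)
  have h6 := (h3 _ h2).1
  rw [← h1] at h6
  refine A.intv_eq ?_
  rw [show D.T b = _ from h6]
  exact ⟨rfl, by rw [h4]; linarith only [A, h2, h2.2], by rw [h5]; linarith [h2.1]⟩

theorem Ax.w_intv (A : D.Ax) {b : Pr × ℝ} (h : D.Good b) : D.w (A.intv b).mid = D.w b := by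
  obtain ⟨h1, h2⟩ := A.mem_intv h
  obtain ⟨c, h3, -⟩ := A.T_on (A.intv b)
  have h6 := (h3 _ h2).2
  rw [← h1] at h6
  exact h6.symm

theorem Ax.TI_TI (A : D.Ax) (i : D.I) : A.TI (A.TI i) = i := by
  have h := A.mem_good (A.mem_mid i)
  have h1 := A.intv_T (A.T_good _ h)
  rw [A.T_T _ h, A.intv_eq (A.mem_mid i)] at h1
  exact h1.symm

theorem Ax.TI_ne (A : D.Ax) (i : D.I) : A.TI i ≠ i := by
  intro e
  obtain ⟨c, h1, h2, -⟩ := A.T_on i
  rw [e] at h1 h2
  refine A.T_ne _ (A.mem_good (A.mem_mid i)) ((h1 _ (A.mem_mid i).2).1.trans ?_)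
  refine Prod.ext rfl ?_
  simp only [I.mid]
  linarith only [h2]

end LinData
end Pool.Agent.Work.MP_563a32_gt
end

-- merged part: Pool.Agent.Work.MP_563a32_gt.B2
section
/-! The strips: the preimage of the rectangle over an interval crosses a fixed sequence of
intervals.

Plan. `renorm_unique`: if `m < m'` are return numbers of `b`, then
`Ret^[m] (φ b) = N (φ (T b)) = φ (N (T b))` is in the image of `φ`. `orbit_loc`: by induction on
`k`, if the first `k` points of the orbit of `(q, t)` are good then for `s` near `t` the points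
`Ret^[j] (q, s)`, `j ≤ k`, are those of `t` moved by `s - t` (use `T_loc`; `N` is locally
`t ↦ - t` as heights of `T b` are nonzero; goodness is open). Hence the return number is locally
constant on an interval: compare `∑ w = lam * w` for nearby points and use `w > 0`. So it is
constant, and for each `k < m` the maps `t ↦ (Ret^[k] (φ (q, t))).1` and
`t ↦ (Ret^[k] (φ (q, t))).2 - t / lam` are locally constant, so constant. -/

namespace Pool.Agent.Work.MP_563a32_gt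
namespace LinData
open Finset Filter Topology

variable {Pr X : Type} [Fintype Pr] [DecidableEq Pr] {D : LinData Pr X}

omit [Fintype Pr] [DecidableEq Pr] in
theorem B2_const {α : Type} (f : ℝ → α) {a b : ℝ}
    (h : ∀ t ∈ Set.Ioo a b, ∀ᶠ s in 𝓝 t, f s = f t) {s t : ℝ} (hs : s ∈ Set.Ioo a b)
    (ht : t ∈ Set.Ioo a b) : f s = f t := by
  letI : TopologicalSpace α := ⊥
  haveI : DiscreteTopology α := ⟨rfl⟩
  refine IsPreconnected.constant isPreconnected_Ioo ?_ hs ht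
  intro u hu
  refine ContinuousAt.continuousWithinAt ?_
  exact (continuousAt_const (y := f u)).congr ((h u hu).mono fun s hs => hs.symm)

omit [Fintype Pr] [DecidableEq Pr] in
theorem Ax.B2_ret (A : D.Ax) {b : Pr × ℝ} (h : D.Good b) {m : ℕ} (hm : D.Renorm b m) :
    D.InPhi (D.Ret^[m] (D.φ b)) := by
  obtain ⟨h1, -, -, h4, -⟩ := hm
  obtain ⟨k, rfl⟩ : ∃ k, m = k + 1 := ⟨m - 1, by omega⟩
  rw [Function.iterate_succ_apply', Ret]
  simp only [Nat.add_sub_cancel] at h4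
  rw [h4, A.N_φ]
  have hT := A.T_good b h
  exact ⟨_, A.N_B _ hT.2.1 hT.1, rfl⟩

theorem Ax.renorm_unique (A : D.Ax) {b : Pr × ℝ} (h : D.Good b) {m m' : ℕ}
    (hm : D.Renorm b m) (hm' : D.Renorm b m') : m = m' := by
  rcases lt_trichotomy m m' with hlt | he | hlt
  · exact absurd (A.B2_ret h hm) (hm'.2.2.1 m hm.1 hlt)
  · exact he
  · exact absurd (A.B2_ret h hm') (hm.2.2.1 m' hm'.1 hlt)

theorem Ax.good_open (A : D.Ax) {q : Pr} {t : ℝ} (h : D.Good (q, t)) :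
    ∀ᶠ s in 𝓝 t, D.Good (q, s) := by
  obtain ⟨⟨h1, h2⟩, h3, h4⟩ := h
  simp only at h1 h2 h3
  have e1 : ∀ᶠ s in 𝓝 t, -D.len (D.rot q) < s := lt_mem_nhds h1
  have e2 : ∀ᶠ s in 𝓝 t, s < D.len q := gt_mem_nhds h2
  have e3 : ∀ᶠ s in 𝓝 t, s ≠ 0 := eventually_ne_nhds h3
  have e4 : ∀ᶠ s in 𝓝 t, ∀ p, (q, s) ≠ D.tip p := by
    refine eventually_all.mpr fun p => ?_
    by_cases hp : (D.tip p).1 = q
    · have : t ≠ (D.tip p).2 := by
        intro e
        exact h4 p (Prod.ext hp.symm e)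
      filter_upwards [eventually_ne_nhds this] with s hs e
      exact hs (congrArg Prod.snd e)
    · exact Eventually.of_forall fun s e => hp (congrArg Prod.fst e).symm
  filter_upwards [e1, e2, e3, e4] with s a1 a2 a3 a4
  exact ⟨⟨a1, a2⟩, a3, a4⟩

theorem Ax.B2_ret_loc (A : D.Ax) {q : Pr} {t : ℝ} (h : D.Good (q, t)) : ∀ᶠ s in 𝓝 t,
    D.Ret (q, s) = ((D.Ret (q, t)).1, (D.Ret (q, t)).2 + s - t) ∧ D.Good (q, s) ∧
      D.w (q, s) = D.w (q, t) := by
  have hT := (A.T_good _ h).2.1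
  have hc : Tendsto (fun s : ℝ => (D.T (q, t)).2 + t - s) (𝓝 t) (𝓝 (D.T (q, t)).2) := by
    have : Continuous fun s : ℝ => (D.T (q, t)).2 + t - s := by fun_prop
    simpa using this.tendsto t
  have hs : ∀ᶠ s in 𝓝 t, (0 < (D.T (q, t)).2 + t - s ↔ 0 < (D.T (q, t)).2) := by
    rcases lt_or_gt_of_ne hT with hlt | hgt
    · filter_upwards [hc.eventually (gt_mem_nhds hlt)] with s hs
      exact ⟨fun h' => absurd h' (not_lt.mpr hs.le), fun h' => absurd h' (not_lt.mpr hlt.le)⟩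
    · filter_upwards [hc.eventually (lt_mem_nhds hgt)] with s hs
      exact ⟨fun _ => hgt, fun _ => hs⟩
  filter_upwards [A.T_loc q t h, A.good_open h, hs] with s h1 h2 h3
  refine ⟨?_, h2, h1.2⟩
  unfold Ret
  rw [h1.1]
  unfold N
  by_cases hp : 0 < (D.T (q, t)).2
  · rw [if_pos (h3.mpr hp), if_pos hp]
    ext
    · rfl
    · simp only; ring
  · rw [if_neg (fun h' => hp (h3.mp h')), if_neg hp]
    ext
    · rfl
    · simp only; ring

theorem Ax.orbit_loc (A : D.Ax) {q : Pr} {t : ℝ} {k : ℕ}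
    (h : ∀ j < k, D.Good (D.Ret^[j] (q, t))) : ∀ᶠ s in 𝓝 t,
      (∀ j ≤ k, D.Ret^[j] (q, s) = ((D.Ret^[j] (q, t)).1, (D.Ret^[j] (q, t)).2 + s - t)) ∧
      ∀ j < k, D.Good (D.Ret^[j] (q, s)) ∧ D.w (D.Ret^[j] (q, s)) = D.w (D.Ret^[j] (q, t)) := by
  induction k with
  | zero =>
    refine Eventually.of_forall fun s => ⟨fun j hj => ?_, fun j hj => absurd hj (by omega)⟩
    obtain rfl : j = 0 := by omega
    simp
  | succ k ih =>
    have hk := h k (by omega)
    set b := D.Ret^[k] (q, t) with hb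
    have hc : Tendsto (fun s : ℝ => b.2 + s - t) (𝓝 t) (𝓝 b.2) := by
      have : Continuous fun s : ℝ => b.2 + s - t := by fun_prop
      simpa using this.tendsto t
    have hk' : D.Good (b.1, b.2) := hk
    filter_upwards [ih fun j hj => h j (by omega), hc.eventually (A.B2_ret_loc hk')] with s h1 h2
    have e := h1.1 k le_rfl
    refine ⟨fun j hj => ?_, fun j hj => ?_⟩
    · rcases Nat.lt_or_ge j (k + 1) with hlt | hge
      · exact h1.1 j (by omega)
      · obtain rfl : j = k + 1 := by omega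
        rw [Function.iterate_succ_apply', Function.iterate_succ_apply', e, ← hb, h2.1]
        ext
        · rfl
        · simp only; ring
    · rcases Nat.lt_or_ge j k with hlt | hge
      · exact h1.2 j hlt
      · obtain rfl : j = k := by omega
        rw [e, ← hb]
        exact h2.2

theorem Ax.B2_phi_loc (A : D.Ax) {q : Pr} {t : ℝ} {k : ℕ}
    (h : ∀ j < k, D.Good (D.Ret^[j] (D.φ (q, t)))) : ∀ᶠ s in 𝓝 t,
      (∀ j ≤ k, D.Ret^[j] (D.φ (q, s)) = ((D.Ret^[j] (D.φ (q, t))).1,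
        (D.Ret^[j] (D.φ (q, t))).2 + s / D.lam - t / D.lam)) ∧
      ∀ j < k, D.Good (D.Ret^[j] (D.φ (q, s))) ∧
        D.w (D.Ret^[j] (D.φ (q, s))) = D.w (D.Ret^[j] (D.φ (q, t))) := by
  have hc : Tendsto (fun s : ℝ => s / D.lam) (𝓝 t) (𝓝 (t / D.lam)) :=
    (continuous_id.div_const D.lam).tendsto t
  exact hc.eventually (A.orbit_loc (q := D.σ⁻¹ q) (t := t / D.lam) h)

theorem Ax.B2_renorm_loc (A : D.Ax) {q : Pr} {t : ℝ} (h : D.Good (q, t)) {m : ℕ}
    (hm : D.Renorm (q, t) m) : ∀ᶠ s in 𝓝 t, D.Renorm (q, s) m := by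
  filter_upwards [A.B2_phi_loc hm.2.1, A.B2_ret_loc h] with s h1 h2
  obtain ⟨m', hm'⟩ := A.renorm _ h2.2.1
  have e1 : ∑ j ∈ range m, D.w (D.Ret^[j] (D.φ (q, s))) = D.lam * D.w (q, s) := by
    rw [h2.2.2, ← hm.2.2.2.2]
    exact sum_congr rfl fun j hj => (h1.2 j (mem_range.mp hj)).2
  have e2 := hm'.2.2.2.2
  have key : ∀ a b : ℕ, a < b → (∀ j < b, D.Good (D.Ret^[j] (D.φ (q, s)))) →
      ∑ j ∈ range a, D.w (D.Ret^[j] (D.φ (q, s))) <
        ∑ j ∈ range b, D.w (D.Ret^[j] (D.φ (q, s))) := by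
    intro a b hab hg
    refine sum_lt_sum_of_subset (range_subset_range.mpr hab.le) (i := a) (mem_range.mpr hab)
      (by simp) (A.w_pos _ (hg a hab)) fun j hj _ => (A.w_pos _ (hg j (mem_range.mp hj))).le
  have : m' = m := by
    rcases lt_trichotomy m' m with hlt | he | hlt
    · have := key m' m hlt fun j hj => (h1.2 j hj).1
      linarith only [e1, e2, this, hlt]
    · exact he
    · have := key m m' hlt hm'.2.1
      linarith only [hlt, e1, e2, this]
  exact this ▸ hm'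

theorem Ax.B2_mid (A : D.Ax) (i : D.I) : (i.lo + i.hi) / 2 ∈ Set.Ioo i.lo i.hi := by
  have := A.lo_lt_hi i
  constructor <;> linarith only [this]

theorem Ax.B2_mem (i : D.I) {t : ℝ} (ht : t ∈ Set.Ioo i.lo i.hi) : i.Mem (i.pr, t) :=
  ⟨rfl, ht.1, ht.2⟩

theorem Ax.renorm_mem (A : D.Ax) {i : D.I} {b : Pr × ℝ} (h : i.Mem b) : D.Renorm b i.m := by
  classical
  obtain ⟨q, t⟩ := b
  obtain ⟨h1, h2, h3⟩ := h
  simp only at h1 h2 h3
  subst h1
  let f : ℝ → ℕ := fun s => if h : ∃ m, D.Renorm (i.pr, s) m then h.choose else 0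
  have hf : ∀ s ∈ Set.Ioo i.lo i.hi, D.Renorm (i.pr, s) (f s) := by
    intro s hs
    have hex := A.renorm _ (A.mem_good (Ax.B2_mem i hs))
    simp only [f, dif_pos hex]
    exact hex.choose_spec
  have hconst : f t = f ((i.lo + i.hi) / 2) := by
    refine B2_const f (fun u hu => ?_) ⟨h2, h3⟩ (A.B2_mid i)
    filter_upwards [A.B2_renorm_loc (A.mem_good (Ax.B2_mem i hu)) (hf u hu),
      isOpen_Ioo.mem_nhds hu] with s h1 hs
    exact A.renorm_unique (A.mem_good (Ax.B2_mem i hs)) (hf s hs) h1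
  have hm : i.m = f ((i.lo + i.hi) / 2) := rfl
  rw [hm, ← hconst]
  exact hf t ⟨h2, h3⟩

theorem Ax.B2_strip (A : D.Ax) (i : D.I) {k : ℕ} (hk : k < i.m) {t : ℝ}
    (ht : t ∈ Set.Ioo i.lo i.hi) :
    D.Ret^[k] (D.φ (i.pr, t)) = ((A.J i k).pr, i.e k + t / D.lam) := by
  let f : ℝ → Pr × ℝ := fun s =>
    ((D.Ret^[k] (D.φ (i.pr, s))).1, (D.Ret^[k] (D.φ (i.pr, s))).2 - s / D.lam)
  have hconst : f t = f ((i.lo + i.hi) / 2) := by
    refine B2_const f (fun u hu => ?_) ht (A.B2_mid i)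
    have hr := A.renorm_mem (Ax.B2_mem i hu)
    filter_upwards [A.B2_phi_loc (k := k) fun j hj => hr.2.1 j (by omega)] with s h1
    simp only [f]
    rw [h1.1 k le_rfl]
    ext
    · rfl
    · simp only; ring
  have hg : D.Good (D.Ret^[k] (D.φ i.mid)) := (A.renorm_mem (A.mem_mid i)).2.1 k hk
  have hJ : (D.Ret^[k] (D.φ i.mid)).1 = (A.J i k).pr := (A.mem_intv hg).1
  have e1 := congrArg Prod.fst hconst
  have e2 := congrArg Prod.snd hconst
  simp only [f] at e1 e2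
  ext
  · exact e1.trans hJ
  · have : i.e k = (D.Ret^[k] (D.φ (i.pr, (i.lo + i.hi) / 2))).2 - (i.lo + i.hi) / 2 / D.lam := rfl
    simp only
    rw [this, ← e2]; ring

theorem Ax.B2_strip_le (A : D.Ax) (i : D.I) {k : ℕ} (hk : k < i.m) :
    (A.J i k).lo ≤ i.e k + i.lo / D.lam ∧ i.e k + i.hi / D.lam ≤ (A.J i k).hi := by
  have hl : 0 < D.lam := by have := A.one_lt; linarith only [this]
  have hgood : ∀ s ∈ Set.Ioo (i.e k + i.lo / D.lam) (i.e k + i.hi / D.lam),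
      D.Good ((A.J i k).pr, s) := by
    intro s hs
    have ht : (s - i.e k) * D.lam ∈ Set.Ioo i.lo i.hi := by
      obtain ⟨h1, h2⟩ := hs
      constructor
      · rw [← div_lt_iff₀ hl]; linarith only [h1]
      · rw [← lt_div_iff₀ hl]; linarith only [h2]
    have h1 := A.B2_strip i hk ht
    have h2 := (A.renorm_mem (Ax.B2_mem i ht)).2.1 k hk
    rw [h1] at h2
    have : i.e k + (s - i.e k) * D.lam / D.lam = s := by field_simp; ring
    rwa [this] at h2
  have hm := A.B2_mid i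
  have hmem : i.e k + (i.lo + i.hi) / 2 / D.lam ∈
      Set.Ioo (i.e k + i.lo / D.lam) (i.e k + i.hi / D.lam) := by
    constructor
    · have := div_lt_div_of_pos_right hm.1 hl
      linarith only [this]
    · have := div_lt_div_of_pos_right hm.2 hl
      linarith only [this]
  have h3 := A.sub_intv hgood hmem
  rw [← A.B2_strip i hk hm] at h3
  exact h3

theorem Ax.strip (A : D.Ax) (i : D.I) {k : ℕ} (hk : k < i.m) {t : ℝ}
    (ht : t ∈ Set.Ioo i.lo i.hi) :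
    D.Ret^[k] (D.φ (i.pr, t)) = ((A.J i k).pr, i.e k + t / D.lam) ∧
      (A.J i k).Mem (D.Ret^[k] (D.φ (i.pr, t))) := by
  have hl : 0 < D.lam := by have := A.one_lt; linarith only [this]
  have h1 := A.B2_strip i hk ht
  have h2 := A.B2_strip_le i hk
  refine ⟨h1, ?_⟩
  rw [h1]
  have h3 := div_lt_div_of_pos_right ht.1 hl
  have h4 := div_lt_div_of_pos_right ht.2 hl
  refine ⟨rfl, ?_, ?_⟩ <;> simp only <;> linarith only [A, h2, h3, h4, h2.1, h2.2]

theorem Ax.strip_le (A : D.Ax) (i : D.I) {k : ℕ} (hk : k < i.m) :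
    (A.J i k).lo ≤ i.e k + i.lo / D.lam ∧ i.e k + i.hi / D.lam ≤ (A.J i k).hi := by
  exact A.B2_strip_le i hk

end LinData
end Pool.Agent.Work.MP_563a32_gt
end

-- merged part: Pool.Agent.Work.MP_563a32_gt.B3
section
/-! The transition matrix.

Plan. `sum_M` is `Finset.sum_fiberwise`. `M_w`: `w (J i k).mid = w (Ret^[k] (φ mid))` by `w_intv`.
`M_symm`: with `b = mid`, `m = i.m`, induction gives
`Ret^[k] (φ (T b)) = T (Ret^[m - 1 - k] (φ b))` for `k < m`; the return number `m'` of `T b`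
equals `m` (both width sums are `lam * w b`; or use that step `m` lands in the image of `φ`);
`T b` lies in `TI i`, so `strip` and `intv_T` give `J (TI i) k = TI (J i (m - 1 - k))`.
`strip_disj`: if `Ret^[k] (φ b) = Ret^[k'] (φ b')` with `k ≤ k'`, `Ret_inj` gives
`φ b = Ret^[k' - k] (φ b')`, so `k = k'` and `b = b'`. `del_equiv` telescopes: `J i (k + 1)` has
the base of `TI (J i k)` by `base_N`. -/

namespace Pool.Agent.Work.MP_563a32_gt
namespace LinData
open Finset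

variable {Pr X : Type} [Fintype Pr] [DecidableEq Pr] {D : LinData Pr X}

omit [Fintype Pr] [DecidableEq Pr] in
theorem Ax.B3_rev (A : D.Ax) {b : Pr × ℝ} {m : ℕ} (h : D.Renorm b m) {k : ℕ} (hk : k < m) :
    D.Ret^[k] (D.φ (D.T b)) = D.T (D.Ret^[m - 1 - k] (D.φ b)) := by
  induction k with
  | zero => exact h.2.2.2.1.symm
  | succ k ih =>
    rw [Function.iterate_succ_apply', ih (by omega), Ret, A.T_T _ (h.2.1 _ (by omega)),
      show m - 1 - k = m - 1 - (k + 1) + 1 by omega, Function.iterate_succ_apply', Ret,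
      N_N _ (A.T_good _ (h.2.1 _ (by omega))).2.1]

omit [Fintype Pr] [DecidableEq Pr] in
theorem Ax.B3_renorm (A : D.Ax) {b : Pr × ℝ} (hb : D.Good b) {m : ℕ} (h : D.Renorm b m) :
    D.Renorm (D.T b) m := by
  have h1 := h.1
  refine ⟨h1, fun j hj => ?_, fun j h0 hj ⟨b', hb', e⟩ => ?_, ?_, ?_⟩
  · rw [A.B3_rev h hj]
    exact A.T_good _ (h.2.1 _ (by omega))
  · have g := (A.T_good _ (h.2.1 (m - 1 - j) (by omega))).2.1
    rw [A.B3_rev h hj] at e
    refine h.2.2.1 (m - 1 - j + 1) (by omega) (by omega) ⟨D.N b', A.N_B _ (fun h0 => g ?_) hb', ?_⟩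
    · rw [e, φ, h0, zero_div]
    · rw [Function.iterate_succ_apply', Ret, e, A.N_φ]
  · rw [A.B3_rev h (by omega), Nat.sub_self, A.T_T _ (h.2.1 _ (by omega)), A.T_T _ hb]
    rfl
  · rw [A.w_T _ hb, ← h.2.2.2.2, ← sum_range_reflect]
    refine sum_congr rfl fun j hj => ?_
    rw [mem_range] at hj
    rw [A.B3_rev h (by omega), A.w_T _ (h.2.1 _ (by omega)), show m - 1 - (m - 1 - j) = j by omega]

omit [Fintype Pr] [DecidableEq Pr] in
theorem Ax.B3_inj (A : D.Ax) {b b' : Pr × ℝ} (hb : D.B b) {m m' k d : ℕ} (h : D.Renorm b m)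
    (h' : D.Renorm b' m') (hk : k < m) (hk' : k + d < m')
    (e : D.Ret^[k] (D.φ b) = D.Ret^[k + d] (D.φ b')) : d = 0 ∧ b = b' := by
  induction k with
  | zero =>
    rw [zero_add] at e hk'
    obtain rfl : d = 0 := by
      by_contra h0
      exact h'.2.2.1 d (by omega) hk' ⟨b, hb, e.symm⟩
    have h0 : D.lam ≠ 0 := (one_pos.trans A.one_lt).ne'
    exact ⟨rfl, Prod.ext (D.σ⁻¹.injective (congrArg Prod.fst e))
      ((div_left_inj' h0).1 (congrArg Prod.snd e))⟩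
  | succ k ih =>
    rw [Nat.add_right_comm, Function.iterate_succ_apply', Function.iterate_succ_apply'] at e
    exact ih (by omega) (by omega) (A.Ret_inj (h.2.1 _ (by omega)) (h'.2.1 _ (by omega)) e)

theorem Ax.B3_mid (A : D.Ax) (i : D.I) : D.Renorm i.mid i.m := A.renorm_mem (A.mem_mid i)

theorem Ax.B3_mem_TI (A : D.Ax) (i : D.I) : (A.TI i).Mem (D.T i.mid) :=
  A.mem_intv (A.T_good _ (A.mem_good (A.mem_mid i)))

theorem Ax.B3_m (A : D.Ax) (i : D.I) : (A.TI i).m = i.m :=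
  A.renorm_unique (A.mem_good (A.B3_mem_TI i)) (A.renorm_mem (A.B3_mem_TI i))
    (A.B3_renorm (A.mem_good (A.mem_mid i)) (A.B3_mid i))

theorem Ax.B3_J (A : D.Ax) {i : D.I} {b : Pr × ℝ} (hb : i.Mem b) {k : ℕ} (hk : k < i.m) :
    A.intv (D.Ret^[k] (D.φ b)) = A.J i k := by
  obtain ⟨q, t⟩ := b
  obtain ⟨rfl, h⟩ := hb
  exact A.intv_eq (A.strip i hk h).2

theorem Ax.B3_J_TI (A : D.Ax) (i : D.I) {k : ℕ} (hk : k < i.m) :
    A.J (A.TI i) k = A.TI (A.J i (i.m - 1 - k)) := by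
  rw [← A.B3_J (A.B3_mem_TI i) (by rwa [A.B3_m]), A.B3_rev (A.B3_mid i) hk,
    A.intv_T ((A.B3_mid i).2.1 _ (by omega))]
  rfl

theorem Ax.sum_M (A : D.Ax) {R : Type} [CommSemiring R] (z : D.I → R) (i : D.I) :
    ∑ j, (A.M j i : R) * z j = ∑ k ∈ range i.m, z (A.J i k) := by
  rw [← sum_fiberwise (range i.m) (A.J i)]
  refine sum_congr rfl fun j _ => ?_
  rw [sum_congr rfl fun k hk => by rw [(mem_filter.1 hk).2], sum_const, nsmul_eq_mul]
  rfl

theorem Ax.M_w (A : D.Ax) (i : D.I) :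
    ∑ j, (A.M j i : ℝ) * D.w j.mid = D.lam * D.w i.mid := by
  rw [A.sum_M (fun j => D.w j.mid), ← (A.B3_mid i).2.2.2.2]
  exact sum_congr rfl fun k hk => A.w_intv ((A.B3_mid i).2.1 k (mem_range.1 hk))

theorem Ax.M_symm (A : D.Ax) (j i : D.I) : A.M (A.TI j) (A.TI i) = A.M j i := by
  unfold Ax.M
  rw [A.B3_m]
  refine card_nbij' (fun k => i.m - 1 - k) (fun k => i.m - 1 - k) (fun k hk => ?_)
    (fun k hk => ?_) (fun k hk => ?_) fun k hk => ?_ <;>
    simp only [coe_filter, mem_range, Set.mem_ofPred_eq] at hk ⊢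
  · refine ⟨by omega, ?_⟩
    rw [← A.TI_TI j, ← hk.2, A.B3_J_TI i hk.1, A.TI_TI]
  · refine ⟨by omega, ?_⟩
    rw [A.B3_J_TI i (by omega), ← hk.2, show i.m - 1 - (i.m - 1 - k) = k by omega]
  · omega
  · omega

theorem Ax.first_M (A : D.Ax) (q : Pr) : 1 ≤ A.M (A.first (D.σ⁻¹ q)) (A.first q) := by
  have h1 : 0 < (A.first q).hi := A.lo_lt_hi (A.first q)
  have h2 : 0 < (A.first (D.σ⁻¹ q)).hi := A.lo_lt_hi (A.first _)
  have h3 := (A.B3_mid (A.first q)).1
  obtain ⟨t, h4, h5⟩ := exists_between (lt_min h1 h2)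
  rw [lt_min_iff] at h5
  refine card_pos.2 ⟨0, mem_filter.2 ⟨mem_range.2 h3, ?_⟩⟩
  rw [← A.B3_J (i := A.first q) (b := (q, t)) ⟨rfl, h4, h5.1⟩ h3]
  exact A.intv_eq ⟨rfl, div_pos h4 (one_pos.trans A.one_lt), (div_lt_self h4 A.one_lt).trans h5.2⟩

theorem Ax.strip_disj (A : D.Ax) {i i' : D.I} {k k' : ℕ} (hk : k < i.m) (hk' : k' < i'.m)
    (hJ : A.J i k = A.J i' k') (hne : (i, k) ≠ (i', k')) :
    Disjoint (Set.Ioo (i.e k + i.lo / D.lam) (i.e k + i.hi / D.lam))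
      (Set.Ioo (i'.e k' + i'.lo / D.lam) (i'.e k' + i'.hi / D.lam)) := by
  have h0 : 0 < D.lam := one_pos.trans A.one_lt
  have key {i : D.I} {k : ℕ} (hk : k < i.m) {s : ℝ}
      (hs : s ∈ Set.Ioo (i.e k + i.lo / D.lam) (i.e k + i.hi / D.lam)) :
      ∃ b, i.Mem b ∧ D.Ret^[k] (D.φ b) = ((A.J i k).pr, s) := by
    have ht : (s - i.e k) * D.lam ∈ Set.Ioo i.lo i.hi :=
      ⟨(div_lt_iff₀ h0).1 (by linarith only [hs, hs.1]), (lt_div_iff₀ h0).1 (by linarith only [hs, hs.2])⟩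
    refine ⟨(i.pr, (s - i.e k) * D.lam), ⟨rfl, ht⟩, ?_⟩
    rw [(A.strip i hk ht).1, mul_div_cancel_right₀ _ h0.ne', add_sub_cancel]
  refine Set.disjoint_left.2 fun s hs hs' => hne ?_
  obtain ⟨b, hb, e⟩ := key hk hs
  obtain ⟨b', hb', e'⟩ := key hk' hs'
  rw [hJ, ← e'] at e
  have : k = k' ∧ b = b' := by
    rcases le_total k k' with h | h
    · obtain ⟨d, rfl⟩ := Nat.exists_eq_add_of_le h
      obtain ⟨rfl, h1⟩ := A.B3_inj (A.mem_good hb).1 (A.renorm_mem hb) (A.renorm_mem hb') hk hk' e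
      exact ⟨rfl, h1⟩
    · obtain ⟨d, rfl⟩ := Nat.exists_eq_add_of_le h
      obtain ⟨rfl, h1⟩ :=
        A.B3_inj (A.mem_good hb').1 (A.renorm_mem hb') (A.renorm_mem hb) hk' hk e.symm
      exact ⟨rfl, h1.symm⟩
  obtain ⟨rfl, rfl⟩ := this
  rw [← A.intv_eq hb, ← A.intv_eq hb']

theorem Ax.del_equiv (A : D.Ax) (b : X → ℂ) (i : D.I) :
    ∑ j, (A.M j i : ℂ) * (b (D.base (A.TI j).pr) - b (D.base j.pr)) =
      b (D.fX⁻¹ (D.base (A.TI i).pr)) - b (D.fX⁻¹ (D.base i.pr)) := by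
  have h := A.B3_mid i
  have hσ (q : Pr) : D.base (D.σ⁻¹ q) = D.fX⁻¹ (D.base q) := by
    apply D.fX.injective
    rw [← A.base_σ]
    simp
  rw [A.sum_M (fun j => b (D.base (A.TI j).pr) - b (D.base j.pr)),
    sum_congr rfl (g := fun k => b (D.base (D.Ret^[k + 1] (D.φ i.mid)).1) -
      b (D.base (D.Ret^[k] (D.φ i.mid)).1)) fun k hk => ?_,
    sum_range_sub fun k => b (D.base (D.Ret^[k] (D.φ i.mid)).1)]
  · have h1 := h.1
    rw [show i.m = i.m - 1 + 1 by omega, Function.iterate_succ_apply', Ret, h.2.2.2.1, A.base_N,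
      ← hσ, ← hσ, ← (A.B3_mem_TI i).1]
    rfl
  · have g := h.2.1 k (mem_range.1 hk)
    rw [Ax.J, ← A.intv_T g, ← (A.mem_intv g).1, ← (A.mem_intv (A.T_good _ g)).1,
      Function.iterate_succ_apply', Ret, A.base_N]

theorem Ax.del_ker (A : D.Ax) (b : X → ℂ)
    (h : ∀ i : D.I, b (D.base (A.TI i).pr) = b (D.base i.pr)) : ∀ x y, b x = b y := by
  refine A.conn b fun c hc => ?_
  rw [(A.mem_intv hc).1, (A.mem_intv (A.T_good _ hc)).1, A.intv_T hc, h]

end LinData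
end Pool.Agent.Work.MP_563a32_gt
end

-- merged part: Pool.Agent.Work.MP_563a32_gt.B4
section
/-! Disjoint subintervals of an interval.

Plan. Strong induction on the finite set, generalising `α`: remove the interval with the least
lower end `a k₀`; all others lie in `[b k₀, β]`. For `tile`, `tile_le` applied to the rest forces
`a k₀ = α`. -/

namespace Pool.Agent.Work.MP_563a32_gt
open Finset

theorem b4_aux {κ : Type} (a b : κ → ℝ) (β : ℝ) (F : ℝ → ℂ) (s : Finset κ) :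
    ∀ α : ℝ, α ≤ β → (∀ k ∈ s, α ≤ a k ∧ a k < b k ∧ b k ≤ β) →
    (∀ k ∈ s, ∀ l ∈ s, k ≠ l → Disjoint (Set.Ioo (a k) (b k)) (Set.Ioo (a l) (b l))) →
    ∑ k ∈ s, (b k - a k) ≤ β - α ∧
      (∑ k ∈ s, (b k - a k) = β - α → ∑ k ∈ s, (F (b k) - F (a k)) = F β - F α) := by
  classical
  induction s using Finset.strongInduction with
  | H s ih =>
    intro α hαβ h hd
    rcases s.eq_empty_or_nonempty with rfl | hne
    · refine ⟨by simpa using hαβ, fun e => ?_⟩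
      rw [sum_empty] at e
      rw [sum_empty, show β = α by linarith, sub_self]
    · obtain ⟨k, hk, hmin⟩ := s.exists_min_image a hne
      obtain ⟨h1, h2⟩ := ih (s.erase k) (erase_ssubset hk) (b k) (h k hk).2.2
        (fun l hl => by
          have hl' := mem_of_mem_erase hl
          refine ⟨?_, (h l hl').2⟩
          have h3 := Set.Ioo_disjoint_Ioo.1 (hd k hk l hl' (ne_of_mem_erase hl).symm)
          rw [max_eq_right (hmin l hl'), min_le_iff] at h3
          exact h3.resolve_right (not_le.2 (h l hl').2.1))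
        (fun i hi l hl => hd i (mem_of_mem_erase hi) l (mem_of_mem_erase hl))
      have h3 := (h k hk).1
      rw [← add_sum_erase s _ hk, ← add_sum_erase s _ hk]
      refine ⟨by linarith, fun e => ?_⟩
      rw [h2 (by linarith), show a k = α by linarith]
      ring

theorem tile_le {κ : Type} (s : Finset κ) (a b : κ → ℝ) (α β : ℝ) (hαβ : α ≤ β)
    (h : ∀ k ∈ s, α ≤ a k ∧ a k < b k ∧ b k ≤ β)
    (hd : ∀ k ∈ s, ∀ l ∈ s, k ≠ l → Disjoint (Set.Ioo (a k) (b k)) (Set.Ioo (a l) (b l))) :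
    ∑ k ∈ s, (b k - a k) ≤ β - α :=
  (b4_aux a b β (fun _ => 0) s α hαβ h hd).1

theorem tile {κ : Type} (s : Finset κ) (a b : κ → ℝ) (α β : ℝ)
    (h : ∀ k ∈ s, α ≤ a k ∧ a k < b k ∧ b k ≤ β)
    (hd : ∀ k ∈ s, ∀ l ∈ s, k ≠ l → Disjoint (Set.Ioo (a k) (b k)) (Set.Ioo (a l) (b l)))
    (hs : ∑ k ∈ s, (b k - a k) = β - α) (F : ℝ → ℂ) :
    ∑ k ∈ s, (F (b k) - F (a k)) = F β - F α := by
  have h0 : 0 ≤ ∑ k ∈ s, (b k - a k) := sum_nonneg fun k hk => sub_nonneg.2 (h k hk).2.1.le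
  exact (b4_aux a b β F s α (by linarith) h hd).2 hs

end Pool.Agent.Work.MP_563a32_gt
end

-- merged part: Pool.Agent.Work.MP_563a32_gt.B5
section
/-! Heights add, and the labels of the horizontal sides.

Plan. `M_h`: the strips `(i, k)` with `J i k = j` are disjoint subintervals of `j` of lengths
`(hi - lo) / lam`, so `≤` holds by `tile_le`; weighting with `w j.mid` and summing over `j`,
`M_w` shows that the two sides have the same total, so equality holds everywhere.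
`L_hi`: `hi` is a cut point above the lowest one; `L_lo` from `T_on` and `L_bdry` applied to
`TI i`. `L_strip`: induction on `k`; `k = 0` is `L_φ`; in the step use `T_on` for `J i k`,
`L_bdry` on the strip (for the lower end apply it to the image strip, using `T_T`) and `L_N`. The
ends of the image strip have nonzero height: otherwise the strip `k + 1` would contain points of
small height, which lie in the image of `φ` (`inPhi_small`). `d_equiv`: `tile` with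
`F t = a (σ ((L (j.pr, t)).getD j.pr))`. -/

namespace Pool.Agent.Work.MP_563a32_gt
namespace LinData
open Finset

variable {Pr X : Type} [Fintype Pr] [DecidableEq Pr] {D : LinData Pr X}

/-- The strips that lie in `j`. -/
noncomputable def Ax.B5S (A : D.Ax) (j : D.I) : Finset (Σ _ : D.I, ℕ) :=
  univ.sigma fun i => (range i.m).filter fun k => A.J i k = j

theorem Ax.B5_mem (A : D.Ax) {j : D.I} {x : Σ _ : D.I, ℕ} (h : x ∈ A.B5S j) :
    x.2 < x.1.m ∧ A.J x.1 x.2 = j := by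
  simpa [Ax.B5S] using h

theorem Ax.B5_sum (A : D.Ax) {R : Type} [Semiring R] (j : D.I) (g : D.I → R) :
    ∑ x ∈ A.B5S j, g x.1 = ∑ i, (A.M j i : R) * g i := by
  rw [Ax.B5S, sum_sigma]
  refine sum_congr rfl fun i _ => ?_
  dsimp only
  rw [sum_const, nsmul_eq_mul]
  rfl

theorem Ax.B5_in (A : D.Ax) (j : D.I) : ∀ x ∈ A.B5S j, j.lo ≤ x.1.e x.2 + x.1.lo / D.lam ∧
    x.1.e x.2 + x.1.lo / D.lam < x.1.e x.2 + x.1.hi / D.lam ∧
      x.1.e x.2 + x.1.hi / D.lam ≤ j.hi := by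
  intro x hx
  obtain ⟨h1, rfl⟩ := A.B5_mem hx
  have h2 := A.strip_le x.1 h1
  have h3 := div_lt_div_of_pos_right (A.lo_lt_hi x.1) (zero_lt_one.trans A.one_lt)
  exact ⟨h2.1, by linarith only [h3], h2.2⟩

theorem Ax.B5_disj (A : D.Ax) (j : D.I) : ∀ x ∈ A.B5S j, ∀ y ∈ A.B5S j, x ≠ y →
    Disjoint (Set.Ioo (x.1.e x.2 + x.1.lo / D.lam) (x.1.e x.2 + x.1.hi / D.lam))
      (Set.Ioo (y.1.e y.2 + y.1.lo / D.lam) (y.1.e y.2 + y.1.hi / D.lam)) := by
  rintro ⟨i, k⟩ hx ⟨i', k'⟩ hy hne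
  obtain ⟨h1, h2⟩ := A.B5_mem hx
  obtain ⟨h3, h4⟩ := A.B5_mem hy
  refine A.strip_disj h1 h3 (h2.trans h4.symm) fun h => hne ?_
  obtain ⟨rfl, rfl⟩ := Prod.mk.inj h
  rfl

theorem Ax.B5_len (A : D.Ax) (j : D.I) :
    D.lam * ∑ x ∈ A.B5S j, ((x.1.e x.2 + x.1.hi / D.lam) - (x.1.e x.2 + x.1.lo / D.lam)) =
      ∑ i, (A.M j i : ℝ) * (i.hi - i.lo) := by
  have h0 : D.lam ≠ 0 := (zero_lt_one.trans A.one_lt).ne'
  rw [← A.B5_sum j fun i => i.hi - i.lo, mul_sum]
  refine sum_congr rfl fun x _ => ?_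
  field_simp
  ring

theorem Ax.M_h (A : D.Ax) (j : D.I) :
    ∑ i, (A.M j i : ℝ) * (i.hi - i.lo) = D.lam * (j.hi - j.lo) := by
  have h0 : 0 < D.lam := zero_lt_one.trans A.one_lt
  have hw : ∀ j : D.I, 0 < D.w j.mid := fun j => A.w_pos _ (A.mem_good (A.mem_mid j))
  have h1 : ∀ j : D.I, ∑ i, (A.M j i : ℝ) * (i.hi - i.lo) ≤ D.lam * (j.hi - j.lo) := fun j => by
    rw [← A.B5_len]
    exact mul_le_mul_of_nonneg_left
      (tile_le _ _ _ _ _ (A.lo_lt_hi j).le (A.B5_in j) (A.B5_disj j)) h0.le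
  have h2 : ∑ j : D.I, D.w j.mid * ∑ i, (A.M j i : ℝ) * (i.hi - i.lo) =
      ∑ j : D.I, D.w j.mid * (D.lam * (j.hi - j.lo)) := by
    simp only [mul_sum]
    rw [sum_comm]
    refine sum_congr rfl fun i _ => ?_
    have h3 := congrArg (· * (i.hi - i.lo)) (A.M_w i)
    simp only [sum_mul] at h3
    calc ∑ j : D.I, D.w j.mid * ((A.M j i : ℝ) * (i.hi - i.lo))
        = ∑ j : D.I, (A.M j i : ℝ) * D.w j.mid * (i.hi - i.lo) :=
          sum_congr rfl fun j _ => by ring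
      _ = D.w i.mid * (D.lam * (i.hi - i.lo)) := by rw [h3]; ring
  exact mul_left_cancel₀ (hw j).ne' ((sum_eq_sum_iff_of_le fun j _ =>
    mul_le_mul_of_nonneg_left (h1 j) (hw j).le).1 h2 j (mem_univ j))

theorem B5_cuts {q : Pr} {t : ℝ} (h : t ∈ D.cuts q) :
    t = -D.len (D.rot q) ∨ t = 0 ∨ t = D.len q ∨ ∃ p, D.tip p = (q, t) := by
  simp only [cuts, mem_union, mem_insert, mem_singleton, mem_image, mem_filter, mem_univ,
    true_and] at h
  rcases h with (h | h | h) | ⟨p, h1, h2⟩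
  · exact Or.inl h
  · exact Or.inr (Or.inl h)
  · exact Or.inr (Or.inr (Or.inl h))
  · exact Or.inr (Or.inr (Or.inr ⟨p, Prod.ext h1 h2⟩))

theorem Ax.B5_lo (A : D.Ax) (i : D.I) : -D.len (D.rot i.pr) ≤ i.lo := by
  have h1 := A.len_pos (D.rot i.pr)
  have h2 := A.len_pos i.pr
  have h3 : i.lo ∈ D.cuts i.pr := i.2.1
  rcases B5_cuts h3 with h | h | h | ⟨p, h⟩
  · exact h.ge
  · linarith
  · linarith
  · have h4 := (A.tip_B p).1
    rw [h] at h4
    exact h4.le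

theorem Ax.B5_bdry (A : D.Ax) (i : D.I) {q' : Pr} {c α β : ℝ}
    (h : ∀ t ∈ Set.Ioo i.lo i.hi, D.T (i.pr, t) = (q', c - t)) (h1 : i.lo ≤ α) (h2 : α < β)
    (h3 : β ≤ i.hi) : D.L (i.pr, β) = D.L (q', c - β) ∧ D.L (i.pr, α) = D.L (q', c - α) := by
  have hg : ∀ t ∈ Set.Ioo i.lo i.hi, D.Good (i.pr, t) := fun t ht => A.mem_good ⟨rfl, ht⟩
  constructor
  · refine A.L_bdry _ _ α β c h2 fun t ht => ?_
    have h4 := Set.Ioo_subset_Ioo h1 h3 ht
    exact ⟨hg t h4, h t h4⟩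
  · have h5 := A.L_bdry q' i.pr (c - β) (c - α) c (by linarith) fun t ht => by
      have h4 : c - t ∈ Set.Ioo i.lo i.hi := ⟨by linarith [ht.2], by linarith [ht.1]⟩
      have h6 := h _ h4
      rw [sub_sub_cancel] at h6
      rw [← h6]
      exact ⟨A.T_good _ (hg _ h4), A.T_T _ (hg _ h4)⟩
    rw [h5, sub_sub_cancel]

theorem Ax.L_hi (A : D.Ax) (i : D.I) : D.L (i.pr, i.hi) = some i.top := by
  have h1 : D.L (i.pr, i.hi) ≠ none := by
    rcases B5_cuts (A.hi_mem i) with h | h | h | ⟨p, h⟩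
    · exact absurd ((A.B5_lo i).trans_lt (A.lo_lt_hi i)) (by rw [h]; exact lt_irrefl _)
    · rw [h, A.L_zero]
      exact Option.some_ne_none _
    · rw [h]
      exact A.L_end _
    · rw [← h]
      exact A.L_tip p
  obtain ⟨x, hx⟩ := Option.ne_none_iff_exists'.1 h1
  rw [I.top, hx, Option.getD_some]

theorem Ax.L_lo (A : D.Ax) (i : D.I) : D.L (i.pr, i.lo) = some (A.TI i).top := by
  obtain ⟨c, h1, -, h3⟩ := A.T_on i
  rw [(A.B5_bdry i (fun t ht => (h1 t ht).1) le_rfl (A.lo_lt_hi i) le_rfl).2, ← h3, A.L_hi]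

theorem Ax.B5_zero (A : D.Ax) (i : D.I) {k : ℕ} (hk : k + 1 < i.m) :
    0 < i.e (k + 1) + i.lo / D.lam ∨ i.e (k + 1) + i.hi / D.lam < 0 := by
  have h0 : 0 < D.lam := zero_lt_one.trans A.one_lt
  have h3 := div_lt_div_of_pos_right (A.lo_lt_hi i) h0
  by_contra h
  rw [not_or, not_lt, not_lt] at h
  have h1 : (0 : ℝ) ∈ closure (Set.Ioo (i.e (k + 1) + i.lo / D.lam)
      (i.e (k + 1) + i.hi / D.lam)) := by
    rw [closure_Ioo (by linarith only [h3])]
    exact h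
  obtain ⟨s, hs, h2⟩ := ((mem_closure_iff_frequently.1 h1).and_eventually
    (A.inPhi_small (A.J i (k + 1)).pr)).exists
  have h4 : (s - i.e (k + 1)) * D.lam ∈ Set.Ioo i.lo i.hi :=
    ⟨(div_lt_iff₀ h0).1 (by linarith only [hs, hs.1]), (lt_div_iff₀ h0).1 (by linarith only [hs, hs.2])⟩
  have h5 := (A.strip i hk h4).1
  rw [mul_div_cancel_right₀ _ h0.ne', add_sub_cancel] at h5
  refine (A.renorm_mem (i := i) (b := (i.pr, (s - i.e (k + 1)) * D.lam))
    ⟨rfl, h4⟩).2.2.1 (k + 1) k.succ_pos hk ?_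
  rw [h5]
  exact h2

omit [Fintype Pr] [DecidableEq Pr] in
theorem Ax.B5_N (A : D.Ax) {q p : Pr} {s t : ℝ} (h : D.N (q, -s) = (p, s))
    (h1 : (0 < s ∧ 0 < t) ∨ (s < 0 ∧ t < 0)) : D.L (p, t) = D.L (q, -t) := by
  have h2 : D.N (q, -t) = (p, t) := by
    rcases h1 with ⟨h2, h3⟩ | ⟨h2, h3⟩
    · simp only [N, Left.neg_pos_iff, h2.le.not_gt, h3.le.not_gt, if_false, neg_neg] at h ⊢
      rw [(Prod.mk.inj h).1]
    · simp only [N, Left.neg_pos_iff, h2, h3, if_true, neg_neg] at h ⊢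
      rw [(Prod.mk.inj h).1]
  rw [← h2]
  refine A.L_N _ (neg_ne_zero.2 ?_)
  rcases h1 with h1 | h1
  · exact h1.2.ne'
  · exact h1.2.ne

theorem Ax.L_strip (A : D.Ax) (i : D.I) {k : ℕ} (hk : k < i.m) :
    D.L ((A.J i k).pr, i.e k + i.hi / D.lam) = some (D.σ⁻¹ i.top) ∧
      D.L ((A.J i k).pr, i.e k + i.lo / D.lam) = some (D.σ⁻¹ (A.TI i).top) := by
  have h0 : 0 < D.lam := zero_lt_one.trans A.one_lt
  have hm : i.mid.2 ∈ Set.Ioo i.lo i.hi := (A.mem_mid i).2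
  have hlo := div_lt_div_of_pos_right hm.1 h0
  have hhi := div_lt_div_of_pos_right hm.2 h0
  induction k with
  | zero =>
    have h1 : (A.J i 0).pr = D.σ⁻¹ i.pr := (congrArg Prod.fst (A.strip i hk hm).1).symm
    have h2 : i.e 0 = 0 := sub_self _
    have h3 := A.L_φ (i.pr, i.hi)
    have h4 := A.L_φ (i.pr, i.lo)
    rw [A.L_hi] at h3
    rw [A.L_lo] at h4
    rw [h1, h2, zero_add, zero_add]
    exact ⟨h3, h4⟩
  | succ k ih =>
    have hk' : k < i.m := Nat.lt_of_succ_lt hk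
    obtain ⟨c, h1, -, -⟩ := A.T_on (A.J i k)
    obtain ⟨h2, h3⟩ := A.strip_le i hk'
    obtain ⟨h4, h5⟩ := A.B5_bdry (A.J i k) (fun t ht => (h1 t ht).1) h2 (by linarith only [hlo, hhi]) h3
    obtain ⟨h6, h7⟩ := A.strip i hk' hm
    have h8 := (A.strip i hk hm).1
    rw [h6] at h7
    rw [Function.iterate_succ_apply', h6, Ret, (h1 _ h7.2).1] at h8
    have h9 : -(c - (i.e k + i.mid.2 / D.lam)) = i.e (k + 1) + i.mid.2 / D.lam := by
      have := congrArg Prod.snd h8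
      rwa [N_snd] at this
    have e : ∀ t, c - (i.e k + t / D.lam) = -(i.e (k + 1) + t / D.lam) := fun t => by linarith only [h9]
    rw [e] at h4 h5 h8
    rw [← (ih hk').1, ← (ih hk').2, h4, h5]
    refine ⟨A.B5_N h8 ?_, A.B5_N h8 ?_⟩
    · rcases A.B5_zero i hk with h | h
      · exact Or.inl ⟨by linarith only [hlo, h], by linarith only [hlo, hhi, h]⟩
      · exact Or.inr ⟨by linarith only [hhi, h], by linarith only [h]⟩
    · rcases A.B5_zero i hk with h | h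
      · exact Or.inl ⟨by linarith only [hlo, h], by linarith only [h]⟩
      · exact Or.inr ⟨by linarith only [hhi, h], by linarith only [hlo, hhi, h]⟩

theorem Ax.d_equiv (A : D.Ax) (a : Pr → ℂ) (j : D.I) :
    ∑ i, (A.M j i : ℂ) * (a i.top - a (A.TI i).top) =
      a (D.σ j.top) - a (D.σ (A.TI j).top) := by
  have h0 : D.lam ≠ 0 := (zero_lt_one.trans A.one_lt).ne'
  have h1 := tile _ _ _ _ _ (A.B5_in j) (A.B5_disj j)
    (mul_left_cancel₀ h0 ((A.B5_len j).trans (A.M_h j)))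
    fun t => a (D.σ ((D.L (j.pr, t)).getD j.pr))
  rw [A.L_hi, A.L_lo, Option.getD_some, Option.getD_some] at h1
  rw [← h1, ← A.B5_sum j fun i => a i.top - a (A.TI i).top]
  refine sum_congr rfl fun x hx => ?_
  obtain ⟨h2, rfl⟩ := A.B5_mem hx
  rw [(A.L_strip _ h2).1, (A.L_strip _ h2).2]
  simp

end LinData
end Pool.Agent.Work.MP_563a32_gt
end

-- merged part: Pool.Agent.Work.MP_563a32_gt.B6
section
/-! Kernel of `d` and the relation `d ∘ δ = 0`.

Plan. Put `F q t = a ((L (q, t)).getD q)`, so `a i.top = F i.pr i.hi` and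
`a (TI i).top = F i.pr i.lo`. `tele`: `i ↦ hi` is a bijection from the intervals over `q` onto the
cut points other than the least, and `i ↦ lo` onto those other than the largest. By `L_N` and
`L_end`, `F q (- len (rot q)) = F (rot q) (len (rot q))`. `d_del`: the sum is
`-2 ∑ i, b (base i.pr) * (F hi - F lo)` (reindex by `TI`), then `tele` and reindexing by `rot`.
`d_ker`: `F q` is constant on the cut points of `q` (induction along consecutive cut points), so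
`a q = F q (- len (rot q)) = F (rot q) (len (rot q)) = a (rot q)`; so `a` is constant on the
fibres of `base` (`rot_trans`); define `u x` by a choice of prong over `x` when there is one; for
every `i`, `a i.pr = a i.top` and `a (TI i).pr = a (TI (TI i)).top`, so `del_ker` applies. -/

namespace Pool.Agent.Work.MP_563a32_gt
namespace LinData
open Finset

variable {Pr X : Type} [Fintype Pr] [DecidableEq Pr] {D : LinData Pr X}

theorem Ax.B6_cut (A : D.Ax) {q : Pr} {t : ℝ} (h : t ∈ D.cuts q) :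
    -D.len (D.rot q) ≤ t ∧ t ≤ D.len q := by
  have h1 := A.len_pos q
  have h2 := A.len_pos (D.rot q)
  simp only [cuts, mem_union, mem_insert, mem_singleton, mem_image, mem_filter] at h
  rcases h with (rfl | rfl | rfl) | ⟨p, ⟨-, rfl⟩, rfl⟩
  · exact ⟨le_rfl, by linarith⟩
  · exact ⟨by linarith, h1.le⟩
  · exact ⟨by linarith, le_rfl⟩
  · exact ⟨(A.tip_B p).1.le, (A.tip_B p).2.le⟩

theorem B6_min (q : Pr) : -D.len (D.rot q) ∈ D.cuts q := by simp [cuts]

theorem B6_zero (q : Pr) : (0 : ℝ) ∈ D.cuts q := by simp [cuts]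

theorem B6_max (q : Pr) : D.len q ∈ D.cuts q := by simp [cuts]

theorem B6_lo (i : D.I) : i.lo ∈ D.cuts i.pr := i.2.1

theorem B6_ext {i j : D.I} (h : i.pr = j.pr) (h' : i.lo = j.lo) : i = j :=
  Subtype.ext (Prod.ext h h')

theorem Ax.tele (A : D.Ax) (q : Pr) (F : ℝ → ℂ) :
    ∑ i ∈ univ.filter (fun i : D.I => i.pr = q), (F i.hi - F i.lo) =
      F (D.len q) - F (-D.len (D.rot q)) := by
  have e1 : ∑ i ∈ univ.filter (fun i : D.I => i.pr = q), F i.lo =
      ∑ t ∈ (D.cuts q).erase (D.len q), F t := by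
    refine sum_bij (fun i _ => i.lo) (fun i hi => ?_) (fun i hi j hj e => ?_) (fun t ht => ?_)
      fun _ _ => rfl
    · obtain rfl := (mem_filter.1 hi).2
      exact mem_erase.2 ⟨i.2.2.ne, B6_lo i⟩
    · exact B6_ext ((mem_filter.1 hi).2.trans (mem_filter.1 hj).2.symm) e
    · obtain ⟨h1, h2⟩ := mem_erase.1 ht
      exact ⟨⟨(q, t), h2, (A.B6_cut h2).2.lt_of_ne h1⟩, mem_filter.2 ⟨mem_univ _, rfl⟩, rfl⟩
  have e2 : ∑ i ∈ univ.filter (fun i : D.I => i.pr = q), F i.hi =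
      ∑ t ∈ (D.cuts q).erase (-D.len (D.rot q)), F t := by
    have k : ∀ i j : D.I, i.pr = j.pr → i.lo < j.lo → i.hi < j.hi := fun i j h h' =>
      (A.hi_le i (h ▸ B6_lo j) h').trans_lt (A.lo_lt_hi j)
    refine sum_bij (fun i _ => i.hi) (fun i hi => ?_) (fun i hi j hj e => ?_) (fun t ht => ?_)
      fun _ _ => rfl
    · obtain rfl := (mem_filter.1 hi).2
      exact mem_erase.2 ⟨((A.B6_cut (B6_lo i)).1.trans_lt (A.lo_lt_hi i)).ne', A.hi_mem i⟩
    · have h := (mem_filter.1 hi).2.trans (mem_filter.1 hj).2.symm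
      exact B6_ext h (le_antisymm (not_lt.1 fun h' => (k j i h.symm h').ne' e)
        (not_lt.1 fun h' => (k i j h h').ne e))
    · obtain ⟨h1, h2⟩ := mem_erase.1 ht
      obtain ⟨s, hs, hm⟩ := exists_max_image ((D.cuts q).filter (· < t)) id
        ⟨_, mem_filter.2 ⟨B6_min q, (A.B6_cut h2).1.lt_of_ne' h1⟩⟩
      obtain ⟨h3, h4⟩ := mem_filter.1 hs
      let i : D.I := ⟨(q, s), h3, h4.trans_le (A.B6_cut h2).2⟩
      refine ⟨i, mem_filter.2 ⟨mem_univ _, rfl⟩, (A.hi_le i h2 h4).eq_of_not_lt fun h => ?_⟩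
      exact (A.lo_lt_hi i).not_ge (hm _ (mem_filter.2 ⟨A.hi_mem i, h⟩))
  rw [sum_sub_distrib, e1, e2, sum_erase_eq_sub (B6_min q), sum_erase_eq_sub (B6_max q)]
  ring

omit [Fintype Pr] [DecidableEq Pr] in
theorem Ax.B6_end (A : D.Ax) (q : Pr) :
    (D.L (q, -D.len (D.rot q))).getD q = (D.L (D.rot q, D.len (D.rot q))).getD (D.rot q) := by
  have h := A.len_pos (D.rot q)
  have e := A.L_N (q, -D.len (D.rot q)) (neg_ne_zero.2 h.ne')
  rw [N, if_neg (by simpa using h.le), neg_neg] at e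
  obtain ⟨p, hp⟩ := Option.ne_none_iff_exists'.1 (A.L_end (D.rot q))
  rw [← e, hp]
  rfl

theorem Ax.d_del (A : D.Ax) (a : Pr → ℂ) (b : X → ℂ) :
    ∑ i : D.I, (b (D.base (A.TI i).pr) - b (D.base i.pr)) * (a i.top - a (A.TI i).top) = 0 := by
  have e1 : ∑ i : D.I, b (D.base i.pr) * (a i.top - a (A.TI i).top) = 0 := by
    rw [← sum_fiberwise univ fun i : D.I => i.pr]
    have k : ∀ q, ∑ i ∈ univ.filter (fun i : D.I => i.pr = q),
        b (D.base i.pr) * (a i.top - a (A.TI i).top) =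
          b (D.base q) * a ((D.L (q, D.len q)).getD q) - b (D.base (D.rot q)) *
            a ((D.L (D.rot q, D.len (D.rot q))).getD (D.rot q)) := fun q => by
      rw [A.base_rot, ← mul_sub, ← A.B6_end, ← A.tele q fun t => a ((D.L (q, t)).getD q), mul_sum]
      refine sum_congr rfl fun i hi => ?_
      obtain rfl := (mem_filter.1 hi).2
      rw [A.L_hi, A.L_lo]
      rfl
    rw [sum_congr rfl fun q _ => k q, sum_sub_distrib,
      Equiv.sum_comp D.rot fun q => b (D.base q) * a ((D.L (q, D.len q)).getD q), sub_self]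
  have e2 : ∑ i : D.I, b (D.base (A.TI i).pr) * (a i.top - a (A.TI i).top) = 0 := by
    rw [← Equiv.sum_comp (Function.Involutive.toPerm A.TI A.TI_TI), ← neg_eq_zero,
      ← sum_neg_distrib, ← e1]
    refine sum_congr rfl fun i _ => ?_
    simp only [Function.Involutive.coe_toPerm, A.TI_TI]
    ring
  simp only [sub_mul]
  rw [sum_sub_distrib, e1, e2, sub_zero]

theorem Ax.d_ker (A : D.Ax) (a : Pr → ℂ) (h : ∀ i : D.I, a i.top = a (A.TI i).top) :
    ∀ q q', a q = a q' := by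
  classical
  have k1 : ∀ q, ∀ t ∈ D.cuts q,
      a ((D.L (q, t)).getD q) = a ((D.L (q, -D.len (D.rot q))).getD q) := fun q t ht => by
    have e := A.tele q fun s => a ((D.L (q, min s t)).getD q)
    rw [min_eq_right (A.B6_cut ht).2, min_eq_left (A.B6_cut ht).1] at e
    refine sub_eq_zero.1 (e.symm.trans (sum_eq_zero fun i hi => sub_eq_zero.2 ?_))
    obtain rfl := (mem_filter.1 hi).2
    rcases lt_or_ge i.lo t with h1 | h1
    · rw [min_eq_left h1.le, min_eq_left (A.hi_le i ht h1), A.L_hi, A.L_lo]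
      exact h i
    · rw [min_eq_right h1, min_eq_right (h1.trans (A.lo_lt_hi i).le)]
  have k2 : ∀ q, ∀ t ∈ D.cuts q, a ((D.L (q, t)).getD q) = a q := fun q t ht => by
    rw [k1 q t ht, ← k1 q 0 (B6_zero q), A.L_zero]
    rfl
  have k3 : ∀ q, a (D.rot q) = a q := fun q => by
    rw [← k2 _ _ (B6_max (D.rot q)), ← A.B6_end, k2 _ _ (B6_min q)]
  have k4 : ∀ (k : ℕ) q, a ((D.rot ^ k) q) = a q := fun k q => by
    induction k with
    | zero => rfl
    | succ k ih => rw [pow_succ', Equiv.Perm.mul_apply, k3, ih]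
  let u : X → ℂ := fun x => if hx : ∃ q, D.base q = x then a hx.choose else 0
  have k5 : ∀ q, u (D.base q) = a q := fun q => by
    have hx : ∃ q', D.base q' = D.base q := ⟨q, rfl⟩
    obtain ⟨k, hk⟩ := A.rot_trans _ _ hx.choose_spec
    rw [← hk, k4]
    simp only [u, hk]
    exact dif_pos hx
  have k6 : ∀ i : D.I, a i.top = a i.pr := fun i => k2 _ _ (A.hi_mem i)
  intro q q'
  rw [← k5, ← k5]
  exact A.del_ker u (fun i => by rw [k5, k5, ← k6, ← k6, h i]) _ _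

end LinData
end Pool.Agent.Work.MP_563a32_gt
end

-- merged part: Pool.Agent.Work.MP_563a32_gt.B7
section
/-! The transition matrix is injective on antisymmetric functions.

Plan (stream function). Write `z b` for `z (intv b)` and `Fl b c` when for some `m` the points
`Ret^[j] b`, `j < m`, are good, `Ret^[m] b` is in the image of `φ` and
`c = ∑ j < m, z (Ret^[j] b)`. (1) If `b` has nonzero height, is in the image of `φ` and `Fl b c`
then `c = 0`: strong induction on `m`; `b = φ b'`; if `b'` is good its return number `m'` is at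
most `m` and the first `m'` terms add up to `0` (`sum_M`, `strip`, `renorm_mem`); if `b'` is a tip
`renorm_tip` is contradicted unless `m = 0`. So `c` is determined by `b`. (2) If `Fl b c` and
`Fl (N b) c'` then `c = c'`: reverse the second path with `Ret (T y) = N y` and `z (T y) = - z y`;
it starts at `N` of a point of the image of `φ`, and concatenate. (3) So
`β b := c` for `Fl b c ∨ Fl (N b) c` is defined for every `b` in `B` of nonzero height (`reach`),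
`β (N b) = β b`, it is locally constant in the height (`orbit_loc`; the image of `φ` is open) and
vanishes for small height, so it vanishes on `(0, len q)` and on `(- len (rot q), 0)`. (4) For good
`b`, `z b = β b - β (Ret b)`, in both cases of `reach (Ret b)`. -/

namespace Pool.Agent.Work.MP_563a32_gt
namespace LinData
open Finset

variable {Pr X : Type} [Fintype Pr] [DecidableEq Pr] {D : LinData Pr X}

/-- The first `m` points of the orbit are good. -/
def B7P (D : LinData Pr X) (m : ℕ) (b : Pr × ℝ) : Prop := ∀ j < m, D.Good (D.Ret^[j] b)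

/-- The sum of `z` along the first `m` points of the orbit. -/
noncomputable def B7S (A : D.Ax) (z : D.I → ℂ) (m : ℕ) (b : Pr × ℝ) : ℂ :=
  ∑ j ∈ range m, z (A.intv (D.Ret^[j] b))

/-- `c` is the sum of `z` along a path from `b` to the image of `φ`. -/
def B7F (A : D.Ax) (z : D.I → ℂ) (b : Pr × ℝ) (c : ℂ) : Prop :=
  ∃ m, B7P D m b ∧ D.InPhi (D.Ret^[m] b) ∧ c = B7S A z m b

omit [Fintype Pr] [DecidableEq Pr] in
theorem B7_P_add {m n : ℕ} {b : Pr × ℝ} :
    B7P D (m + n) b ↔ B7P D m b ∧ B7P D n (D.Ret^[m] b) := by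
  constructor
  · refine fun h => ⟨fun j hj => h j (by omega), fun j hj => ?_⟩
    rw [← Function.iterate_add_apply]
    exact h _ (by omega)
  · rintro ⟨h1, h2⟩ j hj
    rcases lt_or_ge j m with h | h
    · exact h1 j h
    · obtain ⟨k, rfl⟩ := Nat.exists_eq_add_of_le h
      rw [add_comm, Function.iterate_add_apply]
      exact h2 k (by omega)

theorem B7_S_add (A : D.Ax) (z : D.I → ℂ) (m n : ℕ) (b : Pr × ℝ) :
    B7S A z (m + n) b = B7S A z m b + B7S A z n (D.Ret^[m] b) := by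
  rw [B7S, sum_range_add]
  refine congrArg _ (sum_congr rfl fun j _ => ?_)
  rw [add_comm, Function.iterate_add_apply]

theorem B7_S_one (A : D.Ax) (z : D.I → ℂ) (b : Pr × ℝ) : B7S A z 1 b = z (A.intv b) := by
  simp [B7S]

omit [Fintype Pr] [DecidableEq Pr] in
theorem B7_P_one {b : Pr × ℝ} : B7P D 1 b ↔ D.Good b :=
  ⟨fun h => h 0 one_pos, fun h j hj => by
    obtain rfl : j = 0 := by omega
    exact h⟩

omit [Fintype Pr] [DecidableEq Pr] in
theorem B7_N_ne {b : Pr × ℝ} (h : b.2 ≠ 0) : (D.N b).2 ≠ 0 := by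
  rw [N_snd]
  exact neg_ne_zero.2 h

omit [Fintype Pr] [DecidableEq Pr] in
theorem B7_ne (A : D.Ax) {m : ℕ} {b : Pr × ℝ} (h : b.2 ≠ 0) (hp : B7P D m b) :
    (D.Ret^[m] b).2 ≠ 0 := by
  cases m with
  | zero => exact h
  | succ m =>
    rw [Function.iterate_succ_apply']
    exact B7_N_ne (A.T_good _ (hp m m.lt_succ_self)).2.1

omit [Fintype Pr] [DecidableEq Pr] in
theorem B7_phi_N (A : D.Ax) {b : Pr × ℝ} (h : b.2 ≠ 0) (hp : D.InPhi b) : D.InPhi (D.N b) := by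
  obtain ⟨b', h1, rfl⟩ := hp
  exact ⟨D.N b', A.N_B b' (fun e => h (by simp [φ, e])) h1, A.N_φ b'⟩

omit [Fintype Pr] [DecidableEq Pr] in
theorem B7_N_Ret (A : D.Ax) {b : Pr × ℝ} (h : D.Good b) : D.N (D.Ret b) = D.T b :=
  N_N _ (A.T_good b h).2.1

omit [Fintype Pr] [DecidableEq Pr] in
theorem B7_Ret_T (A : D.Ax) {b : Pr × ℝ} (h : D.Good b) : D.Ret (D.T b) = D.N b := by
  rw [Ret, A.T_T b h]

theorem B7_zero (A : D.Ax) {z : D.I → ℂ} (h0 : ∀ i, ∑ j, (A.M j i : ℂ) * z j = 0) (m : ℕ) :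
    ∀ b : Pr × ℝ, b.2 ≠ 0 → D.InPhi b → B7P D m b → D.InPhi (D.Ret^[m] b) →
      B7S A z m b = 0 := by
  induction m using Nat.strong_induction_on with
  | _ m ih =>
    rintro _ hb ⟨b, h1, rfl⟩ hp he
    rcases Nat.eq_zero_or_pos m with rfl | hm
    · rfl
    have hb' : b.2 ≠ 0 := fun e => hb (by simp [φ, e])
    by_cases hg : D.Good b
    · have hi := A.mem_intv hg
      obtain ⟨r1, -, r3, r4, -⟩ := A.renorm_mem hi
      obtain ⟨k, hk⟩ := Nat.exists_eq_add_of_le (not_lt.1 fun h => r3 m hm h he)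
      have e1 : B7S A z (A.intv b).m (D.φ b) = 0 := by
        rw [← h0 (A.intv b), A.sum_M]
        refine sum_congr rfl fun j hj => ?_
        have := (A.strip (A.intv b) (mem_range.1 hj) hi.2).2
        rw [← hi.1] at this
        rw [A.intv_eq this]
      have e2 : D.InPhi (D.Ret^[(A.intv b).m] (D.φ b)) := by
        rw [← Nat.sub_add_cancel r1, Function.iterate_succ_apply', Ret, r4]
        refine B7_phi_N A ?_ ⟨_, (A.T_good b hg).1, rfl⟩
        rw [← r4]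
        exact (A.T_good _ (hp _ (by omega))).2.1
      rw [hk] at hp he
      rw [add_comm, Function.iterate_add_apply] at he
      obtain ⟨p1, p2⟩ := B7_P_add.1 hp
      rw [hk, B7_S_add, e1, zero_add]
      exact ih k (by omega) _ (B7_ne A hb p1) e2 p2 he
    · obtain ⟨q, rfl⟩ : ∃ q, b = D.tip q := by
        by_contra h
        exact hg ⟨h1, hb', fun q e => h ⟨q, e⟩⟩
      obtain ⟨n, -, r2, r3⟩ := A.renorm_tip q
      exact (r2 m hm (not_lt.1 fun h => r3 (hp n h)) he).elim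

theorem B7_rev (A : D.Ax) {z : D.I → ℂ} (hz : ∀ i, z (A.TI i) = -z i) (m : ℕ) :
    ∀ y : Pr × ℝ, B7P D m y → B7P D m (D.N (D.Ret^[m] y)) ∧
      D.Ret^[m] (D.N (D.Ret^[m] y)) = D.N y ∧ B7S A z m (D.N (D.Ret^[m] y)) = -B7S A z m y := by
  induction m with
  | zero => exact fun y _ => ⟨fun j hj => absurd hj (Nat.not_lt_zero j), rfl, by simp [B7S]⟩
  | succ m ih =>
    intro y hp
    rw [add_comm] at hp
    obtain ⟨p1, p2⟩ := B7_P_add.1 hp
    rw [B7_P_one] at p1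
    obtain ⟨q1, q2, q3⟩ := ih (D.Ret y) p2
    rw [B7_N_Ret A p1] at q2
    rw [Function.iterate_succ_apply D.Ret m y]
    refine ⟨B7_P_add.2 ⟨q1, ?_⟩, ?_, ?_⟩
    · rw [q2, B7_P_one]
      exact A.T_good y p1
    · rw [Function.iterate_succ_apply', q2, B7_Ret_T A p1]
    · rw [B7_S_add, q2, q3, B7_S_one, A.intv_T p1, hz, add_comm m 1, B7_S_add, B7_S_one,
        Function.iterate_one]
      ring

theorem B7_uniq (A : D.Ax) {z : D.I → ℂ} (h0 : ∀ i, ∑ j, (A.M j i : ℂ) * z j = 0)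
    {b : Pr × ℝ} (hb : b.2 ≠ 0) {c c' : ℂ} (h : B7F A z b c) (h' : B7F A z b c') : c = c' := by
  obtain ⟨m, p1, p2, rfl⟩ := h
  obtain ⟨m', q1, q2, rfl⟩ := h'
  wlog hm : m ≤ m' generalizing m m'
  · exact (this m' q1 q2 m p1 p2 (le_of_not_ge hm)).symm
  obtain ⟨k, rfl⟩ := Nat.exists_eq_add_of_le hm
  rw [add_comm, Function.iterate_add_apply] at q2
  rw [B7_S_add, B7_zero A h0 k _ (B7_ne A hb p1) p2 (B7_P_add.1 q1).2 q2, add_zero]

theorem B7_uniqN (A : D.Ax) {z : D.I → ℂ} (hz : ∀ i, z (A.TI i) = -z i)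
    (h0 : ∀ i, ∑ j, (A.M j i : ℂ) * z j = 0) {b : Pr × ℝ} (hb : b.2 ≠ 0) {c c' : ℂ}
    (h : B7F A z b c) (h' : B7F A z (D.N b) c') : c = c' := by
  obtain ⟨m, p1, p2, rfl⟩ := h
  obtain ⟨m', q1, q2, rfl⟩ := h'
  obtain ⟨r1, r2, r3⟩ := B7_rev A hz m' _ q1
  rw [N_N b hb] at r2
  have h1 := B7_ne A (B7_N_ne hb) q1
  have h2 := B7_zero A h0 (m' + m) _ (B7_N_ne h1) (B7_phi_N A h1 q2)
    (B7_P_add.2 ⟨r1, r2.symm ▸ p1⟩) (by rwa [add_comm, Function.iterate_add_apply, r2])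
  rw [B7_S_add, r2, r3] at h2
  linear_combination h2

theorem B7_fun (A : D.Ax) {z : D.I → ℂ} (hz : ∀ i, z (A.TI i) = -z i)
    (h0 : ∀ i, ∑ j, (A.M j i : ℂ) * z j = 0) {b : Pr × ℝ} (hb : b.2 ≠ 0) {c c' : ℂ}
    (h : B7F A z b c ∨ B7F A z (D.N b) c) (h' : B7F A z b c' ∨ B7F A z (D.N b) c') : c = c' := by
  rcases h with h | h <;> rcases h' with h' | h'
  · exact B7_uniq A h0 hb h h'
  · exact B7_uniqN A hz h0 hb h h'
  · exact (B7_uniqN A hz h0 hb h' h).symm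
  · exact B7_uniq A h0 (B7_N_ne hb) h h'

omit [Fintype Pr] [DecidableEq Pr] in
theorem B7_phi_open (A : D.Ax) {b : Pr × ℝ} (h : D.InPhi b) :
    ∀ᶠ s in nhds b.2, D.InPhi (b.1, s) := by
  obtain ⟨b', h1, rfl⟩ := h
  have hl : D.lam ≠ 0 := (zero_lt_one.trans A.one_lt).ne'
  have h2 : Filter.Tendsto (fun s : ℝ => s * D.lam) (nhds (D.φ b').2) (nhds b'.2) :=
    (continuous_id.mul continuous_const).tendsto' _ _ (div_mul_cancel₀ _ hl)
  filter_upwards [h2.eventually (Ioo_mem_nhds h1.1 h1.2)] with s hs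
  exact ⟨(b'.1, s * D.lam), hs, Prod.ext rfl (mul_div_cancel_right₀ s hl).symm⟩

theorem B7_loc (A : D.Ax) {z : D.I → ℂ} {b : Pr × ℝ} {c : ℂ} (h : B7F A z b c) :
    ∀ᶠ s in nhds b.2, B7F A z (b.1, s) c := by
  obtain ⟨m, p1, p2, rfl⟩ := h
  have ht : ∀ x : ℝ, Filter.Tendsto (fun s : ℝ => x + s - b.2) (nhds b.2) (nhds x) := fun x =>
    ((continuous_const.add continuous_id).sub continuous_const).tendsto' _ _
      (add_sub_cancel_right _ _)
  have h1 : ∀ᶠ s in nhds b.2, ∀ j ∈ range m,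
      A.intv ((D.Ret^[j] b).1, (D.Ret^[j] b).2 + s - b.2) = A.intv (D.Ret^[j] b) := by
    refine (Filter.eventually_all_finset _).2 fun j hj => ?_
    have h2 := A.mem_intv (p1 j (mem_range.1 hj))
    filter_upwards [(ht _).eventually (Ioo_mem_nhds h2.2.1 h2.2.2)] with s hs
    exact A.intv_eq ⟨h2.1, hs⟩
  filter_upwards [h1, A.orbit_loc (q := b.1) (t := b.2) p1, (ht _).eventually (B7_phi_open A p2)]
    with s s1 s2 s3
  refine ⟨m, fun j hj => (s2.2 j hj).1, ?_, sum_congr rfl fun j hj => ?_⟩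
  · rw [s2.1 m le_rfl]
    exact s3
  · rw [s2.1 j (mem_range.1 hj).le]
    exact congrArg z (s1 j hj).symm

theorem B7_locN (A : D.Ax) {z : D.I → ℂ} {q : Pr} {t : ℝ} (ht : t ≠ 0) {c : ℂ}
    (h : B7F A z (q, t) c ∨ B7F A z (D.N (q, t)) c) :
    ∀ᶠ s in nhds t, s ≠ 0 ∧ (B7F A z (q, s) c ∨ B7F A z (D.N (q, s)) c) := by
  refine (eventually_ne_nhds ht).and ?_
  rcases h with h | h
  · exact (B7_loc A h).mono fun s hs => Or.inl hs
  · have h1 := B7_loc A h
    rw [N_snd] at h1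
    have h2 : ∀ᶠ s in nhds t, D.N (q, s) = ((D.N (q, t)).1, -s) := by
      rcases ht.lt_or_gt with k | k
      · filter_upwards [eventually_lt_nhds k] with s hs
        simp only [N, k.le.not_gt, hs.le.not_gt, if_false]
      · filter_upwards [eventually_gt_nhds k] with s hs
        simp only [N, k, hs, if_true]
    filter_upwards [(continuous_neg.tendsto t).eventually h1, h2] with s s1 s2
    exact Or.inr (s2 ▸ s1)

theorem B7_vanish (A : D.Ax) {z : D.I → ℂ} (hz : ∀ i, z (A.TI i) = -z i)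
    (h0 : ∀ i, ∑ j, (A.M j i : ℂ) * z j = 0) {b : Pr × ℝ} (hB : D.B b) (hb : b.2 ≠ 0) :
    B7F A z b 0 ∨ B7F A z (D.N b) 0 := by
  obtain ⟨q, t⟩ := b
  have key : ∀ S : Set ℝ, IsPreconnected S → (∀ s ∈ S, s ≠ 0 ∧ D.B (q, s)) →
      (∃ s ∈ S, D.InPhi (q, s)) →
      S ⊆ {s | s ≠ 0 ∧ (B7F A z (q, s) 0 ∨ B7F A z (D.N (q, s)) 0)} := by
    rintro S h1 h2 ⟨s₀, h3, h4⟩
    refine h1.subset_left_of_subset_union
      (v := {s | ∃ c, c ≠ 0 ∧ s ≠ 0 ∧ (B7F A z (q, s) c ∨ B7F A z (D.N (q, s)) c)})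
      (isOpen_iff_mem_nhds.2 fun s hs => B7_locN A hs.1 hs.2) (isOpen_iff_mem_nhds.2 ?_)
      (Set.disjoint_left.2 ?_) (fun s hs => ?_) ⟨s₀, h3, (h2 s₀ h3).1, Or.inl ?_⟩
    · rintro s ⟨c, k1, k2, k3⟩
      exact (B7_locN A k2 k3).mono fun s hs => ⟨c, k1, hs⟩
    · rintro s ⟨k1, k2⟩ ⟨c, k3, -, k4⟩
      exact k3 (B7_fun A hz h0 k1 k4 k2)
    · obtain ⟨c, hc⟩ : ∃ c, B7F A z (q, s) c ∨ B7F A z (D.N (q, s)) c := by
        rcases A.reach _ (h2 s hs).2 (h2 s hs).1 with ⟨m, k1, k2⟩ | ⟨m, k1, k2⟩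
        · exact ⟨_, Or.inl ⟨m, k1, k2, rfl⟩⟩
        · exact ⟨_, Or.inr ⟨m, k1, k2, rfl⟩⟩
      by_cases k : c = 0
      · exact Or.inl ⟨(h2 s hs).1, k ▸ hc⟩
      · exact Or.inr ⟨c, k, (h2 s hs).1, hc⟩
    · exact ⟨0, fun j hj => absurd hj (Nat.not_lt_zero j), h4, rfl⟩
  have l1 := A.len_pos q
  have l2 := neg_lt_zero.2 (A.len_pos (D.rot q))
  rcases hb.lt_or_gt with k | k
  · obtain ⟨s, s1, s2⟩ := (((A.inPhi_small q).filter_mono nhdsWithin_le_nhds).and
      (Ioo_mem_nhdsLT l2)).exists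
    exact (key _ isPreconnected_Ioo (fun s hs => ⟨hs.2.ne, hs.1, hs.2.trans l1⟩) ⟨s, s2, s1⟩
      ⟨hB.1, k⟩).2
  · obtain ⟨s, s1, s2⟩ := (((A.inPhi_small q).filter_mono nhdsWithin_le_nhds).and
      (Ioo_mem_nhdsGT l1)).exists
    exact (key _ isPreconnected_Ioo (fun s hs => ⟨hs.1.ne', l2.trans hs.1, hs.2⟩) ⟨s, s2, s1⟩
      ⟨k, hB.2⟩).2

theorem Ax.inj (A : D.Ax) (z : D.I → ℂ) (hz : ∀ i, z (A.TI i) = -z i)
    (h0 : ∀ i, ∑ j, (A.M j i : ℂ) * z j = 0) : z = 0 := by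
  have key : ∀ {b c}, D.B b → b.2 ≠ 0 → B7F A z b c ∨ B7F A z (D.N b) c → c = 0 :=
    fun h1 h2 h3 => B7_fun A hz h0 h2 h3 (B7_vanish A hz h0 h1 h2)
  funext i
  have hg := A.mem_good (A.mem_mid i)
  rw [← A.intv_eq (A.mem_mid i)]
  generalize i.mid = b at hg
  have hT := A.T_good b hg
  have h1 : D.B (D.Ret b) := A.N_B _ hT.2.1 hT.1
  have h2 : (D.Ret b).2 ≠ 0 := B7_N_ne hT.2.1
  have h3 : ∀ m, B7P D m (D.Ret b) → D.InPhi (D.Ret^[m] (D.Ret b)) → z (A.intv b) = 0 := by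
    intro m k1 k2
    have k3 := key hg.1 hg.2.1 (Or.inl ⟨1 + m, B7_P_add.2 ⟨B7_P_one.2 hg, k1⟩,
      by rwa [add_comm], rfl⟩)
    rwa [B7_S_add, B7_S_one, Function.iterate_one, key h1 h2 (Or.inl ⟨m, k1, k2, rfl⟩),
      add_zero] at k3
  rcases A.reach _ h1 h2 with ⟨m, k1, k2⟩ | ⟨m, k1, k2⟩
  · exact h3 m k1 k2
  · have k3 := key h1 h2 (Or.inr ⟨m, k1, k2, rfl⟩)
    rw [B7_N_Ret A hg] at k1 k2 k3
    cases m with
    | zero => exact h3 0 (fun j hj => absurd hj (Nat.not_lt_zero j)) (B7_phi_N A hT.2.1 k2)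
    | succ m =>
      rw [Function.iterate_succ_apply, B7_Ret_T A hg] at k2
      rw [add_comm] at k1 k3
      have k4 := (B7_P_add.1 k1).2
      rw [Function.iterate_one, B7_Ret_T A hg] at k4
      rwa [B7_S_add, B7_S_one, Function.iterate_one, B7_Ret_T A hg,
        key hg.1 hg.2.1 (Or.inr ⟨m, k4, k2, rfl⟩), add_zero, A.intv_T hg, hz, neg_eq_zero] at k3

end LinData
end Pool.Agent.Work.MP_563a32_gt
end

-- merged part: Pool.Agent.Work.MP_563a32_gt.C0
section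
/-! Finite Markov data: oriented rectangles `I`, horizontal prongs `Pr`, singular points `X`. -/

namespace Pool.Agent.Work.MP_563a32_gt
open Finset

/-- `M j i` counts how often the preimage of the oriented rectangle `i` crosses the oriented
rectangle `j`; `T` reverses the orientation. -/
structure FinData (I Pr X : Type) [Fintype I] [DecidableEq I] [Fintype Pr] [DecidableEq Pr]
    [Fintype X] [DecidableEq X] where
  T : I → I
  w : I → ℝ
  h : I → ℝ
  lam : ℝ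
  M : Matrix I I ℕ
  σ : Equiv.Perm Pr
  fX : Equiv.Perm X
  first : Pr → I
  xI : I → X
  top : I → Pr
  ne_Pr : Nonempty Pr
  ne_X : Nonempty X
  T_T : ∀ i, T (T i) = i
  T_ne : ∀ i, T i ≠ i
  w_pos : ∀ i, 0 < w i
  h_pos : ∀ i, 0 < h i
  w_T : ∀ i, w (T i) = w i
  one_lt : 1 < lam
  M_symm : ∀ j i, M (T j) (T i) = M j i
  M_w : ∀ i, ∑ j, (M j i : ℝ) * w j = lam * w i
  M_h : ∀ j, ∑ i, (M j i : ℝ) * h i = lam * h j
  card_I : Fintype.card I = 3 * Fintype.card Pr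
  first_M : ∀ q, 1 ≤ M (first (σ⁻¹ q)) (first q)
  del_equiv : ∀ (b : X → ℂ) (i : I),
    ∑ j, (M j i : ℂ) * (b (xI (T j)) - b (xI j)) = b (fX⁻¹ (xI (T i))) - b (fX⁻¹ (xI i))
  del_ker : ∀ b : X → ℂ, (∀ i, b (xI (T i)) = b (xI i)) → ∀ x y, b x = b y
  d_equiv : ∀ (a : Pr → ℂ) (j : I),
    ∑ i, (M j i : ℂ) * (a (top i) - a (top (T i))) = a (σ (top j)) - a (σ (top (T j)))
  d_ker : ∀ a : Pr → ℂ, (∀ i, a (top i) = a (top (T i))) → ∀ q q', a q = a q'
  d_del : ∀ (a : Pr → ℂ) (b : X → ℂ),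
    ∑ i, (b (xI (T i)) - b (xI i)) * (a (top i) - a (top (T i))) = 0
  inj : ∀ z : I → ℂ, (∀ i, z (T i) = -z i) → (∀ i, ∑ j, (M j i : ℂ) * z j = 0) → z = 0

end Pool.Agent.Work.MP_563a32_gt
end

-- merged part: Pool.Agent.Work.MP_563a32_gt.C1
section
/-! A short loop in the Markov graph forces growth.

Plan. `∑ j, (M ^ k) j i * w j = lam ^ k * w i` (induction). The flow `M j i * h i * w j` on the edge
`i → j` is conserved (`M_w`, `M_h`), so for the set `R` of nodes reachable from `j` the flow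
entering `R` from outside equals the flow leaving it, which is zero: every edge `i → j` has a path
back. The sets of nodes reachable in at most `n` steps increase, so a path of length
`L ≤ card I` exists, and a path `e → i` of length `L` gives `w i ≤ lam ^ L * w e`. If
`(M ^ k) i i ≥ 1` or `(M ^ k) (T i) i ≥ 1` then, as `w (T i) = w i` and `lam ^ k > 1`, some `e`
with `(M ^ k) e i ≥ 1` has `w e ≤ (lam ^ k - 1) * w i`. -/

namespace Pool.Agent.Work.MP_563a32_gt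
open Finset

variable {I Pr X : Type} [Fintype I] [DecidableEq I] [Fintype Pr] [DecidableEq Pr]
    [Fintype X] [DecidableEq X]

omit [DecidableEq I] in
theorem C1_le {w : I → ℝ} (hw : ∀ i, 0 < w i) {c : I → ℕ} {e : I} (h : c e ≠ 0) :
    w e ≤ ∑ j, (c j : ℝ) * w j :=
  (le_mul_of_one_le_left (hw e).le (by exact_mod_cast Nat.one_le_iff_ne_zero.2 h)).trans
    (single_le_sum (f := fun j => (c j : ℝ) * w j)
      (fun j _ => mul_nonneg (Nat.cast_nonneg _) (hw j).le) (mem_univ e))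

theorem FinData.C1_pow (D : FinData I Pr X) (k : ℕ) (i : I) :
    ∑ j, ((D.M ^ k) j i : ℝ) * D.w j = D.lam ^ k * D.w i := by
  induction k generalizing i with
  | zero => simp [Matrix.one_apply]
  | succ k ih =>
    simp only [pow_succ, Matrix.mul_apply, Nat.cast_sum, Nat.cast_mul, sum_mul]
    rw [sum_comm, mul_assoc, ← D.M_w, mul_sum]
    refine sum_congr rfl fun x _ => ?_
    rw [mul_left_comm, ← ih, mul_sum]
    exact sum_congr rfl fun y _ => by ring

theorem FinData.C1_back (D : FinData I Pr X) {S : Finset I}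
    (hS : ∀ x ∈ S, ∀ y, D.M y x ≠ 0 → y ∈ S) {x y : I} (hx : x ∈ S) (h : D.M x y ≠ 0) :
    y ∈ S := by
  let f : I → I → ℝ := fun a b => D.M a b * D.h b * D.w a
  have h0 : ∀ a b, 0 ≤ f a b := fun a b =>
    mul_nonneg (mul_nonneg (Nat.cast_nonneg _) (D.h_pos b).le) (D.w_pos a).le
  have h1 : ∀ a, ∑ b, f a b = ∑ b, f b a := fun a => by
    simp only [f, mul_right_comm _ (D.h a)]
    rw [← sum_mul, ← sum_mul, D.M_w, D.M_h, mul_right_comm]
  have h2 : ∀ a ∈ S, ∑ b, f b a = ∑ b ∈ S, f b a := fun a ha =>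
    (sum_subset (subset_univ S) fun b _ hb => by
      simp [f, not_not.1 fun h => hb (hS a ha b h)]).symm
  have h3 : ∑ a ∈ S, ∑ b ∈ Sᶜ, f a b = 0 := by
    have h4 : ∑ a ∈ S, (∑ b ∈ S, f a b + ∑ b ∈ Sᶜ, f a b) = ∑ a ∈ S, ∑ b ∈ S, f b a :=
      sum_congr rfl fun a ha => by rw [sum_add_sum_compl, h1, h2 a ha]
    rwa [sum_add_distrib, sum_comm, add_eq_left] at h4
  by_contra hy
  have h5 := (sum_eq_zero_iff_of_nonneg fun b _ => h0 x b).1
    ((sum_eq_zero_iff_of_nonneg fun a _ => sum_nonneg fun b _ => h0 a b).1 h3 x hx) y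
    (mem_compl.2 hy)
  exact mul_ne_zero (mul_ne_zero (Nat.cast_ne_zero.2 h) (D.h_pos y).ne') (D.w_pos x).ne' h5

theorem FinData.C1_reach (D : FinData I Pr X) (k : ℕ) (e i : I) (h : (D.M ^ k) e i ≠ 0) :
    D.w i ≤ D.lam ^ Fintype.card I * D.w e := by
  classical
  let S : ℕ → Finset I := fun n => {x | D.w x ≤ D.lam ^ n * D.w e}
  have hm : ∀ {n x}, x ∈ S n ↔ D.w x ≤ D.lam ^ n * D.w e := by simp [S]
  have h1 : Monotone S := fun m n hmn x hx => hm.2 ((hm.1 hx).trans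
    (mul_le_mul_of_nonneg_right (pow_le_pow_right₀ D.one_lt.le hmn) (D.w_pos e).le))
  obtain ⟨n, hn, h2⟩ : ∃ n ≤ Fintype.card I, S (n + 1) ⊆ S n := by
    by_contra! h2
    have h3 : ∀ n ≤ Fintype.card I + 1, n ≤ (S n).card := fun n => by
      induction n with
      | zero => exact fun _ => Nat.zero_le _
      | succ n ih => exact fun hn =>
          (ih (by omega)).trans_lt (card_lt_card ⟨h1 n.le_succ, h2 n (by omega)⟩)
    exact (Nat.lt_succ_self _).not_ge ((h3 _ le_rfl).trans (card_le_univ _))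
  have h3 : ∀ x ∈ S n, ∀ y, D.M y x ≠ 0 → y ∈ S n := fun x hx y hy => h2 (hm.2 (by
    refine ((C1_le (c := fun j => D.M j x) D.w_pos hy).trans (D.M_w x).le).trans ?_
    rw [pow_succ', mul_assoc]
    exact mul_le_mul_of_nonneg_left (hm.1 hx) (one_pos.trans D.one_lt).le))
  refine hm.1 (h1 hn ?_)
  induction k generalizing i with
  | zero =>
    obtain rfl : e = i := not_not.1 fun h' => h (by simp [h'])
    exact h1 (Nat.zero_le n) (hm.2 (by simp))
  | succ k ih =>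
    rw [pow_succ, Matrix.mul_apply] at h
    obtain ⟨x, -, hx⟩ := exists_ne_zero_of_sum_ne_zero h
    exact D.C1_back h3 (ih x (left_ne_zero_of_mul hx)) (right_ne_zero_of_mul hx)

theorem FinData.growth (D : FinData I Pr X) (k : ℕ) (hk : 1 ≤ k) (i : I)
    (h : 1 ≤ (D.M ^ k) i i ∨ 1 ≤ (D.M ^ k) (D.T i) i) :
    1 ≤ (D.lam ^ k - 1) * D.lam ^ Fintype.card I := by
  classical
  obtain ⟨a, ha, hw⟩ : ∃ a, 1 ≤ (D.M ^ k) a i ∧ D.w a = D.w i :=
    h.elim (fun h => ⟨i, h, rfl⟩) fun h => ⟨_, h, D.w_T i⟩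
  have h1 : 1 < D.lam ^ k := one_lt_pow₀ D.one_lt (by omega)
  have hi := D.w_pos i
  let c : I → ℕ := fun j => (D.M ^ k) j i - if j = a then 1 else 0
  have h2 : ∑ j, (c j : ℝ) * D.w j = (D.lam ^ k - 1) * D.w i := by
    rw [sub_mul, ← D.C1_pow, one_mul, ← hw, eq_sub_iff_add_eq,
      ← Fintype.sum_ite_eq' a D.w, ← sum_add_distrib]
    refine sum_congr rfl fun j _ => ?_
    by_cases hj : j = a
    · subst hj
      simp only [c, if_true, Nat.cast_sub ha]
      push_cast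
      ring
    · simp [c, hj]
  obtain ⟨e, -, he⟩ := exists_ne_zero_of_sum_ne_zero
    (h2.trans_ne (mul_pos (sub_pos.2 h1) hi).ne')
  have h3 : c e ≠ 0 := fun h => he (by rw [h, Nat.cast_zero, zero_mul])
  have h4 := (C1_le D.w_pos h3).trans h2.le
  have h5 := D.C1_reach k e i fun h => h3 (by simp [c, h])
  have h6 := mul_le_mul_of_nonneg_left h4 (pow_pos (one_pos.trans D.one_lt) (Fintype.card I)).le
  refine le_of_mul_le_mul_right ?_ hi
  linarith only [h5, h6]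

end Pool.Agent.Work.MP_563a32_gt
end

-- merged part: Pool.Agent.Work.MP_563a32_gt.C2
section
/-! Additivity of the trace and power sums of eigenvalues.

Plan. `trace_add_quot`: take a complement `U'` of `U` with projection `p` onto `U`; write
`g = g ∘ p + g ∘ (1 - p)`; use `LinearMap.trace_restrict_eq_of_forall_mem` for the first term
and `LinearMap.trace_comp_comm'` with `V → V ⧸ U → V` for the second. `trace_ker_range`: apply it
to `U = ker f` and conjugate by `LinearMap.quotKerEquivRange`. `exists_eigs`: induction on the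
dimension; an eigenvector spans an invariant line `U`; `mapQ` of a bijective map is bijective;
`(B ^ k).mapQ = (B.mapQ) ^ k`. -/

namespace Pool.Agent.Work.MP_563a32_gt
open Module

theorem trace_add_quot {V : Type} [AddCommGroup V] [Module ℂ V] [FiniteDimensional ℂ V]
    (U : Submodule ℂ V) (g : V →ₗ[ℂ] V) (hg : ∀ x ∈ U, g x ∈ U) :
    LinearMap.trace ℂ V g =
      LinearMap.trace ℂ U (g.restrict hg) +
        LinearMap.trace ℂ (V ⧸ U) (U.mapQ U g (fun x hx => hg x hx)) := by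
  obtain ⟨p, hp⟩ := U.subtype.exists_leftInverse_of_injective U.ker_subtype
  have hp' : ∀ x : U, p x = x := fun x => LinearMap.congr_fun hp x
  let s : V ⧸ U →ₗ[ℂ] V := U.liftQ (LinearMap.id - U.subtype ∘ₗ p) fun x hx => by
    rw [LinearMap.mem_ker, LinearMap.sub_apply, LinearMap.comp_apply, hp' ⟨x, hx⟩]
    exact sub_self x
  have h1 : g = (g ∘ₗ U.subtype) ∘ₗ p + (g ∘ₗ s) ∘ₗ U.mkQ := by
    ext x
    simp [s]
  have h2 : p ∘ₗ g ∘ₗ U.subtype = g.restrict hg := LinearMap.ext fun x => hp' ⟨_, hg x x.2⟩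
  have h3 : U.mkQ ∘ₗ g ∘ₗ s = U.mapQ U g (fun x hx => hg x hx) := by
    ext x
    simp [s, hg]
  conv_lhs => rw [h1]
  rw [map_add, LinearMap.trace_comp_comm', LinearMap.trace_comp_comm' U.mkQ, h2, h3]

theorem trace_ker_range {V W : Type} [AddCommGroup V] [Module ℂ V] [FiniteDimensional ℂ V]
    [AddCommGroup W] [Module ℂ W] [FiniteDimensional ℂ W]
    (f : V →ₗ[ℂ] W) (gV : V →ₗ[ℂ] V) (gW : W →ₗ[ℂ] W) (h : ∀ x, f (gV x) = gW (f x))
    (hk : ∀ x ∈ LinearMap.ker f, gV x ∈ LinearMap.ker f)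
    (hr : ∀ y ∈ LinearMap.range f, gW y ∈ LinearMap.range f) :
    LinearMap.trace ℂ V gV =
      LinearMap.trace ℂ _ (gV.restrict hk) + LinearMap.trace ℂ _ (gW.restrict hr) := by
  rw [trace_add_quot _ gV hk, ← LinearMap.trace_conj' _ f.quotKerEquivRange]
  congr 2
  ext ⟨_, x, rfl⟩
  rw [LinearEquiv.conj_apply_apply, LinearMap.quotKerEquivRange_symm_apply_image,
    Submodule.mkQ_apply, Submodule.mapQ_apply, LinearMap.quotKerEquivRange_apply_mk, h]
  rfl

theorem exists_eigs {V : Type} [AddCommGroup V] [Module ℂ V] [FiniteDimensional ℂ V]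
    (B : V →ₗ[ℂ] V) (hB : Function.Injective B) :
    ∃ μ : Multiset ℂ, Multiset.card μ = finrank ℂ V ∧ (0 : ℂ) ∉ μ ∧
      ∀ k : ℕ, LinearMap.trace ℂ V (B ^ k) = (μ.map (· ^ k)).sum := by
  induction hn : finrank ℂ V generalizing V with
  | zero =>
    have := finrank_zero_iff.1 hn
    refine ⟨0, rfl, Multiset.notMem_zero _, fun k => ?_⟩
    rw [Subsingleton.elim (B ^ k) 0, map_zero, Multiset.map_zero, Multiset.sum_zero]
  | succ n ih =>
    have := nontrivial_of_finrank_eq_succ hn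
    obtain ⟨c, hc⟩ := End.exists_eigenvalue B
    obtain ⟨v, hv⟩ := hc.exists_hasEigenvector
    have h1 : ∀ k : ℕ, ∀ x ∈ ℂ ∙ v, (B ^ k) x = c ^ k • x := fun k x hx => by
      obtain ⟨a, rfl⟩ := Submodule.mem_span_singleton.1 hx
      rw [map_smul, hv.pow_apply, smul_comm]
    have h2 : ∀ k : ℕ, ∀ x ∈ ℂ ∙ v, (B ^ k) x ∈ ℂ ∙ v := fun k x hx => by
      rw [h1 k x hx]
      exact Submodule.smul_mem _ _ hx
    have h3 : (ℂ ∙ v) ≤ (ℂ ∙ v).comap B := fun x hx => by simpa using h2 1 x hx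
    have h4 : finrank ℂ (ℂ ∙ v) = 1 := finrank_span_singleton hv.2
    have h5 := (ℂ ∙ v).finrank_quotient_add_finrank
    have h6 : Function.Surjective ((ℂ ∙ v).mapQ (ℂ ∙ v) B h3) := fun y => by
      obtain ⟨y, rfl⟩ := (ℂ ∙ v).mkQ_surjective y
      obtain ⟨x, rfl⟩ := LinearMap.injective_iff_surjective.1 hB y
      exact ⟨(ℂ ∙ v).mkQ x, rfl⟩
    obtain ⟨μ, m1, m2, m3⟩ := ih _ (LinearMap.injective_iff_surjective.2 h6) (by omega)
    refine ⟨c ::ₘ μ, by rw [Multiset.card_cons, m1], fun h => ?_, fun k => ?_⟩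
    · rcases Multiset.mem_cons.1 h with h | h
      · refine hv.2 (hB ?_)
        rw [hv.apply_eq_smul, ← h, zero_smul, map_zero]
      · exact m2 h
    · have h7 : (B ^ k).restrict (h2 k) = c ^ k • LinearMap.id :=
        LinearMap.ext fun x => Subtype.ext (h1 k x x.2)
      rw [trace_add_quot _ _ (h2 k), h7, map_smul, LinearMap.trace_id, h4, Multiset.map_cons,
        Multiset.sum_cons, ← m3, ← Submodule.mapQ_pow, Nat.cast_one, smul_eq_mul, mul_one]

end Pool.Agent.Work.MP_563a32_gt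
end

-- merged part: Pool.Agent.Work.MP_563a32_gt.C3
section
/-! The Hopf trace formula for a four-term complex `ℂ → E → A → F → ℂ`.

Plan. `Z = ker ∂`, `P = range δ ≤ Z`, `H = Z ⧸ P`, `B` the map induced by `gA`. For every `k`
apply `trace_ker_range` to `∂` (with `gA ^ k`, `gF ^ k`), to `δ` (with `gE ^ k`, `gA ^ k`), to `s`
(with `gF ^ k` and the identity of `ℂ`), and `trace_add_quot` to `P` inside `Z`. `ker δ` is the
line through `e`, fixed by `gE`, so its trace is `1`. `gA` is injective, so its restriction to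
`Z` is surjective, so `B` is surjective, so injective. Finish with `exists_eigs`. -/

namespace Pool.Agent.Work.MP_563a32_gt
open Module

theorem C3_pow {V W : Type} [AddCommGroup V] [Module ℂ V] [AddCommGroup W] [Module ℂ W]
    {f : V → W} {gV : V →ₗ[ℂ] V} {gW : W →ₗ[ℂ] W} (h : ∀ x, f (gV x) = gW (f x)) (k : ℕ) :
    ∀ x, f ((gV ^ k) x) = (gW ^ k) (f x) := by
  induction k with
  | zero => exact fun _ => rfl
  | succ k ih =>
    intro x
    rw [pow_succ', pow_succ', Module.End.mul_apply, Module.End.mul_apply, h, ih]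

theorem C3_congr {V : Type} [AddCommGroup V] [Module ℂ V] {U U' : Submodule ℂ V} (e : U = U')
    (g : V →ₗ[ℂ] V) (h : ∀ x ∈ U, g x ∈ U) (h' : ∀ x ∈ U', g x ∈ U') :
    LinearMap.trace ℂ U (g.restrict h) = LinearMap.trace ℂ U' (g.restrict h') := by
  subst e
  rfl

theorem C3_id {V : Type} [AddCommGroup V] [Module ℂ V] [FiniteDimensional ℂ V]
    {U : Submodule ℂ V} {g : V →ₗ[ℂ] V} (h : ∀ x ∈ U, g x ∈ U) (h1 : ∀ x ∈ U, g x = x)
    (h2 : finrank ℂ U = 1) : LinearMap.trace ℂ U (g.restrict h) = 1 := by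
  have e : g.restrict h = LinearMap.id := LinearMap.ext fun x => Subtype.ext (h1 x.1 x.2)
  rw [e, LinearMap.trace_id, h2, Nat.cast_one]

theorem C3_one {E A F : Type} [AddCommGroup E] [Module ℂ E] [FiniteDimensional ℂ E]
    [AddCommGroup A] [Module ℂ A] [FiniteDimensional ℂ A]
    [AddCommGroup F] [Module ℂ F] [FiniteDimensional ℂ F]
    (bd : A →ₗ[ℂ] F) (δ : E →ₗ[ℂ] LinearMap.ker bd) (s : F →ₗ[ℂ] ℂ)
    (gE : E →ₗ[ℂ] E) (gA : A →ₗ[ℂ] A) (gF : F →ₗ[ℂ] F)
    (gZ : LinearMap.ker bd →ₗ[ℂ] LinearMap.ker bd)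
    (B : (LinearMap.ker bd ⧸ LinearMap.range δ) →ₗ[ℂ] (LinearMap.ker bd ⧸ LinearMap.range δ))
    (e : E) (he : e ≠ 0) (hker : LinearMap.ker δ = Submodule.span ℂ {e}) (hge : gE e = e)
    (hδ : ∀ x, δ (gE x) = gZ (δ x)) (hbd : ∀ x, bd (gA x) = gF (bd x))
    (hs : ∀ y, s (gF y) = s y) (hZ : ∀ x, (gZ x : A) = gA x)
    (hB : ∀ x, (LinearMap.range δ).mkQ (gZ x) = B ((LinearMap.range δ).mkQ x))
    (hrange : LinearMap.range bd = LinearMap.ker s) (hsurj : Function.Surjective s) :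
    LinearMap.trace ℂ _ B + LinearMap.trace ℂ E gE + LinearMap.trace ℂ F gF =
      LinearMap.trace ℂ A gA + 2 := by
  have k1 : ∀ x ∈ LinearMap.ker bd, gA x ∈ LinearMap.ker bd := fun x hx => by
    rw [LinearMap.mem_ker] at hx ⊢
    rw [hbd, hx, map_zero]
  have r1 : ∀ y ∈ LinearMap.range bd, gF y ∈ LinearMap.range bd := by
    rintro _ ⟨x, rfl⟩
    exact ⟨gA x, hbd x⟩
  have k2 : ∀ x ∈ LinearMap.ker δ, gE x ∈ LinearMap.ker δ := fun x hx => by
    rw [LinearMap.mem_ker] at hx ⊢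
    rw [hδ, hx, map_zero]
  have r2 : ∀ y ∈ LinearMap.range δ, gZ y ∈ LinearMap.range δ := by
    rintro _ ⟨x, rfl⟩
    exact ⟨gE x, hδ x⟩
  have k3 : ∀ x ∈ LinearMap.ker s, gF x ∈ LinearMap.ker s := fun x hx => by
    rw [LinearMap.mem_ker] at hx ⊢
    rw [hs, hx]
  have r3 : ∀ y ∈ LinearMap.range s, (LinearMap.id : ℂ →ₗ[ℂ] ℂ) y ∈ LinearMap.range s :=
    fun y hy => hy
  have t1 := trace_ker_range bd gA gF hbd k1 r1
  have t2 := trace_ker_range δ gE gZ hδ k2 r2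
  have t3 := trace_ker_range s gF LinearMap.id hs k3 r3
  have t4 := trace_add_quot (LinearMap.range δ) gZ r2
  have e1 : gA.restrict k1 = gZ := LinearMap.ext fun x => Subtype.ext (hZ x).symm
  have e2 : (LinearMap.range δ).mapQ (LinearMap.range δ) gZ (fun x hx => r2 x hx) = B :=
    Submodule.linearMap_qext _ (LinearMap.ext fun x => hB x)
  have e3 : LinearMap.trace ℂ _ (gE.restrict k2) = 1 := by
    refine C3_id k2 (fun x hx => ?_) (by rw [hker, finrank_span_singleton he])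
    rw [hker] at hx
    obtain ⟨c, rfl⟩ := Submodule.mem_span_singleton.1 hx
    rw [map_smul, hge]
  have e4 : LinearMap.trace ℂ _ ((LinearMap.id : ℂ →ₗ[ℂ] ℂ).restrict r3) = 1 :=
    C3_id r3 (fun _ _ => rfl) (by rw [LinearMap.range_eq_top.2 hsurj, finrank_top, finrank_self])
  rw [e1, C3_congr hrange gF r1 k3] at t1
  rw [e2] at t4
  rw [e3] at t2
  rw [e4] at t3
  linear_combination t2 + t3 - t1 - t4

theorem hopf {E A F : Type} [AddCommGroup E] [Module ℂ E] [FiniteDimensional ℂ E]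
    [AddCommGroup A] [Module ℂ A] [FiniteDimensional ℂ A]
    [AddCommGroup F] [Module ℂ F] [FiniteDimensional ℂ F]
    (δ : E →ₗ[ℂ] A) (bd : A →ₗ[ℂ] F) (s : F →ₗ[ℂ] ℂ)
    (gE : E →ₗ[ℂ] E) (gA : A →ₗ[ℂ] A) (gF : F →ₗ[ℂ] F)
    (e : E) (he : e ≠ 0) (hker : LinearMap.ker δ = Submodule.span ℂ {e}) (hge : gE e = e)
    (hδ : ∀ x, δ (gE x) = gA (δ x)) (hbd : ∀ x, bd (gA x) = gF (bd x))
    (hs : ∀ y, s (gF y) = s y) (hcomp : ∀ x, bd (δ x) = 0)
    (hrange : LinearMap.range bd = LinearMap.ker s) (hsurj : Function.Surjective s)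
    (hinj : Function.Injective gA) :
    ∃ μ : Multiset ℂ, Multiset.card μ + finrank ℂ E + finrank ℂ F = finrank ℂ A + 2 ∧
      (0 : ℂ) ∉ μ ∧ ∀ k : ℕ, (μ.map (· ^ k)).sum + LinearMap.trace ℂ E (gE ^ k) +
        LinearMap.trace ℂ F (gF ^ k) = LinearMap.trace ℂ A (gA ^ k) + 2 := by
  have k1 : ∀ x ∈ LinearMap.ker bd, gA x ∈ LinearMap.ker bd := fun x hx => by
    rw [LinearMap.mem_ker] at hx ⊢
    rw [hbd, hx, map_zero]
  let δ' : E →ₗ[ℂ] LinearMap.ker bd := δ.codRestrict _ hcomp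
  let gZ := gA.restrict k1
  have hδ' : ∀ x, δ' (gE x) = gZ (δ' x) := fun x => Subtype.ext (hδ x)
  have r2 : ∀ y ∈ LinearMap.range δ', gZ y ∈ LinearMap.range δ' := by
    rintro _ ⟨x, rfl⟩
    exact ⟨gE x, hδ' x⟩
  let B := (LinearMap.range δ').mapQ (LinearMap.range δ') gZ fun x hx => r2 x hx
  have hB : ∀ x, (LinearMap.range δ').mkQ (gZ x) = B ((LinearMap.range δ').mkQ x) := fun _ => rfl
  have hZ : Function.Surjective gZ := LinearMap.surjective_of_injective fun x y h =>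
    Subtype.ext (hinj (congrArg Subtype.val h))
  have hBs : Function.Surjective B := fun q => by
    obtain ⟨x, rfl⟩ := (LinearMap.range δ').mkQ_surjective q
    obtain ⟨y, rfl⟩ := hZ x
    exact ⟨_, (hB y).symm⟩
  obtain ⟨μ, -, h0, hμ⟩ := exists_eigs B (LinearMap.injective_iff_surjective.2 hBs)
  have key : ∀ k : ℕ, (μ.map (· ^ k)).sum + LinearMap.trace ℂ E (gE ^ k) +
      LinearMap.trace ℂ F (gF ^ k) = LinearMap.trace ℂ A (gA ^ k) + 2 := fun k => by
    rw [← hμ]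
    refine C3_one bd δ' s (gE ^ k) (gA ^ k) (gF ^ k) (gZ ^ k) (B ^ k) e he
      (by rw [← hker]; exact LinearMap.ker_codRestrict _ _ _) ?_ (C3_pow hδ' k) (C3_pow hbd k) ?_
      (C3_pow (f := fun x : LinearMap.ker bd => (x : A)) (fun _ => rfl) k) (C3_pow hB k)
      hrange hsurj
    · induction k with
      | zero => rfl
      | succ k ih => rw [pow_succ', Module.End.mul_apply, ih, hge]
    · intro y
      have := C3_pow (gW := 1) hs k y
      rwa [one_pow] at this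
  refine ⟨μ, ?_, h0, key⟩
  have h1 := key 0
  simp only [pow_zero, Multiset.map_const', Multiset.sum_replicate, nsmul_eq_mul, mul_one,
    LinearMap.trace_one] at h1
  exact_mod_cast h1

end Pool.Agent.Work.MP_563a32_gt
end

-- merged part: Pool.Agent.Work.MP_563a32_gt.C4
section
/-! The Lefschetz formula for finite Markov data without short loops.

Plan. Apply `hopf` with `E = X → ℂ`, `F = Pr → ℂ`, `A` the submodule of `z : I → ℂ` with
`z (T i) = - z i`; `δ b i = b (xI (T i)) - b (xI i)`, `bd z q = ∑ i with top i = q, z i`,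
`s a = ∑ q, a q`, `gE b = b ∘ fX⁻¹`, `gF a = a ∘ σ⁻¹`, `gA z i = ∑ j, M j i * z j` (`M_symm`).
Key identity for `z` in `A`: `2 * ∑ q, a q * bd z q = ∑ i, z i * (a (top i) - a (top (T i)))`;
it gives `hbd` (`d_equiv`), `hcomp` (`d_del`), and `range bd = ker s`: a functional `a` that kills
the range satisfies, with `z i = conj (a (top i) - a (top (T i)))`, the hypothesis of `d_ker`, so
it is constant (compare dimensions with `Submodule.dualAnnihilator`, or take a functional that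
kills the range and not a given point). `2 * finrank A = card I` because `T` is a free involution
(the projection `π z = (z - z ∘ T) / 2` onto `A` has trace `card I / 2`). The trace of `gA ^ k` is
that of `(M ^ k)ᵀ ∘ π` on `I → ℂ` (`LinearMap.trace_restrict_eq_of_forall_mem`), whose diagonal
entries are `((M ^ k) i i - (M ^ k) (T i) i) / 2 = 0`. A prong fixed by `σ ^ k` would give
`1 ≤ (M ^ k) (first q) (first q)` by `first_M`, so the trace of `gF ^ k` vanishes. -/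

namespace Pool.Agent.Work.MP_563a32_gt
open Finset

variable {I Pr X : Type} [Fintype I] [DecidableEq I] [Fintype Pr] [DecidableEq Pr]
    [Fintype X] [DecidableEq X]

theorem C4_trace (f : (I → ℂ) →ₗ[ℂ] (I → ℂ)) :
    LinearMap.trace ℂ _ f = ∑ i, f (Pi.single i 1) i := by
  rw [LinearMap.trace_eq_matrix_trace ℂ (Pi.basisFun ℂ I)]
  simp [Matrix.trace]

theorem C4_perm (σ : Equiv.Perm I) (k : ℕ) :
    LinearMap.trace ℂ _ (LinearMap.funLeft ℂ ℂ (σ⁻¹ : Equiv.Perm I) ^ k) =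
      ((univ.filter fun x => (σ ^ k) x = x).card : ℂ) := by
  have h : LinearMap.funLeft ℂ ℂ (σ⁻¹ : Equiv.Perm I) ^ k =
      LinearMap.funLeft ℂ ℂ (σ⁻¹ ^ k : Equiv.Perm I) := by
    induction k with
    | zero => rfl
    | succ k ih => rw [pow_succ, ih, pow_succ']; rfl
  rw [h, C4_trace, card_filter, Nat.cast_sum]
  refine sum_congr rfl fun x _ => ?_
  simp only [LinearMap.funLeft_apply, Pi.single_apply, inv_pow, Equiv.Perm.inv_eq_iff_eq,
    eq_comm (a := x), Nat.cast_ite, Nat.cast_one, Nat.cast_zero]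

/-- The action of a matrix on row vectors. -/
def C4_G (N : Matrix I I ℕ) : (I → ℂ) →ₗ[ℂ] (I → ℂ) where
  toFun z i := ∑ j, (N j i : ℂ) * z j
  map_add' z z' := by ext i; simp [mul_add, sum_add_distrib]
  map_smul' c z := by ext i; simp [mul_sum, mul_left_comm]

theorem C4_G_pow (N : Matrix I I ℕ) (k : ℕ) : C4_G N ^ k = C4_G (N ^ k) := by
  induction k with
  | zero =>
    refine LinearMap.ext fun z => funext fun i => ?_
    simp [C4_G, Matrix.one_apply]
  | succ k ih =>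
    refine LinearMap.ext fun z => funext fun i => ?_
    rw [pow_succ, ih, pow_succ']
    change ∑ j, ((N ^ k) j i : ℂ) * ∑ l, (N l j : ℂ) * z l = ∑ l, ((N * N ^ k) l i : ℂ) * z l
    simp only [Matrix.mul_apply, Nat.cast_sum, Nat.cast_mul, mul_sum, sum_mul]
    rw [sum_comm]
    exact sum_congr rfl fun _ _ => sum_congr rfl fun _ _ => by ring

namespace FinData

variable (D : FinData I Pr X)

/-- The odd chains. -/
def C4_A : Submodule ℂ (I → ℂ) where
  carrier := {z | ∀ i, z (D.T i) = -z i}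
  add_mem' ha hb i := by rw [Pi.add_apply, Pi.add_apply, ha i, hb i, neg_add]
  zero_mem' _ := neg_zero.symm
  smul_mem' c z hz i := by rw [Pi.smul_apply, Pi.smul_apply, hz i, smul_neg]

theorem C4_sum (f : I → ℂ) : ∑ i, f (D.T i) = ∑ i, f i :=
  Equiv.sum_comp (Function.Involutive.toPerm D.T D.T_T) f

theorem C4_G_mem : ∀ z ∈ D.C4_A, C4_G D.M z ∈ D.C4_A := fun z hz i => by
  change ∑ j, (D.M j (D.T i) : ℂ) * z j = -∑ j, (D.M j i : ℂ) * z j
  rw [← D.C4_sum, ← sum_neg_distrib]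
  exact sum_congr rfl fun j _ => by rw [D.M_symm, hz j, mul_neg]

theorem C4_trA (k : ℕ) : 2 * LinearMap.trace ℂ _ ((C4_G D.M).restrict D.C4_G_mem ^ k) =
    ∑ i, (((D.M ^ k) i i : ℂ) - (D.M ^ k) (D.T i) i) := by
  let π : (I → ℂ) →ₗ[ℂ] (I → ℂ) := (2⁻¹ : ℂ) • (LinearMap.id - LinearMap.funLeft ℂ ℂ D.T)
  have h0 : ∀ z i, π z i = 2⁻¹ * (z i - z (D.T i)) := fun _ _ => rfl
  have h1 : ∀ z, π z ∈ D.C4_A := fun z i => by rw [h0, h0, D.T_T]; ring
  have h2 : ∀ z ∈ D.C4_A, π z = z := fun z hz => funext fun i => by rw [h0, hz i]; ring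
  have h3 : ∀ z, ((C4_G D.M ^ k) ∘ₗ π) z ∈ D.C4_A := fun z =>
    Module.End.pow_apply_mem_of_forall_mem k D.C4_G_mem _ (h1 z)
  have h4 : (C4_G D.M).restrict D.C4_G_mem ^ k = ((C4_G D.M ^ k) ∘ₗ π).restrict fun z _ => h3 z := by
    rw [Module.End.pow_restrict]
    refine LinearMap.ext fun z => Subtype.ext ?_
    rw [LinearMap.coe_restrict_apply, LinearMap.coe_restrict_apply, LinearMap.comp_apply, h2 _ z.2]
  rw [h4, LinearMap.trace_restrict_eq_of_forall_mem _ _ h3, C4_trace, C4_G_pow, mul_sum]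
  refine sum_congr rfl fun i _ => ?_
  change 2 * ∑ j, ((D.M ^ k) j i : ℂ) * π (Pi.single i 1) j = _
  have h5 : ∀ j, D.T j = i ↔ j = D.T i := fun j =>
    ⟨fun e => by rw [← e, D.T_T], fun e => by rw [e, D.T_T]⟩
  simp only [h0, Pi.single_apply, h5, mul_sub, mul_ite, mul_one, mul_zero, sum_sub_distrib,
    sum_ite_eq', mem_univ, if_true]
  ring

/-- The coboundary of functions on the singular points. -/
def C4_del : (X → ℂ) →ₗ[ℂ] D.C4_A :=
  (LinearMap.funLeft ℂ ℂ (fun i => D.xI (D.T i)) - LinearMap.funLeft ℂ ℂ D.xI).codRestrict _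
    fun b i => by simp [LinearMap.funLeft_apply, D.T_T]

/-- The boundary of odd chains. -/
def C4_bd : D.C4_A →ₗ[ℂ] (Pr → ℂ) where
  toFun z q := ∑ i with D.top i = q, z.1 i
  map_add' z z' := by ext q; simp [sum_add_distrib]
  map_smul' c z := by ext q; simp [mul_sum]

theorem C4_pair (a : Pr → ℂ) (z : D.C4_A) :
    ∑ q, a q * D.C4_bd z q = ∑ i, a (D.top i) * z.1 i := by
  rw [← sum_fiberwise univ D.top]
  refine sum_congr rfl fun q _ => ?_
  change a q * ∑ i with D.top i = q, z.1 i = _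
  rw [mul_sum]
  exact sum_congr rfl fun i hi => by rw [(mem_filter.1 hi).2]

theorem C4_key (a : Pr → ℂ) (z : D.C4_A) :
    2 * ∑ q, a q * D.C4_bd z q = ∑ i, z.1 i * (a (D.top i) - a (D.top (D.T i))) := by
  rw [C4_pair, two_mul]
  nth_rw 2 [← D.C4_sum]
  rw [← sum_add_distrib]
  exact sum_congr rfl fun i _ => by rw [z.2 i]; ring

omit [Fintype I] [DecidableEq I] [Fintype X] [DecidableEq X] in
theorem C4_ext {y y' : Pr → ℂ} (h : ∀ a : Pr → ℂ, 2 * ∑ q, a q * y q = 2 * ∑ q, a q * y' q) :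
    y = y' := funext fun q => by simpa [Pi.single_apply] using h (Pi.single q 1)

theorem C4_first (k : ℕ) (q : Pr) : 1 ≤ (D.M ^ k) (D.first ((D.σ⁻¹ ^ k) q)) (D.first q) := by
  induction k with
  | zero => simp
  | succ k ih =>
    rw [pow_succ', pow_succ', Matrix.mul_apply, Equiv.Perm.mul_apply]
    exact (Nat.mul_le_mul (D.first_M _) ih).trans (single_le_sum
      (f := fun j => D.M (D.first (D.σ⁻¹ ((D.σ⁻¹ ^ k) q))) j * (D.M ^ k) j (D.first q))
      (fun _ _ => Nat.zero_le _) (mem_univ _))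

end FinData

theorem FinData.lefschetz (D : FinData I Pr X) (K : ℕ)
    (hno : ∀ k, 1 ≤ k → k ≤ K → ∀ i, (D.M ^ k) i i = 0 ∧ (D.M ^ k) (D.T i) i = 0) :
    ∃ μ : Multiset ℂ, 2 * Multiset.card μ + 2 * Fintype.card X = Fintype.card Pr + 4 ∧
      (0 : ℂ) ∉ μ ∧ ∀ k, 1 ≤ k → k ≤ K →
        (μ.map (· ^ k)).sum + ((univ.filter fun x => (D.fX ^ k) x = x).card : ℂ) = 2 := by
  let s : (Pr → ℂ) →ₗ[ℂ] ℂ := ∑ q, LinearMap.proj q
  have hs : ∀ y, s y = ∑ q, y q := fun y => by simp [s]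
  obtain ⟨x₀⟩ := D.ne_X
  obtain ⟨q₀⟩ := D.ne_Pr
  have H := hopf D.C4_del D.C4_bd s (LinearMap.funLeft ℂ ℂ (D.fX⁻¹ : Equiv.Perm X))
    ((C4_G D.M).restrict D.C4_G_mem) (LinearMap.funLeft ℂ ℂ (D.σ⁻¹ : Equiv.Perm Pr)) (fun _ => 1)
    (fun e => one_ne_zero (congrFun e x₀)) ?_ rfl
    (fun b => Subtype.ext (funext fun i => (D.del_equiv b i).symm)) (fun z => ?_)
    (fun y => ?_) (fun b => ?_) ?_ (fun c => ⟨Pi.single q₀ c, by simp [hs]⟩) ?_
  · obtain ⟨μ, h1, h2, h3⟩ := H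
    have h4 := D.C4_trA 0
    simp only [pow_zero, LinearMap.trace_one, Matrix.one_apply_eq, Matrix.one_apply_ne (D.T_ne _),
      Nat.cast_one, Nat.cast_zero, sub_zero, sum_const, card_univ, nsmul_eq_mul, mul_one] at h4
    have h5 : 2 * Module.finrank ℂ D.C4_A = Fintype.card I := by exact_mod_cast h4
    rw [Module.finrank_fintype_fun_eq_card, Module.finrank_fintype_fun_eq_card] at h1
    refine ⟨μ, by have := D.card_I; omega, h2, fun k k1 k2 => ?_⟩
    have h6 := D.C4_trA k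
    simp only [hno k k1 k2, Nat.cast_zero, sub_zero, sum_const_zero, mul_eq_zero,
      OfNat.ofNat_ne_zero, false_or] at h6
    have h7 := h3 k
    have h9 : (univ.filter fun q => (D.σ ^ k) q = q) = ∅ := filter_false_of_mem fun q _ e => by
      have h8 := D.C4_first k q
      rw [inv_pow, Equiv.Perm.inv_eq_iff_eq.2 e.symm, (hno k k1 k2 _).1] at h8
      omega
    rw [h6, C4_perm, C4_perm, h9] at h7
    simpa using h7
  · refine le_antisymm (fun b hb => Submodule.mem_span_singleton.2 ⟨b x₀, funext fun x => ?_⟩) ?_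
    · simpa using D.del_ker b (fun i => sub_eq_zero.1 (congrFun (congrArg Subtype.val hb) i)) x₀ x
    · rw [Submodule.span_singleton_le_iff_mem]
      exact Subtype.ext (funext fun i => sub_self _)
  · refine FinData.C4_ext fun a => ?_
    have h4 : ∑ q, a q * LinearMap.funLeft ℂ ℂ (D.σ⁻¹ : Equiv.Perm Pr) (D.C4_bd z) q =
        ∑ q, a (D.σ q) * D.C4_bd z q := by
      rw [← Equiv.sum_comp D.σ]
      simp [LinearMap.funLeft_apply]
    rw [h4, D.C4_key, D.C4_key]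
    change ∑ i, (∑ j, (D.M j i : ℂ) * z.1 j) * _ = _
    simp only [← D.d_equiv, sum_mul, mul_sum]
    rw [sum_comm]
    exact sum_congr rfl fun _ _ => sum_congr rfl fun _ _ => by ring
  · rw [hs, hs]
    exact Equiv.sum_comp D.σ⁻¹ y
  · refine FinData.C4_ext fun a => ?_
    rw [D.C4_key]
    exact (D.d_del a b).trans (by simp)
  · refine le_antisymm ?_ fun y hy => by_contra fun hy' => ?_
    · rintro _ ⟨z, rfl⟩
      simpa [hs] using D.C4_key 1 z
    · obtain ⟨φ, h4, h5⟩ := Submodule.exists_dual_map_eq_bot_of_notMem hy' inferInstance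
      have h6 : ∀ y, φ y = ∑ q, φ (Pi.single q 1) * y q := fun y => by
        rw [LinearMap.pi_apply_eq_sum_univ]
        exact sum_congr rfl fun q _ => by
          rw [smul_eq_mul, mul_comm]
          congr 2
          ext j
          simp [Pi.single_apply, eq_comm]
      have h7 := D.d_ker (fun q => φ (Pi.single q 1)) fun i => by
        have h8 : (Pi.single i 1 - Pi.single (D.T i) 1 : I → ℂ) ∈ D.C4_A := fun j => by
          have h9 : D.T j = i ↔ j = D.T i :=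
            ⟨fun e => by rw [← e, D.T_T], fun e => by rw [e, D.T_T]⟩
          simp only [Pi.sub_apply, Pi.single_apply, h9, (Function.Involutive.injective D.T_T).eq_iff, neg_sub]
        have h9 : φ (D.C4_bd ⟨_, h8⟩) = 0 :=
          (Submodule.mem_bot _).1 (h5 ▸ Submodule.mem_map_of_mem (LinearMap.mem_range_self _ _))
        rw [h6, D.C4_pair] at h9
        simpa [Pi.single_apply, mul_sub, sub_eq_zero] using h9
      apply h4
      rw [h6, sum_congr rfl fun q _ => by rw [h7 q q₀], ← mul_sum, ← hs, LinearMap.mem_ker.1 hy,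
        mul_zero]
  · refine (injective_iff_map_eq_zero _).2 fun z hz => Subtype.ext (D.inj z.1 z.2 fun i => ?_)
    exact congrFun (congrArg Subtype.val hz) i

end Pool.Agent.Work.MP_563a32_gt
end

-- merged part: Pool.Agent.Work.MP_563a32_gt.C5
section
/-! Newton identities in the form needed, and orbit counts of a permutation.

Plan for `newton`. In power series over `ℂ`, `F = ∏ (1 - μ X) * ∏ (1 - X ^ d)` satisfies
`F' = - F * S` with `coeff k S = ∑ μ ^ (k + 1) + ∑ d ∣ k + 1, d` (induction on the multisets: for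
one factor `(1 - μ X) * mk (μ ^ (k + 1)) = μ` and
`(1 - X ^ d) * mk (if d ∣ k + 1 then d else 0) = d X ^ (d - 1)`), and `G = (1 - X) ^ 2` satisfies
`G' = - G * mk 2`. Both have constant term `1`, so `(n + 1) F_(n+1) = - ∑ F_i S_(n-i)` gives
`F_n = G_n` for `n ≤ K` by strong induction. Plan for `orbits`: `D` is the multiset of the sizes
of the orbits of `zpowers π` (or of `Function.minimalPeriod` over the quotient by
`Equiv.Perm.SameCycle`); `(π ^ k) x = x` iff the minimal period of `x` divides `k`. -/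

namespace Pool.Agent.Work.MP_563a32_gt
open Polynomial

/-- `-S` is the logarithmic derivative of `p`. -/
def C5_LD (p : ℂ[X]) (S : PowerSeries ℂ) : Prop :=
  p.coeff 0 = 1 ∧ ((derivative p : ℂ[X]) : PowerSeries ℂ) = -((p : PowerSeries ℂ) * S)

theorem C5_one : C5_LD 1 0 := ⟨by simp, by simp⟩

theorem C5_mul {p q : ℂ[X]} {S T : PowerSeries ℂ} (h : C5_LD p S) (h' : C5_LD q T) :
    C5_LD (p * q) (S + T) := by
  refine ⟨by rw [mul_coeff_zero, h.1, h'.1, mul_one], ?_⟩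
  rw [derivative_mul, coe_add, coe_mul, coe_mul, coe_mul, h.2, h'.2]
  ring

theorem C5_lin (a : ℂ) : C5_LD (1 - C a * X) (PowerSeries.mk fun k => a ^ (k + 1)) := by
  refine ⟨by simp, ?_⟩
  have h : ((1 - C a * X : ℂ[X]) : PowerSeries ℂ) = 1 - PowerSeries.C a * PowerSeries.X := by
    rw [coe_sub, coe_mul, coe_one, coe_C, coe_X]
  rw [h, sub_mul, one_mul, mul_assoc]
  ext n
  rw [coeff_coe, coeff_derivative, map_neg, map_sub, PowerSeries.coeff_C_mul]
  rcases n with _ | n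
  · simp [coeff_one]
  · simp [PowerSeries.coeff_succ_X_mul, coeff_one, pow_succ' a (n + 1)]

theorem C5_cyc {d : ℕ} (hd : 0 < d) :
    C5_LD (1 - X ^ d) (PowerSeries.mk fun k => if d ∣ k + 1 then (d : ℂ) else 0) := by
  refine ⟨by simp [coeff_X_pow, hd.ne], ?_⟩
  have h : ((1 - X ^ d : ℂ[X]) : PowerSeries ℂ) = 1 - PowerSeries.X ^ d := by
    rw [coe_sub, coe_pow, coe_one, coe_X]
  rw [h, sub_mul, one_mul]
  ext n
  rw [coeff_coe, coeff_derivative, map_neg, map_sub, PowerSeries.coeff_X_pow_mul',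
    PowerSeries.coeff_mk, PowerSeries.coeff_mk, coeff_sub, coeff_one, coeff_X_pow,
    if_neg (Nat.succ_ne_zero n)]
  by_cases h1 : d ≤ n
  · have h2 : d ∣ n - d + 1 ↔ d ∣ n + 1 := by
      rw [show n + 1 = n - d + 1 + d by omega]
      exact (Nat.dvd_add_self_right).symm
    rw [if_pos h1, if_neg (by omega : ¬ n + 1 = d)]
    simp only [h2]
    ring
  · rw [if_neg h1]
    by_cases h2 : n + 1 = d
    · rw [if_pos h2, if_pos (h2 ▸ dvd_rfl), ← h2]
      push_cast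
      ring
    · rw [if_neg h2, if_neg fun e => h2 (le_antisymm (by omega) (Nat.le_of_dvd n.succ_pos e))]
      ring

theorem C5_uniq {p q : ℂ[X]} {S T : PowerSeries ℂ} (h : C5_LD p S) (h' : C5_LD q T) {K : ℕ}
    (e : ∀ k < K, PowerSeries.coeff k S = PowerSeries.coeff k T) :
    ∀ n ≤ K, p.coeff n = q.coeff n := by
  intro n
  induction n using Nat.strong_induction_on with
  | _ n ih =>
    intro hn
    rcases n with _ | n
    · rw [h.1, h'.1]
    have h1 := congrArg (PowerSeries.coeff n) h.2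
    have h2 := congrArg (PowerSeries.coeff n) h'.2
    rw [coeff_coe, coeff_derivative, map_neg, PowerSeries.coeff_mul] at h1 h2
    refine mul_right_cancel₀ (Nat.cast_add_one_ne_zero n) (h1.trans (Eq.trans ?_ h2.symm))
    congr 1
    refine Finset.sum_congr rfl fun x hx => ?_
    have h3 := Finset.HasAntidiagonal.mem_antidiagonal.1 hx
    rw [coeff_coe, coeff_coe, ih x.1 (by omega) (by omega), e x.2 (by omega)]

theorem C5_mu (μ : Multiset ℂ) : C5_LD (μ.map fun a => 1 - C a * X).prod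
    (PowerSeries.mk fun k => (μ.map (· ^ (k + 1))).sum) := by
  induction μ using Multiset.induction_on with
  | empty =>
    convert C5_one using 1
    · simp
    · ext n
      simp
  | cons a s ih =>
    convert C5_mul (C5_lin a) ih using 1
    · simp
    · ext n
      simp

theorem C5_D (D : Multiset ℕ) (hD : ∀ d ∈ D, 0 < d) : C5_LD (D.map fun d => 1 - X ^ d).prod
    (PowerSeries.mk fun k => (((D.filter (· ∣ k + 1)).sum : ℕ) : ℂ)) := by
  induction D using Multiset.induction_on with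
  | empty =>
    convert C5_one using 1
    · simp
    · ext n
      simp
  | cons a s ih =>
    convert C5_mul (C5_cyc (hD a (Multiset.mem_cons_self a s)))
      (ih fun d hd => hD d (Multiset.mem_cons_of_mem hd)) using 1
    · simp
    · ext n
      rw [map_add, PowerSeries.coeff_mk, PowerSeries.coeff_mk, PowerSeries.coeff_mk,
        Multiset.filter_cons]
      split_ifs <;> simp

theorem newton (μ : Multiset ℂ) (D : Multiset ℕ) (hD : ∀ d ∈ D, 0 < d) (K : ℕ)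
    (h : ∀ k, 1 ≤ k → k ≤ K →
      (μ.map (· ^ k)).sum + (((D.filter (· ∣ k)).sum : ℕ) : ℂ) = 2) :
    (X : ℂ[X]) ^ (K + 1) ∣
      (μ.map fun a => 1 - C a * X).prod * (D.map fun d => 1 - X ^ d).prod - (1 - X) ^ 2 := by
  have h1 := C5_mul (C5_lin 1) (C5_lin 1)
  rw [C_1, one_mul, ← sq] at h1
  refine X_pow_dvd_iff.2 fun n hn => ?_
  rw [coeff_sub, C5_uniq (C5_mul (C5_mu μ) (C5_D D hD)) h1 (K := K) (fun k hk => ?_) n (by omega),
    sub_self]
  simp only [map_add, PowerSeries.coeff_mk, one_pow]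
  rw [h (k + 1) (by omega) (by omega), one_add_one_eq_two]

theorem orbits {Y : Type} [Fintype Y] [DecidableEq Y] (π : Equiv.Perm Y) :
    ∃ D : Multiset ℕ, (∀ d ∈ D, 0 < d) ∧ ∀ k, 1 ≤ k →
      (Finset.univ.filter fun x => (π ^ k) x = x).card = (D.filter (· ∣ k)).sum := by
  classical
  let c : Y → ℕ := fun x => Function.minimalPeriod (π • ·) x
  let r := MulAction.orbitRel (Subgroup.zpowers π) Y
  have hc : ∀ x, c x = (Finset.univ.filter fun y => Quotient.mk r y = Quotient.mk r x).card :=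
    fun x => by
      rw [show c x = _ from MulAction.minimalPeriod_eq_card π x, ← Set.toFinset_card]
      congr 1
      ext y
      simp only [Set.mem_toFinset, Finset.mem_filter, Finset.mem_univ, true_and, Quotient.eq]
      rfl
  refine ⟨Finset.univ.val.map fun q : Quotient r => c q.out, fun d hd => ?_, fun k _ => ?_⟩
  · obtain ⟨q, -, rfl⟩ := Multiset.mem_map.1 hd
    rw [hc]
    exact Finset.card_pos.2 ⟨q.out, by simp⟩
  rw [Multiset.filter_map, ← Finset.filter_val, ← Finset.sum_eq_multiset_sum, Finset.sum_filter,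
    Finset.card_eq_sum_card_fiberwise (f := Quotient.mk r) (t := Finset.univ)
      fun _ _ => Finset.mem_univ _]
  refine Finset.sum_congr rfl fun q _ => ?_
  have h1 : ∀ x, Quotient.mk r x = q → ((π ^ k) x = x ↔ c q.out ∣ k) := fun x hx => by
    rw [hc, Quotient.out_eq, ← hx, ← hc]
    exact MulAction.pow_smul_eq_iff_minimalPeriod_dvd (a := π) (b := x)
  split_ifs with h
  · rw [hc, Quotient.out_eq]
    congr 1
    ext x
    simp only [Finset.mem_filter, Finset.mem_univ, true_and]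
    exact ⟨fun e => e.2, fun e => ⟨(h1 x e).2 h, e⟩⟩
  · rw [Finset.card_eq_zero, Finset.filter_eq_empty_iff]
    exact fun x hx e => h ((h1 x e).1 (Finset.mem_filter.1 hx).2)

end Pool.Agent.Work.MP_563a32_gt
end

-- merged part: Pool.Agent.Work.MP_563a32_gt.C6
section
/-! The key polynomial lemma.

Plan. Let `K = 32 g`. Step 1: `D` cannot contain three members `d₁, d₂, d₃ ≤ 10 g`. Otherwise
write `D = d₁ ::ₘ d₂ ::ₘ D'` with `d₃ ∈ D'`; let `R` be the power series inverse of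
`∏ d ∈ D', (1 - X ^ d)`, a product of geometric series, so its coefficients are natural numbers and
`coeff (m d₃) R ≥ 1`. Then `Q (1 - X ^ d₁) (1 - X ^ d₂) ≡ (1 - X) ^ 2 R` modulo `X ^ (K + 1)`.
Both `1 - X ^ dᵢ` are divisible by `1 - X`, and `(1 - X) ^ 2` is a unit, so
`Q u₁ u₂ ≡ R` with `uᵢ = 1 + X + ... + X ^ (dᵢ - 1)`. The left side has degree at most
`2 g + d₁ + d₂ - 2 ≤ 22 g - 2`, so `coeff j R = 0` for `22 g - 1 ≤ j ≤ 32 g`, an interval that
contains a multiple of `d₃`. Step 2: factors `1 - X ^ d` with `d > L` are `1` modulo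
`X ^ (L + 1)`; if the members `≤ L` of `D` have sum at most `L - 2 g`, the congruence modulo
`X ^ (L + 1)` is an equality of polynomials, impossible as the left side has degree `≥ 2 g > 2`.
Use `L = 10 g` (so two members `≤ 10 g` with sum `> 8 g`, hence at most one member `≤ 4 g`), then
`L = 4 g` (that member is `> 2 g`), then `L = 2 g`. -/

namespace Pool.Agent.Work.MP_563a32_gt
open Polynomial

theorem C6_prod {R : Type*} [CommRing R] (a : R) (f : ℕ → R) (D : Multiset ℕ)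
    (h : ∀ d ∈ D, a ∣ f d - 1) : a ∣ (D.map f).prod - 1 := by
  induction D using Multiset.induction_on with
  | empty => simp
  | cons d D ih =>
    rw [Multiset.map_cons, Multiset.prod_cons]
    have e : f d * (D.map f).prod - 1 = (f d - 1) * (D.map f).prod + ((D.map f).prod - 1) := by
      ring
    rw [e]
    exact dvd_add ((h d (Multiset.mem_cons_self _ _)).mul_right _)
      (ih fun x hx => h x (Multiset.mem_cons_of_mem hx))

theorem C6_deg (D : Multiset ℕ) (hD : ∀ d ∈ D, 0 < d) :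
    (D.map fun d => (1 - X ^ d : ℂ[X])).prod.natDegree ≤ D.sum ∧
      (D.map fun d => (1 - X ^ d : ℂ[X])).prod ≠ 0 := by
  induction D using Multiset.induction_on with
  | empty => simp
  | cons d D ih =>
    obtain ⟨h1, h2⟩ := ih fun x hx => hD x (Multiset.mem_cons_of_mem hx)
    rw [Multiset.map_cons, Multiset.prod_cons, Multiset.sum_cons]
    refine ⟨natDegree_mul_le.trans (add_le_add ?_ h1), mul_ne_zero (fun h => ?_) h2⟩
    · refine (natDegree_sub_le _ _).trans (max_le (by simp) (by simp))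
    · have := congrArg (eval 0) h
      simp [(hD d (Multiset.mem_cons_self _ _)).ne'] at this

theorem C6_small {g K L : ℕ} (hg : 2 ≤ g) {Q : ℂ[X]} (hQ : Q.natDegree = 2 * g) {D : Multiset ℕ}
    (hD : ∀ d ∈ D, 0 < d)
    (h : (X : ℂ[X]) ^ (K + 1) ∣ Q * (D.map fun d => 1 - X ^ d).prod - (1 - X) ^ 2) (hL : L ≤ K) :
    L < (D.filter (· ≤ L)).sum + 2 * g := by
  by_contra hc
  obtain ⟨h1, h2⟩ := C6_deg (D.filter (· ≤ L)) fun d hd => hD d (Multiset.mem_filter.1 hd).1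
  have h3 : (X : ℂ[X]) ^ (L + 1) ∣
      ((D.filter fun d => ¬ d ≤ L).map fun d => (1 - X ^ d : ℂ[X])).prod - 1 := by
    refine C6_prod _ _ _ fun d hd => ?_
    rw [sub_sub_cancel_left, dvd_neg]
    exact pow_dvd_pow _ (not_le.1 (Multiset.mem_filter.1 hd).2)
  rw [← Multiset.filter_add_not (· ≤ L) D, Multiset.map_add, Multiset.prod_add] at h
  generalize ((D.filter (· ≤ L)).map fun d => (1 - X ^ d : ℂ[X])).prod = P at h h1 h2
  generalize ((D.filter fun d => ¬ d ≤ L).map fun d => (1 - X ^ d : ℂ[X])).prod = T at h h3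
  have h4 : (X : ℂ[X]) ^ (L + 1) ∣ Q * P - (1 - X) ^ 2 := by
    have e : Q * P - (1 - X) ^ 2 = (Q * (P * T) - (1 - X) ^ 2) - Q * P * (T - 1) := by ring
    rw [e]
    exact dvd_sub ((pow_dvd_pow _ (by omega)).trans h) (h3.mul_left _)
  have h5 : ((1 - X : ℂ[X]) ^ 2).natDegree ≤ 2 := by compute_degree
  have hQ0 : Q ≠ 0 := by
    rintro rfl
    rw [natDegree_zero] at hQ
    omega
  have h6 := natDegree_mul hQ0 h2
  have h7 : Q * P - (1 - X) ^ 2 = 0 := by
    refine eq_zero_of_dvd_of_natDegree_lt h4 ?_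
    rw [natDegree_X_pow]
    refine (natDegree_sub_le _ _).trans_lt (max_lt ?_ ?_) <;> omega
  rw [sub_eq_zero.1 h7] at h6
  omega

theorem C6_coeff (N d m : ℕ) (hm : m < N) (D : Multiset ℕ) (hN : 0 < N) :
    ((d ::ₘ D).map fun e => (∑ i ∈ Finset.range N, (X ^ e) ^ i : ℂ[X])).prod.coeff (d * m) ≠ 0 := by
  have h1 : ∀ (p q : ℕ[X]) (j : ℕ), p.coeff j ≠ 0 → q.coeff 0 ≠ 0 → (p * q).coeff j ≠ 0 := by
    intro p q j hp hq h
    rw [coeff_mul, Finset.sum_eq_zero_iff] at h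
    exact mul_ne_zero hp hq (h (j, 0) (by simp))
  have h2 : ∀ e i, i < N → (∑ i ∈ Finset.range N, (X ^ e) ^ i : ℕ[X]).coeff (e * i) ≠ 0 := by
    intro e i hi h
    rw [finsetSum_coeff, Finset.sum_eq_zero_iff] at h
    have := h i (Finset.mem_range.2 hi)
    rw [← pow_mul, coeff_X_pow_self] at this
    exact one_ne_zero this
  have h3 : (D.map fun e => (∑ i ∈ Finset.range N, (X ^ e) ^ i : ℕ[X])).prod.coeff 0 ≠ 0 := by
    induction D using Multiset.induction_on with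
    | empty => simp
    | cons e D ih =>
      rw [Multiset.map_cons, Multiset.prod_cons]
      exact h1 _ _ _ (h2 e 0 hN) ih
  have h4 := h1 _ _ _ (h2 d m hm) h3
  rw [← Multiset.prod_cons, ← Multiset.map_cons
    (fun e => (∑ i ∈ Finset.range N, (X ^ e) ^ i : ℕ[X]))] at h4
  have e : ((d ::ₘ D).map fun e => (∑ i ∈ Finset.range N, (X ^ e) ^ i : ℂ[X])).prod =
      ((d ::ₘ D).map fun e => (∑ i ∈ Finset.range N, (X ^ e) ^ i : ℕ[X])).prod.map
        (Nat.castRingHom ℂ) := by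
    rw [Polynomial.map_multiset_prod, Multiset.map_map]
    congr 1
    refine Multiset.map_congr rfl fun e _ => ?_
    simp [Polynomial.map_sum]
  rw [e, coeff_map]
  simpa using h4

theorem C6_three {g : ℕ} {Q : ℂ[X]} (hQ : Q.natDegree = 2 * g) {a b c : ℕ} {D : Multiset ℕ}
    (hD : ∀ d ∈ c ::ₘ D, 0 < d) (ha : a ≤ 10 * g) (hb : b ≤ 10 * g) (hc : c ≤ 10 * g) :
    ¬ (X : ℂ[X]) ^ (32 * g + 1) ∣
      Q * ((a ::ₘ b ::ₘ c ::ₘ D).map fun d => 1 - X ^ d).prod - (1 - X) ^ 2 := by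
  intro h
  have hc0 := hD c (Multiset.mem_cons_self _ _)
  have hu : ∀ n : ℕ, (∑ i ∈ Finset.range n, X ^ i : ℂ[X]).natDegree ≤ n := fun n =>
    natDegree_sum_le_of_forall_le _ _ fun i hi => by
      rw [natDegree_X_pow]
      exact (Finset.mem_range.1 hi).le
  have h1 := C6_coeff (32 * g + 1) c (32 * g / c)
    (Nat.lt_succ_of_le (Nat.div_le_self _ _)) D (Nat.succ_pos _)
  have h2 : (X : ℂ[X]) ^ (32 * g + 1) ∣ ((c ::ₘ D).map fun d => (1 - X ^ d : ℂ[X])).prod *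
      ((c ::ₘ D).map fun e => (∑ i ∈ Finset.range (32 * g + 1), (X ^ e) ^ i : ℂ[X])).prod - 1 := by
    rw [← Multiset.prod_map_mul]
    refine C6_prod _ _ _ fun d hd => ?_
    rw [mul_neg_geom_sum, sub_sub_cancel_left, dvd_neg, ← pow_mul]
    exact pow_dvd_pow _ (Nat.le_mul_of_pos_left _ (hD d hd))
  rw [Multiset.map_cons, Multiset.prod_cons, Multiset.map_cons, Multiset.prod_cons,
    ← mul_neg_geom_sum X a, ← mul_neg_geom_sum X b] at h
  generalize ((c ::ₘ D).map fun d => (1 - X ^ d : ℂ[X])).prod = P at h h2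
  generalize ((c ::ₘ D).map fun e =>
    (∑ i ∈ Finset.range (32 * g + 1), (X ^ e) ^ i : ℂ[X])).prod = R at h1 h2
  have h3 := hu a
  have h4 := hu b
  generalize (∑ i ∈ Finset.range a, X ^ i : ℂ[X]) = u at h h3
  generalize (∑ i ∈ Finset.range b, X ^ i : ℂ[X]) = v at h h4
  have h5 : IsCoprime (X : ℂ[X]) (1 - X) := ⟨1, 1, by ring⟩
  have h6 : (X : ℂ[X]) ^ (32 * g + 1) ∣ Q * u * v * P - 1 := by
    refine (h5.pow (m := 32 * g + 1) (n := 2)).dvd_of_dvd_mul_left ?_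
    have e : (1 - X) ^ 2 * (Q * u * v * P - 1) =
        Q * ((1 - X) * u * ((1 - X) * v * P)) - (1 - X) ^ 2 := by ring
    rwa [e]
  have h7 : (X : ℂ[X]) ^ (32 * g + 1) ∣ Q * u * v - R := by
    have e : Q * u * v - R = (Q * u * v * P - 1) * R - Q * u * v * (P * R - 1) := by ring
    rw [e]
    exact dvd_sub (h6.mul_right _) (h2.mul_left _)
  have h8 := Nat.div_add_mod (32 * g) c
  have h9 := Nat.mod_lt (32 * g) hc0
  have h10 := X_pow_dvd_iff.1 h7 (c * (32 * g / c)) (by omega)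
  have h11 : (Q * u * v).natDegree ≤ Q.natDegree + u.natDegree + v.natDegree :=
    natDegree_mul_le.trans (Nat.add_le_add_right natDegree_mul_le _)
  rw [coeff_sub, coeff_eq_zero_of_natDegree_lt (by omega), zero_sub, neg_eq_zero] at h10
  exact h1 h10

theorem poly_contra (g : ℕ) (hg : 2 ≤ g) (Q : ℂ[X]) (hQ : Q.natDegree = 2 * g) (D : Multiset ℕ)
    (hD : ∀ d ∈ D, 0 < d) :
    ¬ (X : ℂ[X]) ^ (32 * g + 1) ∣ Q * (D.map fun d => 1 - X ^ d).prod - (1 - X) ^ 2 := by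
  intro h
  have H : ∀ L ≤ 10 * g, L < ((D.filter (· ≤ 10 * g)).filter (· ≤ L)).sum + 2 * g := by
    intro L hL
    have e : (D.filter (· ≤ 10 * g)).filter (· ≤ L) = D.filter (· ≤ L) := by
      rw [Multiset.filter_filter]
      exact Multiset.filter_congr fun x _ => by omega
    rw [e]
    exact C6_small hg hQ hD h (by omega)
  have h1 := H (10 * g) le_rfl
  have h2 := H (4 * g) (by omega)
  have h3 := H (2 * g) (by omega)
  have h4 : ∀ d ∈ D.filter (· ≤ 10 * g), d ≤ 10 * g := fun d hd => (Multiset.mem_filter.1 hd).2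
  rw [← Multiset.filter_add_not (· ≤ 10 * g) D] at h hD
  generalize D.filter (· ≤ 10 * g) = S at h hD h1 h2 h3 h4
  generalize D.filter (fun d => ¬ d ≤ 10 * g) = T at h hD
  induction S using Multiset.induction_on with
  | empty => simp at h3
  | cons a S _ =>
    induction S using Multiset.induction_on with
    | empty =>
      simp only [Multiset.filter_cons, Multiset.filter_zero] at h1 h3
      simp only [Multiset.sum_add, apply_ite Multiset.sum, Multiset.sum_singleton,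
        Multiset.sum_zero] at h1 h3
      split_ifs at h1 h3 <;> omega
    | cons b S _ =>
      induction S using Multiset.induction_on with
      | empty =>
        simp only [Multiset.filter_cons, Multiset.filter_zero] at h1 h2 h3
        simp only [Multiset.sum_add, apply_ite Multiset.sum, Multiset.sum_singleton,
          Multiset.sum_zero] at h1 h2 h3
        split_ifs at h1 h2 h3 <;> omega
      | cons c S _ =>
        simp only [Multiset.cons_add] at h hD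
        exact C6_three hQ (fun d hd => hD d (Multiset.mem_cons_of_mem (Multiset.mem_cons_of_mem hd)))
          (h4 a (by simp)) (h4 b (by simp)) (h4 c (by simp)) h

end Pool.Agent.Work.MP_563a32_gt
end

-- merged part: Pool.Agent.Work.MP_563a32_gt.CMain
section
/-! Finite Markov data of genus at least two have a loop of length at most `32 g`. -/

namespace Pool.Agent.Work.MP_563a32_gt
open Finset Polynomial

variable {I Pr X : Type} [Fintype I] [DecidableEq I] [Fintype Pr] [DecidableEq Pr]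
    [Fintype X] [DecidableEq X]

theorem natDegree_prod_one_sub (μ : Multiset ℂ) (h : (0 : ℂ) ∉ μ) :
    (μ.map fun a => (1 - C a * Polynomial.X : ℂ[X])).prod.natDegree = Multiset.card μ := by
  have key : ∀ a : ℂ, a ≠ 0 → (1 - C a * Polynomial.X : ℂ[X]).natDegree = 1 := by
    intro a ha
    have : (1 - C a * Polynomial.X : ℂ[X]) = C (-a) * Polynomial.X + C 1 := by
      simp; ring
    rw [this]
    exact natDegree_linear (neg_ne_zero.mpr ha)
  rw [natDegree_multiset_prod]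
  · rw [Multiset.map_map]
    have : μ.map (natDegree ∘ fun a => (1 - C a * Polynomial.X : ℂ[X])) = μ.map fun _ => 1 := by
      apply Multiset.map_congr rfl
      intro a ha
      exact key a (fun h0 => h (h0 ▸ ha))
    rw [this]; simp
  · intro h0
    obtain ⟨a, ha, h1⟩ := Multiset.mem_map.mp h0
    have := key a (fun h0 => h (h0 ▸ ha))
    rw [h1] at this
    simp at this

theorem FinData.bound (D : FinData I Pr X) (g : ℕ) (hg : 2 ≤ g)
    (hcard : Fintype.card Pr + 4 = 4 * g + 2 * Fintype.card X) :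
    1 ≤ (D.lam ^ (32 * g) - 1) * D.lam ^ (3 * Fintype.card Pr) := by
  by_contra hcon
  have hl := D.one_lt
  have hno : ∀ k, 1 ≤ k → k ≤ 32 * g →
      ∀ i, (D.M ^ k) i i = 0 ∧ (D.M ^ k) (D.T i) i = 0 := by
    intro k hk hK i
    by_contra hne
    have h1 : 1 ≤ (D.M ^ k) i i ∨ 1 ≤ (D.M ^ k) (D.T i) i := by omega
    have h2 := D.growth k hk i h1
    rw [D.card_I] at h2
    apply hcon
    refine h2.trans ?_
    have : D.lam ^ k ≤ D.lam ^ (32 * g) := pow_le_pow_right₀ hl.le hK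
    gcongr
  obtain ⟨μ, hμ, h0, htr⟩ := D.lefschetz (32 * g) hno
  obtain ⟨E, hE, hfix⟩ := orbits D.fX
  refine poly_contra g hg _ ?_ E hE (newton μ E hE (32 * g) ?_)
  · rw [natDegree_prod_one_sub μ h0]; omega
  · intro k hk hK
    rw [← hfix k hk]; exact htr k hk hK

end Pool.Agent.Work.MP_563a32_gt
end

-- merged part: Pool.Agent.Work.MP_563a32_gt.BMain
section
/-! The lower bound for self-similar linear involutions. -/

namespace Pool.Agent.Work.MP_563a32_gt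
namespace LinData

variable {Pr X : Type} [Fintype Pr] [DecidableEq Pr] [Fintype X] [DecidableEq X]
  {D : LinData Pr X}

noncomputable def Ax.fin (A : D.Ax) : FinData D.I Pr X where
  T := A.TI
  w := fun i => D.w i.mid
  h := fun i => i.hi - i.lo
  lam := D.lam
  M := A.M
  σ := D.σ
  fX := D.fX
  first := A.first
  xI := fun i => D.base i.pr
  top := fun i => i.top
  ne_Pr := A.ne_Pr
  ne_X := A.ne_Pr.map D.base
  T_T := A.TI_TI
  T_ne := A.TI_ne
  w_pos := fun i => A.w_pos _ (A.mem_good (A.mem_mid i))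
  h_pos := fun i => sub_pos.mpr (A.lo_lt_hi i)
  w_T := fun i => by
    have hg := A.mem_good (A.mem_mid i)
    exact (A.w_intv (A.T_good _ hg)).trans (A.w_T _ hg)
  one_lt := A.one_lt
  M_symm := A.M_symm
  M_w := A.M_w
  M_h := A.M_h
  card_I := A.card_I
  first_M := A.first_M
  del_equiv := A.del_equiv
  del_ker := A.del_ker
  d_equiv := A.d_equiv
  d_ker := A.d_ker
  d_del := A.d_del
  inj := A.inj

theorem Ax.bound (A : D.Ax) (g : ℕ) (hg : 2 ≤ g)
    (hcard : Fintype.card Pr + 4 = 4 * g + 2 * Fintype.card X) :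
    1 ≤ (D.lam ^ (32 * g) - 1) * D.lam ^ (3 * Fintype.card Pr) :=
  A.fin.bound g hg hcard

end LinData
end Pool.Agent.Work.MP_563a32_gt
end

-- merged part: Pool.Agent.Work.MP_563a32_gt.DMain
section
/-! The lower bound for developing data. -/

namespace Pool.Agent.Work.MP_563a32_gt
namespace DevData

variable {S Pr X : Type} [TopologicalSpace S] [T2Space S] [Fintype Pr] {E : DevData S Pr X}

theorem Ax.lin (A : E.Ax) : E.lin.Ax where
  ne_Pr := A.ne_Pr
  rot_σ := A.rot_σ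
  base_rot := A.base_rot
  base_σ := A.base_σ
  rot_trans := A.rot_trans
  one_lt := A.one_lt
  len_pos := fun q => lt_trans (half_pos A.r_pos) (A.len_spec q).1
  len_σ := A.len_σ
  tip_B := fun q => (A.tip_spec q).1
  tip_ne := fun q => (A.tip_spec q).2.1
  tip_inj := A.tip_inj
  T_good := fun _ h => A.T_good h
  T_T := fun _ h => A.T_T h
  T_ne := fun _ h => A.T_ne h
  w_pos := fun _ h => (A.wd_spec h).1
  w_T := fun _ h => A.w_T h
  T_loc := A.T_loc
  renorm := fun _ h => A.renorm h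
  renorm_tip := A.renorm_tip
  L_zero := fun q => by simp [DevData.lin, lab]
  L_tip := A.L_tip
  L_end := A.L_end
  L_N := A.L_N
  L_φ := A.L_φ
  L_bdry := A.L_bdry
  reach := fun _ hB hb => A.reach hB hb
  conn := A.conn'

theorem Ax.bound [DecidableEq Pr] [Fintype X] [DecidableEq X] (A : E.Ax) (g : ℕ) (hg : 2 ≤ g)
    (hcard : Fintype.card Pr + 4 = 4 * g + 2 * Fintype.card X) :
    1 ≤ (E.lam ^ (32 * g) - 1) * E.lam ^ (3 * Fintype.card Pr) :=
  A.lin.bound g hg hcard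

end DevData
end Pool.Agent.Work.MP_563a32_gt
end
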