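import Pool.Agent.Work.MP_563a32_gt.AMain

-- merged part: Pool.Agent.Work.MP_563a32_gt.Y0
section
/-! The conditions on a weighted veering triangulation, with two coprime periods. -/

namespace Pool.Agent.Work.MP_563a32_gt
namespace Veer
variable {U Cu : Type} (V : Veer U Cu)

structure Bx : Prop where
  w_pos : ∀ F, 1 ≤ V.w F
  col_up : ∀ F, V.red F.1 = V.cb (V.up F).1
  ed_zero : ∀ F, V.ed F 0 = F.1
  sd_zero : ∀ F, V.sd F 0 = F.2
  o_zero : ∀ F, V.o F 0 = 0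
  col_one : ∀ F, V.red (V.ed F 1) = true
  col_two : ∀ F, V.red (V.ed F 2) = false
  last : ∀ F k, k + V.sh F = 0 →
    V.bt (V.ed F k) = (V.up F).1 ∧ V.o F k + V.w F = V.off (V.ed F k)
  step : ∀ F k, k + V.sh F ≠ 0 → V.ed (V.nx F k).1 (V.nx F k).2 = V.ed F k ∧
    V.sd (V.nx F k).1 (V.nx F k).2 = V.sd F k ∧ V.o (V.nx F k).1 (V.nx F k).2 = V.o F k + V.w F
  o_le : ∀ F k, V.o F k + V.w F ≤ V.off (V.ed F k)
  ft_irr : ∀ u u', Relation.ReflTransGen (fun a b => ∃ j, V.ft a j = b) u u'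
  rt_irr : ∀ u u', Relation.ReflTransGen (fun a b => ∃ j, V.rt a j = b) u u'
  m_pos : 1 ≤ V.m
  mc_pos : ∀ c, 1 ≤ V.mc c
  mc_cop : ∃ c c', Nat.Coprime (V.mc c) (V.mc c')
  cusp_root : ∀ c, V.cusp (V.root c).1 (V.root c).2 = c
  cusp_lnk : ∀ F k, V.cusp (V.lo F k).1 (V.lo F k).2 = V.cusp (V.hi F k).1 (V.hi F k).2
  disc_dvd : ∀ F k, (V.per (V.cusp (V.lo F k).1 (V.lo F k).2) : ℤ) ∣ V.disc F k
  tree : ∀ p : U × Fin 4, Relation.EqvGen V.Lnk p (V.root (V.cusp p.1 p.2))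
  gen : ∀ c, (V.per c : ℤ) ∈ AddSubgroup.closure
    {z | ∃ F k, V.cusp (V.lo F k).1 (V.lo F k).2 = c ∧ z = V.disc F k}
  pot0_dvd : ∀ F, (V.m : ℤ) ∣ V.pot0 F.1 - V.pot0 (V.up F).1 - V.w F
  tree0 : ∀ u, Relation.EqvGen V.Lnk0 u V.u0

end Veer
end Pool.Agent.Work.MP_563a32_gt
end

-- merged part: Pool.Agent.Work.MP_563a32_gt.Y2
section
/-! Heights and widths exist.

Plan. Every dart `(F, 1)` or `(F, 2)` is `nx` of a dart (`pred`), so `o F 1, o F 2 ≥ 1`; also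
`off ≥ 1`. Heights: `cw` for `ft`, `fe` gives `x`, `H`. Let `h F k = H (ed F k) / x ^ o F k` and
`δ F = H F.1 - h F 1 - h F 2`. For `up F = (u, s)`, `last` and `step` express `h F k / x ^ w F` as
`H (bt⁻¹ u) / x ^ off (bt⁻¹ u)`, `h (u, !s) 2` or `h (u, s) 1` according to `k + sh F = 0, 1, 2`.
With the flow equation of `u` and `col_up` this gives `δ (u, s) = - δ F / x ^ w F` if `F.1` is red
and `δ (u, !s) = - δ F / x ^ w F` otherwise; so `max |δ| ≤ max |δ| / x` and `δ = 0`. Widths: `cw`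
for `rt` with exponents `off u` and `off (ed F k) - o F k ≥ 1` gives `y`, `ω`; put
`W τ = ω (bt τ) / y ^ off τ`, `v F k = W (ed F k) * y ^ o F k`, and `ρ F = v F 1 - W F.1 - v F 2`
(red) or `v F 2 - W F.1 - v F 1` (blue). Then `y ^ w F * ρ F = ω u - v (u, !s) 2 - v (u, s) 1`,
which is `- ρ (u, s)` if `u` is red and `- ρ (u, !s)` otherwise; so `ρ = 0`. Equal scales: put
`a F = h F 1 * v F 2 + h F 2 * v F 1 > 0` (twice the area of the top face). From the relations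
above, `a F * (y / x) ^ w F` is twice the area of the bottom face `up F`, and for every `u` the two
top areas and the two bottom areas have the same sum (a polynomial identity given `δ = ρ = 0`).
Summing over `u`, `∑ a F = ∑ a F * (y / x) ^ w F`, so `y = x`. -/

namespace Pool.Agent.Work.MP_563a32_gt
namespace Veer
open Finset

variable {U Cu : Type} {V : Veer U Cu}

theorem Y2_zero {α : Type} [Finite α] {d : α → ℝ} (h : ∀ p, ∃ q c, 1 < c ∧ d p * c = -d q)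
    (p : α) : d p = 0 := by
  have : Nonempty α := ⟨p⟩
  obtain ⟨m, hm⟩ := Finite.exists_max fun p => |d p|
  obtain ⟨q, c, hc, e⟩ := h m
  have h1 : |d m| * c ≤ |d m| := by
    rw [← abs_of_pos (zero_lt_one.trans hc), ← abs_mul, e, abs_neg]
    exact hm q
  have h2 : |d m| ≤ 0 := by nlinarith [abs_nonneg (d m)]
  exact abs_nonpos_iff.1 ((hm p).trans h2)

theorem Y2_scale {α : Type} [Fintype α] [Nonempty α] {a : α → ℝ} {w : α → ℕ} {r : ℝ}
    (ha : ∀ p, 0 < a p) (hw : ∀ p, 1 ≤ w p) (hr : 0 < r) (h : ∑ p, a p * r ^ w p = ∑ p, a p) :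
    r = 1 := by
  rcases lt_trichotomy r 1 with h1 | h1 | h1
  · refine absurd h (sum_lt_sum_of_nonempty univ_nonempty fun p _ => ?_).ne
    exact mul_lt_of_lt_one_right (ha p) (pow_lt_one₀ hr.le h1 (Nat.one_le_iff_ne_zero.1 (hw p)))
  · exact h1
  · refine absurd h (sum_lt_sum_of_nonempty univ_nonempty fun p _ => ?_).ne'
    exact lt_mul_of_one_lt_right (ha p) (one_lt_pow₀ h1 (Nat.one_le_iff_ne_zero.1 (hw p)))

/-- The height of the bottom diagonal. -/
noncomputable def Y2_hb (G : V.Geo) (u : U) : ℝ := G.H (V.bt⁻¹ u) / G.x ^ V.off (V.bt⁻¹ u)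

/-- The width of the bottom diagonal. -/
noncomputable def Y2_wb (G : V.Geo) (u : U) : ℝ := G.W (V.bt⁻¹ u) * G.x ^ V.off (V.bt⁻¹ u)

theorem Y2_step (A : V.Bx) (G : V.Geo) (hx : 0 < G.x) (F : U × Bool) (k : Fin 3)
    (hk : k + V.sh F ≠ 0) :
    G.hh (V.nx F k).1 (V.nx F k).2 * G.x ^ V.w F = G.hh F k ∧
      G.ww (V.nx F k).1 (V.nx F k).2 = G.ww F k * G.x ^ V.w F := by
  obtain ⟨h1, -, h2⟩ := A.step F k hk
  simp only [Geo.hh, Geo.ww, h1, h2, pow_add]
  constructor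
  · field_simp
  · ring

theorem Y2_last (A : V.Bx) (G : V.Geo) (hx : 0 < G.x) (F : U × Bool) (k : Fin 3)
    (hk : k + V.sh F = 0) :
    Y2_hb G (V.up F).1 * G.x ^ V.w F = G.hh F k ∧ Y2_wb G (V.up F).1 = G.ww F k * G.x ^ V.w F := by
  obtain ⟨h1, h2⟩ := A.last F k hk
  simp only [Y2_hb, Y2_wb, Geo.hh, Geo.ww, ← h1, Equiv.Perm.coe_inv, Equiv.symm_apply_apply,
    ← h2, pow_add]
  constructor
  · field_simp
  · ring

theorem Y2_red (A : V.Bx) (G : V.Geo) (hx : 0 < G.x) (F : U × Bool) (h : V.red F.1 = true) :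
    (G.hh (V.up F) 1 * G.x ^ V.w F = G.H F.1 ∧ Y2_hb G (V.up F).1 * G.x ^ V.w F = G.hh F 1 ∧
      G.hh ((V.up F).1, !(V.up F).2) 2 * G.x ^ V.w F = G.hh F 2) ∧
    G.ww (V.up F) 1 = G.W F.1 * G.x ^ V.w F ∧ Y2_wb G (V.up F).1 = G.ww F 1 * G.x ^ V.w F ∧
      G.ww ((V.up F).1, !(V.up F).2) 2 = G.ww F 2 * G.x ^ V.w F := by
  have hs : V.sh F = 2 := by simp [sh, h]
  have h0 := Y2_step A G hx F 0 (by rw [hs]; decide)
  have h1 := Y2_last A G hx F 1 (by rw [hs]; decide)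
  have h2 := Y2_step A G hx F 2 (by rw [hs]; decide)
  rw [nx, hs, if_neg (by decide)] at h0
  rw [nx, hs, if_pos (by decide)] at h2
  simp only [Geo.hh, Geo.ww, A.ed_zero, A.o_zero, pow_zero, div_one, mul_one] at h0
  exact ⟨⟨h0.1, h1.1, h2.1⟩, h0.2, h1.2, h2.2⟩

theorem Y2_blue (A : V.Bx) (G : V.Geo) (hx : 0 < G.x) (F : U × Bool) (h : V.red F.1 = false) :
    (G.hh ((V.up F).1, !(V.up F).2) 2 * G.x ^ V.w F = G.H F.1 ∧
      G.hh (V.up F) 1 * G.x ^ V.w F = G.hh F 1 ∧ Y2_hb G (V.up F).1 * G.x ^ V.w F = G.hh F 2) ∧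
    G.ww ((V.up F).1, !(V.up F).2) 2 = G.W F.1 * G.x ^ V.w F ∧
      G.ww (V.up F) 1 = G.ww F 1 * G.x ^ V.w F ∧ Y2_wb G (V.up F).1 = G.ww F 2 * G.x ^ V.w F := by
  have hs : V.sh F = 1 := by simp [sh, h]
  have h0 := Y2_step A G hx F 0 (by rw [hs]; decide)
  have h1 := Y2_step A G hx F 1 (by rw [hs]; decide)
  have h2 := Y2_last A G hx F 2 (by rw [hs]; decide)
  rw [nx, hs, if_pos (by decide)] at h0
  rw [nx, hs, if_neg (by decide)] at h1
  simp only [Geo.hh, Geo.ww, A.ed_zero, A.o_zero, pow_zero, div_one, mul_one] at h0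
  exact ⟨⟨h0.1, h1.1, h2.1⟩, h0.2, h1.2, h2.2⟩

theorem Y2_pair (f : U × Bool → ℝ) (F : U × Bool) :
    f (F.1, false) + f (F.1, true) = f F + f (F.1, !F.2) := by
  obtain ⟨u, s⟩ := F
  cases s
  · rfl
  · exact add_comm _ _

theorem Y2_eqH [Finite U] (A : V.Bx) (G : V.Geo) (hx : 1 < G.x)
    (hH : ∀ u, G.H u = Y2_hb G u + (G.hh (u, false) (if V.cb u then 2 else 1) +
      G.hh (u, true) (if V.cb u then 2 else 1))) (F : U × Bool) :
    G.H F.1 = G.hh F 1 + G.hh F 2 := by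
  refine sub_eq_zero.1 (Y2_zero (d := fun F => G.H F.1 - (G.hh F 1 + G.hh F 2)) (fun p => ?_) F)
  have hw := fun F => one_lt_pow₀ hx (Nat.one_le_iff_ne_zero.1 (A.w_pos F))
  have h1 := hH p.1
  rw [Y2_pair (fun F => G.hh F (if V.cb p.1 then 2 else 1)) p] at h1
  cases hc : V.cb p.1
  · obtain ⟨q, hq⟩ := V.up.surjective (p.1, !p.2)
    obtain ⟨⟨e0, e1, e2⟩, -⟩ := Y2_blue A G (zero_lt_one.trans hx) q (by rw [A.col_up, hq, hc])
    simp only [hq, Bool.not_not, Prod.mk.eta] at e0 e1 e2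
    simp only [hc, Bool.false_eq_true, if_false] at h1
    refine ⟨q, _, hw q, ?_⟩
    rw [← e0, ← e1, ← e2, h1]
    ring
  · obtain ⟨q, hq⟩ := V.up.surjective p
    obtain ⟨⟨e0, e1, e2⟩, -⟩ := Y2_red A G (zero_lt_one.trans hx) q (by rw [A.col_up, hq, hc])
    simp only [hq] at e0 e1 e2
    simp only [hc, if_true] at h1
    refine ⟨q, _, hw q, ?_⟩
    rw [← e0, ← e1, ← e2, h1]
    ring

theorem Y2_eqW [Finite U] (A : V.Bx) (G : V.Geo) (hx : 1 < G.x)
    (hW : ∀ u, Y2_wb G u = G.W u + (G.ww (u, false) (if V.red u then 2 else 1) +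
      G.ww (u, true) (if V.red u then 2 else 1))) (F : U × Bool) :
    if V.red F.1 then G.ww F 1 = G.W F.1 + G.ww F 2 else G.ww F 2 = G.W F.1 + G.ww F 1 := by
  have h := Y2_zero (d := fun F : U × Bool => if V.red F.1 then G.ww F 1 - (G.W F.1 + G.ww F 2)
    else G.ww F 2 - (G.W F.1 + G.ww F 1)) (fun p => ?_) F
  · split_ifs at h ⊢ <;> exact sub_eq_zero.1 h
  have hw := one_lt_pow₀ hx (Nat.one_le_iff_ne_zero.1 (A.w_pos p))
  have h1 := hW (V.up p).1
  rw [Y2_pair (fun F => G.ww F (if V.red (V.up p).1 then 2 else 1)) (V.up p)] at h1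
  have h2 : (if V.red p.1 then G.ww p 1 - (G.W p.1 + G.ww p 2)
      else G.ww p 2 - (G.W p.1 + G.ww p 1)) * G.x ^ V.w p =
      Y2_wb G (V.up p).1 - G.ww (V.up p) 1 - G.ww ((V.up p).1, !(V.up p).2) 2 := by
    cases hc : V.red p.1
    · obtain ⟨-, e0, e1, e2⟩ := Y2_blue A G (zero_lt_one.trans hx) p hc
      rw [e0, e1, e2, if_neg Bool.false_ne_true]
      ring
    · obtain ⟨-, e0, e1, e2⟩ := Y2_red A G (zero_lt_one.trans hx) p hc
      rw [e0, e1, e2, if_pos rfl]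
      ring
  cases hc : V.red (V.up p).1
  · refine ⟨((V.up p).1, !(V.up p).2), _, hw, h2.trans ?_⟩
    simp only [hc, Bool.false_eq_true, if_false] at h1 ⊢
    rw [h1]
    ring
  · refine ⟨V.up p, _, hw, h2.trans ?_⟩
    simp only [hc, if_true] at h1 ⊢
    rw [h1]
    ring

theorem Y2_same [Fintype U] (A : V.Bx) (G G' : V.Geo) (hx : 1 < G.x) (hx' : 1 < G'.x)
    (pH : ∀ u, 0 < G.H u) (pW : ∀ u, 0 < G'.W u)
    (hH : ∀ u, G.H u = Y2_hb G u + (G.hh (u, false) (if V.cb u then 2 else 1) +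
      G.hh (u, true) (if V.cb u then 2 else 1)))
    (hW : ∀ u, Y2_wb G' u = G'.W u + (G'.ww (u, false) (if V.red u then 2 else 1) +
      G'.ww (u, true) (if V.red u then 2 else 1))) : G'.x = G.x := by
  have : Nonempty U := ⟨V.u0⟩
  have h0 := zero_lt_one.trans hx
  have h0' := zero_lt_one.trans hx'
  have ph : ∀ F k, 0 < G.hh F k := fun F k => div_pos (pH _) (pow_pos h0 _)
  have pw : ∀ F k, 0 < G'.ww F k := fun F k => mul_pos (pW _) (pow_pos h0' _)
  rw [← div_eq_one_iff_eq h0.ne']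
  refine Y2_scale (a := fun F => G.hh F 1 * G'.ww F 2 + G.hh F 2 * G'.ww F 1)
    (fun F => add_pos (mul_pos (ph _ _) (pw _ _)) (mul_pos (ph _ _) (pw _ _))) A.w_pos
    (div_pos h0' h0) ?_
  let b : U × Bool → ℝ := fun F =>
    if V.cb F.1 then Y2_hb G F.1 * G'.ww (F.1, !F.2) 2 + G.hh (F.1, !F.2) 2 * Y2_wb G' F.1
    else G.hh F 1 * Y2_wb G' F.1 + Y2_hb G F.1 * G'.ww F 1
  have h1 : ∀ F, (G.hh F 1 * G'.ww F 2 + G.hh F 2 * G'.ww F 1) * (G'.x / G.x) ^ V.w F =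
      b (V.up F) := by
    intro F
    have h2 := (pow_pos h0 (V.w F)).ne'
    simp only [b, ← A.col_up]
    cases hc : V.red F.1
    · obtain ⟨⟨-, e1, e2⟩, -⟩ := Y2_blue A G h0 F hc
      obtain ⟨-, -, f1, f2⟩ := Y2_blue A G' h0' F hc
      rw [if_neg Bool.false_ne_true, f1, f2, ← e1, ← e2, div_pow]
      field_simp
    · obtain ⟨⟨-, e1, e2⟩, -⟩ := Y2_red A G h0 F hc
      obtain ⟨-, -, f1, f2⟩ := Y2_red A G' h0' F hc
      rw [if_pos rfl, f1, f2, ← e1, ← e2, div_pow]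
      field_simp
  rw [sum_congr rfl fun F _ => h1 F, Equiv.sum_comp V.up b, Fintype.sum_prod_type,
    Fintype.sum_prod_type]
  refine sum_congr rfl fun u _ => ?_
  have e0 := hH u
  have e1 := Y2_eqH A G hx hH (u, false)
  have e2 := Y2_eqH A G hx hH (u, true)
  have f0 := hW u
  have f1 := Y2_eqW A G' hx' hW (u, false)
  have f2 := Y2_eqW A G' hx' hW (u, true)
  have e3 : Y2_hb G u = G.H u - (G.hh (u, false) (if V.cb u then 2 else 1) +
      G.hh (u, true) (if V.cb u then 2 else 1)) := eq_sub_of_add_eq e0.symm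
  have e4 : G.hh (u, false) 1 = G.H u - G.hh (u, false) 2 := eq_sub_of_add_eq e1.symm
  have e5 : G.hh (u, true) 1 = G.H u - G.hh (u, true) 2 := eq_sub_of_add_eq e2.symm
  simp only [Fintype.sum_bool, b, Bool.not_true, Bool.not_false, f0, e3]
  cases hc : V.cb u <;> cases hr : V.red u <;>
    simp only [hr, Bool.false_eq_true, if_false, if_true] at f1 f2 ⊢ <;>
    rw [f1, f2, e4, e5] <;> ring

theorem Bx.pred (A : V.Bx) (F : U × Bool) (k : Fin 3) (hk : k ≠ 0) :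
    ∃ F' k', k' + V.sh F' ≠ 0 ∧ V.nx F' k' = (F, k) := by
    have h : ∀ k : Fin 3, k ≠ 0 → k = 1 ∨ k = 2 := by decide
    rcases h k hk with rfl | rfl
    · refine ⟨V.up⁻¹ F, 2 - V.sh (V.up⁻¹ F), by rw [sub_add_cancel]; decide, ?_⟩
      rw [nx, sub_add_cancel, if_neg (by decide)]
      simp
    · refine ⟨V.up⁻¹ (F.1, !F.2), 1 - V.sh (V.up⁻¹ (F.1, !F.2)), by rw [sub_add_cancel]; decide, ?_⟩
      rw [nx, sub_add_cancel, if_pos rfl]
      simp

theorem Bx.exists_geo [Fintype U] [DecidableEq U] (A : V.Bx) :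
    ∃ G : V.Geo, G.Ok ∧ ∀ u, G.H u = ∑ j, G.H (V.ft u j) / G.x ^ V.fe u j := by
    have : Nonempty U := ⟨V.u0⟩
    have ho : ∀ F (c : Bool), 1 ≤ V.o F (if c then 2 else 1) := by
      intro F c
      obtain ⟨F', k', h1, h2⟩ := A.pred F (if c then 2 else 1) (by cases c <;> decide)
      have h3 := (A.step F' k' h1).2.2
      rw [h2] at h3
      have h4 := A.w_pos F'
      simp only at h3
      omega
    have hoff : ∀ u, 1 ≤ V.off u := by
      intro u
      have h1 := A.o_le (u, false) 0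
      have h2 := A.w_pos (u, false)
      rw [A.ed_zero] at h1
      simp only at h1
      omega
    have hle : ∀ F k, V.o F k + 1 ≤ V.off (V.ed F k) := fun F k =>
      (Nat.add_le_add_left (A.w_pos F) _).trans (A.o_le F k)
    obtain ⟨x, H, hx, pH, hH⟩ := cw V.ft V.fe (fun u j => by
      fin_cases j
      exacts [hoff _, ho _ _, ho _ _]) A.ft_irr
    obtain ⟨y, ω, hy, pω, hω⟩ := cw V.rt (fun u => ![V.off u,
      V.off (V.ed (u, false) (if V.red u then 2 else 1)) - V.o (u, false) (if V.red u then 2 else 1),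
      V.off (V.ed (u, true) (if V.red u then 2 else 1)) - V.o (u, true) (if V.red u then 2 else 1)])
      (fun u j => by
        fin_cases j
        exacts [hoff _, Nat.le_sub_of_add_le' (hle _ _), Nat.le_sub_of_add_le' (hle _ _)]) A.rt_irr
    have y0 := zero_lt_one.trans hy
    let W : U → ℝ := fun u => ω (V.bt u) / y ^ V.off u
    have pW : ∀ u, 0 < W u := fun u => div_pos (pω _) (pow_pos y0 _)
    have h1 : ∀ u, H u = Y2_hb (V := V) ⟨x, H, W⟩ u +
        (Geo.hh (V := V) ⟨x, H, W⟩ (u, false) (if V.cb u then 2 else 1) +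
          Geo.hh (V := V) ⟨x, H, W⟩ (u, true) (if V.cb u then 2 else 1)) := by
      intro u
      rw [hH u, Fin.sum_univ_three, add_assoc]
      rfl
    have h2 : ∀ F k, Geo.ww (V := V) ⟨y, H, W⟩ F k =
        ω (V.bt (V.ed F k)) / y ^ (V.off (V.ed F k) - V.o F k) := by
      intro F k
      rw [pow_sub₀ _ y0.ne' (Nat.le_of_succ_le (hle F k))]
      simp only [Geo.ww, W]
      field_simp
    have h3 : ∀ u, Y2_wb (V := V) ⟨y, H, W⟩ u = W u +
        (Geo.ww (V := V) ⟨y, H, W⟩ (u, false) (if V.red u then 2 else 1) +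
          Geo.ww (V := V) ⟨y, H, W⟩ (u, true) (if V.red u then 2 else 1)) := by
      intro u
      have h4 : Y2_wb (V := V) ⟨y, H, W⟩ u = ω u := by
        simp only [Y2_wb, W, Equiv.Perm.coe_inv, Equiv.apply_symm_apply]
        exact div_mul_cancel₀ _ (pow_pos y0 _).ne'
      rw [h4, hω u, Fin.sum_univ_three, add_assoc, h2, h2]
      rfl
    have h4 : y = x := Y2_same A ⟨x, H, W⟩ ⟨y, H, W⟩ hx hy pH pW h1 h3
    subst h4
    exact ⟨⟨y, H, W⟩, ⟨hx, pH, pW, Y2_eqH A _ hx h1, Y2_eqW A _ hx h3⟩, hH⟩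

end Veer
end Pool.Agent.Work.MP_563a32_gt
end

-- merged part: Pool.Agent.Work.MP_563a32_gt.Y3
section
/-! The flat triangulation of the section.

Plan. `tile_ex`: induction on `r`, starting at `((τ, s), 0)` and moving to `nx` when
`r + 1 = o + w` (possible as `r + 1 < off`, by `last`). `tile_uniq`: `nx` is injective on the darts
with `k + sh F ≠ 0`; by strong induction on `o F k + o F' k'` and `pred`, two darts with the same
`ed`, `sd` and with `o F k ≤ o F' k' < o F k + w F` are equal (if `k' ≠ 0` its predecessor ends at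
`o F' k'`; compare it with `(F, k)` or with the predecessor of `(F, k)`; a convenient route is to
show that every dart is an iterate of `nx` from `((ed, sd), 0)`). `side_vec`: three cases, with
`eqH`, `eqW`, `col_one`, `col_two`. `area_top`: `H > hh`, and `ww F 1 > W` in the red case.
`bot_vertex`: compare the vectors of the two sides with `k + sh F ≠ 0` through `step` and
`side_vec` for `F` and for `nx F k`; the third vertex follows. `exists_sec`: `opp` by `tile_ex`,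
involutive by `tile_uniq`; both darts carry `± diag (x ^ (o + n + 1))⁻¹ (dg (ed))`; two sides of one
triangle are not parallel, so `opp d` lies in another triangle. -/

namespace Pool.Agent.Work.MP_563a32_gt
namespace Veer
open Finset

variable {U Cu : Type} {V : Veer U Cu}

theorem Y3_o_pos (A : V.Bx) (F : U × Bool) {k : Fin 3} (hk : k ≠ 0) : 1 ≤ V.o F k := by
  obtain ⟨F', k', h1, h2⟩ := A.pred F k hk
  have h3 := (A.step F' k' h1).2.2
  rw [h2] at h3
  have := A.w_pos F'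
  dsimp only at h3
  omega

theorem Y3_uniq (A : V.Bx) (N : ℕ) : ∀ (F : U × Bool) (k : Fin 3) (F' : U × Bool) (k' : Fin 3)
    (r : ℕ), V.o F k + V.o F' k' = N → V.ed F k = V.ed F' k' → V.sd F k = V.sd F' k' →
    V.o F k ≤ r → r < V.o F k + V.w F → V.o F' k' ≤ r → r < V.o F' k' + V.w F' →
    (F, k) = (F', k') := by
  induction N using Nat.strong_induction_on with
  | _ N ih =>
    intro F k F' k' r hN he hs h1 h2 h3 h4
    wlog hle : V.o F k ≤ V.o F' k' generalizing F k F' k'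
    · exact (this F' k' F k (by omega) he.symm hs.symm h3 h4 h1 h2 (by omega)).symm
    by_cases hk' : k' = 0
    · subst hk'
      have h5 := A.o_zero F'
      have hk : k = 0 := by
        by_contra hk
        have := Y3_o_pos A F hk
        omega
      subst hk
      rw [A.ed_zero, A.ed_zero] at he
      rw [A.sd_zero, A.sd_zero] at hs
      rw [Prod.ext he hs]
    · obtain ⟨F2, k2, a2, e2⟩ := A.pred F' k' hk'
      have s2 := A.step F2 k2 a2
      rw [e2] at s2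
      dsimp only at s2
      have w2 := A.w_pos F2
      by_cases heq : V.o F k = V.o F' k'
      · have hk : k ≠ 0 := by
          rintro rfl
          have := A.o_zero F
          omega
        obtain ⟨F1, k1, a1, e1⟩ := A.pred F k hk
        have s1 := A.step F1 k1 a1
        rw [e1] at s1
        dsimp only at s1
        have w1 := A.w_pos F1
        have := ih (V.o F1 k1 + V.o F2 k2) (by omega) F1 k1 F2 k2 (V.o F' k' - 1) rfl
          (s1.1.symm.trans (he.trans s2.1)) (s1.2.1.symm.trans (hs.trans s2.2.1)) (by omega)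
          (by omega) (by omega) (by omega)
        cases this
        exact e1.symm.trans e2
      · have := ih (V.o F k + V.o F2 k2) (by omega) F k F2 k2 (V.o F' k' - 1) rfl
          (he.trans s2.1) (hs.trans s2.2.1) (by omega) (by omega) (by omega) (by omega)
        cases this
        omega

theorem Y3_add (μ : ℝ) (a b : ℂ) : diag μ (a + b) = diag μ a + diag μ b := by
  apply Complex.ext <;> simp [diag] <;> ring

theorem Y3_sub (μ : ℝ) (a b : ℂ) : diag μ (a - b) = diag μ a - diag μ b := by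
  apply Complex.ext <;> simp [diag] <;> ring

theorem Y3_zero (μ : ℝ) : diag μ 0 = 0 := by
  apply Complex.ext <;> simp [diag]

theorem Y3_sgn (μ : ℝ) (c : Prop) [Decidable c] (a : ℂ) :
    diag μ ((if c then -1 else 1) * a) = (if c then -1 else 1) * diag μ a := by
  split_ifs
  · apply Complex.ext <;> simp [diag]
    ring
  · simp

theorem Y3_pow (x : ℝ) (m n : ℕ) (a : ℂ) :
    diag (x ^ m)⁻¹ (diag (x ^ n)⁻¹ a) = diag (x ^ (n + m))⁻¹ a := by
  apply Complex.ext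
  · simp only [diag, div_inv_eq_mul, pow_add, mul_assoc]
  · simp [diag, pow_add, mul_assoc]

/-- the upward vector of the side `k` of the face `F` -/
noncomputable def Y3_E (G : V.Geo) (F : U × Bool) (k : Fin 3) : ℂ :=
  diag (G.x ^ V.o F k)⁻¹ (G.dg (V.ed F k))

theorem Y3_E0 (A : V.Bx) (G : V.Geo) (F : U × Bool) : Y3_E G F 0 = G.dg F.1 := by
  rw [Y3_E, A.o_zero, A.ed_zero]
  apply Complex.ext <;> simp [diag]

theorem Y3_E1 (A : V.Bx) (G : V.Geo) (F : U × Bool) : Y3_E G F 1 = ⟨G.ww F 1, G.hh F 1⟩ := by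
  apply Complex.ext <;> simp [Y3_E, diag, Geo.dg, A.col_one, Geo.ww, Geo.hh]
  ring

theorem Y3_E2 (A : V.Bx) (G : V.Geo) (F : U × Bool) : Y3_E G F 2 = ⟨-G.ww F 2, G.hh F 2⟩ := by
  apply Complex.ext <;> simp [Y3_E, diag, Geo.dg, A.col_two, Geo.ww, Geo.hh]
  ring

theorem Y3_dg (A : V.Bx) {G : V.Geo} (hG : G.Ok) (F : U × Bool) :
    G.dg F.1 = Y3_E G F 1 + Y3_E G F 2 := by
  rw [Y3_E1 A, Y3_E2 A]
  have h1 := hG.eqH F
  have h2 := hG.eqW F
  apply Complex.ext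
  · simp only [Geo.dg, Complex.add_re]
    split_ifs at h2 ⊢ <;> linarith
  · simpa [Geo.dg] using h1

theorem Y3_top (A : V.Bx) {G : V.Geo} (hG : G.Ok) (F : U × Bool) (k : Fin 3) :
    G.Q F.1 (topV F.2 k) = (if F.2 then ![Y3_E G F 1 + Y3_E G F 2, 0, Y3_E G F 1]
      else ![0, Y3_E G F 1 + Y3_E G F 2, Y3_E G F 2]) k := by
  have h1 := Y3_dg A hG F
  have h2 := Y3_E1 A G F
  obtain ⟨u, s⟩ := F
  dsimp only at h1
  cases s <;> fin_cases k <;> simp [topV, Geo.Q, ← h2, h1]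

theorem Y3_bot (A : V.Bx) {G : V.Geo} (hG : G.Ok) (F : U × Bool) (k : Fin 3) :
    G.Q F.1 (botV F.2 k) = (if F.2 then ![Y3_E G F 1, Y3_E G (F.1, !F.2) 2, 0]
      else ![G.dg F.1 - Y3_E G F 1, G.dg F.1 - Y3_E G (F.1, !F.2) 2, G.dg F.1]) k := by
  obtain ⟨u, s⟩ := F
  have h1 := Y3_dg A hG (u, false)
  have h2 := Y3_dg A hG (u, true)
  have h3 := Y3_E1 A G (u, false)
  have h4 := Y3_E1 A G (u, true)
  cases s <;> fin_cases k <;> simp [botV, Geo.Q, ← h3, ← h4]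
  · exact eq_sub_iff_add_eq.2 h2.symm
  · exact sub_eq_iff_eq_add'.2 h1

theorem Y3_nx (A : V.Bx) (G : V.Geo) {F : U × Bool} {k : Fin 3} (h : k + V.sh F ≠ 0) :
    Y3_E G (V.nx F k).1 (V.nx F k).2 = diag (G.x ^ V.w F)⁻¹ (Y3_E G F k) := by
  obtain ⟨h1, -, h2⟩ := A.step F k h
  rw [Y3_E, Y3_E, h1, h2, Y3_pow]

theorem Y3_hh {G : V.Geo} (hG : G.Ok) (F : U × Bool) (k : Fin 3) : 0 < G.hh F k :=
  div_pos (hG.H_pos _) (pow_pos (zero_lt_one.trans hG.one_lt) _)

theorem Y3_ww {G : V.Geo} (hG : G.Ok) (F : U × Bool) (k : Fin 3) : 0 < G.ww F k :=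
  mul_pos (hG.W_pos _) (pow_pos (zero_lt_one.trans hG.one_lt) _)

theorem Bx.tile_ex (A : V.Bx) (τ : U) (s : Bool) {r : ℕ} (hr : r < V.off τ) :
    ∃ F k, V.ed F k = τ ∧ V.sd F k = s ∧ V.o F k ≤ r ∧ r < V.o F k + V.w F := by
  induction r with
  | zero =>
    refine ⟨(τ, s), 0, A.ed_zero _, A.sd_zero _, (A.o_zero _).le, ?_⟩
    have := A.w_pos (τ, s)
    omega
  | succ r ih =>
    obtain ⟨F, k, h1, h2, h3, h4⟩ := ih (by omega)
    by_cases h : r + 1 < V.o F k + V.w F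
    · exact ⟨F, k, h1, h2, by omega, h⟩
    · have h5 : k + V.sh F ≠ 0 := fun e => by
        have := (A.last F k e).2
        rw [h1] at this
        omega
      obtain ⟨a1, a2, a3⟩ := A.step F k h5
      have := A.w_pos (V.nx F k).1
      exact ⟨_, _, a1.trans h1, a2.trans h2, by omega, by omega⟩

theorem Bx.tile_uniq (A : V.Bx) {F F' : U × Bool} {k k' : Fin 3} {n n' : ℕ}
    (he : V.ed F k = V.ed F' k') (hs : V.sd F k = V.sd F' k') (hn : n < V.w F)
    (hn' : n' < V.w F') (h : V.o F k + n = V.o F' k' + n') : F = F' ∧ k = k' := by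
  exact Prod.mk.inj (Y3_uniq A _ F k F' k' (V.o F k + n) rfl he hs (by omega) (by omega) (by omega)
    (by omega))

theorem Bx.side_vec (A : V.Bx) {G : V.Geo} (hG : G.Ok) (F : U × Bool) (k : Fin 3) :
    G.Q F.1 (topV F.2 (k + 1)) - G.Q F.1 (topV F.2 k) =
      (if (F.2 == decide (k = 0)) then -1 else 1) * diag (G.x ^ V.o F k)⁻¹ (G.dg (V.ed F k)) := by
  rw [Y3_top A hG, Y3_top A hG]
  change _ = _ * Y3_E G F k
  have h0 := (Y3_E0 A G F).trans (Y3_dg A hG F)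
  obtain ⟨u, s⟩ := F
  cases s <;> fin_cases k <;> simp [h0]

theorem Bx.area_top (A : V.Bx) {G : V.Geo} (hG : G.Ok) (F : U × Bool) :
    0 < area fun k => G.Q F.1 (topV F.2 k) := by
  have h1 := Y3_hh hG F 1
  have h2 := Y3_hh hG F 2
  have h3 := Y3_ww hG F 1
  have h4 := Y3_ww hG F 2
  simp only [area, Y3_top A hG, Y3_E1 A, Y3_E2 A]
  obtain ⟨u, s⟩ := F
  cases s <;> simp [cross] <;> nlinarith [mul_pos h1 h4, mul_pos h2 h3]

theorem Bx.bot_vertex (A : V.Bx) {G : V.Geo} (hG : G.Ok) (F : U × Bool) (k : Fin 3) :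
    G.bot F (diag (G.x ^ V.w F)⁻¹ (G.Q F.1 (topV F.2 k))) = G.Q (V.hi F k).1 (V.hi F k).2 := by
  have h0 := congrArg (diag (G.x ^ V.w F)⁻¹) ((Y3_E0 A G F).trans (Y3_dg A hG F))
  rw [Y3_add] at h0
  have n0 := Y3_nx A G (F := F) (k := 0)
  have n1 := Y3_nx A G (F := F) (k := 1)
  have n2 := Y3_nx A G (F := F) (k := 2)
  simp only [Geo.bot, hi, Y3_top A hG, Y3_bot A hG, eps]
  simp only [nx, sh] at n0 n1 n2 ⊢
  generalize V.up F = F' at *
  obtain ⟨u, s⟩ := F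
  obtain ⟨u', s'⟩ := F'
  dsimp only at *
  cases hc : V.red u
  · have m0 := n0 (by rw [hc]; decide)
    have m1 := n1 (by rw [hc]; decide)
    simp [hc] at m0 m1
    cases s <;> cases s' <;> fin_cases k <;> simp at m0 <;>
      simp [Y3_add, Y3_zero, m0, m1, h0] <;> ring
  · have m0 := n0 (by rw [hc]; decide)
    have m2 := n2 (by rw [hc]; decide)
    simp [hc] at m0 m2
    cases s <;> cases s' <;> fin_cases k <;> simp at m2 <;>
      simp [Y3_add, Y3_zero, m0, m2, h0] <;> ring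

theorem Y3_opp_ex (A : V.Bx) (d : V.Tr × Fin 3) : ∃ d', V.IsOpp d d' := by
  obtain ⟨⟨F, n⟩, k⟩ := d
  have h0 := A.o_le F k
  have h1 := n.2
  obtain ⟨F', k', a1, a2, a3, a4⟩ := A.tile_ex (V.ed F k) (!V.sd F k) (r := V.o F k + n) (by omega)
  refine ⟨(⟨F', ⟨V.o F k + n - V.o F' k', by omega⟩⟩, k'), a1, a2, ?_⟩
  dsimp only
  omega

theorem Y3_opp_uniq (A : V.Bx) {d d' d'' : V.Tr × Fin 3} (h : V.IsOpp d d') (h' : V.IsOpp d d'') :
    d' = d'' := by
  obtain ⟨⟨F, n⟩, k⟩ := d'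
  obtain ⟨⟨F', n'⟩, k'⟩ := d''
  have e := h.2.2.trans h'.2.2.symm
  obtain ⟨rfl, rfl⟩ := A.tile_uniq (h.1.trans h'.1.symm) (h.2.1.trans h'.2.1.symm) n.2 n'.2 e
  have : n = n' := Fin.ext (Nat.add_left_cancel e)
  rw [this]

theorem Y3_opp_symm {d d' : V.Tr × Fin 3} (h : V.IsOpp d d') : V.IsOpp d' d :=
  ⟨h.1.symm, by rw [h.2.1, Bool.not_not], h.2.2.symm⟩

theorem Y3_opp_ne (A : V.Bx) {d d' : V.Tr × Fin 3} (h : V.IsOpp d d') : d'.1 ≠ d.1 := by
  obtain ⟨t, k⟩ := d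
  obtain ⟨t', k'⟩ := d'
  rintro (rfl : t' = t)
  obtain ⟨h1, h2, h3⟩ := h
  dsimp only at h1 h2 h3
  have h4 := Nat.add_right_cancel h3
  have a0 := A.o_zero t'.1
  have a1 := Y3_o_pos A t'.1 (k := 1) (by decide)
  have a2 := Y3_o_pos A t'.1 (k := 2) (by decide)
  have c1 := A.col_one t'.1
  have c2 := A.col_two t'.1
  have hk : ∀ j : Fin 3, j = 0 ∨ j = 1 ∨ j = 2 := by decide
  rcases hk k with rfl | rfl | rfl <;> rcases hk k' with rfl | rfl | rfl <;>
    first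
    | omega
    | (rw [h1, c1] at c2; exact Bool.noConfusion c2)
    | (rw [h1, c2] at c1; exact Bool.noConfusion c1)
    | simp at h2

theorem Y3_pos (A : V.Bx) {G : V.Geo} (hG : G.Ok) (t : V.Tr) (k : Fin 3) :
    G.pos t (k + 1) - G.pos t k = (if (t.1.2 == decide (k = 0)) then -1 else 1) *
      diag (G.x ^ (V.o t.1 k + t.2 + 1))⁻¹ (G.dg (V.ed t.1 k)) := by
  rw [Geo.pos, Geo.pos, ← Y3_sub, A.side_vec hG, Y3_sgn, Y3_pow, add_assoc]

theorem Bx.exists_sec (A : V.Bx) {G : V.Geo} (hG : G.Ok) :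
    ∃ Δ : FlatTri V.Tr, G.IsSec Δ ∧ ∀ d : V.Tr × Fin 3, Δ.Mid d ↔ d.2 = 2 := by
  choose opp hopp using Y3_opp_ex A
  have hx : ∀ n : ℕ, 0 < (G.x ^ n)⁻¹ := fun n => inv_pos.2 (pow_pos (zero_lt_one.trans hG.one_lt) _)
  refine ⟨⟨G.pos, opp, fun d => -((if ((opp d).1.1.2 == decide ((opp d).2 = 0)) then -1 else 1) *
    (if (d.1.1.2 == decide (d.2 = 0)) then -1 else 1)),
    fun d => Y3_opp_uniq A (hopp _) (Y3_opp_symm (hopp d)), fun d => Y3_opp_ne A (hopp d),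
    fun d => ?_, fun t => ?_, fun d => ?_, fun t k => ?_⟩, ⟨rfl, hopp⟩, fun d => ?_⟩
  · split_ifs <;> simp
  · have h := area_aff (c := 0) (Or.inl rfl) (hx ((t.2 : ℕ) + 1)) fun k => G.Q t.1.1 (topV t.1.2 k)
    simp only [one_mul, add_zero] at h
    exact (A.area_top hG t.1).trans_eq h.symm
  · rw [← neg_sub, Y3_pos A hG, Y3_pos A hG, (hopp d).1, (hopp d).2.2]
    split_ifs <;> ring
  · rw [Y3_pos A hG]
    have := mul_pos (hx (V.o t.1 k + t.2 + 1)) (hG.H_pos (V.ed t.1 k))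
    split_ifs
    · simpa [diag, Geo.dg] using this.ne'
    · simpa [diag, Geo.dg] using this.ne'
  · obtain ⟨⟨F, n⟩, k⟩ := d
    have h1 := mul_pos (hx ((n : ℕ) + 1)) (Y3_hh hG F 1)
    have h2 := mul_pos (hx ((n : ℕ) + 1)) (Y3_hh hG F 2)
    have h3 := mul_pos h1 h1
    have h4 := mul_pos h1 h2
    have h5 := mul_pos h2 h2
    simp only [FlatTri.Mid, Geo.pos, Y3_top A hG, Y3_E1 A, Y3_E2 A, diag]
    generalize (G.x ^ ((n : ℕ) + 1))⁻¹ = μ at *
    cases F.2 <;> fin_cases k <;> simp <;> nlinarith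

end Veer
end Pool.Agent.Work.MP_563a32_gt
end

-- merged part: Pool.Agent.Work.MP_563a32_gt.Y4
section
/-! The map of the section: shift and flips.

Plan. Cells `C = (U × Bool) × ℕ ⊕ U`. First arrangement `K` (`μ = x`, `ε = 1`, `c = 0`): `⟨F, n⟩`
lies in `inl (F, n)` if `n > 0` and in `inr F.1` if `n = 0`; inner darts have `n = 0`, `k = 0`.
Second arrangement `K'` (`μ = 1`): `⟨F, n⟩` lies in `inl (F, n + 1)` with the identity if
`n + 1 < w F`, and in `inr (up F).1` with `bot F` if `n + 1 = w F`; inner darts have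
`n + 1 = w F`, `k + sh F = 0`. Identify `opp` of a dart with `tile_uniq`: for an inner dart of `K`
it is `(⟨(u, !s), 0⟩, 0)`; for an inner dart of `K'` it is the last dart of the other side, whose
face is `up⁻¹ (u, !s)` (`last`, `o_le`, `step`). Overlaps and covers come from `overlap`, `quad`,
`area_top`, `bot_vertex`, `triS_shift`, `mem_triS_aff`. For an outer dart `d = (⟨F, n⟩, k)` of `K`
take `d' = (⟨F, n - 1⟩, k)` if `n > 0` and the oldest copy of the predecessor (`pred`) if `n = 0`;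
in both cases `d'` is the dart with the same `ed`, `sd` and with `o + n` one less, and it occupies
the same segment of the same cell; so the same holds for the opposite darts. Conversely for `K'`.
`pieces`: the finite set consists of `(1, 0)` and of the inverses of the maps `bot F'`. -/

namespace Pool.Agent.Work.MP_563a32_gt
namespace Veer
open Finset

section
variable {T C : Type} {Δ : FlatTri T} (K : Δ.Cut C)

theorem Y4_mem (t : T) (z : ℂ) :
    K.A t z ∈ triS (fun k => K.A t (Δ.pos t k)) ↔ z ∈ Δ.tri t :=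
  mem_triS_aff (K.ε_pm t) K.μ_pos _ _

theorem Y4_area (t : T) : 0 < area fun k => K.A t (Δ.pos t k) :=
  (Δ.area_pos t).trans_eq (area_aff (K.ε_pm t) K.μ_pos _).symm

theorem Y4_sur (t : T) {w : ℂ} (h : w ∈ triS fun k => K.A t (Δ.pos t k)) :
    ∃ z ∈ Δ.tri t, K.A t z = w := by
  obtain ⟨z, rfl⟩ := (FlatTri.T8_bij K t).2 w
  exact ⟨z, (Y4_mem K t z).1 h, rfl⟩

theorem Y4_seg {d : T × Fin 3} {z : ℂ}
    (h : K.A d.1 z ∈ segment ℝ (K.A d.1 (Δ.st d)) (K.A d.1 (Δ.en d))) : z ∈ Δ.edge d := by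
  rw [segment_eq_image'] at h
  obtain ⟨θ, hθ, e⟩ := h
  exact FlatTri.T8_edge.2 ⟨θ, hθ, (FlatTri.T8_bij K d.1).1 ((FlatTri.T8_line K _ _ _ _).trans e)⟩

end

section
variable {q : Fin 4 → ℂ} {z : ℂ}

theorem Y4_top0 (q : Fin 4 → ℂ) : (fun k => q (topV false k)) = ![q 1, q 3, q 0] :=
  funext (T1_all.2 ⟨rfl, rfl, rfl⟩)

theorem Y4_top1 (q : Fin 4 → ℂ) : (fun k => q (topV true k)) = ![q 3, q 1, q 2] :=
  funext (T1_all.2 ⟨rfl, rfl, rfl⟩)

theorem Y4_bot0 (q : Fin 4 → ℂ) : (fun k => q (botV false k)) = ![q 0, q 2, q 3] :=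
  funext (T1_all.2 ⟨rfl, rfl, rfl⟩)

theorem Y4_bot1 (q : Fin 4 → ℂ) : (fun k => q (botV true k)) = ![q 2, q 0, q 1] :=
  funext (T1_all.2 ⟨rfl, rfl, rfl⟩)

theorem Y4_ovT {s : Bool} (h : 0 < area fun k => q (topV s k))
    (h1 : z ∈ triS fun k => q (topV s k)) (h2 : z ∈ triS fun k => q (topV (!s) k)) :
    z ∈ segment ℝ (q (topV s 0)) (q (topV s 1)) := by
  cases s
  · rw [Bool.not_false, Y4_top1] at h2
    rw [Y4_top0] at h h1
    exact overlap h h1 h2
  · rw [Bool.not_true, Y4_top0] at h2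
    rw [Y4_top1] at h h1
    exact overlap h h1 h2

theorem Y4_ovB {s : Bool} (h : 0 < area fun k => q (botV s k))
    (h1 : z ∈ triS fun k => q (botV s k)) (h2 : z ∈ triS fun k => q (botV (!s) k)) :
    z ∈ segment ℝ (q (botV s 0)) (q (botV s 1)) := by
  cases s
  · rw [Bool.not_false, Y4_bot1] at h2
    rw [Y4_bot0] at h h1
    exact overlap h h1 h2
  · rw [Bool.not_true, Y4_bot0] at h2
    rw [Y4_bot1] at h h1
    exact overlap h h1 h2

theorem Y4_quad (hT : ∀ s, 0 < area fun k => q (topV s k))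
    (hB : ∀ s, 0 < area fun k => q (botV s k)) :
    (∃ s, z ∈ triS fun k => q (topV s k)) ↔ ∃ s, z ∈ triS fun k => q (botV s k) := by
  have t0 := hT false
  have t1 := hT true
  have b0 := hB false
  have b1 := hB true
  rw [Bool.exists_bool, Bool.exists_bool]
  rw [Y4_top0] at t0 ⊢
  rw [Y4_top1] at t1 ⊢
  rw [Y4_bot0] at b0 ⊢
  rw [Y4_bot1] at b1 ⊢
  exact ⟨fun h => h.elim (quad t0 t1 b0 b1) fun h => (quad t1 t0 b1 b0 h).symm,
    fun h => h.elim (fun h => (quad b0 b1 t1 t0 h).symm) (quad b1 b0 t0 t1)⟩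

end

section
variable {U Cu : Type} {V : Veer U Cu}

theorem Y4_eps (F : U × Bool) : V.eps F = 1 ∨ V.eps F = -1 := by
  unfold eps
  split_ifs
  · exact Or.inr rfl
  · exact Or.inl rfl

theorem Y4_ext {t t' : V.Tr} (h1 : t.1 = t'.1) (h2 : (t.2 : ℕ) = t'.2) : t = t' := by
  obtain ⟨F, n⟩ := t
  obtain ⟨F', n'⟩ := t'
  obtain rfl : F = F' := h1
  obtain rfl : n = n' := Fin.ext h2
  rfl

theorem Y4_pair {F F' : U × Bool} (h1 : F'.1 = F.1) (h2 : F' ≠ F) : F' = (F.1, !F.2) := by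
  obtain ⟨u, s⟩ := F
  obtain ⟨u', s'⟩ := F'
  obtain rfl : u' = u := h1
  cases s <;> cases s' <;> first | rfl | exact absurd rfl h2

/-- the level of a dart along its edge -/
def Y4_lev (d : V.Tr × Fin 3) : ℕ := V.o d.1.1 d.2 + d.1.2

theorem Bx.Y4_uniq (A : V.Bx) {d d' : V.Tr × Fin 3} (he : V.ed d.1.1 d.2 = V.ed d'.1.1 d'.2)
    (hs : V.sd d.1.1 d.2 = V.sd d'.1.1 d'.2) (h : Y4_lev d = Y4_lev d') : d = d' := by
  obtain ⟨h1, h2⟩ := A.tile_uniq he hs d.1.2.2 d'.1.2.2 h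
  refine Prod.ext (Y4_ext h1 ?_) h2
  have h3 : V.o d.1.1 d.2 = V.o d'.1.1 d'.2 := by rw [h1, h2]
  unfold Y4_lev at h
  omega

theorem Bx.Y4_ex (A : V.Bx) (τ : U) (s : Bool) {r : ℕ} (hr : r < V.off τ) :
    ∃ d : V.Tr × Fin 3, V.ed d.1.1 d.2 = τ ∧ V.sd d.1.1 d.2 = s ∧ Y4_lev d = r := by
  obtain ⟨F, k, h1, h2, h3, h4⟩ := A.tile_ex τ s hr
  exact ⟨(⟨F, ⟨r - V.o F k, by omega⟩⟩, k), h1, h2, Nat.add_sub_cancel' h3⟩

theorem Bx.Y4_lt (A : V.Bx) (d : V.Tr × Fin 3) : Y4_lev d < V.off (V.ed d.1.1 d.2) := by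
  have h1 := A.o_le d.1.1 d.2
  have h2 := d.1.2.2
  unfold Y4_lev
  omega

/-- the youngest copy of a face -/
def Bx.Y4_fst (A : V.Bx) (F : U × Bool) : V.Tr := ⟨F, ⟨0, A.w_pos F⟩⟩

/-- the oldest copy of a face -/
def Bx.Y4_lst (A : V.Bx) (F : U × Bool) : V.Tr := ⟨F, ⟨V.w F - 1, Nat.sub_lt (A.w_pos F) one_pos⟩⟩

theorem Bx.Y4_zero (A : V.Bx) {d : V.Tr × Fin 3} (h : Y4_lev d = 0) :
    d = (A.Y4_fst (V.ed d.1.1 d.2, V.sd d.1.1 d.2), 0) :=
  A.Y4_uniq (A.ed_zero (_, _)).symm (A.sd_zero (_, _)).symm (h.trans (A.o_zero _).symm)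

theorem Bx.Y4_last (A : V.Bx) {d : V.Tr × Fin 3} (h : Y4_lev d + 1 = V.off (V.ed d.1.1 d.2)) :
    (d.1.2 : ℕ) + 1 = V.w d.1.1 ∧ d.2 + V.sh d.1.1 = 0 := by
  have h1 := A.o_le d.1.1 d.2
  have h2 := d.1.2.2
  unfold Y4_lev at h
  refine ⟨by omega, by_contra fun hk => ?_⟩
  obtain ⟨s1, -, s3⟩ := A.step d.1.1 d.2 hk
  have h3 := A.o_le (V.nx d.1.1 d.2).1 (V.nx d.1.1 d.2).2
  have h4 := A.w_pos (V.nx d.1.1 d.2).1
  rw [s1, s3] at h3
  omega

theorem Y4_nx {F : U × Bool} {k : Fin 3} (h : k + V.sh F ≠ 0) :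
    (V.nx F k).1.1 = (V.up F).1 ∧ topV (V.nx F k).1.2 (V.nx F k).2 = botV (V.up F).2 (k + V.sh F) ∧
      topV (V.nx F k).1.2 ((V.nx F k).2 + 1) = botV (V.up F).2 (k + 1 + V.sh F) := by
  rw [add_right_comm]
  unfold nx
  generalize k + V.sh F = j at h ⊢
  generalize V.up F = p
  obtain ⟨u, s⟩ := p
  revert j
  rw [T1_all]
  refine ⟨fun h => absurd rfl h, fun _ => ?_, fun _ => ?_⟩
  · rw [if_pos rfl]
    cases s <;> exact ⟨rfl, rfl, rfl⟩
  · rw [if_neg (by decide)]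
    cases s <;> exact ⟨rfl, rfl, rfl⟩

variable {G : V.Geo}

/-- the first arrangement -/
noncomputable def Y4_K (hG : G.Ok) (Δ : FlatTri V.Tr) : Δ.Cut ((U × Bool) × ℕ ⊕ U) where
  cell t := if (t.2 : ℕ) = 0 then Sum.inr t.1.1 else Sum.inl (t.1, t.2)
  μ := G.x
  ε _ := 1
  c _ := 0
  Inner d := (d.1.2 : ℕ) = 0 ∧ d.2 = 0
  μ_pos := one_pos.trans hG.one_lt
  ε_pm _ := Or.inl rfl

/-- the second arrangement -/
noncomputable def Y4_L (G : V.Geo) (Δ : FlatTri V.Tr) : Δ.Cut ((U × Bool) × ℕ ⊕ U) where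
  cell t := if (t.2 : ℕ) + 1 = V.w t.1 then Sum.inr (V.up t.1).1 else Sum.inl (t.1, t.2 + 1)
  μ := 1
  ε t := if (t.2 : ℕ) + 1 = V.w t.1 then V.eps t.1 else 1
  c t := if (t.2 : ℕ) + 1 = V.w t.1 then G.bot t.1 0 else 0
  Inner d := (d.1.2 : ℕ) + 1 = V.w d.1.1 ∧ d.2 + V.sh d.1.1 = 0
  μ_pos := one_pos
  ε_pm t := by
    split_ifs
    · exact Y4_eps _
    · exact Or.inl rfl

variable {Δ : FlatTri V.Tr} {t t' : V.Tr}

theorem Y4_KA (hG : G.Ok) (t : V.Tr) (z : ℂ) : (Y4_K hG Δ).A t z = diag G.x z := by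
  change 1 * diag G.x z + 0 = _
  rw [one_mul, add_zero]

theorem Y4_LA (h : (t.2 : ℕ) + 1 = V.w t.1) (z : ℂ) : (Y4_L G Δ).A t z = G.bot t.1 z := by
  change (if (t.2 : ℕ) + 1 = V.w t.1 then V.eps t.1 else 1) * diag 1 z +
    (if (t.2 : ℕ) + 1 = V.w t.1 then G.bot t.1 0 else 0) = _
  rw [if_pos h, if_pos h, diag_one, Geo.bot, Geo.bot]
  ring

theorem Y4_LA' (h : (t.2 : ℕ) + 1 ≠ V.w t.1) (z : ℂ) : (Y4_L G Δ).A t z = z := by
  change (if (t.2 : ℕ) + 1 = V.w t.1 then V.eps t.1 else 1) * diag 1 z +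
    (if (t.2 : ℕ) + 1 = V.w t.1 then G.bot t.1 0 else 0) = _
  rw [if_neg h, if_neg h, diag_one, one_mul, add_zero]

theorem Y4_Kc (hG : G.Ok) (h : (t.2 : ℕ) = 0) : (Y4_K hG Δ).cell t = Sum.inr t.1.1 := if_pos h

theorem Y4_Kc' (hG : G.Ok) (h : (t.2 : ℕ) ≠ 0) :
    (Y4_K hG Δ).cell t = Sum.inl (t.1, (t.2 : ℕ)) := if_neg h

theorem Y4_Lc (h : (t.2 : ℕ) + 1 = V.w t.1) : (Y4_L G Δ).cell t = Sum.inr (V.up t.1).1 := if_pos h

theorem Y4_Lc' (h : (t.2 : ℕ) + 1 ≠ V.w t.1) :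
    (Y4_L G Δ).cell t = Sum.inl (t.1, (t.2 : ℕ) + 1) := if_neg h

theorem Y4_Kp (hG : G.Ok) (hΔ : G.IsSec Δ) (t : V.Tr) (k : Fin 3) :
    (Y4_K hG Δ).A t (Δ.pos t k) = diag (G.x ^ (t.2 : ℕ))⁻¹ (G.Q t.1.1 (topV t.1.2 k)) := by
  have hx := (one_pos.trans hG.one_lt).ne'
  rw [Y4_KA, hΔ.1, Geo.pos, diag_mul, pow_succ, mul_inv, mul_left_comm, mul_inv_cancel₀ hx, mul_one]

theorem Y4_Kp0 (hG : G.Ok) (hΔ : G.IsSec Δ) (h : (t.2 : ℕ) = 0) (k : Fin 3) :
    (Y4_K hG Δ).A t (Δ.pos t k) = G.Q t.1.1 (topV t.1.2 k) := by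
  rw [Y4_Kp hG hΔ, h, pow_zero, inv_one, diag_one]

theorem Bx.Y4_Lp (A : V.Bx) (hG : G.Ok) (hΔ : G.IsSec Δ) (h : (t.2 : ℕ) + 1 = V.w t.1)
    (k : Fin 3) :
    (Y4_L G Δ).A t (Δ.pos t k) = G.Q (V.up t.1).1 (botV (V.up t.1).2 (k + V.sh t.1)) := by
  rw [Y4_LA h, hΔ.1, Geo.pos, h]
  exact A.bot_vertex hG t.1 k

theorem Y4_shift (hG : G.Ok) (hΔ : G.IsSec Δ) (h1 : t'.1 = t.1) (h2 : (t'.2 : ℕ) + 1 = t.2) :
    (t'.2 : ℕ) + 1 ≠ V.w t'.1 ∧ (Y4_L G Δ).cell t' = (Y4_K hG Δ).cell t ∧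
      ∀ k, (Y4_L G Δ).A t' (Δ.pos t' k) = (Y4_K hG Δ).A t (Δ.pos t k) := by
  have h3 : (t'.2 : ℕ) + 1 ≠ V.w t'.1 := by
    rw [h2, h1]
    exact t.2.2.ne
  refine ⟨h3, ?_, fun k => ?_⟩
  · rw [Y4_Lc' h3, Y4_Kc' hG (by omega), h2, h1]
  · rw [Y4_LA' h3, Y4_Kp hG hΔ, hΔ.1, Geo.pos, h2, h1]

theorem Bx.Y4_match (A : V.Bx) (hG : G.Ok) (hΔ : G.IsSec Δ) {d d' : V.Tr × Fin 3}
    (he : V.ed d'.1.1 d'.2 = V.ed d.1.1 d.2) (hs : V.sd d'.1.1 d'.2 = V.sd d.1.1 d.2)
    (h : Y4_lev d' + 1 = Y4_lev d) :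
    (Y4_L G Δ).cell d'.1 = (Y4_K hG Δ).cell d.1 ∧
      (Y4_L G Δ).A d'.1 (Δ.st d') = (Y4_K hG Δ).A d.1 (Δ.st d) ∧
      (Y4_L G Δ).A d'.1 (Δ.en d') = (Y4_K hG Δ).A d.1 (Δ.en d) := by
  by_cases h1 : (d'.1.2 : ℕ) + 1 = V.w d'.1.1
  · have h2 : d'.2 + V.sh d'.1.1 ≠ 0 := fun e => by
      have h3 := (A.last _ _ e).2
      have h4 := A.Y4_lt d
      rw [he] at h3
      unfold Y4_lev at h h4
      omega
    obtain ⟨s1, s2, s3⟩ := A.step _ _ h2
    obtain ⟨n1, n2, n3⟩ := Y4_nx h2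
    obtain rfl : (A.Y4_fst (V.nx d'.1.1 d'.2).1, (V.nx d'.1.1 d'.2).2) = d := by
      refine A.Y4_uniq (s1.trans he) (s2.trans hs) ?_
      rw [← h]
      change V.o (V.nx d'.1.1 d'.2).1 (V.nx d'.1.1 d'.2).2 + 0 = V.o d'.1.1 d'.2 + d'.1.2 + 1
      omega
    refine ⟨?_, ?_, ?_⟩
    · rw [Y4_Lc h1, Y4_Kc hG rfl, ← n1]
      rfl
    · rw [FlatTri.st, FlatTri.st, A.Y4_Lp hG hΔ h1, Y4_Kp0 hG hΔ rfl, ← n1, ← n2]
      rfl
    · rw [FlatTri.en, FlatTri.en, A.Y4_Lp hG hΔ h1, Y4_Kp0 hG hΔ rfl, ← n1, ← n3]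
      rfl
  · have h2 : (d'.1.2 : ℕ) + 1 < V.w d'.1.1 := lt_of_le_of_ne d'.1.2.2 h1
    obtain rfl : ((⟨d'.1.1, ⟨d'.1.2 + 1, h2⟩⟩ : V.Tr), d'.2) = d := A.Y4_uniq he hs h
    obtain ⟨-, a, b⟩ := Y4_shift (t := ⟨d'.1.1, ⟨d'.1.2 + 1, h2⟩⟩) (t' := d'.1) hG hΔ rfl rfl
    exact ⟨a, b _, b _⟩

theorem Y4_opp (hΔ : G.IsSec Δ) {d d' : V.Tr × Fin 3}
    (he : V.ed d'.1.1 d'.2 = V.ed d.1.1 d.2) (hs : V.sd d'.1.1 d'.2 = V.sd d.1.1 d.2)
    (h : Y4_lev d' + 1 = Y4_lev d) :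
    V.ed (Δ.opp d').1.1 (Δ.opp d').2 = V.ed (Δ.opp d).1.1 (Δ.opp d).2 ∧
      V.sd (Δ.opp d').1.1 (Δ.opp d').2 = V.sd (Δ.opp d).1.1 (Δ.opp d).2 ∧
      Y4_lev (Δ.opp d') + 1 = Y4_lev (Δ.opp d) := by
  obtain ⟨a1, a2, a3⟩ := hΔ.2 d
  obtain ⟨b1, b2, b3⟩ := hΔ.2 d'
  refine ⟨by rw [a1, b1, he], by rw [a2, b2, hs], ?_⟩
  unfold Y4_lev at h ⊢
  rw [a3, b3, h]

theorem Bx.Y4_oppK (A : V.Bx) (hΔ : G.IsSec Δ) (h : (t.2 : ℕ) = 0) :
    Δ.opp (t, 0) = (A.Y4_fst (t.1.1, !t.1.2), 0) := by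
  obtain ⟨a1, a2, a3⟩ := hΔ.2 (t, 0)
  have h1 : Y4_lev (Δ.opp (t, 0)) = 0 := by
    rw [Y4_lev, a3, A.o_zero, h]
  rw [A.Y4_zero h1, a1, a2, A.ed_zero, A.sd_zero]

theorem Bx.Y4_oppL (A : V.Bx) (hΔ : G.IsSec Δ) {d : V.Tr × Fin 3}
    (h1 : (d.1.2 : ℕ) + 1 = V.w d.1.1) (h2 : d.2 + V.sh d.1.1 = 0) :
    ((Δ.opp d).1.2 : ℕ) + 1 = V.w (Δ.opp d).1.1 ∧ (Δ.opp d).2 + V.sh (Δ.opp d).1.1 = 0 ∧
      V.up (Δ.opp d).1.1 = ((V.up d.1.1).1, !(V.up d.1.1).2) := by
  obtain ⟨a1, a2, a3⟩ := hΔ.2 d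
  obtain ⟨l1, l2⟩ := A.last _ _ h2
  obtain ⟨b1, b2⟩ := A.Y4_last (d := Δ.opp d) (by rw [Y4_lev, a3, a1, ← l2, add_assoc, h1])
  refine ⟨b1, b2, Y4_pair ?_ fun e => ?_⟩
  · rw [← (A.last _ _ b2).1, a1, l1]
  · have e1 := V.up.injective e
    have e2 : (Δ.opp d).2 = d.2 := by
      rw [e1, ← h2] at b2
      exact add_right_cancel b2
    rw [e1, e2] at a2
    revert a2
    cases V.sd d.1.1 d.2 <;> decide

theorem Bx.Y4_okK (A : V.Bx) (hG : G.Ok) (hΔ : G.IsSec Δ) : (Y4_K hG Δ).Ok := by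
  refine ⟨?_, fun t t' hne hc z hz z' hz' e => ?_⟩
  · rintro ⟨t, k⟩ ⟨h, rfl : k = 0⟩
    rw [A.Y4_oppK hΔ h, Y4_Kc hG rfl, Y4_Kc hG h, FlatTri.st, FlatTri.st, FlatTri.en, FlatTri.en,
      Y4_Kp0 hG hΔ h, Y4_Kp0 hG hΔ h, Y4_Kp0 hG hΔ rfl, Y4_Kp0 hG hΔ rfl]
    obtain ⟨⟨u, s⟩, n⟩ := t
    cases s <;> exact ⟨rfl, rfl, rfl⟩
  · by_cases h : (t.2 : ℕ) = 0 <;> by_cases h' : (t'.2 : ℕ) = 0
    · rw [Y4_Kc hG h, Y4_Kc hG h'] at hc
      have h1 : t'.1 = (t.1.1, !t.1.2) :=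
        Y4_pair (Sum.inr.inj hc).symm fun e => hne (Y4_ext e.symm (h.trans h'.symm))
      refine ⟨0, ⟨h, rfl⟩, ?_, Y4_seg (Y4_K hG Δ) ?_⟩
      · rw [A.Y4_oppK hΔ h]
        exact Y4_ext h1.symm h'.symm
      · have m1 := (Y4_mem (Y4_K hG Δ) t z).2 hz
        have m2 := (Y4_mem (Y4_K hG Δ) t' z').2 hz'
        simp only [Y4_Kp0 hG hΔ h] at m1
        simp only [Y4_Kp0 hG hΔ h'] at m2
        rw [← e, h1] at m2
        rw [FlatTri.st, FlatTri.en, Y4_Kp0 hG hΔ h, Y4_Kp0 hG hΔ h]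
        exact Y4_ovT (A.area_top hG t.1) m1 m2
    · rw [Y4_Kc hG h, Y4_Kc' hG h'] at hc
      cases hc
    · rw [Y4_Kc' hG h, Y4_Kc hG h'] at hc
      cases hc
    · rw [Y4_Kc' hG h, Y4_Kc' hG h'] at hc
      obtain ⟨e1, e2⟩ := Prod.mk.inj (Sum.inl.inj hc)
      exact absurd (Y4_ext e1 e2) hne

theorem Bx.Y4_triL (A : V.Bx) (hG : G.Ok) (hΔ : G.IsSec Δ) (h : (t.2 : ℕ) + 1 = V.w t.1) :
    triS (fun k => (Y4_L G Δ).A t (Δ.pos t k)) =
      triS fun k => G.Q (V.up t.1).1 (botV (V.up t.1).2 k) := by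
  simp only [A.Y4_Lp hG hΔ h]
  exact triS_shift (fun k => G.Q (V.up t.1).1 (botV (V.up t.1).2 k)) _

theorem Bx.Y4_lstw (A : V.Bx) (F : U × Bool) :
    ((A.Y4_lst F).2 : ℕ) + 1 = V.w (A.Y4_lst F).1 := Nat.sub_add_cancel (A.w_pos F)

theorem Bx.Y4_lstu (A : V.Bx) (F : U × Bool) : V.up (A.Y4_lst (V.up.symm F)).1 = F :=
  V.up.apply_symm_apply F

theorem Bx.Y4_areaB (A : V.Bx) (hG : G.Ok) (hΔ : G.IsSec Δ) (u : U) (s : Bool) :
    0 < area fun k => G.Q u (botV s k) := by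
  have h := Y4_area (Y4_L G Δ) (A.Y4_lst (V.up.symm (u, s)))
  simp only [A.Y4_Lp hG hΔ (A.Y4_lstw _), A.Y4_lstu] at h
  exact h.trans_eq (area_shift (fun k => G.Q u (botV s k)) _)

theorem Bx.Y4_okL (A : V.Bx) (hG : G.Ok) (hΔ : G.IsSec Δ) : (Y4_L G Δ).Ok := by
  refine ⟨?_, fun t t' hne hc z hz z' hz' e => ?_⟩
  · rintro d ⟨h1, h2⟩
    obtain ⟨b1, b2, b3⟩ := A.Y4_oppL hΔ h1 h2
    rw [Y4_Lc b1, Y4_Lc h1, FlatTri.st, FlatTri.st, FlatTri.en, FlatTri.en, A.Y4_Lp hG hΔ b1,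
      A.Y4_Lp hG hΔ b1, A.Y4_Lp hG hΔ h1, A.Y4_Lp hG hΔ h1, add_right_comm (Δ.opp d).2,
      add_right_comm d.2, b2, h2, b3]
    generalize V.up d.1.1 = p
    obtain ⟨u, s⟩ := p
    cases s <;> exact ⟨rfl, rfl, rfl⟩
  · by_cases h : (t.2 : ℕ) + 1 = V.w t.1 <;> by_cases h' : (t'.2 : ℕ) + 1 = V.w t'.1
    · rw [Y4_Lc h, Y4_Lc h'] at hc
      have h0 : ∀ {a b : V.Tr}, (a.2 : ℕ) + 1 = V.w a.1 → (b.2 : ℕ) + 1 = V.w b.1 →
          V.up a.1 = V.up b.1 → a = b := fun {a b} ha hb e => by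
        have e1 := V.up.injective e
        refine Y4_ext e1 (Nat.succ_injective (ha.trans (Eq.trans ?_ hb.symm)))
        rw [e1]
      have h1 : V.up t'.1 = ((V.up t.1).1, !(V.up t.1).2) :=
        Y4_pair (Sum.inr.inj hc).symm fun e => hne (h0 h h' e.symm)
      have h2 : -V.sh t.1 + V.sh t.1 = 0 := neg_add_cancel _
      obtain ⟨b1, -, b3⟩ := A.Y4_oppL hΔ (d := (t, -V.sh t.1)) h h2
      refine ⟨-V.sh t.1, ⟨h, h2⟩, h0 b1 h' (b3.trans h1.symm), Y4_seg (Y4_L G Δ) ?_⟩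
      have m1 := (Y4_mem (Y4_L G Δ) t z).2 hz
      have m2 := (Y4_mem (Y4_L G Δ) t' z').2 hz'
      rw [A.Y4_triL hG hΔ h] at m1
      rw [A.Y4_triL hG hΔ h', ← e, h1] at m2
      rw [FlatTri.st, FlatTri.en, A.Y4_Lp hG hΔ h, A.Y4_Lp hG hΔ h, add_right_comm, h2]
      exact Y4_ovB (A.Y4_areaB hG hΔ _ _) m1 m2
    · rw [Y4_Lc h, Y4_Lc' h'] at hc
      cases hc
    · rw [Y4_Lc' h, Y4_Lc h'] at hc
      cases hc
    · rw [Y4_Lc' h, Y4_Lc' h'] at hc
      obtain ⟨e1, e2⟩ := Prod.mk.inj (Sum.inl.inj hc)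
      exact absurd (Y4_ext e1 (Nat.succ_injective e2)) hne

theorem Bx.Y4_to (A : V.Bx) (hG : G.Ok) (hΔ : G.IsSec Δ) : (Y4_K hG Δ).To (Y4_L G Δ) := by
  refine ⟨fun t z hz => ?_, fun d hd => ?_⟩
  · have m := (Y4_mem (Y4_K hG Δ) t z).2 hz
    by_cases h : (t.2 : ℕ) = 0
    · simp only [Y4_Kp0 hG hΔ h] at m
      obtain ⟨s, hs⟩ := (Y4_quad (fun s => A.area_top hG (t.1.1, s))
        (A.Y4_areaB hG hΔ t.1.1)).1 ⟨_, m⟩
      refine ⟨A.Y4_lst (V.up.symm (t.1.1, s)), ?_, Y4_sur _ _ ?_⟩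
      · rw [Y4_Lc (A.Y4_lstw _), Y4_Kc hG h, A.Y4_lstu]
      · rwa [A.Y4_triL hG hΔ (A.Y4_lstw _), A.Y4_lstu]
    · obtain ⟨-, a, b⟩ := Y4_shift (t := t)
        (t' := ⟨t.1, ⟨t.2 - 1, (Nat.sub_le _ _).trans_lt t.2.2⟩⟩) hG hΔ rfl
        (Nat.sub_add_cancel (Nat.pos_of_ne_zero h))
      refine ⟨_, a, Y4_sur _ _ ?_⟩
      simp only [b]
      exact m
  · have h1 : Y4_lev d ≠ 0 := fun e => hd (by rw [A.Y4_zero e]; exact ⟨rfl, rfl⟩)
    obtain ⟨d', e1, e2, e3⟩ := A.Y4_ex (V.ed d.1.1 d.2) (V.sd d.1.1 d.2) (r := Y4_lev d - 1)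
      ((Nat.sub_le _ _).trans_lt (A.Y4_lt d))
    have e4 : Y4_lev d' + 1 = Y4_lev d := by omega
    obtain ⟨o1, o2, o3⟩ := Y4_opp hΔ e1 e2 e4
    obtain ⟨a1, a2, a3⟩ := A.Y4_match hG hΔ e1 e2 e4
    exact ⟨d', a1, a2, a3, A.Y4_match hG hΔ o1 o2 o3⟩

theorem Bx.Y4_from (A : V.Bx) (hG : G.Ok) (hΔ : G.IsSec Δ) : (Y4_L G Δ).To (Y4_K hG Δ) := by
  refine ⟨fun t z hz => ?_, fun d' hd => ?_⟩
  · have m := (Y4_mem (Y4_L G Δ) t z).2 hz
    by_cases h : (t.2 : ℕ) + 1 = V.w t.1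
    · rw [A.Y4_triL hG hΔ h] at m
      obtain ⟨s, hs⟩ := (Y4_quad (fun s => A.area_top hG ((V.up t.1).1, s))
        (A.Y4_areaB hG hΔ _)).2 ⟨_, m⟩
      refine ⟨A.Y4_fst ((V.up t.1).1, s), ?_, Y4_sur _ _ ?_⟩
      · rw [Y4_Lc h, Y4_Kc hG rfl]
        rfl
      · simp only [Y4_Kp0 (t := A.Y4_fst ((V.up t.1).1, s)) hG hΔ rfl]
        exact hs
    · obtain ⟨-, a, b⟩ := Y4_shift (t' := t)
        (t := ⟨t.1, ⟨t.2 + 1, lt_of_le_of_ne t.2.2 h⟩⟩) hG hΔ rfl rfl
      refine ⟨_, a.symm, Y4_sur _ _ ?_⟩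
      simp only [← b]
      exact m
  · obtain ⟨d, e1, e2, e3⟩ := A.Y4_ex (V.ed d'.1.1 d'.2) (V.sd d'.1.1 d'.2) (r := Y4_lev d' + 1)
      (lt_of_le_of_ne (A.Y4_lt d') fun e => hd (A.Y4_last e))
    obtain ⟨o1, o2, o3⟩ := Y4_opp hΔ e1.symm e2.symm e3.symm
    obtain ⟨a1, a2, a3⟩ := A.Y4_match hG hΔ e1.symm e2.symm e3.symm
    obtain ⟨b1, b2, b3⟩ := A.Y4_match hG hΔ o1 o2 o3
    exact ⟨d, a1.symm, a2.symm, a3.symm, b1.symm, b2.symm, b3.symm⟩

end

variable {U Cu : Type} [Fintype U] [DecidableEq U] {V : Veer U Cu}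

theorem Bx.exists_map (A : V.Bx) {G : V.Geo} (hG : G.Ok) {Δ : FlatTri V.Tr} (hΔ : G.IsSec Δ) :
    ∃ f : Δ.Surf ≃ₜ Δ.Surf, G.IsMap Δ f := by
  obtain ⟨f, hf⟩ := FlatTri.Cut.cut_paste (A.Y4_okK hG hΔ) (A.Y4_okL hG hΔ) (A.Y4_to hG hΔ)
    (A.Y4_from hG hΔ)
  refine ⟨f, fun F n n' h z hz => ?_, fun F F' n n' h h' e z hz z' hz' e' => ?_,
    fun F n h z hz => ?_⟩
  · obtain ⟨a, b, c⟩ := Y4_shift (t := ⟨F, n⟩) (t' := ⟨F, n'⟩) hG hΔ rfl h.symm
    have e : (Y4_K hG Δ).A ⟨F, n⟩ z = (Y4_L G Δ).A ⟨F, n'⟩ (diag G.x z) := by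
      rw [Y4_KA, Y4_LA' a]
    have m : diag G.x z ∈ Δ.tri ⟨F, n'⟩ := by
      rw [← Y4_mem (Y4_L G Δ), ← e]
      simp only [c]
      exact (Y4_mem _ _ _).2 hz
    exact ⟨m, hf _ _ z hz _ m b.symm e⟩
  · refine hf _ _ z hz z' hz' ?_ ?_
    · rw [Y4_Kc (t := ⟨F, n⟩) hG h, Y4_Lc (t := ⟨F', n'⟩) h', e]
    · rw [Y4_KA, Y4_LA (t := ⟨F', n'⟩) h', e']
  · obtain ⟨t', c, z', hz', e⟩ := (A.Y4_to hG hΔ).cover ⟨F, n⟩ z hz
    rw [Y4_Kc (t := ⟨F, n⟩) hG h] at c
    by_cases h' : (t'.2 : ℕ) + 1 = V.w t'.1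
    · rw [Y4_Lc h'] at c
      rw [Y4_KA, Y4_LA h'] at e
      exact ⟨t'.1, t'.2, h', Sum.inr.inj c, z', hz', e.symm⟩
    · rw [Y4_Lc' h'] at c
      cases c

theorem Geo.IsMap.pieces2 {G : V.Geo} {Δ : FlatTri V.Tr} {f : Δ.Surf → Δ.Surf}
    (h : G.IsMap Δ f) : Δ.Pieces f G.x := by
  refine ⟨insert (1, 0) (Set.range fun F => (V.eps F, -(V.eps F * G.bot F 0))),
    (Set.finite_range _).insert _, ?_, ?_⟩
  · rintro _ (rfl | ⟨F, rfl⟩)
    · exact Or.inl rfl
    · exact Y4_eps F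
  · rintro ⟨F, n⟩ z hz
    by_cases h0 : (n : ℕ) = 0
    · obtain ⟨F', n', h1, h2, z', hz', e⟩ := h.cover F n h0 z hz
      have e' : V.eps F' * diag G.x z + -(V.eps F' * G.bot F' 0) = z' := by
        rw [e, Geo.bot, Geo.bot]
        linear_combination z' * PA.A1_sq (Y4_eps (V := V) F')
      refine ⟨⟨F', n'⟩, _, Or.inr ⟨F', rfl⟩, ?_⟩
      dsimp only
      rw [e']
      exact ⟨hz', h.flip F F' n n' h0 h1 h2 z hz z' hz' e⟩
    · refine ⟨⟨F, ⟨n - 1, (Nat.sub_le _ _).trans_lt n.2⟩⟩, _, Or.inl rfl, ?_⟩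
      dsimp only
      rw [one_mul, add_zero]
      exact h.shift F n _ (Nat.sub_add_cancel (Nat.pos_of_ne_zero h0)).symm z hz

end Veer
end Pool.Agent.Work.MP_563a32_gt
end

-- merged part: Pool.Agent.Work.MP_563a32_gt.Y5
section
/-! The vertices of the section.

Plan. `exists_vert`: `Vt p j = f ^ (j + 1)` of the corner `p = (u, a)` of a top face of `u` with
`n = 0` (the two choices for `a = B, U` agree by `vtx_rotV`, see `V4` for `opp`); `shift` gives
`Vt (lo F k) (- 1 - n) = vtx (⟨F, n⟩, k)`, and `flip` with `bot_vertex` gives the link relation.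
`sameLab_opp`: along `nx` the start and the end of a dart keep their labels (`cusp_lnk`,
`disc_dvd`, `step`; `hi F k` and `hi F (k + 1)` are the start and end corners of `nx F k`), so by
induction on `o` with `pred` the start and end of `(⟨F, n⟩, k)` have the labels of the corners
`topV s 0`, `topV s 1` of `ed F k` at age `o + n`, `s = sd F k`; and `topV (!s) 0 = topV s 1`.
`vtx_iff`: `→` by `vtx_eq` and `sameLab_opp` (`SameLab` is an equivalence relation); `←`: by `tree`,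
`Vt p j = Vt (root c) (j + pot p - pot (root c))`; the integers `z` with
`Vt (root c) j = Vt (root c) (j + z)` for all `j` form a subgroup containing every `disc F k` of
the cusp, so `per c` by `gen`. -/

namespace Pool.Agent.Work.MP_563a32_gt
namespace Veer
open Finset

variable {U Cu : Type} [Fintype U] [DecidableEq U] {V : Veer U Cu}

theorem Y5_orb {X P : Type} {f : X → X} (hf : Function.Injective f) {Vt : P → ℤ → X}
    (h : ∀ p j, f (Vt p j) = Vt p (j + 1)) {p q : P} {a b : ℤ} (e : Vt p a = Vt q b) (z : ℤ) :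
    Vt p (a + z) = Vt q (b + z) := by
  induction z using Int.induction_on with
  | zero => simpa using e
  | succ n ih => rw [← add_assoc, ← add_assoc, ← h, ← h, ih]
  | pred n ih =>
    apply hf
    rw [h, h]
    convert ih using 2 <;> ring

theorem Y5_end {T : Type} (Δ : FlatTri T) (d : T × Fin 3) :
    Δ.vtx (Δ.opp d) = Δ.vtx (d.1, d.2 + 1) := by
  have h := Δ.vtx_rotV (d.1, d.2 + 1)
  have e : ∀ k : Fin 3, k + 1 + 2 = k := by decide
  change Δ.vtx (Δ.opp (d.1, d.2 + 1 + 2)) = _ at h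
  rwa [e] at h

omit [Fintype U] [DecidableEq U] in
theorem Bx.Y5_opp (A : V.Bx) {u : U} {s : Bool} {d' : V.Tr × Fin 3}
    (h : V.IsOpp (⟨(u, s), ⟨0, A.w_pos _⟩⟩, 0) d') : d' = (⟨(u, !s), ⟨0, A.w_pos _⟩⟩, 0) := by
  obtain ⟨⟨F', n'⟩, k'⟩ := d'
  obtain ⟨h1, h2, h3⟩ := h
  simp only [A.ed_zero, A.sd_zero, A.o_zero] at h1 h2 h3
  obtain ⟨rfl, rfl⟩ := A.tile_uniq (F := F') (F' := (u, !s)) (k := k') (k' := 0) (n := n') (n' := 0)
    (by rw [h1, A.ed_zero]) (by rw [h2, A.sd_zero]) n'.2 (A.w_pos _) (by rw [h3, A.o_zero])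
  have h4 : n' = ⟨0, A.w_pos _⟩ := Fin.ext (by simp only; omega)
  rw [h4]

omit [Fintype U] [DecidableEq U] in
theorem Bx.Y5_base (A : V.Bx) {G : V.Geo} {Δ : FlatTri V.Tr} (hΔ : G.IsSec Δ) :
    ∃ b : U × Fin 4 → Δ.Surf, ∀ (F : U × Bool) k,
      Δ.vtx (⟨F, ⟨0, A.w_pos _⟩⟩, k) = b (V.lo F k) := by
  have h : ∀ u s, Δ.vtx (⟨(u, !s), ⟨0, A.w_pos _⟩⟩, 0) = Δ.vtx (⟨(u, s), ⟨0, A.w_pos _⟩⟩, 1) := by
    intro u s
    rw [← A.Y5_opp (hΔ.2 _), Y5_end]
    rfl
  refine ⟨fun p => ![Δ.vtx (⟨(p.1, false), ⟨0, A.w_pos _⟩⟩, 2),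
    Δ.vtx (⟨(p.1, false), ⟨0, A.w_pos _⟩⟩, 0), Δ.vtx (⟨(p.1, true), ⟨0, A.w_pos _⟩⟩, 2),
    Δ.vtx (⟨(p.1, false), ⟨0, A.w_pos _⟩⟩, 1)] p.2, ?_⟩
  rintro ⟨u, s⟩ k
  cases s <;> fin_cases k
  · rfl
  · rfl
  · rfl
  · exact h u false
  · exact (h u true).symm
  · rfl

theorem Y5_top : ∀ a : Fin 4, ∃ s k, topV s k = a := by decide

omit [Fintype U] [DecidableEq U] in
theorem Bx.exists_vert (A : V.Bx) {G : V.Geo} (hG : G.Ok) {Δ : FlatTri V.Tr} (hΔ : G.IsSec Δ)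
    {f : Δ.Surf ≃ₜ Δ.Surf} (hf : G.IsMap Δ f) : ∃ Vt : U × Fin 4 → ℤ → Δ.Surf,
      (∀ p j, f (Vt p j) = Vt p (j + 1)) ∧
      (∀ (F : U × Bool) (n : Fin (V.w F)) k, Δ.vtx (⟨F, n⟩, k) = Vt (V.lo F k) (-1 - (n : ℕ))) ∧
      ∀ F k j, Vt (V.lo F k) j = Vt (V.hi F k) (j + V.w F) := by
  obtain ⟨b, hb⟩ := A.Y5_base hΔ
  have hx : G.x ≠ 0 := (one_pos.trans hG.one_lt).ne'
  let Vt : U × Fin 4 → ℤ → Δ.Surf := fun p j => ((f.toEquiv : Equiv.Perm Δ.Surf) ^ (j + 1)) (b p)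
  have h1 : ∀ p j, f (Vt p j) = Vt p (j + 1) := by
    intro p j
    simp only [Vt]
    rw [add_comm (j + 1) 1, zpow_one_add]
    rfl
  have hm : ∀ (t : V.Tr) k, G.pos t k ∈ Δ.tri t := fun t k => by
    rw [← hΔ.1]
    exact vertex_mem (Δ.area_pos t) k
  have hv : ∀ (t : V.Tr) k, Δ.vtx (t, k) = Δ.pt t (G.pos t k) := fun t k => by
    rw [← hΔ.1]
    rfl
  have h2 : ∀ (F : U × Bool) k (n : ℕ) (hn : n < V.w F),
      Δ.vtx (⟨F, ⟨n, hn⟩⟩, k) = Vt (V.lo F k) (-1 - (n : ℕ)) := by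
    intro F k n
    induction n with
    | zero =>
      intro hn
      simpa [Vt] using hb F k
    | succ n ih =>
      intro hn
      apply f.injective
      have h3 := (hf.shift F ⟨n + 1, hn⟩ ⟨n, by omega⟩ rfl _ (hm ⟨F, ⟨n + 1, hn⟩⟩ k)).2
      have h4 : diag G.x (G.pos ⟨F, ⟨n + 1, hn⟩⟩ k) = G.pos ⟨F, ⟨n, by omega⟩⟩ k := by
        simp only [Geo.pos, diag_mul]
        congr 1
        field_simp
        ring
      rw [h1, hv, h3, h4, ← hv, ih]
      congr 1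
      push_cast
      ring
  refine ⟨Vt, h1, fun F n k => h2 F k n n.2, fun F k j => ?_⟩
  obtain ⟨s, k1, hs⟩ := Y5_top (V.hi F k).2
  have hw := A.w_pos F
  have h3 := hf.flip ((V.up F).1, s) F ⟨0, A.w_pos _⟩ ⟨V.w F - 1, by omega⟩ rfl
    (by simp only; omega) rfl _ (hm ⟨_, ⟨0, A.w_pos _⟩⟩ k1) _ (hm ⟨F, ⟨V.w F - 1, by omega⟩⟩ k) (by
      simp only [Geo.pos, diag_mul]
      rw [Nat.sub_add_cancel hw, A.bot_vertex hG, zero_add, pow_one, mul_inv_cancel₀ hx, diag_one,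
        hs]
      rfl)
  rw [← hv, ← hv, h2, h2, h1] at h3
  have h4 : V.lo ((V.up F).1, s) k1 = V.hi F k := Prod.ext rfl hs
  rw [h4] at h3
  have h5 := Y5_orb f.injective h1 h3.symm (j + V.w F)
  convert h5 using 2
  · push_cast [Nat.cast_sub hw]
    ring
  · push_cast
    ring

/-- The corner `p` at age `j` and the corner `q` at age `i` have the same label. -/
def Y5_R (V : Veer U Cu) (p : U × Fin 4) (j : ℤ) (q : U × Fin 4) (i : ℤ) : Prop :=
  V.cusp p.1 p.2 = V.cusp q.1 q.2 ∧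
    (V.per (V.cusp p.1 p.2) : ℤ) ∣ (V.pot p.1 p.2 - j) - (V.pot q.1 q.2 - i)

section
omit [Fintype U] [DecidableEq U]
variable {p q r : U × Fin 4} {i j l : ℤ}

theorem Y5_R.refl (p : U × Fin 4) (j : ℤ) : V.Y5_R p j p j := ⟨rfl, by simp⟩

theorem Y5_R.symm (h : V.Y5_R p j q i) : V.Y5_R q i p j :=
  ⟨h.1.symm, by rw [← h.1]; exact dvd_sub_comm.1 h.2⟩

theorem Y5_R.trans (h : V.Y5_R p j q i) (h' : V.Y5_R q i r l) : V.Y5_R p j r l := by
  refine ⟨h.1.trans h'.1, ?_⟩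
  have h1 := h'.2
  rw [← h.1] at h1
  simpa using dvd_add h.2 h1

theorem Y5_nx (F : U × Bool) (k : Fin 3) (hk : k + V.sh F ≠ 0) {e : Fin 3} (he : e ≠ 2) :
    V.hi F (k + e) = V.lo (V.nx F k).1 ((V.nx F k).2 + e) := by
  have h : ∀ (s : Bool) (a e : Fin 3), a ≠ 0 → e ≠ 2 →
      botV s (a + e) = if a = 1 then topV (!s) (2 + e) else topV s (1 + e) := by decide
  unfold hi lo nx
  rw [add_right_comm, h _ _ _ hk he]
  split_ifs <;> rfl

theorem Bx.Y5_age (A : V.Bx) (F : U × Bool) (k e : Fin 3) (he : e ≠ 2) (j : ℤ) :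
    V.Y5_R (V.lo F (k + e)) j (V.ed F k, topV (V.sd F k) e) (j + V.o F k) := by
  induction hn : V.o F k using Nat.strong_induction_on generalizing F k j with
  | _ n ih =>
    subst hn
    by_cases hk : k = 0
    · subst hk
      rw [A.ed_zero, A.sd_zero, A.o_zero, zero_add, Nat.cast_zero, add_zero]
      exact Y5_R.refl _ _
    · obtain ⟨F', k', h1, h2⟩ := A.pred F k hk
      obtain ⟨s1, s2, s3⟩ := A.step F' k' h1
      have h3 := Y5_nx F' k' h1 he
      rw [h2] at s1 s2 s3 h3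
      simp only at s1 s2 s3 h3
      have hw := A.w_pos F'
      have h4 := ih (V.o F' k') (by omega) F' k' (j + V.w F') rfl
      have h5 : V.Y5_R (V.lo F' (k' + e)) (j + V.w F') (V.hi F' (k' + e)) j := by
        refine ⟨A.cusp_lnk _ _, ?_⟩
        convert A.disc_dvd F' (k' + e) using 1
        unfold disc
        ring
      rw [← h3, s1, s2, s3]
      convert h5.symm.trans h4 using 1
      push_cast
      ring

end

omit [Fintype U] [DecidableEq U] in
theorem Bx.sameLab_opp (A : V.Bx) {d d' : V.Tr × Fin 3} (h : V.IsOpp d d') :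
    V.SameLab (d.1, d.2 + 1) d' := by
  obtain ⟨h1, h2, h3⟩ := h
  have e1 := A.Y5_age d.1.1 d.2 1 (by decide) (d.1.2 : ℕ)
  have e2 := A.Y5_age d'.1.1 d'.2 0 (by decide) (d'.1.2 : ℕ)
  have e3 : ∀ s, topV (!s) 0 = topV s 1 := by decide
  have e4 : ((d'.1.2 : ℕ) : ℤ) + V.o d'.1.1 d'.2 = (d.1.2 : ℕ) + V.o d.1.1 d.2 := by omega
  rw [h1, h2, e3, e4, add_zero] at e2
  exact e1.trans e2.symm

omit [Fintype U] [DecidableEq U] in
theorem Y5_tree {X : Type} {Vt : U × Fin 4 → ℤ → X}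
    (h : ∀ F k j, Vt (V.lo F k) j = Vt (V.hi F k) (j + V.w F)) {p q : U × Fin 4}
    (e : Relation.EqvGen V.Lnk p q) (j : ℤ) :
    Vt p j = Vt q (j + V.pot p.1 p.2 - V.pot q.1 q.2) := by
  induction e generalizing j with
  | rel p q e =>
    obtain ⟨F, k, rfl, rfl, e⟩ := e
    rw [h]
    congr 1
    unfold disc at e
    linarith
  | refl p => rw [add_sub_cancel_right]
  | symm p q _ ih =>
    rw [ih]
    congr 1
    ring
  | trans p q r _ _ ih ih' =>
    rw [ih, ih']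
    congr 1
    ring

omit [Fintype U] [DecidableEq U] in
theorem Bx.Y5_per (A : V.Bx) {X : Type} {Vt : U × Fin 4 → ℤ → X}
    (h : ∀ F k j, Vt (V.lo F k) j = Vt (V.hi F k) (j + V.w F)) (c : Cu) {j j' : ℤ}
    (e : (V.per c : ℤ) ∣ j - j') : Vt (V.root c) j = Vt (V.root c) j' := by
  let H : AddSubgroup ℤ :=
    { carrier := {z | ∀ j, Vt (V.root c) (j + z) = Vt (V.root c) j}
      zero_mem' := fun j => by rw [add_zero]
      add_mem' := fun {a b} ha hb j => by rw [← add_assoc, hb, ha]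
      neg_mem' := fun {a} ha j => by rw [← ha, neg_add_cancel_right] }
  have h1 : (V.per c : ℤ) ∈ H := by
    refine (AddSubgroup.closure_le H).2 ?_ (A.gen c)
    rintro _ ⟨F, k, hc, rfl⟩ i
    have t1 := Y5_tree h (A.tree (V.lo F k))
    have t2 := Y5_tree h (A.tree (V.hi F k))
    rw [← A.cusp_lnk, hc] at t2
    rw [hc] at t1
    have t3 := h F k (i + V.pot (V.root c).1 (V.root c).2 - V.pot (V.hi F k).1 (V.hi F k).2 - V.w F)
    rw [t1, t2] at t3
    convert t3 using 2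
    · unfold disc
      ring
    · ring
  obtain ⟨t, ht⟩ := e
  have h2 : j - j' ∈ H := by
    rw [ht, mul_comm]
    exact H.zsmul_mem h1 t
  have h3 := h2 j'
  rwa [add_sub_cancel] at h3

theorem Bx.vtx_iff (A : V.Bx) {G : V.Geo} (hG : G.Ok) {Δ : FlatTri V.Tr} (hΔ : G.IsSec Δ)
    {f : Δ.Surf ≃ₜ Δ.Surf} (hf : G.IsMap Δ f) (d d' : V.Tr × Fin 3) :
    Δ.vtx d = Δ.vtx d' ↔ V.SameLab d d' := by
  constructor
  · intro h
    obtain ⟨i, -, rfl⟩ := ((Δ.vtx_eq d d').1 h).exists_pow_eq'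
    clear h
    induction i with
    | zero => exact Y5_R.refl (V.lo d.1.1 d.2) _
    | succ i ih =>
      rw [pow_succ', Equiv.Perm.mul_apply]
      generalize (Δ.rotV ^ i) d = d1 at ih
      have h1 := A.sameLab_opp (hΔ.2 (d1.1, d1.2 + 2))
      have e : ∀ k : Fin 3, k + 2 + 1 = k := by decide
      simp only [e] at h1
      exact Y5_R.trans (p := V.lo d.1.1 d.2) (q := V.lo d1.1.1 d1.2)
        (r := V.lo (Δ.rotV d1).1.1 (Δ.rotV d1).2) ih h1
  · rintro ⟨h1, h2⟩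
    obtain ⟨Vt, -, hv, hl⟩ := A.exists_vert hG hΔ hf
    obtain ⟨⟨F, n⟩, k⟩ := d
    obtain ⟨⟨F', n'⟩, k'⟩ := d'
    rw [hv, hv, Y5_tree hl (A.tree (V.lo F k)), Y5_tree hl (A.tree (V.lo F' k'))]
    simp only [lo] at h1 h2 ⊢
    rw [← h1]
    refine A.Y5_per hl _ ?_
    convert h2 using 1
    ring

end Veer
end Pool.Agent.Work.MP_563a32_gt
end

-- merged part: Pool.Agent.Work.MP_563a32_gt.Y6
section
/-! The vertex set as a permutation, and the components of the section.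

Plan. `orbit`: put `v c j = Vt (root c) j` with `Vt` from `exists_vert`. As in `vtx_iff` every
vertex is some `v c j`. Conversely the finite set of vertices is mapped into itself by `f` (use the
three properties of `Vt`: every corner `p` is some `lo F k` and some `hi F k`), so onto itself, and
contains one `v c j` for each `c`. The image of a vertex with label `ℓ` has label `ℓ + 1`, so with
`vtx_iff` one gets the criterion for `v c j = v c' j'`. `exists_comp`: `κ` is the `lift` of the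
constants `pot0 F.1 - 1 - n` in `ZMod m` (discrete topology); by induction on `o` with `pred`,
`step`, `pot0_dvd` this constant is `pot0 (ed F k) - 1 - (o + n)`, the same on both sides of an edge.
`κ (f y) = κ y + 1` by `shift`, `cover`, `flip`, `pot0_dvd`. Connectedness: let `cc u j` be the
connected component of `Vt (u, a) j`, independent of `a` (corners of a triangle, transported by
powers of `f`); `cc F.1 j = cc (up F).1 (j + w F)`; `tree0` gives
`cc u j = cc u0 (j + pot0 u - pot0 u0)`; the cusp with `mc c = 1` gives the period `m`. Every point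
of `⟨F, n⟩` lies in `cc F.1 (- 1 - n)`, so a fibre of `κ` lies in one component; being clopen and
nonempty it is that component. -/

namespace Pool.Agent.Work.MP_563a32_gt
namespace Veer
open Finset

variable {U Cu : Type} [Fintype U] [DecidableEq U] {V : Veer U Cu}

section
omit [Fintype U] [DecidableEq U]

theorem Y6_top : ∀ a : Fin 4, ∃ s k k', topV s k = a ∧ topV s k' = 1 := by decide

theorem Y6_of {a b c : ℤ} (h : a ∣ b) (e : c = b) : a ∣ c := e ▸ h

theorem Y6_bot : ∀ a : Fin 4, ∃ s k, botV s k = a := by decide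

theorem Y6_hi (V : Veer U Cu) (p : U × Fin 4) : ∃ F k, V.hi F k = p := by
  obtain ⟨s, l, h⟩ := Y6_bot p.2
  refine ⟨V.up⁻¹ (p.1, s), l - V.sh (V.up⁻¹ (p.1, s)), ?_⟩
  simp only [hi, Equiv.Perm.coe_inv, Equiv.apply_symm_apply, sub_add_cancel, h]

/-- A set of integers closed under periods is a subgroup. -/
def Y6_sub {Y : Type} (g : ℤ → Y) : AddSubgroup ℤ where
  carrier := {z | ∀ j, g (j + z) = g j}
  add_mem' {a b} ha hb j := by rw [← add_assoc, hb, ha]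
  zero_mem' j := by rw [add_zero]
  neg_mem' {a} ha j := by
    have := ha (j + -a)
    rw [neg_add_cancel_right] at this
    exact this.symm

theorem Y6_dvd {Y : Type} {g : ℤ → Y} {z : ℤ} (h : ∀ j, g (j + z) = g j) {j j' : ℤ}
    (hd : z ∣ j - j') : g j = g j' := by
  obtain ⟨t, ht⟩ := hd
  have h1 : t • z ∈ Y6_sub g := (Y6_sub g).zsmul_mem (show z ∈ Y6_sub g from h) t
  have h2 := h1 j'
  rwa [smul_eq_mul, mul_comm, ← ht, add_sub_cancel] at h2

variable {Y : Type} {Vt : U × Fin 4 → ℤ → Y}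

theorem Bx.Y6_tree (A : V.Bx) (h3 : ∀ F k j, Vt (V.lo F k) j = Vt (V.hi F k) (j + V.w F))
    (p : U × Fin 4) {c : Cu} (hc : V.cusp p.1 p.2 = c) (j : ℤ) :
    Vt p (j - V.pot p.1 p.2) = Vt (V.root c) (j - V.pot (V.root c).1 (V.root c).2) := by
  have key : ∀ p p', Relation.EqvGen V.Lnk p p' →
      Vt p (j - V.pot p.1 p.2) = Vt p' (j - V.pot p'.1 p'.2) := by
    intro p p' h
    induction h with
    | rel p p' h =>
      obtain ⟨F, k, rfl, rfl, h⟩ := h
      rw [h3]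
      congr 1
      unfold disc at h
      omega
    | refl => rfl
    | symm _ _ _ ih => exact ih.symm
    | trans _ _ _ _ _ ih ih' => exact ih.trans ih'
  subst hc
  exact key _ _ (A.tree p)

theorem Bx.Y6_per (A : V.Bx) (h3 : ∀ F k j, Vt (V.lo F k) j = Vt (V.hi F k) (j + V.w F))
    (c : Cu) {j j' : ℤ} (hd : (V.per c : ℤ) ∣ j - j') : Vt (V.root c) j = Vt (V.root c) j' := by
  refine Y6_dvd (g := Vt (V.root c)) ?_ hd
  refine (AddSubgroup.closure_le (Y6_sub (Vt (V.root c)))).2 ?_ (A.gen c)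
  rintro z ⟨F, k, hc, rfl⟩ j
  have e1 := A.Y6_tree h3 _ hc (j + V.disc F k + V.pot (V.root c).1 (V.root c).2)
  have e2 := A.Y6_tree h3 _ ((A.cusp_lnk F k).symm.trans hc) (j + V.pot (V.root c).1 (V.root c).2)
  rw [add_sub_cancel_right] at e1 e2
  rw [← e1, ← e2, h3]
  congr 1
  unfold disc
  ring

theorem Bx.Y6_lab (A : V.Bx) (c : Cu) (j : ℤ) : ∃ (F : U × Bool) (n : Fin (V.w F)) (k : Fin 3),
    V.cusp F.1 (topV F.2 k) = c ∧ (V.per c : ℤ) ∣ V.pot F.1 (topV F.2 k) - (n : ℕ) - j := by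
  have st : ∀ j : ℤ, (∃ (F : U × Bool) (n : Fin (V.w F)) (k : Fin 3),
      V.cusp F.1 (topV F.2 k) = c ∧ (V.per c : ℤ) ∣ V.pot F.1 (topV F.2 k) - (n : ℕ) - j) →
      ∃ (F : U × Bool) (n : Fin (V.w F)) (k : Fin 3), V.cusp F.1 (topV F.2 k) = c ∧
        (V.per c : ℤ) ∣ V.pot F.1 (topV F.2 k) - (n : ℕ) - (j + 1) := by
    rintro j ⟨F, ⟨n, hn⟩, k, hc, hd⟩
    rcases n with _ | n
    · obtain ⟨F', k', h⟩ := V.Y6_hi (F.1, topV F.2 k)
      have hw := A.w_pos F'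
      have h1 := A.cusp_lnk F' k'
      have h2 := A.disc_dvd F' k'
      rw [h1] at h2
      unfold disc at h2
      rw [h] at h1 h2
      refine ⟨F', ⟨V.w F' - 1, by omega⟩, k', h1.trans hc, ?_⟩
      rw [hc] at h2
      refine Y6_of (dvd_add hd h2) ?_
      simp only [lo, Nat.cast_sub hw]
      push_cast
      ring
    · refine ⟨F, ⟨n, by omega⟩, k, hc, ?_⟩
      refine Y6_of (hd) ?_
      push_cast
      ring
  obtain ⟨s, k, -, hk, -⟩ := Y6_top (V.root c).2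
  set j₀ := V.pot (V.root c).1 (V.root c).2
  have h0 : ∀ i : ℕ, ∃ (F : U × Bool) (n : Fin (V.w F)) (k : Fin 3), V.cusp F.1 (topV F.2 k) = c ∧
      (V.per c : ℤ) ∣ V.pot F.1 (topV F.2 k) - (n : ℕ) - (j₀ + i) := by
    intro i
    induction i with
    | zero =>
      refine ⟨((V.root c).1, s), ⟨0, A.w_pos _⟩, k, by rw [hk]; exact A.cusp_root c, ?_⟩
      simp [hk, j₀]
    | succ i ih =>
      have := st _ ih
      rwa [add_assoc, ← Nat.cast_succ] at this
  have hp : (0 : ℤ) < V.per c := by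
    have := Nat.mul_pos A.m_pos (A.mc_pos c)
    exact_mod_cast this
  obtain ⟨F, n, k, hc, hd⟩ := h0 ((j - j₀) % V.per c).toNat
  refine ⟨F, n, k, hc, ?_⟩
  rw [Int.toNat_of_nonneg (Int.emod_nonneg _ hp.ne')] at hd
  have h1 : (V.per c : ℤ) ∣ (j - j₀) % V.per c - (j - j₀) := (Int.mod_modEq _ _).symm.dvd
  refine Y6_of (dvd_add hd h1) ?_
  ring

theorem Bx.Y6_pot (A : V.Bx) (N : ℕ) : ∀ F k, V.o F k = N →
    (V.m : ℤ) ∣ V.pot0 F.1 - V.pot0 (V.ed F k) + V.o F k := by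
  induction N using Nat.strong_induction_on with
  | _ N ih =>
    intro F k hN
    by_cases hk : k = 0
    · subst hk
      simp [A.ed_zero, A.o_zero]
    obtain ⟨F', k', h1, h2⟩ := A.pred F k hk
    obtain ⟨e1, -, e2⟩ := A.step F' k' h1
    have e3 : (V.nx F' k').1.1 = (V.up F').1 := by
      unfold nx
      split_ifs <;> rfl
    rw [h2] at e1 e2 e3
    simp only at e1 e2 e3
    have hw := A.w_pos F'
    have h3 := ih _ (by omega) F' k' rfl
    rw [e1, e2, e3]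
    refine Y6_of (dvd_sub h3 (A.pot0_dvd F')) ?_
    push_cast
    ring

end

theorem Bx.orbit (A : V.Bx) {G : V.Geo} (hG : G.Ok) {Δ : FlatTri V.Tr} (hΔ : G.IsSec Δ)
    {f : Δ.Surf ≃ₜ Δ.Surf} (hf : G.IsMap Δ f) : ∃ v : Cu → ℤ → Δ.Surf,
      (∀ c j, f (v c j) = v c (j + 1)) ∧
      (∀ c c' j j', v c j = v c' j' ↔ c = c' ∧ (V.per c : ℤ) ∣ j - j') ∧
      (∀ c j, ∃ d, v c j = Δ.vtx d) ∧
      ∀ d : V.Tr × Fin 3, ∃ j, Δ.vtx d = v (V.cusp d.1.1.1 (topV d.1.1.2 d.2)) j := by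
  obtain ⟨Vt, h1, h2, h3⟩ := A.exists_vert hG hΔ hf
  have h4 : ∀ d : V.Tr × Fin 3, Δ.vtx d = Vt (V.root (V.cusp d.1.1.1 (topV d.1.1.2 d.2)))
      (V.pot d.1.1.1 (topV d.1.1.2 d.2) - (d.1.2 : ℕ) - 1 -
        V.pot (V.root (V.cusp d.1.1.1 (topV d.1.1.2 d.2))).1
          (V.root (V.cusp d.1.1.1 (topV d.1.1.2 d.2))).2) := by
    rintro ⟨⟨F, n⟩, k⟩
    refine (h2 F n k).trans (Eq.trans ?_ (A.Y6_tree h3 (V.lo F k) rfl _))
    congr 1
    simp only [lo]
    ring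
  have h5 : ∀ c (j : ℤ), ∃ d : V.Tr × Fin 3, V.cusp d.1.1.1 (topV d.1.1.2 d.2) = c ∧
      (V.per c : ℤ) ∣ V.pot d.1.1.1 (topV d.1.1.2 d.2) - (d.1.2 : ℕ) -
        (j + 1 + V.pot (V.root c).1 (V.root c).2) ∧ Vt (V.root c) j = Δ.vtx d := by
    intro c j
    obtain ⟨F, n, k, hc, hd⟩ := A.Y6_lab c (j + 1 + V.pot (V.root c).1 (V.root c).2)
    refine ⟨(⟨F, n⟩, k), hc, hd, ?_⟩
    rw [h4]
    simp only [hc]
    refine (A.Y6_per h3 c ?_).symm
    refine Y6_of (hd) ?_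
    ring
  refine ⟨fun c j => Vt (V.root c) j, fun c j => h1 _ _, fun c c' j j' => ⟨fun h => ?_, ?_⟩,
    fun c j => ?_, fun d => ⟨_, h4 d⟩⟩
  · obtain ⟨d, c1, d1, e1⟩ := h5 c j
    obtain ⟨d', c2, d2, e2⟩ := h5 c' j'
    obtain ⟨c3, d3⟩ := (A.vtx_iff hG hΔ hf d d').1 (e1.symm.trans (h.trans e2))
    have hc : c = c' := c1.symm.trans (c3.trans c2)
    subst hc
    refine ⟨rfl, ?_⟩
    rw [c1] at d3
    refine Y6_of (dvd_add (dvd_sub d3 d1) d2) ?_
    ring
  · rintro ⟨rfl, hd⟩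
    exact A.Y6_per h3 c hd
  · obtain ⟨d, -, -, e⟩ := h5 c j
    exact ⟨d, e⟩

theorem Bx.exists_comp (A : V.Bx) {G : V.Geo} (hG : G.Ok) {Δ : FlatTri V.Tr} (hΔ : G.IsSec Δ)
    {f : Δ.Surf ≃ₜ Δ.Surf} (hf : G.IsMap Δ f) : ∃ κ : Δ.Surf → ZMod V.m,
      (∀ y, κ (f y) = κ y + 1) ∧ IsClopen (κ ⁻¹' {0}) ∧ IsConnected (κ ⁻¹' {0}) := by
  obtain ⟨Vt, h1, h2, h3⟩ := A.exists_vert hG hΔ hf
  have : NeZero V.m := ⟨by have := A.m_pos; omega⟩
  obtain ⟨κ, hκ, k1⟩ := Δ.lift (Y := ZMod V.m)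
    (fun t _ => ((V.pot0 t.1.1 - 1 - (t.2 : ℕ) : ℤ) : ZMod V.m)) (fun _ => continuousOn_const)
    (fun d z _ => by
      obtain ⟨e1, -, e2⟩ := hΔ.2 d
      have a1 := A.Y6_pot _ d.1.1 d.2 rfl
      have a2 := A.Y6_pot _ (Δ.opp d).1.1 (Δ.opp d).2 rfl
      rw [e1] at a2
      rw [ZMod.intCast_eq_intCast_iff_dvd_sub]
      refine Y6_of (dvd_sub a2 a1) ?_
      have e3 : ((V.o (Δ.opp d).1.1 (Δ.opp d).2 : ℕ) : ℤ) + ((Δ.opp d).1.2 : ℕ) =
          (V.o d.1.1 d.2 : ℕ) + (d.1.2 : ℕ) := by exact_mod_cast e2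
      linarith)
  have k2 : ∀ y, κ (f y) = κ y + 1 := by
    intro y
    obtain ⟨⟨F, ⟨n, hn⟩⟩, z, hz, rfl⟩ := Δ.pt_surj y
    rw [k1 _ _ hz]
    rcases n with _ | n
    · obtain ⟨F', n', a1, a2, z', hz', a3⟩ := hf.cover F _ rfl z hz
      rw [hf.flip F F' _ n' rfl a1 a2 z hz z' hz' a3, k1 _ _ hz',
        show ∀ a : ℤ, (a : ZMod V.m) + 1 = ((a + 1 : ℤ) : ZMod V.m) from fun a => by push_cast; rfl,
        eq_comm, ZMod.intCast_eq_intCast_iff_dvd_sub]
      refine Y6_of (A.pot0_dvd F') ?_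
      rw [a2]
      simp only
      omega
    · obtain ⟨a1, a2⟩ := hf.shift F ⟨n + 1, hn⟩ ⟨n, by omega⟩ rfl z hz
      rw [a2, k1 _ _ a1]
      push_cast
      ring
  have hcl : IsClopen (κ ⁻¹' {0}) := (isClopen_discrete _).preimage hκ
  refine ⟨κ, k2, hcl, ?_⟩
  have c1 : ∀ (g : Δ.Surf ≃ₜ Δ.Surf) y y', connectedComponent y = connectedComponent y' →
      connectedComponent (g y) = connectedComponent (g y') := fun g y y' h =>
    connectedComponent_eq_iff_mem.2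
      (g.continuous.mapsTo_connectedComponent y' (connectedComponent_eq_iff_mem.1 h))
  have c2 : ∀ t, ∀ z ∈ Δ.tri t, ∀ z' ∈ Δ.tri t,
      connectedComponent (Δ.pt t z) = connectedComponent (Δ.pt t z') := fun t z hz z' hz' =>
    connectedComponent_eq_iff_mem.2 (((convex_triS _).isPreconnected.image _
      (Δ.continuousOn_pt t)).subset_connectedComponent ⟨z', hz', rfl⟩ ⟨z, hz, rfl⟩)
  have c3 : ∀ F k k' j, connectedComponent (Vt (V.lo F k) j) =
      connectedComponent (Vt (V.lo F k') j) := by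
    intro F k k' j
    induction j using Int.inductionOn' (b := -1) with
    | zero =>
      have e := h2 F ⟨0, A.w_pos F⟩
      simp only [Nat.cast_zero, sub_zero] at e
      rw [← e, ← e]
      exact c2 _ _ (vertex_mem (Δ.area_pos _) _) _ (vertex_mem (Δ.area_pos _) _)
    | succ j _ ih =>
      rw [← h1, ← h1]
      exact c1 f _ _ ih
    | pred j _ ih =>
      have e : ∀ p, Vt p (j - 1) = f.symm (Vt p j) := fun p => by
        rw [eq_comm, Homeomorph.symm_apply_eq, h1, sub_add_cancel]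
      rw [e, e]
      exact c1 f.symm _ _ ih
  have c4 : ∀ p j, connectedComponent (Vt p j) = connectedComponent (Vt (p.1, 1) j) := by
    rintro ⟨u, a⟩ j
    obtain ⟨s, k, k', e1, e2⟩ := Y6_top a
    have := c3 (u, s) k k' j
    simpa only [lo, e1, e2] using this
  have c5 : ∀ (j : ℤ) u u', Relation.EqvGen V.Lnk0 u u' →
      connectedComponent (Vt (u, 1) (j - V.pot0 u)) =
        connectedComponent (Vt (u', 1) (j - V.pot0 u')) := by
    intro j u u' h
    induction h with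
    | rel u u' h =>
      obtain ⟨s, rfl, h⟩ := h
      have e1 := c4 (V.lo (u, s) 0) (j - V.pot0 u)
      rw [h3, c4] at e1
      refine e1.symm.trans ?_
      congr 2
      omega
    | refl => rfl
    | symm _ _ _ ih => exact ih.symm
    | trans _ _ _ _ _ ih ih' => exact ih.trans ih'
  obtain ⟨c, c', hc⟩ := A.mc_cop
  have c8 : ∀ (e : Cu) (j : ℤ), connectedComponent (Vt (V.u0, 1) (j + V.per e - V.pot0 V.u0)) =
      connectedComponent (Vt (V.u0, 1) (j - V.pot0 V.u0)) := by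
    intro e j
    rw [← c5 _ _ _ (A.tree0 (V.root e).1), ← c5 _ _ _ (A.tree0 (V.root e).1), ← c4, ← c4]
    congr 1
    refine A.Y6_per h3 e (Y6_of (dvd_refl _) ?_)
    ring
  have c9 : ∀ j j' : ℤ, (V.m : ℤ) ∣ j - j' →
      connectedComponent (Vt (V.u0, 1) (j - V.pot0 V.u0)) =
        connectedComponent (Vt (V.u0, 1) (j' - V.pot0 V.u0)) := by
    intro j j' hd
    have m1 : ∀ e : Cu, (V.per e : ℤ) ∈
        Y6_sub fun j => connectedComponent (Vt (V.u0, 1) (j - V.pot0 V.u0)) := fun e j => c8 e j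
    have m2 : (V.m : ℤ) ∈
        Y6_sub fun j => connectedComponent (Vt (V.u0, 1) (j - V.pot0 V.u0)) := by
      obtain ⟨a, b, hab⟩ := Nat.isCoprime_iff_coprime.2 hc
      have := add_mem (AddSubgroup.zsmul_mem _ (m1 c) a) (AddSubgroup.zsmul_mem _ (m1 c') b)
      convert this using 1
      simp only [per, smul_eq_mul]
      push_cast
      linear_combination (-(V.m : ℤ)) * hab
    exact Y6_dvd (g := fun j => connectedComponent (Vt (V.u0, 1) (j - V.pot0 V.u0))) m2 hd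
  have c6 : ∀ y, κ y = 0 → connectedComponent y =
      connectedComponent (Vt (V.u0, 1) (0 - V.pot0 V.u0)) := by
    intro y hy
    obtain ⟨⟨F, n⟩, z, hz, rfl⟩ := Δ.pt_surj y
    rw [k1 _ _ hz, ZMod.intCast_zmod_eq_zero_iff_dvd] at hy
    rw [← c9 (V.pot0 F.1 - 1 - (n : ℕ)) 0 (by simpa using hy), ← c5 _ _ _ (A.tree0 F.1),
      c2 _ _ hz _ (vertex_mem (Δ.area_pos _) 0)]
    refine (congrArg connectedComponent (h2 F n 0)).trans ((c4 _ _).trans ?_)
    congr 2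
    ring
  have c7 : ∃ y, κ y = 0 := by
    have e : ∀ (i : ℕ) y, κ (f^[i] y) = κ y + i := fun i y => by
      induction i with
      | zero => simp
      | succ i ih => rw [Function.iterate_succ_apply', k2, ih, Nat.cast_succ, add_assoc]
    refine ⟨f^[(-κ (Vt (V.root c) 0)).val] (Vt (V.root c) 0), ?_⟩
    rw [e, ZMod.natCast_zmod_val, add_neg_cancel]
  obtain ⟨y, hy⟩ := c7
  have e : κ ⁻¹' {0} = connectedComponent y :=
    Set.Subset.antisymm (fun y' hy' => connectedComponent_eq_iff_mem.1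
      ((c6 y' hy').trans (c6 y hy).symm)) (hcl.connectedComponent_subset hy)
  rw [e]
  exact isConnected_connectedComponent

end Veer
end Pool.Agent.Work.MP_563a32_gt
end

-- merged part: Pool.Agent.Work.MP_563a32_gt.Y7
section
/-! The pseudo-Anosov map of a weighted veering triangulation.

Plan. Take `G`, `Δ`, `f`, `Φ`, `v`, `κ` from `exists_geo`, `exists_sec`, `exists_map`,
`exists_flat`, `orbit`, `exists_comp` (with `compactSpace`, `t2Space`). The singular set is the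
disjoint union over `c` of the `per c` points `v c j`, `0 ≤ j < per c`, and `f` preserves it. By
`prongs_map` the number of prongs `p c` is constant over `c`, and summing the formula of
`exists_flat` over these points counts the darts `(⟨F, n⟩, 2)` of the cusp, so
`per c * p c = prt c`. As `κ (v c j) = κ (v c 0) + j` and `per c = m * mc c`, exactly `mc c` of
them lie in `κ ⁻¹' {0}`. `∑ c, prt c = ∑ F, w F`. The punctures are the vertices over the cusps in
`Pn`. Apply `mem_spectrum` (`κ (f^[m] y) = κ y`). -/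

namespace Pool.Agent.Work.MP_563a32_gt
namespace Veer
open Finset

variable {U Cu : Type} [Fintype U] [DecidableEq U] [Fintype Cu] [DecidableEq Cu] {V : Veer U Cu}

theorem Y7_count {m : ℕ} (hm : 1 ≤ m) (a : ZMod m) (k : ℕ) :
    ((range (m * k)).filter fun j : ℕ => a + j = 0).card = k := by
  have : NeZero m := ⟨by omega⟩
  induction k with
  | zero => simp
  | succ k ih =>
    rw [card_filter] at ih ⊢
    rw [Nat.mul_succ, sum_range_add, ih]
    congr 1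
    have h : ∀ j ∈ range m, (if a + ((m * k + j : ℕ) : ZMod m) = 0 then 1 else 0) =
        if j = (-a).val then 1 else 0 := by
      intro j hj
      have e : ((m * k + j : ℕ) : ZMod m) = j := by simp
      rw [e]
      by_cases h1 : j = (-a).val
      · rw [if_pos h1, if_pos]
        rw [h1, ZMod.natCast_zmod_val, add_neg_cancel]
      · rw [if_neg h1, if_neg]
        intro h2
        apply h1
        rw [← eq_neg_of_add_eq_zero_right h2, ZMod.val_cast_of_lt (mem_range.1 hj)]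
    rw [sum_congr rfl h, sum_ite_eq', if_pos (mem_range.2 (ZMod.val_lt _))]

section Orb
variable {S C : Type} [DecidableEq S] (v : C → ℤ → S) (per : C → ℕ)

/-- the points over a cusp -/
def Y7_orb (c : C) : Finset S := (range (per c)).image fun j : ℕ => v c j

variable {v per}

theorem Y7_mem (hp : ∀ c, 0 < per c)
    (hv : ∀ c c' j j', v c j = v c' j' ↔ c = c' ∧ (per c : ℤ) ∣ j - j') {c : C} {y : S} :
    y ∈ Y7_orb v per c ↔ ∃ j, y = v c j := by
  rw [Y7_orb, mem_image]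
  constructor
  · rintro ⟨j, -, rfl⟩
    exact ⟨j, rfl⟩
  · rintro ⟨j, rfl⟩
    have h0 : (0 : ℤ) < per c := by exact_mod_cast hp c
    have h1 := Int.emod_nonneg j h0.ne'
    have h2 := Int.emod_lt_of_pos j h0
    refine ⟨(j % per c).toNat, mem_range.2 (by omega), (hv _ _ _ _).2 ⟨rfl, ?_⟩⟩
    rw [Int.toNat_of_nonneg h1]
    exact ⟨-(j / per c), by rw [Int.emod_def]; ring⟩

omit [DecidableEq S] in
theorem Y7_inj (hv : ∀ c c' j j', v c j = v c' j' ↔ c = c' ∧ (per c : ℤ) ∣ j - j') (c : C) :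
    Set.InjOn (fun j : ℕ => v c j) (range (per c) : Finset ℕ) := by
  intro i hi j hj h
  have h1 := ((hv _ _ _ _).1 h).2
  have h2 := mem_range.1 (mem_coe.1 hi)
  have h3 := mem_range.1 (mem_coe.1 hj)
  have h4 := Int.eq_zero_of_abs_lt_dvd h1 (abs_lt.2 ⟨by omega, by omega⟩)
  omega

theorem Y7_sum {m : ℕ} (hm : 1 ≤ m) {mc : C → ℕ} (hper : ∀ c, per c = m * mc c)
    (hp : ∀ c, 0 < per c)
    (hv : ∀ c c' j j', v c j = v c' j' ↔ c = c' ∧ (per c : ℤ) ∣ j - j') {κ : S → ZMod m}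
    (hκ : ∀ c j, κ (v c (j + 1)) = κ (v c j) + 1) (Pn : Finset C) {X : Finset S}
    (hX : ∀ y, y ∈ X ↔ (∃ c ∈ Pn, ∃ j, y = v c j) ∧ κ y = 0) (φ : S → ℤ) (q : C → ℤ)
    (hq : ∀ c j, φ (v c j) = q c) : ∑ y ∈ X, φ y = ∑ c ∈ Pn, mc c * q c := by
  have e : X = Pn.biUnion fun c => (Y7_orb v per c).filter fun y => κ y = 0 := by
    ext y
    simp only [hX, mem_biUnion, mem_filter, Y7_mem hp hv]
    constructor
    · rintro ⟨⟨c, h1, h2⟩, h3⟩
      exact ⟨c, h1, h2, h3⟩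
    · rintro ⟨c, h1, h2, h3⟩
      exact ⟨⟨c, h1, h2⟩, h3⟩
  rw [e, sum_biUnion]
  · refine sum_congr rfl fun c _ => ?_
    have h1 : ∀ y ∈ (Y7_orb v per c).filter fun y => κ y = 0, φ y = q c := by
      intro y hy
      obtain ⟨j, rfl⟩ := (Y7_mem hp hv).1 (mem_filter.1 hy).1
      exact hq c j
    rw [sum_congr rfl h1, sum_const, nsmul_eq_mul]
    have h2 : ∀ j : ℕ, κ (v c j) = κ (v c 0) + j := by
      intro j
      induction j with
      | zero => simp
      | succ j ih =>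
        push_cast
        rw [hκ, ih, add_assoc]
    have h3 : ((Y7_orb v per c).filter fun y => κ y = 0).card = mc c := by
      rw [Y7_orb, filter_image, card_image_of_injOn ((Y7_inj hv c).mono (coe_subset.2
        (filter_subset _ _))), ← Y7_count hm (κ (v c 0)) (mc c), hper]
      refine congrArg card (filter_congr fun j _ => ?_)
      rw [h2]
    rw [h3]
  · intro c _ c' _ hne
    refine disjoint_left.2 fun y h1 h2 => hne ?_
    obtain ⟨j, rfl⟩ := (Y7_mem hp hv).1 (mem_filter.1 h1).1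
    obtain ⟨j', h⟩ := (Y7_mem hp hv).1 (mem_filter.1 h2).1
    exact ((hv _ _ _ _).1 h).1

end Orb

omit [DecidableEq U] [Fintype Cu] in
theorem Y7_darts (V : Veer U Cu) (c : Cu) {X : Finset (V.Tr × Fin 3)}
    (hX : ∀ d, d ∈ X ↔ d.2 = 2 ∧ V.cusp d.1.1.1 (topV d.1.1.2 d.2) = c) : X.card = V.prt c := by
  have e : X = ((univ.filter fun F : U × Bool => V.cusp F.1 (topV F.2 2) = c).sigma
      fun F => (univ : Finset (Fin (V.w F)))) ×ˢ ({2} : Finset (Fin 3)) := by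
    ext ⟨⟨F, n⟩, k⟩
    simp only [hX, mem_product, mem_sigma, mem_filter, mem_univ, true_and, and_true, mem_singleton]
    constructor
    · rintro ⟨rfl, h⟩
      exact ⟨h, rfl⟩
    · rintro ⟨h, rfl⟩
      exact ⟨rfl, h⟩
  rw [e, card_product, card_singleton, mul_one, card_sigma, prt]
  simp

theorem Bx.realise (A : V.Bx) (Pn : Finset Cu) (h3 : ∀ c, c ∉ Pn → 3 * V.per c ≤ V.prt c)
    {g n : ℕ} (hg : ∑ F, V.w F + V.m * 4 = V.m * (4 * g + 2 * ∑ c, V.mc c))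
    (hn : n = ∑ c ∈ Pn, V.mc c) :
    ∃ G : V.Geo, G.Ok ∧ (V.m : ℝ) * Real.log G.x ∈ Spectrum g n := by
  classical
  have : Nonempty U := ⟨V.u0⟩
  have : Nonempty V.Tr := ⟨⟨(V.u0, false), ⟨0, A.w_pos _⟩⟩⟩
  obtain ⟨G, hG, -⟩ := A.exists_geo
  obtain ⟨Δ, hΔ, hmid⟩ := A.exists_sec hG
  obtain ⟨f, hf⟩ := A.exists_map hG hΔ
  obtain ⟨Φ, hsing, hpr, haff⟩ := Δ.exists_flat
  obtain ⟨v, v1, v2, v3, v4⟩ := A.orbit hG hΔ hf
  obtain ⟨κ, k1, k2, k3⟩ := A.exists_comp hG hΔ hf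
  have := Δ.compactSpace
  have := Δ.t2Space
  have hm := A.m_pos
  have hp : ∀ c, 0 < V.per c := fun c => Nat.mul_pos hm (A.mc_pos c)
  have ha : Φ.Affine f G.x :=
    haff f G.x f.continuous (by linarith [hG.one_lt]) hf.pieces2
  have hS : ∀ y, y ∈ Φ.sing ↔ ∃ c ∈ (univ : Finset Cu), ∃ j, y = v c j := by
    intro y
    rw [hsing]
    constructor
    · rintro ⟨d, rfl⟩
      exact ⟨_, mem_univ _, v4 d⟩
    · rintro ⟨c, -, j, rfl⟩
      exact v3 c j
  have hinv : ∀ (Q : Finset Cu) y, (∃ c ∈ Q, ∃ j, f y = v c j) ↔ ∃ c ∈ Q, ∃ j, y = v c j := by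
    intro Q y
    constructor
    · rintro ⟨c, hc, j, h⟩
      refine ⟨c, hc, j - 1, f.injective ?_⟩
      rw [h, v1, sub_add_cancel]
    · rintro ⟨c, hc, j, rfl⟩
      exact ⟨c, hc, j + 1, v1 c j⟩
  have hs' : ∀ y, f y ∈ Φ.sing ↔ y ∈ Φ.sing := fun y => by rw [hS, hS, hinv]
  have hstep : ∀ c j, Φ.prongs (v c (j + 1)) = Φ.prongs (v c j) := fun c j => by
    rw [← v1]
    exact Flat.prongs_map f hG.one_lt hs' ha ((hS _).2 ⟨c, mem_univ _, j, rfl⟩)
  have hq : ∀ c j, Φ.prongs (v c j) = Φ.prongs (v c 0) := by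
    intro c j
    induction j using Int.induction_on with
    | zero => rfl
    | succ i ih => rw [hstep, ih]
    | pred i ih =>
      rw [← hstep, sub_add_cancel, ih]
  have hprt : ∀ c, V.per c * Φ.prongs (v c 0) = V.prt c := by
    intro c
    have h1 : ∀ y ∈ Y7_orb v V.per c, Φ.prongs (v c 0) =
        ((univ.filter fun d => Δ.Mid d ∧ Δ.vtx d ∈ Y7_orb v V.per c).filter
          fun d => Δ.vtx d = y).card := by
      intro y hy
      obtain ⟨j, rfl⟩ := (Y7_mem hp v2).1 hy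
      obtain ⟨d₀, h⟩ := v3 c j
      rw [← hq c j, h, hpr]
      refine congrArg card (Finset.ext fun d => ?_)
      simp only [mem_filter, mem_univ, true_and]
      constructor
      · rintro ⟨h2, h3⟩
        exact ⟨⟨h2, by rw [h3, ← h]; exact hy⟩, h3⟩
      · rintro ⟨⟨h2, -⟩, h3⟩
        exact ⟨h2, h3⟩
    have h2 : (Y7_orb v V.per c).card = V.per c := by
      rw [Y7_orb, card_image_of_injOn (Y7_inj v2 c), card_range]
    have h4 := card_eq_sum_card_fiberwise (f := Δ.vtx)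
      (s := univ.filter fun d => Δ.Mid d ∧ Δ.vtx d ∈ Y7_orb v V.per c) (t := Y7_orb v V.per c)
      (fun d hd => mem_coe.2 (mem_filter.1 (mem_coe.1 hd)).2.2)
    rw [← h2, ← smul_eq_mul, ← sum_const, sum_congr rfl h1, ← h4]
    refine Y7_darts V c fun d => ?_
    rw [mem_filter, hmid, Y7_mem hp v2]
    simp only [mem_univ, true_and]
    refine and_congr_right fun _ => ?_
    obtain ⟨j, h⟩ := v4 d
    rw [h]
    exact ⟨fun ⟨j', h'⟩ => ((v2 _ _ _ _).1 h').1, fun h' => ⟨j, by rw [h']⟩⟩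
  have hκ : ∀ c j, κ (v c (j + 1)) = κ (v c j) + 1 := fun c j => by rw [← v1, k1]
  have hit : ∀ (i : ℕ) y, κ (f^[i] y) = κ y + i := by
    intro i y
    induction i with
    | zero => simp
    | succ i ih =>
      rw [Function.iterate_succ_apply', k1, ih]
      push_cast
      ring
  have hP : ∀ y, y ∈ Pn.biUnion (Y7_orb v V.per) ↔ ∃ c ∈ Pn, ∃ j, y = v c j := fun y => by
    simp only [mem_biUnion, Y7_mem hp v2]
  have htot : ∑ c, V.prt c = ∑ F, V.w F := sum_fiberwise _ _ _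
  refine ⟨G, hG, Flat.mem_spectrum (Φ := Φ) f hG.one_lt hs' ha hm k2 k3
    (fun y => ?_) (Pn.biUnion (Y7_orb v V.per)) (fun y hy => ?_) (fun y => ?_) (fun x hx hx' => ?_)
    ?_ ?_⟩
  · simp only [Set.mem_preimage, Set.mem_singleton_iff, hit, ZMod.natCast_self, add_zero]
  · obtain ⟨c, -, h⟩ := (hP y).1 hy
    exact (hS y).2 ⟨c, mem_univ _, h⟩
  · rw [hP, hP, hinv]
  · obtain ⟨c, -, j, rfl⟩ := (hS x).1 hx
    have h4 := h3 c fun hc => hx' ((hP _).2 ⟨c, hc, j, rfl⟩)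
    rw [← hprt, mul_comm 3] at h4
    rw [hq]
    exact Nat.le_of_mul_le_mul_left h4 (hp c)
  · rw [Y7_sum hm (fun _ => rfl) hp v2 hκ univ (fun y => ?_) (fun x => (Φ.prongs x : ℤ) - 2)
      (fun c => (Φ.prongs (v c 0) : ℤ) - 2) (fun c j => by simp only [hq c j])]
    · have m0 : (V.m : ℤ) ≠ 0 := by exact_mod_cast (show V.m ≠ 0 by omega)
      refine mul_left_cancel₀ m0 ?_
      have h4 : ∀ c ∈ (univ : Finset Cu), (V.m : ℤ) * (V.mc c * ((Φ.prongs (v c 0) : ℤ) - 2)) =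
          (V.prt c : ℤ) - 2 * V.m * V.mc c := by
        intro c _
        rw [← hprt, per]
        push_cast
        ring
      rw [mul_sum, sum_congr rfl h4, sum_sub_distrib, ← mul_sum]
      have h5 : ((∑ c, V.prt c + V.m * 4 : ℕ) : ℤ) =
          ((V.m * (4 * g + 2 * ∑ c, V.mc c) : ℕ) : ℤ) := by rw [htot, hg]
      push_cast at h5
      linarith
    · rw [mem_filter, hS]
      rfl
  · have h4 := Y7_sum hm (fun _ => rfl) hp v2 hκ Pn
      (X := (Pn.biUnion (Y7_orb v V.per)).filter (· ∈ κ ⁻¹' {0}))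
      (fun y => by rw [mem_filter, hP]; rfl) (fun _ => 1) (fun _ => 1) (fun _ _ => rfl)
    simp only [sum_const, nsmul_eq_mul, mul_one] at h4
    rw [hn]
    exact_mod_cast h4

end Veer
end Pool.Agent.Work.MP_563a32_gt
end

-- merged part: Pool.Agent.Work.MP_563a32_gt.Z0
section
/-! A family of layered veering triangulations: eleven tetrahedra and a chain of `h + 1` more.
The weights depend on `h`, `k`, `r`; the surface has genus `(h + 1) (k + 1) + 1`, one orbit of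
`r + 5` one-pronged points, one orbit of three-pronged points, and one orbit of `k + 1` points
with `2 h + 3` prongs. -/

namespace Pool.Agent.Work.MP_563a32_gt.Fam

abbrev U (h : ℕ) : Type := Fin 11 ⊕ Fin (h + 1)

def c0 (h : ℕ) : U h := .inr 0

def ce (h : ℕ) : U h := .inr (Fin.last h)

variable {h : ℕ}

/-- The previous edge of the chain. -/
def pr (j : Fin (h + 1)) : U h :=
  if j.1 = 0 then .inl 1 else .inr ⟨j.1 - 1, by omega⟩

/-- The tetrahedron of the chain with number `j`, or the tetrahedron `10` after its end. -/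
def ch (h j : ℕ) : U h := if hj : j ≤ h then .inr ⟨j, by omega⟩ else .inl 10

def upF (h : ℕ) : Fin 11 → U h × Bool :=
  ![(.inl 4, false), (.inl 4, true), (.inl 7, true), (.inl 8, true), (.inl 9, true), (.inl 0,
    false), (c0 h, false), (.inl 3, false), (.inl 2, false), (.inl 8, false), (.inl 5, false)]

def upT (h : ℕ) : Fin 11 → U h × Bool :=
  ![(.inl 10, false), (.inl 7, false), (.inl 10, true), (c0 h, true), (.inl 3, true), (.inl 1,
    true), (.inl 5, true), (.inl 6, true), (.inl 6, false), (.inl 1, false), (.inl 9, false)]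

def dnF (h : ℕ) : Fin 11 → U h × Bool :=
  ![(.inl 5, false), (.inl 9, true), (.inl 8, false), (.inl 7, false), (.inl 0, false), (.inl 10,
    false), (.inl 8, true), (.inl 1, true), (.inl 9, false), (.inl 10, true), (.inl 0, true)]

def dnT (h : ℕ) : Fin 11 → U h × Bool :=
  ![(ce h, true), (.inl 5, true), (ce h, false), (.inl 4, true), (.inl 1, false), (.inl 6, true),
    (.inl 7, true), (.inl 2, false), (.inl 3, false), (.inl 4, false), (.inl 2, true)]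

def up : U h × Bool → U h × Bool
  | (.inl a, false) => upF h a
  | (.inl a, true) => upT h a
  | (.inr j, s) => if hj : j.1 < h then (.inr ⟨j.1 + 1, by omega⟩, !s)
      else if s then (.inl 0, true) else (.inl 2, true)

def dn : U h × Bool → U h × Bool
  | (.inl a, false) => dnF h a
  | (.inl a, true) => dnT h a
  | (.inr j, s) => if j.1 = 0 then (if s then (.inl 3, true) else (.inl 6, false))
      else (.inr ⟨j.1 - 1, by omega⟩, !s)

def red : U h → Bool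
  | .inl a => decide (a.1 < 3)
  | .inr j => decide (j.1 < h)

def edF1 (h : ℕ) : Fin 11 → U h :=
  ![.inl 0, .inl 0, .inl 2, .inl 1, .inl 0, .inl 0, .inl 1, .inl 1, .inl 2, .inl 2, .inl 0]

def sdF1 : Fin 11 → Bool :=
  ![true, false, true, true, false, true, true, true, true, true, true]

def edT1 (h : ℕ) : Fin 11 → U h :=
  ![pr (Fin.last h), .inl 2, pr (Fin.last h), .inl 1, .inl 1, .inl 2, .inl 2, .inl 2, .inl 1,
    .inl 0, .inl 2]

def sdT1 : Fin 11 → Bool :=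
  ![false, false, true, false, false, false, false, false, true, false, true]

def edF2 (h : ℕ) : Fin 11 → U h :=
  ![ce h, .inl 5, ce h, .inl 4, .inl 5, .inl 6, .inl 7, ce h, .inl 3, .inl 4, .inl 8]

def sdF2 : Fin 11 → Bool :=
  ![true, true, false, true, true, true, true, false, false, false, false]

def edT2 (h : ℕ) : Fin 11 → U h :=
  ![.inl 5, .inl 9, .inl 8, .inl 7, ce h, .inl 10, .inl 8, .inl 9, .inl 9, .inl 10, .inl 5]

def sdT2 : Fin 11 → Bool :=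
  ![false, true, false, false, true, false, true, true, false, true, false]

def ed : U h × Bool → Fin 3 → U h
  | (.inl a, false) => ![.inl a, edF1 h a, edF2 h a]
  | (.inl a, true) => ![.inl a, edT1 h a, edT2 h a]
  | (.inr j, false) => ![.inr j, pr j, .inl 3]
  | (.inr j, true) => ![.inr j, pr j, .inl 6]

def sd : U h × Bool → Fin 3 → Bool
  | (.inl a, false) => ![false, sdF1 a, sdF2 a]
  | (.inl a, true) => ![true, sdT1 a, sdT2 a]
  | (.inr _, false) => ![false, true, true]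
  | (.inr _, true) => ![true, false, false]

def btB (h : ℕ) : Fin 11 → U h :=
  ![.inl 4, ch h 1, .inl 7, .inl 2, .inl 8, .inl 9, .inl 0, c0 h, .inl 5, .inl 6, .inl 1]

def biB (h : ℕ) : Fin 11 → U h :=
  ![.inl 6, .inl 10, .inl 3, ce h, .inl 0, .inl 8, .inl 9, .inl 2, .inl 4, .inl 5,
    pr (Fin.last h)]

def bt : U h → U h
  | .inl a => btB h a
  | .inr j => if j.1 = h then .inl 3 else ch h (j.1 + 2)

def bi : U h → U h
  | .inl a => biB h a
  | .inr j => if j.1 = 0 then .inl 7 else pr ⟨j.1 - 1, by omega⟩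

variable (k r : ℕ)

/-- The age of the previous edge of the chain. -/
def ag (h k j : ℕ) : ℕ := if j = 0 then 4 + h + 3 * k + 2 * (h * k) else 1

def wF (h k r : ℕ) : Fin 11 → ℕ :=
  ![2, 1 + h + 2 * k + h * k, 4 + r, 1 + h + k + h * k, 1 + h + k + h * k,
    1 + 2 * h + 3 * k + 2 * (h * k), 1 + 2 * k + h * k, 1 + k, 1, 2, 1]

def wT (h k r : ℕ) : Fin 11 → ℕ :=
  ![1, 1, 1 + r, 1 + k + h * k, 2, 1, 2 + r, 1, 1, 1, 1]

def oF1 (h k r : ℕ) : Fin 11 → ℕ :=
  ![3 + 2 * h + 3 * k + 2 * (h * k), 4 + h + k + h * k, 5 + r, 2 + k, 2, 2,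
    4 + h + 2 * k + h * k, 1, 4 + r, 2 + r, 1]

def oT1 (h k r : ℕ) : Fin 11 → ℕ :=
  ![ag h k h + r + k + 2, 8 + 2 * r, ag h k h + k + 2, 3 + h + 2 * k + h * k,
    1 + h + 2 * k + h * k, 7 + 2 * r, 5 + r, 4 + r, 3 + h + 2 * k + h * k, 3 + h + k + h * k,
    1 + r]

def oF2 (h k r : ℕ) : Fin 11 → ℕ :=
  ![2 + k + r, 1, 1, 2, 2 + h + 2 * k + h * k, 2 + r, 1, 5 + r, 1 + h + k + h * k,
    1 + h + k + h * k, 2 + r]

def oT2 (h k r : ℕ) : Fin 11 → ℕ :=
  ![1 + 2 * h + 3 * k + 2 * (h * k), 1, 1, 1 + k, 4 + k + r, 1, 1, 2, 2, 1,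
    2 + 2 * h + 3 * k + 2 * (h * k)]

def offB (h k r : ℕ) : Fin 11 → ℕ :=
  ![5 + 2 * h + 3 * k + 2 * (h * k), ag h k 0 + k + 2 + if h = 0 then r + 1 else 0, 9 + 2 * r,
    2 + h + k + h * k, 3 + h + k + h * k, 3 + 2 * h + 3 * k + 2 * (h * k),
    3 + 2 * h + 3 * k + 2 * (h * k) + r, 2 + 2 * k + h * k, 3 + r, 3, 2]

def w : U h × Bool → ℕ
  | (.inl a, false) => wF h k r a
  | (.inl a, true) => wT h k r a
  | (.inr _, false) => 1
  | (.inr j, true) => if j.1 < h then k + 2 else r + k + 2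

def o : U h × Bool → Fin 3 → ℕ
  | (.inl a, false) => ![0, oF1 h k r a, oF2 h k r a]
  | (.inl a, true) => ![0, oT1 h k r a, oT2 h k r a]
  | (.inr j, false) => ![0, ag h k j.1 + k + 1, 1 + k + h * k + j.1]
  | (.inr j, true) => ![0, ag h k j.1, 1 + 2 * k + h * k + 2 * j.1 + j.1 * k]

def off : U h → ℕ
  | .inl a => offB h k r a
  | .inr j => if j.1 = h then 6 + k + r else if j.1 + 1 = h then 4 + k + r else 3 + k

def cuB : Fin 11 → Fin 4 → Fin 3 :=
  ![![0, 0, 0, 2], ![2, 0, 1, 0], ![0, 0, 0, 1], ![0, 0, 0, 0], ![2, 0, 0, 0], ![0, 0, 1, 2],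
    ![0, 0, 1, 0], ![0, 0, 1, 0], ![0, 0, 0, 1], ![0, 0, 2, 1], ![0, 1, 0, 2]]

def potB (h k r : ℤ) : Fin 11 → Fin 4 → ℤ :=
  ![![-3 - 2 * h - 3 * k - 2 * (h * k), 0, -2 - 2 * h - 2 * k - 2 * (h * k), 0],
    ![-1 + h + 2 * k + h * k, -2 + k, 1, -4 - h - k - h * k],
    ![1 + k + r, -2 - 2 * h - 2 * k - 2 * (h * k) + r, r, 4 + r],
    ![-4, 3 + h + 2 * k + h * k + r, -7 - 2 * h - 3 * k - 2 * (h * k), 2 + h + k + h * k + r],
    ![-2, 5 + h + 2 * k + h * k + r, -5 - 2 * h - 3 * k - 2 * (h * k), -2],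
    ![-2, -1 + k, 2, 1 + 2 * h + 3 * k + 2 * (h * k)],
    ![-6 - h - k - h * k, 1 + k + r, -1, r],
    ![-3 + k, -6 - 2 * h - 2 * k - 2 * (h * k), 0, -5 - h - k - h * k],
    ![2 + k + r, 1 + r, -5 - h - k - h * k, 5 + r],
    ![4 + k + r, -3 - h - k - h * k, -3 - h - k - h * k, 2],
    ![-1, 3, 5 + k + r, -1]]

def potC (h k r j : ℤ) : Fin 4 → ℤ :=
  ![1 + h + r - j,
    2 + h + k + r - j,
    -8 - 2 * h - 4 * k - 3 * (h * k) - 2 * j - j * k,
    -1 - 2 * k - h * k + r - 2 * j - j * k]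

def pot0B (h k : ℤ) : Fin 11 → ℤ :=
  ![0, -3, -6 - h - k - h * k, -4, -2, -2, -5, -4, -5 - h - k - h * k, -3 - h - k - h * k, -1]

def cusp : U h → Fin 4 → Fin 3
  | .inl a => cuB a
  | .inr _ => fun _ => 0

def pot : U h → Fin 4 → ℤ
  | .inl a => potB h k r a
  | .inr j => potC h k r j.1

def pot0 : U h → ℤ
  | .inl a => pot0B h k a
  | .inr j => 2 + h + k + r - j.1

theorem dn_up (F : U h × Bool) : dn (up F) = F := by
  obtain ⟨a | ⟨j, hj⟩, s⟩ := F
  · cases s <;> fin_cases a <;> simp [up, dn, upF, upT, dnF, dnT, c0]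
  · by_cases h1 : j < h
    · simp [up, dn, h1]
    · obtain rfl : j = h := by omega
      cases s <;> simp [up, dn, dnT, ce, Fin.last]

theorem up_dn (F : U h × Bool) : up (dn F) = F := by
  obtain ⟨a | ⟨j, hj⟩, s⟩ := F
  · cases s <;> fin_cases a <;> simp [up, dn, upF, upT, dnF, dnT, ce]
  · rcases j with _ | j
    · cases s <;> simp [up, dn, upF, upT, c0]
    · simp [up, dn, show j < h by omega]

theorem bi_bt (u : U h) : bi (bt u) = u := by
  obtain a | ⟨j, hj⟩ := u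
  · fin_cases a <;> simp [bi, bt, btB, biB, c0]
    rcases h with _ | h <;> simp [ch, bi, biB, pr]
  · by_cases h1 : j = h
    · subst h1
      simp [bi, bt, biB, ce, Fin.last]
    · by_cases h2 : j + 2 ≤ h
      · simp [bi, bt, ch, h1, h2, pr]
      · obtain rfl : h = j + 1 := by omega
        simp [bi, bt, ch, biB, pr]

theorem bt_bi (u : U h) : bt (bi u) = u := by
  obtain a | ⟨j, hj⟩ := u
  · fin_cases a <;> simp [bi, bt, btB, biB, ce]
    rcases h with _ | h <;> simp [ch, bt, btB, pr]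
  · rcases j with _ | _ | j
    · simp [bi, bt, btB, c0]
    · simp [bi, bt, btB, pr, ch, show 1 ≤ h by omega]
    · simp [bi, bt, pr, ch, show j ≠ h by omega, show j + 2 ≤ h by omega]

def V (h k r : ℕ) : Veer (U h) (Fin 3) where
  up := ⟨up, dn, dn_up, up_dn⟩
  red := red
  ed := ed
  sd := sd
  bt := ⟨bt, bi, bi_bt, bt_bi⟩
  w := w k r
  o := o k r
  off := off k r
  cusp := cusp
  root := ![(.inl 0, 1), (.inl 7, 2), (.inl 0, 3)]
  pot := pot k r
  mc := ![r + 8 + 2 * h + 3 * k + 2 * (h * k), r + 5, k + 1]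
  m := 1
  pot0 := pot0 k r
  u0 := .inl 0

end Pool.Agent.Work.MP_563a32_gt.Fam
end

-- merged part: Pool.Agent.Work.MP_563a32_gt.Z1
section
/-! The local conditions for the family. -/

namespace Pool.Agent.Work.MP_563a32_gt.Fam
open Veer

set_option linter.unusedSimpArgs false
set_option linter.unnecessarySeqFocus false

variable {h k r : ℕ}

theorem V_up (F : U h × Bool) : (V h k r).up F = up F := rfl
theorem V_dn (F : U h × Bool) : (V h k r).up⁻¹ F = dn F := rfl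
theorem V_bt (u : U h) : (V h k r).bt u = bt u := rfl
theorem V_bi (u : U h) : (V h k r).bt⁻¹ u = bi u := rfl
theorem V_red : (V h k r).red = red := rfl
theorem V_ed : (V h k r).ed = ed := rfl
theorem V_sd : (V h k r).sd = sd := rfl
theorem V_w : (V h k r).w = w k r := rfl
theorem V_o : (V h k r).o = o k r := rfl
theorem V_off : (V h k r).off = off k r := rfl
theorem V_cusp : (V h k r).cusp = cusp := rfl
theorem V_pot : (V h k r).pot = pot k r := rfl
theorem V_pot0 : (V h k r).pot0 = pot0 k r := rfl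

theorem red_pr (j : Fin (h + 1)) : red (pr j) = true := by
  unfold pr
  split_ifs with h1
  · rfl
  · have := j.2
    simp only [red, decide_eq_true_eq]
    omega

theorem w_pos (F : U h × Bool) : 1 ≤ (V h k r).w F := by
  obtain ⟨a | ⟨j, hj⟩, s⟩ := F
  · cases s <;> fin_cases a <;> simp [V_w, w, wF, wT] <;> omega
  · cases s <;> simp only [V_w, w, le_refl]
    split_ifs <;> omega

theorem col_up (F : U h × Bool) : (V h k r).red F.1 = (V h k r).cb ((V h k r).up F).1 := by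
  obtain ⟨a | ⟨j, hj⟩, s⟩ := F
  · cases s <;> fin_cases a <;> simp [cb, V_up, V_dn, V_red, up, dn, upF, upT, dnF, red, c0]
  · by_cases h1 : j < h
    · simp [cb, V_up, V_dn, V_red, up, dn, red, h1]
    · cases s <;> simp [cb, V_up, V_dn, V_red, up, dn, red, h1, dnF]

theorem col_one (F : U h × Bool) : (V h k r).red ((V h k r).ed F 1) = true := by
  obtain ⟨a | j, s⟩ := F
  · cases s <;> fin_cases a <;> simp [V_red, V_ed, ed, edF1, edT1, red_pr] <;> rfl
  · cases s <;> simp [V_red, V_ed, ed, red_pr]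

theorem col_two (F : U h × Bool) : (V h k r).red ((V h k r).ed F 2) = false := by
  obtain ⟨a | j, s⟩ := F
  · cases s <;> fin_cases a <;> simp [V_red, V_ed, ed, edF2, edT2, red, ce]
  · cases s <;> simp [V_red, V_ed, ed, red]

theorem last (F : U h × Bool) (l : Fin 3) (hl : l + (V h k r).sh F = 0) :
    (V h k r).bt ((V h k r).ed F l) = ((V h k r).up F).1 ∧
      (V h k r).o F l + (V h k r).w F = (V h k r).off ((V h k r).ed F l) := by
  revert hl
  obtain ⟨a | ⟨j, hj⟩, s⟩ := F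
  · cases s <;> fin_cases a <;> fin_cases l <;>
      dsimp only [sh, V_up, V_bt, V_red, V_ed, V_w, V_o, V_off, up, upF, upT, red, ed, edF1, edF2,
        edT1, edT2, w, wF, wT, o, oF1, oF2, oT1, oT2, ↓Matrix.cons_val, Fin.reduceFinMk, Fin.isValue,
        Fin.coe_ofNat_eq_mod, Nat.reduceMod, Fin.zero_eta, Fin.mk_one] <;>
      simp only [Nat.reduceLT, Nat.lt_irrefl, decide_true, decide_false, ↓reduceIte,
        Bool.false_eq_true, Fin.reduceAdd, Fin.reduceEq, false_imp_iff, true_imp_iff,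
        Fin.isValue] <;>
      rcases h with _ | h <;>
      simp [bt, btB, off, offB, c0, ce, pr, ch, ag, ↓Matrix.cons_val] <;>
      omega
  · by_cases h1 : j < h
    · have h2 : j + 1 ≤ h := h1
      rcases j with _ | j
      · cases s <;> fin_cases l <;>
          simp [sh, V_up, V_bt, V_red, V_ed, V_w, V_o, V_off, up, red, ed, bt, btB, w, o, off, offB,
            pr, ch, ag, h1, h1.ne', show 1 ≤ h from h1] <;> omega
      · cases s <;> fin_cases l <;>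
          simp [sh, V_up, V_bt, V_red, V_ed, V_w, V_o, V_off, up, red, ed, bt, btB, w, o, off, offB,
            pr, ch, ag, h1, h1.ne, show j ≠ h by omega, show j + 2 ≤ h from h1] <;> omega
    · obtain rfl : j = h := by omega
      cases s <;> fin_cases l <;>
        simp [sh, V_up, V_bt, V_red, V_ed, V_w, V_o, V_off, up, red, ed, bt, btB, w, o, off,
          offB] <;> omega

theorem step (F : U h × Bool) (l : Fin 3) (hl : l + (V h k r).sh F ≠ 0) :
    (V h k r).ed ((V h k r).nx F l).1 ((V h k r).nx F l).2 = (V h k r).ed F l ∧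
    (V h k r).sd ((V h k r).nx F l).1 ((V h k r).nx F l).2 = (V h k r).sd F l ∧
    (V h k r).o ((V h k r).nx F l).1 ((V h k r).nx F l).2 =
      (V h k r).o F l + (V h k r).w F := by
  revert hl
  obtain ⟨a | ⟨j, hj⟩, s⟩ := F
  · cases s <;> fin_cases a <;> fin_cases l <;>
      dsimp only [nx, sh, V_up, V_red, up, upF, upT, red, c0, ↓Matrix.cons_val, Fin.reduceFinMk, Fin.isValue,
        Fin.coe_ofNat_eq_mod, Nat.reduceMod, Fin.zero_eta, Fin.mk_one] <;>
      simp only [Nat.reduceLT, Nat.lt_irrefl, decide_true, decide_false, ↓reduceIte,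
        Bool.false_eq_true, Fin.reduceAdd, Fin.reduceEq, ne_eq, not_true_eq_false,
        not_false_eq_true, false_imp_iff, true_imp_iff, Fin.isValue, Bool.not_true,
        Bool.not_false] <;>
      dsimp only [V_ed, V_sd, V_w, V_o, ed, edF1, edF2, edT1, edT2, sd, sdF1, sdF2, sdT1, sdT2, w,
        wF, wT, o, oF1, oF2, oT1, oT2, ↓Matrix.cons_val] <;>
      simp [c0, pr, ag] <;>
      omega
  · by_cases h1 : j < h
    · cases s <;> fin_cases l <;>
        simp [nx, sh, V_up, V_red, V_ed, V_sd, V_w, V_o, up, red, ed, sd, w, o, pr, ag, h1,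
          add_mul] <;> omega
    · obtain rfl : j = h := by omega
      cases s <;> fin_cases l <;>
        simp [nx, sh, V_up, V_red, V_ed, V_sd, V_w, V_o, up, red, ed, edF1, edF2, edT1, edT2, sd,
          sdF1, sdF2, sdT1, sdT2, w, o, oF1, oF2, oT1, oT2, ce, Fin.last] <;> omega

theorem o_le (F : U h × Bool) (l : Fin 3) :
    (V h k r).o F l + (V h k r).w F ≤ (V h k r).off ((V h k r).ed F l) := by
  obtain ⟨a | ⟨j, hj⟩, s⟩ := F
  · have e1 : off k r (pr (Fin.last h)) = ag h k h + k + 2 + (r + 1) := by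
      rcases h with _ | h <;> simp [off, offB, pr, ag]; omega
    have e2 : off k r (ce h) = 6 + k + r := if_pos rfl
    have e3 : ag h k 0 = 4 + h + 3 * k + 2 * (h * k) := rfl
    cases s <;> fin_cases a <;> fin_cases l <;>
      dsimp only [V_ed, V_w, V_o, V_off, ed, edF1, edF2, edT1, edT2, w, wF, wT, o, oF1, oF2, oT1,
        oT2, ↓Matrix.cons_val, Fin.reduceFinMk, Fin.isValue,
        Fin.coe_ofNat_eq_mod, Nat.reduceMod, Fin.zero_eta, Fin.mk_one] <;>
      first | omega | (dsimp only [off, offB, ↓Matrix.cons_val]; omega)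
  · have h3 : j * k ≤ h * k := Nat.mul_le_mul_right _ (by omega)
    rcases j with _ | j <;> cases s <;> fin_cases l <;>
      simp [V_ed, V_w, V_o, V_off, ed, w, o, off, offB, pr, ag] <;> (try split_ifs) <;> omega

theorem cusp_lnk (F : U h × Bool) (l : Fin 3) :
    (V h k r).cusp ((V h k r).lo F l).1 ((V h k r).lo F l).2 =
      (V h k r).cusp ((V h k r).hi F l).1 ((V h k r).hi F l).2 := by
  obtain ⟨a | ⟨j, hj⟩, s⟩ := F
  · cases s <;> fin_cases a <;> fin_cases l <;>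
      dsimp only [lo, hi, sh, V_up, V_red, V_cusp, up, upF, upT, red, cusp, cuB,
        c0, ↓Matrix.cons_val, Fin.reduceFinMk, Fin.isValue,
        Fin.coe_ofNat_eq_mod, Nat.reduceMod, Fin.zero_eta, Fin.mk_one] <;>
      simp only [topV, botV, Nat.reduceLT, Nat.lt_irrefl, decide_true, decide_false,
        ↓reduceIte, Bool.false_eq_true, Fin.reduceAdd, ↓Matrix.cons_val, Fin.isValue,
        Nat.zero_mod]
  · by_cases h1 : j < h
    · simp [lo, hi, V_up, V_cusp, up, cusp, h1]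
    · cases s <;> fin_cases l <;>
        simp [lo, hi, sh, V_up, V_red, V_cusp, up, red, cusp, cuB, topV, botV, h1]

/-- The discrepancies in units of the period. -/
def dF (h : ℤ) : Fin 11 → Fin 3 → ℤ :=
  ![![0, 0, 0], ![-1, 0, 0], ![0, 0, 0], ![0, 0, 0], ![0, 0, 0], ![0, 0, 0], ![1, 0, -1],
    ![0, -1, 0], ![0, 0, 0], ![0, -1, 0], ![0, -3 - 2 * h, 0]]

def dT (h : ℤ) : Fin 11 → Fin 3 → ℤ :=
  ![![0, 0, -1], ![0, 0, 0], ![0, -1, 0], ![0, 0, 0], ![0, 0, 0], ![1 + h, 0, 0], ![0, 0, -1],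
    ![0, -1, 0], ![1, 0, 0], ![0, 0, -3 - 2 * h], ![1 + h, 0, 0]]

def dd : U h × Bool → Fin 3 → ℤ
  | (.inl a, false) => dF h a
  | (.inl a, true) => dT h a
  | (.inr j, false) => ![0, if j.1 < h then 1 else 0, 0]
  | (.inr j, true) => ![0, 0, if j.1 < h then 0 else -1]

theorem disc_eq (F : U h × Bool) (l : Fin 3) : (V h k r).disc F l =
    (V h k r).per ((V h k r).cusp ((V h k r).lo F l).1 ((V h k r).lo F l).2) * dd F l := by
  have hp : ∀ c, (V h k r).per c =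
      ![r + 8 + 2 * h + 3 * k + 2 * (h * k), r + 5, k + 1] c := fun c => one_mul _
  obtain ⟨a | ⟨j, hj⟩, s⟩ := F
  · rw [hp]
    cases s <;> fin_cases a <;> fin_cases l <;>
      dsimp only [disc, lo, hi, sh, V_up, V_red, V_cusp, V_pot, V_w, up, upF, upT, red, cusp, cuB,
        c0, pot, potB, w, wF, wT, dd, dF, dT, ↓Matrix.cons_val, Fin.reduceFinMk, Fin.isValue,
        Fin.coe_ofNat_eq_mod, Nat.reduceMod, Fin.zero_eta, Fin.mk_one] <;>
      simp only [topV, botV, potC, Nat.reduceLT, Nat.lt_irrefl, decide_true, decide_false,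
        ↓reduceIte, Bool.false_eq_true, Fin.reduceAdd, ↓Matrix.cons_val, Fin.isValue,
        Nat.zero_mod] <;> push_cast <;> ring
  · by_cases h1 : j < h
    · cases s <;> fin_cases l <;>
        simp [hp, disc, lo, hi, sh, V_up, V_red, V_cusp, V_pot, V_w, up, red, cusp, topV, botV,
          pot, potC, w, dd, h1] <;> ring
    · obtain rfl : j = h := by omega
      cases s <;> fin_cases l <;>
        simp [hp, disc, lo, hi, sh, V_up, V_red, V_cusp, V_pot, V_w, up, red, cusp, topV, botV,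
          pot, potB, potC, w, dd] <;> ring

end Pool.Agent.Work.MP_563a32_gt.Fam
end

-- merged part: Pool.Agent.Work.MP_563a32_gt.Z2
section
/-! The global conditions for the family. -/

namespace Pool.Agent.Work.MP_563a32_gt.Fam
open Veer Relation

set_option linter.unusedSimpArgs false
set_option linter.unnecessarySeqFocus false

variable {h k r : ℕ}

theorem back {α : Type} [Finite α] (σ : Equiv.Perm α) {R : α → α → Prop}
    (hR : ∀ u, R u (σ u)) (u : α) : ReflTransGen R (σ u) u := by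
  have key : ∀ n : ℕ, ReflTransGen R (σ u) ((σ ^ n) (σ u)) := by
    intro n
    induction n with
    | zero => exact .refl
    | succ n ih =>
      rw [pow_succ', Equiv.Perm.mul_apply]
      exact ih.tail (hR _)
  have h1 := key (orderOf σ - 1)
  rwa [← Equiv.Perm.mul_apply, ← pow_succ, Nat.sub_add_cancel (orderOf_pos σ), pow_orderOf_eq_one,
    Equiv.Perm.one_apply] at h1

theorem irr {R : U h → U h → Prop} (h1 : ∀ u, ReflTransGen R u (bt u))
    (h2 : ∀ u, ReflTransGen R (bt u) u) (a1 : ReflTransGen R (.inl 0) (.inl 1))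
    (b1 : ReflTransGen R (.inl 1) (.inl 0)) (a2 : ReflTransGen R (.inl 0) (.inl 2))
    (b2 : ReflTransGen R (.inl 2) (.inl 0)) (u u' : U h) : ReflTransGen R u u' := by
  let S : U h → Prop := fun u => ReflTransGen R (.inl 0) u ∧ ReflTransGen R u (.inl 0)
  have f : ∀ u, S u → S (bt u) := fun u hu => ⟨hu.1.trans (h1 u), (h2 u).trans hu.2⟩
  have g : ∀ u, S (bt u) → S u := fun u hu => ⟨hu.1.trans (h2 u), (h1 u).trans hu.2⟩
  have s0 : S (.inl 0) := ⟨.refl, .refl⟩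
  have s1 : S (.inl 1) := ⟨a1, b1⟩
  have s2 : S (.inl 2) := ⟨a2, b2⟩
  have s4 : S (.inl 4) := f _ s0
  have s8 : S (.inl 8) := f _ s4
  have s5 : S (.inl 5) := f _ s8
  have s9 : S (.inl 9) := f _ s5
  have s6 : S (.inl 6) := f _ s9
  have s7 : S (.inl 7) := f _ s2
  have s3 : S (.inl 3) := g _ s2
  have s10 : S (.inl 10) := g _ s1
  have sc : ∀ j (hj : j < h + 1), S (.inr ⟨j, hj⟩) := by
    intro j
    induction j using Nat.strong_induction_on with
    | _ j ih =>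
      intro hj
      rw [← bt_bi (.inr ⟨j, hj⟩)]
      apply f
      rcases j with _ | _ | j
      · exact s7
      · exact s1
      · exact ih j (by omega) (by omega)
  have all : ∀ u, S u := by
    rintro (a | ⟨j, hj⟩)
    · fin_cases a <;> assumption
    · exact sc j hj
  exact (all u).2.trans (all u').1

theorem ft_irr (u u' : U h) : ReflTransGen (fun a b => ∃ j, (V h k r).ft a j = b) u u' := by
  have h0 : ∀ u, ∃ j, (V h k r).ft u j = (V h k r).bt⁻¹ u := fun u => ⟨0, rfl⟩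
  have h2 : ∀ u, ReflTransGen (fun a b => ∃ j, (V h k r).ft a j = b) (bt u) u := fun u =>
    .single ⟨0, bi_bt u⟩
  have h1 : ∀ u, ReflTransGen (fun a b => ∃ j, (V h k r).ft a j = b) u (bt u) := fun u => by
    have := back (R := fun a b => ∃ j, (V h k r).ft a j = b) (V h k r).bt⁻¹ h0 (bt u)
    rwa [V_bi, bi_bt] at this
  have e61 : ReflTransGen (fun a b => ∃ j, (V h k r).ft a j = b) (.inl 0) (.inl 1) :=
    .tail (h2 (.inl 6)) ⟨1, rfl⟩
  have e10 : ReflTransGen (fun a b => ∃ j, (V h k r).ft a j = b) (.inl 1) (.inl 0) :=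
    .single ⟨1, rfl⟩
  exact irr h1 h2 e61 e10 (.tail e61 ⟨2, rfl⟩) (.trans (.tail (h2 (.inl 3)) ⟨1, rfl⟩) e10) u u'

theorem rt_irr (u u' : U h) : ReflTransGen (fun a b => ∃ j, (V h k r).rt a j = b) u u' := by
  have h0 : ∀ u, ∃ j, (V h k r).rt u j = (V h k r).bt u := fun u => ⟨0, rfl⟩
  have h1 : ∀ u, ReflTransGen (fun a b => ∃ j, (V h k r).rt a j = b) u (bt u) := fun u =>
    .single ⟨0, rfl⟩
  have h2 : ∀ u, ReflTransGen (fun a b => ∃ j, (V h k r).rt a j = b) (bt u) u :=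
    back (V h k r).bt h0
  have e03 : ReflTransGen (fun a b => ∃ j, (V h k r).rt a j = b) (.inl 0) (.inl 3) :=
    .single ⟨1, by simp [rt, V_bt, V_ed, V_red, red, ed, edF2, bt, ce]⟩
  have e60 : ReflTransGen (fun a b => ∃ j, (V h k r).rt a j = b) (.inl 6) (.inl 0) := h1 (.inl 6)
  exact irr h1 h2 (.trans (.tail e03 ⟨1, rfl⟩) (h2 (.inl 1))) (.head ⟨2, rfl⟩ e60)
    (e03.trans (h1 (.inl 3)))
    (.head ⟨2, rfl⟩ ((h1 (.inl 5)).trans ((h1 (.inl 9)).trans e60))) u u'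

abbrev E (h k r : ℕ) : U h × Fin 4 → U h × Fin 4 → Prop := EqvGen (V h k r).Lnk

theorem lk (u : U h) (s : Bool) (l : Fin 3) {p p' : U h × Fin 4} (h1 : (V h k r).lo (u, s) l = p)
    (h2 : (V h k r).hi (u, s) l = p') (h3 : dd (u, s) l = 0) : E h k r p p' :=
  .rel _ _ ⟨(u, s), l, h1.symm, h2.symm, by rw [disc_eq, h3, mul_zero]⟩

theorem hi_ce (s : Bool) (l : Fin 3) : (V h k r).hi (ce h, s) l =
    (if s then .inl 0 else .inl 2, botV true (l + 1)) := by
  cases s <;> simp [hi, sh, V_up, V_red, up, red, ce]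

theorem chain (j : Fin (h + 1)) (a : Fin 4) : E h k r (.inr j, a) (ce h, a) := by
  obtain ⟨j, hj⟩ := j
  induction hd : h - j generalizing j with
  | zero =>
    obtain rfl : j = h := by omega
    exact .refl _
  | succ d ih =>
    have h1 : j < h := by omega
    refine .trans _ _ _ ?_ (ih (j + 1) (by omega) (by omega))
    fin_cases a
    · exact lk _ false 2 rfl (by simp [hi, sh, V_up, V_red, up, red, botV, h1]) rfl
    · exact lk _ false 0 rfl (by simp [hi, sh, V_up, V_red, up, red, botV, h1]) rfl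
    · exact lk _ true 2 rfl (by simp [hi, sh, V_up, V_red, up, red, botV, h1]) (by simp [dd, h1])
    · exact lk _ true 0 rfl (by simp [hi, sh, V_up, V_red, up, red, botV, h1]) rfl

theorem tree (p : U h × Fin 4) : E h k r p ((V h k r).root ((V h k r).cusp p.1 p.2)) := by
  have a0_1 : E h k r (.inl 0, 1) (.inl 0, 1) := .refl _
  have a7_2 : E h k r (.inl 7, 2) (.inl 7, 2) := .refl _
  have a0_3 : E h k r (.inl 0, 3) (.inl 0, 3) := .refl _
  have a4_3 : E h k r (.inl 4, 3) (.inl 0, 1) :=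
    .trans _ _ _ (.symm _ _ (lk (.inl 0) false 0 rfl (by with_unfolding_all rfl) rfl)) a0_1
  have a10_0 : E h k r (.inl 10, 0) (.inl 0, 1) :=
    .trans _ _ _ (.symm _ _ (lk (.inl 0) true 1 rfl (by with_unfolding_all rfl) rfl)) a0_1
  have ae_1 : E h k r (ce h, 1) (.inl 0, 1) :=
    .trans _ _ _ (lk (ce h) true 1 rfl (hi_ce _ _) (by simp [dd, ce])) a0_1
  have a1_2 : E h k r (.inl 1, 2) (.inl 7, 2) :=
    .trans _ _ _ (lk (.inl 1) true 2 rfl (by with_unfolding_all rfl) rfl) a7_2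
  have a2_3 : E h k r (.inl 2, 3) (.inl 7, 2) :=
    .trans _ _ _ (lk (.inl 2) false 1 rfl (by with_unfolding_all rfl) rfl) a7_2
  have a6_2 : E h k r (.inl 6, 2) (.inl 7, 2) :=
    .trans _ _ _ (.symm _ _ (lk (.inl 7) true 2 rfl (by with_unfolding_all rfl) rfl)) a7_2
  have a4_0 : E h k r (.inl 4, 0) (.inl 0, 3) :=
    .trans _ _ _ (.symm _ _ (lk (.inl 0) false 1 rfl (by with_unfolding_all rfl) rfl)) a0_3
  have a10_3 : E h k r (.inl 10, 3) (.inl 0, 3) :=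
    .trans _ _ _ (.symm _ _ (lk (.inl 0) true 0 rfl (by with_unfolding_all rfl) rfl)) a0_3
  have a5_3 : E h k r (.inl 5, 3) (.inl 0, 3) :=
    .trans _ _ _ (lk (.inl 5) false 1 rfl (by with_unfolding_all rfl) rfl) a0_3
  have a9_1 : E h k r (.inl 9, 1) (.inl 0, 1) :=
    .trans _ _ _ (.symm _ _ (lk (.inl 4) false 1 rfl (by with_unfolding_all rfl) rfl)) a4_3
  have a3_0 : E h k r (.inl 3, 0) (.inl 0, 1) :=
    .trans _ _ _ (.symm _ _ (lk (.inl 4) true 0 rfl (by with_unfolding_all rfl) rfl)) a4_3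
  have a2_2 : E h k r (.inl 2, 2) (.inl 0, 1) :=
    .trans _ _ _ (lk (.inl 2) true 2 rfl (by with_unfolding_all rfl) rfl) a10_0
  have a5_0 : E h k r (.inl 5, 0) (.inl 0, 1) :=
    .trans _ _ _ (.symm _ _ (lk (.inl 10) false 2 rfl (by with_unfolding_all rfl) rfl)) a10_0
  have a3_1 : E h k r (.inl 3, 1) (.inl 0, 1) :=
    .trans _ _ _ (lk (.inl 3) true 1 rfl (by with_unfolding_all rfl) rfl)
      (.trans _ _ _ (chain 0 1) ae_1)
  have a2_0 : E h k r (.inl 2, 0) (.inl 0, 1) :=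
    .trans _ _ _ (.symm _ _ (lk (ce h) false 0 rfl (hi_ce _ _) (by simp [dd, ce]))) ae_1
  have a5_2 : E h k r (.inl 5, 2) (.inl 7, 2) :=
    .trans _ _ _ (lk (.inl 5) true 2 rfl (by with_unfolding_all rfl) rfl) a1_2
  have a9_3 : E h k r (.inl 9, 3) (.inl 7, 2) :=
    .trans _ _ _ (lk (.inl 9) true 0 rfl (by with_unfolding_all rfl) rfl) a1_2
  have a10_1 : E h k r (.inl 10, 1) (.inl 7, 2) :=
    .trans _ _ _ (.symm _ _ (lk (.inl 2) true 0 rfl (by with_unfolding_all rfl) rfl)) a2_3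
  have a8_3 : E h k r (.inl 8, 3) (.inl 7, 2) :=
    .trans _ _ _ (lk (.inl 8) false 1 rfl (by with_unfolding_all rfl) rfl) a2_3
  have a1_0 : E h k r (.inl 1, 0) (.inl 0, 3) :=
    .trans _ _ _ (lk (.inl 1) false 2 rfl (by with_unfolding_all rfl) rfl) a4_0
  have a9_2 : E h k r (.inl 9, 2) (.inl 0, 3) :=
    .trans _ _ _ (.symm _ _ (lk (.inl 4) false 2 rfl (by with_unfolding_all rfl) rfl)) a4_0
  have a8_2 : E h k r (.inl 8, 2) (.inl 0, 1) :=
    .trans _ _ _ (.symm _ _ (lk (.inl 9) false 0 rfl (by with_unfolding_all rfl) rfl)) a9_1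
  have a1_3 : E h k r (.inl 1, 3) (.inl 0, 1) :=
    .trans _ _ _ (.symm _ _ (lk (.inl 9) true 1 rfl (by with_unfolding_all rfl) rfl)) a9_1
  have a7_0 : E h k r (.inl 7, 0) (.inl 0, 1) :=
    .trans _ _ _ (lk (.inl 7) false 2 rfl (by with_unfolding_all rfl) rfl) a3_0
  have a8_1 : E h k r (.inl 8, 1) (.inl 0, 1) :=
    .trans _ _ _ (lk (.inl 8) false 0 rfl (by with_unfolding_all rfl) rfl) a2_2
  have ae_0 : E h k r (ce h, 0) (.inl 0, 1) :=
    .trans _ _ _ (lk (ce h) false 2 rfl (hi_ce _ _) (by simp [dd, ce])) a2_2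
  have a0_0 : E h k r (.inl 0, 0) (.inl 0, 1) :=
    .trans _ _ _ (.symm _ _ (lk (.inl 5) false 2 rfl (by with_unfolding_all rfl) rfl)) a5_0
  have a6_3 : E h k r (.inl 6, 3) (.inl 0, 1) :=
    .trans _ _ _ (lk (.inl 6) true 0 rfl (by with_unfolding_all rfl) rfl) a5_0
  have a8_0 : E h k r (.inl 8, 0) (.inl 0, 1) :=
    .trans _ _ _ (.symm _ _ (lk (.inl 3) false 0 rfl (by with_unfolding_all rfl) rfl)) a3_1
  have a4_1 : E h k r (.inl 4, 1) (.inl 0, 1) :=
    .trans _ _ _ (lk (.inl 4) true 1 rfl (by with_unfolding_all rfl) rfl) a3_1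
  have a6_0 : E h k r (.inl 6, 0) (.inl 0, 1) :=
    .trans _ _ _ (.symm _ _ (lk (.inl 8) true 2 rfl (by with_unfolding_all rfl) rfl)) a8_2
  have a4_2 : E h k r (.inl 4, 2) (.inl 0, 1) :=
    .trans _ _ _ (.symm _ _ (lk (.inl 1) false 1 rfl (by with_unfolding_all rfl) rfl)) a1_3
  have a7_3 : E h k r (.inl 7, 3) (.inl 0, 1) :=
    .trans _ _ _ (.symm _ _ (lk (.inl 1) true 0 rfl (by with_unfolding_all rfl) rfl)) a1_3
  have a1_1 : E h k r (.inl 1, 1) (.inl 0, 1) :=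
    .trans _ _ _ (lk (.inl 1) true 1 rfl (by with_unfolding_all rfl) rfl) a7_0
  have a3_3 : E h k r (.inl 3, 3) (.inl 0, 1) :=
    .trans _ _ _ (lk (.inl 3) false 1 rfl (by with_unfolding_all rfl) rfl) a8_1
  have ae_3 : E h k r (ce h, 3) (.inl 0, 1) :=
    .trans _ _ _ (lk (ce h) true 0 rfl (hi_ce _ _) (by simp [dd, ce])) a0_0
  have a9_0 : E h k r (.inl 9, 0) (.inl 0, 1) :=
    .trans _ _ _ (lk (.inl 9) false 2 rfl (by with_unfolding_all rfl) rfl) a8_0
  have a3_2 : E h k r (.inl 3, 2) (.inl 0, 1) :=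
    .trans _ _ _ (.symm _ _ (lk (.inl 4) true 2 rfl (by with_unfolding_all rfl) rfl)) a4_2
  have a5_1 : E h k r (.inl 5, 1) (.inl 0, 1) :=
    .trans _ _ _ (lk (.inl 5) true 1 rfl (by with_unfolding_all rfl) rfl) a1_1
  have a2_1 : E h k r (.inl 2, 1) (.inl 0, 1) :=
    .trans _ _ _ (.symm _ _ (lk (ce h) false 1 rfl (hi_ce _ _) (by simp [dd, ce]))) ae_3
  have a10_2 : E h k r (.inl 10, 2) (.inl 0, 1) :=
    .trans _ _ _ (lk (.inl 10) true 2 rfl (by with_unfolding_all rfl) rfl) a9_0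
  have ae_2 : E h k r (ce h, 2) (.inl 0, 1) :=
    .trans _ _ _ (.symm _ _ (chain 0 2))
      (.trans _ _ _ (.symm _ _ (lk (.inl 3) true 2 rfl (by with_unfolding_all rfl) rfl)) a3_2)
  have a7_1 : E h k r (.inl 7, 1) (.inl 0, 1) :=
    .trans _ _ _ (lk (.inl 7) false 0 rfl (by with_unfolding_all rfl) rfl) a3_2
  have a0_2 : E h k r (.inl 0, 2) (.inl 0, 1) :=
    .trans _ _ _ (.symm _ _ (lk (.inl 5) false 0 rfl (by with_unfolding_all rfl) rfl)) a5_1
  have a6_1 : E h k r (.inl 6, 1) (.inl 0, 1) :=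
    .trans _ _ _ (lk (.inl 6) true 1 rfl (by with_unfolding_all rfl) rfl) a5_1
  obtain ⟨u | j, a⟩ := p
  · fin_cases u <;> fin_cases a
    · exact a0_0
    · exact a0_1
    · exact a0_2
    · exact a0_3
    · exact a1_0
    · exact a1_1
    · exact a1_2
    · exact a1_3
    · exact a2_0
    · exact a2_1
    · exact a2_2
    · exact a2_3
    · exact a3_0
    · exact a3_1
    · exact a3_2
    · exact a3_3
    · exact a4_0
    · exact a4_1
    · exact a4_2
    · exact a4_3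
    · exact a5_0
    · exact a5_1
    · exact a5_2
    · exact a5_3
    · exact a6_0
    · exact a6_1
    · exact a6_2
    · exact a6_3
    · exact a7_0
    · exact a7_1
    · exact a7_2
    · exact a7_3
    · exact a8_0
    · exact a8_1
    · exact a8_2
    · exact a8_3
    · exact a9_0
    · exact a9_1
    · exact a9_2
    · exact a9_3
    · exact a10_0
    · exact a10_1
    · exact a10_2
    · exact a10_3
  · refine .trans _ _ _ (chain j a) ?_
    fin_cases a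
    · exact ae_0
    · exact ae_1
    · exact ae_2
    · exact ae_3

theorem gen (c : Fin 3) : ((V h k r).per c : ℤ) ∈ AddSubgroup.closure
    {z | ∃ F l, (V h k r).cusp ((V h k r).lo F l).1 ((V h k r).lo F l).2 = c ∧
      z = (V h k r).disc F l} := by
  fin_cases c
  · refine AddSubgroup.subset_closure ⟨(.inl 6, false), 0, rfl, ?_⟩
    rw [disc_eq]
    exact (mul_one _).symm
  · refine AddSubgroup.subset_closure ⟨(.inl 8, true), 0, rfl, ?_⟩
    rw [disc_eq]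
    exact (mul_one _).symm
  · have m1 := AddSubgroup.subset_closure (k := {z | ∃ F l, (V h k r).cusp ((V h k r).lo F l).1
      ((V h k r).lo F l).2 = 2 ∧ z = (V h k r).disc F l}) ⟨(.inl 5, true), 0, rfl, rfl⟩
    have m2 := AddSubgroup.subset_closure (k := {z | ∃ F l, (V h k r).cusp ((V h k r).lo F l).1
      ((V h k r).lo F l).2 = 2 ∧ z = (V h k r).disc F l}) ⟨(.inl 10, false), 1, rfl, rfl⟩
    rw [disc_eq] at m1 m2
    have := neg_mem (add_mem (add_mem m1 m1) m2)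
    have e : ((V h k r).per 2 : ℤ) = -((V h k r).per 2 * (1 + h) + (V h k r).per 2 * (1 + h) +
      (V h k r).per 2 * (-3 - 2 * h)) := by ring
    show ((V h k r).per 2 : ℤ) ∈ _
    rw [e]
    exact this

theorem tree0 (u : U h) : EqvGen (V h k r).Lnk0 u (.inl 0) := by
  have l : ∀ (u : U h) s u', (up (u, s)).1 = u' → pot0 k r u = pot0 k r u' + w k r (u, s) →
      EqvGen (V h k r).Lnk0 u u' := fun u s u' h1 h2 => .rel _ _ ⟨s, h1, h2⟩
  have d : ∀ {u u' : U h} s, (up (u, s)).1 = u' → pot0 k r u = pot0 k r u' + w k r (u, s) →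
      EqvGen (V h k r).Lnk0 u (.inl 0) → EqvGen (V h k r).Lnk0 u' (.inl 0) :=
    fun s h1 h2 h3 => .trans _ _ _ (.symm _ _ (l _ s _ h1 h2)) h3
  have s0 : EqvGen (V h k r).Lnk0 (.inl 0) (.inl 0) := .refl _
  have s4 := d (u' := .inl 4) false rfl (by simp [pot0, pot0B, w, wF]) s0
  have s10 := d (u' := .inl 10) true rfl (by simp [pot0, pot0B, w, wT]) s0
  have s9 := d (u' := .inl 9) false rfl (by simp [pot0, pot0B, w, wF]) s4
  have s3 := d (u' := .inl 3) true rfl (by simp [pot0, pot0B, w, wT]) s4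
  have s5 := d (u' := .inl 5) false rfl (by simp [pot0, pot0B, w, wF]) s10
  have s1 := d (u' := .inl 1) true rfl (by simp [pot0, pot0B, w, wT]) s5
  have s7 := d (u' := .inl 7) true rfl (by simp [pot0, pot0B, w, wT]) s1
  have s6 := d (u' := .inl 6) true rfl (by simp [pot0, pot0B, w, wT]) s7
  have s8 := d (u' := .inl 8) false rfl (by simp [pot0, pot0B, w, wF]; ring) s9
  have s2 := d (u' := .inl 2) false rfl (by simp [pot0, pot0B, w, wF]; ring) s8
  obtain a | ⟨j, hj⟩ := u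
  · fin_cases a <;> assumption
  · induction hd : h - j generalizing j with
    | zero =>
      obtain rfl : j = h := by omega
      exact l _ true _ (by simp [up]) (by simp [pot0, pot0B, w]; ring)
    | succ e ih =>
      have h1 : j < h := by omega
      refine .trans _ _ _ (l _ false _ (by simp [up, h1]) ?_) (ih (j + 1) (by omega) (by omega))
      simp [pot0, w]
      ring

theorem bx (hc : Nat.Coprime (k + 1) (r + 5)) : (V h k r).Bx where
  w_pos := w_pos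
  col_up := col_up
  ed_zero := by rintro ⟨a | j, _ | _⟩ <;> rfl
  sd_zero := by rintro ⟨a | j, _ | _⟩ <;> rfl
  o_zero := by rintro ⟨a | j, _ | _⟩ <;> rfl
  col_one := col_one
  col_two := col_two
  last := last
  step := step
  o_le := o_le
  ft_irr := ft_irr
  rt_irr := rt_irr
  m_pos := le_rfl
  mc_pos c := by fin_cases c <;> simp [V] <;> omega
  mc_cop := ⟨2, 1, hc⟩
  cusp_root c := by fin_cases c <;> rfl
  cusp_lnk := cusp_lnk
  disc_dvd F l := ⟨_, disc_eq F l⟩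
  tree := tree
  gen := gen
  pot0_dvd _ := one_dvd _
  tree0 := tree0

end Pool.Agent.Work.MP_563a32_gt.Fam
end

-- merged part: Pool.Agent.Work.MP_563a32_gt.Z3
section
/-! The dilatation of the family. -/

namespace Pool.Agent.Work.MP_563a32_gt.Fam
open Veer Finset

variable {h k r : ℕ}

theorem elim {K0 K1 K2 K4 K5 K6 K7 K9 e a v l : ℝ} (he : 0 < e) (hl : 0 < l)
    (e0 : K0 = K0 * (a * a * v) + e * (l * v)) (e2 : K2 = K2 * l + e) (e1 : K1 = K2 * (l * l) + K9)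
    (e9 : K9 = K2 * l + K4 * a) (e4 : K4 = K1 * (a * v) + e * (l * v)) (f1 : K1 = K0 * a + K5)
    (e5 : K5 = K0 + K6 * l) (e6 : K6 = K1 * (a * v) + K7) (e7 : K7 = K1 + e * l) :
    (1 - l) * (1 - v) * (1 + l * (a * a * v)) = 2 * (l * a * v) := by
  have g0 : K0 * (1 - a * a * v) = e * (l * v) := by linarith
  have g2 : K2 * (1 - l) = e := by linarith
  have g1 : K1 * (1 - a * a * v) = K2 * (l * (1 + l)) + e * (l * v * a) := by
    rw [e4] at e9
    linear_combination e1 + e9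
  have g3 : K1 * (1 - l * (1 + a * v)) = K0 * (1 + a) + e * (l * l) := by
    rw [e7] at e6
    rw [e6] at e5
    linear_combination f1 + e5
  apply mul_left_cancel₀ (mul_pos he hl).ne'
  linear_combination (1 - a * a * v) * (1 - l) * g3 - (1 - l) * (1 - l * (1 + a * v)) * g1 -
    (1 - l * (1 + a * v)) * (l * (1 + l)) * g2 + (1 - l) * (1 + a) * g0

theorem eig (G : (V h k r).Geo) (hG : G.Ok) :
    (G.x ^ (r + 5) - 1) * (G.x ^ (k + 1) - 1) * G.x ^ ((h + 1) * (k + 1)) < 2 := by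
  have x1 := hG.one_lt
  have x0 : 0 < G.x := by linarith
  have e0 : G.H (.inl 0) = G.H (.inl 0) / G.x ^ (3 + 2 * h + 3 * k + 2 * (h * k)) +
    G.H (ce h) / G.x ^ (2 + k + r) := hG.eqH (.inl 0, false)
  have e2 : G.H (.inl 2) = G.H (.inl 2) / G.x ^ (5 + r) + G.H (ce h) / G.x ^ 1 :=
    hG.eqH (.inl 2, false)
  have e1 : G.H (.inl 1) = G.H (.inl 2) / G.x ^ (8 + 2 * r) + G.H (.inl 9) / G.x ^ 1 :=
    hG.eqH (.inl 1, true)
  have e9 : G.H (.inl 9) = G.H (.inl 2) / G.x ^ (2 + r) +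
    G.H (.inl 4) / G.x ^ (1 + h + k + h * k) := hG.eqH (.inl 9, false)
  have e4 : G.H (.inl 4) = G.H (.inl 1) / G.x ^ (1 + h + 2 * k + h * k) +
    G.H (ce h) / G.x ^ (4 + k + r) := hG.eqH (.inl 4, true)
  have f1 : G.H (.inl 1) = G.H (.inl 0) / G.x ^ (4 + h + k + h * k) + G.H (.inl 5) / G.x ^ 1 :=
    hG.eqH (.inl 1, false)
  have e5 : G.H (.inl 5) = G.H (.inl 0) / G.x ^ 2 + G.H (.inl 6) / G.x ^ (2 + r) :=
    hG.eqH (.inl 5, false)
  have e6 : G.H (.inl 6) = G.H (.inl 1) / G.x ^ (4 + h + 2 * k + h * k) + G.H (.inl 7) / G.x ^ 1 :=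
    hG.eqH (.inl 6, false)
  have e7 : G.H (.inl 7) = G.H (.inl 1) / G.x ^ 1 + G.H (ce h) / G.x ^ (5 + r) :=
    hG.eqH (.inl 7, false)
  have he := hG.H_pos (ce h)
  have hA : G.x ^ ((h + 1) * (k + 1)) = G.x ^ (h * k) * G.x ^ h * G.x ^ k * G.x := by ring
  rw [hA]
  simp only [pow_add, two_mul, show 3 * k = k + k + k by ring] at e0 e2 e1 e9 e4 f1 e5 e6 e7 ⊢
  have pa : 1 ≤ G.x ^ (h * k) := one_le_pow₀ x1.le
  have pb : 1 ≤ G.x ^ h := one_le_pow₀ x1.le
  have pc : 1 ≤ G.x ^ k := one_le_pow₀ x1.le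
  have pd : 1 ≤ G.x ^ r := one_le_pow₀ x1.le
  generalize G.x ^ (h * k) = a at *
  generalize G.x ^ h = b at *
  generalize G.x ^ k = c at *
  generalize G.x ^ r = d at *
  generalize G.x = x at *
  have a0 : 0 < a := by linarith
  have b0 : 0 < b := by linarith
  have c0 : 0 < c := by linarith
  have d0 : 0 < d := by linarith
  have key := elim (K0 := G.H (.inl 0) / x ^ 5) (K1 := G.H (.inl 1) / x ^ 2) (K2 := G.H (.inl 2))
    (K4 := G.H (.inl 4) / x ^ 3) (K5 := G.H (.inl 5) / x ^ 3) (K6 := G.H (.inl 6))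
    (K7 := G.H (.inl 7) / x) (K9 := G.H (.inl 9) / x ^ 3) (e := G.H (ce h) / x)
    (a := 1 / (a * b * c * x)) (v := 1 / (c * x)) (l := 1 / (d * x ^ 5)) (by positivity)
    (by positivity)
    (by conv_lhs => rw [e0]
        field_simp)
    (by conv_lhs => rw [e2]
        field_simp)
    (by conv_lhs => rw [e1]
        field_simp)
    (by conv_lhs => rw [e9]
        field_simp)
    (by conv_lhs => rw [e4]
        field_simp)
    (by conv_lhs => rw [f1]
        field_simp)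
    (by conv_lhs => rw [e5]
        field_simp)
    (by conv_lhs => rw [e6]
        field_simp)
    (by conv_lhs => rw [e7]
        field_simp)
  have h1 : 1 < d * x ^ 5 := one_lt_mul_of_le_of_lt pd (one_lt_pow₀ x1 (show 5 ≠ 0 by norm_num))
  have h2 : 1 < c * x := one_lt_mul_of_le_of_lt pc x1
  rw [pow_one]
  have h3 : 0 < a * b * c * x := by positivity
  generalize d * x ^ 5 = L at *
  generalize a * b * c * x = A at *
  generalize c * x = n at *
  have L0 : 0 < L := by linarith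
  have n0 : 0 < n := by linarith
  have k1 : (1 - 1 / L) * (1 - 1 / n) < 2 * (1 / L * (1 / A) * (1 / n)) := by
    rw [← key]
    have p1 : 0 < 1 - 1 / L := by rw [sub_pos, div_lt_one L0]; exact h1
    have p2 : 0 < 1 - 1 / n := by rw [sub_pos, div_lt_one n0]; exact h2
    refine lt_mul_of_one_lt_right (mul_pos p1 p2) ?_
    have : 0 < 1 / L * (1 / A * (1 / A) * (1 / n)) := by positivity
    linarith
  have k2 := mul_lt_mul_of_pos_right k1 (show 0 < L * n * A by positivity)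
  have k3 : (1 - 1 / L) * (1 - 1 / n) * (L * n * A) = (L - 1) * (n - 1) * A := by field_simp
  have k4 : 2 * (1 / L * (1 / A) * (1 / n)) * (L * n * A) = 2 := by field_simp
  rwa [k3, k4] at k2

theorem upper (hc : Nat.Coprime (k + 1) (r + 5)) :
    ∃ l ∈ Spectrum ((h + 1) * (k + 1) + 1) (r + 5), 0 < l ∧
      (Real.exp ((r + 5 : ℕ) * l) - 1) * (Real.exp ((k + 1 : ℕ) * l) - 1) < 2 := by
  have hs : ∑ j : Fin (h + 1), (w k r ((.inr j : U h), true) + w k r ((.inr j : U h), false)) =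
      h * (k + 3) + (r + k + 3) := by
    rw [Fin.sum_univ_castSucc, sum_congr rfl (g := fun _ => k + 3) (fun j _ => by simp [w])]
    simp [w]
  have hp : ∀ c, (V h k r).prt c = (∑ a : Fin 11, ((if cuB a 2 = c then wT h k r a else 0) +
      if cuB a 0 = c then wF h k r a else 0)) +
      if 0 = c then h * (k + 3) + (r + k + 3) else 0 := by
    intro c
    rw [prt, sum_filter, Fintype.sum_prod_type, Fintype.sum_sum_type]
    simp only [Fintype.sum_bool]
    congr 1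
    rw [← hs]
    split_ifs with h0
    · exact sum_congr rfl fun j _ => by simp [V_cusp, V_w, cusp, h0]
    · exact sum_eq_zero fun j _ => by simp [V_cusp, cusp, h0]
  obtain ⟨G, hG, hm⟩ := (bx (h := h) hc).realise {1} (g := (h + 1) * (k + 1) + 1) (n := r + 5)
    (by
      intro c hc
      rw [hp]
      fin_cases c
      · simp [per, V, cuB, wT, wF, Fin.sum_univ_succ]
        nlinarith
      · simp at hc
      · simp [per, V, cuB, wT, wF, Fin.sum_univ_succ]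
        nlinarith [Nat.zero_le (h * k)])
    (by
      rw [Fintype.sum_prod_type, Fintype.sum_sum_type]
      simp only [Fintype.sum_bool, V_w]
      rw [hs]
      simp [V, w, wT, wF, Fin.sum_univ_succ]
      ring)
    (by simp [V])
  have x1 := hG.one_lt
  have x0 : 0 < G.x := by linarith
  have e : ((V h k r).m : ℝ) * Real.log G.x = Real.log G.x := by simp [V]
  rw [e] at hm
  refine ⟨_, hm, Real.log_pos x1, ?_⟩
  rw [← Real.log_pow, ← Real.log_pow, Real.exp_log (by positivity), Real.exp_log (by positivity)]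
  refine lt_of_le_of_lt (le_mul_of_one_le_right (mul_nonneg ?_ ?_) (one_le_pow₀ x1.le)) (eig G hG)
  · exact sub_nonneg.2 (one_le_pow₀ x1.le)
  · exact sub_nonneg.2 (one_le_pow₀ x1.le)

end Pool.Agent.Work.MP_563a32_gt.Fam
end
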