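import Pool.Agent.Work.MP_563a32_gt.DMain
import Pool.Agent.Work.MP_563a32_gt.AMain
import Mathlib
import Pool.Agent.Work.MP_563a32_gt.Z3

-- merged part: Pool.Agent.Work.MP_563a32_gt.S0
section
/-! Quadrants at the start of a prong. The quadrant `(q, η)`, `η = ± 1`, consists of the points
`s + η t I` with `s, t > 0` in the domain of `G q`. -/

namespace Pool.Agent.Work.MP_563a32_gt
open Filter Topology Complex

namespace DevData
variable {S Pr X : Type} (E : DevData S Pr X)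

open Classical in
/-- The quadrant `(nb η p, η)` lies next to the quadrant `(p, - η)`, across a vertical prong. -/
noncomputable def nb (η : ℝ) : Equiv.Perm Pr := if η = 1 then E.rot else E.rot⁻¹

/-- The horizontal segment at height `t` ends, after length `a`, at the start of the prong `p`. -/
def Hit (q : Pr) (a t : ℝ) (p : Pr) : Prop :=
  0 < a ∧ ∀ s : ℝ, 0 ≤ s → s < a → E.Same (-1) q (s + t * I) p ((a - s : ℝ) : ℂ)

/-- An empty rectangle in the quadrant `(q, η)`. -/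
def Box (q : Pr) (η a b : ℝ) : Prop :=
  ∀ s t : ℝ, 0 ≤ s → s < a → 0 < t → t < b → (s : ℂ) + (η * t : ℝ) * I ∈ E.Dom q

/-- A singular point at the far corner of an empty rectangle. -/
def Corner (q : Pr) (η a b : ℝ) (p : Pr) : Prop :=
  0 < b ∧ E.Hit q a (η * b) p ∧ ∀ t : ℝ, 0 < t → t < b → (a : ℂ) + (η * t : ℝ) * I ∈ E.Dom q

/-- A corner whose gap to the next corner is larger than the gap to the previous one. -/
structure Inc (q : Pr) (η a b : ℝ) (p : Pr) (ap bp an : ℝ) : Prop where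
  cor : E.Corner q η a b p
  prev : ∃ p', E.Corner q η ap bp p'
  lt_a : ap < a
  lt_b : b < bp
  up : E.Box q η a bp
  right : E.Box q η an b
  gap : a - ap < an - a

/-- A crossing of a horizontal and a vertical prong that belong to the orbit of `q₀`. -/
def Hom (q₀ : Pr) (s t : ℝ) : Prop :=
  0 < s ∧ t ≠ 0 ∧ ∃ q₁ q₂, E.σ.SameCycle q₀ q₁ ∧ E.σ.SameCycle q₀ q₂ ∧ E.G q₁ s = E.G q₂ (t * I)

end DevData
end Pool.Agent.Work.MP_563a32_gt
end

-- merged part: Pool.Agent.Work.MP_563a32_gt.S1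
section
/-! Powers of the map, neighbouring quadrants, crossings of prongs.

Plan. `pow_dom`, `pow_same`: `Int.induction_on` with `F_dom`, `same_F` (file D1) and
`diag a (diag b z) = diag (a * b) z`. `pow_eq`: `germ`, `pow_same`, `Same.eq`. `nb_dom`, `nb_same`:
`rot_dom`, `same_rot`; for `η = -1` apply them to `rot⁻¹ p` and `-z`, then `Same.symm`.
`prop_v`: `Ax.prop` on the image of `uIcc 0 v` under `u ↦ u * I`. `no_sing_v`: both sides have a
limit along `𝓝[>] 0` (`cont`, `isOpen`; `lim_im`, and `rot_G` for `η = -1`), then `ne_pt`.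
`prod_ge`: reduce to `t > 0` by `rot_G`; take `j : ℤ` with `r / lam ≤ lam ^ j * t < r`
(`exists_mem_Ico_zpow`), apply `pow_eq` and `cross`: `r ≤ s / lam ^ j`. `fin_hom`: treat `t > 0`
and `t < 0` separately (`rot_G`); by `prod_ge` the first coordinates lie in a compact interval
`[δ, L]`, `δ > 0`; by `local_im` they have no accumulation point there (see `D4_fin` for the same
argument), and by `inj_im` the first coordinate determines the second. -/

namespace Pool.Agent.Work.MP_563a32_gt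
open Filter Topology Complex

namespace DevData
variable {S Pr X : Type} [TopologicalSpace S] [T2Space S] {E : DevData S Pr X}

theorem diag_pt (l s t : ℝ) : diag l (s + t * I) = (s / l : ℝ) + (l * t : ℝ) * I := by
  apply Complex.ext <;> simp only [diag, add_re, add_im, mul_re, mul_im, ofReal_re, ofReal_im,
    I_re, I_im] <;> ring

theorem S1_ind {P : ℤ → Prop} (h0 : P 0) (h : ∀ j, P (j + 1) ↔ P j) (j : ℤ) : P j :=
  Int.induction_on j h0 (fun i hi => (h i).2 hi) fun i hi => (h _).1 (by rwa [sub_add_cancel])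

theorem S1_diag_one (z : ℂ) : diag 1 z = z := by
  apply Complex.ext <;> simp [diag]

theorem S1_succ (σ : Equiv.Perm Pr) (j : ℤ) (q : Pr) : (σ ^ (j + 1)) q = σ ((σ ^ j) q) := by
  rw [add_comm, zpow_one_add, Equiv.Perm.mul_apply]

omit [T2Space S] in
theorem Ax.S1_diag_succ (A : E.Ax) (j : ℤ) (z : ℂ) :
    diag (E.lam ^ (j + 1)) z = diag E.lam (diag (E.lam ^ j) z) := by
  rw [zpow_add_one₀ (zero_lt_one.trans A.one_lt).ne']
  apply Complex.ext
  · simp only [diag, div_div]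
  · simp only [diag]
    ring

omit [T2Space S] in
theorem Ax.S1_neg (A : E.Ax) (q : Pr) {t : ℝ} (ht : 0 < t) :
    E.G (E.rot q) (t * I) = E.G q ((-t : ℝ) * I) := by
  rw [A.rot_G q _ (by simpa using ht) (A.mem_im _ t ht.ne'), ofReal_neg, neg_mul]

theorem Ax.pow_dom (A : E.Ax) (j : ℤ) (q : Pr) (z : ℂ) :
    diag (E.lam ^ j) z ∈ E.Dom ((E.σ ^ j) q) ↔ z ∈ E.Dom q := by
  refine S1_ind (P := fun j => diag (E.lam ^ j) z ∈ E.Dom ((E.σ ^ j) q) ↔ z ∈ E.Dom q) ?_
    (fun j => ?_) j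
  · simp [S1_diag_one]
  · rw [A.S1_diag_succ, S1_succ, A.F_dom]

theorem Ax.pow_same (A : E.Ax) (j : ℤ) {ε q w q' w'} (hε : ε = 1 ∨ ε = -1) :
    E.Same ε ((E.σ ^ j) q) (diag (E.lam ^ j) w) ((E.σ ^ j) q') (diag (E.lam ^ j) w') ↔
      E.Same ε q w q' w' := by
  refine S1_ind (P := fun j => E.Same ε ((E.σ ^ j) q) (diag (E.lam ^ j) w) ((E.σ ^ j) q')
    (diag (E.lam ^ j) w') ↔ E.Same ε q w q' w') ?_ (fun j => ?_) j
  · simp [S1_diag_one]
  · rw [A.S1_diag_succ, A.S1_diag_succ, S1_succ, S1_succ, A.same_F hε]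

theorem Ax.pow_eq (A : E.Ax) (j : ℤ) {q w q' w'} (hw : w ∈ E.Dom q) (hw' : w' ∈ E.Dom q')
    (h : E.G q w = E.G q' w') :
    E.G ((E.σ ^ j) q) (diag (E.lam ^ j) w) = E.G ((E.σ ^ j) q') (diag (E.lam ^ j) w') := by
  rcases A.germ _ _ _ _ hw hw' h with h1 | h1
  · exact ((A.pow_same j (Or.inl rfl)).2 h1).eq
  · exact ((A.pow_same j (Or.inr rfl)).2 h1).eq

theorem Ax.nb_dom (A : E.Ax) {η : ℝ} (hη : η = 1 ∨ η = -1) (p : Pr) {z : ℂ} (hz : 0 < η * z.im) :
    z ∈ E.Dom (E.nb η p) ↔ -z ∈ E.Dom p := by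
  rcases hη with rfl | rfl
  · rw [nb, if_pos rfl]
    exact A.rot_dom p z (by simpa using hz)
  · rw [nb, if_neg (by norm_num)]
    simpa using (A.rot_dom (E.rot⁻¹ p) (-z) (by simpa using hz)).symm

theorem Ax.nb_same (A : E.Ax) {η : ℝ} (hη : η = 1 ∨ η = -1) (p : Pr) {z : ℂ} (hz : 0 < η * z.im)
    (h : -z ∈ E.Dom p) : E.Same (-1) (E.nb η p) z p (-z) := by
  rcases hη with rfl | rfl
  · rw [nb, if_pos rfl]
    have h1 : 0 < z.im := by simpa using hz
    exact A.same_rot p h1 ((A.rot_dom p z h1).2 h)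
  · rw [nb, if_neg (by norm_num)]
    simpa using (A.same_rot (E.rot⁻¹ p) (z := -z) (by simpa using hz) (by simpa using h)).symm
      (Or.inr rfl)

theorem Ax.base_nb (A : E.Ax) (η : ℝ) (p : Pr) : E.base (E.nb η p) = E.base p := by
  unfold nb
  split_ifs
  · exact A.base_rot p
  · simpa using (A.base_rot (E.rot⁻¹ p)).symm

/-- Vertical propagation. -/
theorem Ax.prop_v (A : E.Ax) {ε q w q' w'} (hε : ε = 1 ∨ ε = -1) (h : E.Same ε q w q' w') (v : ℝ)
    (hd : ∀ u ∈ Set.uIcc 0 v, w + (u : ℝ) * I ∈ E.Dom q)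
    (hd' : ∀ u ∈ Set.uIcc 0 v, w' + ε * ((u : ℝ) * I) ∈ E.Dom q') :
    E.Same ε q (w + v * I) q' (w' + ε * (v * I)) := by
  have c : Continuous fun u : ℝ => (u : ℂ) * I := by fun_prop
  refine A.prop hε h (U := (fun u : ℝ => (u : ℂ) * I) '' Set.uIcc 0 v)
    (isPreconnected_uIcc.image _ c.continuousOn)
    ⟨0, Set.left_mem_uIcc, by simp⟩ ?_ ?_ _ ⟨v, Set.right_mem_uIcc, rfl⟩
  · rintro _ ⟨t, ht, rfl⟩
    exact hd t ht
  · rintro _ ⟨t, ht, rfl⟩
    exact hd' t ht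

/-- Horizontal propagation. -/
theorem Ax.prop_r (A : E.Ax) {ε q w q' w'} (hε : ε = 1 ∨ ε = -1) (h : E.Same ε q w q' w') (v : ℝ)
    (hd : ∀ u ∈ Set.uIcc 0 v, w + (u : ℝ) ∈ E.Dom q)
    (hd' : ∀ u ∈ Set.uIcc 0 v, w' + ε * (u : ℝ) ∈ E.Dom q') :
    E.Same ε q (w + v) q' (w' + ε * v) := by
  refine A.prop hε h (U := (fun u : ℝ => (u : ℂ)) '' Set.uIcc 0 v)
    (isPreconnected_uIcc.image _ continuous_ofReal.continuousOn)
    ⟨0, Set.left_mem_uIcc, rfl⟩ ?_ ?_ _ ⟨v, Set.right_mem_uIcc, rfl⟩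
  · rintro _ ⟨t, ht, rfl⟩
    exact hd t ht
  · rintro _ ⟨t, ht, rfl⟩
    exact hd' t ht

theorem Ax.no_sing_v (A : E.Ax) {q p : Pr} {w c : ℂ} {η : ℝ} (hη : η = 1 ∨ η = -1)
    (hw : w ∈ E.Dom q) {δ : ℝ} (hδ : 0 < δ)
    (h : ∀ v : ℝ, 0 < v → v < δ → E.G q (w + c * v) = E.G p ((η * v : ℝ) * I)) : False := by
  have c1 : Continuous fun s : ℝ => w + c * s := by fun_prop
  have t0 : Tendsto (fun s : ℝ => w + c * s) (𝓝[>] 0) (𝓝 w) := by
    simpa using (c1.tendsto 0).mono_left (nhdsWithin_le_nhds (s := Set.Ioi 0))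
  have t1 := ((A.cont q).continuousAt ((A.isOpen q).mem_nhds hw)).tendsto.comp t0
  rcases hη with rfl | rfl
  · refine A.ne_pt q w hw _ (tendsto_nhds_unique_of_eventuallyEq t1 (A.lim_im p) ?_)
    filter_upwards [Ioo_mem_nhdsGT hδ] with s hs
    simpa using h s hs.1 hs.2
  · refine A.ne_pt q w hw _ (tendsto_nhds_unique_of_eventuallyEq t1 (A.lim_im (E.rot p)) ?_)
    filter_upwards [Ioo_mem_nhdsGT hδ] with s hs
    rw [A.S1_neg p hs.1]
    simpa using h s hs.1 hs.2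

theorem Ax.S1_prod (A : E.Ax) {q q' : Pr} {s t : ℝ} (hs : 0 < s) (ht : 0 < t)
    (h : E.G q s = E.G q' (t * I)) : E.r ^ 2 / E.lam ≤ s * t := by
  have hl : 0 < E.lam := zero_lt_one.trans A.one_lt
  obtain ⟨n, h1, h2⟩ := exists_mem_Ioc_zpow (div_pos A.r_pos ht) A.one_lt
  have hp : 0 < E.lam ^ n := zpow_pos hl n
  rw [lt_div_iff₀ ht] at h1
  rw [div_le_iff₀ ht, zpow_add_one₀ hl.ne'] at h2
  have h3 := A.pow_eq n (A.mem_re q s hs) (A.mem_im q' t ht.ne') h
  have e1 : diag (E.lam ^ n) (s : ℂ) = ((s / E.lam ^ n : ℝ) : ℂ) := by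
    apply Complex.ext <;> simp only [diag, ofReal_re, ofReal_im, mul_zero]
  have e2 : diag (E.lam ^ n) ((t : ℂ) * I) = ((E.lam ^ n * t : ℝ) : ℂ) * I := by
    apply Complex.ext <;> simp only [diag, mul_re, mul_im, ofReal_re, ofReal_im, I_re, I_im] <;>
      ring
  rw [e1, e2] at h3
  have h4 : E.r ≤ s / E.lam ^ n := not_lt.1 fun h4 =>
    A.cross _ _ _ _ (div_pos hs hp) h4 (mul_pos hp ht) h1 h3
  rw [le_div_iff₀ hp] at h4
  rw [div_le_iff₀ hl]
  calc E.r ^ 2 = E.r * E.r := sq _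
    _ ≤ E.r * (E.lam ^ n * E.lam * t) := mul_le_mul_of_nonneg_left h2 A.r_pos.le
    _ = E.r * E.lam ^ n * (t * E.lam) := by ring
    _ ≤ s * (t * E.lam) := mul_le_mul_of_nonneg_right h4 (mul_pos ht hl).le
    _ = s * t * E.lam := by ring

theorem Ax.prod_ge (A : E.Ax) {q q' : Pr} {s t : ℝ} (hs : 0 < s) (ht : t ≠ 0)
    (h : E.G q s = E.G q' (t * I)) : E.r ^ 2 / E.lam ≤ s * |t| := by
  rcases ht.lt_or_gt with h1 | h1
  · rw [abs_of_neg h1]
    refine A.S1_prod (q := q) (q' := E.rot q') hs (neg_pos.2 h1) ?_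
    rw [A.S1_neg q' (neg_pos.2 h1), neg_neg, h]
  · rw [abs_of_pos h1]
    exact A.S1_prod hs h1 h

theorem Ax.S1_fin (A : E.Ax) (q q' : Pr) (L B : ℝ) :
    {x : ℝ × ℝ | 0 < x.1 ∧ x.1 ≤ L ∧ 0 < x.2 ∧ x.2 ≤ B ∧
      E.G q x.1 = E.G q' (x.2 * I)}.Finite := by
  rcases le_or_gt B 0 with hB | hB
  · refine Set.finite_empty.subset ?_
    rintro x ⟨-, -, h3, h4, -⟩
    exact absurd (h3.trans_le h4) (not_lt.2 hB)
  have hδ : 0 < E.r ^ 2 / E.lam / B :=
    div_pos (div_pos (pow_pos A.r_pos 2) (zero_lt_one.trans A.one_lt)) hB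
  have h : (Set.Icc (E.r ^ 2 / E.lam / B) L ∩
      {s : ℝ | ∃ t : ℝ, 0 < t ∧ t ≤ B ∧ E.G q s = E.G q' (t * I)}).Finite := by
    refine isCompact_Icc.induction_on
      (p := fun U => (U ∩ {s : ℝ | ∃ t : ℝ, 0 < t ∧ t ≤ B ∧ E.G q s = E.G q' (t * I)}).Finite)
      (by simp) (fun U U' hU h => h.subset (Set.inter_subset_inter_left _ hU))
      (fun U U' h h' => by rw [Set.union_inter_distrib_right]; exact h.union h') fun s hs => ?_
    refine ⟨_, mem_nhdsWithin_of_mem_nhds (continuous_ofReal.continuousAt.eventually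
      (A.local_im (A.mem_re q s (hδ.trans_le hs.1)) q' B)),
      (Set.finite_singleton s).subset fun u hu => ?_⟩
    obtain ⟨hu1, t, h1, h2, h3⟩ := hu
    simpa using (hu1 t h1 h2 h3).1
  refine Set.Finite.of_injOn (f := Prod.fst) ?_ ?_ h
  · rintro ⟨s, t⟩ ⟨h1, h2, h3, h4, h5⟩
    refine ⟨⟨?_, h2⟩, t, h3, h4, h5⟩
    rw [div_le_iff₀ hB]
    exact (A.S1_prod h1 h3 h5).trans (mul_le_mul_of_nonneg_left h4 h1.le)
  · rintro ⟨s, t⟩ ⟨-, -, h3, -, h5⟩ ⟨s', t'⟩ ⟨-, -, h3', -, h5'⟩ he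
    obtain rfl : s = s' := he
    exact Prod.ext rfl (A.inj_im _ _ _ _ h3 h3' (h5.symm.trans h5')).2

theorem Ax.fin_hom (A : E.Ax) (q q' : Pr) (L B : ℝ) :
    {x : ℝ × ℝ | 0 < x.1 ∧ x.1 ≤ L ∧ x.2 ≠ 0 ∧ |x.2| ≤ B ∧
      E.G q x.1 = E.G q' (x.2 * I)}.Finite := by
  refine ((A.S1_fin q q' L B).union
    ((A.S1_fin q (E.rot q') L B).image fun x => (x.1, -x.2))).subset ?_
  rintro ⟨s, t⟩ ⟨h1, h2, h3, h4, h5⟩
  rcases h3.lt_or_gt with h | h
  · refine Or.inr ⟨(s, -t), ⟨h1, h2, neg_pos.2 h, (neg_le_abs t).trans h4, ?_⟩, by simp⟩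
    rw [A.S1_neg q' (neg_pos.2 h), neg_neg]
    exact h5
  · exact Or.inl ⟨h1, h2, h, (le_abs_self t).trans h4, h5⟩

end DevData
end Pool.Agent.Work.MP_563a32_gt
end

-- merged part: Pool.Agent.Work.MP_563a32_gt.S2
section
/-! Corners seen from the singular point at the corner.

Plan. `not_mem`: `no_sing` with `ε = -1`, `δ = a`. `uniq`: `not_mem` twice gives `a = a'` (a point
`s + t I`, `s < a`, lies in the domain). `Hit.pow`, `Box.pow`, `Corner.pow`, `Inc.pow`: `pow_same`,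
`pow_dom`, `diag_pt`. `Corner.box`: `convex`. `Corner.axis`: take `0 < δ < min a (min v (r / 2))`; start
from the germ at `s = a - δ` given by `Hit`, that is `Same (-1) p δ q (a - δ + η b I)`; use
`Ax.prop` along the segment from `δ` to `η δ I` (in the slit disc of radius `r`, `mem_slit`; on the
side of `q` the points are `(a - x) + η (b - y) I` with `x, y ≥ 0`, `x + y = δ`, in the domain by
`Hit` for `y = 0` and by the third part of `Corner` and `convex` for `y > 0`); then `prop_v` from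
`η δ I` to `η v I` (`mem_im`; third part of `Corner`, and `mem_re` at `v = b`). `Corner.same`:
`axis` and `prop_h`. `rev`: `same` with `v = b` and `mem_re`. `left`: for `v = 0` this is `Hit` at
`s = 0`; otherwise `same` with `u = a`. -/

namespace Pool.Agent.Work.MP_563a32_gt
open Filter Topology Complex

namespace DevData
variable {S Pr X : Type} [TopologicalSpace S] [T2Space S] {E : DevData S Pr X}
  {q p : Pr} {η a b : ℝ}

omit [TopologicalSpace S] [T2Space S] in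
theorem S2_same {ε w w' z z' : ℂ} (h : E.Same ε q w p w') (e : w = z) (e' : w' = z') :
    E.Same ε q z p z' := e ▸ e' ▸ h

omit [TopologicalSpace S] [T2Space S] in
theorem S2_dom {w z : ℂ} (h : w ∈ E.Dom q) (e : w = z) : z ∈ E.Dom q := e ▸ h

theorem S2_diag_re (l s : ℝ) : diag l (s : ℂ) = ((s / l : ℝ) : ℂ) := by
  simpa using diag_pt l s 0

omit [T2Space S] in
theorem S2_pos (A : E.Ax) (j : ℤ) : 0 < E.lam ^ j := zpow_pos (one_pos.trans A.one_lt) j

theorem S2_ne (hη : η = 1 ∨ η = -1) {t : ℝ} (ht : 0 < t) : η * t ≠ 0 := by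
  rcases hη with rfl | rfl
  · simpa using ht.ne'
  · simpa using ht.ne'

/-- Propagation along a segment. -/
theorem S2_path (A : E.Ax) {ε w w' : ℂ} (hε : ε = 1 ∨ ε = -1) (h : E.Same ε q w p w') (c : ℂ)
    {T : ℝ} (hT : 0 ≤ T) (hd : ∀ y : ℝ, 0 ≤ y → y ≤ T → w + y * c ∈ E.Dom q)
    (hd' : ∀ y : ℝ, 0 ≤ y → y ≤ T → w' + ε * (y * c) ∈ E.Dom p) :
    E.Same ε q (w + T * c) p (w' + ε * (T * c)) := by
  have hc : Continuous fun y : ℝ => (y : ℂ) * c := by fun_prop
  refine A.prop hε h (U := (fun y : ℝ => (y : ℂ) * c) '' Set.Icc 0 T)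
    (isPreconnected_Icc.image _ hc.continuousOn) ⟨0, ⟨le_rfl, hT⟩, by simp⟩ ?_ ?_ _
    ⟨T, ⟨hT, le_rfl⟩, rfl⟩
  · rintro _ ⟨y, hy, rfl⟩
    exact hd y hy.1 hy.2
  · rintro _ ⟨y, hy, rfl⟩
    exact hd' y hy.1 hy.2

theorem Hit.not_mem (A : E.Ax) {t : ℝ} (h : E.Hit q a t p) : (a : ℂ) + t * I ∉ E.Dom q := by
  intro hw
  refine A.no_sing (q' := p) (ε := -1) hw h.1 fun s h0 h1 => ?_
  exact (S2_same (h.2 (a - s) (by linarith) (by linarith)) (by push_cast; ring)
    (by push_cast; ring)).eq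

theorem Hit.uniq (A : E.Ax) {t a' : ℝ} {p' : Pr} (h : E.Hit q a t p) (h' : E.Hit q a' t p') :
    a = a' := by
  rcases lt_trichotomy a a' with h1 | h1 | h1
  · exact absurd (h'.2 a h.1.le h1).1 (h.not_mem A)
  · exact h1
  · exact absurd (h.2 a' h'.1.le h1).1 (h'.not_mem A)

theorem Hit.pow (A : E.Ax) (j : ℤ) {t : ℝ} (h : E.Hit q a t p) :
    E.Hit ((E.σ ^ j) q) (a / E.lam ^ j) (E.lam ^ j * t) ((E.σ ^ j) p) := by
  have hl := S2_pos A j
  refine ⟨div_pos h.1 hl, fun s h0 h1 => ?_⟩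
  have h2 := (A.pow_same j (Or.inr rfl)).2
    (h.2 (s * E.lam ^ j) (mul_nonneg h0 hl.le) ((lt_div_iff₀ hl).1 h1))
  rw [diag_pt, S2_diag_re, mul_div_cancel_right₀ _ hl.ne', sub_div,
    mul_div_cancel_right₀ _ hl.ne'] at h2
  exact h2

theorem Box.pow (A : E.Ax) (j : ℤ) (h : E.Box q η a b) :
    E.Box ((E.σ ^ j) q) η (a / E.lam ^ j) (E.lam ^ j * b) := by
  have hl := S2_pos A j
  intro s t h0 h1 h2 h3
  have h4 := (A.pow_dom j q _).2 (h (s * E.lam ^ j) (t / E.lam ^ j) (mul_nonneg h0 hl.le)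
    ((lt_div_iff₀ hl).1 h1) (div_pos h2 hl) ((div_lt_iff₀' hl).2 h3))
  rw [diag_pt, mul_div_cancel_right₀ _ hl.ne', mul_left_comm, mul_div_cancel₀ _ hl.ne'] at h4
  exact h4

theorem Corner.pow (A : E.Ax) (j : ℤ) (h : E.Corner q η a b p) :
    E.Corner ((E.σ ^ j) q) η (a / E.lam ^ j) (E.lam ^ j * b) ((E.σ ^ j) p) := by
  have hl := S2_pos A j
  refine ⟨mul_pos hl h.1, ?_, fun t h2 h3 => ?_⟩
  · rw [mul_left_comm]
    exact h.2.1.pow A j
  · have h4 := (A.pow_dom j q _).2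
      (h.2.2 (t / E.lam ^ j) (div_pos h2 hl) ((div_lt_iff₀' hl).2 h3))
    rw [diag_pt, mul_left_comm, mul_div_cancel₀ _ hl.ne'] at h4
    exact h4

theorem Inc.pow (A : E.Ax) (j : ℤ) {ap bp an : ℝ} (h : E.Inc q η a b p ap bp an) :
    E.Inc ((E.σ ^ j) q) η (a / E.lam ^ j) (E.lam ^ j * b) ((E.σ ^ j) p) (ap / E.lam ^ j)
      (E.lam ^ j * bp) (an / E.lam ^ j) := by
  have hl := S2_pos A j
  obtain ⟨p', hp'⟩ := h.prev
  refine ⟨h.cor.pow A j, ⟨_, hp'.pow A j⟩, div_lt_div_of_pos_right h.lt_a hl,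
    mul_lt_mul_of_pos_left h.lt_b hl, h.up.pow A j, h.right.pow A j, ?_⟩
  rw [← sub_div, ← sub_div]
  exact div_lt_div_of_pos_right h.gap hl

theorem Corner.box (A : E.Ax) (hη : η = 1 ∨ η = -1) (h : E.Corner q η a b p) {s t : ℝ}
    (h0 : 0 ≤ s) (h1 : s ≤ a) (h2 : 0 < t) (h3 : t < b) :
    (s : ℂ) + (η * t : ℝ) * I ∈ E.Dom q :=
  A.convex q a (η * t) (S2_ne hη h2) (h.2.2 t h2 h3) s (Set.mem_uIcc_of_le h0 h1)

theorem Corner.axis (A : E.Ax) (hη : η = 1 ∨ η = -1) (h : E.Corner q η a b p) {v : ℝ}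
    (h0 : 0 < v) (h1 : v ≤ b) :
    E.Same (-1) p ((η * v : ℝ) * I) q (a + (η * (b - v) : ℝ) * I) := by
  have ha : 0 < a := h.2.1.1
  have hr := A.r_pos
  obtain ⟨δ, d0, d1, d2, d3⟩ : ∃ δ : ℝ, 0 < δ ∧ δ < a ∧ δ < v ∧ δ < E.r := by
    have m0 : 0 < min a (min v E.r) := lt_min ha (lt_min h0 hr)
    have m1 := min_le_left a (min v E.r)
    have m2 := (min_le_right a (min v E.r)).trans (min_le_left v E.r)
    have m3 := (min_le_right a (min v E.r)).trans (min_le_right v E.r)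
    exact ⟨min a (min v E.r) / 2, by linarith only [m0], by linarith, by linarith, by linarith⟩
  have habs : |η| = 1 := by
    rcases hη with rfl | rfl
    · exact abs_one
    · rw [abs_neg, abs_one]
  have s0 := h.2.1.2 (a - δ) (by linarith) (by linarith)
  have s1 : E.Same (-1) p (δ : ℂ) q ((a - δ : ℝ) + (η * b : ℝ) * I) :=
    S2_same (s0.symm (Or.inr rfl)) (by push_cast; ring) rfl
  have s2 : E.Same (-1) p ((η * δ : ℝ) * I) q (a + (η * (b - δ) : ℝ) * I) := by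
    refine S2_same (S2_path A (Or.inr rfl) s1 (-1 + η * I) d0.le (fun y y0 y1 => ?_)
      (fun y y0 y1 => ?_)) (by push_cast; ring) (by push_cast; ring)
    · have e : (δ : ℂ) + y * (-1 + η * I) = (δ - y : ℝ) + (η * y : ℝ) * I := by
        push_cast
        ring
      rw [e]
      refine A.mem_slit p _ ?_ ?_
      · rcases y1.eq_or_lt with y2 | y2
        · right
          have h2 := S2_ne hη (y2 ▸ d0 : 0 < y)
          simpa using h2
        · left
          simpa using y2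
      · refine (norm_add_le _ _).trans_lt ?_
        rw [norm_mul, norm_I, mul_one, norm_real, norm_real, Real.norm_eq_abs, Real.norm_eq_abs,
          abs_mul, habs, abs_of_nonneg y0, abs_of_nonneg (sub_nonneg.2 y1)]
        linarith
    · rcases y0.eq_or_lt with y2 | y2
      · exact S2_dom s0.1 (by rw [← y2]; push_cast; ring)
      · exact S2_dom (h.box A hη (s := a - δ + y) (t := b - y) (by linarith) (by linarith)
          (by linarith) (by linarith)) (by push_cast; ring)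
  refine S2_same (S2_path A (Or.inr rfl) s2 (η * I) (T := v - δ) (by linarith)
    (fun y y0 y1 => ?_) (fun y y0 y1 => ?_)) (by push_cast; ring) (by push_cast; ring)
  · exact S2_dom (A.mem_im p (η * (δ + y)) (S2_ne hη (by linarith))) (by push_cast; ring)
  · have y2 : 0 ≤ b - δ - y := by linarith
    rcases y2.eq_or_lt with y3 | y3
    · have e : y = b - δ := by linarith
      exact S2_dom (A.mem_re q a ha) (by rw [e]; push_cast; ring)
    · exact S2_dom (h.2.2 (b - δ - y) y3 (by linarith)) (by push_cast; ring)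

theorem Corner.same (A : E.Ax) (hη : η = 1 ∨ η = -1) (h : E.Corner q η a b p) {u v : ℝ}
    (h0 : 0 < v) (h1 : v ≤ b)
    (hd : ∀ s ∈ Set.uIcc a (a - u), ((s : ℝ) : ℂ) + (η * (b - v) : ℝ) * I ∈ E.Dom q) :
    E.Same (-1) p (u + (η * v : ℝ) * I) q ((a - u : ℝ) + (η * (b - v) : ℝ) * I) := by
  have him : (((η * v : ℝ) : ℂ) * I).im ≠ 0 := by
    have h2 := S2_ne hη h0
    simpa using h2
  refine S2_same (A.prop_h (Or.inr rfl) him (h.axis A hη h0 h1) u (fun s hs => ?_) u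
    Set.right_mem_uIcc) (by ring) (by push_cast; ring)
  refine S2_dom (hd (a - s) ?_) (by push_cast; ring)
  rcases Set.mem_uIcc.1 hs with h2 | h2
  · exact Set.mem_uIcc.2 (Or.inr ⟨by linarith [h2.2], by linarith [h2.1]⟩)
  · exact Set.mem_uIcc.2 (Or.inl ⟨by linarith [h2.2], by linarith [h2.1]⟩)

/-- The prong `q` seen from the corner. -/
theorem Corner.rev (A : E.Ax) (hη : η = 1 ∨ η = -1) (h : E.Corner q η a b p) {u : ℝ}
    (hu : u < a) : E.Same (-1) p (u + (η * b : ℝ) * I) q ((a - u : ℝ) : ℂ) := by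
  have ha : 0 < a := h.2.1.1
  refine S2_same (h.same A hη (u := u) h.1 le_rfl fun s hs => ?_) rfl (by push_cast; ring)
  refine S2_dom (A.mem_re q s ?_) (by push_cast; ring)
  rcases Set.mem_uIcc.1 hs with h2 | h2
  · linarith [h2.1]
  · linarith [h2.1]

/-- The vertical prong next to `q` seen from the corner. -/
theorem Corner.left (A : E.Ax) (hη : η = 1 ∨ η = -1) (h : E.Corner q η a b p) {v : ℝ}
    (h0 : 0 ≤ v) (h1 : v < b) :
    E.Same (-1) p (a + (η * v : ℝ) * I) q ((η * (b - v) : ℝ) * I) := by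
  have ha : 0 < a := h.2.1.1
  rcases h0.eq_or_lt with h2 | h2
  · exact S2_same ((h.2.1.2 0 le_rfl ha).symm (Or.inr rfl)) (by rw [← h2]; push_cast; ring)
      (by rw [← h2]; push_cast; ring)
  · refine S2_same (h.same A hη (u := a) h2 h1.le fun s hs => ?_) rfl (by push_cast; ring)
    rw [sub_self, Set.uIcc_of_ge ha.le] at hs
    exact h.box A hη hs.1 hs.2 (by linarith) (by linarith)

end DevData
end Pool.Agent.Work.MP_563a32_gt
end

-- merged part: Pool.Agent.Work.MP_563a32_gt.S3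
section
/-! A periodic prong has a good corner in each of its two quadrants.

Plan. `exists_hit`: otherwise, by `dich`, all points `s + η t I`, `0 ≤ s < L`, `t > 0`, lie in the
domain. Take `L'` from `hit_v (L / 4)` and the vertical segment from `L / 2 + I` (for `η = 1`) or
from `L / 2 - (L' + 1) I` (for `η = -1`): a point `w` of it has `G q w = G q' t`, `0 < t ≤ L / 4`.
With `ε` from `germ`, `prop_r` gives `G q (w - ε t + ε s) = G q' s` for `0 < s < t`, against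
`no_sing`. `fin_hit`: `Hit q a t p` gives `G p a = G q (t I)` (take `s = 0`); finite union over `p`
of the sets of `fin_hom`. `first`: take the least `t` with a hit of length `< L` at height `η t`
(`exists_hit`, `fin_hit`); below it use `dich`. `anti`: `Corner.box` and `Hit.not_mem`.
`next`: among the hits `(a', t)` with `t < b` (there is one, `Corner.pow` with `j = -k`) take the
least `a'` and then the least `t`; `dich`. `exists_inc`: call `(ap, bp, a, b)` consecutive if both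
pairs are corners, `ap < a`, `b < bp` and `Box q η a bp`. Fix a corner `(a₁, b₁)` with `a₁ < 1`
(`first`). With `Λ = lam ^ k`, the consecutive quadruples with `1 ≤ a < Λ` form a finite set (`b ≤ b₁`
by `anti`; `bp ≤ Λ b` since `(a / Λ, Λ b)` is a corner and `not_mem`; `fin_hit`), and every
consecutive quadruple is moved into it by `Corner.pow`, `Box.pow` with `j = k * i`, keeping
`ap / a`. Every corner has a predecessor (`first` with `L = a`; `b < bp` by `anti`-like arguments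
with `Hit.uniq`). Take a quadruple with the largest `ap / a` and its successor `(an, bn)` from
`next`: `a / an ≤ ap / a`, so `a - ap < an - a`. -/

namespace Pool.Agent.Work.MP_563a32_gt
open Filter Topology Complex

namespace DevData
variable {S Pr X : Type} [TopologicalSpace S] [T2Space S] [Fintype Pr] {E : DevData S Pr X}
  {η : ℝ}

omit [T2Space S] [Fintype Pr] in
theorem S3_mem (A : E.Ax) {q : Pr} {τ s : ℝ} (hτ : τ ≠ 0) (hs : 0 ≤ s)
    (h : ∀ a p, E.Hit q a τ p → s < a) : (s : ℂ) + τ * I ∈ E.Dom q := by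
  rcases A.dich q τ hτ with h1 | ⟨a, p, h0, h1⟩
  · exact h1 s hs
  · exact (h1 s hs (h a p ⟨h0, h1⟩)).1

omit [T2Space S] [Fintype Pr] in
theorem S3_ne (hη : η = 1 ∨ η = -1) {t : ℝ} (ht : 0 < t) : η * t ≠ 0 := by
  rcases hη with rfl | rfl
  · simpa using ht.ne'
  · simpa using ht.ne'

omit [Fintype Pr] in
theorem S3_run (A : E.Ax) {q q' : Pr} {e x τ t : ℝ} (he : e = 1 ∨ e = -1) (ht : 0 < t)
    (hd : ∀ s : ℝ, x - t ≤ s → s ≤ x + t → (s : ℂ) + τ * I ∈ E.Dom q)
    (h : E.Same e q (x + τ * I) q' t) : False := by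
  have he' : (e : ℂ) = 1 ∨ (e : ℂ) = -1 := by
    rcases he with rfl | rfl <;> simp
  have hee : e * e = 1 := by rcases he with rfl | rfl <;> norm_num
  have h0 : ((x - e * t : ℝ) : ℂ) + τ * I ∈ E.Dom q := by
    apply hd <;> rcases he with rfl | rfl <;> linarith only [ht]
  refine A.no_sing (q' := q') (ε := e) h0 ht fun s hs hst => ?_
  have h1 := A.prop_r he' h (e * (s - t)) (fun u hu => ?_) (fun u hu => ?_)
  · have h2 := h1.eq
    have e1 : ((x - e * t : ℝ) : ℂ) + τ * I + e * s = x + τ * I + (e * (s - t) : ℝ) := by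
      push_cast; ring
    have e2 : (t : ℂ) + e * (e * (s - t) : ℝ) = s := by
      have : t + e * (e * (s - t)) = s := by rw [← mul_assoc, hee]; ring
      exact_mod_cast this
    rw [e1, h2, e2]
  · have e1 : (x : ℂ) + τ * I + u = (x + u : ℝ) + τ * I := by push_cast; ring
    rw [e1]
    rcases Set.mem_uIcc.1 hu with hu | hu <;> apply hd <;> rcases he with rfl | rfl <;>
      linarith only [hst, hu, hs, hu.1, hu.2]
  · have e1 : (t : ℂ) + e * u = (t + e * u : ℝ) := by push_cast; ring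
    rw [e1]
    apply A.mem_re
    rcases Set.mem_uIcc.1 hu with hu | hu <;> rcases he with rfl | rfl <;> linarith only [hst, hu, hs, hu.1, hu.2]

theorem Ax.exists_hit (A : E.Ax) (hη : η = 1 ∨ η = -1) (q : Pr) {L : ℝ} (hL : 0 < L) :
    ∃ a t p, a < L ∧ 0 < t ∧ E.Hit q a (η * t) p := by
  by_contra hc
  have hd : ∀ s t : ℝ, 0 ≤ s → s < L → 0 < t → (s : ℂ) + (η * t : ℝ) * I ∈ E.Dom q := by
    intro s t hs hsL ht
    refine S3_mem A (S3_ne hη ht) hs fun a p h => ?_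
    by_contra h1
    exact hc ⟨a, t, p, by linarith, ht, h⟩
  obtain ⟨L', hL', hv⟩ := A.hit_v (L / 4) (by linarith)
  obtain ⟨c, hc'⟩ : ∃ c : ℝ, ∀ s ∈ Set.Icc 0 L', 0 < η * (c + s) := by
    rcases hη with rfl | rfl
    · exact ⟨1, fun s hs => by linarith [hs.1]⟩
    · exact ⟨-(L' + 1), fun s hs => by linarith [hs.2]⟩
  have hηη : η * η = 1 := by rcases hη with rfl | rfl <;> norm_num
  have key : ∀ s : ℝ, ((L / 2 : ℝ) : ℂ) + c * I + s * I =
      (L / 2 : ℝ) + (η * (η * (c + s)) : ℝ) * I := by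
    intro s
    rw [← mul_assoc, hηη]; push_cast; ring
  obtain ⟨s, hs, q', t, ht, hG⟩ := hv q ((L / 2 : ℝ) + c * I) (fun s hs => by
    rw [key]; exact hd _ _ (by linarith) (by linarith) (hc' s hs))
  rw [key] at hG
  have hd' : ∀ u : ℝ, L / 2 - t ≤ u → u ≤ L / 2 + t →
      (u : ℂ) + (η * (η * (c + s)) : ℝ) * I ∈ E.Dom q := fun u h1 h2 =>
    hd _ _ (by linarith only [hL, h1, ht, ht.2]) (by linarith only [hL, h2, ht, ht.2]) (hc' s hs)
  rcases A.germ _ _ _ _ (hd' _ (by linarith [ht.1]) (by linarith [ht.1])) (A.mem_re q' t ht.1) hG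
    with h | h
  · exact S3_run A (e := 1) (Or.inl rfl) ht.1 hd' (by simpa using h)
  · exact S3_run A (e := -1) (Or.inr rfl) ht.1 hd' (by simpa using h)

theorem Ax.fin_hit (A : E.Ax) (hη : η = 1 ∨ η = -1) (q : Pr) (L B : ℝ) :
    {x : ℝ × ℝ | x.1 ≤ L ∧ 0 < x.2 ∧ x.2 ≤ B ∧ ∃ p, E.Hit q x.1 (η * x.2) p}.Finite := by
  have hηη : η * η = 1 := by rcases hη with rfl | rfl <;> norm_num
  have hη1 : |η| = 1 := by rcases hη with rfl | rfl <;> simp
  refine ((Set.finite_iUnion fun p : Pr => A.fin_hom p q L B).image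
    (fun y : ℝ × ℝ => (y.1, η * y.2))).subset ?_
  rintro ⟨a, t⟩ ⟨h1, h2, h3, p, h4, h5⟩
  refine ⟨(a, η * t), Set.mem_iUnion.2 ⟨p, h4, h1, S3_ne hη h2, ?_, ?_⟩, ?_⟩
  · simp only at h2 h3 ⊢
    rw [abs_mul, hη1, one_mul, abs_of_pos h2]; exact h3
  · have := (h5 0 le_rfl h4).eq
    simp only [ofReal_zero, zero_add, sub_zero] at this
    exact this.symm
  · simp only [← mul_assoc, hηη, one_mul]

theorem Ax.first (A : E.Ax) (hη : η = 1 ∨ η = -1) (q : Pr) {L : ℝ} (hL : 0 < L) :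
    ∃ a b p, E.Corner q η a b p ∧ a < L ∧ E.Box q η L b := by
  obtain ⟨a₀, t₀, p₀, h1, h2, h3⟩ := A.exists_hit hη q hL
  have hf : {x : ℝ × ℝ | x.1 < L ∧ 0 < x.2 ∧ x.2 ≤ t₀ ∧ ∃ p, E.Hit q x.1 (η * x.2) p}.Finite :=
    (A.fin_hit hη q L t₀).subset fun x hx => ⟨hx.1.le, hx.2⟩
  obtain ⟨⟨a, b⟩, ⟨g1, g2, g3, p, g4⟩, hmin⟩ :=
    Set.exists_min_image _ Prod.snd hf ⟨(a₀, t₀), h1, h2, le_rfl, p₀, h3⟩
  simp only at g1 g2 g3 g4 hmin
  have hB : E.Box q η L b := by
    intro s t hs hsL ht htb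
    refine S3_mem A (S3_ne hη ht) hs fun a' p' h => ?_
    by_contra h4
    have := hmin (a', t) ⟨by simp only; linarith, ht, by simp only; linarith, p', h⟩
    simp only at this
    linarith
  exact ⟨a, b, p, ⟨g2, g4, fun t ht htb => hB a t g4.1.le g1 ht htb⟩, g1, hB⟩

theorem Corner.anti (A : E.Ax) (hη : η = 1 ∨ η = -1) {q p p' : Pr} {a b a' b' : ℝ}
    (h : E.Corner q η a b p) (h' : E.Corner q η a' b' p') (hb : b < b') : a' < a := by
  by_contra hc
  exact h.2.1.not_mem A (h'.box A hη h.2.1.1.le (not_lt.1 hc) h.1 hb)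

omit [TopologicalSpace S] [T2Space S] [Fintype Pr] in
theorem S3_fix {q : Pr} {k : ℕ} (hq : (E.σ ^ k) q = q) (i : ℤ) : (E.σ ^ (k * i : ℤ)) q = q := by
  rw [zpow_mul, zpow_natCast]
  exact Equiv.Perm.zpow_apply_eq_self_of_apply_eq_self hq i

theorem S3_lam (l : ℝ) (k : ℕ) (i : ℤ) : l ^ (k * i : ℤ) = (l ^ k) ^ i := by
  rw [zpow_mul, zpow_natCast]

theorem Corner.next (A : E.Ax) (hη : η = 1 ∨ η = -1) {q p : Pr} {k : ℕ} (hk : 1 ≤ k)
    (hq : (E.σ ^ k) q = q) {a b : ℝ} (h : E.Corner q η a b p) :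
    ∃ an bn p', E.Corner q η an bn p' ∧ a < an ∧ bn < b ∧ E.Box q η an b := by
  have hl : 1 < E.lam ^ k := one_lt_pow₀ A.one_lt (by omega)
  have h0 := h.pow A (k * (-1) : ℤ)
  rw [S3_fix hq, S3_lam] at h0
  have hb : (E.lam ^ k) ^ (-1 : ℤ) * b < b := by
    rw [zpow_neg_one]
    have := inv_lt_one_of_one_lt₀ hl
    nlinarith only [this, h, h.1]
  generalize a / (E.lam ^ k) ^ (-1 : ℤ) = a₀ at h0
  generalize (E.lam ^ k) ^ (-1 : ℤ) * b = b₀ at h0 hb
  have hf : {x : ℝ × ℝ | x.1 ≤ a₀ ∧ 0 < x.2 ∧ x.2 < b ∧ ∃ p, E.Hit q x.1 (η * x.2) p}.Finite :=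
    (A.fin_hit hη q a₀ b).subset fun x hx => ⟨hx.1, hx.2.1, hx.2.2.1.le, hx.2.2.2⟩
  obtain ⟨x, hx, hmin⟩ :=
    Set.exists_min_image _ Prod.fst hf ⟨(a₀, b₀), le_rfl, h0.1, hb, _, h0.2.1⟩
  have hf' := hf.subset (Set.sep_subset _ fun y => y.1 = x.1)
  obtain ⟨⟨an, bn⟩, ⟨⟨g1, g2, g3, p', g4⟩, g5⟩, hmin'⟩ :=
    Set.exists_min_image _ Prod.snd hf' ⟨x, hx, rfl⟩
  simp only at g1 g2 g3 g4 g5 hmin'
  have hC : E.Corner q η an bn p' := by
    refine ⟨g2, g4, fun t ht htb => ?_⟩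
    refine S3_mem A (S3_ne hη ht) g4.1.le fun a' p'' h' => ?_
    by_contra h4
    have hm : (a', t) ∈ {x : ℝ × ℝ | x.1 ≤ a₀ ∧ 0 < x.2 ∧ x.2 < b ∧
        ∃ p, E.Hit q x.1 (η * x.2) p} :=
      ⟨by simp only; linarith, ht, by simp only; linarith, p'', h'⟩
    have h5 := hmin _ hm
    have h6 := hmin' (a', t) ⟨hm, by simp only at h5 ⊢; linarith only [h5, g5, h4]⟩
    simp only at h6
    linarith
  refine ⟨an, bn, p', hC, hC.anti A hη h g3, g3, fun s t hs hsa ht htb => ?_⟩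
  refine S3_mem A (S3_ne hη ht) hs fun a' p'' h' => ?_
  by_contra h4
  have h5 := hmin (a', t) ⟨by simp only; linarith, ht, htb, p'', h'⟩
  simp only at h5
  linarith

/-- Consecutive corners. -/
def S3_Cons (E : DevData S Pr X) (q : Pr) (η ap bp a b : ℝ) : Prop :=
  (∃ p, E.Corner q η ap bp p) ∧ (∃ p, E.Corner q η a b p) ∧ ap < a ∧ b < bp ∧ E.Box q η a bp

omit [Fintype Pr] in
theorem S3_Cons.pow (A : E.Ax) {q : Pr} {k : ℕ} (hq : (E.σ ^ k) q = q) (i : ℤ)
    {ap bp a b : ℝ} (h : S3_Cons E q η ap bp a b) :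
    S3_Cons E q η (ap / (E.lam ^ k) ^ i) ((E.lam ^ k) ^ i * bp) (a / (E.lam ^ k) ^ i)
      ((E.lam ^ k) ^ i * b) := by
  obtain ⟨⟨p, h1⟩, ⟨p', h2⟩, h3, h4, h5⟩ := h
  have hl : 0 < (E.lam ^ k) ^ i := zpow_pos (pow_pos A.D4_lam k) i
  have g1 := h1.pow A (k * i : ℤ)
  have g2 := h2.pow A (k * i : ℤ)
  have g5 := h5.pow A (k * i : ℤ)
  rw [S3_fix hq, S3_lam] at g1 g2 g5
  exact ⟨⟨_, g1⟩, ⟨_, g2⟩, div_lt_div_of_pos_right h3 hl, mul_lt_mul_of_pos_left h4 hl, g5⟩

theorem S3_fin (A : E.Ax) (hη : η = 1 ∨ η = -1) {q : Pr} {k : ℕ} (hk : 1 ≤ k)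
    (hq : (E.σ ^ k) q = q) :
    {ρ : ℝ | ∃ ap bp a b, S3_Cons E q η ap bp a b ∧ ρ = ap / a}.Finite := by
  have hl : 1 < E.lam ^ k := one_lt_pow₀ A.one_lt (by omega)
  obtain ⟨a₁, b₁, p₁, h₁, ha₁, -⟩ := A.first hη q one_pos
  have hf := A.fin_hit hη q (E.lam ^ k) (E.lam ^ k * b₁)
  refine ((hf.prod hf).image fun y => y.1.1 / y.2.1).subset ?_
  rintro ρ ⟨ap₀, bp₀, a₀, b₀, h₀, rfl⟩
  have ha₀ : 0 < a₀ := h₀.2.1.choose_spec.2.1.1
  obtain ⟨i, hi1, hi2⟩ := exists_mem_Ico_zpow ha₀ hl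
  have hp : 0 < (E.lam ^ k) ^ i := zpow_pos (by linarith only [hl]) i
  have h := h₀.pow A hq i
  have e1 : ap₀ / a₀ = (ap₀ / (E.lam ^ k) ^ i) / (a₀ / (E.lam ^ k) ^ i) := by
    field_simp
  have g1 : 1 ≤ a₀ / (E.lam ^ k) ^ i := (one_le_div hp).2 hi1
  have g2 : a₀ / (E.lam ^ k) ^ i < E.lam ^ k := by
    rw [div_lt_iff₀ hp]
    rw [zpow_add_one₀ (by linarith only [hl])] at hi2
    linarith only [hi2]
  rw [e1]
  generalize ap₀ / (E.lam ^ k) ^ i = ap at h ⊢
  generalize a₀ / (E.lam ^ k) ^ i = a at h g1 g2 ⊢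
  generalize (E.lam ^ k) ^ i * bp₀ = bp at h
  generalize (E.lam ^ k) ^ i * b₀ = b at h
  obtain ⟨⟨p, h1⟩, ⟨p', h2⟩, h3, h4, h5⟩ := h
  have hb : b ≤ b₁ := by
    by_contra hc
    have := h₁.anti A hη h2 (not_le.1 hc)
    linarith only [ha₁, g1, this]
  have hbp : bp ≤ E.lam ^ k * b := by
    by_contra hc
    have g := h2.pow A (k * 1 : ℤ)
    rw [S3_fix hq, S3_lam, zpow_one] at g
    refine g.2.1.not_mem A (h5 _ _ g.2.1.1.le ?_ g.1 (not_le.1 hc))
    exact div_lt_self (by linarith) hl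
  have hbp' : bp ≤ E.lam ^ k * b₁ := hbp.trans (mul_le_mul_of_nonneg_left hb (by linarith))
  exact ⟨((ap, bp), (a, b)), ⟨⟨by simp only; linarith only [g2, h3], h1.1, hbp', p, h1.2.1⟩,
    ⟨g2.le, h2.1, by simp only; linarith only [h4, hbp'], p', h2.2.1⟩⟩, rfl⟩

theorem Ax.exists_inc (A : E.Ax) (hη : η = 1 ∨ η = -1) {q : Pr} {k : ℕ} (hk : 1 ≤ k)
    (hq : (E.σ ^ k) q = q) : ∃ a b p ap bp an, E.Inc q η a b p ap bp an := by
  obtain ⟨a₁, b₁, p₁, h₁, -, -⟩ := A.first hη q one_pos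
  obtain ⟨a₂, b₂, p₂, h₂, g1, g2, g3⟩ := h₁.next A hη hk hq
  obtain ⟨ρ, ⟨ap, bp, a, b, ⟨⟨pp, k1⟩, ⟨p, k2⟩, k3, k4, k5⟩, rfl⟩, hmax⟩ :=
    Set.exists_max_image _ id (S3_fin A hη hk hq)
      ⟨_, a₁, b₁, a₂, b₂, ⟨⟨_, h₁⟩, ⟨_, h₂⟩, g1, g2, g3⟩, rfl⟩
  obtain ⟨an, bn, pn, m1, m2, m3, m4⟩ := k2.next A hη hk hq
  have h := hmax _ ⟨a, b, an, bn, ⟨⟨_, k2⟩, ⟨_, m1⟩, m2, m3, m4⟩, rfl⟩
  have hap : 0 < ap := k1.2.1.1
  simp only [id] at h
  rw [div_le_div_iff₀ (by linarith only [k3, m2, hap]) (by linarith)] at h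
  refine ⟨a, b, p, ap, bp, an, k2, ⟨_, k1⟩, k3, k4, k5, m4, ?_⟩
  by_contra hc
  linarith only [h, k3, hc, hap, mul_pos (sub_pos.2 k3) (sub_pos.2 k3), mul_le_mul_of_nonneg_left (not_lt.1 hc) hap.le]

end DevData
end Pool.Agent.Work.MP_563a32_gt
end

-- merged part: Pool.Agent.Work.MP_563a32_gt.S4
section
/-! Crossings of prongs in the orbit of a prong of short period are far away.

Plan. `hom_min`: `pow_eq` moves a crossing `(s, t)` to `(s / lam ^ j, lam ^ j * t)` with the same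
product and prongs in the same cycle; normalise `1 ≤ s < lam` (`exists_mem_Ico_zpow`); the
normalised crossings with product at most `s₀ |t₀|` form a finite set (`fin_hom`, union over the
pairs of prongs); take one with the least product. `hom_ge`: put `Λ = lam ^ k`. Suppose some
crossing has `s |t| Λ (Λ - 1) < a b`; take one with the least product, `G q₁ s = G q₂ (t I)`, with
the sign `ε` from `germ`. The prongs `q₁ = σ ^ i q₀`, `q₂` are fixed by `σ ^ k`, so `pow_same` gives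
also `Same ε q₁ (s / Λ) q₂ (Λ t I)`. With `Box.pow` (exponent `i + k m`) get `Box q₁ η a₁ b₁` with
`a₁ b₁ = a b` and `s < a₁ ≤ Λ s`; then `v = (Λ - 1) |t| < b₁`. If `ε η t > 0`, `prop_v` from `s` by
`η v` gives `Same ε q₁ (s + η v I) q₂ (Λ t I)`, so `Same 1 q₁ (s + η v I) q₁ (s / Λ)`; `prop_r` to
the left and `no_sing` at the point `(s - s / Λ) + η v I` of the box give a contradiction. If
`ε η t < 0`, `prop_v` from `s / Λ` gives `Same 1 q₁ (s / Λ + η v I) q₁ s`; `prop_r` by `- s / Λ`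
gives `G q₁ (η v I) = G q₁ (s - s / Λ)`, a crossing with product `s |t| (Λ - 1) ^ 2 / Λ < s |t|`. -/

namespace Pool.Agent.Work.MP_563a32_gt
open Filter Topology Complex

theorem S4_re (l s : ℝ) : diag l (s : ℂ) = ((s / l : ℝ) : ℂ) := by
  apply Complex.ext <;> simp only [diag, ofReal_re, ofReal_im, mul_zero]

theorem S4_im (l t : ℝ) : diag l (t * I) = ((l * t : ℝ) : ℂ) * I := by
  apply Complex.ext <;> simp only [diag, mul_re, mul_im, ofReal_re, ofReal_im, I_re, I_im] <;> ring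

theorem S4_uIcc {η v u : ℝ} (hη : η = 1 ∨ η = -1) (hv : 0 ≤ v) (hu : u ∈ Set.uIcc 0 (η * v)) :
    ∃ τ, 0 ≤ τ ∧ τ ≤ v ∧ u = η * τ := by
  rcases hη with rfl | rfl
  · rw [one_mul, Set.uIcc_of_le hv] at hu
    exact ⟨u, hu.1, hu.2, by ring⟩
  · rw [Set.uIcc_of_ge (by linarith)] at hu
    exact ⟨-u, by linarith [hu.2], by linarith [hu.1], by ring⟩

namespace DevData
variable {S Pr X : Type} [TopologicalSpace S] [T2Space S] [Fintype Pr] {E : DevData S Pr X}

omit [Fintype Pr] in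
theorem S4_norm (A : E.Ax) {q₀ : Pr} {s t : ℝ} (h : E.Hom q₀ s t) :
    ∃ s' t', E.Hom q₀ s' t' ∧ 1 ≤ s' ∧ s' ≤ E.lam ∧ s' * |t'| = s * |t| := by
  obtain ⟨hs, ht, q₁, q₂, h1, h2, h3⟩ := h
  have l0 : 0 < E.lam := zero_lt_one.trans A.one_lt
  obtain ⟨j, j1, j2⟩ := exists_mem_Ico_zpow hs A.one_lt
  have p0 : 0 < E.lam ^ j := zpow_pos l0 j
  have h4 := A.pow_eq j (A.mem_re q₁ s hs) (A.mem_im q₂ t ht) h3
  rw [S4_re, S4_im] at h4
  refine ⟨s / E.lam ^ j, E.lam ^ j * t, ⟨div_pos hs p0, mul_ne_zero p0.ne' ht, _, _,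
    h1.trans ⟨j, rfl⟩, h2.trans ⟨j, rfl⟩, h4⟩, (one_le_div p0).2 j1, ?_, ?_⟩
  · rw [div_le_iff₀ p0, mul_comm, ← zpow_add_one₀ l0.ne']
    exact j2.le
  · rw [abs_mul, abs_of_pos p0]
    field_simp

theorem Ax.hom_min (A : E.Ax) {q₀ : Pr} {s₀ t₀ : ℝ} (h : E.Hom q₀ s₀ t₀) :
    ∃ s t, E.Hom q₀ s t ∧ ∀ s' t', E.Hom q₀ s' t' → s * |t| ≤ s' * |t'| := by
  have hfin : {x : ℝ × ℝ | E.Hom q₀ x.1 x.2 ∧ 1 ≤ x.1 ∧ x.1 ≤ E.lam ∧
      x.1 * |x.2| ≤ s₀ * |t₀|}.Finite := by
    refine (Set.finite_iUnion fun q : Pr × Pr => A.fin_hom q.1 q.2 E.lam (s₀ * |t₀|)).subset ?_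
    rintro x ⟨⟨hs, ht, q₁, q₂, -, -, h3⟩, h4, h5, h6⟩
    refine Set.mem_iUnion.2 ⟨(q₁, q₂), hs, h5, ht, le_trans ?_ h6, h3⟩
    exact le_mul_of_one_le_left (abs_nonneg _) h4
  obtain ⟨s₁, t₁, h1, h2, h3, h4⟩ := S4_norm A h
  obtain ⟨x, hx, hmin⟩ := Set.exists_min_image _ (fun x : ℝ × ℝ => x.1 * |x.2|) hfin
    ⟨(s₁, t₁), h1, h2, h3, h4.le⟩
  refine ⟨x.1, x.2, hx.1, fun s' t' h' => ?_⟩
  obtain ⟨s₂, t₂, g1, g2, g3, g4⟩ := S4_norm A h'
  rw [← g4]
  by_cases hB : s₂ * |t₂| ≤ s₀ * |t₀|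
  · exact hmin (s₂, t₂) ⟨g1, g2, g3, hB⟩
  · exact hx.2.2.2.trans (not_le.1 hB).le

omit [Fintype Pr] in
/-- vertical propagation inside a box -/
theorem S4_up (A : E.Ax) {q q' : Pr} {e η a b s t v : ℝ} (he : e = 1 ∨ e = -1)
    (hη : η = 1 ∨ η = -1) (hB : E.Box q η a b) (hs : 0 < s) (hsa : s < a) (hv : 0 ≤ v)
    (hvb : v < b) (ht : ∀ τ, 0 ≤ τ → τ ≤ v → t + e * η * τ ≠ 0) (h : E.Same e q s q' (t * I)) :
    E.Same e q (s + (η * v : ℝ) * I) q' ((t + e * η * v : ℝ) * I) := by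
  have he' : (e : ℂ) = 1 ∨ (e : ℂ) = -1 := by rcases he with rfl | rfl <;> simp
  have e1 : ∀ τ : ℝ, (t : ℂ) * I + e * ((η * τ : ℝ) * I) = (t + e * η * τ : ℝ) * I := fun τ => by
    push_cast
    ring
  rw [← e1]
  refine A.prop_v he' h _ (fun u hu => ?_) fun u hu => ?_
  · obtain ⟨τ, h1, h2, rfl⟩ := S4_uIcc hη hv hu
    rcases h1.eq_or_lt with rfl | h1
    · simpa using A.mem_re q s hs
    · exact hB s τ hs.le hsa h1 (h2.trans_lt hvb)
  · obtain ⟨τ, h1, h2, rfl⟩ := S4_uIcc hη hv hu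
    rw [e1]
    exact A.mem_im _ _ (ht τ h1 h2)

omit [Fintype Pr] in
/-- horizontal propagation to the left inside a box -/
theorem S4_left (A : E.Ax) {q : Pr} {η a b s s' v u : ℝ} (hB : E.Box q η a b) (hsa : s < a)
    (hv : 0 < v) (hvb : v < b) (hu : 0 ≤ u) (hus : u ≤ s) (hus' : u < s')
    (h : E.Same 1 q (s + (η * v : ℝ) * I) q s') :
    E.G q ((s - u : ℝ) + (η * v : ℝ) * I) = E.G q ((s' - u : ℝ) : ℂ) := by
  have e1 : ∀ x : ℝ, (s : ℂ) + (η * v : ℝ) * I + x = (s + x : ℝ) + (η * v : ℝ) * I := fun x => by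
    push_cast
    ring
  have e2 : ∀ x : ℝ, (s' : ℂ) + 1 * x = (s' + x : ℝ) := fun x => by
    push_cast
    ring
  have h1 := A.prop_r (Or.inl rfl) h (-u) (fun x hx => ?_) fun x hx => ?_
  · rw [e1, e2] at h1
    exact h1.eq
  · rw [Set.uIcc_of_ge (by linarith)] at hx
    rw [e1]
    exact hB _ _ (by linarith [hx.1]) (by linarith [hx.2]) hv hvb
  · rw [Set.uIcc_of_ge (by linarith)] at hx
    rw [e2]
    exact A.mem_re _ _ (by linarith [hx.1])

theorem Ax.hom_ge (A : E.Ax) {q₀ : Pr} {k : ℕ} (hk : 1 ≤ k) (hq : (E.σ ^ k) q₀ = q₀)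
    (hΛ : (E.lam ^ k - 1) ^ 2 < E.lam ^ k) {η a b : ℝ} (hη : η = 1 ∨ η = -1) (ha : 0 < a)
    (hB : E.Box q₀ η a b) {s t : ℝ} (h : E.Hom q₀ s t) :
    a * b ≤ s * |t| * (E.lam ^ k * (E.lam ^ k - 1)) := by
  have l0 : 0 < E.lam := zero_lt_one.trans A.one_lt
  have Λ1 : 1 < E.lam ^ k := one_lt_pow₀ A.one_lt (by omega)
  have hfix : ∀ q, E.σ.SameCycle q₀ q → (E.σ ^ (k : ℤ)) q = q := by
    rintro _ ⟨i, rfl⟩
    rw [← Equiv.Perm.mul_apply, ← zpow_add, add_comm, zpow_add, Equiv.Perm.mul_apply,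
      zpow_natCast, hq]
  obtain ⟨s, t, hm, hmin, hle⟩ : ∃ s' t', E.Hom q₀ s' t' ∧
      (∀ s'' t'', E.Hom q₀ s'' t'' → s' * |t'| ≤ s'' * |t''|) ∧ s' * |t'| ≤ s * |t| := by
    obtain ⟨s', t', h1, h2⟩ := A.hom_min h
    exact ⟨s', t', h1, h2, h2 _ _ h⟩
  refine le_trans ?_ (mul_le_mul_of_nonneg_right hle (mul_pos (by linarith only [Λ1]) (by linarith)).le)
  clear hle h
  by_contra hc
  rw [not_le] at hc
  obtain ⟨hs, ht, q₁, q₂, h1, h2, h3⟩ := hm
  obtain ⟨e, he, h4⟩ : ∃ e : ℝ, (e = 1 ∨ e = -1) ∧ E.Same e q₁ s q₂ (t * I) := by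
    rcases A.germ _ _ _ _ (A.mem_re q₁ s hs) (A.mem_im q₂ t ht) h3 with h | h
    · exact ⟨1, Or.inl rfl, by simpa using h⟩
    · exact ⟨-1, Or.inr rfl, by simpa using h⟩
  have he' : (e : ℂ) = 1 ∨ (e : ℂ) = -1 := by rcases he with rfl | rfl <;> simp
  have ee : (e : ℂ) * e = 1 := by rcases he' with h | h <;> rw [h] <;> ring
  have h5 := (A.pow_same (k : ℤ) he').2 h4
  rw [hfix _ h1, hfix _ h2, S4_re, S4_im, zpow_natCast] at h5
  obtain ⟨a₁, b₁, hB₁, hab, ha1, ha2⟩ : ∃ a₁ b₁, E.Box q₁ η a₁ b₁ ∧ a₁ * b₁ = a * b ∧ s < a₁ ∧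
      a₁ ≤ E.lam ^ k * s := by
    obtain ⟨i, rfl⟩ := h1
    have p0 : 0 < E.lam ^ i := zpow_pos l0 i
    obtain ⟨m, m1, m2⟩ := exists_mem_Ioc_zpow (div_pos (div_pos ha p0) hs) Λ1
    have p1 : 0 < (E.lam ^ k) ^ m := zpow_pos (by linarith only [Λ1]) m
    have h6 := hB.pow A (i + k * m)
    have e1 : (E.σ ^ (i + k * m)) q₀ = (E.σ ^ i) q₀ := by
      rw [zpow_add, Equiv.Perm.mul_apply, zpow_mul, zpow_natCast,
        Equiv.Perm.zpow_apply_eq_self_of_apply_eq_self hq]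
    rw [e1, zpow_add₀ l0.ne', zpow_mul, zpow_natCast] at h6
    rw [zpow_add_one₀ (by linarith only [Λ1]), div_le_iff₀ hs] at m2
    rw [lt_div_iff₀ hs] at m1
    refine ⟨_, _, h6, by field_simp, ?_, ?_⟩
    · rw [← div_div, lt_div_iff₀ p1]
      linarith only [m1]
    · rw [← div_div, div_le_iff₀ p1]
      linarith only [m2]
  generalize E.lam ^ k = Λ at hΛ Λ1 hc h5 ha2
  have t0 : 0 < |t| := abs_pos.2 ht
  have v0 : 0 < (Λ - 1) * |t| := mul_pos (by linarith) t0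
  have hv : (Λ - 1) * |t| < b₁ := by
    by_contra h6
    rw [not_lt] at h6
    have h7 : a₁ * b₁ ≤ Λ * s * ((Λ - 1) * |t|) :=
      (mul_le_mul_of_nonneg_left h6 (by linarith)).trans (mul_le_mul_of_nonneg_right ha2 v0.le)
    linarith only [hab, hc, h7]
  have s0 : 0 < s / Λ := div_pos hs (by linarith)
  have s1 : s / Λ < s := div_lt_self hs Λ1
  have hsg : e * η * |t| = t ∨ e * η * |t| = -t := by
    rcases he with rfl | rfl <;> rcases hη with rfl | rfl <;> rcases abs_choice t with h | h <;>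
      rw [h] <;> simp
  have hsq : (e * η) ^ 2 = 1 := by
    rcases he with rfl | rfl <;> rcases hη with rfl | rfl <;> norm_num
  rcases hsg with h6 | h6
  · have h7 := S4_up A he hη hB₁ hs ha1 v0.le hv (fun τ τ0 _ h0 => by
      have : |t| + τ = 0 := by linear_combination e * η * h0 - (|t| + τ) * hsq + e * η * h6
      linarith only [t0, τ0, this]) h4
    rw [show t + e * η * ((Λ - 1) * |t|) = Λ * t by linear_combination (Λ - 1) * h6] at h7
    have h8 := h7.trans (h5.symm he')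
    rw [ee] at h8
    refine A.no_sing (q' := q₁) (ε := 1)
      (hB₁ (s - s / Λ) _ (by linarith only [s1]) (by linarith only [ha1, s0]) v0 hv) s0 fun x x0 x1 => ?_
    have h9 := S4_left A hB₁ ha1 v0 hv (u := s / Λ - x) (by linarith only [x1]) (by linarith only [s1, x0]) (by linarith only [x0]) h8
    rw [sub_sub_cancel] at h9
    rw [← h9]
    congr 1
    push_cast
    ring
  · have h7 := S4_up A he hη hB₁ s0 (s1.trans ha1) v0.le hv (fun τ _ τ1 h0 => by
      have : τ = Λ * |t| := by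
        linear_combination e * η * h0 - (τ - Λ * |t|) * hsq - Λ * (e * η) * h6
      linarith only [t0, τ1, this]) h5
    rw [show Λ * t + e * η * ((Λ - 1) * |t|) = t by linear_combination (Λ - 1) * h6] at h7
    have h8 := h7.trans (h4.symm he')
    rw [ee] at h8
    have h9 := S4_left A hB₁ (s1.trans ha1) v0 hv s0.le le_rfl s1 h8
    rw [sub_self, ofReal_zero, zero_add] at h9
    have η0 : |η| = 1 := by rcases hη with rfl | rfl <;> simp
    have h10 := hmin (s - s / Λ) (η * ((Λ - 1) * |t|)) ⟨by linarith only [s1],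
      mul_ne_zero (abs_pos.1 (by linarith only [η0])) v0.ne', q₁, q₁, h1, h1, h9.symm⟩
    rw [abs_mul, η0, one_mul, abs_of_pos v0] at h10
    have h11 : s = Λ * (s / Λ) := by field_simp
    generalize s / Λ = y at h10 h11 s0
    have h12 := mul_lt_mul_of_pos_right hΛ (mul_pos s0 t0)
    rw [h11] at h10
    linarith only [h10, h12]

end DevData
end Pool.Agent.Work.MP_563a32_gt
end

-- merged part: Pool.Agent.Work.MP_563a32_gt.S5
section
/-! Two corners at the same singular point produce a crossing of prongs.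

Plan. `same_side`: evaluate at `a + η b' I` in the coordinates of `p`: `left` for the first corner,
`rev` for the second. `opp_side`: if `a = a'`, then `Same (-1) q (η b I) p a` and
`Same (-1) q' (- η b' I) p a` (`Hit` at `s = 0`), so `Same 1 q (η b I) q' (- η b' I)`, and
`frame_unique` contradicts the signs. If `a < a'`: the points `a - η v I`, `0 ≤ v ≤ b'`, lie in
`Dom p` (`mem_re`, `Corner.same`, `Corner.box`, `rev` for the second corner); `prop_v` from
`Same (-1) p a q (η b I)` gives `G p (a - η b' I) = G q (η (b + b') I)`, and `rev` gives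
`G q' (a' - a)`. `adj`: translate with `nb_same`. If `b < b'` evaluate at `a' + η b I` in the
coordinates of `nb η p` (`left` for the second corner, `rev` with `u = - a'` for the first); if
`b' < b` at `- a + η b' I`; if `b = b'`, `axis` for both corners and `inj_re` give `q = q'`,
`a = a'`, and the signs contradict `not_same_neg`. `turn`: by `rev` and `nb_same`,
`Same 1 p (u - η b' I) q' (a' + u)` for `u > - a'`. For `0 < u < an' - a'` the
points `u - η v I`, `0 ≤ v ≤ b'`, lie in `Dom p` (`mem_re` for `v = 0`; `Corner.same` for the second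
corner with `- u`, using `right`, and `nb_dom`; `rev` for `v = b'`); note `0 < an' - a'` by `gap`.
Case `b + b' < bp`: take `0 < u < min a (an' - a')`; `prop_v` from `Same (-1) p u q (a - u + η b I)`
(`Hit`) inside `up`; then `prop_r` from `u` to `a` between `q'` and `q`. Case `bp ≤ b + b'` and
`α = a - ap < an' - a'`: with `β = bp - b ≤ b'`, `prop_v` gives
`G p (α - η v I) = G q (ap + η (b + v) I)` for `v < β`, which is `G p'' (η (β - v) I)` by `axis` for
the previous corner; `no_sing_v` at `α - η β I`. -/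

namespace Pool.Agent.Work.MP_563a32_gt
open Filter Topology Complex

namespace DevData
variable {S Pr X : Type} [TopologicalSpace S] [T2Space S] {E : DevData S Pr X}
  {q q' p : Pr} {η a b a' b' : ℝ}

omit [TopologicalSpace S] [T2Space S] in
theorem S5_mem {z w : ℂ} (h : w ∈ E.Dom q) (e : z = w) : z ∈ E.Dom q := e ▸ h

theorem S5_neg (hη : η = 1 ∨ η = -1) : -η = 1 ∨ -η = -1 := by
  rcases hη with rfl | rfl <;> simp

theorem S5_ne (hη : η = 1 ∨ η = -1) {t : ℝ} (ht : 0 < t) : η * t ≠ 0 := by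
  rcases hη with rfl | rfl <;> simpa using ht.ne'

theorem S5_im (hη : η = 1 ∨ η = -1) (s : ℝ) {t : ℝ} (ht : 0 < t) :
    0 < η * ((s : ℂ) + (η * t : ℝ) * I).im := by
  rcases hη with rfl | rfl <;> simpa using ht

theorem S5_v (A : E.Ax) (hη : η = 1 ∨ η = -1) {w w' : ℂ} (h : E.Same (-1) q w q' w') {c : ℝ}
    (hc : 0 ≤ c) (hd : ∀ v : ℝ, 0 ≤ v → v ≤ c → w + (-η * v : ℝ) * I ∈ E.Dom q)
    (hd' : ∀ v : ℝ, 0 ≤ v → v ≤ c → w' + (η * v : ℝ) * I ∈ E.Dom q') :
    E.Same (-1) q (w + (-η * c : ℝ) * I) q' (w' + (η * c : ℝ) * I) := by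
  have key : ∀ u ∈ Set.uIcc 0 (-η * c), ∃ v, 0 ≤ v ∧ v ≤ c ∧ u = -η * v := fun u hu => by
    rcases hη with rfl | rfl
    · rw [Set.uIcc_of_ge (by linarith)] at hu
      exact ⟨-u, by linarith [hu.2], by linarith [hu.1], by ring⟩
    · rw [Set.uIcc_of_le (by linarith)] at hu
      exact ⟨u, hu.1, by linarith [hu.2], by ring⟩
  refine D3_congr (A.prop_v (Or.inr rfl) h (-η * c) (fun u hu => ?_) fun u hu => ?_) rfl
    (by push_cast; ring)
  · obtain ⟨v, h0, h1, rfl⟩ := key u hu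
    exact hd v h0 h1
  · obtain ⟨v, h0, h1, rfl⟩ := key u hu
    exact S5_mem (hd' v h0 h1) (by push_cast; ring)

theorem S5_dom (A : E.Ax) (hη : η = 1 ∨ η = -1) (h : E.Corner q η a b p) {u v : ℝ} (h0 : 0 < u)
    (h1 : u < a) (h2 : 0 ≤ v) (h3 : v ≤ b) : (u : ℂ) + (η * v : ℝ) * I ∈ E.Dom p := by
  rcases h2.eq_or_lt with rfl | h2
  · exact S5_mem (A.mem_re p u h0) (by simp)
  rcases h3.eq_or_lt with rfl | h3
  · exact (h.rev A hη h1).1
  refine (h.same A hη h2 h3.le fun s hs => ?_).1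
  rw [Set.uIcc_of_ge (by linarith)] at hs
  exact h.box A hη (by linarith [hs.1]) hs.2 (by linarith) (by linarith)

theorem S5_nb (A : E.Ax) (hη : η = 1 ∨ η = -1) (p : Pr) (u : ℝ) {v : ℝ} (hv : 0 < v)
    (h : ((-u : ℝ) : ℂ) + (η * v : ℝ) * I ∈ E.Dom (E.nb η p) ∨
      (u : ℂ) + (-η * v : ℝ) * I ∈ E.Dom p) :
    E.Same (-1) (E.nb η p) ((-u : ℝ) + (η * v : ℝ) * I) p (u + (-η * v : ℝ) * I) := by
  refine D3_congr (A.nb_same hη p (S5_im hη (-u) hv) ?_) rfl (by push_cast; ring)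
  rcases h with h | h
  · exact (A.nb_dom hη p (S5_im hη (-u) hv)).1 h
  · exact S5_mem h (by push_cast; ring)

theorem Corner.same_side (A : E.Ax) (hη : η = 1 ∨ η = -1) (h : E.Corner q η a b p)
    (h' : E.Corner q' η a' b' p) (ha : a < a') (hb : b' < b) :
    E.G q' ((a' - a : ℝ) : ℂ) = E.G q ((η * (b - b') : ℝ) * I) :=
  (h'.rev A hη ha).eq.symm.trans (h.left A hη h'.1.le hb).eq

theorem Corner.opp_ne (A : E.Ax) (hη : η = 1 ∨ η = -1) (h : E.Corner q η a b p)
    (h' : E.Corner q' (-η) a' b' p) : a ≠ a' := by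
  rintro rfl
  have h1 := (h.2.1.2 0 le_rfl h.2.1.1).trans ((h'.2.1.2 0 le_rfl h.2.1.1).symm (Or.inr rfl))
  have h2 := A.frame_unique (b := (q, η * b)) (b' := (q', -η * b')) (S5_ne hη h.1)
    (S5_ne (S5_neg hη) h'.1) (h1.D5_congr (by ring) (by simp) (by simp))
  have h3 : η * b = -η * b' := congrArg Prod.snd h2
  exact S5_ne hη (add_pos h.1 h'.1) (by linarith only [h3])

theorem Corner.opp_side (A : E.Ax) (hη : η = 1 ∨ η = -1) (h : E.Corner q η a b p)
    (h' : E.Corner q' (-η) a' b' p) (ha : a < a') :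
    E.G q' ((a' - a : ℝ) : ℂ) = E.G q ((η * (b + b') : ℝ) * I) := by
  have h1 : E.Same (-1) p a q ((η * b : ℝ) * I) :=
    D3_congr (h.left A hη le_rfl h.1) (by simp) (by simp)
  have h2 := S5_v A hη h1 h'.1.le
    (fun v v0 v1 => S5_dom A (S5_neg hη) h' h.2.1.1 ha v0 v1) fun v v0 _ =>
      S5_mem (A.mem_im q (η * (b + v)) (S5_ne hη (by linarith [h.1]))) (by push_cast; ring)
  exact (h'.rev A (S5_neg hη) ha).eq.symm.trans (h2.eq.trans (congrArg _ (by push_cast; ring)))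

theorem Corner.adj (A : E.Ax) (hη : η = 1 ∨ η = -1) (h : E.Corner q (-η) a b p)
    (h' : E.Corner q' η a' b' (E.nb η p)) :
    (b < b' ∧ E.G q ((a + a' : ℝ) : ℂ) = E.G q' ((η * (b' - b) : ℝ) * I)) ∨
      (b' < b ∧ E.G q' ((a + a' : ℝ) : ℂ) = E.G q ((-η * (b - b') : ℝ) * I)) := by
  have ha := h.2.1.1
  have ha' := h'.2.1.1
  rcases lt_trichotomy b b' with hb | rfl | hb
  · have h1 := h.rev A (S5_neg hη) (u := -a') (by linarith)
    have h2 := S5_nb A hη p (-a') h.1 (Or.inr h1.1)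
    rw [neg_neg] at h2
    rw [sub_neg_eq_add] at h1
    exact Or.inl ⟨hb, h1.eq.symm.trans (h2.eq.symm.trans (h'.left A hη h.1.le hb).eq)⟩
  · exfalso
    have h1 := h.rev A (S5_neg hη) ha
    have h2 := S5_nb A hη p 0 h.1 (Or.inr h1.1)
    have h3 := h'.rev A hη ha'
    rw [neg_zero] at h2
    rw [sub_zero] at h1 h3
    have h4 := (h3.symm (Or.inr rfl)).trans (h2.trans h1)
    obtain ⟨rfl, rfl⟩ := A.inj_re _ _ _ _ ha' ha h4.eq
    exact A.not_same_neg _ _ (h4.D5_congr (by ring) rfl rfl)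
  · have h1 := h.left A (S5_neg hη) h'.1.le hb
    have h2 := S5_nb A hη p a h'.1 (Or.inr h1.1)
    have h3 := h'.rev A hη (u := -a) (by linarith)
    rw [sub_neg_eq_add, add_comm a'] at h3
    exact Or.inr ⟨hb, h3.eq.symm.trans (h2.eq.trans h1.eq)⟩

theorem Inc.turn (A : E.Ax) (hη : η = 1 ∨ η = -1) {ap bp an ap' bp' an' : ℝ}
    (h : E.Inc q η a b p ap bp an) (h' : E.Inc q' η a' b' (E.nb η p) ap' bp' an') :
    E.G q' ((a + a' : ℝ) : ℂ) = E.G q ((η * (b + b') : ℝ) * I) ∨ an' - a' ≤ a - ap := by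
  refine or_iff_not_imp_right.2 fun hc => ?_
  have ha := h.cor.2.1.1
  have ha' := h'.cor.2.1.1
  have hb := h.cor.1
  have hb' := h'.cor.1
  have hap := h.lt_a
  have f1 : ∀ u : ℝ, 0 < u → E.Same 1 p (u + (-η * b' : ℝ) * I) q' ((a' + u : ℝ) : ℂ) :=
    fun u hu => by
    have h1 := h'.cor.rev A hη (u := -u) (by linarith)
    rw [sub_neg_eq_add] at h1
    exact (((S5_nb A hη p u hb' (Or.inl h1.1)).symm (Or.inr rfl)).trans h1).D5_congr (by ring)
      rfl rfl
  have f2 : ∀ u v : ℝ, 0 < u → u < an' - a' → 0 ≤ v → v ≤ b' →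
      (u : ℂ) + (-η * v : ℝ) * I ∈ E.Dom p := fun u v u0 u1 v0 v1 => by
    rcases v0.eq_or_lt with rfl | v0
    · exact S5_mem (A.mem_re p u u0) (by simp)
    rcases v1.eq_or_lt with rfl | v1
    · exact (f1 u u0).1
    refine (S5_nb A hη p u v0 (Or.inl (h'.cor.same A hη v0 v1.le fun s hs => ?_).1)).2.1
    rw [Set.uIcc_of_le (by linarith)] at hs
    exact h'.right s _ (by linarith [hs.1]) (by linarith [hs.2]) (by linarith) (by linarith)
  have f3 : ∀ u v : ℝ, 0 < u → u ≤ a → u < an' - a' → 0 ≤ v → v ≤ b' → b + v < bp →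
      E.Same (-1) p (u + (-η * v : ℝ) * I) q ((a - u : ℝ) + (η * (b + v) : ℝ) * I) :=
    fun u v u0 u1 u2 v0 v1 v2 => by
    have h1 := (h.cor.2.1.2 (a - u) (by linarith) (by linarith)).symm (Or.inr rfl)
    rw [sub_sub_cancel] at h1
    exact D3_congr (S5_v A hη h1 v0 (fun t t0 t1 => f2 u t u0 u2 t0 (t1.trans v1)) fun t t0 t1 =>
      S5_mem (h.up (a - u) (b + t) (by linarith) (by linarith) (by linarith) (by linarith))
        (by push_cast; ring)) rfl (by push_cast; ring)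
  obtain ⟨p', hp'⟩ := h.prev
  have hap0 := hp'.2.1.1
  rcases lt_or_ge (b + b') bp with hl | hl
  · have h1 := ((f1 (a - ap) (by linarith)).symm (Or.inl rfl)).trans
      (f3 (a - ap) b' (by linarith) (by linarith) (not_le.1 hc) hb'.le le_rfl hl)
    rw [one_mul, sub_sub_cancel] at h1
    have h2 := A.prop_r (Or.inr rfl) h1 ap (fun s hs => by
      rw [Set.uIcc_of_le hap0.le] at hs
      exact S5_mem (A.mem_re q' (a' + (a - ap) + s) (by linarith [hs.1])) (by push_cast; ring))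
      fun s hs => by
        rw [Set.uIcc_of_le hap0.le] at hs
        exact S5_mem (h.up (ap - s) (b + b') (by linarith [hs.2]) (by linarith [hs.1])
          (by linarith) hl) (by push_cast; ring)
    exact (D3_congr h2 (by push_cast; ring) (by push_cast; ring)).eq
  · exfalso
    have hbp := h.lt_b
    refine A.no_sing_v (p := p') (c := η * I) hη (f2 (a - ap) (bp - b) (by linarith) (not_le.1 hc)
      (by linarith) (by linarith)) (δ := bp - b) (by linarith) fun v v0 v1 => ?_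
    have h1 := f3 (a - ap) (bp - b - v) (by linarith) (by linarith) (not_le.1 hc) (by linarith)
      (by linarith) (by linarith)
    have h2 := hp'.axis A hη v0 (by linarith)
    exact (D3_congr h1 (by push_cast; ring) (by push_cast; ring)).eq.trans h2.eq.symm

end DevData
end Pool.Agent.Work.MP_563a32_gt
end

-- merged part: Pool.Agent.Work.MP_563a32_gt.S6
section
/-! The count of good corners.

Plan. `window`: take the least `j₀` with `a / l ^ j₀ < 1` (`exists_mem_Ico_zpow`), so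
`l ^ (j₀ - 1) ≤ a`. `count`: the map `ι ⊕ X → Pr` given by `f` and by a choice of a missed prong
over each point is injective. `core`: suppose `4 Λ (Λ - 1) lam ^ N < 1`, `Λ = lam ^ k`; then
`(Λ - 1) ^ 2 < Λ`. Take good corners `(a η, b η, p η)` for `η = 1, -1` (`exists_inc`), put
`Y = max (a 1 * b 1) (a (-1) * b (-1)) / (4 Λ (Λ - 1))`. By `hom_ge` (boxes from `Corner.box`) there
is no `Hom q₀ s t` with `s < 2`, `|t| < 2 Y`. By `window` and `Inc.pow` get, for each sign and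
`i < N`, a good corner of `(σ ^ (j₀ + i)) q₀` with width `< 1`, height `< Y` and landing prong
`f (η, i)`. `f` is injective (`same_side`: widths and heights are strictly monotone in `i`;
`opp_ne`, `opp_side`). If all prongs over `x` were values of `f`, choose for each such prong `p` a
sign `e p` and a gap `α p = a - ap`. By `adj` (with `η = 1`) `e p = -1` implies `e (rot p) = -1`;
as `rot` is transitive over `x` (`rot_trans`), `e` is constant, equal to `η`. By `turn` and `gap`,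
`α (nb η p) < α p` for all `p` over `x`, which fails at a minimum of `α`. Apply `count`. -/

namespace Pool.Agent.Work.MP_563a32_gt
open Filter Topology Complex

theorem window {l a b Y : ℝ} (hl : 1 < l) (ha : 0 < a) (hb : 0 < b) {N : ℕ}
    (h : a * b * l ^ N < Y) :
    ∃ j₀ : ℤ, ∀ i : ℕ, i < N → a / l ^ (j₀ + i) < 1 ∧ l ^ (j₀ + i) * b < Y := by
  have l0 : 0 < l := by linarith
  obtain ⟨j, h1, h2⟩ := exists_mem_Ico_zpow ha hl
  refine ⟨j + 1, fun i hi => ⟨?_, ?_⟩⟩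
  · rw [div_lt_one (zpow_pos l0 _)]
    exact h2.trans_le (zpow_le_zpow_right₀ hl.le (by omega))
  · refine lt_of_le_of_lt ?_ h
    have h3 : l ^ (j + 1 + i) ≤ l ^ j * l ^ N := by
      rw [← zpow_natCast, ← zpow_add₀ l0.ne']
      exact zpow_le_zpow_right₀ hl.le (by omega)
    have h4 : l ^ j * l ^ N ≤ a * l ^ N := by gcongr
    linarith only [hb, h3, h4, mul_nonneg_of_nonpos_of_nonpos (le_of_lt (Mathlib.Tactic.Linarith.sub_neg_of_lt hb)) (Mathlib.Tactic.Linarith.sub_nonpos_of_le h3), mul_nonneg_of_nonpos_of_nonpos (le_of_lt (Mathlib.Tactic.Linarith.sub_neg_of_lt hb)) (Mathlib.Tactic.Linarith.sub_nonpos_of_le h4)]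

theorem count {ι Pr X : Type} [Fintype ι] [Fintype Pr] [Fintype X] (base : Pr → X) (f : ι → Pr)
    (hf : Function.Injective f) (h : ∀ x, ∃ p, base p = x ∧ ∀ i, f i ≠ p) :
    Fintype.card ι + Fintype.card X ≤ Fintype.card Pr := by
  choose m h1 h2 using h
  rw [← Fintype.card_sum]
  refine Fintype.card_le_of_injective (Sum.elim f m) ?_
  rintro (i | x) (j | y) e
  · rw [hf e]
  · exact absurd e (h2 y i)
  · exact absurd e.symm (h2 x j)
  · have e' : m x = m y := e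
    rw [← h1 x, e', h1 y]

namespace DevData
variable {S Pr X : Type} [TopologicalSpace S] [T2Space S] [Fintype Pr] [Fintype X]
  {E : DevData S Pr X}

theorem Ax.core (A : E.Ax) (hs : Function.Surjective E.base) {q₀ : Pr} {k : ℕ} (hk : 1 ≤ k)
    (hq : (E.σ ^ k) q₀ = q₀) {N : ℕ} (hN : Fintype.card Pr < 2 * N + Fintype.card X) :
    1 ≤ 4 * (E.lam ^ k * (E.lam ^ k - 1)) * E.lam ^ N := by
  classical
  by_contra hcon
  rw [not_le] at hcon
  have l1 := A.one_lt
  have l0 : 0 < E.lam := by linarith only [l1]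
  have L1 : 1 < E.lam ^ k := one_lt_pow₀ l1 (by omega)
  have N1 : 1 ≤ E.lam ^ N := one_le_pow₀ l1.le
  have D0 : 0 < E.lam ^ k * (E.lam ^ k - 1) := mul_pos (by linarith only [L1]) (by linarith only [L1])
  have hΛ : (E.lam ^ k - 1) ^ 2 < E.lam ^ k := by
    linarith only [hcon, L1, mul_le_mul_of_nonneg_left N1 D0.le]
  have sg : ∀ c : Bool, (if c then 1 else -1 : ℝ) = 1 ∨ (if c then 1 else -1 : ℝ) = -1 := by
    intro c
    cases c <;> simp
  choose a b p ap bp an hI using fun c : Bool => A.exists_inc (sg c) hk hq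
  have a0 : ∀ c, 0 < a c := fun c => (hI c).cor.2.1.1
  have b0 : ∀ c, 0 < b c := fun c => (hI c).cor.1
  obtain ⟨M, hM, c₀, hc₀⟩ : ∃ M, (∀ c, a c * b c ≤ M) ∧ ∃ c, M = a c * b c := by
    rcases le_total (a true * b true) (a false * b false) with h | h
    · exact ⟨_, fun c => by cases c <;> [exact le_rfl; exact h], false, rfl⟩
    · exact ⟨_, fun c => by cases c <;> [exact h; exact le_rfl], true, rfl⟩
  have M0 : 0 < M := hc₀ ▸ mul_pos (a0 _) (b0 _)
  obtain ⟨Y, hY⟩ : ∃ Y, Y = M / (4 * (E.lam ^ k * (E.lam ^ k - 1))) := ⟨_, rfl⟩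
  have hY' : Y * (4 * (E.lam ^ k * (E.lam ^ k - 1))) = M := by
    rw [hY]
    exact div_mul_cancel₀ _ (by linarith only [D0])
  have Y0 : 0 < Y := hY ▸ div_pos M0 (by linarith only [D0])
  have no : ∀ (s t : ℝ) (i j : ℤ), 0 < s → s < 2 → t ≠ 0 → |t| < 2 * Y →
      E.G ((E.σ ^ i) q₀) s ≠ E.G ((E.σ ^ j) q₀) (t * I) := by
    intro s t i j h1 h2 h3 h4 h5
    have h6 := A.hom_ge hk hq hΛ (sg c₀) (a0 c₀) (fun s t u1 u2 u3 u4 =>
      (hI c₀).cor.box A (sg c₀) u1 u2.le u3 u4) ⟨h1, h3, _, _, ⟨i, rfl⟩, ⟨j, rfl⟩, h5⟩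
    have h7 : s * |t| < 2 * (2 * Y) := mul_lt_mul'' h2 h4 h1.le (abs_nonneg _)
    linarith only [h6, hY', hc₀, mul_lt_mul_of_pos_right h7 D0]
  have hw : ∀ c, a c * b c * E.lam ^ N < Y := by
    intro c
    rw [hY, lt_div_iff₀ (by linarith only [D0])]
    linarith only [hM c, mul_lt_mul_of_pos_left hcon (mul_pos (a0 c) (b0 c))]
  choose j₀ hj using fun c => window l1 (a0 c) (b0 c) (hw c)
  obtain ⟨f, a', b', ap', bp', an', n, hf, h1, h2, h3⟩ : ∃ (f : Bool × Fin N → Pr)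
      (a' b' ap' bp' an' : Bool × Fin N → ℝ) (n : Bool × Fin N → ℤ),
      (∀ x, E.Inc ((E.σ ^ n x) q₀) (if x.1 then 1 else -1) (a' x) (b' x) (f x) (ap' x) (bp' x)
        (an' x)) ∧ (∀ x, a' x < 1) ∧ (∀ x, b' x < Y) ∧
      ∀ c i j, i < j → a' (c, j) < a' (c, i) ∧ b' (c, i) < b' (c, j) := by
    refine ⟨_, _, _, _, _, _, fun x => j₀ x.1 + (x.2 : ℕ),
      fun x => (hI x.1).pow A (j₀ x.1 + (x.2 : ℕ)), fun x => (hj x.1 x.2 x.2.2).1,
      fun x => (hj x.1 x.2 x.2.2).2, fun c i j hij => ?_⟩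
    have : E.lam ^ (j₀ c + (i : ℕ)) < E.lam ^ (j₀ c + (j : ℕ)) :=
      zpow_lt_zpow_right₀ l1 (by have : (i : ℕ) < j := hij; omega)
    exact ⟨div_lt_div_of_pos_left (a0 c) (zpow_pos l0 _) this, mul_lt_mul_of_pos_right this (b0 c)⟩
  have p1 : ∀ x, 0 < a' x := fun x => (hf x).cor.2.1.1
  have p2 : ∀ x, 0 < b' x := fun x => (hf x).cor.1
  have ab : ∀ {η t : ℝ}, η = 1 ∨ η = -1 → 0 < t → t < 2 * Y → η * t ≠ 0 ∧ |η * t| < 2 * Y := by
    rintro η t (rfl | rfl) u1 u2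
    · rw [one_mul, abs_of_pos u1]
      exact ⟨u1.ne', u2⟩
    · rw [neg_one_mul, abs_neg, abs_of_pos u1]
      exact ⟨neg_ne_zero.2 u1.ne', u2⟩
  have same : ∀ c i j, i < j → f (c, i) ≠ f (c, j) := by
    intro c i j hij e
    obtain ⟨u1, u2⟩ := h3 c i j hij
    have u3 := ab (sg c) (sub_pos.2 u2) (by linarith only [Y0, h2, p2, h2 (c, j), p2 (c, i)])
    exact no _ _ _ _ (sub_pos.2 u1) (by linarith only [h1, p1, h1 (c, i), p1 (c, j)]) u3.1 u3.2
      ((hf (c, j)).cor.same_side A (sg c) (e ▸ (hf (c, i)).cor) u1 u2)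
  have opp : ∀ c i j, a' (c, i) < a' (!c, j) → f (c, i) ≠ f (!c, j) := by
    intro c i j u1 e
    have u3 := ab (sg c) (add_pos (p2 (c, i)) (p2 (!c, j))) (by linarith only [h2, h2 (c, i), h2 (!c, j)])
    refine no _ _ (n (!c, j)) _ (sub_pos.2 u1) (by linarith only [h1, p1, h1 (!c, j), p1 (c, i)]) u3.1 u3.2
      ((hf (c, i)).cor.opp_side A (sg c) ?_ u1)
    have := (hf (!c, j)).cor
    rw [← e] at this
    cases c <;> simpa using this
  have inj : Function.Injective f := by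
    rintro ⟨c, i⟩ ⟨c', j⟩ e
    by_cases hc : c = c'
    · subst hc
      rcases lt_trichotomy i j with h | h | h
      · exact absurd e (same c i j h)
      · rw [h]
      · exact absurd e.symm (same c j i h)
    · obtain rfl : c' = !c := Bool.eq_not_of_ne (Ne.symm hc)
      exfalso
      rcases lt_trichotomy (a' (c, i)) (a' (!c, j)) with h | h | h
      · exact opp c i j h e
      · refine (hf (c, i)).cor.opp_ne A (sg c) (q' := (E.σ ^ n (!c, j)) q₀) (b' := b' (!c, j)) ?_ h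
        have := (hf (!c, j)).cor
        rw [← e] at this
        cases c <;> simpa using this
      · refine opp (!c) j i (by simpa using h) (by simpa using e.symm)
  have miss : ∀ x, ∃ p, E.base p = x ∧ ∀ i, f i ≠ p := by
    intro x
    by_contra hx
    push Not at hx
    have s1 : ∀ y z, y.1 = false → f z = E.rot (f y) → z.1 = false := by
      rintro ⟨c, i⟩ ⟨c', j⟩ rfl e
      cases c'
      · rfl
      exfalso
      have u1 : E.Corner ((E.σ ^ n (false, i)) q₀) (-1) (a' (false, i)) (b' (false, i))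
        (f (false, i)) := by simpa using (hf (false, i)).cor
      have u2 : E.Corner ((E.σ ^ n (true, j)) q₀) 1 (a' (true, j)) (b' (true, j))
        (E.nb 1 (f (false, i))) := by simpa [nb, ← e] using (hf (true, j)).cor
      have v1 := add_pos (p1 (false, i)) (p1 (true, j))
      have v2 : a' (false, i) + a' (true, j) < 2 := by linarith only [h1, h1 (false, i), h1 (true, j)]
      rcases u1.adj A (.inl rfl) u2 with ⟨u3, u4⟩ | ⟨u3, u4⟩
      · have u5 := ab (.inl rfl) (sub_pos.2 u3) (by linarith only [Y0, h2, p2, h2 (true, j), p2 (false, i)])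
        exact no _ _ _ _ v1 v2 u5.1 u5.2 u4
      · have u5 := ab (.inr rfl) (sub_pos.2 u3) (by linarith only [Y0, h2, p2, h2 (false, i), p2 (true, j)])
        exact no _ _ _ _ v1 v2 u5.1 u5.2 u4
    have s2 : ∀ y z, E.base (f y) = x → E.base (f z) = x → y.1 = false → z.1 = false := by
      intro y z u1 u2 u3
      obtain ⟨m, hm⟩ := A.rot_trans (f y) (f z) (u1.trans u2.symm)
      induction m generalizing z with
      | zero => rwa [← inj (show f y = f z from hm)]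
      | succ m ih =>
        have u4 : E.base ((E.rot ^ m) (f y)) = x := by
          rw [← u2, ← hm, pow_succ', Equiv.Perm.mul_apply, A.base_rot]
        obtain ⟨w, hw⟩ := hx _ u4
        refine s1 w z (ih w (hw ▸ u4) hw.symm) ?_
        rw [hw, ← hm, pow_succ', Equiv.Perm.mul_apply]
    obtain ⟨p₀, hp₀⟩ := hs x
    obtain ⟨y₀, hy₀⟩ := hx p₀ hp₀
    obtain ⟨y, u1, u2⟩ := Finset.exists_min_image
      (Finset.univ.filter fun y => E.base (f y) = x) (fun y => a' y - ap' y)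
      ⟨y₀, by simp [hy₀, hp₀]⟩
    rw [Finset.mem_filter] at u1
    have u3 : E.base (E.nb (if y.1 then 1 else -1) (f y)) = x := (A.base_nb _ _).trans u1.2
    obtain ⟨z, hz⟩ := hx _ u3
    have u4 : E.base (f z) = x := hz ▸ u3
    have u5 : z.1 = y.1 := by
      have v1 := s2 y z u1.2 u4
      have v2 := s2 z y u4 u1.2
      exact (by decide : ∀ a b : Bool, (a = false → b = false) → (b = false → a = false) → b = a)
        _ _ v1 v2
    have u6 := hf z
    rw [u5, hz] at u6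
    rcases (hf y).turn A (sg y.1) u6 with u7 | u7
    · have u8 := ab (sg y.1) (add_pos (p2 y) (p2 z)) (by linarith only [h2, h2 y, h2 z])
      exact no _ _ _ _ (add_pos (p1 y) (p1 z)) (by linarith only [h1, h1 y, h1 z]) u8.1 u8.2 u7
    · have := u2 z (by simp [u4])
      linarith only [u7, this, u6, u6.gap]
  have := count E.base f inj miss
  simp only [Fintype.card_prod, Fintype.card_bool, Fintype.card_fin] at this
  omega

end DevData
end Pool.Agent.Work.MP_563a32_gt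
end

-- merged part: Pool.Agent.Work.MP_563a32_gt.S7
section
/-! A point of short period.

Plan. `loop`: as in `FinData.bound` (file CMain) there are `1 ≤ k ≤ 32 g` and `i` with
`1 ≤ (M ^ k) i i` or `1 ≤ (M ^ k) (T i) i`; in the second case `(M ^ k) i (T i)` is the same number
(`M_symm` for powers, `T_T`), and `1 ≤ (M ^ (k + k)) i i`. `orbit_same`: induction with `D4_ret`,
`prop_h` and `wd_spec`. `cross_one`: take `k < i.m` with `J i k = j`, `e = i.e k`,
`c = ∑ l < k, wd (J i l).mid`; use `strip`, `strip_le`, `renorm_mem` (the last part of `Renorm`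
gives the bound on `c`), `B3_J`, `w_intv`, `orbit_same` for `φ (i.pr, t)`, `prop_h` and `same_F`.
`comp`: `c'' = c lam ^ m + c'`, `e'' = e' + e / lam ^ m`, `pow_same`. `cross_pow`: induction, a
positive sum has a positive term. `fix`: let `q = i.pr`, `w = wd i.mid`, `Λ = lam ^ n`. If `c = 0`
take `s = 0` and `frame_unique` (heights inside `i` are not zero, `mem_good`). If `c + w = Λ w` take
`s = w`, `T_spec` at the heights `t` and `e + t / Λ`, `T_on`, `pow_same`, and `frame_unique` for the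
prong of `TI i`. Otherwise `z = c / (Λ - 1) + e Λ / (Λ - 1) I` has real part in `(0, w)` and
imaginary part in `[lo, hi]`; it lies in `Dom q` by `wd_spec`, `side`, `side'` or `mem_re`; for `t`
in `(lo, hi)` one has `Same 1 ((σ ^ n) q) (diag Λ z + (t - im z) I) q (z + (t - im z) I)`; take `t`
so close to `im z` that the two segments stay in the open domains (`pow_dom`) and use `prop_v`. -/

namespace Pool.Agent.Work.MP_563a32_gt
open Filter Topology Complex Finset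

theorem FinData.loop {I Pr X : Type} [Fintype I] [DecidableEq I] [Fintype Pr] [DecidableEq Pr]
    [Fintype X] [DecidableEq X] (D : FinData I Pr X) (g : ℕ) (hg : 2 ≤ g)
    (hcard : Fintype.card Pr + 4 = 4 * g + 2 * Fintype.card X) :
    ∃ k, 1 ≤ k ∧ k ≤ 64 * g ∧ ∃ i, 1 ≤ (D.M ^ k) i i := by
  have key : ∃ k, 1 ≤ k ∧ k ≤ 32 * g ∧ ∃ i, 1 ≤ (D.M ^ k) i i ∨ 1 ≤ (D.M ^ k) (D.T i) i := by
    by_contra hcon
    have hno : ∀ k, 1 ≤ k → k ≤ 32 * g →
        ∀ i, (D.M ^ k) i i = 0 ∧ (D.M ^ k) (D.T i) i = 0 := by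
      intro k hk hK i
      by_contra hne
      exact hcon ⟨k, hk, hK, i, by omega⟩
    obtain ⟨μ, hμ, h0, htr⟩ := D.lefschetz (32 * g) hno
    obtain ⟨E, hE, hfix⟩ := orbits D.fX
    refine poly_contra g hg _ ?_ E hE (newton μ E hE (32 * g) ?_)
    · rw [natDegree_prod_one_sub μ h0]
      omega
    · intro k hk hK
      rw [← hfix k hk]
      exact htr k hk hK
  have hinv : Function.Involutive D.T := D.T_T
  have symm : ∀ k j i, (D.M ^ k) (D.T j) (D.T i) = (D.M ^ k) j i := by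
    intro k
    induction k with
    | zero => exact fun j i => by simp only [pow_zero, Matrix.one_apply, hinv.injective.eq_iff]
    | succ k ih =>
      intro j i
      rw [pow_succ, Matrix.mul_apply, Matrix.mul_apply, ← Equiv.sum_comp hinv.toPerm]
      exact sum_congr rfl fun l _ => by rw [Function.Involutive.coe_toPerm, ih, D.M_symm]
  obtain ⟨k, h1, h2, i, h | h⟩ := key
  · exact ⟨k, h1, by omega, i, h⟩
  · refine ⟨k + k, by omega, by omega, i, ?_⟩
    have h' := symm k (D.T i) i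
    rw [D.T_T] at h'
    rw [pow_add, Matrix.mul_apply]
    refine le_trans ?_ (single_le_sum (f := fun l => (D.M ^ k) i l * (D.M ^ k) l i)
      (fun _ _ => Nat.zero_le _) (mem_univ (D.T i)))
    rw [h']
    exact Nat.mul_le_mul h h

namespace DevData
variable {S Pr X : Type} [TopologicalSpace S] [T2Space S] [Fintype Pr] [DecidableEq Pr]
  {E : DevData S Pr X}

/-- The `n`-th preimage of the rectangle over `i` crosses the rectangle over `j`. -/
def Cross (E : DevData S Pr X) (n : ℕ) (j i : E.lin.I) : Prop :=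
  ∃ c e : ℝ, 0 ≤ c ∧ c + E.wd j.mid ≤ E.lam ^ n * E.wd i.mid ∧ j.lo ≤ e + i.lo / E.lam ^ n ∧
    e + i.hi / E.lam ^ n ≤ j.hi ∧ ∀ s t : ℝ, 0 ≤ s → s ≤ E.wd j.mid → i.lo < t → t < i.hi →
      E.Same 1 ((E.σ ^ n) j.pr) (diag (E.lam ^ n) (s + (e + t / E.lam ^ n : ℝ) * I)) i.pr
        (((c + s) / E.lam ^ n : ℝ) + t * I)

omit [DecidableEq Pr] in
theorem Ax.S7_shift (A : E.Ax) {b : Pr × ℝ} {q : Pr} {c t s : ℝ} (ht : t ≠ 0) (hg : E.lin.Good b)
    (h : E.Same 1 b.1 (b.2 * I) q (c + t * I)) (h0 : 0 ≤ s) (h1 : s ≤ E.wd b) :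
    E.Same 1 b.1 (s + b.2 * I) q ((c + s : ℝ) + t * I) := by
  have h2 := A.prop_h (Or.inl rfl) (by simpa using ht) (h.symm (Or.inl rfl)) s (fun u hu => by
    rw [Set.uIcc_of_le h0] at hu
    rw [one_mul, add_comm]
    exact (A.wd_spec hg).2.1 u ⟨hu.1, hu.2.trans h1⟩) s Set.right_mem_uIcc
  exact D3_congr (h2.symm (Or.inl rfl)) (by ring) (by push_cast; ring)

theorem S7_diag (a b : ℝ) (z : ℂ) : diag (a * b) z = diag a (diag b z) :=
  Complex.ext (by simp only [diag]; rw [div_div, mul_comm]) (by simp only [diag]; ring)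

omit [Fintype Pr] [DecidableEq Pr] in
theorem Ax.S7_same (A : E.Ax) (n : ℕ) {ε q w q' w'} (hε : ε = 1 ∨ ε = -1)
    (h : E.Same ε q w q' w') :
    E.Same ε ((E.σ ^ n) q) (diag (E.lam ^ n) w) ((E.σ ^ n) q') (diag (E.lam ^ n) w') := by
  simpa only [zpow_natCast] using (A.pow_same (n : ℤ) hε).2 h

theorem Ax.S7_wd (A : E.Ax) (i : E.lin.I) {t : ℝ} (ht : t ∈ Set.Ioo i.lo i.hi) :
    E.lin.Good (i.pr, t) ∧ E.wd (i.pr, t) = E.wd i.mid := by
  obtain ⟨c, h, -⟩ := A.lin.T_on i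
  exact ⟨A.lin.mem_good ⟨rfl, ht.1, ht.2⟩, (h t ht).2⟩

theorem Ax.S7_dom (A : E.Ax) (i : E.lin.I) {x y : ℝ} (h0 : 0 < x) (h1 : x < E.wd i.mid)
    (h2 : i.lo ≤ y) (h3 : y ≤ i.hi) : (x : ℂ) + y * I ∈ E.Dom i.pr := by
  by_cases hy : y = 0
  · simpa [hy] using A.mem_re i.pr x h0
  rcases h2.eq_or_lt with rfl | h2
  · exact A.side' (A.lin.lo_lt_hi i) hy (fun t ht => A.S7_wd i ht) h0.le h1
  rcases h3.eq_or_lt with rfl | h3
  · exact A.side h2 hy (fun t ht => A.S7_wd i ht) h0.le h1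
  obtain ⟨hg, hw⟩ := A.S7_wd i ⟨h2, h3⟩
  exact (A.wd_spec hg).2.1 x ⟨h0.le, hw ▸ h1.le⟩

theorem Ax.orbit_same (A : E.Ax) {b : Pr × ℝ} (hb : b.2 ≠ 0) {k : ℕ}
    (h : ∀ l < k, E.lin.Good (E.lin.Ret^[l] b)) :
    E.Same 1 (E.lin.Ret^[k] b).1 ((E.lin.Ret^[k] b).2 * I) b.1
      (((∑ l ∈ range k, E.wd (E.lin.Ret^[l] b) : ℝ) : ℂ) + b.2 * I) := by
  induction k with
  | zero => simpa using Same.refl (A.mem_im b.1 b.2 hb)
  | succ k ih =>
    have hg := h k (Nat.lt_succ_self k)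
    have h1 := A.S7_shift hb hg (ih fun l hl => h l (Nat.lt_succ_of_lt hl)) (A.wd_spec hg).1.le le_rfl
    have h2 := (A.D4_ret hg).2.2.trans h1
    rw [one_mul] at h2
    rw [Function.iterate_succ_apply', sum_range_succ]
    exact h2

theorem Ax.cross_one (A : E.Ax) {j i : E.lin.I} (h : 1 ≤ A.lin.M j i) : E.Cross 1 j i := by
  obtain ⟨k, hk0⟩ := card_pos.1 h
  obtain ⟨hk, rfl⟩ := mem_filter.1 hk0
  rw [mem_range] at hk
  have hw : ∀ {b : Pr × ℝ}, i.Mem b → ∀ l < i.m,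
      E.wd (A.lin.J i l).mid = E.wd (E.lin.Ret^[l] (E.lin.φ b)) := fun hb l hl => by
    rw [← A.lin.B3_J hb hl]
    exact A.lin.w_intv ((A.lin.renorm_mem hb).2.1 l hl)
  have hp : ∀ l, 0 ≤ E.wd (A.lin.J i l).mid := fun l =>
    (A.wd_spec (A.lin.mem_good (A.lin.mem_mid _))).1.le
  have hl := A.lin.strip_le i hk
  refine ⟨∑ l ∈ range k, E.wd (A.lin.J i l).mid, i.e k, sum_nonneg fun l _ => hp l, ?_, ?_, ?_,
    fun s t h0 h1 h2 h3 => ?_⟩
  · have h1 : ∑ l ∈ range i.m, E.wd (E.lin.Ret^[l] (E.lin.φ i.mid)) = E.lam * E.wd i.mid :=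
      (A.lin.B3_mid i).2.2.2.2
    rw [← sum_range_succ, pow_one, ← h1,
      ← sum_congr rfl fun l hl => hw (A.lin.mem_mid i) l (mem_range.1 hl)]
    exact sum_le_sum_of_subset_of_nonneg (range_subset_range.2 hk) fun l _ _ => hp l
  · rw [pow_one]
    exact hl.1
  · rw [pow_one]
    exact hl.2
  · have hb : i.Mem (i.pr, t) := ⟨rfl, h2, h3⟩
    have hr := A.lin.renorm_mem hb
    have ht : t / E.lam ≠ 0 := div_ne_zero (A.lin.mem_good hb).2.1 A.D4_lam.ne'
    have h4 := A.orbit_same (b := E.lin.φ (i.pr, t)) ht fun l hl => hr.2.1 l (hl.trans hk)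
    rw [← sum_congr rfl fun l hl => hw hb l ((mem_range.1 hl).trans hk)] at h4
    have h5 := A.S7_shift ht (hr.2.1 k hk) h4 h0 (hw hb k hk ▸ h1)
    rw [(A.lin.strip i hk ⟨h2, h3⟩).1] at h5
    have h6 := (A.same_F (Or.inl rfl)).2 h5
    rw [D4_diag A.D4_lam.ne'] at h6
    rw [pow_one, pow_one]
    exact D4_inv E.σ i.pr ▸ h6

theorem Cross.comp (A : E.Ax) {n m : ℕ} {l j i : E.lin.I} (h : E.Cross n j i)
    (h' : E.Cross m l j) : E.Cross (n + m) l i := by
  obtain ⟨c, e, c0, c1, e1, e2, H⟩ := h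
  obtain ⟨c', e', c0', c1', e1', e2', H'⟩ := h'
  have hn : 0 < E.lam ^ n := pow_pos A.D4_lam n
  have hm : 0 < E.lam ^ m := pow_pos A.D4_lam m
  have ee : ∀ t : ℝ, e' + e / E.lam ^ m + t / E.lam ^ (n + m) =
      e' + (e + t / E.lam ^ n) / E.lam ^ m := fun t => by
    rw [pow_add]
    field_simp
    ring
  refine ⟨c * E.lam ^ m + c', e' + e / E.lam ^ m, by positivity, ?_, ?_, ?_,
    fun s t h0 h1 h2 h3 => ?_⟩
  · rw [pow_add]
    linarith only [c1', c1, hm, mul_le_mul_of_nonneg_left c1 hm.le]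
  · rw [ee]
    linarith only [e1', e1, hm, div_le_div_of_nonneg_right e1 hm.le]
  · rw [ee]
    linarith only [e2', e2, hm, div_le_div_of_nonneg_right e2 hm.le]
  · have h4 := A.S7_same n (Or.inl rfl) (H' s (e + t / E.lam ^ n) h0 h1
      (by linarith only [e1, h2, hn, div_lt_div_of_pos_right h2 hn]) (by linarith only [e2, h3, hn, div_lt_div_of_pos_right h3 hn]))
    have h5 := h4.trans (H ((c' + s) / E.lam ^ m) t (by positivity)
      ((div_le_iff₀' hm).2 (by linarith only [c1', h1])) h2 h3)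
    have h6 : (c * E.lam ^ m + c' + s) / E.lam ^ (n + m) =
        (c + (c' + s) / E.lam ^ m) / E.lam ^ n := by
      rw [pow_add]
      field_simp
      ring
    rw [one_mul] at h5
    rw [ee, h6, pow_add, pow_add, S7_diag]
    exact h5

theorem Ax.cross_pow (A : E.Ax) {n : ℕ} (hn : 1 ≤ n) {j i : E.lin.I}
    (h : 1 ≤ (A.lin.M ^ n) j i) : E.Cross n j i := by
  induction n, hn using Nat.le_induction generalizing j with
  | base => exact A.cross_one (by rwa [pow_one] at h)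
  | succ n _ ih =>
    rw [pow_succ', Matrix.mul_apply] at h
    obtain ⟨l, -, hl⟩ := exists_ne_zero_of_sum_ne_zero (Nat.one_le_iff_ne_zero.1 h)
    obtain ⟨h1, h2⟩ := mul_ne_zero_iff.1 hl
    exact (ih (Nat.one_le_iff_ne_zero.2 h2)).comp A (A.cross_one (Nat.one_le_iff_ne_zero.2 h1))

theorem Cross.fix (A : E.Ax) {n : ℕ} (hn : 1 ≤ n) {i : E.lin.I} (h : E.Cross n i i) :
    (∃ q, (E.σ ^ n) q = q) ∨ ∃ q z, E.Same 1 ((E.σ ^ n) q) (diag (E.lam ^ n) z) q z := by
  obtain ⟨c, e, c0, c1, e1, e2, H⟩ := h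
  have hL : 1 < E.lam ^ n := one_lt_pow₀ A.one_lt (by omega)
  have hdom : ∀ z, z ∈ E.Dom i.pr → diag (E.lam ^ n) z ∈ E.Dom ((E.σ ^ n) i.pr) := fun z hz => by
    simpa only [zpow_natCast] using (A.pow_dom (n : ℤ) i.pr z).2 hz
  have hsame := fun {q w q' w'} => A.S7_same n (q := q) (w := w) (q' := q') (w' := w') (Or.inr rfl)
  generalize E.lam ^ n = Λ at *
  generalize E.σ ^ n = τ at *
  have hΛ : 0 < Λ := zero_lt_one.trans hL
  have hw : 0 < E.wd i.mid := (A.wd_spec (A.lin.mem_good (A.lin.mem_mid i))).1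
  obtain ⟨t, ht⟩ : ∃ t, t ∈ Set.Ioo i.lo i.hi := ⟨_, A.lin.B2_mid i⟩
  have hy : e + t / Λ ∈ Set.Ioo i.lo i.hi :=
    ⟨by linarith only [e1, ht, hΛ, div_lt_div_of_pos_right ht.1 hΛ], by linarith only [e2, ht, hΛ, div_lt_div_of_pos_right ht.2 hΛ]⟩
  have dI : ∀ y : ℝ, diag Λ (y * I) = (Λ * y : ℝ) * I := fun y => by
    simpa using diag_pt Λ 0 y
  rcases c0.eq_or_lt with rfl | c0
  · have h1 := H 0 t le_rfl hw.le ht.1 ht.2
    simp only [add_zero, zero_div, ofReal_zero, zero_add, dI] at h1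
    exact Or.inl ⟨_, congrArg Prod.fst (A.frame_unique (b := (τ i.pr, Λ * (e + t / Λ)))
      (b' := (i.pr, t)) (mul_ne_zero hΛ.ne' (A.S7_wd i hy).1.2.1) (A.S7_wd i ht).1.2.1 h1)⟩
  rcases c1.eq_or_lt with c1 | c1
  · have h1 := H _ t hw.le le_rfl ht.1 ht.2
    rw [c1, mul_div_cancel_left₀ _ hΛ.ne'] at h1
    obtain ⟨d, hd, -⟩ := A.lin.T_on i
    have h2 := (A.T_spec (A.S7_wd i ht).1).2
    have h3 := (A.T_spec (A.S7_wd i hy).1).2
    rw [(hd _ ht).1, (A.S7_wd i ht).2] at h2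
    rw [(hd _ hy).1, (A.S7_wd i hy).2] at h3
    have h4 := ((hsame h3.2).trans h1).trans (h2.2.symm (Or.inr rfl))
    rw [dI, mul_one, neg_mul_neg, one_mul] at h4
    exact Or.inl ⟨_, congrArg Prod.fst (A.frame_unique
      (b := (τ (A.lin.TI i).pr, Λ * (d - (e + t / Λ)))) (b' := ((A.lin.TI i).pr, d - t))
      (mul_ne_zero hΛ.ne' h3.1) h2.1 h4)⟩
  have h1 : 0 < Λ - 1 := sub_pos.2 hL
  obtain ⟨x, hx⟩ : ∃ x, x * (Λ - 1) = c := ⟨c / (Λ - 1), div_mul_cancel₀ _ h1.ne'⟩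
  obtain ⟨y, hy0⟩ : ∃ y, y * (Λ - 1) = e * Λ := ⟨e * Λ / (Λ - 1), div_mul_cancel₀ _ h1.ne'⟩
  have x0 : 0 < x := by (refine lt_of_not_ge fun h_nl => ?_; linarith only [h_nl, c0, hx, hL, mul_nonneg_of_nonpos_of_nonpos (le_of_lt (Mathlib.Tactic.Linarith.sub_neg_of_lt hL)) (Mathlib.Tactic.Linarith.sub_nonpos_of_le h_nl)])
  have x1 : x < E.wd i.mid := by (refine lt_of_not_ge fun h_nl => ?_; linarith only [h_nl, c1, hx, hL, mul_nonneg_of_nonpos_of_nonpos (le_of_lt (Mathlib.Tactic.Linarith.sub_neg_of_lt hL)) (Mathlib.Tactic.Linarith.sub_nonpos_of_le h_nl)])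
  have a1 : ∀ u : ℝ, Λ * (e + u / Λ) = e * Λ + u := fun u => by field_simp
  have y0 : i.lo ≤ y := by (refine le_of_not_gt fun h_nl => ?_; linarith only [h_nl, hy0, e1, hΛ, a1, hL, mul_le_mul_of_nonneg_left e1 hΛ.le, a1 i.lo, mul_pos_of_neg_of_neg (Mathlib.Tactic.Linarith.sub_neg_of_lt hL) (Mathlib.Tactic.Linarith.sub_neg_of_lt h_nl)])
  have y1 : y ≤ i.hi := by (refine le_of_not_gt fun h_nl => ?_; linarith only [h_nl, hy0, e2, hΛ, a1, hL, mul_le_mul_of_nonneg_left e2 hΛ.le, a1 i.hi, mul_pos_of_neg_of_neg (Mathlib.Tactic.Linarith.sub_neg_of_lt hL) (Mathlib.Tactic.Linarith.sub_neg_of_lt h_nl)])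
  have h2 := H x t x0.le x1.le ht.1 ht.2
  rw [show (c + x) / Λ = x by rw [div_eq_iff hΛ.ne']; linarith only [hx]] at h2
  have hu : ∀ u ∈ Set.uIcc 0 (y - t), i.lo ≤ t + u ∧ t + u ≤ i.hi := fun u hu => by
    rcases Set.mem_uIcc.1 hu with h | h <;> constructor <;> linarith only [h, ht, y1, y0, h.1, h.2, ht.1, ht.2]
  have a2 : ∀ u : ℝ, diag Λ (x + (e + t / Λ : ℝ) * I) + u * I =
      diag Λ (x + (e + (t + u) / Λ : ℝ) * I) := fun u => by
    rw [diag_pt, diag_pt, a1, a1]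
    push_cast
    ring
  have h3 := A.prop_v (Or.inl rfl) h2 (y - t) (fun u h => by
    rw [a2]
    exact hdom _ (A.S7_dom i x0 x1
      (by linarith only [e1, hu, h, hΛ, div_le_div_of_nonneg_right (hu u h).1 hΛ.le])
      (by linarith only [e2, hu, h, hΛ, div_le_div_of_nonneg_right (hu u h).2 hΛ.le]))) fun u h => by
    convert A.S7_dom i x0 x1 (hu u h).1 (hu u h).2 using 1
    push_cast
    ring
  rw [a2, show e + (t + (y - t)) / Λ = y by field_simp; linarith only [hy0]] at h3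
  exact Or.inr ⟨i.pr, x + y * I, D3_congr h3 rfl (by push_cast; ring)⟩

theorem Ax.short [Fintype X] [DecidableEq X] (A : E.Ax) (g : ℕ) (hg : 2 ≤ g)
    (hcard : Fintype.card Pr + 4 = 4 * g + 2 * Fintype.card X) :
    ∃ n, 1 ≤ n ∧ n ≤ 64 * g ∧
      ((∃ q, (E.σ ^ n) q = q) ∨ ∃ q z, E.Same 1 ((E.σ ^ n) q) (diag (E.lam ^ n) z) q z) := by
  obtain ⟨k, h1, h2, i, h3⟩ := A.lin.fin.loop g hg hcard
  exact ⟨k, h1, h2, (A.cross_pow h1 h3).fix A h1⟩

end DevData
end Pool.Agent.Work.MP_563a32_gt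
end

-- merged part: Pool.Agent.Work.MP_563a32_gt.S8
section
/-! Marking a regular periodic orbit gives a prong of short period.

Plan. `exists_mark`: new singular set `sing ∪ O`, punctures `punct ∪ O`, charts restricted to the
open set `Oᶜ` (`OpenPartialHomeomorph.restrOpen`), two prongs at the points of `O`, and there the
cone chart `z ↦ chart i z - chart i x` for a chart `i` at `x` (`transHomeomorph` with
`Homeomorph.subRight`); `cone_eq` at `x ∈ O` comes from `trans`. `iter_G`: induction with `F_G`,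
`F_dom`. `fix_prong`: let `q = ⟨x, 0⟩`; `(σ ^ k) q` has the same base (`isIm_σ`, or `base_σ` of
`dev_ax`). For small real `s > 0`, `G q s = κ q s = (cone x).symm s` (`mem_slit`; `prongs x = 2`),
`iter_G` gives `f^[k] (G q s) = G ((σ ^ k) q) (s / lam ^ k)`, the hypothesis gives
`G q (s / lam ^ k)`, and `inj_re` ends the proof. `exists_periodic`: `short` for `dev_ax` (see
`lower` in AMain); in the second case let `x = G q z`; `iter_G` and `Same` give
`f^[k] (G q (z + a)) = G q (z + diag (lam ^ k) a)` for `a` near `0`; take for `O` the image of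
`range k` under `i ↦ f^[i] x`; compare `G q (z + ·)` with the new cone chart by `G_imm` and
`Imm.germ`. -/

namespace Pool.Agent.Work.MP_563a32_gt
open Filter Topology Complex

namespace PA
variable {S : Type} [TopologicalSpace S] [T2Space S]

theorem exists_mark (P : PA S) (O : Finset S) (hO : ∀ y ∈ O, y ∉ P.sing)
    (hf : ∀ y, P.f y ∈ O ↔ y ∈ O) : ∃ P' : PA S, P'.f = P.f ∧ P'.lam = P.lam ∧
      (∀ g, P.HasGenus g → P'.HasGenus g) ∧ P'.punct.card ≤ P.punct.card + O.card ∧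
      ∀ x ∈ O, x ∈ P'.sing ∧ P'.prongs x = 2 ∧ P.Imm (P'.cone x).symm 0 := by
  classical
  have hopen : IsOpen ((O : Set S)ᶜ) := O.finite_toSet.isClosed.isOpen_compl
  have hcn : ∀ x : S, ∃ e : OpenPartialHomeomorph S ℂ, (x ∉ O → e = P.cone x) ∧
      (x ∈ O → ∃ i, x ∈ (P.chart i).source ∧
        e = (P.chart i).transHomeomorph (Homeomorph.subRight (P.chart i x))) := by
    intro x
    by_cases hx : x ∈ O
    · obtain ⟨i, hi⟩ := P.cover x (hO x hx)
      exact ⟨_, fun h => absurd hx h, fun _ => ⟨i, hi, rfl⟩⟩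
    · exact ⟨_, fun _ => rfl, fun h => absurd h hx⟩
  choose cn hn hy using hcn
  have hs : ∀ x ∈ P.sing ∪ O, x ∉ O → x ∈ P.sing := fun x hx h =>
    (Finset.mem_union.1 hx).resolve_right h
  refine ⟨{
    sing := P.sing ∪ O
    punct := P.punct ∪ O
    punct_sub := Finset.union_subset_union P.punct_sub subset_rfl
    ι := P.ι
    chart := fun i => (P.chart i).restrOpen (O : Set S)ᶜ hopen
    cover := fun y h => by
      rw [Finset.mem_union, not_or] at h
      obtain ⟨i, hi⟩ := P.cover y h.1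
      exact ⟨i, hi, h.2⟩
    reg := fun i y h => by
      rw [Finset.mem_union, not_or]
      exact ⟨P.reg i y h.1, h.2⟩
    trans := fun i j y h h' => P.trans i j y h.1 h'.1
    prongs := fun x => if x ∈ O then 2 else P.prongs x
    cone := cn
    cone_mem := fun x hx => by
      by_cases h : x ∈ O
      · obtain ⟨i, hi, e⟩ := hy x h
        rw [e]
        exact hi
      · rw [hn x h]
        exact P.cone_mem x (hs x hx h)
    cone_zero := fun x hx => by
      by_cases h : x ∈ O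
      · obtain ⟨i, hi, e⟩ := hy x h
        rw [e]
        exact sub_self _
      · rw [hn x h]
        exact P.cone_zero x (hs x hx h)
    prongs_pos := fun x hx => by
      by_cases h : x ∈ O
      · simp [h]
      · simpa [h] using P.prongs_pos x (hs x hx h)
    prongs_three := fun x hx hp => by
      rw [Finset.mem_union, not_or] at hp
      simpa [hp.2] using P.prongs_three x (hs x hx hp.2) hp.1
    cone_eq := fun x hx i y h1 h2 => by
      by_cases h : x ∈ O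
      · obtain ⟨i0, hi, e⟩ := hy x h
        rw [e] at h1 ⊢
        obtain ⟨ε, c, hε, ht⟩ := P.trans i0 i y h1 h2.1
        refine ⟨c + ε * P.chart i0 x, ht.mono fun z hz => ?_⟩
        have h3 := A1_sq hε
        rw [if_pos h]
        show (P.chart i z - _) ^ 2 = (P.chart i0 z - P.chart i0 x) ^ 2
        rw [hz]
        linear_combination (P.chart i0 z - P.chart i0 x) ^ 2 * h3
      · rw [hn x h] at h1 ⊢
        rw [if_neg h]
        exact P.cone_eq x (hs x hx h) i y h1 h2.1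
    f := P.f
    lam := P.lam
    one_lt := P.one_lt
    f_sing := fun y => by rw [Finset.mem_union, Finset.mem_union, P.f_sing, hf]
    f_punct := fun y => by rw [Finset.mem_union, Finset.mem_union, P.f_punct, hf]
    affine := fun i j y h h' => P.affine i j y h.1 h'.1 }, rfl, rfl, ?_, ?_, ?_⟩
  · intro g hg
    unfold HasGenus at hg ⊢
    have hd : Disjoint P.sing O := Finset.disjoint_right.2 fun y h => hO y h
    rw [← hg]
    show ∑ x ∈ P.sing ∪ O, (((if x ∈ O then 2 else P.prongs x : ℕ) : ℤ) - 2) = _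
    rw [Finset.sum_union hd, Finset.sum_eq_zero (s := O) (fun y h => by simp [h]), add_zero]
    refine Finset.sum_congr rfl fun y h => ?_
    rw [if_neg (fun h' => hO y h' h)]
  · exact Finset.card_union_le _ _
  · intro x hx
    refine ⟨Finset.mem_union_right _ hx, if_pos hx, ?_⟩
    obtain ⟨i, hi, e⟩ := hy x hx
    show P.Imm (cn x).symm 0
    rw [e]
    refine ⟨i, 1, P.chart i x, Or.inl rfl, ?_⟩
    have ht : Tendsto (fun z : ℂ => z + P.chart i x) (𝓝 0) (𝓝 (P.chart i x)) := by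
      have : Continuous fun z : ℂ => z + P.chart i x := by fun_prop
      simpa using this.tendsto 0
    filter_upwards [ht.eventually ((P.chart i).open_target.mem_nhds ((P.chart i).map_source hi))]
      with z hz
    show (P.chart i).symm (z + P.chart i x) ∈ _ ∧
      P.chart i ((P.chart i).symm (z + P.chart i x)) = _
    exact ⟨(P.chart i).map_target hz, by rw [(P.chart i).right_inv hz, one_mul]⟩

variable [CompactSpace S] {P : PA S}

theorem S8_diag (a b : ℝ) (z : ℂ) : diag a (diag b z) = diag (a * b) z := by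
  apply Complex.ext
  · simp only [diag]
    rw [div_div, mul_comm]
  · simp only [diag]
    ring

theorem S8_iter (k : ℕ) (q : P.Pr) {z : ℂ} (hz : z ∈ P.Dom q) :
    diag (P.lam ^ k) z ∈ P.Dom ((P.σ ^ k) q) ∧
      P.f^[k] (P.G q z) = P.G ((P.σ ^ k) q) (diag (P.lam ^ k) z) := by
  induction k with
  | zero =>
    have e : diag (P.lam ^ 0) z = z := by apply Complex.ext <;> simp [diag]
    rw [e]
    exact ⟨hz, rfl⟩
  | succ k ih =>
    rw [pow_succ' P.lam, ← S8_diag, pow_succ' P.σ, Equiv.Perm.mul_apply,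
      Function.iterate_succ_apply', ih.2]
    exact ⟨(F_dom _ _).2 ih.1, F_G _ ih.1⟩
theorem iter_G (k : ℕ) (q : P.Pr) {z : ℂ} (hz : z ∈ P.Dom q) :
    P.f^[k] (P.G q z) = P.G ((P.σ ^ k) q) (diag (P.lam ^ k) z) := by
  exact (S8_iter k q hz).2

theorem fix_prong {x : S} (hx : x ∈ P.sing) (h2 : P.prongs x = 2) {k : ℕ}
    (h : ∀ᶠ a in 𝓝 (0 : ℂ),
      P.f^[k] ((P.cone x).symm a) = (P.cone x).symm (diag (P.lam ^ k) a)) :
    ∃ q : P.Pr, (P.σ ^ k) q = q := by
  let q : P.Pr := ⟨⟨x, hx⟩, ⟨0, P.prongs_pos x hx⟩⟩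
  have hq : ∀ s : ℝ, 0 < s → s < P.rad → P.G q s = (P.cone x).symm s := by
    intro s hs hr
    have h1 : (s : ℂ) ∈ slitPlane := by left; simpa using hs
    rw [(mem_slit q h1 (by simpa [abs_of_pos hs] using hr)).2]
    show (P.cone x).symm (exp (-(2 * Real.pi * I * ((0 : ℕ) : ℂ) / (P.prongs x : ℂ))) *
      exp (2 / (P.prongs x : ℂ) * log s)) = _
    rw [h2]
    simp [exp_log (slitPlane_ne_zero h1)]
  have ht : Tendsto (fun s : ℝ => (s : ℂ)) (𝓝[>] 0) (𝓝 0) := by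
    simpa using (continuous_ofReal.tendsto 0).mono_left nhdsWithin_le_nhds
  obtain ⟨s, h3, hs, hr⟩ := ((ht.eventually h).and (Ioo_mem_nhdsGT (goodR P).1)).exists
  have hl : 1 ≤ P.lam ^ k := one_le_pow₀ P.one_lt.le
  have hs' : 0 < s / P.lam ^ k := div_pos hs (by linarith only [hl])
  have hr' : s / P.lam ^ k < P.rad := (div_le_self hs.le hl).trans_lt hr
  rw [← hq s hs hr, iter_G k q (mem_re q s hs), A5_re, ← hq _ hs' hr'] at h3
  exact ⟨q, (inj_re _ _ _ _ hs' hs' h3).1⟩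

omit [T2Space S] [CompactSpace S] in
theorem S8_orbit (P : PA S) {x : S} (hx : x ∉ P.sing) {n : ℕ} (hn : 1 ≤ n)
    (hper : P.f^[n] x = x) : ∃ O : Finset S, x ∈ O ∧ (∀ y ∈ O, y ∉ P.sing) ∧
      (∀ y, P.f y ∈ O ↔ y ∈ O) ∧ O.card ≤ n := by
  classical
  have hi : ∀ i : ℕ, P.f^[i] x ∉ P.sing := by
    intro i
    induction i with
    | zero => exact hx
    | succ i ih => rwa [Function.iterate_succ_apply', P.f_sing]
  refine ⟨(Finset.range n).image fun i => P.f^[i] x, ?_, ?_, ?_, ?_⟩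
  · exact Finset.mem_image.2 ⟨0, Finset.mem_range.2 hn, rfl⟩
  · intro y hy
    obtain ⟨i, -, rfl⟩ := Finset.mem_image.1 hy
    exact hi i
  · intro y
    simp only [Finset.mem_image, Finset.mem_range]
    constructor
    · rintro ⟨i, h1, h2⟩
      rcases i with _ | i
      · obtain ⟨m, rfl⟩ : ∃ m, n = m + 1 := ⟨n - 1, by omega⟩
        refine ⟨m, by omega, P.f.injective ?_⟩
        rw [← h2, ← Function.iterate_succ_apply' P.f]
        exact hper
      · refine ⟨i, by omega, P.f.injective ?_⟩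
        rw [← h2, Function.iterate_succ_apply']
    · rintro ⟨i, h1, rfl⟩
      rw [← Function.iterate_succ_apply' P.f]
      by_cases h : i + 1 < n
      · exact ⟨i + 1, h, rfl⟩
      · have e : i + 1 = n := by omega
        refine ⟨0, hn, ?_⟩
        rw [Nat.succ_eq_add_one, e, hper]
        rfl
  · exact Finset.card_image_le.trans (by simp)
theorem exists_periodic [ConnectedSpace S] (P : PA S) {g : ℕ} (hg : 2 ≤ g) (hgen : P.HasGenus g) :
    ∃ (P' : PA S) (k : ℕ) (q : P'.Pr), P'.lam = P.lam ∧ P'.HasGenus g ∧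
      P'.punct.card ≤ P.punct.card + 64 * g ∧ 1 ≤ k ∧ k ≤ 64 * g ∧ (P'.σ ^ k) q = q := by
  classical
  obtain ⟨h1, -⟩ := card_le hgen
  have hne : P.sing.Nonempty := by
    by_contra h
    rw [Finset.not_nonempty_iff_eq_empty] at h
    rw [h] at h1; simp at h1; omega
  obtain ⟨n, hn1, hn2, h | ⟨q, z, h⟩⟩ :=
    (dev_ax hne).short g hg (by rw [card_Pr]; simpa using h1)
  · obtain ⟨q, hq⟩ := h
    exact ⟨P, n, q, rfl, hgen, by omega, hn1, hn2, hq⟩
  have hz : z ∈ P.Dom q := h.2.1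
  have h3 : ∀ᶠ a in 𝓝 (0 : ℂ),
      P.G ((P.σ ^ n) q) (diag (P.lam ^ n) z + a) = P.G q (z + 1 * a) := h.2.2
  have ht : Tendsto (fun a : ℂ => z + a) (𝓝 0) (𝓝 z) := by
    have : Continuous fun a : ℂ => z + a := by fun_prop
    simpa using this.tendsto 0
  have key : ∀ᶠ a in 𝓝 (0 : ℂ),
      P.f^[n] (P.G q (z + a)) = P.G q (z + diag (P.lam ^ n) a) := by
    filter_upwards [ht.eventually ((isOpen_dom q).mem_nhds hz),
      (DevData.D1_diag_tend (P.lam ^ n)).eventually h3] with a h4 h5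
    rw [iter_G n q h4, DevData.D1_diag_add, h5, one_mul]
  have hper : P.f^[n] (P.G q z) = P.G q z := by
    have h4 := key.self_of_nhds
    have h0 : diag (P.lam ^ n) 0 = 0 := by apply Complex.ext <;> simp [diag]
    simpa [h0] using h4
  obtain ⟨O, hxO, hO, hf, hc⟩ := S8_orbit P (G_imm hz).not_sing hn1 hper
  obtain ⟨P', e1, e2, e3, e4, e5⟩ := P.exists_mark O hO hf
  obtain ⟨hx', hp, him⟩ := e5 _ hxO
  obtain ⟨ε, hε, hg'⟩ := him.germ (G_imm hz) (A2_symm_zero hx')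
  have hte : Tendsto (fun a : ℂ => ε * a) (𝓝 0) (𝓝 0) := by
    have : Continuous fun a : ℂ => ε * a := by fun_prop
    simpa using this.tendsto 0
  obtain ⟨q', hq'⟩ := fix_prong (P := P') (k := n) hx' hp (by
    rw [e1, e2]
    filter_upwards [hg', hte.eventually key, (DevData.D1_diag_tend (P.lam ^ n)).eventually hg']
      with a h4 h5 h6
    rw [zero_add] at h4 h6
    rw [h4, h5, h6, DevData.D1_diag_mul _ hε])
  exact ⟨P', n, q', e2, e3 g hgen, by omega, hn1, hn2, hq'⟩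

end PA
end Pool.Agent.Work.MP_563a32_gt
end

-- merged part: Pool.Agent.Work.MP_563a32_gt.S9
section
/-! The analytic form of the two bounds.

Plan. `low`: put `T = n / g ≥ R`, `y = n x`. If `log T ≤ y` there is nothing to prove. Otherwise
`64 g x < 64 log T / T ≤ 1` for `R` large, so `exp (64 g x) - 1 ≤ 128 log T / T`
(`Real.abs_exp_sub_one_le`) and `exp (132 g x) ≤ exp 3`; hence `T ≤ 512 exp 3 log T exp y`, and
`512 exp 3 log T ≤ T ^ ε` for `T` large (`isLittleO_log_rpow_atTop`). `high`: with `y = n x`,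
`κ x ≤ exp (κ x) - 1` gives `(exp y - 1) y < 2 T`; if `2 ≤ y` then `exp y < 1 + T`; otherwise
`y < 2 ≤ log 8 ≤ log (1 + T)`. `high'`: `1 + T ≤ T ^ (1 + ε)` for `T` large. `limit`: squeeze
(`Metric.tendsto_atTop` or `tendsto_order`), with `log (n / g) / log n → 1`; `le_csInf`,
`csInf_le`. -/

namespace Pool.Agent.Work.MP_563a32_gt
open Filter Topology

theorem low {ε : ℝ} (hε : 0 < ε) : ∃ R : ℝ, ∀ g n x : ℝ, 1 ≤ g → R * g ≤ n → 0 < x →
    1 ≤ 4 * (Real.exp (64 * g * x) - 1) * Real.exp ((n + 132 * g) * x) →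
    (1 - ε) * (Real.log (n / g) / n) ≤ x := by
  have hc : 0 < 512 * Real.exp 3 := by positivity
  obtain ⟨R, hR⟩ := eventually_atTop.1 ((eventually_ge_atTop (1 : ℝ)).and
    ((Real.isLittleO_log_id_atTop.bound (by norm_num : (0 : ℝ) < 1 / 64)).and
      ((isLittleO_log_rpow_atTop hε).bound (inv_pos.2 hc))))
  refine ⟨R, fun g n x hg hn hx h => ?_⟩
  have g0 : 0 < g := by linarith
  obtain ⟨T, hT⟩ : ∃ T, T = n / g := ⟨_, rfl⟩
  obtain ⟨t1, t2, t3⟩ := hR T (hT ▸ (le_div_iff₀ g0).2 hn)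
  have e : n = T * g := by rw [hT, div_mul_cancel₀ _ g0.ne']
  have t0 : 0 < T := by linarith only [t1]
  have n0 : 0 < n := by rw [e]; positivity
  have l0 := Real.log_nonneg t1
  rw [id, Real.norm_of_nonneg l0, Real.norm_of_nonneg t0.le] at t2
  rw [Real.norm_of_nonneg l0, Real.norm_of_nonneg (Real.rpow_nonneg t0.le _),
    le_inv_mul_iff₀ hc] at t3
  rw [← hT, ← mul_div_assoc, div_le_iff₀ n0]
  rcases le_or_gt (Real.log T) (x * n) with hy | hy
  · linarith only [hy, hε, l0, mul_nonneg_of_nonpos_of_nonpos (le_of_lt (Mathlib.Tactic.Linarith.sub_neg_of_lt hε)) (Mathlib.Tactic.Linarith.sub_nonpos_of_le l0)]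
  have a1 : g * x * T ≤ Real.log T := by
    rw [e] at hy
    linarith only [hy]
  have a2 : g * x ≤ 1 / 64 := le_of_mul_le_mul_right (a1.trans t2) t0
  have a0 : 0 < g * x := mul_pos g0 hx
  have a3 : Real.exp (64 * g * x) - 1 ≤ 128 * (g * x) := by
    have := Real.abs_exp_sub_one_le (x := 64 * g * x) (by rw [abs_of_pos] <;> linarith only [a2, a0])
    rw [abs_of_pos (a := 64 * g * x) (by linarith only [a0])] at this
    linarith only [this, le_abs_self (Real.exp (64 * g * x) - 1)]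
  have a4 : Real.exp ((n + 132 * g) * x) ≤ Real.exp 3 * Real.exp (x * n) := by
    rw [← Real.exp_add]
    exact Real.exp_le_exp.2 (by linarith only [a2, a0])
  have a5 : 1 ≤ 4 * (128 * (g * x)) * (Real.exp 3 * Real.exp (x * n)) :=
    h.trans (mul_le_mul (by linarith only [a3]) a4 (Real.exp_pos _).le (by positivity))
  have a6 : T ≤ T ^ ε * Real.exp (x * n) := by
    have b1 := mul_le_mul_of_nonneg_left a5 t0.le
    have b2 := mul_le_mul_of_nonneg_right ((mul_le_mul_of_nonneg_left a1 hc.le).trans t3)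
      (Real.exp_pos (x * n)).le
    linarith only [b1, b2]
  have a7 := Real.log_le_log t0 a6
  rw [Real.log_mul (Real.rpow_pos_of_pos t0 _).ne' (Real.exp_pos _).ne', Real.log_rpow t0,
    Real.log_exp] at a7
  linarith only [a7]

theorem high {κ n x : ℝ} (hκ : 0 < κ) (hn : 7 * κ ≤ n) (hx : 0 < x)
    (h : (Real.exp (n * x) - 1) * (Real.exp (κ * x) - 1) < 2) :
    x ≤ Real.log (1 + n / κ) / n := by
  have n0 : 0 < n := by linarith
  have t7 : 7 ≤ n / κ := (le_div_iff₀ hκ).2 hn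
  rw [le_div_iff₀ n0, Real.le_log_iff_exp_le (by linarith only [t7]), mul_comm]
  rcases le_total (n * x) 2 with hy | hy
  · have a1 := Real.exp_le_exp.2 hy
    rw [show (2 : ℝ) = 1 + 1 by norm_num, Real.exp_add] at a1
    linarith only [t7, hy, a1, hκ, hx, hn, Real.exp_one_lt_d9, Real.exp_pos 1, mul_pos_of_neg_of_neg (Mathlib.Tactic.Linarith.sub_neg_of_lt hκ) (Mathlib.Tactic.Linarith.sub_neg_of_lt hx), mul_nonneg_of_nonpos_of_nonpos (Mathlib.Tactic.Linarith.sub_nonpos_of_le hn) (le_of_lt (Mathlib.Tactic.Linarith.sub_neg_of_lt hx)), mul_pos_of_neg_of_neg (Mathlib.Tactic.Linarith.sub_neg_of_lt Real.exp_one_lt_d9) (Mathlib.Tactic.Linarith.sub_neg_of_lt (Real.exp_pos (1 : ℝ)))]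
  · have a1 : 0 ≤ Real.exp (n * x) - 1 := by linarith [Real.add_one_le_exp (n * x)]
    have a2 : (Real.exp (n * x) - 1) * (κ * x) < 2 :=
      (mul_le_mul_of_nonneg_left (by linarith [Real.add_one_le_exp (κ * x)]) a1).trans_lt h
    rw [← sub_le_iff_le_add', le_div_iff₀ hκ]
    linarith only [hy, a1, hκ, a2, n0, mul_le_mul_of_nonneg_left hy (mul_nonneg a1 hκ.le), mul_lt_mul_of_pos_left a2 n0]

theorem high' {ε : ℝ} (hε : 0 < ε) : ∃ R : ℝ, ∀ T, R ≤ T →
    Real.log (1 + T) ≤ (1 + ε) * Real.log T := by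
  refine ⟨Real.exp (Real.log 2 / ε), fun T hT => ?_⟩
  have l2 : 0 < Real.log 2 := Real.log_pos one_lt_two
  have t1 : 1 ≤ T := (Real.one_le_exp (by positivity)).trans hT
  have a1 := (Real.le_log_iff_exp_le (by linarith)).2 hT
  rw [div_le_iff₀ hε] at a1
  have a2 := Real.log_le_log (by linarith : 0 < 1 + T) (by linarith : 1 + T ≤ 2 * T)
  rw [Real.log_mul two_ne_zero (by linarith)] at a2
  linarith

theorem limit (Sp : ℕ → Set ℝ) {g : ℝ} (hg : 1 ≤ g)
    (h : ∀ ε : ℝ, 0 < ε → ∃ R : ℝ, ∀ n : ℕ, R ≤ n →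
      (∀ l ∈ Sp n, (1 - ε) * (Real.log (n / g) / n) ≤ l) ∧
        ∃ l ∈ Sp n, l ≤ (1 + ε) * (Real.log n / n)) :
    Tendsto (fun n : ℕ => n * sInf (Sp n) / Real.log n) atTop (𝓝 1) := by
  have key : ∀ ε : ℝ, 0 < ε → ∀ᶠ n : ℕ in atTop,
      (1 - ε) * (1 - Real.log g / Real.log n) ≤ n * sInf (Sp n) / Real.log n ∧
        n * sInf (Sp n) / Real.log n ≤ 1 + ε := by
    intro ε hε
    obtain ⟨R, hR⟩ := h ε hε
    filter_upwards [tendsto_natCast_atTop_atTop.eventually_ge_atTop R,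
      tendsto_natCast_atTop_atTop.eventually_gt_atTop (1 : ℝ)] with n h1 h2
    obtain ⟨a1, l, a2, a3⟩ := hR n h1
    have n0 : (0 : ℝ) < n := by linarith only [h2]
    have l0 := Real.log_pos h2
    have b1 := le_csInf ⟨l, a2⟩ a1
    have b2 := (csInf_le ⟨_, a1⟩ a2).trans a3
    rw [← mul_div_assoc, div_le_iff₀ n0, Real.log_div n0.ne' (by linarith only [hg])] at b1
    rw [← mul_div_assoc, le_div_iff₀ n0] at b2
    rw [le_div_iff₀ l0, div_le_iff₀ l0, mul_assoc, sub_mul 1 (_ / _), div_mul_cancel₀ _ l0.ne',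
      one_mul]
    constructor <;> linarith only [b1, b2]
  have lim : Tendsto (fun n : ℕ => 1 - Real.log g / Real.log n) atTop (𝓝 (1 - 0)) :=
    tendsto_const_nhds.sub (tendsto_const_nhds.div_atTop
      (Real.tendsto_log_atTop.comp tendsto_natCast_atTop_atTop))
  refine tendsto_order.2 ⟨fun a ha => ?_, fun b hb => ?_⟩
  · filter_upwards [key ((1 - a) / 2) (by linarith),
      (lim.const_mul (1 - (1 - a) / 2)).eventually_const_lt (u := a) (by linarith only [ha])] with n h1 h2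
    exact h2.trans_le h1.1
  · filter_upwards [key ((b - 1) / 2) (by linarith)] with n h1
    linarith only [hb, h1, h1.2]

end Pool.Agent.Work.MP_563a32_gt
end

-- merged part: Pool.Agent.Work.MP_563a32_gt.SMain
section
/-! The sharp bounds. -/

namespace Pool.Agent.Work.MP_563a32_gt
open Filter Topology

theorem PA.card_lt {S : Type} [TopologicalSpace S] {P : PA S} {g : ℕ} (hg : P.HasGenus g) :
    Fintype.card P.Pr < 2 * (P.punct.card + 4 * g) + Fintype.card P.sing := by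
  classical
  have h1 := (PA.card_le hg).1
  unfold PA.HasGenus at hg
  have h2 : ∑ x ∈ P.sing, (1 - 2 * (if x ∈ P.punct then 1 else 0) : ℤ) ≤
      ∑ x ∈ P.sing, ((P.prongs x : ℤ) - 2) := by
    apply Finset.sum_le_sum
    intro x hx
    split_ifs with h
    · have := P.prongs_pos x hx; omega
    · have := P.prongs_three x hx h; omega
  have h3 : ∑ x ∈ P.sing, (if x ∈ P.punct then 1 else 0 : ℤ) = P.punct.card := by
    rw [Finset.sum_ite_mem, Finset.inter_eq_right.mpr P.punct_sub]; simp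
  rw [Finset.sum_sub_distrib, ← Finset.mul_sum, h3, hg] at h2
  simp only [Finset.sum_const, nsmul_eq_mul, mul_one] at h2
  rw [PA.card_Pr, Fintype.card_coe]
  omega

theorem sharp_lower {g n : ℕ} (hg : 2 ≤ g) {l : ℝ} (hl : l ∈ Spectrum g n) :
    0 < l ∧ 1 ≤ 4 * (Real.exp (64 * g * l) - 1) * Real.exp ((n + 132 * g) * l) := by
  classical
  obtain ⟨S, _, _, _, _, P, hgen, rfl, rfl⟩ := hl
  obtain ⟨P', k, q, h1, h2, h3, h4, h5, h6⟩ := P.exists_periodic hg hgen
  have hb := (PA.dev_ax (P := P') ⟨q.1, q.1.2⟩).core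
    (fun x => ⟨⟨x, ⟨0, P'.prongs_pos x x.2⟩⟩, rfl⟩) h4 h6
    (PA.card_lt h2)
  have hl := P.one_lt
  have e : ∀ m : ℕ, P.lam ^ m = Real.exp (m * Real.log P.lam) := fun m => by
    rw [Real.exp_nat_mul, Real.exp_log (by linarith only [hl])]
  refine ⟨Real.log_pos hl, hb.trans ?_⟩
  have e1 := e (64 * g)
  have e2 := e (P.punct.card + 132 * g)
  push_cast at e1 e2
  rw [← e1, ← e2]
  show 4 * (P'.lam ^ k * (P'.lam ^ k - 1)) * P'.lam ^ (P'.punct.card + 4 * g) ≤ _
  rw [h1]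
  have a1 : P.lam ^ k ≤ P.lam ^ (64 * g) := pow_le_pow_right₀ hl.le h5
  have a2 : P.lam ^ k * P.lam ^ (P'.punct.card + 4 * g) ≤ P.lam ^ (P.punct.card + 132 * g) := by
    rw [← pow_add]
    exact pow_le_pow_right₀ hl.le (by omega)
  have a3 : 1 ≤ P.lam ^ k := one_le_pow₀ hl.le
  calc _ = 4 * (P.lam ^ k - 1) * (P.lam ^ k * P.lam ^ (P'.punct.card + 4 * g)) := by ring
    _ ≤ _ := by gcongr; linarith only [a1, a3]

theorem sharp_upper {g n κ : ℕ} (hg : 2 ≤ g) (hd : κ ∣ g - 1) (hc : Nat.Coprime κ n)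
    (hn : 7 * κ ≤ n) : ∃ l ∈ Spectrum g n, l ≤ Real.log (1 + n / κ) / n := by
  obtain ⟨h, hh⟩ := hd
  obtain ⟨k, rfl⟩ : ∃ k, κ = k + 1 := ⟨κ - 1, by
    rcases κ with _ | κ
    · omega
    · rfl⟩
  obtain ⟨h, rfl⟩ : ∃ h', h = h' + 1 := ⟨h - 1, by
    rcases h with _ | h
    · omega
    · rfl⟩
  obtain ⟨r, rfl⟩ : ∃ r, n = r + 5 := ⟨n - 5, by omega⟩
  obtain rfl : g = (h + 1) * (k + 1) + 1 := by rw [mul_comm]; omega
  obtain ⟨l, h1, h2, h3⟩ := Fam.upper (h := h) hc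
  exact ⟨l, h1, high (by positivity) (by exact_mod_cast hn) h2 h3⟩

theorem sharp {ε : ℝ} (hε : 0 < ε) : ∃ R : ℝ, ∀ g n : ℕ, 2 ≤ g → R * g ≤ n →
    (∀ l ∈ Spectrum g n, (1 - ε) * (Real.log (n / g) / n) ≤ l) ∧
      ∀ κ : ℕ, κ ∣ g - 1 → Nat.Coprime κ n →
        ∃ l ∈ Spectrum g n, l ≤ (1 + ε) * (Real.log (n / κ) / n) := by
  obtain ⟨R1, h1⟩ := low hε
  obtain ⟨R2, h2⟩ := high' hε
  refine ⟨max R1 (max R2 7), fun g n hg hR => ⟨fun l hl => ?_, fun κ hd hc => ?_⟩⟩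
  · have g1 : (1 : ℝ) ≤ g := by exact_mod_cast (by omega : 1 ≤ g)
    obtain ⟨a, b⟩ := sharp_lower hg hl
    exact h1 g n l g1 (le_trans (by gcongr; exact le_max_left _ _) hR) a b
  · have k1 : 0 < κ := Nat.pos_of_dvd_of_pos hd (by omega)
    have k2 : κ ≤ g := (Nat.le_of_dvd (by omega) hd).trans (by omega)
    have k3 : (0 : ℝ) < κ := by exact_mod_cast k1
    have k4 : (κ : ℝ) ≤ g := by exact_mod_cast k2
    have k5 : (7 : ℝ) ≤ max R1 (max R2 7) := (le_max_right _ _).trans (le_max_right _ _)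
    have k6 : max R1 (max R2 7) * κ ≤ n := le_trans (by gcongr) hR
    have k7 : (7 : ℝ) * κ ≤ n := le_trans (by gcongr) k6
    obtain ⟨l, a, b⟩ := sharp_upper hg hd hc (by exact_mod_cast k7)
    refine ⟨l, a, b.trans ?_⟩
    rw [← mul_div_assoc]
    refine div_le_div_of_nonneg_right (h2 _ ?_) (Nat.cast_nonneg _)
    rw [le_div_iff₀ k3]
    exact le_trans (by gcongr; exact (le_max_left _ _).trans (le_max_right _ _)) k6

theorem sharp_limit {g : ℕ} (hg : 2 ≤ g) :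
    Tendsto (fun n : ℕ => n * sInf (Spectrum g n) / Real.log n) atTop (𝓝 1) := by
  refine limit (Spectrum g) (g := g) (by exact_mod_cast (by omega : 1 ≤ g)) fun ε hε => ?_
  obtain ⟨R, h⟩ := sharp hε
  refine ⟨R * g, fun n hn => ⟨(h g n hg hn).1, ?_⟩⟩
  simpa using (h g n hg hn).2 1 (one_dvd _) (Nat.coprime_one_left _)

end Pool.Agent.Work.MP_563a32_gt
end

-- merged part: Pool.Agent.Work.MP_563a32_gt.SA
section
/-! The two bounds with explicit constants. -/

namespace Pool.Agent.Work.MP_563a32_gt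

theorem SA_log {T : ℝ} (hT : 400 ≤ T) : 1 ≤ Real.log T ∧ 64 * Real.log T ≤ T := by
  have e1 := Real.exp_one_lt_d9
  have e2 := Real.exp_one_gt_d9
  constructor
  · rw [Real.le_log_iff_exp_le (by linarith only [hT])]
    linarith only [hT, e1]
  · have h1 : Real.log (T / 400) ≤ T / 400 - 1 := Real.log_le_sub_one_of_pos (by positivity)
    have h2 : Real.log 400 ≤ 6 := by
      rw [Real.log_le_iff_le_exp (by norm_num), show (6 : ℝ) = (6 : ℕ) * 1 by norm_num,
        Real.exp_nat_mul]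
      calc (400 : ℝ) ≤ 2.7182818283 ^ 6 := by norm_num
        _ ≤ _ := by gcongr
    rw [Real.log_div (by linarith only [hT]) (by norm_num)] at h1
    linarith only [hT, h1, h2]

theorem low_sharp {g n x : ℝ} (hg : 1 ≤ g) (hn : 400 * g ≤ n) (hx : 0 < x)
    (h : 1 ≤ 4 * (Real.exp (64 * g * x) - 1) * Real.exp ((n + 132 * g) * x)) :
    Real.log (n / g / Real.log (n / g)) - 10 ≤ n * x := by
  have g0 : 0 < g := by linarith
  obtain ⟨T, rfl⟩ : ∃ T, n = T * g := ⟨n / g, by field_simp⟩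
  have hT : 400 ≤ T := le_of_mul_le_mul_right hn g0
  rw [mul_div_cancel_right₀ _ g0.ne']
  obtain ⟨l1, l2⟩ := SA_log hT
  have T0 : 0 < T := by linarith
  rw [Real.log_div T0.ne' (by linarith)]
  have l3 : 0 ≤ Real.log (Real.log T) := Real.log_nonneg l1
  by_contra hc
  rw [not_le] at hc
  obtain ⟨y, hy⟩ : ∃ y, y = g * x := ⟨_, rfl⟩
  have y0 : 0 < y := hy ▸ mul_pos g0 hx
  rw [mul_assoc 64, add_mul, mul_assoc T, mul_assoc 132, ← hy, Real.exp_add] at h
  rw [mul_assoc, ← hy] at hc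
  have h1 : T * y ≤ Real.log T := by linarith
  have h2 : 64 * y ≤ 1 := by (refine le_of_not_gt fun h_nl => ?_; linarith only [h_nl, hg, l2, l3, hc, y0, hn, mul_nonneg_of_nonpos_of_nonpos (Mathlib.Tactic.Linarith.sub_nonpos_of_le hg) (Mathlib.Tactic.Linarith.sub_nonpos_of_le l2), mul_nonneg_of_nonpos_of_nonpos (Mathlib.Tactic.Linarith.sub_nonpos_of_le hg) (Mathlib.Tactic.Linarith.sub_nonpos_of_le l3), mul_nonneg_of_nonpos_of_nonpos (Mathlib.Tactic.Linarith.sub_nonpos_of_le hg) (le_of_lt (Mathlib.Tactic.Linarith.sub_neg_of_lt hc)), mul_nonneg_of_nonpos_of_nonpos (Mathlib.Tactic.Linarith.sub_nonpos_of_le hg) (le_of_lt (Mathlib.Tactic.Linarith.sub_neg_of_lt y0)), mul_nonneg_of_nonpos_of_nonpos (Mathlib.Tactic.Linarith.sub_nonpos_of_le hn) (le_of_lt (Mathlib.Tactic.Linarith.sub_neg_of_lt h_nl))])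
  have h3 := Real.abs_exp_sub_one_le (x := 64 * y) (by rw [abs_of_pos (by linarith)]; exact h2)
  rw [abs_of_pos (show 0 < 64 * y by linarith)] at h3
  have h4 : Real.exp (64 * y) - 1 ≤ 128 * y := by linarith [le_abs_self (Real.exp (64 * y) - 1)]
  have h5 : Real.exp (132 * y) ≤ Real.exp 3 := Real.exp_le_exp.2 (by linarith)
  have h6 : Real.exp (T * y) < T / Real.log T / Real.exp 10 := by
    rw [← Real.exp_log (show 0 < T / Real.log T by positivity), ← Real.exp_sub,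
      Real.log_div T0.ne' (by linarith)]
    exact Real.exp_lt_exp.2 hc
  have h7 : 512 * Real.exp 3 ≤ Real.exp 10 := by
    rw [show (10 : ℝ) = (7 : ℕ) * 1 + 3 by norm_num, Real.exp_add, Real.exp_nat_mul]
    gcongr
    calc (512 : ℝ) ≤ 2.7182818283 ^ 7 := by norm_num
      _ ≤ _ := by gcongr; exact Real.exp_one_gt_d9.le
  have h8 : 4 * (Real.exp (64 * y) - 1) * (Real.exp (T * y) * Real.exp (132 * y)) ≤
      4 * (128 * y) * (Real.exp (T * y) * Real.exp 3) := by gcongr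
  have h9 : 4 * (128 * y) * (Real.exp (T * y) * Real.exp 3) <
      4 * (128 * y) * (T / Real.log T / Real.exp 10 * Real.exp 3) := by gcongr
  have h10 : 4 * (128 * y) * (T / Real.log T / Real.exp 10 * Real.exp 3) =
      (T * y / Real.log T) * (512 * Real.exp 3 / Real.exp 10) := by ring
  have h11 : T * y / Real.log T ≤ 1 := (div_le_one (by linarith only [l1, y0, h2])).2 h1
  have h12 : 512 * Real.exp 3 / Real.exp 10 ≤ 1 := (div_le_one (Real.exp_pos _)).2 h7
  have h13 := mul_le_one₀ h11 (by positivity) h12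
  linarith only [h, h8, h9, h10, h13]

theorem high_sharp {κ n x : ℝ} (hκ : 0 < κ) (hn : 400 * κ ≤ n) (hx : 0 < x)
    (h : (Real.exp (n * x) - 1) * (Real.exp (κ * x) - 1) < 2) :
    n * x ≤ Real.log (n / κ / Real.log (n / κ)) + 2 := by
  obtain ⟨T, rfl⟩ : ∃ T, n = T * κ := ⟨n / κ, by field_simp⟩
  have hT : 400 ≤ T := le_of_mul_le_mul_right hn hκ
  rw [mul_div_cancel_right₀ _ hκ.ne']
  obtain ⟨l1, l2⟩ := SA_log hT
  have T0 : 0 < T := by linarith
  obtain ⟨y, hy⟩ : ∃ y, y = κ * x := ⟨_, rfl⟩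
  have y0 : 0 < y := hy ▸ mul_pos hκ hx
  rw [mul_assoc, ← hy] at h ⊢
  by_contra hc
  rw [not_le] at hc
  have q1 : 1 ≤ T / Real.log T := (one_le_div (by linarith)).2 (by linarith)
  have h1 : T / Real.log T * Real.exp 2 < Real.exp (T * y) := by
    rw [← Real.exp_log (show 0 < T / Real.log T by positivity), ← Real.exp_add]
    exact Real.exp_lt_exp.2 hc
  have h2 : 7 ≤ Real.exp 2 := by
    rw [show (2 : ℝ) = (2 : ℕ) * 1 by norm_num, Real.exp_nat_mul]
    calc (7 : ℝ) ≤ 2.7182818283 ^ 2 := by norm_num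
      _ ≤ _ := by gcongr; exact Real.exp_one_gt_d9.le
  have h3 : 6 * (T / Real.log T) ≤ Real.exp (T * y) - 1 := by linarith only [q1, h1, h2, mul_nonneg_of_nonpos_of_nonpos (Mathlib.Tactic.Linarith.sub_nonpos_of_le q1) (Mathlib.Tactic.Linarith.sub_nonpos_of_le h2)]
  have h4 : Real.log (Real.log T / 2) ≤ Real.log T / 2 - 1 :=
    Real.log_le_sub_one_of_pos (by linarith only [l1])
  rw [Real.log_div (by linarith only [l1]) (by norm_num)] at h4
  rw [Real.log_div T0.ne' (by linarith only [l1])] at hc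
  have h5 : Real.log T / 2 ≤ T * y := by linarith only [hc, h4, Real.log_two_lt_d9]
  have h6 : y ≤ Real.exp y - 1 := by linarith only [Real.add_one_le_exp y]
  have h7 : 6 * (T / Real.log T) * y ≤ (Real.exp (T * y) - 1) * (Real.exp y - 1) := by
    gcongr
    linarith only [q1, h3]
  have h8 : 6 * (T / Real.log T) * y = 6 * (T * y / Real.log T) := by ring
  have h9 : 1 / 2 ≤ T * y / Real.log T := by
    rw [le_div_iff₀ (by linarith only [l1])]
    linarith only [h5]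
  linarith only [h, h7, h8, h9]

end Pool.Agent.Work.MP_563a32_gt
end

-- merged part: Pool.Agent.Work.MP_563a32_gt.SB
section
/-! The sharp bounds with explicit constants. -/

namespace Pool.Agent.Work.MP_563a32_gt

theorem second_lower {g n : ℕ} (hg : 2 ≤ g) (hn : 400 * g ≤ n) {l : ℝ} (hl : l ∈ Spectrum g n) :
    Real.log ((n : ℝ) / g / Real.log (n / g)) - 10 ≤ n * l := by
  obtain ⟨a, b⟩ := sharp_lower hg hl
  exact low_sharp (by exact_mod_cast (by omega : 1 ≤ g)) (by exact_mod_cast hn) a b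

theorem second_upper {g n κ : ℕ} (hg : 2 ≤ g) (hn : 400 * g ≤ n) (hd : κ ∣ g - 1)
    (hc : Nat.Coprime κ n) :
    ∃ l ∈ Spectrum g n, n * l ≤ Real.log ((n : ℝ) / κ / Real.log (n / κ)) + 2 := by
  have k2 : κ ≤ g - 1 := Nat.le_of_dvd (by omega) hd
  obtain ⟨h, hh⟩ := hd
  obtain ⟨k, rfl⟩ : ∃ k, κ = k + 1 := ⟨κ - 1, by
    rcases κ with _ | κ
    · omega
    · rfl⟩
  obtain ⟨h, rfl⟩ : ∃ h', h = h' + 1 := ⟨h - 1, by
    rcases h with _ | h
    · omega
    · rfl⟩
  have k3 : 400 * (k + 1) ≤ n := by omega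
  obtain ⟨r, rfl⟩ : ∃ r, n = r + 5 := ⟨n - 5, by omega⟩
  obtain rfl : g = (h + 1) * (k + 1) + 1 := by rw [mul_comm]; omega
  obtain ⟨l, h1, h2, h3⟩ := Fam.upper (h := h) hc
  exact ⟨l, h1, high_sharp (by positivity) (by exact_mod_cast k3) h2 h3⟩

end Pool.Agent.Work.MP_563a32_gt
end
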