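import Pool.Agent.Work.MP_563a32_gt.W0

/-! Tables of a layered veering triangulation with 18 tetrahedra and 6 cusps. -/

namespace Pool.Agent.Work.MP_563a32_gt.C40
open Finset

def upL : List ℕ :=
  [4, 12, 6, 14, 9, 20, 11, 22, 0, 32, 2, 34, 17, 21, 19, 23, 1, 24, 3, 26, 25, 33, 27, 35, 5, 29,
  7, 31, 8, 18, 10, 16, 13, 30, 15, 28]

def dnL : List ℕ :=
  [8, 16, 10, 18, 0, 24, 2, 26, 28, 4, 30, 6, 1, 32, 3, 34, 31, 12, 29, 14, 5, 13, 7, 15, 17, 20,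
  19, 22, 35, 25, 33, 27, 9, 21, 11, 23]

def redL : List Bool :=
  [false, false, false, false, true, true, false, false, true, true, true, true, false, false,
  false, false, false, false]

def edL : List ℕ :=
  [0, 4, 6, 0, 8, 2, 1, 5, 7, 1, 9, 3, 2, 4, 12, 2, 8, 0, 3, 5, 13, 3, 9, 1, 4, 11, 2, 4, 4, 14,
  5, 10, 3, 5, 5, 15, 6, 8, 16, 6, 4, 0, 7, 9, 17, 7, 5, 1, 8, 11, 6, 8, 8, 15, 9, 10, 7, 9, 9,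
  14, 10, 8, 6, 10, 4, 2, 11, 9, 7, 11, 5, 3, 12, 8, 6, 12, 10, 15, 13, 9, 7, 13, 11, 14, 14, 11,
  12, 14, 10, 17, 15, 10, 13, 15, 11, 16, 16, 4, 2, 16, 10, 14, 17, 5, 3, 17, 11, 15]

def sdL : List ℕ :=
  [0, 0, 0, 1, 0, 0, 0, 0, 0, 1, 0, 0, 0, 0, 0, 1, 1, 0, 0, 0, 0, 1, 1, 0, 0, 1, 0, 1, 0, 0, 0, 1,
  0, 1, 0, 0, 0, 0, 0, 1, 1, 1, 0, 0, 0, 1, 1, 1, 0, 0, 0, 1, 0, 1, 0, 0, 0, 1, 0, 1, 0, 1, 1, 1,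
  1, 1, 0, 1, 1, 1, 1, 1, 0, 1, 1, 1, 0, 1, 0, 1, 1, 1, 0, 1, 0, 1, 1, 1, 0, 1, 0, 1, 1, 1, 0, 1,
  0, 1, 1, 1, 1, 0, 0, 1, 1, 1, 1, 0]

def btL : List ℕ :=
  [10, 11, 6, 7, 16, 17, 2, 3, 12, 13, 1, 0, 4, 5, 15, 14, 8, 9]

def btiL : List ℕ :=
  [11, 10, 6, 7, 12, 13, 2, 3, 16, 17, 0, 1, 8, 9, 15, 14, 4, 5]

def wL : List (List ℕ) :=
  [[1, 1, 0, 3, 0, 0], [1, 0, 0, 0, 3, 0], [1, 1, 0, 0, 0, 3], [1, 0, 3, 0, 0, 0], [1, 1, 0, 0, 0,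
  0], [1, 0, 0, 0, 3, 0], [1, 2, 0, 0, 0, 0], [1, 0, 3, 0, 0, 0], [1, 1, 0, 0, 0, 0], [4, 3, 3, 3,
  0, 0], [1, 0, 0, 0, 0, 0], [4, 1, 0, 0, 3, 3], [1, 0, 0, 0, 0, 0], [1, 1, 0, 3, 0, 0], [1, 0, 0,
  0, 0, 0], [1, 1, 0, 0, 0, 3], [1, 0, 0, 0, 0, 0], [4, 1, 0, 0, 3, 3], [1, 0, 0, 0, 0, 0], [4, 1,
  3, 3, 0, 0], [1, 0, 0, 0, 0, 0], [1, 1, 0, 0, 0, 0], [1, 0, 0, 0, 0, 0], [1, 0, 0, 0, 0, 0], [1,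
  0, 0, 0, 0, 0], [1, 1, 0, 0, 0, 0], [1, 0, 0, 0, 0, 0], [1, 1, 0, 0, 0, 0], [1, 0, 0, 0, 0, 0],
  [1, 1, 0, 0, 0, 0], [1, 1, 0, 0, 0, 0], [1, 1, 0, 0, 0, 0], [1, 1, 0, 0, 0, 0], [1, 0, 0, 0, 0,
  0], [1, 2, 0, 0, 0, 0], [1, 1, 0, 0, 0, 0]]

def oL : List (List ℕ) :=
  [[0, 0, 0, 0, 0, 0], [1, 1, 0, 0, 0, 0], [2, 0, 0, 0, 0, 0], [0, 0, 0, 0, 0, 0], [1, 0, 0, 0, 0,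
  0], [2, 2, 0, 0, 0, 0], [0, 0, 0, 0, 0, 0], [1, 0, 0, 0, 0, 0], [2, 0, 0, 0, 0, 0], [0, 0, 0, 0,
  0, 0], [1, 0, 0, 0, 0, 0], [2, 2, 0, 0, 0, 0], [0, 0, 0, 0, 0, 0], [2, 2, 0, 3, 0, 0], [1, 0, 0,
  0, 0, 0], [0, 0, 0, 0, 0, 0], [5, 1, 0, 0, 3, 3], [1, 1, 0, 3, 0, 0], [0, 0, 0, 0, 0, 0], [2, 1,
  0, 0, 0, 3], [1, 0, 0, 0, 0, 0], [0, 0, 0, 0, 0, 0], [5, 1, 3, 3, 0, 0], [1, 1, 0, 0, 0, 3], [0,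
  0, 0, 0, 0, 0], [3, 1, 0, 0, 0, 0], [1, 1, 0, 0, 0, 0], [0, 0, 0, 0, 0, 0], [3, 3, 0, 3, 0, 0],
  [1, 0, 0, 0, 0, 0], [0, 0, 0, 0, 0, 0], [3, 2, 0, 0, 0, 0], [1, 2, 0, 0, 0, 0], [0, 0, 0, 0, 0,
  0], [3, 3, 0, 0, 0, 3], [1, 1, 0, 0, 0, 0], [0, 0, 0, 0, 0, 0], [2, 0, 0, 0, 3, 0], [1, 1, 0, 0,
  0, 0], [0, 0, 0, 0, 0, 0], [5, 4, 3, 3, 0, 0], [1, 0, 0, 0, 3, 0], [0, 0, 0, 0, 0, 0], [2, 0, 3,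
  0, 0, 0], [1, 2, 0, 0, 0, 0], [0, 0, 0, 0, 0, 0], [5, 3, 0, 0, 3, 3], [1, 0, 3, 0, 0, 0], [0, 0,
  0, 0, 0, 0], [3, 2, 0, 0, 0, 0], [1, 0, 0, 0, 0, 0], [0, 0, 0, 0, 0, 0], [3, 0, 0, 0, 3, 0], [1,
  1, 0, 0, 0, 0], [0, 0, 0, 0, 0, 0], [3, 2, 0, 0, 0, 0], [1, 0, 0, 0, 0, 0], [0, 0, 0, 0, 0, 0],
  [3, 0, 3, 0, 0, 0], [1, 1, 0, 0, 0, 0], [0, 0, 0, 0, 0, 0], [6, 1, 0, 0, 6, 3], [1, 1, 0, 3, 0,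
  0], [0, 0, 0, 0, 0, 0], [6, 5, 3, 6, 0, 0], [1, 0, 0, 0, 3, 0], [0, 0, 0, 0, 0, 0], [6, 1, 6, 3,
  0, 0], [1, 1, 0, 0, 0, 3], [0, 0, 0, 0, 0, 0], [6, 4, 0, 0, 3, 6], [1, 0, 3, 0, 0, 0], [0, 0, 0,
  0, 0, 0], [4, 1, 0, 0, 3, 3], [2, 1, 0, 3, 0, 0], [0, 0, 0, 0, 0, 0], [1, 0, 0, 0, 0, 0], [5, 2,
  0, 0, 3, 3], [0, 0, 0, 0, 0, 0], [4, 1, 3, 3, 0, 0], [2, 1, 0, 0, 0, 3], [0, 0, 0, 0, 0, 0], [1,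
  0, 0, 0, 0, 0], [5, 2, 3, 3, 0, 0], [0, 0, 0, 0, 0, 0], [2, 1, 0, 0, 0, 0], [1, 1, 0, 0, 0, 0],
  [0, 0, 0, 0, 0, 0], [2, 1, 0, 0, 0, 0], [1, 1, 0, 0, 0, 0], [0, 0, 0, 0, 0, 0], [2, 1, 0, 0, 0,
  0], [1, 1, 0, 0, 0, 0], [0, 0, 0, 0, 0, 0], [2, 1, 0, 0, 0, 0], [1, 0, 0, 0, 0, 0], [0, 0, 0, 0,
  0, 0], [4, 3, 3, 3, 0, 0], [2, 1, 0, 0, 3, 0], [0, 0, 0, 0, 0, 0], [1, 1, 0, 0, 0, 0], [5, 3, 3,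
  3, 0, 0], [0, 0, 0, 0, 0, 0], [4, 1, 0, 0, 3, 3], [2, 0, 3, 0, 0, 0], [0, 0, 0, 0, 0, 0], [1, 0,
  0, 0, 0, 0], [5, 2, 0, 0, 3, 3]]

def offL : List (List ℕ) :=
  [[2, 1, 0, 3, 3, 0], [2, 1, 3, 0, 0, 3], [3, 2, 0, 0, 3, 0], [3, 2, 3, 0, 0, 0], [7, 6, 3, 6, 0,
  0], [7, 4, 0, 0, 3, 6], [3, 1, 0, 3, 0, 0], [3, 1, 0, 0, 0, 3], [7, 1, 0, 0, 6, 3], [7, 1, 6, 3,
  0, 0], [4, 2, 0, 0, 0, 0], [4, 2, 0, 0, 0, 0], [2, 1, 0, 0, 0, 0], [2, 2, 0, 0, 0, 0], [6, 3, 3,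
  3, 0, 0], [6, 3, 0, 0, 3, 3], [2, 1, 0, 0, 0, 0], [2, 2, 0, 0, 0, 0]]

def cuL : List ℕ :=
  [3, 0, 2, 4, 2, 1, 3, 5, 3, 2, 0, 4, 2, 3, 1, 5, 2, 4, 3, 3, 3, 5, 2, 2, 2, 3, 4, 0, 3, 2, 5, 1,
  3, 0, 2, 2, 2, 1, 3, 3, 0, 3, 4, 2, 1, 2, 5, 3, 0, 3, 2, 2, 1, 2, 3, 3, 2, 3, 2, 3, 3, 2, 3, 2,
  4, 2, 3, 3, 5, 3, 2, 2]

def rootL : List ℕ :=
  [48, 52, 61, 62, 64, 68]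

def potL : List (List ℤ) :=
  [[-2, -1, 0, 0, 0, 0], [3, 1, 0, 0, 3, 3], [-2, -1, 0, 0, 0, 0], [3, 2, 3, 3, 0, 0], [1, 2, 0,
  0, 0, 3], [3, 1, 3, 3, 0, 0], [7, 2, 6, 3, 0, 0], [3, 1, 0, 0, 3, 3], [-3, -2, 0, -3, 0, 0],
  [-6, -2, 0, 0, -3, -3], [-1, 0, 0, 0, 0, 0], [5, 4, 3, 3, 0, 0], [0, 1, 0, 0, 0, 0], [3, 1, 3,
  0, 0, 0], [-1, 0, 0, 0, 0, 0], [5, 3, 0, 0, 3, 3], [-1, 0, 0, 0, 0, 0], [4, 3, 3, 3, 0, 0], [-4,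
  -3, 0, -3, 0, 0], [5, 3, 3, 3, 0, 0], [2, -1, 3, 0, 0, 0], [4, 1, 0, 0, 3, 3], [-1, -1, 0, 0, 0,
  0], [2, 2, 0, 0, 0, 3], [-3, -1, 0, 0, -3, 0], [0, -1, 0, 0, 0, 0], [-1, -1, 0, 0, 0, 0], [5, 1,
  0, 0, 3, 3], [6, 2, 3, 3, 0, 0], [3, 2, 0, 0, 0, 3], [-1, -2, 0, 0, 0, 0], [5, 1, 3, 3, 0, 0],
  [-1, -1, 0, 0, 0, 0], [4, 1, 0, 0, 3, 3], [-4, -1, 0, 0, -3, 0], [-1, -1, 0, 0, 0, 0], [2, 2, 0,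
  0, 0, 3], [4, 1, 3, 3, 0, 0], [5, 2, 3, 3, 0, 0], [8, 2, 6, 3, 0, 0], [1, 0, 0, 0, 0, 0], [-1,
  -2, 0, -3, 0, 0], [1, 1, 0, 0, 0, 0], [-7, -2, 0, 0, -6, -3], [1, 0, 0, 0, 0, 0], [2, 1, 0, 0,
  0, 0], [1, 0, 0, 0, 0, 0], [2, 1, 0, 0, 0, 0], [0, 0, 0, 0, 0, 0], [-2, -2, 0, -3, 0, 0], [-8,
  -2, 0, 0, -6, -3], [-5, -2, 0, 0, -3, -3], [0, 0, 0, 0, 0, 0], [1, 1, 0, 0, 0, 0], [1, 1, 0, 0,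
  0, 0], [4, 1, 3, 0, 0, 0], [-6, -3, 0, 0, -3, -3], [-3, -3, 0, -3, 0, 0], [3, 3, 0, 0, 0, 3],
  [6, 3, 3, 3, 0, 0], [3, 0, 3, 0, 0, 0], [0, 0, 0, 0, 0, 0], [0, 0, 0, 0, 0, 0], [3, 3, 0, 0, 0,
  3], [0, 0, 0, 0, 0, 0], [-2, 0, 0, 0, -3, 0], [-2, -3, 0, -3, 0, 0], [1, 0, 0, 0, 0, 0], [0, 0,
  0, 0, 0, 0], [1, 1, 0, 0, 0, 0], [-5, -2, 0, 0, -3, -3], [4, 4, 0, 0, 0, 3]]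

def pot0L : List (List ℤ) :=
  [[0, 0, 0, 0, 0, 0], [0, 0, 0, 0, 0, 0], [-1, -1, 0, -3, 0, 0], [2, 2, 0, 0, 0, 0], [1, 1, 0, 0,
  0, 0], [1, 0, 0, 0, 0, 0], [-1, 0, 0, 0, -3, 0], [2, 0, 0, 0, 0, 0], [1, 0, 0, 0, 0, 0], [1, 0,
  0, 0, 0, 0], [-2, -1, 0, -3, -3, 0], [4, 2, 0, 0, 0, 0], [0, -1, 0, -3, 0, 0], [3, 2, 0, 0, 0,
  0], [2, 1, 0, 0, 0, 0], [2, 1, 0, 0, 0, 0], [0, 1, 0, 0, -3, 0], [3, 2, 0, 0, 0, 0]]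

def YL : List (List ℤ) :=
  [[0, 0, 0, 1, 0, -1], [0, 0, 0, 1, 0, -1], [0, 0, 0, 0, 0, 0], [0, 0, 0, 0, 0, 0], [0, 0, -1, 0,
  1, 0], [0, 0, -1, 0, 1, 0]]

def ZL : List (List ℤ) :=
  [[1, 0, 0, 0, 1, 0], [1, 0, 1, 0, 0, 0], [2, 1, 0, 0, 1, 1], [2, 1, 1, 1, 0, 0], [1, 1, 0, 1, 0,
  0], [1, 1, 0, 0, 0, 1]]

def alL : List ℤ :=
  [-1, 0, 0, -1, 0, 0, 1, 0, 0, 1, 0, 0, 0, 0, 0, -1, 0, 0, 0, 0, 0, 1, 0, 0, 0, 0, 0, 0, 0, 0, 0,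
  0, 0, 0, 0, 0, 0, 0, 0, -1, 0, 0, 0, 0, 0, 1, 0, 0, 0, 0, 0, 0, 0, 0, 0, 0, 0, 0, 0, 0, 0, 0, 0,
  0, 0, 0, 0, 0, 0, 0, 0, 0, 0, 0, 0, 0, 0, 0, 0, 0, 0, 0, 0, 0, 0, 0, 0, 0, 0, 0, 0, 0, 0, 0, 0,
  0, 0, 0, 0, 0, 0, 0, 0, 0, 0, 0, 0, 0]

def beL : List ℤ :=
  [1, -1, 0, 1, -1, 0, 1, -1, 0, 1, -1, 0, -1, 0, 0, 1, 0, -1, 0, 0, 0, 1, 0, -1, 0, 1, 0, 0, 0,
  -1, 0, 0, -1, -1, 0, 0, 0, 0, 0, 1, 0, -1, 0, 0, 0, 1, 0, -1, 0, 0, 0, 0, 0, 0, 0, 0, 0, 0, 0,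
  0, 0, 0, 0, -1, 0, 0, 0, 0, 0, 0, 1, 0, 0, 0, 0, 0, 0, -2, 0, 0, 0, 0, 0, 0, 0, 0, -1, 0, -2, 0,
  0, 0, 0, 1, 0, 0, 0, 0, 0, 0, -1, -1, -1, 0, 0, 0, -1, 0]

def g1L : List ℕ :=
  [0, 6, 5, 2, 1, 7]

def g2L : List ℕ :=
  [4, 10, 12, 25, 3, 9]

def coL : List (List ℤ) :=
  [[-1, -1, 0, -1], [1, 1, 0, -1], [0, 0, 0, -1], [0, 0, 0, 1], [-1, -1, -1, 0], [1, 1, -1, 0]]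

def rkL : List ℕ :=
  [2, 2, 2, 2, 3, 2, 4, 2, 3, 3, 1, 2, 2, 3, 1, 2, 3, 1, 4, 2, 4, 1, 1, 4, 3, 2, 1, 2, 3, 3, 1, 2,
  1, 1, 4, 1, 4, 1, 2, 5, 1, 3, 1, 4, 1, 2, 1, 2, 0, 4, 5, 2, 0, 1, 1, 4, 3, 5, 5, 3, 5, 0, 0, 5,
  0, 4, 4, 1, 0, 3, 2, 4]

def parL : List ℕ :=
  [50, 48, 49, 24, 8, 54, 11, 30, 2, 73, 74, 13, 78, 22, 80, 19, 26, 28, 14, 27, 18, 34, 90, 31,
  5, 36, 98, 37, 44, 46, 104, 43, 95, 52, 38, 94, 42, 58, 59, 55, 62, 40, 65, 16, 68, 66, 71, 67,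
  0, 60, 53, 51, 0, 82, 83, 79, 107, 76, 89, 87, 92, 0, 0, 91, 0, 96, 64, 99, 0, 69, 35, 103]

def rk0L : List ℕ :=
  [0, 4, 1, 4, 1, 3, 1, 4, 1, 3, 2, 4, 2, 3, 2, 2, 2, 3]

def par0L : List ℕ :=
  [0, 18, 0, 26, 8, 30, 1, 14, 16, 29, 5, 23, 24, 27, 28, 31, 32, 35]

def rfL : List (List ℕ) :=
  [[0, 2, 5, 3, 4, 2, 5, 3, 4, 2, 1, 3, 3, 3, 2, 2, 3, 3], [0, 2, 1, 3, 2, 2, 1, 3, 2, 2, 3, 1, 3,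
  3, 4, 4, 3, 3], [0, 2, 4, 2, 2, 2, 4, 2, 2, 2, 3, 1, 3, 1, 1, 1, 3, 1], [0, 2, 2, 4, 2, 4, 2, 4,
  2, 4, 1, 3, 1, 3, 3, 3, 1, 3]]

def pfL : List (List ℕ) :=
  [[0, 11, 0, 1, 6, 11, 0, 1, 6, 11, 1, 0, 4, 5, 13, 17, 8, 9], [0, 10, 10, 11, 12, 13, 10, 11,
  16, 17, 0, 1, 0, 1, 8, 4, 0, 1]]

def prtL : List (List ℕ) :=
  [[3, 0, 0, 0, 3, 0], [3, 0, 3, 0, 0, 0], [18, 9, 0, 0, 9, 9], [18, 9, 9, 9, 0, 0], [3, 3, 0, 3,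
  0, 0], [3, 3, 0, 0, 0, 3]]

def fc (n : ℕ) : Fin 18 × Bool := (Fin.ofNat 18 (n / 2), n % 2 == 1)
def ix (F : Fin 18 × Bool) : ℕ := 2 * F.1 + F.2.toNat
def dt (n : ℕ) : (Fin 18 × Bool) × Fin 3 := (fc (n / 3), Fin.ofNat 3 n)

def tab : Tab (Fin 18) (Fin 6) 6 where
  up := ⟨fun F => fc (upL.getD (ix F) 0), fun F => fc (dnL.getD (ix F) 0), by decide +kernel,
    by decide +kernel⟩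
  red u := redL.getD u false
  ed F l := Fin.ofNat 18 (edL.getD (3 * ix F + l) 0)
  sd F l := sdL.getD (3 * ix F + l) 0 == 1
  bt := ⟨fun u => Fin.ofNat 18 (btL.getD u 0), fun u => Fin.ofNat 18 (btiL.getD u 0),
    by decide +kernel, by decide +kernel⟩
  wv F i := (wL.getD (ix F) []).getD i 0
  ov F l i := (oL.getD (3 * ix F + l) []).getD i 0
  offv u i := (offL.getD u []).getD i 0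
  cusp u a := Fin.ofNat 6 (cuL.getD (4 * u + a) 0)
  root c := (Fin.ofNat 18 (rootL.getD c 0 / 4), Fin.ofNat 4 (rootL.getD c 0))
  potv u a i := (potL.getD (4 * u + a) []).getD i 0
  pot0v u i := (pot0L.getD u []).getD i 0
  m := 3
  u0 := 0
  i0 := 0
  Y c i := (YL.getD c []).getD i 0
  Z c i := (ZL.getD c []).getD i 0
  al F l := alL.getD (3 * ix F + l) 0
  be F l := beL.getD (3 * ix F + l) 0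
  g1 c := dt (g1L.getD c 0)
  g2 c := dt (g2L.getD c 0)
  co c j := (coL.getD c []).getD j 0
  rk p := rkL.getD (4 * p.1 + p.2) 0
  par p := dt (parL.getD (4 * p.1 + p.2) 0)
  rk0 u := rk0L.getD u 0
  par0 u := fc (par0L.getD u 0)
  rf j u := (rfL.getD j []).getD u 0
  pf j u := Fin.ofNat 18 ((pfL.getD j []).getD u 0)

theorem ok : tab.Ok := by
  constructor <;> decide +kernel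

def prt (c : Fin 6) (i : Fin 6) : ℕ := (prtL.getD c []).getD i 0

theorem htot : ∀ i, ∑ F, tab.wv F i = ![48, 24, 12, 12, 12, 12] i := by decide +kernel

theorem hprt : ∀ c i, ∑ F ∈ univ.filter (fun F : Fin 18 × Bool => tab.cusp F.1 (topV F.2 2) = c),
    tab.wv F i = prt c i := by decide +kernel

theorem hst : ∀ u, ∃ j₀, (∀ i, ![1, 0, 0, 0, 0, 0] i ≤ tab.fev u j₀ i) ∧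
    ∀ j, j ≠ j₀ → ∀ i, ![1, 1, 0, 0, 0, 0] i ≤ tab.fev u j i := by decide +kernel

end Pool.Agent.Work.MP_563a32_gt.C40
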