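import Pool.Agent.Work.MP_563a32_gt.AMain

-- merged part: Pool.Agent.Work.MP_563a32_gt.V2
section
/-! Heights and widths exist.

Plan. Every dart `(F, 1)` or `(F, 2)` is `nx` of a dart (`pred`), so `o F 1, o F 2 ≥ 1`; also
`off ≥ 1`. Heights: `cw` for `ft`, `fe` gives `x`, `H`. Let `h F k = H (ed F k) / x ^ o F k` and
`δ F = H F.1 - h F 1 - h F 2`. For `up F = (u, s)`, `last` and `step` express `h F k / x ^ w F` as
`H (bt⁻¹ u) / x ^ off (bt⁻¹ u)`, `h (u, !s) 2` or `h (u, s) 1` according to `k + sh F = 0, 1, 2`.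
With the flow equation of `u` and `col_up` this gives `δ (u, s) = - δ F / x ^ w F` if `F.1` is red
and `δ (u, !s) = - δ F / x ^ w F` otherwise; so `max |δ| ≤ max |δ| / x` and `δ = 0`. Widths: `cw`
for `rt` with exponents `off u` and `off (ed F k) - o F k ≥ 1` gives `y`, `ω`; put
`W τ = ω (bt τ) / y ^ off τ`, `v F k = W (ed F k) * y ^ o F k`, and `ρ F = v F 1 - W F.1 - v F 2`
(red) or `v F 2 - W F.1 - v F 1` (blue). Then `y ^ w F * ρ F = ω u - v (u, !s) 2 - v (u, s) 1`,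
which is `- ρ (u, s)` if `u` is red and `- ρ (u, !s)` otherwise; so `ρ = 0`. Equal scales: put
`a F = h F 1 * v F 2 + h F 2 * v F 1 > 0` (twice the area of the top face). From the relations
above, `a F * (y / x) ^ w F` is twice the area of the bottom face `up F`, and for every `u` the two
top areas and the two bottom areas have the same sum (a polynomial identity given `δ = ρ = 0`).
Summing over `u`, `∑ a F = ∑ a F * (y / x) ^ w F`, so `y = x`. -/

namespace Pool.Agent.Work.MP_563a32_gt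
namespace Veer
open Finset

variable {U Cu : Type} {V : Veer U Cu}

theorem V2_zero {α : Type} [Finite α] {d : α → ℝ} (h : ∀ p, ∃ q c, 1 < c ∧ d p * c = -d q)
    (p : α) : d p = 0 := by
  have : Nonempty α := ⟨p⟩
  obtain ⟨m, hm⟩ := Finite.exists_max fun p => |d p|
  obtain ⟨q, c, hc, e⟩ := h m
  have h1 : |d m| * c ≤ |d m| := by
    rw [← abs_of_pos (zero_lt_one.trans hc), ← abs_mul, e, abs_neg]
    exact hm q
  have h2 : |d m| ≤ 0 := by nlinarith [abs_nonneg (d m)]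
  exact abs_nonpos_iff.1 ((hm p).trans h2)

theorem V2_scale {α : Type} [Fintype α] [Nonempty α] {a : α → ℝ} {w : α → ℕ} {r : ℝ}
    (ha : ∀ p, 0 < a p) (hw : ∀ p, 1 ≤ w p) (hr : 0 < r) (h : ∑ p, a p * r ^ w p = ∑ p, a p) :
    r = 1 := by
  rcases lt_trichotomy r 1 with h1 | h1 | h1
  · refine absurd h (sum_lt_sum_of_nonempty univ_nonempty fun p _ => ?_).ne
    exact mul_lt_of_lt_one_right (ha p) (pow_lt_one₀ hr.le h1 (Nat.one_le_iff_ne_zero.1 (hw p)))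
  · exact h1
  · refine absurd h (sum_lt_sum_of_nonempty univ_nonempty fun p _ => ?_).ne'
    exact lt_mul_of_one_lt_right (ha p) (one_lt_pow₀ h1 (Nat.one_le_iff_ne_zero.1 (hw p)))

/-- The height of the bottom diagonal. -/
noncomputable def V2_hb (G : V.Geo) (u : U) : ℝ := G.H (V.bt⁻¹ u) / G.x ^ V.off (V.bt⁻¹ u)

/-- The width of the bottom diagonal. -/
noncomputable def V2_wb (G : V.Geo) (u : U) : ℝ := G.W (V.bt⁻¹ u) * G.x ^ V.off (V.bt⁻¹ u)

theorem V2_step (A : V.Ax) (G : V.Geo) (hx : 0 < G.x) (F : U × Bool) (k : Fin 3)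
    (hk : k + V.sh F ≠ 0) :
    G.hh (V.nx F k).1 (V.nx F k).2 * G.x ^ V.w F = G.hh F k ∧
      G.ww (V.nx F k).1 (V.nx F k).2 = G.ww F k * G.x ^ V.w F := by
  obtain ⟨h1, -, h2⟩ := A.step F k hk
  simp only [Geo.hh, Geo.ww, h1, h2, pow_add]
  constructor
  · field_simp
  · ring

theorem V2_last (A : V.Ax) (G : V.Geo) (hx : 0 < G.x) (F : U × Bool) (k : Fin 3)
    (hk : k + V.sh F = 0) :
    V2_hb G (V.up F).1 * G.x ^ V.w F = G.hh F k ∧ V2_wb G (V.up F).1 = G.ww F k * G.x ^ V.w F := by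
  obtain ⟨h1, h2⟩ := A.last F k hk
  simp only [V2_hb, V2_wb, Geo.hh, Geo.ww, ← h1, Equiv.Perm.coe_inv, Equiv.symm_apply_apply,
    ← h2, pow_add]
  constructor
  · field_simp
  · ring

theorem V2_red (A : V.Ax) (G : V.Geo) (hx : 0 < G.x) (F : U × Bool) (h : V.red F.1 = true) :
    (G.hh (V.up F) 1 * G.x ^ V.w F = G.H F.1 ∧ V2_hb G (V.up F).1 * G.x ^ V.w F = G.hh F 1 ∧
      G.hh ((V.up F).1, !(V.up F).2) 2 * G.x ^ V.w F = G.hh F 2) ∧
    G.ww (V.up F) 1 = G.W F.1 * G.x ^ V.w F ∧ V2_wb G (V.up F).1 = G.ww F 1 * G.x ^ V.w F ∧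
      G.ww ((V.up F).1, !(V.up F).2) 2 = G.ww F 2 * G.x ^ V.w F := by
  have hs : V.sh F = 2 := by simp [sh, h]
  have h0 := V2_step A G hx F 0 (by rw [hs]; decide)
  have h1 := V2_last A G hx F 1 (by rw [hs]; decide)
  have h2 := V2_step A G hx F 2 (by rw [hs]; decide)
  rw [nx, hs, if_neg (by decide)] at h0
  rw [nx, hs, if_pos (by decide)] at h2
  simp only [Geo.hh, Geo.ww, A.ed_zero, A.o_zero, pow_zero, div_one, mul_one] at h0
  exact ⟨⟨h0.1, h1.1, h2.1⟩, h0.2, h1.2, h2.2⟩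

theorem V2_blue (A : V.Ax) (G : V.Geo) (hx : 0 < G.x) (F : U × Bool) (h : V.red F.1 = false) :
    (G.hh ((V.up F).1, !(V.up F).2) 2 * G.x ^ V.w F = G.H F.1 ∧
      G.hh (V.up F) 1 * G.x ^ V.w F = G.hh F 1 ∧ V2_hb G (V.up F).1 * G.x ^ V.w F = G.hh F 2) ∧
    G.ww ((V.up F).1, !(V.up F).2) 2 = G.W F.1 * G.x ^ V.w F ∧
      G.ww (V.up F) 1 = G.ww F 1 * G.x ^ V.w F ∧ V2_wb G (V.up F).1 = G.ww F 2 * G.x ^ V.w F := by
  have hs : V.sh F = 1 := by simp [sh, h]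
  have h0 := V2_step A G hx F 0 (by rw [hs]; decide)
  have h1 := V2_step A G hx F 1 (by rw [hs]; decide)
  have h2 := V2_last A G hx F 2 (by rw [hs]; decide)
  rw [nx, hs, if_pos (by decide)] at h0
  rw [nx, hs, if_neg (by decide)] at h1
  simp only [Geo.hh, Geo.ww, A.ed_zero, A.o_zero, pow_zero, div_one, mul_one] at h0
  exact ⟨⟨h0.1, h1.1, h2.1⟩, h0.2, h1.2, h2.2⟩

theorem V2_pair (f : U × Bool → ℝ) (F : U × Bool) :
    f (F.1, false) + f (F.1, true) = f F + f (F.1, !F.2) := by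
  obtain ⟨u, s⟩ := F
  cases s
  · rfl
  · exact add_comm _ _

theorem V2_eqH [Finite U] (A : V.Ax) (G : V.Geo) (hx : 1 < G.x)
    (hH : ∀ u, G.H u = V2_hb G u + (G.hh (u, false) (if V.cb u then 2 else 1) +
      G.hh (u, true) (if V.cb u then 2 else 1))) (F : U × Bool) :
    G.H F.1 = G.hh F 1 + G.hh F 2 := by
  refine sub_eq_zero.1 (V2_zero (d := fun F => G.H F.1 - (G.hh F 1 + G.hh F 2)) (fun p => ?_) F)
  have hw := fun F => one_lt_pow₀ hx (Nat.one_le_iff_ne_zero.1 (A.w_pos F))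
  have h1 := hH p.1
  rw [V2_pair (fun F => G.hh F (if V.cb p.1 then 2 else 1)) p] at h1
  cases hc : V.cb p.1
  · obtain ⟨q, hq⟩ := V.up.surjective (p.1, !p.2)
    obtain ⟨⟨e0, e1, e2⟩, -⟩ := V2_blue A G (zero_lt_one.trans hx) q (by rw [A.col_up, hq, hc])
    simp only [hq, Bool.not_not, Prod.mk.eta] at e0 e1 e2
    simp only [hc, Bool.false_eq_true, if_false] at h1
    refine ⟨q, _, hw q, ?_⟩
    rw [← e0, ← e1, ← e2, h1]
    ring
  · obtain ⟨q, hq⟩ := V.up.surjective p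
    obtain ⟨⟨e0, e1, e2⟩, -⟩ := V2_red A G (zero_lt_one.trans hx) q (by rw [A.col_up, hq, hc])
    simp only [hq] at e0 e1 e2
    simp only [hc, if_true] at h1
    refine ⟨q, _, hw q, ?_⟩
    rw [← e0, ← e1, ← e2, h1]
    ring

theorem V2_eqW [Finite U] (A : V.Ax) (G : V.Geo) (hx : 1 < G.x)
    (hW : ∀ u, V2_wb G u = G.W u + (G.ww (u, false) (if V.red u then 2 else 1) +
      G.ww (u, true) (if V.red u then 2 else 1))) (F : U × Bool) :
    if V.red F.1 then G.ww F 1 = G.W F.1 + G.ww F 2 else G.ww F 2 = G.W F.1 + G.ww F 1 := by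
  have h := V2_zero (d := fun F : U × Bool => if V.red F.1 then G.ww F 1 - (G.W F.1 + G.ww F 2)
    else G.ww F 2 - (G.W F.1 + G.ww F 1)) (fun p => ?_) F
  · split_ifs at h ⊢ <;> exact sub_eq_zero.1 h
  have hw := one_lt_pow₀ hx (Nat.one_le_iff_ne_zero.1 (A.w_pos p))
  have h1 := hW (V.up p).1
  rw [V2_pair (fun F => G.ww F (if V.red (V.up p).1 then 2 else 1)) (V.up p)] at h1
  have h2 : (if V.red p.1 then G.ww p 1 - (G.W p.1 + G.ww p 2)
      else G.ww p 2 - (G.W p.1 + G.ww p 1)) * G.x ^ V.w p =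
      V2_wb G (V.up p).1 - G.ww (V.up p) 1 - G.ww ((V.up p).1, !(V.up p).2) 2 := by
    cases hc : V.red p.1
    · obtain ⟨-, e0, e1, e2⟩ := V2_blue A G (zero_lt_one.trans hx) p hc
      rw [e0, e1, e2, if_neg Bool.false_ne_true]
      ring
    · obtain ⟨-, e0, e1, e2⟩ := V2_red A G (zero_lt_one.trans hx) p hc
      rw [e0, e1, e2, if_pos rfl]
      ring
  cases hc : V.red (V.up p).1
  · refine ⟨((V.up p).1, !(V.up p).2), _, hw, h2.trans ?_⟩
    simp only [hc, Bool.false_eq_true, if_false] at h1 ⊢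
    rw [h1]
    ring
  · refine ⟨V.up p, _, hw, h2.trans ?_⟩
    simp only [hc, if_true] at h1 ⊢
    rw [h1]
    ring

theorem V2_same [Fintype U] (A : V.Ax) (G G' : V.Geo) (hx : 1 < G.x) (hx' : 1 < G'.x)
    (pH : ∀ u, 0 < G.H u) (pW : ∀ u, 0 < G'.W u)
    (hH : ∀ u, G.H u = V2_hb G u + (G.hh (u, false) (if V.cb u then 2 else 1) +
      G.hh (u, true) (if V.cb u then 2 else 1)))
    (hW : ∀ u, V2_wb G' u = G'.W u + (G'.ww (u, false) (if V.red u then 2 else 1) +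
      G'.ww (u, true) (if V.red u then 2 else 1))) : G'.x = G.x := by
  have : Nonempty U := ⟨V.u0⟩
  have h0 := zero_lt_one.trans hx
  have h0' := zero_lt_one.trans hx'
  have ph : ∀ F k, 0 < G.hh F k := fun F k => div_pos (pH _) (pow_pos h0 _)
  have pw : ∀ F k, 0 < G'.ww F k := fun F k => mul_pos (pW _) (pow_pos h0' _)
  rw [← div_eq_one_iff_eq h0.ne']
  refine V2_scale (a := fun F => G.hh F 1 * G'.ww F 2 + G.hh F 2 * G'.ww F 1)
    (fun F => add_pos (mul_pos (ph _ _) (pw _ _)) (mul_pos (ph _ _) (pw _ _))) A.w_pos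
    (div_pos h0' h0) ?_
  let b : U × Bool → ℝ := fun F =>
    if V.cb F.1 then V2_hb G F.1 * G'.ww (F.1, !F.2) 2 + G.hh (F.1, !F.2) 2 * V2_wb G' F.1
    else G.hh F 1 * V2_wb G' F.1 + V2_hb G F.1 * G'.ww F 1
  have h1 : ∀ F, (G.hh F 1 * G'.ww F 2 + G.hh F 2 * G'.ww F 1) * (G'.x / G.x) ^ V.w F =
      b (V.up F) := by
    intro F
    have h2 := (pow_pos h0 (V.w F)).ne'
    simp only [b, ← A.col_up]
    cases hc : V.red F.1
    · obtain ⟨⟨-, e1, e2⟩, -⟩ := V2_blue A G h0 F hc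
      obtain ⟨-, -, f1, f2⟩ := V2_blue A G' h0' F hc
      rw [if_neg Bool.false_ne_true, f1, f2, ← e1, ← e2, div_pow]
      field_simp
    · obtain ⟨⟨-, e1, e2⟩, -⟩ := V2_red A G h0 F hc
      obtain ⟨-, -, f1, f2⟩ := V2_red A G' h0' F hc
      rw [if_pos rfl, f1, f2, ← e1, ← e2, div_pow]
      field_simp
  rw [sum_congr rfl fun F _ => h1 F, Equiv.sum_comp V.up b, Fintype.sum_prod_type,
    Fintype.sum_prod_type]
  refine sum_congr rfl fun u _ => ?_
  have e0 := hH u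
  have e1 := V2_eqH A G hx hH (u, false)
  have e2 := V2_eqH A G hx hH (u, true)
  have f0 := hW u
  have f1 := V2_eqW A G' hx' hW (u, false)
  have f2 := V2_eqW A G' hx' hW (u, true)
  have e3 : V2_hb G u = G.H u - (G.hh (u, false) (if V.cb u then 2 else 1) +
      G.hh (u, true) (if V.cb u then 2 else 1)) := eq_sub_of_add_eq e0.symm
  have e4 : G.hh (u, false) 1 = G.H u - G.hh (u, false) 2 := eq_sub_of_add_eq e1.symm
  have e5 : G.hh (u, true) 1 = G.H u - G.hh (u, true) 2 := eq_sub_of_add_eq e2.symm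
  simp only [Fintype.sum_bool, b, Bool.not_true, Bool.not_false, f0, e3]
  cases hc : V.cb u <;> cases hr : V.red u <;>
    simp only [hr, Bool.false_eq_true, if_false, if_true] at f1 f2 ⊢ <;>
    rw [f1, f2, e4, e5] <;> ring

theorem Ax.pred (A : V.Ax) (F : U × Bool) (k : Fin 3) (hk : k ≠ 0) :
    ∃ F' k', k' + V.sh F' ≠ 0 ∧ V.nx F' k' = (F, k) := by
    have h : ∀ k : Fin 3, k ≠ 0 → k = 1 ∨ k = 2 := by decide
    rcases h k hk with rfl | rfl
    · refine ⟨V.up⁻¹ F, 2 - V.sh (V.up⁻¹ F), by rw [sub_add_cancel]; decide, ?_⟩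
      rw [nx, sub_add_cancel, if_neg (by decide)]
      simp
    · refine ⟨V.up⁻¹ (F.1, !F.2), 1 - V.sh (V.up⁻¹ (F.1, !F.2)), by rw [sub_add_cancel]; decide, ?_⟩
      rw [nx, sub_add_cancel, if_pos rfl]
      simp

theorem Ax.exists_geo [Fintype U] [DecidableEq U] (A : V.Ax) :
    ∃ G : V.Geo, G.Ok ∧ ∀ u, G.H u = ∑ j, G.H (V.ft u j) / G.x ^ V.fe u j := by
    have : Nonempty U := ⟨V.u0⟩
    have ho : ∀ F (c : Bool), 1 ≤ V.o F (if c then 2 else 1) := by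
      intro F c
      obtain ⟨F', k', h1, h2⟩ := A.pred F (if c then 2 else 1) (by cases c <;> decide)
      have h3 := (A.step F' k' h1).2.2
      rw [h2] at h3
      have h4 := A.w_pos F'
      simp only at h3
      omega
    have hoff : ∀ u, 1 ≤ V.off u := by
      intro u
      have h1 := A.o_le (u, false) 0
      have h2 := A.w_pos (u, false)
      rw [A.ed_zero] at h1
      simp only at h1
      omega
    have hle : ∀ F k, V.o F k + 1 ≤ V.off (V.ed F k) := fun F k =>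
      (Nat.add_le_add_left (A.w_pos F) _).trans (A.o_le F k)
    obtain ⟨x, H, hx, pH, hH⟩ := cw V.ft V.fe (fun u j => by
      fin_cases j
      exacts [hoff _, ho _ _, ho _ _]) A.ft_irr
    obtain ⟨y, ω, hy, pω, hω⟩ := cw V.rt (fun u => ![V.off u,
      V.off (V.ed (u, false) (if V.red u then 2 else 1)) - V.o (u, false) (if V.red u then 2 else 1),
      V.off (V.ed (u, true) (if V.red u then 2 else 1)) - V.o (u, true) (if V.red u then 2 else 1)])
      (fun u j => by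
        fin_cases j
        exacts [hoff _, Nat.le_sub_of_add_le' (hle _ _), Nat.le_sub_of_add_le' (hle _ _)]) A.rt_irr
    have y0 := zero_lt_one.trans hy
    let W : U → ℝ := fun u => ω (V.bt u) / y ^ V.off u
    have pW : ∀ u, 0 < W u := fun u => div_pos (pω _) (pow_pos y0 _)
    have h1 : ∀ u, H u = V2_hb (V := V) ⟨x, H, W⟩ u +
        (Geo.hh (V := V) ⟨x, H, W⟩ (u, false) (if V.cb u then 2 else 1) +
          Geo.hh (V := V) ⟨x, H, W⟩ (u, true) (if V.cb u then 2 else 1)) := by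
      intro u
      rw [hH u, Fin.sum_univ_three, add_assoc]
      rfl
    have h2 : ∀ F k, Geo.ww (V := V) ⟨y, H, W⟩ F k =
        ω (V.bt (V.ed F k)) / y ^ (V.off (V.ed F k) - V.o F k) := by
      intro F k
      rw [pow_sub₀ _ y0.ne' (Nat.le_of_succ_le (hle F k))]
      simp only [Geo.ww, W]
      field_simp
    have h3 : ∀ u, V2_wb (V := V) ⟨y, H, W⟩ u = W u +
        (Geo.ww (V := V) ⟨y, H, W⟩ (u, false) (if V.red u then 2 else 1) +
          Geo.ww (V := V) ⟨y, H, W⟩ (u, true) (if V.red u then 2 else 1)) := by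
      intro u
      have h4 : V2_wb (V := V) ⟨y, H, W⟩ u = ω u := by
        simp only [V2_wb, W, Equiv.Perm.coe_inv, Equiv.apply_symm_apply]
        exact div_mul_cancel₀ _ (pow_pos y0 _).ne'
      rw [h4, hω u, Fin.sum_univ_three, add_assoc, h2, h2]
      rfl
    have h4 : y = x := V2_same A ⟨x, H, W⟩ ⟨y, H, W⟩ hx hy pH pW h1 h3
    subst h4
    exact ⟨⟨y, H, W⟩, ⟨hx, pH, pW, V2_eqH A _ hx h1, V2_eqW A _ hx h3⟩, hH⟩

end Veer
end Pool.Agent.Work.MP_563a32_gt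
end

-- merged part: Pool.Agent.Work.MP_563a32_gt.V3
section
/-! The flat triangulation of the section.

Plan. `tile_ex`: induction on `r`, starting at `((τ, s), 0)` and moving to `nx` when
`r + 1 = o + w` (possible as `r + 1 < off`, by `last`). `tile_uniq`: `nx` is injective on the darts
with `k + sh F ≠ 0`; by strong induction on `o F k + o F' k'` and `pred`, two darts with the same
`ed`, `sd` and with `o F k ≤ o F' k' < o F k + w F` are equal (if `k' ≠ 0` its predecessor ends at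
`o F' k'`; compare it with `(F, k)` or with the predecessor of `(F, k)`; a convenient route is to
show that every dart is an iterate of `nx` from `((ed, sd), 0)`). `side_vec`: three cases, with
`eqH`, `eqW`, `col_one`, `col_two`. `area_top`: `H > hh`, and `ww F 1 > W` in the red case.
`bot_vertex`: compare the vectors of the two sides with `k + sh F ≠ 0` through `step` and
`side_vec` for `F` and for `nx F k`; the third vertex follows. `exists_sec`: `opp` by `tile_ex`,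
involutive by `tile_uniq`; both darts carry `± diag (x ^ (o + n + 1))⁻¹ (dg (ed))`; two sides of one
triangle are not parallel, so `opp d` lies in another triangle. -/

namespace Pool.Agent.Work.MP_563a32_gt
namespace Veer
open Finset

variable {U Cu : Type} {V : Veer U Cu}

theorem V3_o_pos (A : V.Ax) (F : U × Bool) {k : Fin 3} (hk : k ≠ 0) : 1 ≤ V.o F k := by
  obtain ⟨F', k', h1, h2⟩ := A.pred F k hk
  have h3 := (A.step F' k' h1).2.2
  rw [h2] at h3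
  have := A.w_pos F'
  dsimp only at h3
  omega

theorem V3_uniq (A : V.Ax) (N : ℕ) : ∀ (F : U × Bool) (k : Fin 3) (F' : U × Bool) (k' : Fin 3)
    (r : ℕ), V.o F k + V.o F' k' = N → V.ed F k = V.ed F' k' → V.sd F k = V.sd F' k' →
    V.o F k ≤ r → r < V.o F k + V.w F → V.o F' k' ≤ r → r < V.o F' k' + V.w F' →
    (F, k) = (F', k') := by
  induction N using Nat.strong_induction_on with
  | _ N ih =>
    intro F k F' k' r hN he hs h1 h2 h3 h4
    wlog hle : V.o F k ≤ V.o F' k' generalizing F k F' k'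
    · exact (this F' k' F k (by omega) he.symm hs.symm h3 h4 h1 h2 (by omega)).symm
    by_cases hk' : k' = 0
    · subst hk'
      have h5 := A.o_zero F'
      have hk : k = 0 := by
        by_contra hk
        have := V3_o_pos A F hk
        omega
      subst hk
      rw [A.ed_zero, A.ed_zero] at he
      rw [A.sd_zero, A.sd_zero] at hs
      rw [Prod.ext he hs]
    · obtain ⟨F2, k2, a2, e2⟩ := A.pred F' k' hk'
      have s2 := A.step F2 k2 a2
      rw [e2] at s2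
      dsimp only at s2
      have w2 := A.w_pos F2
      by_cases heq : V.o F k = V.o F' k'
      · have hk : k ≠ 0 := by
          rintro rfl
          have := A.o_zero F
          omega
        obtain ⟨F1, k1, a1, e1⟩ := A.pred F k hk
        have s1 := A.step F1 k1 a1
        rw [e1] at s1
        dsimp only at s1
        have w1 := A.w_pos F1
        have := ih (V.o F1 k1 + V.o F2 k2) (by omega) F1 k1 F2 k2 (V.o F' k' - 1) rfl
          (s1.1.symm.trans (he.trans s2.1)) (s1.2.1.symm.trans (hs.trans s2.2.1)) (by omega)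
          (by omega) (by omega) (by omega)
        cases this
        exact e1.symm.trans e2
      · have := ih (V.o F k + V.o F2 k2) (by omega) F k F2 k2 (V.o F' k' - 1) rfl
          (he.trans s2.1) (hs.trans s2.2.1) (by omega) (by omega) (by omega) (by omega)
        cases this
        omega

theorem V3_add (μ : ℝ) (a b : ℂ) : diag μ (a + b) = diag μ a + diag μ b := by
  apply Complex.ext <;> simp [diag] <;> ring

theorem V3_sub (μ : ℝ) (a b : ℂ) : diag μ (a - b) = diag μ a - diag μ b := by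
  apply Complex.ext <;> simp [diag] <;> ring

theorem V3_zero (μ : ℝ) : diag μ 0 = 0 := by
  apply Complex.ext <;> simp [diag]

theorem V3_sgn (μ : ℝ) (c : Prop) [Decidable c] (a : ℂ) :
    diag μ ((if c then -1 else 1) * a) = (if c then -1 else 1) * diag μ a := by
  split_ifs
  · apply Complex.ext <;> simp [diag]
    ring
  · simp

theorem V3_pow (x : ℝ) (m n : ℕ) (a : ℂ) :
    diag (x ^ m)⁻¹ (diag (x ^ n)⁻¹ a) = diag (x ^ (n + m))⁻¹ a := by
  apply Complex.ext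
  · simp only [diag, div_inv_eq_mul, pow_add, mul_assoc]
  · simp [diag, pow_add, mul_assoc]

/-- the upward vector of the side `k` of the face `F` -/
noncomputable def V3_E (G : V.Geo) (F : U × Bool) (k : Fin 3) : ℂ :=
  diag (G.x ^ V.o F k)⁻¹ (G.dg (V.ed F k))

theorem V3_E0 (A : V.Ax) (G : V.Geo) (F : U × Bool) : V3_E G F 0 = G.dg F.1 := by
  rw [V3_E, A.o_zero, A.ed_zero]
  apply Complex.ext <;> simp [diag]

theorem V3_E1 (A : V.Ax) (G : V.Geo) (F : U × Bool) : V3_E G F 1 = ⟨G.ww F 1, G.hh F 1⟩ := by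
  apply Complex.ext <;> simp [V3_E, diag, Geo.dg, A.col_one, Geo.ww, Geo.hh]
  ring

theorem V3_E2 (A : V.Ax) (G : V.Geo) (F : U × Bool) : V3_E G F 2 = ⟨-G.ww F 2, G.hh F 2⟩ := by
  apply Complex.ext <;> simp [V3_E, diag, Geo.dg, A.col_two, Geo.ww, Geo.hh]
  ring

theorem V3_dg (A : V.Ax) {G : V.Geo} (hG : G.Ok) (F : U × Bool) :
    G.dg F.1 = V3_E G F 1 + V3_E G F 2 := by
  rw [V3_E1 A, V3_E2 A]
  have h1 := hG.eqH F
  have h2 := hG.eqW F
  apply Complex.ext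
  · simp only [Geo.dg, Complex.add_re]
    split_ifs at h2 ⊢ <;> linarith
  · simpa [Geo.dg] using h1

theorem V3_top (A : V.Ax) {G : V.Geo} (hG : G.Ok) (F : U × Bool) (k : Fin 3) :
    G.Q F.1 (topV F.2 k) = (if F.2 then ![V3_E G F 1 + V3_E G F 2, 0, V3_E G F 1]
      else ![0, V3_E G F 1 + V3_E G F 2, V3_E G F 2]) k := by
  have h1 := V3_dg A hG F
  have h2 := V3_E1 A G F
  obtain ⟨u, s⟩ := F
  dsimp only at h1
  cases s <;> fin_cases k <;> simp [topV, Geo.Q, ← h2, h1]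

theorem V3_bot (A : V.Ax) {G : V.Geo} (hG : G.Ok) (F : U × Bool) (k : Fin 3) :
    G.Q F.1 (botV F.2 k) = (if F.2 then ![V3_E G F 1, V3_E G (F.1, !F.2) 2, 0]
      else ![G.dg F.1 - V3_E G F 1, G.dg F.1 - V3_E G (F.1, !F.2) 2, G.dg F.1]) k := by
  obtain ⟨u, s⟩ := F
  have h1 := V3_dg A hG (u, false)
  have h2 := V3_dg A hG (u, true)
  have h3 := V3_E1 A G (u, false)
  have h4 := V3_E1 A G (u, true)
  cases s <;> fin_cases k <;> simp [botV, Geo.Q, ← h3, ← h4]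
  · exact eq_sub_iff_add_eq.2 h2.symm
  · exact sub_eq_iff_eq_add'.2 h1

theorem V3_nx (A : V.Ax) (G : V.Geo) {F : U × Bool} {k : Fin 3} (h : k + V.sh F ≠ 0) :
    V3_E G (V.nx F k).1 (V.nx F k).2 = diag (G.x ^ V.w F)⁻¹ (V3_E G F k) := by
  obtain ⟨h1, -, h2⟩ := A.step F k h
  rw [V3_E, V3_E, h1, h2, V3_pow]

theorem V3_hh {G : V.Geo} (hG : G.Ok) (F : U × Bool) (k : Fin 3) : 0 < G.hh F k :=
  div_pos (hG.H_pos _) (pow_pos (zero_lt_one.trans hG.one_lt) _)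

theorem V3_ww {G : V.Geo} (hG : G.Ok) (F : U × Bool) (k : Fin 3) : 0 < G.ww F k :=
  mul_pos (hG.W_pos _) (pow_pos (zero_lt_one.trans hG.one_lt) _)

theorem Ax.tile_ex (A : V.Ax) (τ : U) (s : Bool) {r : ℕ} (hr : r < V.off τ) :
    ∃ F k, V.ed F k = τ ∧ V.sd F k = s ∧ V.o F k ≤ r ∧ r < V.o F k + V.w F := by
  induction r with
  | zero =>
    refine ⟨(τ, s), 0, A.ed_zero _, A.sd_zero _, (A.o_zero _).le, ?_⟩
    have := A.w_pos (τ, s)
    omega
  | succ r ih =>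
    obtain ⟨F, k, h1, h2, h3, h4⟩ := ih (by omega)
    by_cases h : r + 1 < V.o F k + V.w F
    · exact ⟨F, k, h1, h2, by omega, h⟩
    · have h5 : k + V.sh F ≠ 0 := fun e => by
        have := (A.last F k e).2
        rw [h1] at this
        omega
      obtain ⟨a1, a2, a3⟩ := A.step F k h5
      have := A.w_pos (V.nx F k).1
      exact ⟨_, _, a1.trans h1, a2.trans h2, by omega, by omega⟩

theorem Ax.tile_uniq (A : V.Ax) {F F' : U × Bool} {k k' : Fin 3} {n n' : ℕ}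
    (he : V.ed F k = V.ed F' k') (hs : V.sd F k = V.sd F' k') (hn : n < V.w F)
    (hn' : n' < V.w F') (h : V.o F k + n = V.o F' k' + n') : F = F' ∧ k = k' := by
  exact Prod.mk.inj (V3_uniq A _ F k F' k' (V.o F k + n) rfl he hs (by omega) (by omega) (by omega)
    (by omega))

theorem Ax.side_vec (A : V.Ax) {G : V.Geo} (hG : G.Ok) (F : U × Bool) (k : Fin 3) :
    G.Q F.1 (topV F.2 (k + 1)) - G.Q F.1 (topV F.2 k) =
      (if (F.2 == decide (k = 0)) then -1 else 1) * diag (G.x ^ V.o F k)⁻¹ (G.dg (V.ed F k)) := by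
  rw [V3_top A hG, V3_top A hG]
  change _ = _ * V3_E G F k
  have h0 := (V3_E0 A G F).trans (V3_dg A hG F)
  obtain ⟨u, s⟩ := F
  cases s <;> fin_cases k <;> simp [h0]

theorem Ax.area_top (A : V.Ax) {G : V.Geo} (hG : G.Ok) (F : U × Bool) :
    0 < area fun k => G.Q F.1 (topV F.2 k) := by
  have h1 := V3_hh hG F 1
  have h2 := V3_hh hG F 2
  have h3 := V3_ww hG F 1
  have h4 := V3_ww hG F 2
  simp only [area, V3_top A hG, V3_E1 A, V3_E2 A]
  obtain ⟨u, s⟩ := F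
  cases s <;> simp [cross] <;> nlinarith [mul_pos h1 h4, mul_pos h2 h3]

theorem Ax.bot_vertex (A : V.Ax) {G : V.Geo} (hG : G.Ok) (F : U × Bool) (k : Fin 3) :
    G.bot F (diag (G.x ^ V.w F)⁻¹ (G.Q F.1 (topV F.2 k))) = G.Q (V.hi F k).1 (V.hi F k).2 := by
  have h0 := congrArg (diag (G.x ^ V.w F)⁻¹) ((V3_E0 A G F).trans (V3_dg A hG F))
  rw [V3_add] at h0
  have n0 := V3_nx A G (F := F) (k := 0)
  have n1 := V3_nx A G (F := F) (k := 1)
  have n2 := V3_nx A G (F := F) (k := 2)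
  simp only [Geo.bot, hi, V3_top A hG, V3_bot A hG, eps]
  simp only [nx, sh] at n0 n1 n2 ⊢
  generalize V.up F = F' at *
  obtain ⟨u, s⟩ := F
  obtain ⟨u', s'⟩ := F'
  dsimp only at *
  cases hc : V.red u
  · have m0 := n0 (by rw [hc]; decide)
    have m1 := n1 (by rw [hc]; decide)
    simp [hc] at m0 m1
    cases s <;> cases s' <;> fin_cases k <;> simp at m0 <;>
      simp [V3_add, V3_zero, m0, m1, h0] <;> ring
  · have m0 := n0 (by rw [hc]; decide)
    have m2 := n2 (by rw [hc]; decide)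
    simp [hc] at m0 m2
    cases s <;> cases s' <;> fin_cases k <;> simp at m2 <;>
      simp [V3_add, V3_zero, m0, m2, h0] <;> ring

theorem V3_opp_ex (A : V.Ax) (d : V.Tr × Fin 3) : ∃ d', V.IsOpp d d' := by
  obtain ⟨⟨F, n⟩, k⟩ := d
  have h0 := A.o_le F k
  have h1 := n.2
  obtain ⟨F', k', a1, a2, a3, a4⟩ := A.tile_ex (V.ed F k) (!V.sd F k) (r := V.o F k + n) (by omega)
  refine ⟨(⟨F', ⟨V.o F k + n - V.o F' k', by omega⟩⟩, k'), a1, a2, ?_⟩
  dsimp only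
  omega

theorem V3_opp_uniq (A : V.Ax) {d d' d'' : V.Tr × Fin 3} (h : V.IsOpp d d') (h' : V.IsOpp d d'') :
    d' = d'' := by
  obtain ⟨⟨F, n⟩, k⟩ := d'
  obtain ⟨⟨F', n'⟩, k'⟩ := d''
  have e := h.2.2.trans h'.2.2.symm
  obtain ⟨rfl, rfl⟩ := A.tile_uniq (h.1.trans h'.1.symm) (h.2.1.trans h'.2.1.symm) n.2 n'.2 e
  have : n = n' := Fin.ext (Nat.add_left_cancel e)
  rw [this]

theorem V3_opp_symm {d d' : V.Tr × Fin 3} (h : V.IsOpp d d') : V.IsOpp d' d :=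
  ⟨h.1.symm, by rw [h.2.1, Bool.not_not], h.2.2.symm⟩

theorem V3_opp_ne (A : V.Ax) {d d' : V.Tr × Fin 3} (h : V.IsOpp d d') : d'.1 ≠ d.1 := by
  obtain ⟨t, k⟩ := d
  obtain ⟨t', k'⟩ := d'
  rintro (rfl : t' = t)
  obtain ⟨h1, h2, h3⟩ := h
  dsimp only at h1 h2 h3
  have h4 := Nat.add_right_cancel h3
  have a0 := A.o_zero t'.1
  have a1 := V3_o_pos A t'.1 (k := 1) (by decide)
  have a2 := V3_o_pos A t'.1 (k := 2) (by decide)
  have c1 := A.col_one t'.1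
  have c2 := A.col_two t'.1
  have hk : ∀ j : Fin 3, j = 0 ∨ j = 1 ∨ j = 2 := by decide
  rcases hk k with rfl | rfl | rfl <;> rcases hk k' with rfl | rfl | rfl <;>
    first
    | omega
    | (rw [h1, c1] at c2; exact Bool.noConfusion c2)
    | (rw [h1, c2] at c1; exact Bool.noConfusion c1)
    | simp at h2

theorem V3_pos (A : V.Ax) {G : V.Geo} (hG : G.Ok) (t : V.Tr) (k : Fin 3) :
    G.pos t (k + 1) - G.pos t k = (if (t.1.2 == decide (k = 0)) then -1 else 1) *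
      diag (G.x ^ (V.o t.1 k + t.2 + 1))⁻¹ (G.dg (V.ed t.1 k)) := by
  rw [Geo.pos, Geo.pos, ← V3_sub, A.side_vec hG, V3_sgn, V3_pow, add_assoc]

theorem Ax.exists_sec (A : V.Ax) {G : V.Geo} (hG : G.Ok) :
    ∃ Δ : FlatTri V.Tr, G.IsSec Δ ∧ ∀ d : V.Tr × Fin 3, Δ.Mid d ↔ d.2 = 2 := by
  choose opp hopp using V3_opp_ex A
  have hx : ∀ n : ℕ, 0 < (G.x ^ n)⁻¹ := fun n => inv_pos.2 (pow_pos (zero_lt_one.trans hG.one_lt) _)
  refine ⟨⟨G.pos, opp, fun d => -((if ((opp d).1.1.2 == decide ((opp d).2 = 0)) then -1 else 1) *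
    (if (d.1.1.2 == decide (d.2 = 0)) then -1 else 1)),
    fun d => V3_opp_uniq A (hopp _) (V3_opp_symm (hopp d)), fun d => V3_opp_ne A (hopp d),
    fun d => ?_, fun t => ?_, fun d => ?_, fun t k => ?_⟩, ⟨rfl, hopp⟩, fun d => ?_⟩
  · split_ifs <;> simp
  · have h := area_aff (c := 0) (Or.inl rfl) (hx ((t.2 : ℕ) + 1)) fun k => G.Q t.1.1 (topV t.1.2 k)
    simp only [one_mul, add_zero] at h
    exact (A.area_top hG t.1).trans_eq h.symm
  · rw [← neg_sub, V3_pos A hG, V3_pos A hG, (hopp d).1, (hopp d).2.2]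
    split_ifs <;> ring
  · rw [V3_pos A hG]
    have := mul_pos (hx (V.o t.1 k + t.2 + 1)) (hG.H_pos (V.ed t.1 k))
    split_ifs
    · simpa [diag, Geo.dg] using this.ne'
    · simpa [diag, Geo.dg] using this.ne'
  · obtain ⟨⟨F, n⟩, k⟩ := d
    have h1 := mul_pos (hx ((n : ℕ) + 1)) (V3_hh hG F 1)
    have h2 := mul_pos (hx ((n : ℕ) + 1)) (V3_hh hG F 2)
    have h3 := mul_pos h1 h1
    have h4 := mul_pos h1 h2
    have h5 := mul_pos h2 h2
    simp only [FlatTri.Mid, Geo.pos, V3_top A hG, V3_E1 A, V3_E2 A, diag]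
    generalize (G.x ^ ((n : ℕ) + 1))⁻¹ = μ at *
    cases F.2 <;> fin_cases k <;> simp <;> nlinarith

end Veer
end Pool.Agent.Work.MP_563a32_gt
end

-- merged part: Pool.Agent.Work.MP_563a32_gt.V4
section
/-! The map of the section: shift and flips.

Plan. Cells `C = (U × Bool) × ℕ ⊕ U`. First arrangement `K` (`μ = x`, `ε = 1`, `c = 0`): `⟨F, n⟩`
lies in `inl (F, n)` if `n > 0` and in `inr F.1` if `n = 0`; inner darts have `n = 0`, `k = 0`.
Second arrangement `K'` (`μ = 1`): `⟨F, n⟩` lies in `inl (F, n + 1)` with the identity if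
`n + 1 < w F`, and in `inr (up F).1` with `bot F` if `n + 1 = w F`; inner darts have
`n + 1 = w F`, `k + sh F = 0`. Identify `opp` of a dart with `tile_uniq`: for an inner dart of `K`
it is `(⟨(u, !s), 0⟩, 0)`; for an inner dart of `K'` it is the last dart of the other side, whose
face is `up⁻¹ (u, !s)` (`last`, `o_le`, `step`). Overlaps and covers come from `overlap`, `quad`,
`area_top`, `bot_vertex`, `triS_shift`, `mem_triS_aff`. For an outer dart `d = (⟨F, n⟩, k)` of `K`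
take `d' = (⟨F, n - 1⟩, k)` if `n > 0` and the oldest copy of the predecessor (`pred`) if `n = 0`;
in both cases `d'` is the dart with the same `ed`, `sd` and with `o + n` one less, and it occupies
the same segment of the same cell; so the same holds for the opposite darts. Conversely for `K'`.
`pieces`: the finite set consists of `(1, 0)` and of the inverses of the maps `bot F'`. -/

namespace Pool.Agent.Work.MP_563a32_gt
namespace Veer
open Finset

section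
variable {T C : Type} {Δ : FlatTri T} (K : Δ.Cut C)

theorem V4_mem (t : T) (z : ℂ) :
    K.A t z ∈ triS (fun k => K.A t (Δ.pos t k)) ↔ z ∈ Δ.tri t :=
  mem_triS_aff (K.ε_pm t) K.μ_pos _ _

theorem V4_area (t : T) : 0 < area fun k => K.A t (Δ.pos t k) :=
  (Δ.area_pos t).trans_eq (area_aff (K.ε_pm t) K.μ_pos _).symm

theorem V4_sur (t : T) {w : ℂ} (h : w ∈ triS fun k => K.A t (Δ.pos t k)) :
    ∃ z ∈ Δ.tri t, K.A t z = w := by
  obtain ⟨z, rfl⟩ := (FlatTri.T8_bij K t).2 w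
  exact ⟨z, (V4_mem K t z).1 h, rfl⟩

theorem V4_seg {d : T × Fin 3} {z : ℂ}
    (h : K.A d.1 z ∈ segment ℝ (K.A d.1 (Δ.st d)) (K.A d.1 (Δ.en d))) : z ∈ Δ.edge d := by
  rw [segment_eq_image'] at h
  obtain ⟨θ, hθ, e⟩ := h
  exact FlatTri.T8_edge.2 ⟨θ, hθ, (FlatTri.T8_bij K d.1).1 ((FlatTri.T8_line K _ _ _ _).trans e)⟩

end

section
variable {q : Fin 4 → ℂ} {z : ℂ}

theorem V4_top0 (q : Fin 4 → ℂ) : (fun k => q (topV false k)) = ![q 1, q 3, q 0] :=
  funext (T1_all.2 ⟨rfl, rfl, rfl⟩)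

theorem V4_top1 (q : Fin 4 → ℂ) : (fun k => q (topV true k)) = ![q 3, q 1, q 2] :=
  funext (T1_all.2 ⟨rfl, rfl, rfl⟩)

theorem V4_bot0 (q : Fin 4 → ℂ) : (fun k => q (botV false k)) = ![q 0, q 2, q 3] :=
  funext (T1_all.2 ⟨rfl, rfl, rfl⟩)

theorem V4_bot1 (q : Fin 4 → ℂ) : (fun k => q (botV true k)) = ![q 2, q 0, q 1] :=
  funext (T1_all.2 ⟨rfl, rfl, rfl⟩)

theorem V4_ovT {s : Bool} (h : 0 < area fun k => q (topV s k))
    (h1 : z ∈ triS fun k => q (topV s k)) (h2 : z ∈ triS fun k => q (topV (!s) k)) :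
    z ∈ segment ℝ (q (topV s 0)) (q (topV s 1)) := by
  cases s
  · rw [Bool.not_false, V4_top1] at h2
    rw [V4_top0] at h h1
    exact overlap h h1 h2
  · rw [Bool.not_true, V4_top0] at h2
    rw [V4_top1] at h h1
    exact overlap h h1 h2

theorem V4_ovB {s : Bool} (h : 0 < area fun k => q (botV s k))
    (h1 : z ∈ triS fun k => q (botV s k)) (h2 : z ∈ triS fun k => q (botV (!s) k)) :
    z ∈ segment ℝ (q (botV s 0)) (q (botV s 1)) := by
  cases s
  · rw [Bool.not_false, V4_bot1] at h2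
    rw [V4_bot0] at h h1
    exact overlap h h1 h2
  · rw [Bool.not_true, V4_bot0] at h2
    rw [V4_bot1] at h h1
    exact overlap h h1 h2

theorem V4_quad (hT : ∀ s, 0 < area fun k => q (topV s k))
    (hB : ∀ s, 0 < area fun k => q (botV s k)) :
    (∃ s, z ∈ triS fun k => q (topV s k)) ↔ ∃ s, z ∈ triS fun k => q (botV s k) := by
  have t0 := hT false
  have t1 := hT true
  have b0 := hB false
  have b1 := hB true
  rw [Bool.exists_bool, Bool.exists_bool]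
  rw [V4_top0] at t0 ⊢
  rw [V4_top1] at t1 ⊢
  rw [V4_bot0] at b0 ⊢
  rw [V4_bot1] at b1 ⊢
  exact ⟨fun h => h.elim (quad t0 t1 b0 b1) fun h => (quad t1 t0 b1 b0 h).symm,
    fun h => h.elim (fun h => (quad b0 b1 t1 t0 h).symm) (quad b1 b0 t0 t1)⟩

end

section
variable {U Cu : Type} {V : Veer U Cu}

theorem V4_eps (F : U × Bool) : V.eps F = 1 ∨ V.eps F = -1 := by
  unfold eps
  split_ifs
  · exact Or.inr rfl
  · exact Or.inl rfl

theorem V4_ext {t t' : V.Tr} (h1 : t.1 = t'.1) (h2 : (t.2 : ℕ) = t'.2) : t = t' := by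
  obtain ⟨F, n⟩ := t
  obtain ⟨F', n'⟩ := t'
  obtain rfl : F = F' := h1
  obtain rfl : n = n' := Fin.ext h2
  rfl

theorem V4_pair {F F' : U × Bool} (h1 : F'.1 = F.1) (h2 : F' ≠ F) : F' = (F.1, !F.2) := by
  obtain ⟨u, s⟩ := F
  obtain ⟨u', s'⟩ := F'
  obtain rfl : u' = u := h1
  cases s <;> cases s' <;> first | rfl | exact absurd rfl h2

/-- the level of a dart along its edge -/
def V4_lev (d : V.Tr × Fin 3) : ℕ := V.o d.1.1 d.2 + d.1.2

theorem Ax.V4_uniq (A : V.Ax) {d d' : V.Tr × Fin 3} (he : V.ed d.1.1 d.2 = V.ed d'.1.1 d'.2)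
    (hs : V.sd d.1.1 d.2 = V.sd d'.1.1 d'.2) (h : V4_lev d = V4_lev d') : d = d' := by
  obtain ⟨h1, h2⟩ := A.tile_uniq he hs d.1.2.2 d'.1.2.2 h
  refine Prod.ext (V4_ext h1 ?_) h2
  have h3 : V.o d.1.1 d.2 = V.o d'.1.1 d'.2 := by rw [h1, h2]
  unfold V4_lev at h
  omega

theorem Ax.V4_ex (A : V.Ax) (τ : U) (s : Bool) {r : ℕ} (hr : r < V.off τ) :
    ∃ d : V.Tr × Fin 3, V.ed d.1.1 d.2 = τ ∧ V.sd d.1.1 d.2 = s ∧ V4_lev d = r := by
  obtain ⟨F, k, h1, h2, h3, h4⟩ := A.tile_ex τ s hr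
  exact ⟨(⟨F, ⟨r - V.o F k, by omega⟩⟩, k), h1, h2, Nat.add_sub_cancel' h3⟩

theorem Ax.V4_lt (A : V.Ax) (d : V.Tr × Fin 3) : V4_lev d < V.off (V.ed d.1.1 d.2) := by
  have h1 := A.o_le d.1.1 d.2
  have h2 := d.1.2.2
  unfold V4_lev
  omega

/-- the youngest copy of a face -/
def Ax.V4_fst (A : V.Ax) (F : U × Bool) : V.Tr := ⟨F, ⟨0, A.w_pos F⟩⟩

/-- the oldest copy of a face -/
def Ax.V4_lst (A : V.Ax) (F : U × Bool) : V.Tr := ⟨F, ⟨V.w F - 1, Nat.sub_lt (A.w_pos F) one_pos⟩⟩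

theorem Ax.V4_zero (A : V.Ax) {d : V.Tr × Fin 3} (h : V4_lev d = 0) :
    d = (A.V4_fst (V.ed d.1.1 d.2, V.sd d.1.1 d.2), 0) :=
  A.V4_uniq (A.ed_zero (_, _)).symm (A.sd_zero (_, _)).symm (h.trans (A.o_zero _).symm)

theorem Ax.V4_last (A : V.Ax) {d : V.Tr × Fin 3} (h : V4_lev d + 1 = V.off (V.ed d.1.1 d.2)) :
    (d.1.2 : ℕ) + 1 = V.w d.1.1 ∧ d.2 + V.sh d.1.1 = 0 := by
  have h1 := A.o_le d.1.1 d.2
  have h2 := d.1.2.2
  unfold V4_lev at h
  refine ⟨by omega, by_contra fun hk => ?_⟩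
  obtain ⟨s1, -, s3⟩ := A.step d.1.1 d.2 hk
  have h3 := A.o_le (V.nx d.1.1 d.2).1 (V.nx d.1.1 d.2).2
  have h4 := A.w_pos (V.nx d.1.1 d.2).1
  rw [s1, s3] at h3
  omega

theorem V4_nx {F : U × Bool} {k : Fin 3} (h : k + V.sh F ≠ 0) :
    (V.nx F k).1.1 = (V.up F).1 ∧ topV (V.nx F k).1.2 (V.nx F k).2 = botV (V.up F).2 (k + V.sh F) ∧
      topV (V.nx F k).1.2 ((V.nx F k).2 + 1) = botV (V.up F).2 (k + 1 + V.sh F) := by
  rw [add_right_comm]
  unfold nx
  generalize k + V.sh F = j at h ⊢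
  generalize V.up F = p
  obtain ⟨u, s⟩ := p
  revert j
  rw [T1_all]
  refine ⟨fun h => absurd rfl h, fun _ => ?_, fun _ => ?_⟩
  · rw [if_pos rfl]
    cases s <;> exact ⟨rfl, rfl, rfl⟩
  · rw [if_neg (by decide)]
    cases s <;> exact ⟨rfl, rfl, rfl⟩

variable {G : V.Geo}

/-- the first arrangement -/
noncomputable def V4_K (hG : G.Ok) (Δ : FlatTri V.Tr) : Δ.Cut ((U × Bool) × ℕ ⊕ U) where
  cell t := if (t.2 : ℕ) = 0 then Sum.inr t.1.1 else Sum.inl (t.1, t.2)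
  μ := G.x
  ε _ := 1
  c _ := 0
  Inner d := (d.1.2 : ℕ) = 0 ∧ d.2 = 0
  μ_pos := one_pos.trans hG.one_lt
  ε_pm _ := Or.inl rfl

/-- the second arrangement -/
noncomputable def V4_L (G : V.Geo) (Δ : FlatTri V.Tr) : Δ.Cut ((U × Bool) × ℕ ⊕ U) where
  cell t := if (t.2 : ℕ) + 1 = V.w t.1 then Sum.inr (V.up t.1).1 else Sum.inl (t.1, t.2 + 1)
  μ := 1
  ε t := if (t.2 : ℕ) + 1 = V.w t.1 then V.eps t.1 else 1
  c t := if (t.2 : ℕ) + 1 = V.w t.1 then G.bot t.1 0 else 0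
  Inner d := (d.1.2 : ℕ) + 1 = V.w d.1.1 ∧ d.2 + V.sh d.1.1 = 0
  μ_pos := one_pos
  ε_pm t := by
    split_ifs
    · exact V4_eps _
    · exact Or.inl rfl

variable {Δ : FlatTri V.Tr} {t t' : V.Tr}

theorem V4_KA (hG : G.Ok) (t : V.Tr) (z : ℂ) : (V4_K hG Δ).A t z = diag G.x z := by
  change 1 * diag G.x z + 0 = _
  rw [one_mul, add_zero]

theorem V4_LA (h : (t.2 : ℕ) + 1 = V.w t.1) (z : ℂ) : (V4_L G Δ).A t z = G.bot t.1 z := by
  change (if (t.2 : ℕ) + 1 = V.w t.1 then V.eps t.1 else 1) * diag 1 z +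
    (if (t.2 : ℕ) + 1 = V.w t.1 then G.bot t.1 0 else 0) = _
  rw [if_pos h, if_pos h, diag_one, Geo.bot, Geo.bot]
  ring

theorem V4_LA' (h : (t.2 : ℕ) + 1 ≠ V.w t.1) (z : ℂ) : (V4_L G Δ).A t z = z := by
  change (if (t.2 : ℕ) + 1 = V.w t.1 then V.eps t.1 else 1) * diag 1 z +
    (if (t.2 : ℕ) + 1 = V.w t.1 then G.bot t.1 0 else 0) = _
  rw [if_neg h, if_neg h, diag_one, one_mul, add_zero]

theorem V4_Kc (hG : G.Ok) (h : (t.2 : ℕ) = 0) : (V4_K hG Δ).cell t = Sum.inr t.1.1 := if_pos h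

theorem V4_Kc' (hG : G.Ok) (h : (t.2 : ℕ) ≠ 0) :
    (V4_K hG Δ).cell t = Sum.inl (t.1, (t.2 : ℕ)) := if_neg h

theorem V4_Lc (h : (t.2 : ℕ) + 1 = V.w t.1) : (V4_L G Δ).cell t = Sum.inr (V.up t.1).1 := if_pos h

theorem V4_Lc' (h : (t.2 : ℕ) + 1 ≠ V.w t.1) :
    (V4_L G Δ).cell t = Sum.inl (t.1, (t.2 : ℕ) + 1) := if_neg h

theorem V4_Kp (hG : G.Ok) (hΔ : G.IsSec Δ) (t : V.Tr) (k : Fin 3) :
    (V4_K hG Δ).A t (Δ.pos t k) = diag (G.x ^ (t.2 : ℕ))⁻¹ (G.Q t.1.1 (topV t.1.2 k)) := by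
  have hx := (one_pos.trans hG.one_lt).ne'
  rw [V4_KA, hΔ.1, Geo.pos, diag_mul, pow_succ, mul_inv, mul_left_comm, mul_inv_cancel₀ hx, mul_one]

theorem V4_Kp0 (hG : G.Ok) (hΔ : G.IsSec Δ) (h : (t.2 : ℕ) = 0) (k : Fin 3) :
    (V4_K hG Δ).A t (Δ.pos t k) = G.Q t.1.1 (topV t.1.2 k) := by
  rw [V4_Kp hG hΔ, h, pow_zero, inv_one, diag_one]

theorem Ax.V4_Lp (A : V.Ax) (hG : G.Ok) (hΔ : G.IsSec Δ) (h : (t.2 : ℕ) + 1 = V.w t.1)
    (k : Fin 3) :
    (V4_L G Δ).A t (Δ.pos t k) = G.Q (V.up t.1).1 (botV (V.up t.1).2 (k + V.sh t.1)) := by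
  rw [V4_LA h, hΔ.1, Geo.pos, h]
  exact A.bot_vertex hG t.1 k

theorem V4_shift (hG : G.Ok) (hΔ : G.IsSec Δ) (h1 : t'.1 = t.1) (h2 : (t'.2 : ℕ) + 1 = t.2) :
    (t'.2 : ℕ) + 1 ≠ V.w t'.1 ∧ (V4_L G Δ).cell t' = (V4_K hG Δ).cell t ∧
      ∀ k, (V4_L G Δ).A t' (Δ.pos t' k) = (V4_K hG Δ).A t (Δ.pos t k) := by
  have h3 : (t'.2 : ℕ) + 1 ≠ V.w t'.1 := by
    rw [h2, h1]
    exact t.2.2.ne
  refine ⟨h3, ?_, fun k => ?_⟩
  · rw [V4_Lc' h3, V4_Kc' hG (by omega), h2, h1]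
  · rw [V4_LA' h3, V4_Kp hG hΔ, hΔ.1, Geo.pos, h2, h1]

theorem Ax.V4_match (A : V.Ax) (hG : G.Ok) (hΔ : G.IsSec Δ) {d d' : V.Tr × Fin 3}
    (he : V.ed d'.1.1 d'.2 = V.ed d.1.1 d.2) (hs : V.sd d'.1.1 d'.2 = V.sd d.1.1 d.2)
    (h : V4_lev d' + 1 = V4_lev d) :
    (V4_L G Δ).cell d'.1 = (V4_K hG Δ).cell d.1 ∧
      (V4_L G Δ).A d'.1 (Δ.st d') = (V4_K hG Δ).A d.1 (Δ.st d) ∧
      (V4_L G Δ).A d'.1 (Δ.en d') = (V4_K hG Δ).A d.1 (Δ.en d) := by
  by_cases h1 : (d'.1.2 : ℕ) + 1 = V.w d'.1.1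
  · have h2 : d'.2 + V.sh d'.1.1 ≠ 0 := fun e => by
      have h3 := (A.last _ _ e).2
      have h4 := A.V4_lt d
      rw [he] at h3
      unfold V4_lev at h h4
      omega
    obtain ⟨s1, s2, s3⟩ := A.step _ _ h2
    obtain ⟨n1, n2, n3⟩ := V4_nx h2
    obtain rfl : (A.V4_fst (V.nx d'.1.1 d'.2).1, (V.nx d'.1.1 d'.2).2) = d := by
      refine A.V4_uniq (s1.trans he) (s2.trans hs) ?_
      rw [← h]
      change V.o (V.nx d'.1.1 d'.2).1 (V.nx d'.1.1 d'.2).2 + 0 = V.o d'.1.1 d'.2 + d'.1.2 + 1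
      omega
    refine ⟨?_, ?_, ?_⟩
    · rw [V4_Lc h1, V4_Kc hG rfl, ← n1]
      rfl
    · rw [FlatTri.st, FlatTri.st, A.V4_Lp hG hΔ h1, V4_Kp0 hG hΔ rfl, ← n1, ← n2]
      rfl
    · rw [FlatTri.en, FlatTri.en, A.V4_Lp hG hΔ h1, V4_Kp0 hG hΔ rfl, ← n1, ← n3]
      rfl
  · have h2 : (d'.1.2 : ℕ) + 1 < V.w d'.1.1 := lt_of_le_of_ne d'.1.2.2 h1
    obtain rfl : ((⟨d'.1.1, ⟨d'.1.2 + 1, h2⟩⟩ : V.Tr), d'.2) = d := A.V4_uniq he hs h
    obtain ⟨-, a, b⟩ := V4_shift (t := ⟨d'.1.1, ⟨d'.1.2 + 1, h2⟩⟩) (t' := d'.1) hG hΔ rfl rfl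
    exact ⟨a, b _, b _⟩

theorem V4_opp (hΔ : G.IsSec Δ) {d d' : V.Tr × Fin 3}
    (he : V.ed d'.1.1 d'.2 = V.ed d.1.1 d.2) (hs : V.sd d'.1.1 d'.2 = V.sd d.1.1 d.2)
    (h : V4_lev d' + 1 = V4_lev d) :
    V.ed (Δ.opp d').1.1 (Δ.opp d').2 = V.ed (Δ.opp d).1.1 (Δ.opp d).2 ∧
      V.sd (Δ.opp d').1.1 (Δ.opp d').2 = V.sd (Δ.opp d).1.1 (Δ.opp d).2 ∧
      V4_lev (Δ.opp d') + 1 = V4_lev (Δ.opp d) := by
  obtain ⟨a1, a2, a3⟩ := hΔ.2 d
  obtain ⟨b1, b2, b3⟩ := hΔ.2 d'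
  refine ⟨by rw [a1, b1, he], by rw [a2, b2, hs], ?_⟩
  unfold V4_lev at h ⊢
  rw [a3, b3, h]

theorem Ax.V4_oppK (A : V.Ax) (hΔ : G.IsSec Δ) (h : (t.2 : ℕ) = 0) :
    Δ.opp (t, 0) = (A.V4_fst (t.1.1, !t.1.2), 0) := by
  obtain ⟨a1, a2, a3⟩ := hΔ.2 (t, 0)
  have h1 : V4_lev (Δ.opp (t, 0)) = 0 := by
    rw [V4_lev, a3, A.o_zero, h]
  rw [A.V4_zero h1, a1, a2, A.ed_zero, A.sd_zero]

theorem Ax.V4_oppL (A : V.Ax) (hΔ : G.IsSec Δ) {d : V.Tr × Fin 3}
    (h1 : (d.1.2 : ℕ) + 1 = V.w d.1.1) (h2 : d.2 + V.sh d.1.1 = 0) :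
    ((Δ.opp d).1.2 : ℕ) + 1 = V.w (Δ.opp d).1.1 ∧ (Δ.opp d).2 + V.sh (Δ.opp d).1.1 = 0 ∧
      V.up (Δ.opp d).1.1 = ((V.up d.1.1).1, !(V.up d.1.1).2) := by
  obtain ⟨a1, a2, a3⟩ := hΔ.2 d
  obtain ⟨l1, l2⟩ := A.last _ _ h2
  obtain ⟨b1, b2⟩ := A.V4_last (d := Δ.opp d) (by rw [V4_lev, a3, a1, ← l2, add_assoc, h1])
  refine ⟨b1, b2, V4_pair ?_ fun e => ?_⟩
  · rw [← (A.last _ _ b2).1, a1, l1]
  · have e1 := V.up.injective e
    have e2 : (Δ.opp d).2 = d.2 := by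
      rw [e1, ← h2] at b2
      exact add_right_cancel b2
    rw [e1, e2] at a2
    revert a2
    cases V.sd d.1.1 d.2 <;> decide

theorem Ax.V4_okK (A : V.Ax) (hG : G.Ok) (hΔ : G.IsSec Δ) : (V4_K hG Δ).Ok := by
  refine ⟨?_, fun t t' hne hc z hz z' hz' e => ?_⟩
  · rintro ⟨t, k⟩ ⟨h, rfl : k = 0⟩
    rw [A.V4_oppK hΔ h, V4_Kc hG rfl, V4_Kc hG h, FlatTri.st, FlatTri.st, FlatTri.en, FlatTri.en,
      V4_Kp0 hG hΔ h, V4_Kp0 hG hΔ h, V4_Kp0 hG hΔ rfl, V4_Kp0 hG hΔ rfl]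
    obtain ⟨⟨u, s⟩, n⟩ := t
    cases s <;> exact ⟨rfl, rfl, rfl⟩
  · by_cases h : (t.2 : ℕ) = 0 <;> by_cases h' : (t'.2 : ℕ) = 0
    · rw [V4_Kc hG h, V4_Kc hG h'] at hc
      have h1 : t'.1 = (t.1.1, !t.1.2) :=
        V4_pair (Sum.inr.inj hc).symm fun e => hne (V4_ext e.symm (h.trans h'.symm))
      refine ⟨0, ⟨h, rfl⟩, ?_, V4_seg (V4_K hG Δ) ?_⟩
      · rw [A.V4_oppK hΔ h]
        exact V4_ext h1.symm h'.symm
      · have m1 := (V4_mem (V4_K hG Δ) t z).2 hz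
        have m2 := (V4_mem (V4_K hG Δ) t' z').2 hz'
        simp only [V4_Kp0 hG hΔ h] at m1
        simp only [V4_Kp0 hG hΔ h'] at m2
        rw [← e, h1] at m2
        rw [FlatTri.st, FlatTri.en, V4_Kp0 hG hΔ h, V4_Kp0 hG hΔ h]
        exact V4_ovT (A.area_top hG t.1) m1 m2
    · rw [V4_Kc hG h, V4_Kc' hG h'] at hc
      cases hc
    · rw [V4_Kc' hG h, V4_Kc hG h'] at hc
      cases hc
    · rw [V4_Kc' hG h, V4_Kc' hG h'] at hc
      obtain ⟨e1, e2⟩ := Prod.mk.inj (Sum.inl.inj hc)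
      exact absurd (V4_ext e1 e2) hne

theorem Ax.V4_triL (A : V.Ax) (hG : G.Ok) (hΔ : G.IsSec Δ) (h : (t.2 : ℕ) + 1 = V.w t.1) :
    triS (fun k => (V4_L G Δ).A t (Δ.pos t k)) =
      triS fun k => G.Q (V.up t.1).1 (botV (V.up t.1).2 k) := by
  simp only [A.V4_Lp hG hΔ h]
  exact triS_shift (fun k => G.Q (V.up t.1).1 (botV (V.up t.1).2 k)) _

theorem Ax.V4_lstw (A : V.Ax) (F : U × Bool) :
    ((A.V4_lst F).2 : ℕ) + 1 = V.w (A.V4_lst F).1 := Nat.sub_add_cancel (A.w_pos F)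

theorem Ax.V4_lstu (A : V.Ax) (F : U × Bool) : V.up (A.V4_lst (V.up.symm F)).1 = F :=
  V.up.apply_symm_apply F

theorem Ax.V4_areaB (A : V.Ax) (hG : G.Ok) (hΔ : G.IsSec Δ) (u : U) (s : Bool) :
    0 < area fun k => G.Q u (botV s k) := by
  have h := V4_area (V4_L G Δ) (A.V4_lst (V.up.symm (u, s)))
  simp only [A.V4_Lp hG hΔ (A.V4_lstw _), A.V4_lstu] at h
  exact h.trans_eq (area_shift (fun k => G.Q u (botV s k)) _)

theorem Ax.V4_okL (A : V.Ax) (hG : G.Ok) (hΔ : G.IsSec Δ) : (V4_L G Δ).Ok := by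
  refine ⟨?_, fun t t' hne hc z hz z' hz' e => ?_⟩
  · rintro d ⟨h1, h2⟩
    obtain ⟨b1, b2, b3⟩ := A.V4_oppL hΔ h1 h2
    rw [V4_Lc b1, V4_Lc h1, FlatTri.st, FlatTri.st, FlatTri.en, FlatTri.en, A.V4_Lp hG hΔ b1,
      A.V4_Lp hG hΔ b1, A.V4_Lp hG hΔ h1, A.V4_Lp hG hΔ h1, add_right_comm (Δ.opp d).2,
      add_right_comm d.2, b2, h2, b3]
    generalize V.up d.1.1 = p
    obtain ⟨u, s⟩ := p
    cases s <;> exact ⟨rfl, rfl, rfl⟩
  · by_cases h : (t.2 : ℕ) + 1 = V.w t.1 <;> by_cases h' : (t'.2 : ℕ) + 1 = V.w t'.1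
    · rw [V4_Lc h, V4_Lc h'] at hc
      have h0 : ∀ {a b : V.Tr}, (a.2 : ℕ) + 1 = V.w a.1 → (b.2 : ℕ) + 1 = V.w b.1 →
          V.up a.1 = V.up b.1 → a = b := fun {a b} ha hb e => by
        have e1 := V.up.injective e
        refine V4_ext e1 (Nat.succ_injective (ha.trans (Eq.trans ?_ hb.symm)))
        rw [e1]
      have h1 : V.up t'.1 = ((V.up t.1).1, !(V.up t.1).2) :=
        V4_pair (Sum.inr.inj hc).symm fun e => hne (h0 h h' e.symm)
      have h2 : -V.sh t.1 + V.sh t.1 = 0 := neg_add_cancel _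
      obtain ⟨b1, -, b3⟩ := A.V4_oppL hΔ (d := (t, -V.sh t.1)) h h2
      refine ⟨-V.sh t.1, ⟨h, h2⟩, h0 b1 h' (b3.trans h1.symm), V4_seg (V4_L G Δ) ?_⟩
      have m1 := (V4_mem (V4_L G Δ) t z).2 hz
      have m2 := (V4_mem (V4_L G Δ) t' z').2 hz'
      rw [A.V4_triL hG hΔ h] at m1
      rw [A.V4_triL hG hΔ h', ← e, h1] at m2
      rw [FlatTri.st, FlatTri.en, A.V4_Lp hG hΔ h, A.V4_Lp hG hΔ h, add_right_comm, h2]
      exact V4_ovB (A.V4_areaB hG hΔ _ _) m1 m2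
    · rw [V4_Lc h, V4_Lc' h'] at hc
      cases hc
    · rw [V4_Lc' h, V4_Lc h'] at hc
      cases hc
    · rw [V4_Lc' h, V4_Lc' h'] at hc
      obtain ⟨e1, e2⟩ := Prod.mk.inj (Sum.inl.inj hc)
      exact absurd (V4_ext e1 (Nat.succ_injective e2)) hne

theorem Ax.V4_to (A : V.Ax) (hG : G.Ok) (hΔ : G.IsSec Δ) : (V4_K hG Δ).To (V4_L G Δ) := by
  refine ⟨fun t z hz => ?_, fun d hd => ?_⟩
  · have m := (V4_mem (V4_K hG Δ) t z).2 hz
    by_cases h : (t.2 : ℕ) = 0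
    · simp only [V4_Kp0 hG hΔ h] at m
      obtain ⟨s, hs⟩ := (V4_quad (fun s => A.area_top hG (t.1.1, s))
        (A.V4_areaB hG hΔ t.1.1)).1 ⟨_, m⟩
      refine ⟨A.V4_lst (V.up.symm (t.1.1, s)), ?_, V4_sur _ _ ?_⟩
      · rw [V4_Lc (A.V4_lstw _), V4_Kc hG h, A.V4_lstu]
      · rwa [A.V4_triL hG hΔ (A.V4_lstw _), A.V4_lstu]
    · obtain ⟨-, a, b⟩ := V4_shift (t := t)
        (t' := ⟨t.1, ⟨t.2 - 1, (Nat.sub_le _ _).trans_lt t.2.2⟩⟩) hG hΔ rfl
        (Nat.sub_add_cancel (Nat.pos_of_ne_zero h))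
      refine ⟨_, a, V4_sur _ _ ?_⟩
      simp only [b]
      exact m
  · have h1 : V4_lev d ≠ 0 := fun e => hd (by rw [A.V4_zero e]; exact ⟨rfl, rfl⟩)
    obtain ⟨d', e1, e2, e3⟩ := A.V4_ex (V.ed d.1.1 d.2) (V.sd d.1.1 d.2) (r := V4_lev d - 1)
      ((Nat.sub_le _ _).trans_lt (A.V4_lt d))
    have e4 : V4_lev d' + 1 = V4_lev d := by omega
    obtain ⟨o1, o2, o3⟩ := V4_opp hΔ e1 e2 e4
    obtain ⟨a1, a2, a3⟩ := A.V4_match hG hΔ e1 e2 e4
    exact ⟨d', a1, a2, a3, A.V4_match hG hΔ o1 o2 o3⟩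

theorem Ax.V4_from (A : V.Ax) (hG : G.Ok) (hΔ : G.IsSec Δ) : (V4_L G Δ).To (V4_K hG Δ) := by
  refine ⟨fun t z hz => ?_, fun d' hd => ?_⟩
  · have m := (V4_mem (V4_L G Δ) t z).2 hz
    by_cases h : (t.2 : ℕ) + 1 = V.w t.1
    · rw [A.V4_triL hG hΔ h] at m
      obtain ⟨s, hs⟩ := (V4_quad (fun s => A.area_top hG ((V.up t.1).1, s))
        (A.V4_areaB hG hΔ _)).2 ⟨_, m⟩
      refine ⟨A.V4_fst ((V.up t.1).1, s), ?_, V4_sur _ _ ?_⟩
      · rw [V4_Lc h, V4_Kc hG rfl]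
        rfl
      · simp only [V4_Kp0 (t := A.V4_fst ((V.up t.1).1, s)) hG hΔ rfl]
        exact hs
    · obtain ⟨-, a, b⟩ := V4_shift (t' := t)
        (t := ⟨t.1, ⟨t.2 + 1, lt_of_le_of_ne t.2.2 h⟩⟩) hG hΔ rfl rfl
      refine ⟨_, a.symm, V4_sur _ _ ?_⟩
      simp only [← b]
      exact m
  · obtain ⟨d, e1, e2, e3⟩ := A.V4_ex (V.ed d'.1.1 d'.2) (V.sd d'.1.1 d'.2) (r := V4_lev d' + 1)
      (lt_of_le_of_ne (A.V4_lt d') fun e => hd (A.V4_last e))
    obtain ⟨o1, o2, o3⟩ := V4_opp hΔ e1.symm e2.symm e3.symm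
    obtain ⟨a1, a2, a3⟩ := A.V4_match hG hΔ e1.symm e2.symm e3.symm
    obtain ⟨b1, b2, b3⟩ := A.V4_match hG hΔ o1 o2 o3
    exact ⟨d, a1.symm, a2.symm, a3.symm, b1.symm, b2.symm, b3.symm⟩

end

variable {U Cu : Type} [Fintype U] [DecidableEq U] {V : Veer U Cu}

theorem Ax.exists_map (A : V.Ax) {G : V.Geo} (hG : G.Ok) {Δ : FlatTri V.Tr} (hΔ : G.IsSec Δ) :
    ∃ f : Δ.Surf ≃ₜ Δ.Surf, G.IsMap Δ f := by
  obtain ⟨f, hf⟩ := FlatTri.Cut.cut_paste (A.V4_okK hG hΔ) (A.V4_okL hG hΔ) (A.V4_to hG hΔ)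
    (A.V4_from hG hΔ)
  refine ⟨f, fun F n n' h z hz => ?_, fun F F' n n' h h' e z hz z' hz' e' => ?_,
    fun F n h z hz => ?_⟩
  · obtain ⟨a, b, c⟩ := V4_shift (t := ⟨F, n⟩) (t' := ⟨F, n'⟩) hG hΔ rfl h.symm
    have e : (V4_K hG Δ).A ⟨F, n⟩ z = (V4_L G Δ).A ⟨F, n'⟩ (diag G.x z) := by
      rw [V4_KA, V4_LA' a]
    have m : diag G.x z ∈ Δ.tri ⟨F, n'⟩ := by
      rw [← V4_mem (V4_L G Δ), ← e]
      simp only [c]
      exact (V4_mem _ _ _).2 hz
    exact ⟨m, hf _ _ z hz _ m b.symm e⟩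
  · refine hf _ _ z hz z' hz' ?_ ?_
    · rw [V4_Kc (t := ⟨F, n⟩) hG h, V4_Lc (t := ⟨F', n'⟩) h', e]
    · rw [V4_KA, V4_LA (t := ⟨F', n'⟩) h', e']
  · obtain ⟨t', c, z', hz', e⟩ := (A.V4_to hG hΔ).cover ⟨F, n⟩ z hz
    rw [V4_Kc (t := ⟨F, n⟩) hG h] at c
    by_cases h' : (t'.2 : ℕ) + 1 = V.w t'.1
    · rw [V4_Lc h'] at c
      rw [V4_KA, V4_LA h'] at e
      exact ⟨t'.1, t'.2, h', Sum.inr.inj c, z', hz', e.symm⟩
    · rw [V4_Lc' h'] at c
      cases c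

theorem Geo.IsMap.pieces {G : V.Geo} {Δ : FlatTri V.Tr} {f : Δ.Surf → Δ.Surf}
    (h : G.IsMap Δ f) : Δ.Pieces f G.x := by
  refine ⟨insert (1, 0) (Set.range fun F => (V.eps F, -(V.eps F * G.bot F 0))),
    (Set.finite_range _).insert _, ?_, ?_⟩
  · rintro _ (rfl | ⟨F, rfl⟩)
    · exact Or.inl rfl
    · exact V4_eps F
  · rintro ⟨F, n⟩ z hz
    by_cases h0 : (n : ℕ) = 0
    · obtain ⟨F', n', h1, h2, z', hz', e⟩ := h.cover F n h0 z hz
      have e' : V.eps F' * diag G.x z + -(V.eps F' * G.bot F' 0) = z' := by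
        rw [e, Geo.bot, Geo.bot]
        linear_combination z' * PA.A1_sq (V4_eps (V := V) F')
      refine ⟨⟨F', n'⟩, _, Or.inr ⟨F', rfl⟩, ?_⟩
      dsimp only
      rw [e']
      exact ⟨hz', h.flip F F' n n' h0 h1 h2 z hz z' hz' e⟩
    · refine ⟨⟨F, ⟨n - 1, (Nat.sub_le _ _).trans_lt n.2⟩⟩, _, Or.inl rfl, ?_⟩
      dsimp only
      rw [one_mul, add_zero]
      exact h.shift F n _ (Nat.sub_add_cancel (Nat.pos_of_ne_zero h0)).symm z hz

end Veer
end Pool.Agent.Work.MP_563a32_gt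
end

-- merged part: Pool.Agent.Work.MP_563a32_gt.V5
section
/-! The vertices of the section.

Plan. `exists_vert`: `Vt p j = f ^ (j + 1)` of the corner `p = (u, a)` of a top face of `u` with
`n = 0` (the two choices for `a = B, U` agree by `vtx_rotV`, see `V4` for `opp`); `shift` gives
`Vt (lo F k) (- 1 - n) = vtx (⟨F, n⟩, k)`, and `flip` with `bot_vertex` gives the link relation.
`sameLab_opp`: along `nx` the start and the end of a dart keep their labels (`cusp_lnk`,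
`disc_dvd`, `step`; `hi F k` and `hi F (k + 1)` are the start and end corners of `nx F k`), so by
induction on `o` with `pred` the start and end of `(⟨F, n⟩, k)` have the labels of the corners
`topV s 0`, `topV s 1` of `ed F k` at age `o + n`, `s = sd F k`; and `topV (!s) 0 = topV s 1`.
`vtx_iff`: `→` by `vtx_eq` and `sameLab_opp` (`SameLab` is an equivalence relation); `←`: by `tree`,
`Vt p j = Vt (root c) (j + pot p - pot (root c))`; the integers `z` with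
`Vt (root c) j = Vt (root c) (j + z)` for all `j` form a subgroup containing every `disc F k` of
the cusp, so `per c` by `gen`. -/

namespace Pool.Agent.Work.MP_563a32_gt
namespace Veer
open Finset

variable {U Cu : Type} [Fintype U] [DecidableEq U] {V : Veer U Cu}

theorem V5_orb {X P : Type} {f : X → X} (hf : Function.Injective f) {Vt : P → ℤ → X}
    (h : ∀ p j, f (Vt p j) = Vt p (j + 1)) {p q : P} {a b : ℤ} (e : Vt p a = Vt q b) (z : ℤ) :
    Vt p (a + z) = Vt q (b + z) := by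
  induction z using Int.induction_on with
  | zero => simpa using e
  | succ n ih => rw [← add_assoc, ← add_assoc, ← h, ← h, ih]
  | pred n ih =>
    apply hf
    rw [h, h]
    convert ih using 2 <;> ring

theorem V5_end {T : Type} (Δ : FlatTri T) (d : T × Fin 3) :
    Δ.vtx (Δ.opp d) = Δ.vtx (d.1, d.2 + 1) := by
  have h := Δ.vtx_rotV (d.1, d.2 + 1)
  have e : ∀ k : Fin 3, k + 1 + 2 = k := by decide
  change Δ.vtx (Δ.opp (d.1, d.2 + 1 + 2)) = _ at h
  rwa [e] at h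

omit [Fintype U] [DecidableEq U] in
theorem Ax.V5_opp (A : V.Ax) {u : U} {s : Bool} {d' : V.Tr × Fin 3}
    (h : V.IsOpp (⟨(u, s), ⟨0, A.w_pos _⟩⟩, 0) d') : d' = (⟨(u, !s), ⟨0, A.w_pos _⟩⟩, 0) := by
  obtain ⟨⟨F', n'⟩, k'⟩ := d'
  obtain ⟨h1, h2, h3⟩ := h
  simp only [A.ed_zero, A.sd_zero, A.o_zero] at h1 h2 h3
  obtain ⟨rfl, rfl⟩ := A.tile_uniq (F := F') (F' := (u, !s)) (k := k') (k' := 0) (n := n') (n' := 0)
    (by rw [h1, A.ed_zero]) (by rw [h2, A.sd_zero]) n'.2 (A.w_pos _) (by rw [h3, A.o_zero])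
  have h4 : n' = ⟨0, A.w_pos _⟩ := Fin.ext (by simp only; omega)
  rw [h4]

omit [Fintype U] [DecidableEq U] in
theorem Ax.V5_base (A : V.Ax) {G : V.Geo} {Δ : FlatTri V.Tr} (hΔ : G.IsSec Δ) :
    ∃ b : U × Fin 4 → Δ.Surf, ∀ (F : U × Bool) k,
      Δ.vtx (⟨F, ⟨0, A.w_pos _⟩⟩, k) = b (V.lo F k) := by
  have h : ∀ u s, Δ.vtx (⟨(u, !s), ⟨0, A.w_pos _⟩⟩, 0) = Δ.vtx (⟨(u, s), ⟨0, A.w_pos _⟩⟩, 1) := by
    intro u s
    rw [← A.V5_opp (hΔ.2 _), V5_end]
    rfl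
  refine ⟨fun p => ![Δ.vtx (⟨(p.1, false), ⟨0, A.w_pos _⟩⟩, 2),
    Δ.vtx (⟨(p.1, false), ⟨0, A.w_pos _⟩⟩, 0), Δ.vtx (⟨(p.1, true), ⟨0, A.w_pos _⟩⟩, 2),
    Δ.vtx (⟨(p.1, false), ⟨0, A.w_pos _⟩⟩, 1)] p.2, ?_⟩
  rintro ⟨u, s⟩ k
  cases s <;> fin_cases k
  · rfl
  · rfl
  · rfl
  · exact h u false
  · exact (h u true).symm
  · rfl

theorem V5_top : ∀ a : Fin 4, ∃ s k, topV s k = a := by decide

omit [Fintype U] [DecidableEq U] in
theorem Ax.exists_vert (A : V.Ax) {G : V.Geo} (hG : G.Ok) {Δ : FlatTri V.Tr} (hΔ : G.IsSec Δ)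
    {f : Δ.Surf ≃ₜ Δ.Surf} (hf : G.IsMap Δ f) : ∃ Vt : U × Fin 4 → ℤ → Δ.Surf,
      (∀ p j, f (Vt p j) = Vt p (j + 1)) ∧
      (∀ (F : U × Bool) (n : Fin (V.w F)) k, Δ.vtx (⟨F, n⟩, k) = Vt (V.lo F k) (-1 - (n : ℕ))) ∧
      ∀ F k j, Vt (V.lo F k) j = Vt (V.hi F k) (j + V.w F) := by
  obtain ⟨b, hb⟩ := A.V5_base hΔ
  have hx : G.x ≠ 0 := (one_pos.trans hG.one_lt).ne'
  let Vt : U × Fin 4 → ℤ → Δ.Surf := fun p j => ((f.toEquiv : Equiv.Perm Δ.Surf) ^ (j + 1)) (b p)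
  have h1 : ∀ p j, f (Vt p j) = Vt p (j + 1) := by
    intro p j
    simp only [Vt]
    rw [add_comm (j + 1) 1, zpow_one_add]
    rfl
  have hm : ∀ (t : V.Tr) k, G.pos t k ∈ Δ.tri t := fun t k => by
    rw [← hΔ.1]
    exact vertex_mem (Δ.area_pos t) k
  have hv : ∀ (t : V.Tr) k, Δ.vtx (t, k) = Δ.pt t (G.pos t k) := fun t k => by
    rw [← hΔ.1]
    rfl
  have h2 : ∀ (F : U × Bool) k (n : ℕ) (hn : n < V.w F),
      Δ.vtx (⟨F, ⟨n, hn⟩⟩, k) = Vt (V.lo F k) (-1 - (n : ℕ)) := by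
    intro F k n
    induction n with
    | zero =>
      intro hn
      simpa [Vt] using hb F k
    | succ n ih =>
      intro hn
      apply f.injective
      have h3 := (hf.shift F ⟨n + 1, hn⟩ ⟨n, by omega⟩ rfl _ (hm ⟨F, ⟨n + 1, hn⟩⟩ k)).2
      have h4 : diag G.x (G.pos ⟨F, ⟨n + 1, hn⟩⟩ k) = G.pos ⟨F, ⟨n, by omega⟩⟩ k := by
        simp only [Geo.pos, diag_mul]
        congr 1
        field_simp
        ring
      rw [h1, hv, h3, h4, ← hv, ih]
      congr 1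
      push_cast
      ring
  refine ⟨Vt, h1, fun F n k => h2 F k n n.2, fun F k j => ?_⟩
  obtain ⟨s, k1, hs⟩ := V5_top (V.hi F k).2
  have hw := A.w_pos F
  have h3 := hf.flip ((V.up F).1, s) F ⟨0, A.w_pos _⟩ ⟨V.w F - 1, by omega⟩ rfl
    (by simp only; omega) rfl _ (hm ⟨_, ⟨0, A.w_pos _⟩⟩ k1) _ (hm ⟨F, ⟨V.w F - 1, by omega⟩⟩ k) (by
      simp only [Geo.pos, diag_mul]
      rw [Nat.sub_add_cancel hw, A.bot_vertex hG, zero_add, pow_one, mul_inv_cancel₀ hx, diag_one,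
        hs]
      rfl)
  rw [← hv, ← hv, h2, h2, h1] at h3
  have h4 : V.lo ((V.up F).1, s) k1 = V.hi F k := Prod.ext rfl hs
  rw [h4] at h3
  have h5 := V5_orb f.injective h1 h3.symm (j + V.w F)
  convert h5 using 2
  · push_cast [Nat.cast_sub hw]
    ring
  · push_cast
    ring

/-- The corner `p` at age `j` and the corner `q` at age `i` have the same label. -/
def V5_R (V : Veer U Cu) (p : U × Fin 4) (j : ℤ) (q : U × Fin 4) (i : ℤ) : Prop :=
  V.cusp p.1 p.2 = V.cusp q.1 q.2 ∧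
    (V.per (V.cusp p.1 p.2) : ℤ) ∣ (V.pot p.1 p.2 - j) - (V.pot q.1 q.2 - i)

section
omit [Fintype U] [DecidableEq U]
variable {p q r : U × Fin 4} {i j l : ℤ}

theorem V5_R.refl (p : U × Fin 4) (j : ℤ) : V.V5_R p j p j := ⟨rfl, by simp⟩

theorem V5_R.symm (h : V.V5_R p j q i) : V.V5_R q i p j :=
  ⟨h.1.symm, by rw [← h.1]; exact dvd_sub_comm.1 h.2⟩

theorem V5_R.trans (h : V.V5_R p j q i) (h' : V.V5_R q i r l) : V.V5_R p j r l := by
  refine ⟨h.1.trans h'.1, ?_⟩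
  have h1 := h'.2
  rw [← h.1] at h1
  simpa using dvd_add h.2 h1

theorem V5_nx (F : U × Bool) (k : Fin 3) (hk : k + V.sh F ≠ 0) {e : Fin 3} (he : e ≠ 2) :
    V.hi F (k + e) = V.lo (V.nx F k).1 ((V.nx F k).2 + e) := by
  have h : ∀ (s : Bool) (a e : Fin 3), a ≠ 0 → e ≠ 2 →
      botV s (a + e) = if a = 1 then topV (!s) (2 + e) else topV s (1 + e) := by decide
  unfold hi lo nx
  rw [add_right_comm, h _ _ _ hk he]
  split_ifs <;> rfl

theorem Ax.V5_age (A : V.Ax) (F : U × Bool) (k e : Fin 3) (he : e ≠ 2) (j : ℤ) :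
    V.V5_R (V.lo F (k + e)) j (V.ed F k, topV (V.sd F k) e) (j + V.o F k) := by
  induction hn : V.o F k using Nat.strong_induction_on generalizing F k j with
  | _ n ih =>
    subst hn
    by_cases hk : k = 0
    · subst hk
      rw [A.ed_zero, A.sd_zero, A.o_zero, zero_add, Nat.cast_zero, add_zero]
      exact V5_R.refl _ _
    · obtain ⟨F', k', h1, h2⟩ := A.pred F k hk
      obtain ⟨s1, s2, s3⟩ := A.step F' k' h1
      have h3 := V5_nx F' k' h1 he
      rw [h2] at s1 s2 s3 h3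
      simp only at s1 s2 s3 h3
      have hw := A.w_pos F'
      have h4 := ih (V.o F' k') (by omega) F' k' (j + V.w F') rfl
      have h5 : V.V5_R (V.lo F' (k' + e)) (j + V.w F') (V.hi F' (k' + e)) j := by
        refine ⟨A.cusp_lnk _ _, ?_⟩
        convert A.disc_dvd F' (k' + e) using 1
        unfold disc
        ring
      rw [← h3, s1, s2, s3]
      convert h5.symm.trans h4 using 1
      push_cast
      ring

end

omit [Fintype U] [DecidableEq U] in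
theorem Ax.sameLab_opp (A : V.Ax) {d d' : V.Tr × Fin 3} (h : V.IsOpp d d') :
    V.SameLab (d.1, d.2 + 1) d' := by
  obtain ⟨h1, h2, h3⟩ := h
  have e1 := A.V5_age d.1.1 d.2 1 (by decide) (d.1.2 : ℕ)
  have e2 := A.V5_age d'.1.1 d'.2 0 (by decide) (d'.1.2 : ℕ)
  have e3 : ∀ s, topV (!s) 0 = topV s 1 := by decide
  have e4 : ((d'.1.2 : ℕ) : ℤ) + V.o d'.1.1 d'.2 = (d.1.2 : ℕ) + V.o d.1.1 d.2 := by omega
  rw [h1, h2, e3, e4, add_zero] at e2
  exact e1.trans e2.symm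

omit [Fintype U] [DecidableEq U] in
theorem V5_tree {X : Type} {Vt : U × Fin 4 → ℤ → X}
    (h : ∀ F k j, Vt (V.lo F k) j = Vt (V.hi F k) (j + V.w F)) {p q : U × Fin 4}
    (e : Relation.EqvGen V.Lnk p q) (j : ℤ) :
    Vt p j = Vt q (j + V.pot p.1 p.2 - V.pot q.1 q.2) := by
  induction e generalizing j with
  | rel p q e =>
    obtain ⟨F, k, rfl, rfl, e⟩ := e
    rw [h]
    congr 1
    unfold disc at e
    linarith
  | refl p => rw [add_sub_cancel_right]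
  | symm p q _ ih =>
    rw [ih]
    congr 1
    ring
  | trans p q r _ _ ih ih' =>
    rw [ih, ih']
    congr 1
    ring

omit [Fintype U] [DecidableEq U] in
theorem Ax.V5_per (A : V.Ax) {X : Type} {Vt : U × Fin 4 → ℤ → X}
    (h : ∀ F k j, Vt (V.lo F k) j = Vt (V.hi F k) (j + V.w F)) (c : Cu) {j j' : ℤ}
    (e : (V.per c : ℤ) ∣ j - j') : Vt (V.root c) j = Vt (V.root c) j' := by
  let H : AddSubgroup ℤ :=
    { carrier := {z | ∀ j, Vt (V.root c) (j + z) = Vt (V.root c) j}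
      zero_mem' := fun j => by rw [add_zero]
      add_mem' := fun {a b} ha hb j => by rw [← add_assoc, hb, ha]
      neg_mem' := fun {a} ha j => by rw [← ha, neg_add_cancel_right] }
  have h1 : (V.per c : ℤ) ∈ H := by
    refine (AddSubgroup.closure_le H).2 ?_ (A.gen c)
    rintro _ ⟨F, k, hc, rfl⟩ i
    have t1 := V5_tree h (A.tree (V.lo F k))
    have t2 := V5_tree h (A.tree (V.hi F k))
    rw [← A.cusp_lnk, hc] at t2
    rw [hc] at t1
    have t3 := h F k (i + V.pot (V.root c).1 (V.root c).2 - V.pot (V.hi F k).1 (V.hi F k).2 - V.w F)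
    rw [t1, t2] at t3
    convert t3 using 2
    · unfold disc
      ring
    · ring
  obtain ⟨t, ht⟩ := e
  have h2 : j - j' ∈ H := by
    rw [ht, mul_comm]
    exact H.zsmul_mem h1 t
  have h3 := h2 j'
  rwa [add_sub_cancel] at h3

theorem Ax.vtx_iff (A : V.Ax) {G : V.Geo} (hG : G.Ok) {Δ : FlatTri V.Tr} (hΔ : G.IsSec Δ)
    {f : Δ.Surf ≃ₜ Δ.Surf} (hf : G.IsMap Δ f) (d d' : V.Tr × Fin 3) :
    Δ.vtx d = Δ.vtx d' ↔ V.SameLab d d' := by
  constructor
  · intro h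
    obtain ⟨i, -, rfl⟩ := ((Δ.vtx_eq d d').1 h).exists_pow_eq'
    clear h
    induction i with
    | zero => exact V5_R.refl (V.lo d.1.1 d.2) _
    | succ i ih =>
      rw [pow_succ', Equiv.Perm.mul_apply]
      generalize (Δ.rotV ^ i) d = d1 at ih
      have h1 := A.sameLab_opp (hΔ.2 (d1.1, d1.2 + 2))
      have e : ∀ k : Fin 3, k + 2 + 1 = k := by decide
      simp only [e] at h1
      exact V5_R.trans (p := V.lo d.1.1 d.2) (q := V.lo d1.1.1 d1.2)
        (r := V.lo (Δ.rotV d1).1.1 (Δ.rotV d1).2) ih h1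
  · rintro ⟨h1, h2⟩
    obtain ⟨Vt, -, hv, hl⟩ := A.exists_vert hG hΔ hf
    obtain ⟨⟨F, n⟩, k⟩ := d
    obtain ⟨⟨F', n'⟩, k'⟩ := d'
    rw [hv, hv, V5_tree hl (A.tree (V.lo F k)), V5_tree hl (A.tree (V.lo F' k'))]
    simp only [lo] at h1 h2 ⊢
    rw [← h1]
    refine A.V5_per hl _ ?_
    convert h2 using 1
    ring

end Veer
end Pool.Agent.Work.MP_563a32_gt
end

-- merged part: Pool.Agent.Work.MP_563a32_gt.V6
section
/-! The vertex set as a permutation, and the components of the section.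

Plan. `orbit`: put `v c j = Vt (root c) j` with `Vt` from `exists_vert`. As in `vtx_iff` every
vertex is some `v c j`. Conversely the finite set of vertices is mapped into itself by `f` (use the
three properties of `Vt`: every corner `p` is some `lo F k` and some `hi F k`), so onto itself, and
contains one `v c j` for each `c`. The image of a vertex with label `ℓ` has label `ℓ + 1`, so with
`vtx_iff` one gets the criterion for `v c j = v c' j'`. `exists_comp`: `κ` is the `lift` of the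
constants `pot0 F.1 - 1 - n` in `ZMod m` (discrete topology); by induction on `o` with `pred`,
`step`, `pot0_dvd` this constant is `pot0 (ed F k) - 1 - (o + n)`, the same on both sides of an edge.
`κ (f y) = κ y + 1` by `shift`, `cover`, `flip`, `pot0_dvd`. Connectedness: let `cc u j` be the
connected component of `Vt (u, a) j`, independent of `a` (corners of a triangle, transported by
powers of `f`); `cc F.1 j = cc (up F).1 (j + w F)`; `tree0` gives
`cc u j = cc u0 (j + pot0 u - pot0 u0)`; the cusp with `mc c = 1` gives the period `m`. Every point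
of `⟨F, n⟩` lies in `cc F.1 (- 1 - n)`, so a fibre of `κ` lies in one component; being clopen and
nonempty it is that component. -/

namespace Pool.Agent.Work.MP_563a32_gt
namespace Veer
open Finset

variable {U Cu : Type} [Fintype U] [DecidableEq U] {V : Veer U Cu}

section
omit [Fintype U] [DecidableEq U]

theorem V6_top : ∀ a : Fin 4, ∃ s k k', topV s k = a ∧ topV s k' = 1 := by decide

theorem V6_of {a b c : ℤ} (h : a ∣ b) (e : c = b) : a ∣ c := e ▸ h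

theorem V6_bot : ∀ a : Fin 4, ∃ s k, botV s k = a := by decide

theorem V6_hi (V : Veer U Cu) (p : U × Fin 4) : ∃ F k, V.hi F k = p := by
  obtain ⟨s, l, h⟩ := V6_bot p.2
  refine ⟨V.up⁻¹ (p.1, s), l - V.sh (V.up⁻¹ (p.1, s)), ?_⟩
  simp only [hi, Equiv.Perm.coe_inv, Equiv.apply_symm_apply, sub_add_cancel, h]

/-- A set of integers closed under periods is a subgroup. -/
def V6_sub {Y : Type} (g : ℤ → Y) : AddSubgroup ℤ where
  carrier := {z | ∀ j, g (j + z) = g j}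
  add_mem' {a b} ha hb j := by rw [← add_assoc, hb, ha]
  zero_mem' j := by rw [add_zero]
  neg_mem' {a} ha j := by
    have := ha (j + -a)
    rw [neg_add_cancel_right] at this
    exact this.symm

theorem V6_dvd {Y : Type} {g : ℤ → Y} {z : ℤ} (h : ∀ j, g (j + z) = g j) {j j' : ℤ}
    (hd : z ∣ j - j') : g j = g j' := by
  obtain ⟨t, ht⟩ := hd
  have h1 : t • z ∈ V6_sub g := (V6_sub g).zsmul_mem (show z ∈ V6_sub g from h) t
  have h2 := h1 j'
  rwa [smul_eq_mul, mul_comm, ← ht, add_sub_cancel] at h2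

variable {Y : Type} {Vt : U × Fin 4 → ℤ → Y}

theorem Ax.V6_tree (A : V.Ax) (h3 : ∀ F k j, Vt (V.lo F k) j = Vt (V.hi F k) (j + V.w F))
    (p : U × Fin 4) {c : Cu} (hc : V.cusp p.1 p.2 = c) (j : ℤ) :
    Vt p (j - V.pot p.1 p.2) = Vt (V.root c) (j - V.pot (V.root c).1 (V.root c).2) := by
  have key : ∀ p p', Relation.EqvGen V.Lnk p p' →
      Vt p (j - V.pot p.1 p.2) = Vt p' (j - V.pot p'.1 p'.2) := by
    intro p p' h
    induction h with
    | rel p p' h =>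
      obtain ⟨F, k, rfl, rfl, h⟩ := h
      rw [h3]
      congr 1
      unfold disc at h
      omega
    | refl => rfl
    | symm _ _ _ ih => exact ih.symm
    | trans _ _ _ _ _ ih ih' => exact ih.trans ih'
  subst hc
  exact key _ _ (A.tree p)

theorem Ax.V6_per (A : V.Ax) (h3 : ∀ F k j, Vt (V.lo F k) j = Vt (V.hi F k) (j + V.w F))
    (c : Cu) {j j' : ℤ} (hd : (V.per c : ℤ) ∣ j - j') : Vt (V.root c) j = Vt (V.root c) j' := by
  refine V6_dvd (g := Vt (V.root c)) ?_ hd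
  refine (AddSubgroup.closure_le (V6_sub (Vt (V.root c)))).2 ?_ (A.gen c)
  rintro z ⟨F, k, hc, rfl⟩ j
  have e1 := A.V6_tree h3 _ hc (j + V.disc F k + V.pot (V.root c).1 (V.root c).2)
  have e2 := A.V6_tree h3 _ ((A.cusp_lnk F k).symm.trans hc) (j + V.pot (V.root c).1 (V.root c).2)
  rw [add_sub_cancel_right] at e1 e2
  rw [← e1, ← e2, h3]
  congr 1
  unfold disc
  ring

theorem Ax.V6_lab (A : V.Ax) (c : Cu) (j : ℤ) : ∃ (F : U × Bool) (n : Fin (V.w F)) (k : Fin 3),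
    V.cusp F.1 (topV F.2 k) = c ∧ (V.per c : ℤ) ∣ V.pot F.1 (topV F.2 k) - (n : ℕ) - j := by
  have st : ∀ j : ℤ, (∃ (F : U × Bool) (n : Fin (V.w F)) (k : Fin 3),
      V.cusp F.1 (topV F.2 k) = c ∧ (V.per c : ℤ) ∣ V.pot F.1 (topV F.2 k) - (n : ℕ) - j) →
      ∃ (F : U × Bool) (n : Fin (V.w F)) (k : Fin 3), V.cusp F.1 (topV F.2 k) = c ∧
        (V.per c : ℤ) ∣ V.pot F.1 (topV F.2 k) - (n : ℕ) - (j + 1) := by
    rintro j ⟨F, ⟨n, hn⟩, k, hc, hd⟩
    rcases n with _ | n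
    · obtain ⟨F', k', h⟩ := V.V6_hi (F.1, topV F.2 k)
      have hw := A.w_pos F'
      have h1 := A.cusp_lnk F' k'
      have h2 := A.disc_dvd F' k'
      rw [h1] at h2
      unfold disc at h2
      rw [h] at h1 h2
      refine ⟨F', ⟨V.w F' - 1, by omega⟩, k', h1.trans hc, ?_⟩
      rw [hc] at h2
      refine V6_of (dvd_add hd h2) ?_
      simp only [lo, Nat.cast_sub hw]
      push_cast
      ring
    · refine ⟨F, ⟨n, by omega⟩, k, hc, ?_⟩
      refine V6_of (hd) ?_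
      push_cast
      ring
  obtain ⟨s, k, -, hk, -⟩ := V6_top (V.root c).2
  set j₀ := V.pot (V.root c).1 (V.root c).2
  have h0 : ∀ i : ℕ, ∃ (F : U × Bool) (n : Fin (V.w F)) (k : Fin 3), V.cusp F.1 (topV F.2 k) = c ∧
      (V.per c : ℤ) ∣ V.pot F.1 (topV F.2 k) - (n : ℕ) - (j₀ + i) := by
    intro i
    induction i with
    | zero =>
      refine ⟨((V.root c).1, s), ⟨0, A.w_pos _⟩, k, by rw [hk]; exact A.cusp_root c, ?_⟩
      simp [hk, j₀]
    | succ i ih =>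
      have := st _ ih
      rwa [add_assoc, ← Nat.cast_succ] at this
  have hp : (0 : ℤ) < V.per c := by
    have := Nat.mul_pos A.m_pos (A.mc_pos c)
    exact_mod_cast this
  obtain ⟨F, n, k, hc, hd⟩ := h0 ((j - j₀) % V.per c).toNat
  refine ⟨F, n, k, hc, ?_⟩
  rw [Int.toNat_of_nonneg (Int.emod_nonneg _ hp.ne')] at hd
  have h1 : (V.per c : ℤ) ∣ (j - j₀) % V.per c - (j - j₀) := (Int.mod_modEq _ _).symm.dvd
  refine V6_of (dvd_add hd h1) ?_
  ring

theorem Ax.V6_pot (A : V.Ax) (N : ℕ) : ∀ F k, V.o F k = N →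
    (V.m : ℤ) ∣ V.pot0 F.1 - V.pot0 (V.ed F k) + V.o F k := by
  induction N using Nat.strong_induction_on with
  | _ N ih =>
    intro F k hN
    by_cases hk : k = 0
    · subst hk
      simp [A.ed_zero, A.o_zero]
    obtain ⟨F', k', h1, h2⟩ := A.pred F k hk
    obtain ⟨e1, -, e2⟩ := A.step F' k' h1
    have e3 : (V.nx F' k').1.1 = (V.up F').1 := by
      unfold nx
      split_ifs <;> rfl
    rw [h2] at e1 e2 e3
    simp only at e1 e2 e3
    have hw := A.w_pos F'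
    have h3 := ih _ (by omega) F' k' rfl
    rw [e1, e2, e3]
    refine V6_of (dvd_sub h3 (A.pot0_dvd F')) ?_
    push_cast
    ring

end

theorem Ax.orbit (A : V.Ax) {G : V.Geo} (hG : G.Ok) {Δ : FlatTri V.Tr} (hΔ : G.IsSec Δ)
    {f : Δ.Surf ≃ₜ Δ.Surf} (hf : G.IsMap Δ f) : ∃ v : Cu → ℤ → Δ.Surf,
      (∀ c j, f (v c j) = v c (j + 1)) ∧
      (∀ c c' j j', v c j = v c' j' ↔ c = c' ∧ (V.per c : ℤ) ∣ j - j') ∧
      (∀ c j, ∃ d, v c j = Δ.vtx d) ∧
      ∀ d : V.Tr × Fin 3, ∃ j, Δ.vtx d = v (V.cusp d.1.1.1 (topV d.1.1.2 d.2)) j := by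
  obtain ⟨Vt, h1, h2, h3⟩ := A.exists_vert hG hΔ hf
  have h4 : ∀ d : V.Tr × Fin 3, Δ.vtx d = Vt (V.root (V.cusp d.1.1.1 (topV d.1.1.2 d.2)))
      (V.pot d.1.1.1 (topV d.1.1.2 d.2) - (d.1.2 : ℕ) - 1 -
        V.pot (V.root (V.cusp d.1.1.1 (topV d.1.1.2 d.2))).1
          (V.root (V.cusp d.1.1.1 (topV d.1.1.2 d.2))).2) := by
    rintro ⟨⟨F, n⟩, k⟩
    refine (h2 F n k).trans (Eq.trans ?_ (A.V6_tree h3 (V.lo F k) rfl _))
    congr 1
    simp only [lo]
    ring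
  have h5 : ∀ c (j : ℤ), ∃ d : V.Tr × Fin 3, V.cusp d.1.1.1 (topV d.1.1.2 d.2) = c ∧
      (V.per c : ℤ) ∣ V.pot d.1.1.1 (topV d.1.1.2 d.2) - (d.1.2 : ℕ) -
        (j + 1 + V.pot (V.root c).1 (V.root c).2) ∧ Vt (V.root c) j = Δ.vtx d := by
    intro c j
    obtain ⟨F, n, k, hc, hd⟩ := A.V6_lab c (j + 1 + V.pot (V.root c).1 (V.root c).2)
    refine ⟨(⟨F, n⟩, k), hc, hd, ?_⟩
    rw [h4]
    simp only [hc]
    refine (A.V6_per h3 c ?_).symm
    refine V6_of (hd) ?_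
    ring
  refine ⟨fun c j => Vt (V.root c) j, fun c j => h1 _ _, fun c c' j j' => ⟨fun h => ?_, ?_⟩,
    fun c j => ?_, fun d => ⟨_, h4 d⟩⟩
  · obtain ⟨d, c1, d1, e1⟩ := h5 c j
    obtain ⟨d', c2, d2, e2⟩ := h5 c' j'
    obtain ⟨c3, d3⟩ := (A.vtx_iff hG hΔ hf d d').1 (e1.symm.trans (h.trans e2))
    have hc : c = c' := c1.symm.trans (c3.trans c2)
    subst hc
    refine ⟨rfl, ?_⟩
    rw [c1] at d3
    refine V6_of (dvd_add (dvd_sub d3 d1) d2) ?_
    ring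
  · rintro ⟨rfl, hd⟩
    exact A.V6_per h3 c hd
  · obtain ⟨d, -, -, e⟩ := h5 c j
    exact ⟨d, e⟩

theorem Ax.exists_comp (A : V.Ax) {G : V.Geo} (hG : G.Ok) {Δ : FlatTri V.Tr} (hΔ : G.IsSec Δ)
    {f : Δ.Surf ≃ₜ Δ.Surf} (hf : G.IsMap Δ f) : ∃ κ : Δ.Surf → ZMod V.m,
      (∀ y, κ (f y) = κ y + 1) ∧ IsClopen (κ ⁻¹' {0}) ∧ IsConnected (κ ⁻¹' {0}) := by
  obtain ⟨Vt, h1, h2, h3⟩ := A.exists_vert hG hΔ hf
  have : NeZero V.m := ⟨by have := A.m_pos; omega⟩
  obtain ⟨κ, hκ, k1⟩ := Δ.lift (Y := ZMod V.m)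
    (fun t _ => ((V.pot0 t.1.1 - 1 - (t.2 : ℕ) : ℤ) : ZMod V.m)) (fun _ => continuousOn_const)
    (fun d z _ => by
      obtain ⟨e1, -, e2⟩ := hΔ.2 d
      have a1 := A.V6_pot _ d.1.1 d.2 rfl
      have a2 := A.V6_pot _ (Δ.opp d).1.1 (Δ.opp d).2 rfl
      rw [e1] at a2
      rw [ZMod.intCast_eq_intCast_iff_dvd_sub]
      refine V6_of (dvd_sub a2 a1) ?_
      have e3 : ((V.o (Δ.opp d).1.1 (Δ.opp d).2 : ℕ) : ℤ) + ((Δ.opp d).1.2 : ℕ) =
          (V.o d.1.1 d.2 : ℕ) + (d.1.2 : ℕ) := by exact_mod_cast e2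
      linarith)
  have k2 : ∀ y, κ (f y) = κ y + 1 := by
    intro y
    obtain ⟨⟨F, ⟨n, hn⟩⟩, z, hz, rfl⟩ := Δ.pt_surj y
    rw [k1 _ _ hz]
    rcases n with _ | n
    · obtain ⟨F', n', a1, a2, z', hz', a3⟩ := hf.cover F _ rfl z hz
      rw [hf.flip F F' _ n' rfl a1 a2 z hz z' hz' a3, k1 _ _ hz',
        show ∀ a : ℤ, (a : ZMod V.m) + 1 = ((a + 1 : ℤ) : ZMod V.m) from fun a => by push_cast; rfl,
        eq_comm, ZMod.intCast_eq_intCast_iff_dvd_sub]
      refine V6_of (A.pot0_dvd F') ?_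
      rw [a2]
      simp only
      omega
    · obtain ⟨a1, a2⟩ := hf.shift F ⟨n + 1, hn⟩ ⟨n, by omega⟩ rfl z hz
      rw [a2, k1 _ _ a1]
      push_cast
      ring
  have hcl : IsClopen (κ ⁻¹' {0}) := (isClopen_discrete _).preimage hκ
  refine ⟨κ, k2, hcl, ?_⟩
  have c1 : ∀ (g : Δ.Surf ≃ₜ Δ.Surf) y y', connectedComponent y = connectedComponent y' →
      connectedComponent (g y) = connectedComponent (g y') := fun g y y' h =>
    connectedComponent_eq_iff_mem.2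
      (g.continuous.mapsTo_connectedComponent y' (connectedComponent_eq_iff_mem.1 h))
  have c2 : ∀ t, ∀ z ∈ Δ.tri t, ∀ z' ∈ Δ.tri t,
      connectedComponent (Δ.pt t z) = connectedComponent (Δ.pt t z') := fun t z hz z' hz' =>
    connectedComponent_eq_iff_mem.2 (((convex_triS _).isPreconnected.image _
      (Δ.continuousOn_pt t)).subset_connectedComponent ⟨z', hz', rfl⟩ ⟨z, hz, rfl⟩)
  have c3 : ∀ F k k' j, connectedComponent (Vt (V.lo F k) j) =
      connectedComponent (Vt (V.lo F k') j) := by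
    intro F k k' j
    induction j using Int.inductionOn' (b := -1) with
    | zero =>
      have e := h2 F ⟨0, A.w_pos F⟩
      simp only [Nat.cast_zero, sub_zero] at e
      rw [← e, ← e]
      exact c2 _ _ (vertex_mem (Δ.area_pos _) _) _ (vertex_mem (Δ.area_pos _) _)
    | succ j _ ih =>
      rw [← h1, ← h1]
      exact c1 f _ _ ih
    | pred j _ ih =>
      have e : ∀ p, Vt p (j - 1) = f.symm (Vt p j) := fun p => by
        rw [eq_comm, Homeomorph.symm_apply_eq, h1, sub_add_cancel]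
      rw [e, e]
      exact c1 f.symm _ _ ih
  have c4 : ∀ p j, connectedComponent (Vt p j) = connectedComponent (Vt (p.1, 1) j) := by
    rintro ⟨u, a⟩ j
    obtain ⟨s, k, k', e1, e2⟩ := V6_top a
    have := c3 (u, s) k k' j
    simpa only [lo, e1, e2] using this
  have c5 : ∀ (j : ℤ) u u', Relation.EqvGen V.Lnk0 u u' →
      connectedComponent (Vt (u, 1) (j - V.pot0 u)) =
        connectedComponent (Vt (u', 1) (j - V.pot0 u')) := by
    intro j u u' h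
    induction h with
    | rel u u' h =>
      obtain ⟨s, rfl, h⟩ := h
      have e1 := c4 (V.lo (u, s) 0) (j - V.pot0 u)
      rw [h3, c4] at e1
      refine e1.symm.trans ?_
      congr 2
      omega
    | refl => rfl
    | symm _ _ _ ih => exact ih.symm
    | trans _ _ _ _ _ ih ih' => exact ih.trans ih'
  obtain ⟨c, hc⟩ := A.mc_one
  have c6 : ∀ y, κ y = 0 → connectedComponent y =
      connectedComponent (Vt (V.root c) (0 - V.pot0 (V.root c).1)) := by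
    intro y hy
    obtain ⟨⟨F, n⟩, z, hz, rfl⟩ := Δ.pt_surj y
    rw [k1 _ _ hz, ZMod.intCast_zmod_eq_zero_iff_dvd] at hy
    have e1 : Vt (V.root c) (V.pot0 F.1 - 1 - (n : ℕ) - V.pot0 (V.root c).1) =
        Vt (V.root c) (0 - V.pot0 (V.root c).1) := by
      refine A.V6_per h3 c ?_
      rw [per, hc, mul_one]
      refine V6_of (hy) ?_
      ring
    rw [← e1, c4, c5 _ _ _ (A.tree0 _), ← c5 _ _ _ (A.tree0 F.1),
      c2 _ _ hz _ (vertex_mem (Δ.area_pos _) 0)]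
    refine (congrArg connectedComponent (h2 F n 0)).trans ((c4 _ _).trans ?_)
    congr 2
    ring
  have c7 : ∃ y, κ y = 0 := by
    have e : ∀ (i : ℕ) y, κ (f^[i] y) = κ y + i := fun i y => by
      induction i with
      | zero => simp
      | succ i ih => rw [Function.iterate_succ_apply', k2, ih, Nat.cast_succ, add_assoc]
    refine ⟨f^[(-κ (Vt (V.root c) 0)).val] (Vt (V.root c) 0), ?_⟩
    rw [e, ZMod.natCast_zmod_val, add_neg_cancel]
  obtain ⟨y, hy⟩ := c7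
  have e : κ ⁻¹' {0} = connectedComponent y :=
    Set.Subset.antisymm (fun y' hy' => connectedComponent_eq_iff_mem.1
      ((c6 y' hy').trans (c6 y hy).symm)) (hcl.connectedComponent_subset hy)
  rw [e]
  exact isConnected_connectedComponent

end Veer
end Pool.Agent.Work.MP_563a32_gt
end

-- merged part: Pool.Agent.Work.MP_563a32_gt.V7
section
/-! The pseudo-Anosov map of a weighted veering triangulation.

Plan. Take `G`, `Δ`, `f`, `Φ`, `v`, `κ` from `exists_geo`, `exists_sec`, `exists_map`,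
`exists_flat`, `orbit`, `exists_comp` (with `compactSpace`, `t2Space`). The singular set is the
disjoint union over `c` of the `per c` points `v c j`, `0 ≤ j < per c`, and `f` preserves it. By
`prongs_map` the number of prongs `p c` is constant over `c`, and summing the formula of
`exists_flat` over these points counts the darts `(⟨F, n⟩, 2)` of the cusp, so
`per c * p c = prt c`. As `κ (v c j) = κ (v c 0) + j` and `per c = m * mc c`, exactly `mc c` of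
them lie in `κ ⁻¹' {0}`. `∑ c, prt c = ∑ F, w F`. The punctures are the vertices over the cusps in
`Pn`. Apply `mem_spectrum` (`κ (f^[m] y) = κ y`) and `eig_le`. -/

namespace Pool.Agent.Work.MP_563a32_gt
namespace Veer
open Finset

variable {U Cu : Type} [Fintype U] [DecidableEq U] [Fintype Cu] [DecidableEq Cu] {V : Veer U Cu}

theorem V7_count {m : ℕ} (hm : 1 ≤ m) (a : ZMod m) (k : ℕ) :
    ((range (m * k)).filter fun j : ℕ => a + j = 0).card = k := by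
  have : NeZero m := ⟨by omega⟩
  induction k with
  | zero => simp
  | succ k ih =>
    rw [card_filter] at ih ⊢
    rw [Nat.mul_succ, sum_range_add, ih]
    congr 1
    have h : ∀ j ∈ range m, (if a + ((m * k + j : ℕ) : ZMod m) = 0 then 1 else 0) =
        if j = (-a).val then 1 else 0 := by
      intro j hj
      have e : ((m * k + j : ℕ) : ZMod m) = j := by simp
      rw [e]
      by_cases h1 : j = (-a).val
      · rw [if_pos h1, if_pos]
        rw [h1, ZMod.natCast_zmod_val, add_neg_cancel]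
      · rw [if_neg h1, if_neg]
        intro h2
        apply h1
        rw [← eq_neg_of_add_eq_zero_right h2, ZMod.val_cast_of_lt (mem_range.1 hj)]
    rw [sum_congr rfl h, sum_ite_eq', if_pos (mem_range.2 (ZMod.val_lt _))]

section Orb
variable {S C : Type} [DecidableEq S] (v : C → ℤ → S) (per : C → ℕ)

/-- the points over a cusp -/
def V7_orb (c : C) : Finset S := (range (per c)).image fun j : ℕ => v c j

variable {v per}

theorem V7_mem (hp : ∀ c, 0 < per c)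
    (hv : ∀ c c' j j', v c j = v c' j' ↔ c = c' ∧ (per c : ℤ) ∣ j - j') {c : C} {y : S} :
    y ∈ V7_orb v per c ↔ ∃ j, y = v c j := by
  rw [V7_orb, mem_image]
  constructor
  · rintro ⟨j, -, rfl⟩
    exact ⟨j, rfl⟩
  · rintro ⟨j, rfl⟩
    have h0 : (0 : ℤ) < per c := by exact_mod_cast hp c
    have h1 := Int.emod_nonneg j h0.ne'
    have h2 := Int.emod_lt_of_pos j h0
    refine ⟨(j % per c).toNat, mem_range.2 (by omega), (hv _ _ _ _).2 ⟨rfl, ?_⟩⟩
    rw [Int.toNat_of_nonneg h1]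
    exact ⟨-(j / per c), by rw [Int.emod_def]; ring⟩

omit [DecidableEq S] in
theorem V7_inj (hv : ∀ c c' j j', v c j = v c' j' ↔ c = c' ∧ (per c : ℤ) ∣ j - j') (c : C) :
    Set.InjOn (fun j : ℕ => v c j) (range (per c) : Finset ℕ) := by
  intro i hi j hj h
  have h1 := ((hv _ _ _ _).1 h).2
  have h2 := mem_range.1 (mem_coe.1 hi)
  have h3 := mem_range.1 (mem_coe.1 hj)
  have h4 := Int.eq_zero_of_abs_lt_dvd h1 (abs_lt.2 ⟨by omega, by omega⟩)
  omega

theorem V7_sum {m : ℕ} (hm : 1 ≤ m) {mc : C → ℕ} (hper : ∀ c, per c = m * mc c)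
    (hp : ∀ c, 0 < per c)
    (hv : ∀ c c' j j', v c j = v c' j' ↔ c = c' ∧ (per c : ℤ) ∣ j - j') {κ : S → ZMod m}
    (hκ : ∀ c j, κ (v c (j + 1)) = κ (v c j) + 1) (Pn : Finset C) {X : Finset S}
    (hX : ∀ y, y ∈ X ↔ (∃ c ∈ Pn, ∃ j, y = v c j) ∧ κ y = 0) (φ : S → ℤ) (q : C → ℤ)
    (hq : ∀ c j, φ (v c j) = q c) : ∑ y ∈ X, φ y = ∑ c ∈ Pn, mc c * q c := by
  have e : X = Pn.biUnion fun c => (V7_orb v per c).filter fun y => κ y = 0 := by
    ext y
    simp only [hX, mem_biUnion, mem_filter, V7_mem hp hv]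
    constructor
    · rintro ⟨⟨c, h1, h2⟩, h3⟩
      exact ⟨c, h1, h2, h3⟩
    · rintro ⟨c, h1, h2, h3⟩
      exact ⟨⟨c, h1, h2⟩, h3⟩
  rw [e, sum_biUnion]
  · refine sum_congr rfl fun c _ => ?_
    have h1 : ∀ y ∈ (V7_orb v per c).filter fun y => κ y = 0, φ y = q c := by
      intro y hy
      obtain ⟨j, rfl⟩ := (V7_mem hp hv).1 (mem_filter.1 hy).1
      exact hq c j
    rw [sum_congr rfl h1, sum_const, nsmul_eq_mul]
    have h2 : ∀ j : ℕ, κ (v c j) = κ (v c 0) + j := by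
      intro j
      induction j with
      | zero => simp
      | succ j ih =>
        push_cast
        rw [hκ, ih, add_assoc]
    have h3 : ((V7_orb v per c).filter fun y => κ y = 0).card = mc c := by
      rw [V7_orb, filter_image, card_image_of_injOn ((V7_inj hv c).mono (coe_subset.2
        (filter_subset _ _))), ← V7_count hm (κ (v c 0)) (mc c), hper]
      refine congrArg card (filter_congr fun j _ => ?_)
      rw [h2]
    rw [h3]
  · intro c _ c' _ hne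
    refine disjoint_left.2 fun y h1 h2 => hne ?_
    obtain ⟨j, rfl⟩ := (V7_mem hp hv).1 (mem_filter.1 h1).1
    obtain ⟨j', h⟩ := (V7_mem hp hv).1 (mem_filter.1 h2).1
    exact ((hv _ _ _ _).1 h).1

end Orb

omit [DecidableEq U] [Fintype Cu] in
theorem V7_darts (V : Veer U Cu) (c : Cu) {X : Finset (V.Tr × Fin 3)}
    (hX : ∀ d, d ∈ X ↔ d.2 = 2 ∧ V.cusp d.1.1.1 (topV d.1.1.2 d.2) = c) : X.card = V.prt c := by
  have e : X = ((univ.filter fun F : U × Bool => V.cusp F.1 (topV F.2 2) = c).sigma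
      fun F => (univ : Finset (Fin (V.w F)))) ×ˢ ({2} : Finset (Fin 3)) := by
    ext ⟨⟨F, n⟩, k⟩
    simp only [hX, mem_product, mem_sigma, mem_filter, mem_univ, true_and, and_true, mem_singleton]
    constructor
    · rintro ⟨rfl, h⟩
      exact ⟨h, rfl⟩
    · rintro ⟨h, rfl⟩
      exact ⟨rfl, h⟩
  rw [e, card_product, card_singleton, mul_one, card_sigma, prt]
  simp

theorem Ax.realise (A : V.Ax) (Pn : Finset Cu) (h3 : ∀ c, c ∉ Pn → 3 * V.per c ≤ V.prt c)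
    {g n : ℕ} (hg : ∑ F, V.w F + V.m * 4 = V.m * (4 * g + 2 * ∑ c, V.mc c))
    (hn : n = ∑ c ∈ Pn, V.mc c) {s T : ℕ} (hs : 1 ≤ s) (hT : s ≤ T)
    (hsT : ∀ u, ∃ j₀, s ≤ V.fe u j₀ ∧ ∀ j, j ≠ j₀ → T ≤ V.fe u j) :
    ∃ l ∈ Spectrum g n, l ≤ V.m * (3 * (Real.log (2 + T / s) / T)) := by
  classical
  have : Nonempty U := ⟨V.u0⟩
  have : Nonempty V.Tr := ⟨⟨(V.u0, false), ⟨0, A.w_pos _⟩⟩⟩
  obtain ⟨G, hG, hH⟩ := A.exists_geo
  obtain ⟨Δ, hΔ, hmid⟩ := A.exists_sec hG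
  obtain ⟨f, hf⟩ := A.exists_map hG hΔ
  obtain ⟨Φ, hsing, hpr, haff⟩ := Δ.exists_flat
  obtain ⟨v, v1, v2, v3, v4⟩ := A.orbit hG hΔ hf
  obtain ⟨κ, k1, k2, k3⟩ := A.exists_comp hG hΔ hf
  have := Δ.compactSpace
  have := Δ.t2Space
  have hm := A.m_pos
  have hp : ∀ c, 0 < V.per c := fun c => Nat.mul_pos hm (A.mc_pos c)
  have ha : Φ.Affine f G.x :=
    haff f G.x f.continuous (by linarith [hG.one_lt]) hf.pieces
  have hS : ∀ y, y ∈ Φ.sing ↔ ∃ c ∈ (univ : Finset Cu), ∃ j, y = v c j := by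
    intro y
    rw [hsing]
    constructor
    · rintro ⟨d, rfl⟩
      exact ⟨_, mem_univ _, v4 d⟩
    · rintro ⟨c, -, j, rfl⟩
      exact v3 c j
  have hinv : ∀ (Q : Finset Cu) y, (∃ c ∈ Q, ∃ j, f y = v c j) ↔ ∃ c ∈ Q, ∃ j, y = v c j := by
    intro Q y
    constructor
    · rintro ⟨c, hc, j, h⟩
      refine ⟨c, hc, j - 1, f.injective ?_⟩
      rw [h, v1, sub_add_cancel]
    · rintro ⟨c, hc, j, rfl⟩
      exact ⟨c, hc, j + 1, v1 c j⟩
  have hs' : ∀ y, f y ∈ Φ.sing ↔ y ∈ Φ.sing := fun y => by rw [hS, hS, hinv]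
  have hstep : ∀ c j, Φ.prongs (v c (j + 1)) = Φ.prongs (v c j) := fun c j => by
    rw [← v1]
    exact Flat.prongs_map f hG.one_lt hs' ha ((hS _).2 ⟨c, mem_univ _, j, rfl⟩)
  have hq : ∀ c j, Φ.prongs (v c j) = Φ.prongs (v c 0) := by
    intro c j
    induction j using Int.induction_on with
    | zero => rfl
    | succ i ih => rw [hstep, ih]
    | pred i ih =>
      rw [← hstep, sub_add_cancel, ih]
  have hprt : ∀ c, V.per c * Φ.prongs (v c 0) = V.prt c := by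
    intro c
    have h1 : ∀ y ∈ V7_orb v V.per c, Φ.prongs (v c 0) =
        ((univ.filter fun d => Δ.Mid d ∧ Δ.vtx d ∈ V7_orb v V.per c).filter
          fun d => Δ.vtx d = y).card := by
      intro y hy
      obtain ⟨j, rfl⟩ := (V7_mem hp v2).1 hy
      obtain ⟨d₀, h⟩ := v3 c j
      rw [← hq c j, h, hpr]
      refine congrArg card (Finset.ext fun d => ?_)
      simp only [mem_filter, mem_univ, true_and]
      constructor
      · rintro ⟨h2, h3⟩
        exact ⟨⟨h2, by rw [h3, ← h]; exact hy⟩, h3⟩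
      · rintro ⟨⟨h2, -⟩, h3⟩
        exact ⟨h2, h3⟩
    have h2 : (V7_orb v V.per c).card = V.per c := by
      rw [V7_orb, card_image_of_injOn (V7_inj v2 c), card_range]
    have h4 := card_eq_sum_card_fiberwise (f := Δ.vtx)
      (s := univ.filter fun d => Δ.Mid d ∧ Δ.vtx d ∈ V7_orb v V.per c) (t := V7_orb v V.per c)
      (fun d hd => mem_coe.2 (mem_filter.1 (mem_coe.1 hd)).2.2)
    rw [← h2, ← smul_eq_mul, ← sum_const, sum_congr rfl h1, ← h4]
    refine V7_darts V c fun d => ?_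
    rw [mem_filter, hmid, V7_mem hp v2]
    simp only [mem_univ, true_and]
    refine and_congr_right fun _ => ?_
    obtain ⟨j, h⟩ := v4 d
    rw [h]
    exact ⟨fun ⟨j', h'⟩ => ((v2 _ _ _ _).1 h').1, fun h' => ⟨j, by rw [h']⟩⟩
  have hκ : ∀ c j, κ (v c (j + 1)) = κ (v c j) + 1 := fun c j => by rw [← v1, k1]
  have hit : ∀ (i : ℕ) y, κ (f^[i] y) = κ y + i := by
    intro i y
    induction i with
    | zero => simp
    | succ i ih =>
      rw [Function.iterate_succ_apply', k1, ih]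
      push_cast
      ring
  have hP : ∀ y, y ∈ Pn.biUnion (V7_orb v V.per) ↔ ∃ c ∈ Pn, ∃ j, y = v c j := fun y => by
    simp only [mem_biUnion, V7_mem hp v2]
  have htot : ∑ c, V.prt c = ∑ F, V.w F := sum_fiberwise _ _ _
  refine ⟨V.m * Real.log G.x, Flat.mem_spectrum (Φ := Φ) f hG.one_lt hs' ha hm k2 k3
    (fun y => ?_) (Pn.biUnion (V7_orb v V.per)) (fun y hy => ?_) (fun y => ?_) (fun x hx hx' => ?_)
    ?_ ?_, mul_le_mul_of_nonneg_left (eig_le V.ft V.fe hG.one_lt hG.H_pos hH hs hT hsT)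
      (Nat.cast_nonneg _)⟩
  · simp only [Set.mem_preimage, Set.mem_singleton_iff, hit, ZMod.natCast_self, add_zero]
  · obtain ⟨c, -, h⟩ := (hP y).1 hy
    exact (hS y).2 ⟨c, mem_univ _, h⟩
  · rw [hP, hP, hinv]
  · obtain ⟨c, -, j, rfl⟩ := (hS x).1 hx
    have h4 := h3 c fun hc => hx' ((hP _).2 ⟨c, hc, j, rfl⟩)
    rw [← hprt, mul_comm 3] at h4
    rw [hq]
    exact Nat.le_of_mul_le_mul_left h4 (hp c)
  · rw [V7_sum hm (fun _ => rfl) hp v2 hκ univ (fun y => ?_) (fun x => (Φ.prongs x : ℤ) - 2)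
      (fun c => (Φ.prongs (v c 0) : ℤ) - 2) (fun c j => by simp only [hq c j])]
    · have m0 : (V.m : ℤ) ≠ 0 := by exact_mod_cast (show V.m ≠ 0 by omega)
      refine mul_left_cancel₀ m0 ?_
      have h4 : ∀ c ∈ (univ : Finset Cu), (V.m : ℤ) * (V.mc c * ((Φ.prongs (v c 0) : ℤ) - 2)) =
          (V.prt c : ℤ) - 2 * V.m * V.mc c := by
        intro c _
        rw [← hprt, per]
        push_cast
        ring
      rw [mul_sum, sum_congr rfl h4, sum_sub_distrib, ← mul_sum]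
      have h5 : ((∑ c, V.prt c + V.m * 4 : ℕ) : ℤ) =
          ((V.m * (4 * g + 2 * ∑ c, V.mc c) : ℕ) : ℤ) := by rw [htot, hg]
      push_cast at h5
      linarith
    · rw [mem_filter, hS]
      rfl
  · have h4 := V7_sum hm (fun _ => rfl) hp v2 hκ Pn
      (X := (Pn.biUnion (V7_orb v V.per)).filter (· ∈ κ ⁻¹' {0}))
      (fun y => by rw [mem_filter, hP]; rfl) (fun _ => 1) (fun _ => 1) (fun _ _ => rfl)
    simp only [sum_const, nsmul_eq_mul, mul_one] at h4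
    rw [hn]
    exact_mod_cast h4

end Veer
end Pool.Agent.Work.MP_563a32_gt
end

-- merged part: Pool.Agent.Work.MP_563a32_gt.W0
section
/-! Veering triangulations whose weights depend linearly on parameters. -/

namespace Pool.Agent.Work.MP_563a32_gt
open Finset

def lin {k : ℕ} (v x : Fin k → ℕ) : ℕ := ∑ i, v i * x i

def linZ {k : ℕ} (v : Fin k → ℤ) (x : Fin k → ℕ) : ℤ := ∑ i, v i * x i

theorem lin_add {k : ℕ} {a b c : Fin k → ℕ} (h : ∀ i, a i + b i = c i) (x : Fin k → ℕ) :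
    lin a x + lin b x = lin c x := by
  simp only [lin, ← sum_add_distrib, ← add_mul, h]

theorem lin_le {k : ℕ} {a b : Fin k → ℕ} (h : ∀ i, a i ≤ b i) (x : Fin k → ℕ) :
    lin a x ≤ lin b x :=
  sum_le_sum fun i _ => Nat.mul_le_mul_right _ (h i)

theorem lin_cast {k : ℕ} (a x : Fin k → ℕ) : (lin a x : ℤ) = linZ (fun i => a i) x := by
  simp [lin, linZ]

theorem linZ_comb {k : ℕ} {a b c : Fin k → ℤ} {p q r : ℤ} (h : ∀ i, p * a i = q * b i + r * c i)
    (x : Fin k → ℕ) : p * linZ a x = q * linZ b x + r * linZ c x := by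
  simp only [linZ, mul_sum, ← sum_add_distrib]
  exact sum_congr rfl fun i _ => by rw [← mul_assoc, h i]; ring

structure Tab (U Cu : Type) (k : ℕ) where
  up : Equiv.Perm (U × Bool)
  red : U → Bool
  ed : U × Bool → Fin 3 → U
  sd : U × Bool → Fin 3 → Bool
  bt : Equiv.Perm U
  wv : U × Bool → Fin k → ℕ
  ov : U × Bool → Fin 3 → Fin k → ℕ
  offv : U → Fin k → ℕ
  cusp : U → Fin 4 → Cu
  root : Cu → U × Fin 4
  potv : U → Fin 4 → Fin k → ℤ
  pot0v : U → Fin k → ℤ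
  m : ℕ
  u0 : U
  i0 : Fin k
  Y : Cu → Fin k → ℤ
  Z : Cu → Fin k → ℤ
  al : U × Bool → Fin 3 → ℤ
  be : U × Bool → Fin 3 → ℤ
  g1 : Cu → (U × Bool) × Fin 3
  g2 : Cu → (U × Bool) × Fin 3
  co : Cu → Fin 4 → ℤ
  rk : U × Fin 4 → ℕ
  par : U × Fin 4 → (U × Bool) × Fin 3
  rk0 : U → ℕ
  par0 : U → U × Bool
  rf : Fin 4 → U → ℕ
  pf : Fin 2 → U → U

namespace Tab
variable {U Cu : Type} {k : ℕ} (T : Tab U Cu k)

def veer (x : Fin k → ℕ) : Veer U Cu where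
  up := T.up
  red := T.red
  ed := T.ed
  sd := T.sd
  bt := T.bt
  w F := lin (T.wv F) x
  o F l := lin (T.ov F l) x
  off u := lin (T.offv u) x
  cusp := T.cusp
  root := T.root
  pot u a := linZ (T.potv u a) x
  mc c := Int.gcd (linZ (T.Y c) x) (linZ (T.Z c) x)
  m := T.m
  pot0 u := linZ (T.pot0v u) x
  u0 := T.u0

abbrev V : Veer U Cu := T.veer fun _ => 0

def dv (d : (U × Bool) × Fin 3) (i : Fin k) : ℤ :=
  T.potv (T.V.lo d.1 d.2).1 (T.V.lo d.1 d.2).2 i - T.potv (T.V.hi d.1 d.2).1 (T.V.hi d.1 d.2).2 i -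
    T.wv d.1 i

def cu (d : (U × Bool) × Fin 3) : Cu := T.cusp (T.V.lo d.1 d.2).1 (T.V.lo d.1 d.2).2

def fev (u : U) : Fin 3 → Fin k → ℕ :=
  ![T.offv (T.bt⁻¹ u), T.ov (u, false) (if T.V.cb u then 2 else 1),
    T.ov (u, true) (if T.V.cb u then 2 else 1)]

structure Ok : Prop where
  w_pos : ∀ F, 1 ≤ T.wv F T.i0
  col_up : ∀ F, T.red F.1 = T.V.cb (T.up F).1
  ed_zero : ∀ F, T.ed F 0 = F.1
  sd_zero : ∀ F, T.sd F 0 = F.2
  o_zero : ∀ F i, T.ov F 0 i = 0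
  col_one : ∀ F, T.red (T.ed F 1) = true
  col_two : ∀ F, T.red (T.ed F 2) = false
  last : ∀ F l, l + T.V.sh F = 0 →
    T.bt (T.ed F l) = (T.up F).1 ∧ ∀ i, T.ov F l i + T.wv F i = T.offv (T.ed F l) i
  step : ∀ F l, l + T.V.sh F ≠ 0 → T.ed (T.V.nx F l).1 (T.V.nx F l).2 = T.ed F l ∧
    T.sd (T.V.nx F l).1 (T.V.nx F l).2 = T.sd F l ∧
    ∀ i, T.ov F l i + T.wv F i = T.ov (T.V.nx F l).1 (T.V.nx F l).2 i
  o_le : ∀ F l i, T.ov F l i + T.wv F i ≤ T.offv (T.ed F l) i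
  ft_to : ∀ u, u = T.u0 ∨ ∃ j, T.rf 0 (T.V.ft u j) < T.rf 0 u
  ft_from : ∀ u, u = T.u0 ∨ (∃ j, T.V.ft (T.pf 0 u) j = u) ∧ T.rf 1 (T.pf 0 u) < T.rf 1 u
  rt_to : ∀ u, u = T.u0 ∨ ∃ j, T.rf 2 (T.V.rt u j) < T.rf 2 u
  rt_from : ∀ u, u = T.u0 ∨ (∃ j, T.V.rt (T.pf 1 u) j = u) ∧ T.rf 3 (T.pf 1 u) < T.rf 3 u
  m_pos : 1 ≤ T.m
  Z_pos : ∀ c, (∀ i, 0 ≤ T.Z c i) ∧ 0 < T.Z c T.i0
  cusp_root : ∀ c, T.cusp (T.root c).1 (T.root c).2 = c
  cusp_lnk : ∀ F l, T.cu (F, l) = T.cusp (T.V.hi F l).1 (T.V.hi F l).2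
  disc_eq : ∀ F l i, 1 * T.dv (F, l) i =
    T.m * T.al F l * T.Y (T.cu (F, l)) i + T.m * T.be F l * T.Z (T.cu (F, l)) i
  tree : ∀ p : U × Fin 4, p = T.root (T.cusp p.1 p.2) ∨ (∀ i, T.dv (T.par p) i = 0) ∧
    ((p = T.V.lo (T.par p).1 (T.par p).2 ∧ T.rk (T.V.hi (T.par p).1 (T.par p).2) < T.rk p) ∨
      (p = T.V.hi (T.par p).1 (T.par p).2 ∧ T.rk (T.V.lo (T.par p).1 (T.par p).2) < T.rk p))
  gen : ∀ c, T.cu (T.g1 c) = c ∧ T.cu (T.g2 c) = c ∧
    (∀ i, T.m * T.Y c i = T.co c 0 * T.dv (T.g1 c) i + T.co c 1 * T.dv (T.g2 c) i) ∧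
    ∀ i, T.m * T.Z c i = T.co c 2 * T.dv (T.g1 c) i + T.co c 3 * T.dv (T.g2 c) i
  pot0_dvd : ∀ F i, (T.m : ℤ) ∣ T.pot0v F.1 i - T.pot0v (T.up F).1 i - T.wv F i
  tree0 : ∀ u, u = T.u0 ∨
    (∀ i, T.pot0v (T.par0 u).1 i = T.pot0v (T.up (T.par0 u)).1 i + T.wv (T.par0 u) i) ∧
    ((u = (T.par0 u).1 ∧ T.rk0 (T.up (T.par0 u)).1 < T.rk0 u) ∨
      (u = (T.up (T.par0 u)).1 ∧ T.rk0 (T.par0 u).1 < T.rk0 u))

theorem irr_of_rank {U : Type} {r : U → U → Prop} {u0 : U} (a b : U → ℕ)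
    (h1 : ∀ u, u = u0 ∨ ∃ u', r u u' ∧ a u' < a u) (h2 : ∀ u, u = u0 ∨ ∃ u', r u' u ∧ b u' < b u)
    (u u' : U) : Relation.ReflTransGen r u u' := by
  have k1 : ∀ n u, a u < n → Relation.ReflTransGen r u u0 := by
    intro n
    induction n with
    | zero => intro u h; omega
    | succ n ih =>
      intro u h
      rcases h1 u with rfl | ⟨v, hv, hl⟩
      · exact .refl
      · exact .head hv (ih v (by omega))
  have k2 : ∀ n u, b u < n → Relation.ReflTransGen r u0 u := by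
    intro n
    induction n with
    | zero => intro u h; omega
    | succ n ih =>
      intro u h
      rcases h2 u with rfl | ⟨v, hv, hl⟩
      · exact .refl
      · exact .tail (ih v (by omega)) hv
  exact (k1 _ u (Nat.lt_succ_self _)).trans (k2 _ u' (Nat.lt_succ_self _))

variable {T}

theorem disc_veer (x : Fin k → ℕ) (F : U × Bool) (l : Fin 3) :
    (T.veer x).disc F l = linZ (T.dv (F, l)) x := by
  show linZ _ x - linZ _ x - ((lin (T.wv F) x : ℕ) : ℤ) = _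
  rw [lin_cast]
  simp only [linZ, ← sum_sub_distrib, dv, sub_mul]
  rfl

theorem Ok.ax (h : T.Ok) (x : Fin k → ℕ) (hx : 1 ≤ x T.i0) (hone : ∃ c, (T.veer x).mc c = 1) :
    (T.veer x).Ax where
  w_pos F := by
    show 1 ≤ ∑ i, T.wv F i * x i
    exact le_trans (Nat.mul_le_mul (h.w_pos F) hx)
      (single_le_sum (f := fun i => T.wv F i * x i) (fun _ _ => Nat.zero_le _) (mem_univ _))
  col_up := h.col_up
  ed_zero := h.ed_zero
  sd_zero := h.sd_zero
  o_zero F := by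
    show ∑ i, T.ov F 0 i * x i = 0
    simp [h.o_zero]
  col_one := h.col_one
  col_two := h.col_two
  last F l hl := ⟨(h.last F l hl).1, lin_add (h.last F l hl).2 x⟩
  step F l hl := ⟨(h.step F l hl).1, (h.step F l hl).2.1, (lin_add (h.step F l hl).2.2 x).symm⟩
  o_le F l := (lin_add (fun _ => rfl) x).le.trans (lin_le (h.o_le F l) x)
  ft_irr := irr_of_rank (u0 := T.u0) (T.rf 0) (T.rf 1)
    (fun u => (h.ft_to u).imp id fun ⟨j, hj⟩ => ⟨_, ⟨j, rfl⟩, hj⟩)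
    (fun u => (h.ft_from u).imp id fun hj => ⟨_, hj.1, hj.2⟩)
  rt_irr := irr_of_rank (u0 := T.u0) (T.rf 2) (T.rf 3)
    (fun u => (h.rt_to u).imp id fun ⟨j, hj⟩ => ⟨_, ⟨j, rfl⟩, hj⟩)
    (fun u => (h.rt_from u).imp id fun hj => ⟨_, hj.1, hj.2⟩)
  m_pos := h.m_pos
  mc_pos c := by
    have : 0 < linZ (T.Z c) x := by
      refine lt_of_lt_of_le ?_ (single_le_sum (f := fun i => T.Z c i * x i)
        (fun i _ => mul_nonneg ((h.Z_pos c).1 i) (Int.natCast_nonneg _)) (mem_univ T.i0))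
      exact mul_pos (h.Z_pos c).2 (by exact_mod_cast hx)
    exact Int.gcd_pos_of_ne_zero_right _ this.ne'
  mc_one := hone
  cusp_root := h.cusp_root
  cusp_lnk := h.cusp_lnk
  disc_dvd F l := by
    have e := linZ_comb (h.disc_eq F l) x
    rw [disc_veer, ← one_mul (linZ _ x), e]
    show ((T.m * Int.gcd (linZ (T.Y (T.cu (F, l))) x) (linZ (T.Z (T.cu (F, l))) x) : ℕ) : ℤ) ∣ _
    push_cast
    rw [mul_assoc, mul_assoc, ← mul_add]
    exact mul_dvd_mul_left _ (dvd_add ((Int.gcd_dvd_left _ _).mul_left _)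
      ((Int.gcd_dvd_right _ _).mul_left _))
  tree p := by
    have key : ∀ n (p : U × Fin 4), T.rk p < n →
        Relation.EqvGen (T.veer x).Lnk p (T.root (T.cusp p.1 p.2)) := by
      intro n
      induction n with
      | zero => intro p hp; omega
      | succ n ih =>
        intro p hp
        rcases h.tree p with e | ⟨h0, hc⟩
        · rw [← e]; exact .refl _
        · have hd : (T.veer x).disc (T.par p).1 (T.par p).2 = 0 := by
            rw [disc_veer]; simp [linZ, h0]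
          have hl : (T.veer x).Lnk (T.V.lo (T.par p).1 (T.par p).2)
              (T.V.hi (T.par p).1 (T.par p).2) := ⟨_, _, rfl, rfl, hd⟩
          have hcu := h.cusp_lnk (T.par p).1 (T.par p).2
          rcases hc with ⟨e, hr⟩ | ⟨e, hr⟩
          · have := ih _ (lt_of_lt_of_le hr (by omega))
            rw [← hcu] at this
            have e' : T.cu ((T.par p).1, (T.par p).2) = T.cusp p.1 p.2 := by
              conv_rhs => rw [e]
              rfl
            rw [e'] at this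
            exact .trans _ _ _ (.rel _ _ (by rw [e]; convert hl using 2 <;> rw [← e])) this
          · have := ih _ (lt_of_lt_of_le hr (by omega))
            have e' : T.cu ((T.par p).1, (T.par p).2) = T.cusp p.1 p.2 := by
              rw [hcu]; conv_rhs => rw [e]
            have e'' : T.cusp (T.V.lo (T.par p).1 (T.par p).2).1 (T.V.lo (T.par p).1 (T.par p).2).2
                = T.cusp p.1 p.2 := e'
            rw [e''] at this
            exact .trans _ _ _ (.symm _ _ (.rel _ _ (by rw [← e] at hl; exact hl))) this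
    exact key _ p (Nat.lt_succ_self _)
  gen c := by
    obtain ⟨c1, c2, hY, hZ⟩ := h.gen c
    have eY := linZ_comb hY x
    have eZ := linZ_comb hZ x
    set S := AddSubgroup.closure {z | ∃ F l, (T.veer x).cusp ((T.veer x).lo F l).1
      ((T.veer x).lo F l).2 = c ∧ z = (T.veer x).disc F l}
    have m1 : linZ (T.dv (T.g1 c)) x ∈ S :=
      AddSubgroup.subset_closure ⟨(T.g1 c).1, (T.g1 c).2, c1, (disc_veer x _ _).symm⟩
    have m2 : linZ (T.dv (T.g2 c)) x ∈ S :=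
      AddSubgroup.subset_closure ⟨(T.g2 c).1, (T.g2 c).2, c2, (disc_veer x _ _).symm⟩
    have mY : T.m * linZ (T.Y c) x ∈ S := by
      rw [eY]; exact add_mem (S.zsmul_mem m1 _) (S.zsmul_mem m2 _)
    have mZ : T.m * linZ (T.Z c) x ∈ S := by
      rw [eZ]; exact add_mem (S.zsmul_mem m1 _) (S.zsmul_mem m2 _)
    show ((T.m * Int.gcd (linZ (T.Y c) x) (linZ (T.Z c) x) : ℕ) : ℤ) ∈ S
    push_cast
    rw [Int.gcd_eq_gcd_ab]
    have := add_mem (S.zsmul_mem mY ((linZ (T.Y c) x).gcdA (linZ (T.Z c) x)))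
      (S.zsmul_mem mZ ((linZ (T.Y c) x).gcdB (linZ (T.Z c) x)))
    convert this using 1
    simp only [smul_eq_mul]; ring
  pot0_dvd F := by
    show (T.m : ℤ) ∣ linZ _ x - linZ _ x - ((lin (T.wv F) x : ℕ) : ℤ)
    rw [lin_cast]
    simp only [linZ, ← sum_sub_distrib, ← sub_mul]
    exact dvd_sum fun i _ => (h.pot0_dvd F i).mul_right _
  tree0 u := by
    have key : ∀ n u, T.rk0 u < n → Relation.EqvGen (T.veer x).Lnk0 u T.u0 := by
      intro n
      induction n with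
      | zero => intro p hp; omega
      | succ n ih =>
        intro u hu
        rcases h.tree0 u with e | ⟨h0, hc⟩
        · rw [e]; exact .refl _
        · have hl : (T.veer x).Lnk0 (T.par0 u).1 (T.up (T.par0 u)).1 := by
            refine ⟨(T.par0 u).2, rfl, ?_⟩
            show linZ _ x = linZ _ x + ((lin (T.wv (T.par0 u)) x : ℕ) : ℤ)
            rw [lin_cast]
            simp only [linZ, ← sum_add_distrib, ← add_mul, h0]
          rcases hc with ⟨e, hr⟩ | ⟨e, hr⟩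
          · exact .trans _ _ _ (.rel _ _ (by rw [← e] at hl; exact hl))
              (ih _ (lt_of_lt_of_le hr (by omega)))
          · exact .trans _ _ _ (.symm _ _ (.rel _ _ (by rw [← e] at hl; exact hl)))
              (ih _ (lt_of_lt_of_le hr (by omega)))
    exact key _ u (Nat.lt_succ_self _)

theorem Ok.realise [Fintype U] [DecidableEq U] [Fintype Cu] [DecidableEq Cu] (h : T.Ok)
    (tot σ τ : Fin k → ℕ) (prt : Cu → Fin k → ℕ) (htot : ∀ i, ∑ F, T.wv F i = tot i)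
    (hprt : ∀ c i, ∑ F ∈ univ.filter (fun F : U × Bool => T.cusp F.1 (topV F.2 2) = c),
      T.wv F i = prt c i)
    (hστ : ∀ u, ∃ j₀, (∀ i, σ i ≤ T.fev u j₀ i) ∧ ∀ j, j ≠ j₀ → ∀ i, τ i ≤ T.fev u j i)
    (x : Fin k → ℕ) (hx : 1 ≤ x T.i0) (mc : Cu → ℕ)
    (hmc : ∀ c, Int.gcd (linZ (T.Y c) x) (linZ (T.Z c) x) = mc c) (hone : ∃ c, mc c = 1)
    (Pn : Finset Cu) (h3 : ∀ c, c ∉ Pn → 3 * (T.m * mc c) ≤ lin (prt c) x) {g n : ℕ}
    (hg : lin tot x + T.m * 4 = T.m * (4 * g + 2 * ∑ c, mc c)) (hn : n = ∑ c ∈ Pn, mc c)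
    (hs : 1 ≤ lin σ x) (hT : lin σ x ≤ lin τ x) : ∃ l ∈ Spectrum g n,
      l ≤ T.m * (3 * (Real.log (2 + (lin τ x : ℝ) / lin σ x) / lin τ x)) := by
  have hmc' : (T.veer x).mc = mc := funext hmc
  have hfe : ∀ u j, (T.veer x).fe u j = lin (T.fev u j) x := by
    intro u j; fin_cases j <;> rfl
  refine (h.ax x hx (by rw [hmc']; exact hone)).realise Pn ?_ ?_ (by rw [hmc']; exact hn) hs hT ?_
  · intro c hc
    have : (T.veer x).prt c = lin (prt c) x := by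
      simp only [Veer.prt, veer, lin]
      rw [sum_comm]
      exact sum_congr rfl fun i _ => by rw [← sum_mul, hprt]
    rw [this, Veer.per, hmc']; exact h3 c hc
  · have : ∑ F, (T.veer x).w F = lin tot x := by
      simp only [veer, lin]
      rw [sum_comm]
      exact sum_congr rfl fun i _ => by rw [← sum_mul, htot]
    rw [this, hmc']; exact hg
  · intro u
    obtain ⟨j₀, h1, h2⟩ := hστ u
    exact ⟨j₀, by rw [hfe]; exact lin_le h1 x, fun j hj => by rw [hfe]; exact lin_le (h2 j hj) x⟩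

end Tab
end Pool.Agent.Work.MP_563a32_gt
end
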